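import Pool.Agent.Lib.MP_0087d5_lc.UPM.FO

/-!
# Programs are computed by circuits

Jobs CB, CN, CX, CI, CF. A NAND gate without inputs has the value False, a NAND gate with one input is its negation.
All constructions add tags to the given circuits; FO-definability of the new wires: equalities of tuples are finite conjunctions (`FODef.allFin`).
-/

namespace Pool.Agent.UPM

variable {S : ℕ → Type} {B : Readers S} {ι κ : Type}

/-- Job CB. One tag with A = ι and inp = the reader. -/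
theorem Comp.base (hι : Finite ι) {P : RF S ι} (h : B ι P) : Comp S B ι P := by
  refine ⟨hι, ⟨Unit, inferInstance, fun _ => ι, fun _ => hι, fun _ => some ⟨ι, P, h, id⟩,
    fun _ _ _ _ _ => False, fun _ _ => FODef.const False⟩, (), id, 0, 0, fun n => ⟨?_, ?_⟩,
    fun n s => ⟨fun g => P n s g.2, fun g => Iff.rfl, fun x => Iff.rfl⟩⟩
  · intro g h₁ h₂ h₃ hw
    exact hw.elim
  · exact ⟨fun _ => 0, fun _ => Nat.zero_le _, fun g h hw => hw.elim⟩

/-- Job CB. Same circuit, output map composed with `e`. -/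
theorem Comp.comap {P : RF S ι} (hκ : Finite κ) (e : ι → κ) (h : Comp S B ι P) :
    Comp S B κ (fun n s x => P n s (fun i => x (e i))) := by
  obtain ⟨_, C, o, e', c, k, h1, h2⟩ := h
  refine ⟨hκ, C, o, fun i => e (e' i), c, k, h1, fun n s => ?_⟩
  obtain ⟨v, hv, hvx⟩ := h2 n s
  exact ⟨v, hv, fun x => hvx (fun i => x (e i))⟩

private def cbA (ι : Type) : Bool → Type
  | true => ι
  | false => Empty

private def cbWire {ι : Type} (P : ∀ n : ℕ, (ι → Fin n) → Prop) :
    ∀ (a b : Bool) (n : ℕ), (cbA ι a → Fin n) → (cbA ι b → Fin n) → Prop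
  | true, false => fun n x _ => P n x
  | true, true => fun _ _ _ => False
  | false, true => fun _ _ _ => False
  | false, false => fun _ _ _ => False

private def cbOC (S : ℕ → Type) (B : Readers S) {ι : Type} (hι : Finite ι)
    {P : ∀ n : ℕ, (ι → Fin n) → Prop} (h : FODef ι P) : OC S B where
  T := Bool
  finT := inferInstance
  A := cbA ι
  finA := fun t => match t with
    | true => hι
    | false => (inferInstance : Finite Empty)
  inp := fun _ => none
  wire := cbWire P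
  uniform := fun a b => match a, b with
    | true, false => FODef.comap (P := P) (fun i : ι => (Sum.inl i : ι ⊕ Empty)) h
    | true, true => FODef.const False
    | false, true => FODef.const False
    | false, false => FODef.const False

/-- Job CB. Two tags: `a` with A = ι and `z` with A = Empty; no inputs for z (value False); z is an input of (a, x) iff P n x. So the value of (a, x) is P n x. -/
theorem Comp.ofFO (hι : Finite ι) {P : ∀ n : ℕ, (ι → Fin n) → Prop} (h : FODef ι P) : Comp S B ι (fun n _ x => P n x) := by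
  have hw : ∀ (n : ℕ) (g k : (cbOC S B hι h).Gate n), (cbOC S B hι h).Wire n g k →
      (∃ x : ι → Fin n, g = ⟨true, x⟩ ∧ P n x) ∧ k = ⟨false, fun i : Empty => i.elim⟩ := by
    rintro n ⟨a, x⟩ ⟨b, y⟩ hgk
    cases a with
    | true =>
      cases b with
      | true => exact hgk.elim
      | false =>
        refine ⟨⟨x, rfl, hgk⟩, ?_⟩
        have : y = fun i : Empty => i.elim := by
          funext i
          exact (i : Empty).elim
        rw [this]
    | false =>
      cases b with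
      | true => exact hgk.elim
      | false => exact hgk.elim
  refine ⟨hι, cbOC S B hι h, true, id, 1, 0, fun n => ⟨?_, ?_⟩, fun n s => ?_⟩
  · intro g h₁ h₂ h₃ hw1 hw2 _
    exact Or.inl ((hw n _ _ hw1).2.trans (hw n _ _ hw2).2.symm)
  · refine ⟨fun g => Bool.toNat g.1, fun g => ?_, fun g k hgk => ?_⟩
    · simp only [pow_zero, mul_one]
      exact Bool.toNat_le g.1
    · obtain ⟨⟨x, hx, -⟩, hk⟩ := hw n g k hgk
      rw [hx, hk]
      exact Nat.zero_lt_one
  · refine ⟨fun g => ∃ x : ι → Fin n, g = ⟨true, x⟩ ∧ P n x, fun g => ?_, fun x => ?_⟩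
    · show (∃ x : ι → Fin n, g = ⟨true, x⟩ ∧ P n x) ↔
        ¬ ∀ k, (cbOC S B hι h).Wire n g k → ∃ x : ι → Fin n, k = ⟨true, x⟩ ∧ P n x
      constructor
      · rintro ⟨x, rfl, hx⟩ hall
        obtain ⟨y, hy, -⟩ := hall ⟨false, fun i : Empty => i.elim⟩ hx
        have h4 : false = true := congrArg Sigma.fst hy
        exact Bool.noConfusion h4
      · intro hn
        push Not at hn
        obtain ⟨k, hk, -⟩ := hn
        exact (hw n g k hk).1
    · constructor
      · rintro ⟨y, hy, hP⟩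
        have h3 : (fun i => x (id i)) = y := eq_of_heq (Sigma.mk.inj hy).2
        rw [← h3] at hP
        exact hP
      · intro hP
        exact ⟨x, rfl, hP⟩

theorem cn_congr {ι : Type} {P Q : ∀ n : ℕ, (ι → Fin n) → Prop} (h : FODef ι P) (hPQ : ∀ n x, P n x ↔ Q n x) : FODef ι Q := by
  have e : P = Q := by
    funext n x
    exact propext (hPQ n x)
  rwa [← e]

/-- New gates on top of a circuit. -/
structure CnNew (C : OC S B) where
  T : Type
  finT : Finite T
  A : T → Type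
  finA : ∀ t, Finite (A t)
  inp : ∀ t, Option ((ι : Type) ×' (P : RF S ι) ×' (_ : B ι P) ×' (ι → A t))
  w1 : ∀ (a : T) (b : C.T) (n : ℕ), (A a → Fin n) → (C.A b → Fin n) → Prop
  w2 : ∀ (a b : T) (n : ℕ), (A a → Fin n) → (A b → Fin n) → Prop
  u1 : ∀ a b, FODef (A a ⊕ C.A b) (fun n z => w1 a b n (fun i => z (Sum.inl i)) (fun i => z (Sum.inr i)))
  u2 : ∀ a b, FODef (A a ⊕ A b) (fun n z => w2 a b n (fun i => z (Sum.inl i)) (fun i => z (Sum.inr i)))

/-- The circuit with the new gates. -/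
def CnNew.ext {C : OC S B} (N : CnNew C) : OC S B where
  T := C.T ⊕ N.T
  finT := by
    have h1 := C.finT
    have h2 := N.finT
    infer_instance
  A := Sum.elim C.A N.A
  finA := by
    rintro (t | t)
    · exact C.finA t
    · exact N.finA t
  inp := fun t => match t with
    | Sum.inl t => C.inp t
    | Sum.inr t => N.inp t
  wire := fun a b n => match a, b with
    | Sum.inl a, Sum.inl b => C.wire a b n
    | Sum.inl _, Sum.inr _ => fun _ _ => False
    | Sum.inr a, Sum.inl b => N.w1 a b n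
    | Sum.inr a, Sum.inr b => N.w2 a b n
  uniform := by
    rintro (a | a) (b | b)
    · exact C.uniform a b
    · exact FODef.const False
    · exact N.u1 a b
    · exact N.u2 a b

/-- Values for the circuit with the new gates. -/
def CnNew.val {C : OC S B} (N : CnNew C) {n : ℕ} (v : C.Gate n → Prop) (v₂ : ∀ a, (N.A a → Fin n) → Prop) : N.ext.Gate n → Prop
  | ⟨Sum.inl t, x⟩ => v ⟨t, x⟩
  | ⟨Sum.inr a, x⟩ => v₂ a x

theorem CnNew.bounds {C : OC S B} (N : CnNew C) {n d₁ d₂ : ℕ} (h1 : C.FanInTwo n) (h2 : C.DepthLE n d₁)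
    (lev : ∀ a, (N.A a → Fin n) → ℕ) (hl : ∀ a x, lev a x ≤ d₂) (hw : ∀ a b x y, N.w2 a b n x y → lev b y < lev a x)
    (hfan : ∀ a x, ∀ h₁ h₂ h₃ : N.ext.Gate n, N.ext.Wire n ⟨Sum.inr a, x⟩ h₁ → N.ext.Wire n ⟨Sum.inr a, x⟩ h₂ →
      N.ext.Wire n ⟨Sum.inr a, x⟩ h₃ → h₁ = h₂ ∨ h₁ = h₃ ∨ h₂ = h₃) :
    N.ext.FanInTwo n ∧ N.ext.DepthLE n (d₁ + 1 + d₂) := by
  constructor
  · rintro ⟨a | a, x⟩ h₁ h₂ h₃ w₁ w₂ w₃
    · obtain ⟨b₁ | b₁, y₁⟩ := h₁
      · obtain ⟨b₂ | b₂, y₂⟩ := h₂
        · obtain ⟨b₃ | b₃, y₃⟩ := h₃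
          · have inj : ∀ (b b' : C.T) (y : C.A b → Fin n) (y' : C.A b' → Fin n), (⟨b, y⟩ : C.Gate n) = ⟨b', y'⟩ →
                (⟨Sum.inl b, y⟩ : N.ext.Gate n) = ⟨Sum.inl b', y'⟩ := by
              intro b b' y y' he
              cases he
              rfl
            rcases h1 ⟨a, x⟩ ⟨b₁, y₁⟩ ⟨b₂, y₂⟩ ⟨b₃, y₃⟩ w₁ w₂ w₃ with h | h | h
            · exact Or.inl (inj _ _ _ _ h)
            · exact Or.inr (Or.inl (inj _ _ _ _ h))
            · exact Or.inr (Or.inr (inj _ _ _ _ h))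
          · exact absurd w₃ id
        · exact absurd w₂ id
      · exact absurd w₁ id
    · exact hfan a x h₁ h₂ h₃ w₁ w₂ w₃
  · obtain ⟨l, hl1, hl2⟩ := h2
    refine ⟨fun g => match g with
      | ⟨Sum.inl t, x⟩ => l ⟨t, x⟩
      | ⟨Sum.inr a, x⟩ => d₁ + 1 + lev a x, ?_, ?_⟩
    · rintro ⟨a | a, x⟩
      · have h := hl1 ⟨a, x⟩
        show l ⟨a, x⟩ ≤ _
        omega
      · have h := hl a x
        show d₁ + 1 + lev a x ≤ _
        omega
    · rintro ⟨a | a, x⟩ ⟨b | b, y⟩ w
      · exact hl2 ⟨a, x⟩ ⟨b, y⟩ w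
      · exact absurd w id
      · have h := hl1 ⟨b, y⟩
        show l ⟨b, y⟩ < d₁ + 1 + lev a x
        omega
      · have h := hw a b x y w
        show d₁ + 1 + lev b y < d₁ + 1 + lev a x
        omega

theorem cn_consistent_iff {C : OC S B} {n : ℕ} {s : S n} {v : C.Gate n → Prop} : C.Consistent n s v ↔
    ∀ (a : C.T) (x : C.A a → Fin n), (∀ r, C.inp a = some r → (v ⟨a, x⟩ ↔ r.2.1 n s (fun i => x (r.2.2.2 i)))) ∧
      (C.inp a = none → (v ⟨a, x⟩ ↔ ¬ ∀ (b : C.T) (y : C.A b → Fin n), C.wire a b n x y → v ⟨b, y⟩)) := by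
  constructor
  · intro h a x
    have h1 := h ⟨a, x⟩
    constructor
    · intro r hr
      dsimp only at h1
      rw [hr] at h1
      exact h1
    · intro hr
      dsimp only at h1
      rw [hr] at h1
      refine h1.trans (not_congr ?_)
      exact ⟨fun h2 b y w => h2 ⟨b, y⟩ w, fun h2 g w => h2 g.1 g.2 w⟩
  · intro h g
    obtain ⟨a, x⟩ := g
    obtain ⟨h1, h2⟩ := h a x
    dsimp only
    cases hr : C.inp a with
    | some r => exact h1 r hr
    | none =>
      refine (h2 hr).trans (not_congr ?_)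
      exact ⟨fun h2 g w => h2 g.1 g.2 w, fun h2 b y w => h2 ⟨b, y⟩ w⟩

theorem CnNew.consistent {C : OC S B} (N : CnNew C) {n : ℕ} {s : S n} {v : C.Gate n → Prop} {v₂ : ∀ a, (N.A a → Fin n) → Prop}
    (hv : C.Consistent n s v)
    (h₂s : ∀ a x r, N.inp a = some r → (v₂ a x ↔ r.2.1 n s (fun i => x (r.2.2.2 i))))
    (h₂n : ∀ a x, N.inp a = none → (v₂ a x ↔ ¬ ((∀ b y, N.w1 a b n x y → v ⟨b, y⟩) ∧ ∀ b y, N.w2 a b n x y → v₂ b y))) :
    N.ext.Consistent n s (N.val v v₂) := by
  rw [cn_consistent_iff] at hv ⊢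
  rintro (a | a) x
  · obtain ⟨h1, h2⟩ := hv a x
    refine ⟨fun r hr => h1 r hr, fun hr => (h2 hr).trans (not_congr ?_)⟩
    constructor
    · rintro h' (b | b) y w
      · exact h' b y w
      · exact absurd w id
    · intro h' b y w
      exact h' (Sum.inl b) y w
  · refine ⟨fun r hr => h₂s a x r hr, fun hr => (h₂n a x hr).trans (not_congr ?_)⟩
    constructor
    · rintro ⟨h1, h2⟩ (b | b) y w
      · exact h1 b y w
      · exact h2 b y w
    · intro h'
      exact ⟨fun b y w => h' (Sum.inl b) y w, fun b y w => h' (Sum.inr b) y w⟩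

theorem cn_pigeon {α : Type*} {p q h₁ h₂ h₃ : α} (w₁ : h₁ = p ∨ h₁ = q) (w₂ : h₂ = p ∨ h₂ = q) (w₃ : h₃ = p ∨ h₃ = q) :
    h₁ = h₂ ∨ h₁ = h₃ ∨ h₂ = h₃ := by
  rcases w₁ with w₁ | w₁ <;> rcases w₂ with w₂ | w₂ <;> rcases w₃ with w₃ | w₃ <;> subst w₁ <;> simp_all

/-- Definability of the wire to an output gate. -/
theorem cn_fo_out (C : OC S B) (o b : C.T) {κ : Type} (e : C.A o → κ) :
    FODef (κ ⊕ C.A b) (fun n z => (⟨b, fun i => z (Sum.inr i)⟩ : C.Gate n) = ⟨o, fun i => z (Sum.inl (e i))⟩) := by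
  have hf := C.finA o
  by_cases hb : b = o
  · subst hb
    refine cn_congr (FODef.allFin (J := C.A b) (P := fun i n z => z (Sum.inr i) = z (Sum.inl (e i)))
      (fun i => FODef.eq (Sum.inr i) (Sum.inl (e i)))) ?_
    intro n z
    constructor
    · intro h
      congr 1
      funext i
      exact h i
    · intro h i
      have h2 := eq_of_heq (Sigma.mk.inj h).2
      exact congrFun h2 i
  · refine cn_congr (FODef.const False) ?_
    intro n z
    constructor
    · exact fun h => h.elim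
    · intro h
      exact absurd (Sigma.mk.inj h).1 hb

theorem cn_depth {c k n : ℕ} : c * (Nat.log 2 n + 1) ^ k + 1 + 1 ≤ (c + 2) * (Nat.log 2 n + 1) ^ k := by
  have h : 1 ≤ (Nat.log 2 n + 1) ^ k := Nat.one_le_pow _ _ (by omega)
  nlinarith

/-- The disjoint union of two circuits. -/
def cnUnion (C₁ C₂ : OC S B) : CnNew C₁ where
  T := C₂.T
  finT := C₂.finT
  A := C₂.A
  finA := C₂.finA
  inp := C₂.inp
  w1 := fun _ _ _ _ _ => False
  w2 := C₂.wire
  u1 := fun _ _ => FODef.const False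
  u2 := C₂.uniform

theorem cn_union_bounds {C₁ C₂ : OC S B} {n d₁ d₂ : ℕ} (h1 : C₁.FanInTwo n) (h2 : C₁.DepthLE n d₁) (h3 : C₂.FanInTwo n)
    (h4 : C₂.DepthLE n d₂) : (cnUnion C₁ C₂).ext.FanInTwo n ∧ (cnUnion C₁ C₂).ext.DepthLE n (d₁ + 1 + d₂) := by
  obtain ⟨l, hl1, hl2⟩ := h4
  refine (cnUnion C₁ C₂).bounds h1 h2 (fun a x => l ⟨a, x⟩) (fun a x => hl1 _) (fun a b x y w => hl2 ⟨a, x⟩ ⟨b, y⟩ w) ?_
  rintro a x ⟨b₁ | b₁, y₁⟩ ⟨b₂ | b₂, y₂⟩ ⟨b₃ | b₃, y₃⟩ w₁ w₂ w₃
  · exact absurd w₁ id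
  · exact absurd w₁ id
  · exact absurd w₁ id
  · exact absurd w₁ id
  · exact absurd w₂ id
  · exact absurd w₂ id
  · exact absurd w₃ id
  · have inj : ∀ (b b' : C₂.T) (y : C₂.A b → Fin n) (y' : C₂.A b' → Fin n), (⟨b, y⟩ : C₂.Gate n) = ⟨b', y'⟩ →
        (⟨Sum.inr b, y⟩ : (cnUnion C₁ C₂).ext.Gate n) = ⟨Sum.inr b', y'⟩ := by
      intro b b' y y' he
      cases he
      rfl
    rcases h3 ⟨a, x⟩ ⟨b₁, y₁⟩ ⟨b₂, y₂⟩ ⟨b₃, y₃⟩ w₁ w₂ w₃ with h | h | h
    · exact Or.inl (inj _ _ _ _ h)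
    · exact Or.inr (Or.inl (inj _ _ _ _ h))
    · exact Or.inr (Or.inr (inj _ _ _ _ h))

theorem cn_union_consistent {C₁ C₂ : OC S B} {n : ℕ} {s : S n} {v₁ : C₁.Gate n → Prop} {v₂ : C₂.Gate n → Prop}
    (h1 : C₁.Consistent n s v₁) (h2 : C₂.Consistent n s v₂) :
    (cnUnion C₁ C₂).ext.Consistent n s ((cnUnion C₁ C₂).val v₁ (fun a x => v₂ ⟨a, x⟩)) := by
  rw [cn_consistent_iff] at h2
  refine (cnUnion C₁ C₂).consistent h1 (fun a x r hr => (h2 a x).1 r hr) (fun a x hr => ((h2 a x).2 hr).trans (not_congr ?_))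
  constructor
  · intro h'
    exact ⟨fun _ _ hf => absurd hf id, fun b y w => h' b y w⟩
  · rintro ⟨_, h'⟩ b y w
    exact h' b y w

/-- Job CN. New tag with A = ι; its only input is the output gate (o, x ∘ e). -/
theorem Comp.not {P : RF S ι} (h : Comp S B ι P) : Comp S B ι (fun n s x => ¬ P n s x) := by
  obtain ⟨hι, C, o, e, c, k, hC, hv⟩ := h
  let N : CnNew C :=
    { T := Unit
      finT := inferInstance
      A := fun _ => ι
      finA := fun _ => hι
      inp := fun _ => none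
      w1 := fun _ b n x y => (⟨b, y⟩ : C.Gate n) = ⟨o, fun i => x (e i)⟩
      w2 := fun _ _ _ _ _ => False
      u1 := fun _ b => cn_fo_out C o b e
      u2 := fun _ _ => FODef.const False }
  refine ⟨hι, N.ext, Sum.inr (), id, c + 2, k, ?_, ?_⟩
  · intro n
    have hb := N.bounds (n := n) (d₂ := 0) (hC n).1 (hC n).2 (fun _ _ => 0) (fun _ _ => le_rfl) (fun _ _ _ _ w => absurd w id) (by
      rintro a x ⟨b₁ | b₁, y₁⟩ ⟨b₂ | b₂, y₂⟩ ⟨b₃ | b₃, y₃⟩ w₁ w₂ w₃
      · left
        have h1 : (⟨b₁, y₁⟩ : C.Gate n) = ⟨b₂, y₂⟩ := Eq.trans w₁ (Eq.symm w₂)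
        cases h1
        rfl
      · exact absurd w₃ id
      · exact absurd w₂ id
      · exact absurd w₂ id
      · exact absurd w₁ id
      · exact absurd w₁ id
      · exact absurd w₁ id
      · exact absurd w₁ id)
    refine ⟨hb.1, ?_⟩
    obtain ⟨l, hl1, hl2⟩ := hb.2
    refine ⟨l, fun g => (hl1 g).trans ?_, hl2⟩
    have := cn_depth (c := c) (k := k) (n := n)
    omega
  · intro n s
    obtain ⟨v, hcons, hval⟩ := hv n s
    refine ⟨N.val v (fun _ x => ¬ v ⟨o, fun i => x (e i)⟩), N.consistent hcons (fun a x r hr => ?_) (fun a x _ => ?_), ?_⟩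
    · exact absurd hr (by simp [N])
    · show ¬ v ⟨o, fun i => x (e i)⟩ ↔ ¬ ((∀ b y, (⟨b, y⟩ : C.Gate n) = ⟨o, fun i => x (e i)⟩ → v ⟨b, y⟩) ∧
        ∀ (_ : Unit) (y : ι → Fin n), False → ¬ v ⟨o, fun i => y (e i)⟩)
      apply not_congr
      constructor
      · intro h1
        refine ⟨fun b y hby => ?_, fun _ _ hf => hf.elim⟩
        rw [hby]
        exact h1
      · rintro ⟨h1, _⟩
        exact h1 _ _ rfl
    · intro x
      exact not_congr (hval x)

/-- Job CN. Tags of both circuits and two new ones: NAND of both outputs, and its negation. -/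
theorem Comp.and {P Q : RF S ι} (hP : Comp S B ι P) (hQ : Comp S B ι Q) : Comp S B ι (fun n s x => P n s x ∧ Q n s x) := by
  obtain ⟨hι, C₁, o₁, e₁, c₁, k₁, hC₁, hv₁⟩ := hP
  obtain ⟨_, C₂, o₂, e₂, c₂, k₂, hC₂, hv₂⟩ := hQ
  let C : OC S B := (cnUnion C₁ C₂).ext
  let f₁ : ∀ n, (ι → Fin n) → C.Gate n := fun n x => ⟨Sum.inl o₁, fun i => x (e₁ i)⟩
  let f₂ : ∀ n, (ι → Fin n) → C.Gate n := fun n x => ⟨Sum.inr o₂, fun i => x (e₂ i)⟩
  let N : CnNew C :=
    { T := Bool
      finT := inferInstance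
      A := fun _ => ι
      finA := fun _ => hι
      inp := fun _ => none
      w1 := fun a b n x y => a = false ∧ ((⟨b, y⟩ : C.Gate n) = f₁ n x ∨ (⟨b, y⟩ : C.Gate n) = f₂ n x)
      w2 := fun a b n x y => a = true ∧ b = false ∧ ∀ i, y i = x i
      u1 := fun a b => (FODef.const (a = false)).and
        ((cn_fo_out C (Sum.inl o₁) b e₁).or (cn_fo_out C (Sum.inr o₂) b e₂))
      u2 := fun a b => (FODef.const (a = true)).and ((FODef.const (b = false)).and
        (FODef.allFin (J := ι) (P := fun i n z => z (Sum.inr i) = z (Sum.inl i)) (fun i => FODef.eq _ _))) }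
  refine ⟨hι, N.ext, Sum.inr true, id, c₁ + c₂ + 4, k₁ + k₂, ?_, ?_⟩
  · intro n
    have hu := cn_union_bounds (hC₁ n).1 (hC₁ n).2 (hC₂ n).1 (hC₂ n).2
    have hb := N.bounds (n := n) (d₂ := 1) hu.1 hu.2 (fun a _ => if a = true then 1 else 0)
      (fun a _ => by
        show (if a = true then 1 else 0) ≤ 1
        split_ifs <;> omega)
      (fun a b _ _ w => by
        obtain ⟨wa, wb, _⟩ := w
        show (if b = true then 1 else 0) < (if a = true then 1 else 0)
        rw [wa, wb]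
        simp) (by
      intro a x h₁ h₂ h₃ w₁ w₂ w₃
      have key1 : a = false → ∀ h : N.ext.Gate n, N.ext.Wire n ⟨Sum.inr a, x⟩ h →
          h = ⟨Sum.inl (Sum.inl o₁), fun i => x (e₁ i)⟩ ∨ h = ⟨Sum.inl (Sum.inr o₂), fun i => x (e₂ i)⟩ := by
        rintro ha ⟨b | b, y⟩ w
        · obtain ⟨wa, w⟩ := w
          rcases w with w | w
          · left
            have w' : (⟨b, y⟩ : C.Gate n) = ⟨Sum.inl o₁, fun i => x (e₁ i)⟩ := w
            cases w'
            rfl
          · right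
            have w' : (⟨b, y⟩ : C.Gate n) = ⟨Sum.inr o₂, fun i => x (e₂ i)⟩ := w
            cases w'
            rfl
        · obtain ⟨wa, wb, w⟩ := w
          exact (Bool.false_ne_true (ha.symm.trans wa)).elim
      have key2 : a = true → ∀ h : N.ext.Gate n, N.ext.Wire n ⟨Sum.inr a, x⟩ h → h = ⟨Sum.inr false, x⟩ := by
        rintro ha ⟨b | b, y⟩ w
        · obtain ⟨wa, w⟩ := w
          exact (Bool.false_ne_true (ha.symm.trans wa).symm).elim
        · obtain ⟨wa, wb, w⟩ := w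
          have wb' : b = false := wb
          subst wb'
          have e : y = x := funext w
          rw [e]
      cases ha : a with
      | false => exact cn_pigeon (key1 ha _ w₁) (key1 ha _ w₂) (key1 ha _ w₃)
      | true => exact Or.inl ((key2 ha _ w₁).trans (key2 ha _ w₂).symm))
    refine ⟨hb.1, ?_⟩
    obtain ⟨l, hl1, hl2⟩ := hb.2
    refine ⟨l, fun g => (hl1 g).trans ?_, hl2⟩
    have hp1 : 1 ≤ (Nat.log 2 n + 1) ^ k₁ := Nat.one_le_pow _ _ (by omega)
    have hp2 : 1 ≤ (Nat.log 2 n + 1) ^ k₂ := Nat.one_le_pow _ _ (by omega)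
    have hp : (Nat.log 2 n + 1) ^ (k₁ + k₂) = (Nat.log 2 n + 1) ^ k₁ * (Nat.log 2 n + 1) ^ k₂ := pow_add _ _ _
    rw [hp]
    have i1 : c₁ * (Nat.log 2 n + 1) ^ k₁ ≤ c₁ * ((Nat.log 2 n + 1) ^ k₁ * (Nat.log 2 n + 1) ^ k₂) := by
      apply Nat.mul_le_mul_left
      exact Nat.le_mul_of_pos_right _ hp2
    have i2 : c₂ * (Nat.log 2 n + 1) ^ k₂ ≤ c₂ * ((Nat.log 2 n + 1) ^ k₁ * (Nat.log 2 n + 1) ^ k₂) := by
      apply Nat.mul_le_mul_left
      exact Nat.le_mul_of_pos_left _ hp1
    have i3 : 1 ≤ (Nat.log 2 n + 1) ^ k₁ * (Nat.log 2 n + 1) ^ k₂ := Nat.mul_pos hp1 hp2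
    nlinarith
  · intro n s
    obtain ⟨v₁, hcons₁, hval₁⟩ := hv₁ n s
    obtain ⟨v₂, hcons₂, hval₂⟩ := hv₂ n s
    have hcu := cn_union_consistent hcons₁ hcons₂
    set v : C.Gate n → Prop := (cnUnion C₁ C₂).val v₁ (fun a x => v₂ ⟨a, x⟩) with hvdef
    refine ⟨N.val v (fun a x => match a with
      | true => P n s x ∧ Q n s x
      | false => ¬ (P n s x ∧ Q n s x)), N.consistent hcu (fun a x r hr => ?_) (fun a x _ => ?_), ?_⟩
    · exact absurd hr (by simp [N])
    · have hf₁ : v (f₁ n x) ↔ P n s x := hval₁ x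
      have hf₂ : v (f₂ n x) ↔ Q n s x := hval₂ x
      cases a with
      | false =>
        show ¬ (P n s x ∧ Q n s x) ↔ _
        apply not_congr
        constructor
        · rintro ⟨h1, h2⟩
          refine ⟨?_, ?_⟩
          · rintro b y ⟨_, hby | hby⟩
            · rw [hby]
              exact hf₁.2 h1
            · rw [hby]
              exact hf₂.2 h2
          · rintro b y ⟨hf, _⟩
            exact absurd hf (by decide)
        · rintro ⟨h', _⟩
          exact ⟨hf₁.1 (h' _ _ ⟨rfl, Or.inl rfl⟩), hf₂.1 (h' _ _ ⟨rfl, Or.inr rfl⟩)⟩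
      | true =>
        show (P n s x ∧ Q n s x) ↔ _
        constructor
        · rintro h1 ⟨_, h'⟩
          exact h' false x ⟨rfl, rfl, fun _ => rfl⟩ h1
        · intro h'
          by_contra hcon
          apply h'
          refine ⟨?_, ?_⟩
          · rintro b y ⟨hf, _⟩
            exact absurd hf (by decide)
          · rintro b y ⟨_, hb, hy⟩
            have hb' : b = false := hb
            subst hb'
            have e : y = x := funext hy
            rw [e]
            exact hcon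
    · intro x
      exact Iff.rfl

/-- node i lies above the leaf with number j -/
def CxBel (i j : ℕ) : Prop := 1 ≤ i ∧ ∃ k, j / 2 ^ k = i

theorem cx_bel_root {j : ℕ} (hj : 1 ≤ j) : CxBel 1 j := by
  refine ⟨le_rfl, Nat.log 2 j, ?_⟩
  have h1 : 2 ^ Nat.log 2 j ≤ j := Nat.pow_log_le_self 2 (by omega)
  have h2 : j < 2 ^ (Nat.log 2 j + 1) := Nat.lt_pow_succ_log_self (by norm_num) j
  have h3 : 0 < 2 ^ Nat.log 2 j := by positivity
  rw [Nat.div_eq_iff h3]
  rw [pow_succ] at h2
  omega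

theorem cx_bel_step {n i j : ℕ} (hi : i < n) (hj : n ≤ j) (hj2 : j < 2 * n) : CxBel i j ↔
    1 ≤ i ∧ ((∃ c, (c = 2 * i ∨ c = 2 * i + 1) ∧ c < n ∧ CxBel c j) ∨ (j = 2 * i ∨ j = 2 * i + 1)) := by
  constructor
  · rintro ⟨h1, k, hk⟩
    refine ⟨h1, ?_⟩
    cases k with
    | zero =>
      rw [pow_zero, Nat.div_one] at hk
      omega
    | succ k =>
      rw [pow_succ, ← Nat.div_div_eq_div_mul] at hk
      have h2 : j / 2 ^ k = 2 * i ∨ j / 2 ^ k = 2 * i + 1 := by omega
      by_cases hc : j / 2 ^ k < n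
      · exact Or.inl ⟨j / 2 ^ k, h2, hc, by omega, k, rfl⟩
      · right
        cases k with
        | zero =>
          rw [pow_zero, Nat.div_one] at h2
          exact h2
        | succ k =>
          exfalso
          rw [pow_succ, ← Nat.div_div_eq_div_mul] at hc
          have h3 : j / 2 ^ k ≤ j := Nat.div_le_self _ _
          omega
  · rintro ⟨h1, h2⟩
    refine ⟨h1, ?_⟩
    rcases h2 with ⟨c, hc, _, _, k, hk⟩ | h2
    · refine ⟨k + 1, ?_⟩
      rw [pow_succ, ← Nat.div_div_eq_div_mul, hk]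
      omega
    · refine ⟨1, ?_⟩
      rw [pow_one]
      omega

theorem cx_fo_one (i : ι) : FODef ι (fun _ x => (x i : ℕ) = 1) := by
  refine cn_congr (FODef.ex (ι := ι) (P := fun _ z => (z none : ℕ) = 0 ∧ (z (some i) : ℕ) = (z none : ℕ) + 1)
    ((FODef.zero none).and (FODef.succ (some i) none))) ?_
  intro n x
  constructor
  · rintro ⟨a, h1, h2⟩
    have h1' : (a : ℕ) = 0 := h1
    have h2' : (x i : ℕ) = (a : ℕ) + 1 := h2
    omega
  · intro h
    have hn : 0 < n := lt_of_le_of_lt (Nat.zero_le _) (x i).2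
    refine ⟨⟨0, hn⟩, rfl, ?_⟩
    show (x i : ℕ) = 0 + 1
    omega

theorem cx_size_dbl {i : ℕ} (hi : 1 ≤ i) : Nat.size (2 * i) = Nat.size i + 1 ∧ Nat.size (2 * i + 1) = Nat.size i + 1 := by
  constructor
  · have h : Nat.size (Nat.bit false i) = (Nat.size i).succ := Nat.size_bit (by simp [Nat.bit]; omega)
    simpa [Nat.bit] using h
  · have h : Nat.size (Nat.bit true i) = (Nat.size i).succ := Nat.size_bit (by simp [Nat.bit])
    simpa [Nat.bit] using h

/-- The gates of the tree: 0 = leaves, 1 = negations, 2 = inner nodes. -/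
def cxTree (C : OC S B) (hι : Finite (Option ι)) (o : C.T) (e : C.A o → Option ι) : CnNew C where
  T := Fin 3
  finT := inferInstance
  A := fun _ => Option ι
  finA := fun _ => hι
  inp := fun _ => none
  w1 := fun a b n x y => a = 0 ∧ (⟨b, y⟩ : C.Gate n) = ⟨o, fun i => x (e i)⟩
  w2 := fun a b n x y => (∀ i : ι, y (some i) = x (some i)) ∧
    ((a = 1 ∧ b = 2 ∧ y none = x none) ∨
      ((a = 2 ∧ b = 1 ∧ ¬ (x none : ℕ) = 0 ∧ ((y none : ℕ) = 2 * (x none : ℕ) ∨ (y none : ℕ) = 2 * (x none : ℕ) + 1)) ∨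
      (a = 2 ∧ b = 0 ∧ ¬ (x none : ℕ) = 0 ∧ ((y none : ℕ) + n = 2 * (x none : ℕ) ∨ (y none : ℕ) + n = 2 * (x none : ℕ) + 1))))
  u1 := fun a b => (FODef.const (a = 0)).and (cn_fo_out C o b e)
  u2 := fun a b => by
    have hι' : Finite ι := Finite.of_injective (some : ι → Option ι) (Option.some_injective ι)
    exact (FODef.allFin (J := ι) (P := fun i n z => z (Sum.inr (some i)) = z (Sum.inl (some i))) (fun i => FODef.eq _ _)).and
      (((FODef.const (a = 1)).and ((FODef.const (b = 2)).and (FODef.eq (Sum.inr none) (Sum.inl none)))).or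
      (((FODef.const (a = 2)).and ((FODef.const (b = 1)).and ((FODef.zero (Sum.inl none)).not.and
        ((FODef.dbl (Sum.inr none) (Sum.inl none)).or (FODef.dblsucc (Sum.inr none) (Sum.inl none)))))).or
      ((FODef.const (a = 2)).and ((FODef.const (b = 0)).and ((FODef.zero (Sum.inl none)).not.and
        ((FODef.leaf0 (Sum.inr none) (Sum.inl none)).or (FODef.leaf1 (Sum.inr none) (Sum.inl none))))))))

/-- tuple with first coordinate a -/
def cxCons {n : ℕ} (a : Fin n) (x : ι → Fin n) : Option ι → Fin n := fun o => o.elim a x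

theorem cx_cons_eta {n : ℕ} (x : Option ι → Fin n) : cxCons (x none) (fun i => x (some i)) = x := by
  funext o
  cases o <;> rfl

/-- values of the gates of the tree -/
def cxVal (P : RF S (Option ι)) (n : ℕ) (s : S n) (a : Fin 3) (x : Option ι → Fin n) : Prop :=
  (a = 0 ∧ ¬ P n s x) ∨ (a = 1 ∧ ¬ ∃ c : Fin n, CxBel (x none) (c + n) ∧ P n s (cxCons c (fun i => x (some i)))) ∨
    (a = 2 ∧ ∃ c : Fin n, CxBel (x none) (c + n) ∧ P n s (cxCons c (fun i => x (some i))))

theorem cx_val0 (P : RF S (Option ι)) (n : ℕ) (s : S n) (x : Option ι → Fin n) : cxVal P n s 0 x ↔ ¬ P n s x := by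
  unfold cxVal
  constructor
  · rintro (⟨_, h⟩ | ⟨h, _⟩ | ⟨h, _⟩)
    · exact h
    · exact absurd h (by decide)
    · exact absurd h (by decide)
  · intro h
    exact Or.inl ⟨rfl, h⟩

theorem cx_val1 (P : RF S (Option ι)) (n : ℕ) (s : S n) (x : Option ι → Fin n) :
    cxVal P n s 1 x ↔ ¬ ∃ c : Fin n, CxBel (x none) (c + n) ∧ P n s (cxCons c (fun i => x (some i))) := by
  unfold cxVal
  constructor
  · rintro (⟨h, _⟩ | ⟨_, h⟩ | ⟨h, _⟩)
    · exact absurd h (by decide)
    · exact h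
    · exact absurd h (by decide)
  · intro h
    exact Or.inr (Or.inl ⟨rfl, h⟩)

theorem cx_val2 (P : RF S (Option ι)) (n : ℕ) (s : S n) (x : Option ι → Fin n) :
    cxVal P n s 2 x ↔ ∃ c : Fin n, CxBel (x none) (c + n) ∧ P n s (cxCons c (fun i => x (some i))) := by
  unfold cxVal
  constructor
  · rintro (⟨h, _⟩ | ⟨h, _⟩ | ⟨_, h⟩)
    · exact absurd h (by decide)
    · exact absurd h (by decide)
    · exact h
  · intro h
    exact Or.inr (Or.inr ⟨rfl, h⟩)

theorem cx_tree_consistent {C : OC S B} {hι : Finite (Option ι)} {o : C.T} {e : C.A o → Option ι} {P : RF S (Option ι)} {n : ℕ} {s : S n}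
    {v : C.Gate n → Prop} (hv : C.Consistent n s v) (hval : ∀ x, v ⟨o, fun i => x (e i)⟩ ↔ P n s x) :
    (cxTree C hι o e).ext.Consistent n s ((cxTree C hι o e).val v (cxVal P n s)) := by
  refine (cxTree C hι o e).consistent hv (fun a x r hr => absurd hr (by simp [cxTree])) (fun a x _ => ?_)
  have ha : a = (0 : Fin 3) ∨ a = (1 : Fin 3) ∨ a = (2 : Fin 3) := by
    have : ∀ a : Fin 3, a = 0 ∨ a = 1 ∨ a = 2 := by decide
    exact this a
  rcases ha with rfl | rfl | rfl
  · refine (cx_val0 P n s x).trans (not_congr ?_)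
    constructor
    · intro h1
      refine ⟨?_, ?_⟩
      · rintro b y ⟨_, hby⟩
        rw [hby]
        exact (hval x).2 h1
      · rintro b y ⟨_, ⟨hf, _⟩ | ⟨hf, _⟩ | ⟨hf, _⟩⟩
        · exact absurd hf (by decide)
        · exact absurd hf (by decide)
        · exact absurd hf (by decide)
    · rintro ⟨h1, _⟩
      exact (hval x).1 (h1 _ _ ⟨rfl, rfl⟩)
  · refine (cx_val1 P n s x).trans (not_congr ?_)
    constructor
    · intro h1
      refine ⟨?_, ?_⟩
      · rintro b y ⟨hf, _⟩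
        exact absurd hf (by decide)
      · rintro b y ⟨hy, ⟨_, hb, hn⟩ | ⟨hf, _⟩ | ⟨hf, _⟩⟩
        · have hb' : b = (2 : Fin 3) := hb
          subst hb'
          have e1 : y = x := by
            funext j
            cases j with
            | none => exact hn
            | some j => exact hy j
          rw [e1]
          exact (cx_val2 P n s x).2 h1
        · exact absurd hf (by decide)
        · exact absurd hf (by decide)
    · rintro ⟨_, h1⟩
      exact (cx_val2 P n s x).1 (h1 (2 : Fin 3) x ⟨fun _ => rfl, Or.inl ⟨rfl, rfl, rfl⟩⟩)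
  · refine (cx_val2 P n s x).trans ?_
    constructor
    · rintro ⟨c, hc, hP⟩ ⟨_, h1⟩
      have hstep := (cx_bel_step (n := n) (i := x none) (j := c + n) (x none).2 (by omega) (by have := c.2; omega)).1 hc
      obtain ⟨hpos, ⟨q, hq, hqn, hqb⟩ | hq⟩ := hstep
      · have h2 := h1 (1 : Fin 3) (cxCons ⟨q, hqn⟩ (fun i => x (some i))) ⟨fun _ => rfl, Or.inr (Or.inl ⟨rfl, rfl, by omega, hq⟩)⟩
        rw [cx_val1] at h2
        exact h2 ⟨c, hqb, hP⟩
      · have h2 := h1 (0 : Fin 3) (cxCons c (fun i => x (some i))) ⟨fun _ => rfl, Or.inr (Or.inr ⟨rfl, rfl, by omega, hq⟩)⟩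
        rw [cx_val0] at h2
        exact h2 hP
    · intro h'
      by_contra hcon
      apply h'
      refine ⟨?_, ?_⟩
      · rintro b y ⟨hf, _⟩
        exact absurd hf (by decide)
      · rintro b y ⟨hy, ⟨hf, _⟩ | ⟨_, hb, h0, hn⟩ | ⟨_, hb, h0, hn⟩⟩
        · exact absurd hf (by decide)
        · have hb' : b = (1 : Fin 3) := hb
          subst hb'
          refine (cx_val1 P n s y).2 ?_
          rintro ⟨c, hc, hP⟩
          apply hcon
          have e1 : (fun i => y (some i)) = (fun i => x (some i)) := funext hy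
          rw [e1] at hP
          refine ⟨c, ?_, hP⟩
          rw [cx_bel_step (n := n) (x none).2 (by omega) (by have := c.2; omega)]
          exact ⟨by omega, Or.inl ⟨y none, hn, (y none).2, hc⟩⟩
        · have hb' : b = (0 : Fin 3) := hb
          subst hb'
          refine (cx_val0 P n s y).2 ?_
          intro hP
          apply hcon
          have e1 : (fun i => x (some i)) = (fun i => y (some i)) := (funext hy).symm
          refine ⟨y none, ?_, ?_⟩
          · rw [cx_bel_step (n := n) (x none).2 (by omega) (by have := (y none).2; omega)]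
            exact ⟨by omega, Or.inr hn⟩
          · have e2 : P n s (cxCons ((show Option ι → Fin n from y) none) (fun i => (show Option ι → Fin n from y) (some i))) := by
              rw [cx_cons_eta]
              exact hP
            exact Eq.mpr (congrArg (fun f => P n s (cxCons ((show Option ι → Fin n from y) none) f)) e1) e2

/-- levels of the gates of the tree -/
def cxLev (n : ℕ) (a : Fin 3) (x : Option ι → Fin n) : ℕ :=
  if a = 0 then 0 else if a = 1 then 2 + 2 * (Nat.size n + 1 - Nat.size (x none)) else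
    1 + 2 * (Nat.size n + 1 - Nat.size (x none))

theorem cx_lev_le (n : ℕ) (a : Fin 3) (x : Option ι → Fin n) : cxLev n a x ≤ 2 + 2 * (Nat.size n + 1) := by
  unfold cxLev
  split_ifs <;> omega

theorem cx_lev0 (n : ℕ) (x : Option ι → Fin n) : cxLev n 0 x = 0 := by simp [cxLev]

theorem cx_lev1 (n : ℕ) (x : Option ι → Fin n) : cxLev n 1 x = 2 + 2 * (Nat.size n + 1 - Nat.size (x none)) := by simp [cxLev]

theorem cx_lev2 (n : ℕ) (x : Option ι → Fin n) : cxLev n 2 x = 1 + 2 * (Nat.size n + 1 - Nat.size (x none)) := by simp [cxLev]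

theorem cx_tree_bounds {C : OC S B} {hι : Finite (Option ι)} {o : C.T} {e : C.A o → Option ι} {n d₁ : ℕ}
    (h1 : C.FanInTwo n) (h2 : C.DepthLE n d₁) :
    (cxTree C hι o e).ext.FanInTwo n ∧ (cxTree C hι o e).ext.DepthLE n (d₁ + 1 + (2 + 2 * (Nat.size n + 1))) := by
  refine (cxTree C hι o e).bounds h1 h2
    (fun a x => cxLev n a x) (fun a x => cx_lev_le n a x) ?_ ?_
  · rintro a b x y ⟨_, ⟨wa, wb, hn⟩ | ⟨wa, wb, h0, hn⟩ | ⟨wa, wb, h0, hn⟩⟩
    · have wa' : a = (1 : Fin 3) := wa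
      have wb' : b = (2 : Fin 3) := wb
      subst wa' wb'
      have hn' : (show Option ι → Fin n from y) none = (show Option ι → Fin n from x) none := hn
      have e1 := cx_lev2 n (show Option ι → Fin n from y)
      have e2 := cx_lev1 n (show Option ι → Fin n from x)
      rw [hn'] at e1
      refine lt_of_eq_of_lt e1 (lt_of_lt_of_eq ?_ e2.symm)
      omega
    · have wa' : a = (2 : Fin 3) := wa
      have wb' : b = (1 : Fin 3) := wb
      subst wa' wb'
      have hi : 1 ≤ (((show Option ι → Fin n from x) none : Fin n) : ℕ) := Nat.one_le_iff_ne_zero.2 h0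
      have hs : Nat.size (((show Option ι → Fin n from y) none : Fin n) : ℕ) = Nat.size (((show Option ι → Fin n from x) none : Fin n) : ℕ) + 1 := by
        rcases hn with hn | hn
        · exact (congrArg Nat.size hn).trans (cx_size_dbl hi).1
        · exact (congrArg Nat.size hn).trans (cx_size_dbl hi).2
      have hle : Nat.size (((show Option ι → Fin n from y) none : Fin n) : ℕ) ≤ Nat.size n :=
        Nat.size_le_size ((show Option ι → Fin n from y) none).2.le
      have e1 := cx_lev1 n (show Option ι → Fin n from y)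
      have e2 := cx_lev2 n (show Option ι → Fin n from x)
      refine lt_of_eq_of_lt e1 (lt_of_lt_of_eq ?_ e2.symm)
      omega
    · have wa' : a = (2 : Fin 3) := wa
      have wb' : b = (0 : Fin 3) := wb
      subst wa' wb'
      refine lt_of_eq_of_lt (cx_lev0 n y) (lt_of_lt_of_eq ?_ (cx_lev2 n x).symm)
      omega
  · intro a x h₁ h₂ h₃ w₁ w₂ w₃
    have ha : a = (0 : Fin 3) ∨ a = (1 : Fin 3) ∨ a = (2 : Fin 3) := by
      have : ∀ a : Fin 3, a = 0 ∨ a = 1 ∨ a = 2 := by decide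
      exact this a
    rcases ha with rfl | rfl | rfl
    · have key : ∀ h : (cxTree C hι o e).ext.Gate n, (cxTree C hι o e).ext.Wire n ⟨Sum.inr (0 : Fin 3), x⟩ h →
          h = ⟨Sum.inl o, fun i => x (e i)⟩ := by
        rintro ⟨b | b, y⟩ w
        · obtain ⟨_, w⟩ := w
          have w' : (⟨b, y⟩ : C.Gate n) = ⟨o, fun i => x (e i)⟩ := w
          cases w'
          rfl
        · obtain ⟨_, ⟨hf, _⟩ | ⟨hf, _⟩ | ⟨hf, _⟩⟩ := w
          · exact absurd hf (by decide)
          · exact absurd hf (by decide)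
          · exact absurd hf (by decide)
      exact Or.inl ((key _ w₁).trans (key _ w₂).symm)
    · have key : ∀ h : (cxTree C hι o e).ext.Gate n, (cxTree C hι o e).ext.Wire n ⟨Sum.inr (1 : Fin 3), x⟩ h →
          h = ⟨Sum.inr (2 : Fin 3), x⟩ := by
        rintro ⟨b | b, y⟩ w
        · obtain ⟨hf, _⟩ := w
          exact absurd hf (by decide)
        · obtain ⟨hy, ⟨_, hb, hn⟩ | ⟨hf, _⟩ | ⟨hf, _⟩⟩ := w
          · have hb' : b = (2 : Fin 3) := hb
            subst hb'
            have e1 : y = x := by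
              funext j
              cases j with
              | none => exact hn
              | some j => exact hy j
            rw [e1]
          · exact absurd hf (by decide)
          · exact absurd hf (by decide)
      exact Or.inl ((key _ w₁).trans (key _ w₂).symm)
    · -- the number of the child determines the gate
      have key : ∀ h : (cxTree C hι o e).ext.Gate n, (cxTree C hι o e).ext.Wire n ⟨Sum.inr (2 : Fin 3), x⟩ h →
          ∃ (b : Fin 3) (y : Option ι → Fin n), h = ⟨Sum.inr b, y⟩ ∧ (∀ i, y (some i) = x (some i)) ∧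
            ((b = 1 ∧ ((y none : ℕ) = 2 * (x none : ℕ) ∨ (y none : ℕ) = 2 * (x none : ℕ) + 1)) ∨
              (b = 0 ∧ ((y none : ℕ) + n = 2 * (x none : ℕ) ∨ (y none : ℕ) + n = 2 * (x none : ℕ) + 1))) := by
        rintro ⟨b | b, y⟩ w
        · obtain ⟨hf, _⟩ := w
          exact absurd hf (by decide)
        · obtain ⟨hy, ⟨hf, _⟩ | ⟨_, hb, _, hn⟩ | ⟨_, hb, _, hn⟩⟩ := w
          · exact absurd hf (by decide)
          · exact ⟨b, y, rfl, hy, Or.inl ⟨hb, hn⟩⟩
          · exact ⟨b, y, rfl, hy, Or.inr ⟨hb, hn⟩⟩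
      obtain ⟨b₁, y₁, rfl, hy₁, hc₁⟩ := key _ w₁
      obtain ⟨b₂, y₂, rfl, hy₂, hc₂⟩ := key _ w₂
      obtain ⟨b₃, y₃, rfl, hy₃, hc₃⟩ := key _ w₃
      have glue : ∀ (b b' : Fin 3) (y y' : Option ι → Fin n), (∀ i, y (some i) = x (some i)) → (∀ i, y' (some i) = x (some i)) →
          b = b' → (y none : ℕ) = y' none → (⟨Sum.inr b, y⟩ : (cxTree C hι o e).ext.Gate n) = ⟨Sum.inr b', y'⟩ := by
        intro b b' y y' hy hy' hb hn
        subst hb
        have e1 : y = y' := by
          funext j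
          cases j with
          | none => exact Fin.ext hn
          | some j => rw [hy, hy']
        rw [e1]
      have l1 := (y₁ none).2
      have l2 := (y₂ none).2
      have l3 := (y₃ none).2
      rcases hc₁ with ⟨k₁, hc₁⟩ | ⟨k₁, hc₁⟩ <;> rcases hc₂ with ⟨k₂, hc₂⟩ | ⟨k₂, hc₂⟩ <;> rcases hc₃ with ⟨k₃, hc₃⟩ | ⟨k₃, hc₃⟩ <;>
        by_cases e12 : (b₁ = b₂ ∧ (y₁ none : ℕ) = y₂ none) <;> by_cases e13 : (b₁ = b₃ ∧ (y₁ none : ℕ) = y₃ none) <;>
        by_cases e23 : (b₂ = b₃ ∧ (y₂ none : ℕ) = y₃ none) <;>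
        first
        | exact Or.inl (glue _ _ _ _ hy₁ hy₂ e12.1 e12.2)
        | exact Or.inr (Or.inl (glue _ _ _ _ hy₁ hy₃ e13.1 e13.2))
        | exact Or.inr (Or.inr (glue _ _ _ _ hy₂ hy₃ e23.1 e23.2))
        | (exfalso
           simp only [k₁, k₂, k₃, true_and, not_and] at e12 e13 e23
           omega)

/-- The root. -/
def cxRoot (C : OC S B) (hι : Finite (Option ι)) (hι' : Finite ι) (o : C.T) (e : C.A o → Option ι) : CnNew (cxTree C hι o e).ext where
  T := Unit
  finT := inferInstance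
  A := fun _ => ι
  finA := fun _ => hι'
  inp := fun _ => none
  w1 := fun _ b n x => match b with
    | Sum.inl _ => fun _ => False
    | Sum.inr t => fun y => (t = (1 : Fin 3) ∧ 2 ≤ n ∧ (y none : ℕ) = 1 ∧ ∀ i, y (some i) = x i) ∨
        (t = (0 : Fin 3) ∧ n = 1 ∧ ∀ i, y (some i) = x i)
  w2 := fun _ _ _ _ _ => False
  u1 := by
    rintro _ (b | b)
    · exact FODef.const False
    · exact ((FODef.const (b = (1 : Fin 3))).and ((FODef.nLe 2).and ((cx_fo_one (Sum.inr none)).and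
        (FODef.allFin (J := ι) (P := fun i n z => z (Sum.inr (some i)) = z (Sum.inl i)) (fun i => FODef.eq _ _))))).or
        ((FODef.const (b = (0 : Fin 3))).and ((FODef.nEq 1).and
        (FODef.allFin (J := ι) (P := fun i n z => z (Sum.inr (some i)) = z (Sum.inl i)) (fun i => FODef.eq _ _))))
  u2 := fun _ _ => FODef.const False

/-- Job CX. Existential quantification by a binary tree: leaves a ∈ [0,n), inner nodes i ∈ [1,n), the children of i are 2i and 2i+1, where c < n is an inner node and c ≥ n the leaf c - n.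
New tags: `root` (A = ι), `tr`, `ng`, `lf` (A = Option ι, the coordinate none is the node i, resp. the leaf a).
lf(a,x): negation of the output gate for the tuple a :: x. ng(i,x): negation of tr(i,x). tr(i,x) for i ≥ 1: NAND of ng(c,x), c ∈ {2i, 2i+1}, c < n, and lf(a,x), a + n ∈ {2i, 2i+1}.
tr(0,x): no inputs. root(x): input ng(1,x) if n ≥ 2, lf(0,x) if n = 1, none if n = 0.
Value of tr(i,x): some leaf a below i satisfies P. Levels: d₀ for the old circuit, lf: d₀ + 1, tr i: d₀ + 2 + 2 * (Nat.size n + 1 - Nat.size i), ng: one more (Nat.size (2i) = Nat.size i + 1 for i ≥ 1), root: top. -/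
theorem Comp.ex {P : RF S (Option ι)} (h : Comp S B (Option ι) P) :
    Comp S B ι (fun n s x => ∃ a : Fin n, P n s (fun o => o.elim a x)) := by
  obtain ⟨hι, C, o, e, c, k, hC, hv⟩ := h
  have hι' : Finite ι := Finite.of_injective (some : ι → Option ι) (Option.some_injective ι)
  refine ⟨hι', (cxRoot C hι hι' o e).ext, Sum.inr (), id, c + 10, k + 1, ?_, ?_⟩
  · intro n
    have ht := cx_tree_bounds (C := C) (hι := hι) (o := o) (e := e) (hC n).1 (hC n).2
    have hb := (cxRoot C hι hι' o e).bounds (n := n) (d₂ := 0) ht.1 ht.2 (fun _ _ => 0) (fun _ _ => le_rfl)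
      (fun _ _ _ _ w => absurd w id) (by
      intro a x h₁ h₂ h₃ w₁ w₂ w₃
      have key : ∀ h h' : (cxRoot C hι hι' o e).ext.Gate n, (cxRoot C hι hι' o e).ext.Wire n ⟨Sum.inr a, x⟩ h →
          (cxRoot C hι hι' o e).ext.Wire n ⟨Sum.inr a, x⟩ h' → h = h' := by
        have glue : ∀ (b b' : Fin 3) (y y' : Option ι → Fin n), b = b' → (∀ i, y (some i) = x i) → (∀ i, y' (some i) = x i) →
            (y none : ℕ) = y' none → (⟨Sum.inl (Sum.inr b), y⟩ : (cxRoot C hι hι' o e).ext.Gate n) = ⟨Sum.inl (Sum.inr b'), y'⟩ := by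
          intro b b' y y' hb hy hy' hn
          subst hb
          have e1 : y = y' := by
            funext j
            cases j with
            | none => exact Fin.ext hn
            | some j => rw [hy, hy']
          rw [e1]
        rintro ⟨(b | b) | b, y⟩ ⟨(b' | b') | b', y'⟩ w w'
        · exact absurd w id
        · exact absurd w id
        · exact absurd w id
        · exact absurd w' id
        · have l := (show Option ι → Fin n from y) none
          rcases w with ⟨wb, wn, w0, wi⟩ | ⟨wb, wn, wi⟩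
          · rcases w' with ⟨wb', wn', w0', wi'⟩ | ⟨wb', wn', wi'⟩
            · exact glue b b' y y' (wb.trans wb'.symm) wi wi' (w0.trans w0'.symm)
            · omega
          · rcases w' with ⟨wb', wn', w0', wi'⟩ | ⟨wb', wn', wi'⟩
            · omega
            · refine glue b b' y y' (wb.trans wb'.symm) wi wi' ?_
              have l1 := ((show Option ι → Fin n from y) none).2
              have l2 := ((show Option ι → Fin n from y') none).2
              omega
        · exact absurd w' id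
        · exact absurd w id
        · exact absurd w id
        · exact absurd w id
      exact Or.inl (key _ _ w₁ w₂))
    refine ⟨hb.1, ?_⟩
    obtain ⟨l, hl1, hl2⟩ := hb.2
    refine ⟨l, fun g => (hl1 g).trans ?_, hl2⟩
    have hs : Nat.size n ≤ Nat.log 2 n + 1 := by
      rw [Nat.size_le]
      exact Nat.lt_pow_succ_log_self (by norm_num) n
    have hp1 : 1 ≤ (Nat.log 2 n + 1) ^ k := Nat.one_le_pow _ _ (by omega)
    have hp : (Nat.log 2 n + 1) ^ (k + 1) = (Nat.log 2 n + 1) ^ k * (Nat.log 2 n + 1) := pow_succ _ _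
    rw [hp]
    have i1 : c * (Nat.log 2 n + 1) ^ k ≤ c * ((Nat.log 2 n + 1) ^ k * (Nat.log 2 n + 1)) := by
      apply Nat.mul_le_mul_left
      exact Nat.le_mul_of_pos_right _ (by omega)
    have i2 : Nat.log 2 n + 1 ≤ (Nat.log 2 n + 1) ^ k * (Nat.log 2 n + 1) := Nat.le_mul_of_pos_left _ hp1
    nlinarith
  · intro n s
    obtain ⟨v, hcons, hval⟩ := hv n s
    have ht := cx_tree_consistent (hι := hι) (P := P) hcons hval
    refine ⟨(cxRoot C hι hι' o e).val ((cxTree C hι o e).val v (cxVal P n s)) (fun _ x => ∃ a : Fin n, P n s (cxCons a x)),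
      (cxRoot C hι hι' o e).consistent ht (fun a x r hr => absurd hr (by simp [cxRoot])) (fun a x _ => ?_), fun x => Iff.rfl⟩
    constructor
    · rintro ⟨q, hq⟩ ⟨h1, _⟩
      have hn : 0 < n := lt_of_le_of_lt (Nat.zero_le _) q.2
      by_cases hn2 : 2 ≤ n
      · have h2 : cxVal P n s 1 (cxCons ⟨1, hn2⟩ x) :=
          h1 (Sum.inr (1 : Fin 3)) (cxCons ⟨1, hn2⟩ x) (Or.inl ⟨rfl, hn2, rfl, fun _ => rfl⟩)
        rw [cx_val1] at h2
        exact h2 ⟨q, cx_bel_root (by omega), hq⟩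
      · have hn1 : n = 1 := by omega
        have h2 : cxVal P n s 0 (cxCons q x) := h1 (Sum.inr (0 : Fin 3)) (cxCons q x) (Or.inr ⟨rfl, hn1, fun _ => rfl⟩)
        rw [cx_val0] at h2
        exact h2 hq
    · intro h'
      by_contra hcon
      apply h'
      refine ⟨?_, fun _ _ w => absurd w id⟩
      rintro (b | b) y w
      · exact absurd w id
      · rcases w with ⟨wb, wn, w0, wi⟩ | ⟨wb, wn, wi⟩
        · have wb' : b = (1 : Fin 3) := wb
          subst wb'
          refine (cx_val1 P n s y).2 ?_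
          rintro ⟨q, _, hq⟩
          apply hcon
          have e1 : (fun i => (show Option ι → Fin n from y) (some i)) = x := funext wi
          rw [e1] at hq
          exact ⟨q, hq⟩
        · have wb' : b = (0 : Fin 3) := wb
          subst wb'
          refine (cx_val0 P n s y).2 ?_
          intro hq
          apply hcon
          have e1 : (fun i => (show Option ι → Fin n from y) (some i)) = x := funext wi
          refine ⟨(show Option ι → Fin n from y) none, ?_⟩
          rw [← e1, cx_cons_eta]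
          exact hq

/-- Job CI: congruence for first-order definability. -/
theorem ci_congr {ι : Type} {P Q : ∀ n : ℕ, (ι → Fin n) → Prop} (h : FODef ι P) (hPQ : ∀ n x, P n x ↔ Q n x) : FODef ι Q := by
  have : P = Q := by
    funext n x
    exact propext (hPQ n x)
  exact this ▸ h

/-- Job CI: consistency without matching. -/
theorem ci_cons_iff (C : OC S B) (n : ℕ) (s : S n) (v : C.Gate n → Prop) : C.Consistent n s v ↔
    ∀ g : C.Gate n, (∀ w, C.inp g.1 = some w → (v g ↔ w.2.1 n s (fun i => g.2 (w.2.2.2 i)))) ∧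
      (C.inp g.1 = none → (v g ↔ ¬ ∀ h, C.Wire n g h → v h)) := by
  unfold OC.Consistent
  refine forall_congr' fun g => ?_
  cases hi : C.inp g.1 with
  | none => simp
  | some w => simp

/-- Job CI: wires of a disjoint union of circuits. -/
inductive CiUWire {Fl : Type} (C : Fl → OC S B) :
    (a b : Σ f, (C f).T) → (n : ℕ) → ((C a.1).A a.2 → Fin n) → ((C b.1).A b.2 → Fin n) → Prop
  | mk {f : Fl} {t t' : (C f).T} {n : ℕ} {x : (C f).A t → Fin n} {y : (C f).A t' → Fin n} :
      (C f).wire t t' n x y → CiUWire C ⟨f, t⟩ ⟨f, t'⟩ n x y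

/-- Job CI: the disjoint union of finitely many circuits. -/
def ciUnion {Fl : Type} (hFl : Finite Fl) (C : Fl → OC S B) : OC S B where
  T := Σ f, (C f).T
  finT := by
    have := fun f => (C f).finT
    infer_instance
  A := fun a => (C a.1).A a.2
  finA := fun a => (C a.1).finA a.2
  inp := fun a => (C a.1).inp a.2
  wire := CiUWire C
  uniform := by
    rintro ⟨f, t⟩ ⟨f', t'⟩
    by_cases hf : f = f'
    · subst hf
      refine ci_congr ((C f).uniform t t') fun n x => ⟨fun h => CiUWire.mk h, fun h => ?_⟩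
      cases h with
      | mk h => exact h
    · refine ci_congr (FODef.const False) fun n x => ⟨fun h => h.elim, fun h => ?_⟩
      cases h with
      | mk h => exact hf rfl

theorem ciUnion_wire {Fl : Type} (hFl : Finite Fl) (C : Fl → OC S B) {n : ℕ} {f : Fl} {t : (C f).T} {x : (C f).A t → Fin n}
    {g : (ciUnion hFl C).Gate n} (h : (ciUnion hFl C).Wire n ⟨⟨f, t⟩, x⟩ g) :
    ∃ k : (C f).Gate n, g = ⟨⟨f, k.1⟩, k.2⟩ ∧ (C f).Wire n ⟨t, x⟩ k := by
  obtain ⟨⟨f', t'⟩, y⟩ := g
  have h' : CiUWire C ⟨f, t⟩ ⟨f', t'⟩ n x y := h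
  cases h' with
  | mk h => exact ⟨⟨_, _⟩, rfl, h⟩

/-- Job CI: finitely many relations are computed by one circuit. -/
theorem ci_family {Fl : Type} (hFl : Finite Fl) {H : Fl → RF S κ} (hH : ∀ f, Comp S B κ (H f)) :
    ∃ (C : OC S B) (o : Fl → C.T) (e : ∀ f, C.A (o f) → κ) (c k : ℕ),
      (∀ n, C.FanInTwo n ∧ C.DepthLE n (c * (Nat.log 2 n + 1) ^ k)) ∧
      ∀ n s, ∃ v, C.Consistent n s v ∧ ∀ f x, v ⟨o f, fun i => x (e f i)⟩ ↔ H f n s x := by
  choose _ C o e c k hC hv using hH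
  obtain ⟨c', hc'⟩ : ∃ c', ∀ f, c f ≤ c' := by
    obtain ⟨M, hM⟩ := (Set.finite_range c).bddAbove
    exact ⟨M, fun f => hM ⟨f, rfl⟩⟩
  obtain ⟨k', hk'⟩ : ∃ k', ∀ f, k f ≤ k' := by
    obtain ⟨M, hM⟩ := (Set.finite_range k).bddAbove
    exact ⟨M, fun f => hM ⟨f, rfl⟩⟩
  refine ⟨ciUnion hFl C, fun f => ⟨f, o f⟩, fun f => e f, c', k', fun n => ⟨?_, ?_⟩, fun n s => ?_⟩
  · rintro ⟨⟨f, t⟩, x⟩ g₁ g₂ g₃ h₁ h₂ h₃
    obtain ⟨k₁, hk₁, w₁⟩ := ciUnion_wire hFl C h₁
    obtain ⟨k₂, hk₂, w₂⟩ := ciUnion_wire hFl C h₂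
    obtain ⟨k₃, hk₃, w₃⟩ := ciUnion_wire hFl C h₃
    subst hk₁ hk₂ hk₃
    rcases (hC f n).1 _ k₁ k₂ k₃ w₁ w₂ w₃ with h | h | h
    · subst h
      exact Or.inl rfl
    · subst h
      exact Or.inr (Or.inl rfl)
    · subst h
      exact Or.inr (Or.inr rfl)
  · have h := fun f => (hC f n).2
    choose lev hle hlt using h
    refine ⟨fun g => lev g.1.1 ⟨g.1.2, g.2⟩, fun g => ?_, ?_⟩
    · refine (hle _ _).trans (Nat.mul_le_mul (hc' _) (Nat.pow_le_pow_right (Nat.succ_pos _) (hk' _)))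
    · rintro ⟨⟨f, t⟩, x⟩ g h
      obtain ⟨k, rfl, w⟩ := ciUnion_wire hFl C h
      exact hlt f _ _ w
  · have h := fun f => hv f n s
    choose v hv1 hv2 using h
    refine ⟨fun g => v g.1.1 ⟨g.1.2, g.2⟩, ?_, fun f x => hv2 f x⟩
    rw [ci_cons_iff]
    rintro ⟨⟨f, t⟩, x⟩
    obtain ⟨h1, h2⟩ := (ci_cons_iff (C f) n s (v f)).1 (hv1 f) ⟨t, x⟩
    refine ⟨fun w hw => h1 w hw, fun hw => (h2 hw).trans (not_congr ⟨fun h g hg => ?_, fun h g hg => ?_⟩)⟩
    · obtain ⟨k, rfl, hk⟩ := ciUnion_wire hFl C hg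
      exact h k hk
    · exact h ⟨⟨f, g.1⟩, g.2⟩ (CiUWire.mk hg)

/-- Job CI: the kinds of gates of a circuit reading an input with additional relations. -/
inductive CiKind (S : ℕ → Type) (B : Readers S) (κ Fl A : Type) : Type 1
  | old (ι : Type) (P : RF S ι) (hP : B ι P) (e : ι → A) : CiKind S B κ Fl A
  | new (g : Fl) (e : κ → A) : CiKind S B κ Fl A
  | nand : CiKind S B κ Fl A

/-- Job CI: the value of a gate of given kind. -/
def CiKind.Val {Fl A : Type} (K : CiKind S B κ Fl A) (n : ℕ) (s : S n) (R : RelF κ Fl n) (x : A → Fin n) (q : Prop) : Prop :=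
  match K with
  | .old _ P _ e => P n s (fun i => x (e i))
  | .new g e => R g (fun i => x (e i))
  | .nand => q

/-- Job CI: the reader of a gate of given kind in the new circuit. -/
def CiKind.Inp {Fl A : Type} (K : CiKind S B κ Fl A) : Option ((ι : Type) ×' (P : RF S ι) ×' (_ : B ι P) ×' (ι → Option A)) :=
  match K with
  | .old ι P hP e => some ⟨ι, P, hP, fun i => some (e i)⟩
  | .new _ _ => none
  | .nand => none

theorem ci_kind1 {Fl A : Type} {ι : Type} {P : RF (fun n => S n × RelF κ Fl n) ι} (h : Ext B κ Fl ι P) (e : ι → A) :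
    ∃ K : CiKind S B κ Fl A, ∀ n s R x q, K.Val n s R x q ↔ P n (s, R) (fun i => x (e i)) := by
  cases h with
  | old h => exact ⟨.old _ _ h e, fun n s R x q => Iff.rfl⟩
  | new f => exact ⟨.new f e, fun n s R x q => Iff.rfl⟩

theorem ci_kind {Fl : Type} (C : OC (fun n => S n × RelF κ Fl n) (Ext B κ Fl)) :
    ∃ K : ∀ t, CiKind S B κ Fl (C.A t), ∀ n (s : S n) (R : RelF κ Fl n) (v : C.Gate n → Prop), C.Consistent n (s, R) v →
      ∀ g : C.Gate n, v g ↔ (K g.1).Val n s R g.2 (¬ ∀ h, C.Wire n g h → v h) := by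
  have h : ∀ t, ∃ K : CiKind S B κ Fl (C.A t), ∀ n (s : S n) (R : RelF κ Fl n) (x : C.A t → Fin n) (q : Prop),
      (∀ w, C.inp t = some w → (K.Val n s R x q ↔ w.2.1 n (s, R) (fun i => x (w.2.2.2 i)))) ∧
      (C.inp t = none → (K.Val n s R x q ↔ q)) := by
    intro t
    cases hi : C.inp t with
    | none =>
      refine ⟨.nand, fun n s R x q => ⟨fun w hw => ?_, fun _ => Iff.rfl⟩⟩
      exact absurd hw (by simp)
    | some w =>
      obtain ⟨ι, P, hP, e⟩ := w
      obtain ⟨K, hK⟩ := ci_kind1 hP e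
      refine ⟨K, fun n s R x q => ⟨fun w hw => ?_, fun h => absurd h (by simp)⟩⟩
      cases hw
      exact hK n s R x q
  choose K hK using h
  refine ⟨K, fun n s R v hv g => ?_⟩
  obtain ⟨h1, h2⟩ := (ci_cons_iff C n (s, R) v).1 hv g
  obtain ⟨h3, h4⟩ := hK g.1 n s R g.2 (¬ ∀ h, C.Wire n g h → v h)
  cases hi : C.inp g.1 with
  | none => exact (h2 hi).trans (h4 hi).symm
  | some w => exact (h1 w hi).trans (h3 w hi).symm

/-- Job CI: the tags of the iteration circuit. -/
inductive CiT (TH TF : Type) : Type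
  | hh (t : TH) : CiT TH TF
  | ff (t : TF) : CiT TH TF
  | nt (t : TF) : CiT TH TF
  | fin : CiT TH TF
  | fin2 : CiT TH TF

theorem ciT_finite {TH TF : Type} (h1 : Finite TH) (h2 : Finite TF) : Finite (CiT TH TF) := by
  refine Finite.of_surjective (fun w : (TH ⊕ (TF ⊕ (TF ⊕ Bool))) => (match w with
    | .inl t => CiT.hh t
    | .inr (.inl t) => CiT.ff t
    | .inr (.inr (.inl t)) => CiT.nt t
    | .inr (.inr (.inr true)) => CiT.fin
    | .inr (.inr (.inr false)) => CiT.fin2 : CiT TH TF)) ?_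
  rintro (t | t | t | _ | _)
  · exact ⟨.inl t, rfl⟩
  · exact ⟨.inr (.inl t), rfl⟩
  · exact ⟨.inr (.inr (.inl t)), rfl⟩
  · exact ⟨.inr (.inr (.inr true)), rfl⟩
  · exact ⟨.inr (.inr (.inr false)), rfl⟩

/-- Job CI: the data of the iteration circuit. -/
structure CiD (S : ℕ → Type) (B : Readers S) (κ Fl : Type) where
  hκ : Finite κ
  CH : OC S B
  CF : OC (fun n => S n × RelF κ Fl n) (Ext B κ Fl)
  oH : Fl → CH.T
  eH : ∀ f, CH.A (oH f) → κ
  oF : Fl → CF.T
  eF : ∀ f, CF.A (oF f) → κ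
  K : ∀ t, CiKind S B κ Fl (CF.A t)
  f : Fl

/-- Job CI: the coordinates of the gates of the iteration circuit. -/
def CiD.A {Fl : Type} (D : CiD S B κ Fl) : CiT D.CH.T D.CF.T → Type
  | .hh t => D.CH.A t
  | .ff t => Option (D.CF.A t)
  | .nt t => Option (D.CF.A t)
  | .fin => κ
  | .fin2 => κ

/-- Job CI: the wires of the iteration circuit. -/
inductive CiWire {Fl : Type} (D : CiD S B κ Fl) :
    (a b : CiT D.CH.T D.CF.T) → (n : ℕ) → (D.A a → Fin n) → (D.A b → Fin n) → Prop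
  | hh {t t' : D.CH.T} {n : ℕ} {x : D.CH.A t → Fin n} {y : D.CH.A t' → Fin n} (h : D.CH.wire t t' n x y) :
      CiWire D (.hh t) (.hh t') n x y
  | ff {t t' : D.CF.T} {n : ℕ} {x : Option (D.CF.A t) → Fin n} {y : Option (D.CF.A t') → Fin n} (hK : D.K t = .nand)
      (h0 : x none = y none) (h : D.CF.wire t t' n (fun i => x (some i)) (fun i => y (some i))) :
      CiWire D (.ff t) (.ff t') n x y
  | fn {t : D.CF.T} {n : ℕ} {x : Option (D.CF.A t) → Fin n} {g : Fl} {e : κ → D.CF.A t} (hK : D.K t = .new g e) :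
      CiWire D (.ff t) (.nt t) n x x
  | nf {t : D.CF.T} {n : ℕ} {x : Option (D.CF.A t) → Fin n} {g : Fl} {e : κ → D.CF.A t} (hK : D.K t = .new g e)
      {y : Option (D.CF.A (D.oF g)) → Fin n} (h0 : ¬ (y none : ℕ) = 0) (h1 : (y none : ℕ) = (x none : ℕ) / 2)
      (h : ∀ i, y (some i) = x (some (e (D.eF g i)))) :
      CiWire D (.nt t) (.ff (D.oF g)) n x y
  | nh {t : D.CF.T} {n : ℕ} {x : Option (D.CF.A t) → Fin n} {g : Fl} {e : κ → D.CF.A t} (hK : D.K t = .new g e)
      {y : D.CH.A (D.oH g) → Fin n} (h0 : ∃ a : Fin n, (a : ℕ) = 0 ∧ (a : ℕ) = (x none : ℕ) / 2)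
      (h : ∀ i, y i = x (some (e (D.eH g i)))) :
      CiWire D (.nt t) (.hh (D.oH g)) n x y
  | f1 {n : ℕ} {x : κ → Fin n} : CiWire D .fin .fin2 n x x
  | f2 {n : ℕ} {x : κ → Fin n} {y : Option (D.CF.A (D.oF D.f)) → Fin n} (h0 : 2 ≤ n) (h1 : (y none : ℕ) + 1 = n)
      (h : ∀ i, y (some i) = x (D.eF D.f i)) :
      CiWire D .fin2 (.ff (D.oF D.f)) n x y
  | f3 {n : ℕ} {x : κ → Fin n} {y : D.CH.A (D.oH D.f) → Fin n} (h0 : ¬ 2 ≤ n) (h : ∀ i, y i = x (D.eH D.f i)) :
      CiWire D .fin2 (.hh (D.oH D.f)) n x y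

section
variable {Fl : Type} (D : CiD S B κ Fl)

theorem ci_inv_fn {t t' : D.CF.T} {n : ℕ} {u : Option (D.CF.A t) → Fin n} {w : Option (D.CF.A t') → Fin n}
    (h : CiWire D (.ff t) (.nt t') n u w) : ∃ ht : t' = t, (∃ g e, D.K t = .new g e) ∧ ∀ i, u i = w (ht ▸ i) := by
  cases h with
  | fn hK => exact ⟨rfl, ⟨_, _, hK⟩, fun i => rfl⟩

theorem ci_inv_nf {t t' : D.CF.T} {n : ℕ} {u : Option (D.CF.A t) → Fin n} {w : Option (D.CF.A t') → Fin n}
    (h : CiWire D (.nt t) (.ff t') n u w) : ∃ (g : Fl) (e : κ → D.CF.A t) (ht : t' = D.oF g), D.K t = .new g e ∧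
      ¬ (w none : ℕ) = 0 ∧ (w none : ℕ) = (u none : ℕ) / 2 ∧ ∀ i : D.CF.A (D.oF g), w (some (ht ▸ i)) = u (some (e (D.eF g i))) := by
  cases h with
  | nf hK h0 h1 h => exact ⟨_, _, rfl, hK, h0, h1, h⟩

theorem ci_inv_nh {t : D.CF.T} {t' : D.CH.T} {n : ℕ} {u : Option (D.CF.A t) → Fin n} {w : D.CH.A t' → Fin n}
    (h : CiWire D (.nt t) (.hh t') n u w) : ∃ (g : Fl) (e : κ → D.CF.A t) (ht : t' = D.oH g), D.K t = .new g e ∧
      (∃ a : Fin n, (a : ℕ) = 0 ∧ (a : ℕ) = (u none : ℕ) / 2) ∧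
      ∀ i : D.CH.A (D.oH g), w (ht ▸ i) = u (some (e (D.eH g i))) := by
  cases h with
  | nh hK h0 h => exact ⟨_, _, rfl, hK, h0, h⟩

theorem ci_inv_f1 {n : ℕ} {u w : κ → Fin n} (h : CiWire D .fin .fin2 n u w) : ∀ i, u i = w i := by
  cases h with
  | f1 => exact fun i => rfl

theorem ci_inv_f2 {t' : D.CF.T} {n : ℕ} {u : κ → Fin n} {w : Option (D.CF.A t') → Fin n}
    (h : CiWire D .fin2 (.ff t') n u w) : ∃ (ht : t' = D.oF D.f), 2 ≤ n ∧ (w none : ℕ) + 1 = n ∧
      ∀ i : D.CF.A (D.oF D.f), w (some (ht ▸ i)) = u (D.eF D.f i) := by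
  cases h with
  | f2 h0 h1 h => exact ⟨rfl, h0, h1, h⟩

theorem ci_inv_f3 {t' : D.CH.T} {n : ℕ} {u : κ → Fin n} {w : D.CH.A t' → Fin n}
    (h : CiWire D .fin2 (.hh t') n u w) : ∃ (ht : t' = D.oH D.f), ¬ 2 ≤ n ∧
      ∀ i : D.CH.A (D.oH D.f), w (ht ▸ i) = u (D.eH D.f i) := by
  cases h with
  | f3 h0 h => exact ⟨rfl, h0, h⟩

theorem ci_uniform (a b : CiT D.CH.T D.CF.T) :
    FODef (D.A a ⊕ D.A b) (fun n z => CiWire D a b n (fun i => z (Sum.inl i)) (fun i => z (Sum.inr i))) := by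
  have hκ := D.hκ
  rcases a with t | t | t | _ | _ <;> rcases b with t' | t' | t' | _ | _
  -- hh
  · refine ci_congr (D.CH.uniform t t') fun n x => ⟨fun h => CiWire.hh h, fun h => ?_⟩
    cases h with
    | hh h => exact h
  · exact ci_congr (FODef.const False) fun n x => ⟨fun h => h.elim, fun h => nomatch h⟩
  · exact ci_congr (FODef.const False) fun n x => ⟨fun h => h.elim, fun h => nomatch h⟩
  · exact ci_congr (FODef.const False) fun n x => ⟨fun h => h.elim, fun h => nomatch h⟩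
  · exact ci_congr (FODef.const False) fun n x => ⟨fun h => h.elim, fun h => nomatch h⟩
  -- ff
  · exact ci_congr (FODef.const False) fun n x => ⟨fun h => h.elim, fun h => nomatch h⟩
  · refine ci_congr ((FODef.const (D.K t = .nand)).and ((FODef.eq (Sum.inl none) (Sum.inr none)).and
      ((D.CF.uniform t t').comap (Sum.map some some)))) fun n x => ⟨fun h => CiWire.ff h.1 h.2.1 h.2.2, fun h => ?_⟩
    cases h with
    | ff hK h0 h => exact ⟨hK, h0, h⟩
  · by_cases htt : t' = t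
    · subst htt
      have := D.CF.finA t'
      refine ci_congr ((FODef.const (∃ g e, D.K t' = .new g e)).and (FODef.allFin (J := Option (D.CF.A t'))
        (P := fun j n x => x (Sum.inl j) = x (Sum.inr j)) fun j => FODef.eq (Sum.inl j) (Sum.inr j))) fun n x =>
        ⟨fun h => ?_, fun h => ?_⟩
      · obtain ⟨⟨g, e, hK⟩, h⟩ := h
        have h' : (fun i : Option (D.CF.A t') => x (Sum.inl i)) = (fun i => x (Sum.inr i)) := funext h
        have h2 : CiWire D (.ff t') (.nt t') n (fun i : Option (D.CF.A t') => x (Sum.inl i))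
          (fun i : Option (D.CF.A t') => x (Sum.inl i)) := CiWire.fn hK
        exact Eq.mp (congrArg (CiWire D (.ff t') (.nt t') n (fun i : Option (D.CF.A t') => x (Sum.inl i))) h') h2
      · obtain ⟨_, h1, h2⟩ := ci_inv_fn D h
        exact ⟨h1, h2⟩
    · refine ci_congr (FODef.const False) fun n x => ⟨fun h => h.elim, fun h => ?_⟩
      obtain ⟨h1, _⟩ := ci_inv_fn D h
      exact htt h1
  · exact ci_congr (FODef.const False) fun n x => ⟨fun h => h.elim, fun h => nomatch h⟩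
  · exact ci_congr (FODef.const False) fun n x => ⟨fun h => h.elim, fun h => nomatch h⟩
  -- nt
  · by_cases hK : ∃ g e, D.K t = .new g e ∧ t' = D.oH g
    · obtain ⟨g, e, hK, rfl⟩ := hK
      have := D.CH.finA (D.oH g)
      refine ci_congr (FODef.and (FODef.ex (FODef.and (FODef.zero none) (FODef.half none (some (Sum.inl none)))))
        (FODef.allFin (J := D.CH.A (D.oH g)) (P := fun j n x => x (Sum.inr j) = x (Sum.inl (some (e (D.eH g j)))))
          fun j => FODef.eq _ _)) fun n x => ⟨fun h => ?_, fun h => ?_⟩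
      · exact CiWire.nh hK h.1 h.2
      · obtain ⟨g', e', ht, hK', h0, h1⟩ := ci_inv_nh D h
        rw [hK] at hK'
        cases hK'
        exact ⟨h0, h1⟩
    · refine ci_congr (FODef.const False) fun n x => ⟨fun h => h.elim, fun h => ?_⟩
      obtain ⟨g', e', ht, hK', h0, h1⟩ := ci_inv_nh D h
      exact hK ⟨_, _, hK', ht⟩
  · by_cases hK : ∃ g e, D.K t = .new g e ∧ t' = D.oF g
    · obtain ⟨g, e, hK, rfl⟩ := hK
      have := D.CF.finA (D.oF g)
      refine ci_congr (FODef.and (FODef.not (FODef.zero (Sum.inr none))) (FODef.and (FODef.half (Sum.inr none) (Sum.inl none))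
        (FODef.allFin (J := D.CF.A (D.oF g)) (P := fun j n x => x (Sum.inr (some j)) = x (Sum.inl (some (e (D.eF g j)))))
          fun j => FODef.eq _ _))) fun n x => ⟨fun h => ?_, fun h => ?_⟩
      · exact CiWire.nf hK h.1 h.2.1 h.2.2
      · obtain ⟨g', e', ht, hK', h0, h1, h2⟩ := ci_inv_nf D h
        rw [hK] at hK'
        cases hK'
        exact ⟨h0, h1, h2⟩
    · refine ci_congr (FODef.const False) fun n x => ⟨fun h => h.elim, fun h => ?_⟩
      obtain ⟨g', e', ht, hK', h0, h1⟩ := ci_inv_nf D h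
      exact hK ⟨_, _, hK', ht⟩
  · exact ci_congr (FODef.const False) fun n x => ⟨fun h => h.elim, fun h => nomatch h⟩
  · exact ci_congr (FODef.const False) fun n x => ⟨fun h => h.elim, fun h => nomatch h⟩
  · exact ci_congr (FODef.const False) fun n x => ⟨fun h => h.elim, fun h => nomatch h⟩
  -- fin
  · exact ci_congr (FODef.const False) fun n x => ⟨fun h => h.elim, fun h => nomatch h⟩
  · exact ci_congr (FODef.const False) fun n x => ⟨fun h => h.elim, fun h => nomatch h⟩
  · exact ci_congr (FODef.const False) fun n x => ⟨fun h => h.elim, fun h => nomatch h⟩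
  · exact ci_congr (FODef.const False) fun n x => ⟨fun h => h.elim, fun h => nomatch h⟩
  · refine ci_congr (FODef.allFin (J := κ)
        (P := fun j n x => x (Sum.inl j) = x (Sum.inr j)) fun j => FODef.eq (Sum.inl j) (Sum.inr j)) fun n x =>
        ⟨fun h => ?_, fun h => ci_inv_f1 D h⟩
    have h' : (fun i : κ => x (Sum.inl i)) = (fun i => x (Sum.inr i)) := funext h
    have h2 : CiWire D .fin .fin2 n (fun i : κ => x (Sum.inl i)) (fun i : κ => x (Sum.inl i)) := CiWire.f1
    exact Eq.mp (congrArg (CiWire D .fin .fin2 n (fun i : κ => x (Sum.inl i))) h') h2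
  -- fin2
  · by_cases hK : t' = D.oH D.f
    · subst hK
      have := D.CH.finA (D.oH D.f)
      refine ci_congr (FODef.and (FODef.not (FODef.nLe 2))
        (FODef.allFin (J := D.CH.A (D.oH D.f)) (P := fun j n x => x (Sum.inr j) = x (Sum.inl (D.eH D.f j)))
          fun j => FODef.eq _ _)) fun n x => ⟨fun h => CiWire.f3 h.1 h.2, fun h => ?_⟩
      obtain ⟨_, h0, h1⟩ := ci_inv_f3 D h
      exact ⟨h0, h1⟩
    · refine ci_congr (FODef.const False) fun n x => ⟨fun h => h.elim, fun h => ?_⟩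
      obtain ⟨h1, _⟩ := ci_inv_f3 D h
      exact hK h1
  · by_cases hK : t' = D.oF D.f
    · subst hK
      have := D.CF.finA (D.oF D.f)
      refine ci_congr (FODef.and (FODef.nLe 2) (FODef.and (FODef.max (Sum.inr none))
        (FODef.allFin (J := D.CF.A (D.oF D.f)) (P := fun j n x => x (Sum.inr (some j)) = x (Sum.inl (D.eF D.f j)))
          fun j => FODef.eq _ _))) fun n x => ⟨fun h => CiWire.f2 h.1 h.2.1 h.2.2, fun h => ?_⟩
      obtain ⟨_, h0, h1, h2⟩ := ci_inv_f2 D h
      exact ⟨h0, h1, h2⟩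
    · refine ci_congr (FODef.const False) fun n x => ⟨fun h => h.elim, fun h => ?_⟩
      obtain ⟨h1, _⟩ := ci_inv_f2 D h
      exact hK h1
  · exact ci_congr (FODef.const False) fun n x => ⟨fun h => h.elim, fun h => nomatch h⟩
  · exact ci_congr (FODef.const False) fun n x => ⟨fun h => h.elim, fun h => nomatch h⟩
  · exact ci_congr (FODef.const False) fun n x => ⟨fun h => h.elim, fun h => nomatch h⟩

theorem ci_finA (a : CiT D.CH.T D.CF.T) : Finite (D.A a) := by
  have h1 := D.hκ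
  have h2 := D.CH.finA
  have h3 := D.CF.finA
  rcases a with t | t | t | _ | _
  · exact h2 t
  · exact inferInstanceAs (Finite (Option (D.CF.A t)))
  · exact inferInstanceAs (Finite (Option (D.CF.A t)))
  · exact h1
  · exact h1

/-- Job CI: the readers of the iteration circuit. -/
def CiD.inp : ∀ t : CiT D.CH.T D.CF.T, Option ((ι : Type) ×' (P : RF S ι) ×' (_ : B ι P) ×' (ι → D.A t))
  | .hh t => D.CH.inp t
  | .ff t => (D.K t).Inp
  | .nt _ => none
  | .fin => none
  | .fin2 => none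

/-- Job CI: the iteration circuit. -/
def ciIter : OC S B where
  T := CiT D.CH.T D.CF.T
  finT := ciT_finite D.CH.finT D.CF.finT
  A := D.A
  finA := ci_finA D
  inp := D.inp
  wire := CiWire D
  uniform := ci_uniform D

end

section
variable {Fl : Type} (D : CiD S B κ Fl)

/-- Job CI: the gate with counter `a`. -/
def ciC {n : ℕ} {A : Type} (a : Fin n) (x : A → Fin n) : Option A → Fin n := fun o => o.elim a x

theorem ci_eta {n : ℕ} {A : Type} (y : Option A → Fin n) : y = ciC (y none) (fun i => y (some i)) := by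
  funext o
  cases o <;> rfl

theorem ci_w_hh {n : ℕ} {t : D.CH.T} {x : D.CH.A t → Fin n} {h : (ciIter D).Gate n} (hw : (ciIter D).Wire n ⟨.hh t, x⟩ h) :
    ∃ k : D.CH.Gate n, h = ⟨.hh k.1, k.2⟩ ∧ D.CH.Wire n ⟨t, x⟩ k := by
  obtain ⟨b, y⟩ := h
  have h' : CiWire D (.hh t) b n x y := hw
  cases h' with
  | hh h => exact ⟨⟨_, _⟩, rfl, h⟩

theorem ci_w_ff {n : ℕ} {t : D.CF.T} {x : Option (D.CF.A t) → Fin n} {h : (ciIter D).Gate n}
    (hw : (ciIter D).Wire n ⟨.ff t, x⟩ h) :
    (D.K t = .nand ∧ ∃ k : D.CF.Gate n, h = ⟨.ff k.1, ciC (x none) k.2⟩ ∧ D.CF.Wire n ⟨t, fun i => x (some i)⟩ k) ∨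
    ((∃ g e, D.K t = .new g e) ∧ h = ⟨.nt t, x⟩) := by
  obtain ⟨b, y⟩ := h
  have h' : CiWire D (.ff t) b n x y := hw
  cases h' with
  | @ff _ t' _ _ y hK h0 h =>
    refine Or.inl ⟨hK, ⟨t', fun i => y (some i)⟩, ?_, h⟩
    rw [h0]
    exact congrArg (fun y => (⟨.ff t', y⟩ : (ciIter D).Gate n)) (ci_eta y)
  | fn hK => exact Or.inr ⟨⟨_, _, hK⟩, rfl⟩

/-- Job CI: the counter j/2. -/
def ciHalf {n : ℕ} (a : Fin n) : Fin n := ⟨a / 2, lt_of_le_of_lt (Nat.div_le_self _ _) a.2⟩

theorem ci_w_nt {n : ℕ} {t : D.CF.T} {x : Option (D.CF.A t) → Fin n} {h : (ciIter D).Gate n}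
    (hw : (ciIter D).Wire n ⟨.nt t, x⟩ h) : ∃ (g : Fl) (e : κ → D.CF.A t), D.K t = .new g e ∧
    ((¬ (x none : ℕ) / 2 = 0 ∧ h = ⟨.ff (D.oF g), ciC (ciHalf (x none)) (fun i => x (some (e (D.eF g i))))⟩) ∨
    ((x none : ℕ) / 2 = 0 ∧ h = ⟨.hh (D.oH g), fun i => x (some (e (D.eH g i)))⟩)) := by
  obtain ⟨b, y⟩ := h
  have h' : CiWire D (.nt t) b n x y := hw
  cases h' with
  | @nf _ _ _ g e hK y h0 h1 h =>
    refine ⟨g, e, hK, Or.inl ⟨h1 ▸ h0, ?_⟩⟩
    have : y = ciC (ciHalf (x none)) (fun i => x (some (e (D.eF g i)))) := by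
      rw [ci_eta y]
      congr 1
      · exact Fin.ext h1
      · funext i
        exact h i
    exact congrArg (fun y => (⟨.ff (D.oF g), y⟩ : (ciIter D).Gate n)) this
  | @nh _ _ _ g e hK y h0 h =>
    refine ⟨g, e, hK, Or.inr ⟨?_, ?_⟩⟩
    · obtain ⟨a, ha, hb⟩ := h0
      omega
    · have : y = (fun i => x (some (e (D.eH g i)))) := funext h
      exact congrArg (fun y => (⟨.hh (D.oH g), y⟩ : (ciIter D).Gate n)) this

theorem ci_w_f1 {n : ℕ} {x : κ → Fin n} {h : (ciIter D).Gate n} (hw : (ciIter D).Wire n ⟨.fin, x⟩ h) : h = ⟨.fin2, x⟩ := by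
  obtain ⟨b, y⟩ := h
  have h' : CiWire D .fin b n x y := hw
  cases h' with
  | f1 => rfl

/-- Job CI: the counter n-1. -/
def ciLast {n : ℕ} (h : 2 ≤ n) : Fin n := ⟨n - 1, by omega⟩

theorem ci_w_f2 {n : ℕ} {x : κ → Fin n} {h : (ciIter D).Gate n} (hw : (ciIter D).Wire n ⟨.fin2, x⟩ h) :
    (∃ h2 : 2 ≤ n, h = ⟨.ff (D.oF D.f), ciC (ciLast h2) (fun i => x (D.eF D.f i))⟩) ∨
    (¬ 2 ≤ n ∧ h = ⟨.hh (D.oH D.f), fun i => x (D.eH D.f i)⟩) := by
  obtain ⟨b, y⟩ := h
  have h' : CiWire D .fin2 b n x y := hw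
  cases h' with
  | @f2 _ _ y h0 h1 h =>
    refine Or.inl ⟨h0, ?_⟩
    have : y = ciC (ciLast h0) (fun i => x (D.eF D.f i)) := by
      rw [ci_eta y]
      congr 1
      · refine Fin.ext ?_
        change (y none : ℕ) = n - 1
        omega
      · funext i
        exact h i
    exact congrArg (fun y => (⟨.ff (D.oF D.f), y⟩ : (ciIter D).Gate n)) this
  | @f3 _ _ y h0 h =>
    refine Or.inr ⟨h0, ?_⟩
    have : y = (fun i => x (D.eH D.f i)) := funext h
    exact congrArg (fun y => (⟨.hh (D.oH D.f), y⟩ : (ciIter D).Gate n)) this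

theorem ci_fanin {n : ℕ} (h1 : D.CH.FanInTwo n) (h2 : D.CF.FanInTwo n) : (ciIter D).FanInTwo n := by
  rintro ⟨a, x⟩ g₁ g₂ g₃ w₁ w₂ w₃
  rcases a with t | t | t | _ | _
  · obtain ⟨k₁, rfl, u₁⟩ := ci_w_hh D w₁
    obtain ⟨k₂, rfl, u₂⟩ := ci_w_hh D w₂
    obtain ⟨k₃, rfl, u₃⟩ := ci_w_hh D w₃
    rcases h1 _ k₁ k₂ k₃ u₁ u₂ u₃ with h | h | h
    · exact Or.inl (h ▸ rfl)
    · exact Or.inr (Or.inl (h ▸ rfl))
    · exact Or.inr (Or.inr (h ▸ rfl))
  · rcases ci_w_ff D w₁ with ⟨hK, k₁, rfl, u₁⟩ | ⟨⟨g, e, hK⟩, rfl⟩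
    · rcases ci_w_ff D w₂ with ⟨_, k₂, rfl, u₂⟩ | ⟨⟨g, e, hK'⟩, rfl⟩
      · rcases ci_w_ff D w₃ with ⟨_, k₃, rfl, u₃⟩ | ⟨⟨g, e, hK'⟩, rfl⟩
        · rcases h2 _ k₁ k₂ k₃ u₁ u₂ u₃ with h | h | h
          · exact Or.inl (h ▸ rfl)
          · exact Or.inr (Or.inl (h ▸ rfl))
          · exact Or.inr (Or.inr (h ▸ rfl))
        · rw [hK] at hK'
          cases hK'
      · rw [hK] at hK'
        cases hK'
    · rcases ci_w_ff D w₂ with ⟨hK', k₂, rfl, w₂⟩ | ⟨⟨g, e, hK'⟩, rfl⟩
      · rw [hK] at hK'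
        cases hK'
      · exact Or.inl rfl
  · obtain ⟨g, e, hK, h₁⟩ := ci_w_nt D w₁
    obtain ⟨g', e', hK', h₂⟩ := ci_w_nt D w₂
    rw [hK] at hK'
    cases hK'
    rcases h₁ with ⟨h0, rfl⟩ | ⟨h0, rfl⟩
    · rcases h₂ with ⟨h0', rfl⟩ | ⟨h0', rfl⟩
      · exact Or.inl rfl
      · exact absurd h0' h0
    · rcases h₂ with ⟨h0', rfl⟩ | ⟨h0', rfl⟩
      · exact absurd h0 h0'
      · exact Or.inl rfl
  · obtain rfl := ci_w_f1 D w₁
    obtain rfl := ci_w_f1 D w₂
    exact Or.inl rfl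
  · rcases ci_w_f2 D w₁ with ⟨h0, rfl⟩ | ⟨h0, rfl⟩
    · rcases ci_w_f2 D w₂ with ⟨h0', rfl⟩ | ⟨h0', rfl⟩
      · exact Or.inl rfl
      · exact absurd h0 h0'
    · rcases ci_w_f2 D w₂ with ⟨h0', rfl⟩ | ⟨h0', rfl⟩
      · exact absurd h0' h0
      · exact Or.inl rfl

theorem ci_size_half {j : ℕ} (hj : j ≠ 0) : Nat.size j = Nat.size (j / 2) + 1 := by
  conv_lhs => rw [← Nat.bit_bodd_div2 j]
  rw [Nat.size_bit, Nat.div2_val]
  rw [Nat.bit_bodd_div2]
  exact hj

/-- Job CI: the levels. -/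
def ciLev {n : ℕ} (lH : D.CH.Gate n → ℕ) (lF : D.CF.Gate n → ℕ) (dH dF : ℕ) : (ciIter D).Gate n → ℕ
  | ⟨.hh t, x⟩ => lH ⟨t, x⟩
  | ⟨.ff t, x⟩ => dH + 2 + Nat.size (x none : Fin n) * (dF + 3) + lF ⟨t, fun i => x (some i)⟩
  | ⟨.nt _, x⟩ => dH + 1 + Nat.size (x none : Fin n) * (dF + 3)
  | ⟨.fin, _⟩ => dH + 3 + (Nat.size n + 1) * (dF + 3)
  | ⟨.fin2, _⟩ => dH + 2 + (Nat.size n + 1) * (dF + 3)

theorem ci_depth {n dH dF : ℕ} (h1 : D.CH.DepthLE n dH) (h2 : D.CF.DepthLE n dF) :
    (ciIter D).DepthLE n (dH + 3 + (Nat.size n + 1) * (dF + 3)) := by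
  obtain ⟨lH, hH, hH'⟩ := h1
  obtain ⟨lF, hF, hF'⟩ := h2
  refine ⟨ciLev D lH lF dH dF, ?_, ?_⟩
  · rintro ⟨a, x⟩
    rcases a with t | t | t | _ | _
    · change lH ⟨t, x⟩ ≤ _
      have := hH ⟨t, x⟩
      omega
    · change dH + 2 + Nat.size (x none : Fin n) * (dF + 3) + lF ⟨t, fun i => x (some i)⟩ ≤ _
      have h3 := hF ⟨t, fun i => x (some i)⟩
      have h4 : Nat.size (x none : Fin n) ≤ Nat.size n := Nat.size_le_size (x none : Fin n).2.le
      have h5 : Nat.size (x none : Fin n) * (dF + 3) ≤ Nat.size n * (dF + 3) := Nat.mul_le_mul_right _ h4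
      rw [Nat.add_mul]
      omega
    · change dH + 1 + Nat.size (x none : Fin n) * (dF + 3) ≤ _
      have h4 : Nat.size (x none : Fin n) ≤ Nat.size n := Nat.size_le_size (x none : Fin n).2.le
      have h5 : Nat.size (x none : Fin n) * (dF + 3) ≤ Nat.size n * (dF + 3) := Nat.mul_le_mul_right _ h4
      rw [Nat.add_mul]
      omega
    · exact le_rfl
    · change dH + 2 + (Nat.size n + 1) * (dF + 3) ≤ _
      omega
  · rintro ⟨a, x⟩ g w
    rcases a with t | t | t | _ | _
    · obtain ⟨k, rfl, u⟩ := ci_w_hh D w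
      exact hH' _ _ u
    · rcases ci_w_ff D w with ⟨hK, k, rfl, u⟩ | ⟨⟨g, e, hK⟩, rfl⟩
      · change dH + 2 + Nat.size (x none : Fin n) * (dF + 3) + lF k <
          dH + 2 + Nat.size (x none : Fin n) * (dF + 3) + lF ⟨t, fun i => x (some i)⟩
        have := hF' _ _ u
        omega
      · change dH + 1 + Nat.size (x none : Fin n) * (dF + 3) <
          dH + 2 + Nat.size (x none : Fin n) * (dF + 3) + lF ⟨t, fun i => x (some i)⟩
        omega
    · obtain ⟨g, e, hK, ⟨h0, rfl⟩ | ⟨h0, rfl⟩⟩ := ci_w_nt D w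
      · change dH + 2 + Nat.size ((x none : Fin n) / 2) * (dF + 3) + lF ⟨D.oF g, fun i => x (some (e (D.eF g i)))⟩ <
          dH + 1 + Nat.size (x none : Fin n) * (dF + 3)
        have h3 := hF ⟨D.oF g, fun i => x (some (e (D.eF g i)))⟩
        have h4 : ((x none : Fin n) : ℕ) ≠ 0 := by
          intro h
          rw [h] at h0
          exact h0 rfl
        rw [ci_size_half h4, Nat.add_mul]
        omega
      · change lH ⟨D.oH g, fun i => x (some (e (D.eH g i)))⟩ < dH + 1 + Nat.size (x none : Fin n) * (dF + 3)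
        have := hH ⟨D.oH g, fun i => x (some (e (D.eH g i)))⟩
        omega
    · obtain rfl := ci_w_f1 D w
      change dH + 2 + (Nat.size n + 1) * (dF + 3) < dH + 3 + (Nat.size n + 1) * (dF + 3)
      omega
    · rcases ci_w_f2 D w with ⟨h0, rfl⟩ | ⟨h0, rfl⟩
      · change dH + 2 + Nat.size (n - 1) * (dF + 3) + lF ⟨D.oF D.f, fun i => x (D.eF D.f i)⟩ <
          dH + 2 + (Nat.size n + 1) * (dF + 3)
        have h3 := hF ⟨D.oF D.f, fun i => x (D.eF D.f i)⟩
        have h4 : Nat.size (n - 1) ≤ Nat.size n := Nat.size_le_size (by omega)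
        have h5 : Nat.size (n - 1) * (dF + 3) ≤ Nat.size n * (dF + 3) := Nat.mul_le_mul_right _ h4
        rw [Nat.add_mul]
        omega
      · change lH ⟨D.oH D.f, fun i => x (D.eH D.f i)⟩ < dH + 2 + (Nat.size n + 1) * (dF + 3)
        have := hH ⟨D.oH D.f, fun i => x (D.eH D.f i)⟩
        omega

/-- Job CI: the j-th relation. -/
def ciR {n : ℕ} (step : RelF κ Fl n → RelF κ Fl n) (H : RelF κ Fl n) (j : ℕ) : RelF κ Fl n := step^[Nat.size j] H

theorem ciR_succ {n : ℕ} (step : RelF κ Fl n → RelF κ Fl n) (H : RelF κ Fl n) {j : ℕ} (hj : j ≠ 0) :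
    ciR step H j = step (ciR step H (j / 2)) := by
  unfold ciR
  rw [ci_size_half hj, Function.iterate_succ_apply']

/-- Job CI: the values of the gates. -/
def ciVal {n : ℕ} (vH : D.CH.Gate n → Prop) (vF : RelF κ Fl n → D.CF.Gate n → Prop) (R : ℕ → RelF κ Fl n) :
    (ciIter D).Gate n → Prop
  | ⟨.hh t, x⟩ => vH ⟨t, x⟩
  | ⟨.ff t, x⟩ => vF (R ((x none : Fin n) / 2)) ⟨t, fun i => x (some i)⟩
  | ⟨.nt t, x⟩ => ∃ g e, D.K t = .new g e ∧ ¬ R ((x none : Fin n) / 2) g (fun k => x (some (e k)))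
  | ⟨.fin, x⟩ => R (n - 1) D.f x
  | ⟨.fin2, x⟩ => ¬ R (n - 1) D.f x

theorem ci_consistent {n : ℕ} (s : S n) (H : RelF κ Fl n) (F : RelF κ Fl n → RelF κ Fl n)
    (vH : D.CH.Gate n → Prop) (vF : RelF κ Fl n → D.CF.Gate n → Prop)
    (hH : D.CH.Consistent n s vH) (hHv : ∀ f x, vH ⟨D.oH f, fun i => x (D.eH f i)⟩ ↔ H f x)
    (hF : ∀ R, ∀ g : D.CF.Gate n, vF R g ↔ (D.K g.1).Val n s R g.2 (¬ ∀ h, D.CF.Wire n g h → vF R h))
    (hFv : ∀ R f x, vF R ⟨D.oF f, fun i => x (D.eF f i)⟩ ↔ F R f x) :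
    (ciIter D).Consistent n s (ciVal D vH vF (ciR F H)) := by
  rw [ci_cons_iff]
  rintro ⟨a, x⟩
  rcases a with t | t | t | _ | _
  · obtain ⟨h1, h2⟩ := (ci_cons_iff D.CH n s vH).1 hH ⟨t, x⟩
    refine ⟨fun w hw => h1 w hw, fun hw => (h2 hw).trans (not_congr ⟨fun h g hg => ?_, fun h g hg => ?_⟩)⟩
    · obtain ⟨k, rfl, hk⟩ := ci_w_hh D hg
      exact h k hk
    · exact h ⟨.hh g.1, g.2⟩ (CiWire.hh hg)
  · have key : ciVal D vH vF (ciR F H) ⟨.ff t, x⟩ ↔ (D.K t).Val n s (ciR F H ((x none : Fin n) / 2)) (fun i => x (some i))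
      (¬ ∀ h, D.CF.Wire n ⟨t, fun i => x (some i)⟩ h → vF (ciR F H ((x none : Fin n) / 2)) h) :=
      hF (ciR F H ((x none : Fin n) / 2)) ⟨t, fun i => x (some i)⟩
    refine ⟨fun w hw => key.trans ?_, fun hw => key.trans ?_⟩
    · have hw' : (D.K t).Inp = some w := hw
      cases hK : D.K t with
      | old ι P hP e =>
        rw [hK] at hw'
        cases hw'
        exact Iff.rfl
      | new g e =>
        rw [hK] at hw'
        cases hw'
      | nand =>
        rw [hK] at hw'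
        cases hw'
    · have hw' : (D.K t).Inp = none := hw
      cases hK : D.K t with
      | old ι P hP e =>
        rw [hK] at hw'
        cases hw'
      | new g e =>
        change ciR F H ((x none : Fin n) / 2) g (fun k => x (some (e k))) ↔ _
        rw [← not_iff_not, not_not]
        constructor
        · intro h k hk
          rcases ci_w_ff D hk with ⟨hK', _⟩ | ⟨_, rfl⟩
          · rw [hK] at hK'
            cases hK'
          · exact ⟨g, e, hK, h⟩
        · intro h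
          obtain ⟨g', e', hK', h'⟩ := h ⟨.nt t, x⟩ (CiWire.fn hK)
          rw [hK] at hK'
          cases hK'
          exact h'
      | nand =>
        change (¬ ∀ h, D.CF.Wire n ⟨t, fun i => x (some i)⟩ h → vF (ciR F H ((x none : Fin n) / 2)) h) ↔ _
        refine not_congr ⟨fun h g hg => ?_, fun h g hg => ?_⟩
        · rcases ci_w_ff D hg with ⟨_, k, rfl, hk⟩ | ⟨⟨g', e', hK'⟩, _⟩
          · exact h k hk
          · rw [hK] at hK'
            cases hK'
        · exact h ⟨.ff g.1, ciC (x none) g.2⟩ (CiWire.ff hK rfl hg)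
  · refine ⟨fun w hw => absurd hw ?_, fun _ => ?_⟩
    · exact fun h => by cases h
    · rw [← not_iff_not, not_not]
      constructor
      · intro h k hk
        obtain ⟨g, e, hK, ⟨h0, rfl⟩ | ⟨h0, rfl⟩⟩ := ci_w_nt D hk
        · have h1 : ciR F H ((x none : Fin n) / 2) g (fun k => x (some (e k))) := by
            by_contra hc
            exact h ⟨g, e, hK, hc⟩
          rw [ciR_succ F H h0] at h1
          exact (hFv _ g _).2 h1
        · have h1 : ciR F H ((x none : Fin n) / 2) g (fun k => x (some (e k))) := by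
            by_contra hc
            exact h ⟨g, e, hK, hc⟩
          rw [h0] at h1
          exact (hHv g _).2 h1
      · rintro h ⟨g, e, hK, h'⟩
        apply h'
        by_cases h0 : ((x none : Fin n) : ℕ) / 2 = 0
        · have h1 := h ⟨.hh (D.oH g), fun i => x (some (e (D.eH g i)))⟩
            (CiWire.nh hK ⟨ciHalf (x none), h0, rfl⟩ fun i => rfl)
          rw [h0]
          exact (hHv g (fun k => x (some (e k)))).1 h1
        · have h1 := h ⟨.ff (D.oF g), ciC (ciHalf (x none)) (fun i => x (some (e (D.eF g i))))⟩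
            (CiWire.nf hK h0 rfl fun i => rfl)
          rw [ciR_succ F H h0]
          exact (hFv _ g (fun k => x (some (e k)))).1 h1
  · refine ⟨fun w hw => absurd hw ?_, fun _ => ?_⟩
    · exact fun h => by cases h
    · rw [← not_iff_not, not_not]
      constructor
      · intro h k hk
        obtain rfl := ci_w_f1 D hk
        exact h
      · intro h
        exact h ⟨.fin2, x⟩ CiWire.f1
  · refine ⟨fun w hw => absurd hw ?_, fun _ => ?_⟩
    · exact fun h => by cases h
    · refine not_congr ?_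
      constructor
      · intro h k hk
        rcases ci_w_f2 D hk with ⟨h0, rfl⟩ | ⟨h0, rfl⟩
        · rw [ciR_succ F H (by omega)] at h
          exact (hFv _ D.f x).2 h
        · have : n - 1 = 0 := by omega
          rw [this] at h
          exact (hHv D.f x).2 h
      · intro h
        by_cases h0 : 2 ≤ n
        · have h1 := h ⟨.ff (D.oF D.f), ciC (ciLast h0) (fun i => x (D.eF D.f i))⟩
            (CiWire.f2 h0 (by change n - 1 + 1 = n; omega) fun i => rfl)
          rw [ciR_succ F H (by omega)]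
          exact (hFv _ D.f x).1 h1
        · have h1 := h ⟨.hh (D.oH D.f), fun i => x (D.eH D.f i)⟩ (CiWire.f3 h0 fun i => rfl)
          have : n - 1 = 0 := by omega
          rw [this]
          exact (hHv D.f x).1 h1

theorem ci_bound (cH kH cF kF n : ℕ) :
    cH * (Nat.log 2 n + 1) ^ kH + 3 + (Nat.size n + 1) * (cF * (Nat.log 2 n + 1) ^ kF + 3) ≤
      (cH + 9 + 2 * cF) * (Nat.log 2 n + 1) ^ (kH + kF + 1) := by
  have hs : Nat.size n ≤ Nat.log 2 n + 1 := by
    rw [Nat.size_le]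
    exact Nat.lt_pow_succ_log_self (by norm_num) n
  have hL : 1 ≤ Nat.log 2 n + 1 := Nat.succ_pos _
  generalize Nat.log 2 n + 1 = L at *
  have h1 : L ^ kH ≤ L ^ (kH + kF + 1) := Nat.pow_le_pow_right hL (by omega)
  have h2 : L * L ^ kF ≤ L ^ (kH + kF + 1) := by
    rw [← pow_succ']
    exact Nat.pow_le_pow_right hL (by omega)
  have h3 : L ≤ L ^ (kH + kF + 1) := by
    conv_lhs => rw [← pow_one L]
    exact Nat.pow_le_pow_right hL (by omega)
  have h4 : (Nat.size n + 1) * (cF * L ^ kF + 3) ≤ (2 * L) * (cF * L ^ kF + 3) := Nat.mul_le_mul_right _ (by omega)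
  generalize L ^ (kH + kF + 1) = M at *
  calc cH * L ^ kH + 3 + (Nat.size n + 1) * (cF * L ^ kF + 3) ≤ cH * L ^ kH + 3 + (2 * L) * (cF * L ^ kF + 3) := by omega
    _ = cH * L ^ kH + 3 + 2 * cF * (L * L ^ kF) + 6 * L := by ring
    _ ≤ cH * M + 3 * M + 2 * cF * M + 6 * M := by
      have h5 := Nat.mul_le_mul_left cH h1
      have h6 := Nat.mul_le_mul_left (2 * cF) h2
      omega
    _ = (cH + 9 + 2 * cF) * M := by ring

end

/-- Job CI. Iteration. The iterates are R 0 = H, R j = F (R (j/2)) for a counter j ∈ [1, n-1], so R (n-1) is the `Nat.size (n-1)`-th iterate (Nat.size j = Nat.size (j/2) + 1 for j ≥ 1).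
Tags: the tags of the circuits C_H f; the tags t of the circuits C_F f with A = Option (A t), the coordinate none being the counter j; for each tag t of C_F f reading the new relation g at y ∘ e an auxiliary tag nt; `fin f`, `fin2 f` with A = κ.
Gate (f,t,j,y): an old reader: the same reader; a NAND: the same wires with the same j; a reader of g (at y ∘ e): NAND gate with the single input nt(f,t,j,y).
nt(f,t,j,y): single input: the output gate of C_F g with counter j/2 at the tuple y ∘ e if j/2 ≥ 1, the output gate of C_H g at y ∘ e if j/2 = 0.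
fin f x: single input fin2 f x; fin2 f x: single input: output gate of C_F f with counter n-1 if n ≥ 2, output gate of C_H f if n ≤ 1.
Values: the gates with counter j have the values given by the circuit C_F f on the input (s, R (j/2)).
Levels (DH, DF bounds for the depths of all C_H f, C_F f): H-part as before; nt at j: DH + 1 + size j * (DF + 2); (f,t,j,y): DH + 2 + size j * (DF + 2) + level in C_F; fin2, fin on top. -/
theorem Comp.iter {κ Fl : Type} (hFl : Finite Fl) {H : Fl → RF S κ} {F : Fl → RF (fun n => S n × RelF κ Fl n) κ}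
    (hH : ∀ f, Comp S B κ (H f)) (hF : ∀ f, Comp (fun n => S n × RelF κ Fl n) (Ext B κ Fl) κ (F f)) (f : Fl) :
    Comp S B κ (fun n s x =>
        ((fun (R : RelF κ Fl n) (f : Fl) (x : κ → Fin n) => F f n (s, R) x)^[Nat.size (n - 1)] (fun f x => H f n s x)) f x) := by
  have hκ : Finite κ := (hH f).1
  obtain ⟨CH, oH, eH, cH, kH, hCH, hvH⟩ := ci_family hFl hH
  obtain ⟨CF, oF, eF, cF, kF, hCF, hvF⟩ := ci_family hFl hF
  obtain ⟨K, hK⟩ := ci_kind CF
  refine ⟨hκ, ciIter ⟨hκ, CH, CF, oH, eH, oF, eF, K, f⟩, .fin, fun i => i, cH + 9 + 2 * cF, kH + kF + 1, fun n => ⟨?_, ?_⟩, fun n s => ?_⟩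
  · exact ci_fanin _ (hCH n).1 (hCF n).1
  · obtain ⟨lev, h1, h2⟩ := ci_depth ⟨hκ, CH, CF, oH, eH, oF, eF, K, f⟩ (hCH n).2 (hCF n).2
    exact ⟨lev, fun g => (h1 g).trans (ci_bound cH kH cF kF n), h2⟩
  · obtain ⟨vH, hvH1, hvH2⟩ := hvH n s
    choose vF hvF1 hvF2 using fun R => hvF n (s, R)
    refine ⟨ciVal ⟨hκ, CH, CF, oH, eH, oF, eF, K, f⟩ vH vF
      (ciR (fun (R : RelF κ Fl n) (f : Fl) (x : κ → Fin n) => F f n (s, R) x) (fun f x => H f n s x)), ?_, fun x => Iff.rfl⟩
    exact ci_consistent ⟨hκ, CH, CF, oH, eH, oF, eF, K, f⟩ s (fun f x => H f n s x) (fun R f x => F f n (s, R) x) vH vF hvH1 hvH2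
      (fun R g => hK n s R (vF R) (hvF1 R) g) (fun R f x => hvF2 R f x)

theorem NCP.comp {F : RF S ι} (h : NCP S B ι F) : Comp S B ι F := by
  induction h with
  | base hι h => exact Comp.base hι h
  | comap hκ e _ ih => exact Comp.comap hκ e ih
  | le hι i j => exact Comp.ofFO hι (FODef.le i j)
  | add hι i j k => exact Comp.ofFO hι (FODef.add i j k)
  | not _ ih => exact Comp.not ih
  | and _ _ ih1 ih2 => exact Comp.and ih1 ih2
  | ex _ ih => exact Comp.ex ih
  | iter hFl _ _ f ih1 ih2 => exact Comp.iter hFl ih1 ih2 f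

/-- Job CF, auxiliary. A reader of `GB` reads one entry of the adjacency matrix. -/
private theorem cf_reader {ι A : Type} {P : RF GS ι} (h : GB ι P) (e : ι → A) :
    ∃ q : A × A, ∀ (n : ℕ) (G : SimpleGraph (Fin n)) (x : A → Fin n),
      P n G (fun i => x (e i)) ↔ G.Adj (x q.1) (x q.2) := by
  cases h
  exact ⟨(e 0, e 1), fun n G x => Iff.rfl⟩

/-- Job CF, auxiliary. The input maps of the closed circuit. -/
private theorem cf_inp (C : OC GS GB) (t : C.T) : ∃ q : Option (C.A t × C.A t),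
    (C.inp t = none ∧ q = none) ∨
    ∃ (ι : Type) (P : RF GS ι) (hB : GB ι P) (e : ι → C.A t) (i j : C.A t),
      C.inp t = some ⟨ι, P, hB, e⟩ ∧ q = some (i, j) ∧
      ∀ (n : ℕ) (G : SimpleGraph (Fin n)) (x : C.A t → Fin n), P n G (fun i => x (e i)) ↔ G.Adj (x i) (x j) := by
  rcases C.inp t with _ | ⟨ι, P, hB, e⟩
  · exact ⟨none, Or.inl ⟨rfl, rfl⟩⟩
  · obtain ⟨q, hq⟩ := cf_reader hB e
    exact ⟨some q, Or.inr ⟨ι, P, hB, e, q.1, q.2, rfl, rfl, hq⟩⟩

/-- Job CF, auxiliary. Consistent assignments of a circuit with levels are unique. -/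
private theorem cf_unique (C : CircuitFamily) (n d : ℕ) (hd : C.DepthLE n d) (G : SimpleGraph (Fin n))
    {v w : C.Gate n → Prop} (hv : C.Consistent n G v) (hw : C.Consistent n G w) (g : C.Gate n) : v g ↔ w g := by
  obtain ⟨lev, -, hlev⟩ := hd
  suffices H : ∀ (m : ℕ) (g : C.Gate n), lev g ≤ m → (v g ↔ w g) from H _ g le_rfl
  intro m
  induction m with
  | zero =>
    intro g hg
    rw [hv g, hw g]
    rcases hC : C.inp g.1 with _ | ⟨i, j⟩
    · have hno : ∀ h, ¬ C.Wire n g h := fun h hh => by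
        have := hlev g h hh
        omega
      constructor
      · intro _ hall
        simp_all
      · intro _ hall
        simp_all
    · exact Iff.rfl
  | succ m ih =>
    intro g hg
    rw [hv g, hw g]
    rcases hC : C.inp g.1 with _ | ⟨i, j⟩
    · have hih : ∀ h, C.Wire n g h → (v h ↔ w h) := fun h hh => ih h (by
        have := hlev g h hh
        omega)
      refine not_congr (forall_congr' fun h => ?_)
      exact ⟨fun k hh => (hih h hh).1 (k hh), fun k hh => (hih h hh).2 (k hh)⟩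
    · exact Iff.rfl

/-- Job CF. A graph property computed by an open circuit over the adjacency relation is in NC.
(All readers in GB are the adjacency relation; the output tag has no coordinates because it maps to the empty type.) -/
theorem inNC_of_comp {F : RF GS Empty} (h : Comp GS GB Empty F) : InNC (fun n G => F n G (fun i => i.elim)) := by
  obtain ⟨-, C, o, e, c, k, hCD, hV⟩ := h
  choose q hq using cf_inp C
  let C' : CircuitFamily :=
    { T := C.T
      finT := C.finT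
      A := C.A
      finA := C.finA
      inp := q
      wire := C.wire
      uniform := C.uniform
      out := o
      outA := ⟨fun i => (e i).elim⟩ }
  refine ⟨C', c, k, fun n => ⟨(hCD n).1, (hCD n).2, fun G => ?_⟩⟩
  obtain ⟨v, hv, hvF⟩ := hV n G
  have hcons : C'.Consistent n G v := by
    intro g
    have h1 := hv g
    have h2 : C'.inp g.1 = q g.1 := rfl
    rw [h2]
    rcases hq g.1 with ⟨h3, h4⟩ | ⟨ι, P, hB, e', i, j, h3, h4, h5⟩
    · rw [h3] at h1
      rw [h4]
      exact h1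
    · rw [h3] at h1
      rw [h4]
      exact h1.trans (h5 n G g.2)
  refine ⟨⟨v, hcons⟩, fun w hw => ?_⟩
  rw [← cf_unique C' n _ (hCD n).2 G hcons hw (C'.outGate n)]
  have h1 : C'.outGate n = ⟨o, fun i => (fun j : Empty => (j.elim : Fin n)) (e i)⟩ := by
    unfold CircuitFamily.outGate
    congr 1
    funext i
    exact (e i).elim
  rw [h1]
  exact hvF (fun j => j.elim)

/-- Programs decide graph properties in NC. -/
theorem inNC_of_NCP {F : RF GS Empty} (h : NCP GS GB Empty F) : InNC (fun n G => F n G (fun i => i.elim)) :=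
  inNC_of_comp h.comp

end Pool.Agent.UPM
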