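import Pool.Agent.Lib.MP_0087d5_lc.UPM.NCP

/-!
# Closure properties of parallel programs

Jobs NL1, PULL, TC, CNT. Quantified variables: for `ex`, `all` the bound variable is `z none`, the old ones are `z (some i)`.
-/

namespace Pool.Agent.UPM

open Relation

variable {S : ℕ → Type} {B : Readers S} {ι κ : Type} {P Q : RF S ι}

/-- Job NL1. -/
theorem NCP.finite (h : NCP S B ι P) : Finite ι := by
  induction h with
  | base hι _ => exact hι
  | comap hκ _ _ _ => exact hκ
  | le hι _ _ => exact hι
  | add hι _ _ _ => exact hι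
  | not _ ih => exact ih
  | and _ _ ih _ => exact ih
  | ex _ ih => exact Finite.of_injective some (Option.some_injective _)
  | iter _ _ _ f ih _ => exact ih f

theorem NCP.congr (h : NCP S B ι P) (hPQ : ∀ n s x, P n s x ↔ Q n s x) : NCP S B ι Q := by
  have : P = Q := by funext n s x; exact propext (hPQ n s x)
  exact this ▸ h

theorem NCP.or (hP : NCP S B ι P) (hQ : NCP S B ι Q) : NCP S B ι (fun n s x => P n s x ∨ Q n s x) := by
  refine NCP.congr (NCP.not (NCP.and (NCP.not hP) (NCP.not hQ))) (fun n s x => ?_)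
  tauto

theorem NCP.imp (hP : NCP S B ι P) (hQ : NCP S B ι Q) : NCP S B ι (fun n s x => P n s x → Q n s x) := by
  refine NCP.congr (NCP.not (NCP.and hP (NCP.not hQ))) (fun n s x => ?_)
  tauto

theorem NCP.iff (hP : NCP S B ι P) (hQ : NCP S B ι Q) : NCP S B ι (fun n s x => (P n s x ↔ Q n s x)) := by
  refine NCP.congr (NCP.and (NCP.imp hP hQ) (NCP.imp hQ hP)) (fun n s x => ?_)
  exact ⟨fun h => ⟨h.1, h.2⟩, fun h => ⟨h.1, h.2⟩⟩

theorem NCP.all {P : RF S (Option ι)} (h : NCP S B (Option ι) P) :
    NCP S B ι (fun n s x => ∀ a : Fin n, P n s (fun o => o.elim a x)) := by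
  refine NCP.congr (NCP.not (NCP.ex (NCP.not h))) (fun n s x => ?_)
  push Not
  rfl

/-- Curried form of `NCP.ex`. -/
theorem NCP.ex1 {R : ∀ n, S n → (ι → Fin n) → Fin n → Prop}
    (h : NCP S B (Option ι) (fun n s z => R n s (fun i => z (some i)) (z none))) :
    NCP S B ι (fun n s x => ∃ a : Fin n, R n s x a) := by
  exact NCP.ex h

/-- Curried form of `NCP.all`. -/
theorem NCP.all1 {R : ∀ n, S n → (ι → Fin n) → Fin n → Prop}
    (h : NCP S B (Option ι) (fun n s z => R n s (fun i => z (some i)) (z none))) :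
    NCP S B ι (fun n s x => ∀ a : Fin n, R n s x a) := by
  exact NCP.all h

theorem NCP.const (hι : Finite ι) (p : Prop) : NCP S B ι (fun _ _ _ => p) := by
  have h0 : NCP S B ι (fun n _ _ => ∃ a : Fin n, a ≤ a) :=
    NCP.ex1 (R := fun n _ _ a => a ≤ a) (NCP.le inferInstance none none)
  by_cases hp : p
  · refine NCP.congr (NCP.or h0 (NCP.not h0)) (fun n s x => ?_)
    tauto
  · refine NCP.congr (NCP.and h0 (NCP.not h0)) (fun n s x => ?_)
    tauto

theorem NCP.eq (hι : Finite ι) (i j : ι) : NCP S B ι (fun _ _ x => x i = x j) := by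
  refine NCP.congr (NCP.and (NCP.le hι i j) (NCP.le hι j i)) (fun n s x => ?_)
  exact ⟨fun h => le_antisymm h.1 h.2, fun h => ⟨h.le, h.ge⟩⟩

theorem NCP.lt (hι : Finite ι) (i j : ι) : NCP S B ι (fun _ _ x => x i < x j) := by
  refine NCP.congr (NCP.not (NCP.le hι j i)) (fun n s x => ?_)
  exact not_le

theorem NCP.zero (hι : Finite ι) (i : ι) : NCP S B ι (fun _ _ x => (x i : ℕ) = 0) := by
  refine NCP.congr (NCP.add hι i i i) (fun n s x => ?_)
  omega

theorem NCP.succ (hι : Finite ι) (i j : ι) : NCP S B ι (fun _ _ x => (x i : ℕ) = (x j : ℕ) + 1) := by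
  have h1 : NCP S B (Option ι) (fun n _ z => ¬ (z (some j) < z none ∧ z none < z (some i))) :=
    NCP.not (NCP.and (NCP.lt inferInstance _ _) (NCP.lt inferInstance _ _))
  refine NCP.congr (NCP.and (NCP.lt hι j i) (NCP.all1 (R := fun n _ x a => ¬ (x j < a ∧ a < x i)) h1))
    (fun n s x => ?_)
  constructor
  · rintro ⟨h2, h3⟩
    by_contra hne
    have h4 : (x j : ℕ) < (x i : ℕ) := h2
    have h5 : (x j : ℕ) + 1 < (x i : ℕ) := by omega
    exact h3 ⟨(x j : ℕ) + 1, h5.trans (x i).2⟩ ⟨Fin.lt_def.2 (Nat.lt_succ_self _), Fin.lt_def.2 h5⟩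
  · intro h2
    refine ⟨Fin.lt_def.2 (by omega), ?_⟩
    rintro a ⟨h3, h4⟩
    have h3' : (x j : ℕ) < (a : ℕ) := h3
    have h4' : (a : ℕ) < (x i : ℕ) := h4
    omega

theorem NCP.one (hι : Finite ι) (i : ι) : NCP S B ι (fun _ _ x => (x i : ℕ) = 1) := by
  refine NCP.congr (NCP.ex1 (R := fun n _ x a => (a : ℕ) = 0 ∧ (x i : ℕ) = (a : ℕ) + 1)
    (NCP.and (NCP.zero inferInstance none) (NCP.succ inferInstance (some i) none))) (fun n s x => ?_)
  constructor
  · rintro ⟨a, h1, h2⟩
    omega
  · intro h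
    exact ⟨⟨0, by have := (x i).2; omega⟩, rfl, h⟩

/-- The value `n - 1`. -/
theorem NCP.top (hι : Finite ι) (i : ι) : NCP S B ι (fun n _ x => (x i : ℕ) = n - 1) := by
  refine NCP.congr (NCP.all1 (R := fun n _ x a => a ≤ x i) (NCP.le inferInstance none (some i)))
    (fun n s x => ?_)
  constructor
  · intro h
    have h1 := (x i).2
    have h2 : (⟨n - 1, by omega⟩ : Fin n) ≤ x i := h _
    have h3 : n - 1 ≤ (x i : ℕ) := h2
    omega
  · intro h a
    rw [Fin.le_def]
    have := a.2
    omega

theorem NCP.dbl (hι : Finite ι) (i j : ι) : NCP S B ι (fun _ _ x => (x i : ℕ) = 2 * (x j : ℕ)) := by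
  refine NCP.congr (NCP.add hι j j i) (fun n s x => ?_)
  omega

theorem NCP.dblsucc (hι : Finite ι) (i j : ι) : NCP S B ι (fun _ _ x => (x i : ℕ) = 2 * (x j : ℕ) + 1) := by
  refine NCP.congr (NCP.ex1 (R := fun n _ x a => (a : ℕ) = 2 * (x j : ℕ) ∧ (x i : ℕ) = (a : ℕ) + 1)
    (NCP.and (NCP.dbl inferInstance none (some j)) (NCP.succ inferInstance (some i) none))) (fun n s x => ?_)
  constructor
  · rintro ⟨a, h1, h2⟩
    omega
  · intro h
    exact ⟨⟨2 * (x j : ℕ), by have := (x i).2; omega⟩, rfl, h⟩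

theorem NCP.half (hι : Finite ι) (i j : ι) : NCP S B ι (fun _ _ x => (x i : ℕ) = (x j : ℕ) / 2) := by
  refine NCP.congr (NCP.or (NCP.dbl hι j i) (NCP.dblsucc hι j i)) (fun n s x => ?_)
  omega

theorem NCP.allFin {J : Type} [Finite J] (hι : Finite ι) {P : J → RF S ι} (h : ∀ j, NCP S B ι (P j)) :
    NCP S B ι (fun n s x => ∀ j, P j n s x) := by
  classical
  have := Fintype.ofFinite J
  have key : ∀ t : Finset J, NCP S B ι (fun n s x => ∀ j ∈ t, P j n s x) := by
    intro t
    induction t using Finset.induction_on with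
    | empty =>
      refine NCP.congr (NCP.const hι True) (fun n s x => ?_)
      simp
    | insert a t _ ih =>
      refine NCP.congr (NCP.and (h a) ih) (fun n s x => ?_)
      rw [Finset.forall_mem_insert]
  refine NCP.congr (key Finset.univ) (fun n s x => ?_)
  simp

theorem NCP.exFin {J : Type} [Finite J] (hι : Finite ι) {P : J → RF S ι} (h : ∀ j, NCP S B ι (P j)) :
    NCP S B ι (fun n s x => ∃ j, P j n s x) := by
  refine NCP.congr (NCP.not (NCP.allFin hι (fun j => NCP.not (h j)))) (fun n s x => ?_)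
  push Not
  rfl

/-- Binary relations: substituting variables. -/
theorem NCP.rel2 {R : ∀ n, S n → Fin n → Fin n → Prop} (hι : Finite ι) (h : NCP S B (Fin 2) (fun n s x => R n s (x 0) (x 1))) (i j : ι) :
    NCP S B ι (fun n s x => R n s (x i) (x j)) := by
  exact NCP.comap hι ![i, j] h

theorem NCP.rel3 {R : ∀ n, S n → Fin n → Fin n → Fin n → Prop} (hι : Finite ι)
    (h : NCP S B (Fin 3) (fun n s x => R n s (x 0) (x 1) (x 2))) (i j k : ι) :
    NCP S B ι (fun n s x => R n s (x i) (x j) (x k)) := by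
  exact NCP.comap hι ![i, j, k] h

/-- The case of `NCP.pull` where basic relations become basic relations. -/
private theorem pull_basic {S : ℕ → Type} {B : Readers S} {ι : Type} {F : RF S ι} (h : NCP S B ι F) :
    ∀ (S' : ℕ → Type) (B' : Readers S') (f : ∀ n, S' n → S n),
      (∀ (ι : Type) (P : RF S ι), B ι P → B' ι (fun n s x => P n (f n s) x)) →
      NCP S' B' ι (fun n s x => F n (f n s) x) := by
  induction h with
  | base hι hP => exact fun S' B' f hB => NCP.base hι (hB _ _ hP)
  | comap hκ e _ ih => exact fun S' B' f hB => NCP.comap hκ e (ih S' B' f hB)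
  | le hι i j => exact fun S' B' f hB => NCP.le hι i j
  | add hι i j k => exact fun S' B' f hB => NCP.add hι i j k
  | not _ ih => exact fun S' B' f hB => NCP.not (ih S' B' f hB)
  | and _ _ ih₁ ih₂ => exact fun S' B' f hB => NCP.and (ih₁ S' B' f hB) (ih₂ S' B' f hB)
  | ex _ ih => exact fun S' B' f hB => NCP.ex (ih S' B' f hB)
  | @iter S B κ Fl hFl H F _ _ g ihH ihF =>
    intro S' B' f hB
    refine NCP.iter (S := S') (B := B') (κ := κ) (Fl := Fl) hFl
      (H := fun g n s x => H g n (f n s) x)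
      (F := fun g n s x => F g n (f n s.1, s.2) x) (fun g => ihH g S' B' f hB) (fun g => ?_) g
    refine ihF g (fun n => S' n × RelF κ Fl n) (Ext B' κ Fl) (fun n s => (f n s.1, s.2)) ?_
    intro ι' P hP
    cases hP with
    | old hP' => exact Ext.old (hB _ _ hP')
    | new g' => exact Ext.new g'

/-- Weakening: a program is a program for a larger input. -/
private theorem pull_weaken {S' : ℕ → Type} {B' : Readers S'} {κ Fl ι : Type} {F : RF S' ι}
    (h : NCP S' B' ι F) :
    NCP (fun n => S' n × RelF κ Fl n) (Ext B' κ Fl) ι (fun n s x => F n s.1 x) :=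
  pull_basic h (fun n => S' n × RelF κ Fl n) (Ext B' κ Fl) (fun _ s => s.1) fun _ _ hP => Ext.old hP

private theorem pull_gen {S : ℕ → Type} {B : Readers S} {ι : Type} {F : RF S ι} (h : NCP S B ι F) :
    ∀ (S' : ℕ → Type) (B' : Readers S') (f : ∀ n, S' n → S n),
      (∀ (ι : Type) (_ : Finite ι) (P : RF S ι), B ι P → NCP S' B' ι (fun n s x => P n (f n s) x)) →
      NCP S' B' ι (fun n s x => F n (f n s) x) := by
  induction h with
  | base hι hP => exact fun S' B' f hB => hB _ hι _ hP
  | comap hκ e _ ih => exact fun S' B' f hB => NCP.comap hκ e (ih S' B' f hB)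
  | le hι i j => exact fun S' B' f hB => NCP.le hι i j
  | add hι i j k => exact fun S' B' f hB => NCP.add hι i j k
  | not _ ih => exact fun S' B' f hB => NCP.not (ih S' B' f hB)
  | and _ _ ih₁ ih₂ => exact fun S' B' f hB => NCP.and (ih₁ S' B' f hB) (ih₂ S' B' f hB)
  | ex _ ih => exact fun S' B' f hB => NCP.ex (ih S' B' f hB)
  | @iter S B κ Fl hFl H F _ _ g ihH ihF =>
    intro S' B' f hB
    refine NCP.iter (S := S') (B := B') (κ := κ) (Fl := Fl) hFl
      (H := fun g n s x => H g n (f n s) x)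
      (F := fun g n s x => F g n (f n s.1, s.2) x) (fun g => ihH g S' B' f hB) (fun g => ?_) g
    refine ihF g (fun n => S' n × RelF κ Fl n) (Ext B' κ Fl) (fun n s => (f n s.1, s.2)) ?_
    intro ι' hι' P hP
    cases hP with
    | old hP' => exact pull_weaken (hB _ hι' _ hP')
    | new g' => exact NCP.base hι' (Ext.new g')

/-- Job PULL. Change of the input: if all basic relations of (S, B) are programs over (S', B') then so are all programs.
Proof: first the case where basic relations become basic relations (induction on the derivation, for all S', B', f; in the case `iter` use the map (s, R) ↦ (f s, R) and `Ext`);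
in particular weakening from (S', B') to (S' × RelF, Ext). Then the general case by the same induction, using the weakening for the relations of `Ext.old`. -/
theorem NCP.pull {S' : ℕ → Type} {B' : Readers S'} (f : ∀ n, S' n → S n)
    (hB : ∀ (ι : Type) (_ : Finite ι) (P : RF S ι), B ι P → NCP S' B' ι (fun n s x => P n (f n s) x))
    {ι : Type} {F : RF S ι} (h : NCP S B ι F) : NCP S' B' ι (fun n s x => F n (f n s) x) :=
  pull_gen h S' B' f hB

/-- chain of length `j` from `a` to `b` -/
private def tcNP {α : Type} (Q : α → α → Prop) (j : ℕ) (a b : α) : Prop :=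
  ∃ f : ℕ → α, f 0 = a ∧ f j = b ∧ ∀ i < j, Q (f i) (f (i + 1))

private theorem tc_np_split {α : Type} {Q : α → α → Prop} {i j : ℕ} {a b : α} (h : tcNP Q (i + j) a b) :
    ∃ c, tcNP Q i a c ∧ tcNP Q j c b := by
  obtain ⟨f, h0, h1, h2⟩ := h
  refine ⟨f i, ⟨f, h0, rfl, fun k hk => h2 k (by omega)⟩, fun k => f (i + k), rfl, h1, fun k hk => ?_⟩
  have := h2 (i + k) (by omega)
  rwa [Nat.add_assoc] at this

/-- the relation after `t` doublings -/
private def tcE {α : Type} (Q : α → α → Prop) : ℕ → α → α → Prop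
  | 0 => Q
  | t + 1 => fun a b => tcE Q t a b ∨ ∃ c, tcE Q t a c ∧ tcE Q t c b

private theorem tc_e_of_np {α : Type} {Q : α → α → Prop} (t : ℕ) : ∀ (j : ℕ) (a b : α), 1 ≤ j → j ≤ 2 ^ t →
    tcNP Q j a b → tcE Q t a b := by
  induction t with
  | zero =>
    intro j a b h1 h2 h
    have : j = 1 := by simp at h2; omega
    subst this
    obtain ⟨f, h0, h1, h2⟩ := h
    have := h2 0 one_pos
    rw [h0, h1] at this
    exact this
  | succ t ih =>
    intro j a b h1 h2 h
    by_cases hj : j ≤ 2 ^ t
    · exact Or.inl (ih j a b h1 hj h)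
    · push Not at hj
      have hj2 : j = 2 ^ t + (j - 2 ^ t) := by omega
      rw [hj2] at h
      obtain ⟨c, hc1, hc2⟩ := tc_np_split h
      refine Or.inr ⟨c, ih _ _ _ Nat.one_le_two_pow le_rfl hc1, ih _ _ _ (by omega) ?_ hc2⟩
      rw [pow_succ] at h2
      omega

private theorem tc_transGen_of_e {α : Type} {Q : α → α → Prop} (t : ℕ) : ∀ (a b : α), tcE Q t a b → TransGen Q a b := by
  induction t with
  | zero => exact fun a b h => TransGen.single h
  | succ t ih =>
    rintro a b (h | ⟨c, h1, h2⟩)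
    · exact ih a b h
    · exact (ih a c h1).trans (ih c b h2)

private theorem tc_np_of_transGen {α : Type} {Q : α → α → Prop} {a b : α} (h : TransGen Q a b) :
    ∃ j, 1 ≤ j ∧ tcNP Q j a b := by
  induction h with
  | single h =>
    rename_i b
    refine ⟨1, le_rfl, fun k => if k = 0 then a else b, by simp, by simp, ?_⟩
    intro i hi
    have : i = 0 := by omega
    subst this
    simpa using h
  | tail _ h ih =>
    rename_i b c _
    obtain ⟨j, hj, f, h0, h1, h2⟩ := ih
    refine ⟨j + 1, by omega, fun k => if k ≤ j then f k else c, by simp [h0], by simp, ?_⟩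
    intro i hi
    by_cases hij : i = j
    · subst hij
      simp only [le_refl, if_true, Nat.not_succ_le_self, if_false, h1]
      exact h
    · have h3 : i ≤ j := by omega
      have h4 : i + 1 ≤ j := by omega
      simp only [h3, h4, if_true]
      exact h2 i (by omega)

private theorem tc_short {α : Type} [Finite α] {Q : α → α → Prop} {a b : α} (h : TransGen Q a b) :
    ∃ j, 1 ≤ j ∧ j ≤ Nat.card α ∧ tcNP Q j a b := by
  classical
  have hex := tc_np_of_transGen h
  set j := Nat.find hex with hj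
  obtain ⟨hj1, hj2⟩ := Nat.find_spec hex
  refine ⟨j, hj1, ?_, hj2⟩
  by_contra hcard
  push Not at hcard
  obtain ⟨f, h0, h1, h2⟩ := hj2
  have := Fintype.ofFinite α
  rw [Nat.card_eq_fintype_card] at hcard
  obtain ⟨p, q, hpq, hfe⟩ := Fintype.exists_ne_map_eq_of_card_lt (fun i : Fin j => f (i + 1)) (by rwa [Fintype.card_fin])
  wlog hlt : (p : ℕ) < (q : ℕ) generalizing p q
  · exact this q p hpq.symm hfe.symm (lt_of_le_of_ne (not_lt.mp hlt) fun h => hpq (Fin.ext h).symm)
  have hq := q.isLt
  have hshort : 1 ≤ j - (q - p) ∧ tcNP Q (j - (q - p)) a b := by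
    refine ⟨by omega, fun k => if k ≤ p + 1 then f k else f (k + (q - p)), by simp [h0], ?_, ?_⟩
    · by_cases hle : j - (q - p) ≤ (p : ℕ) + 1
      · have e : j - (q - p) = p + 1 := by omega
        simp only [e, le_refl, if_true]
        rw [show f (p + 1) = f (q + 1) from hfe]
        have : (q : ℕ) + 1 = j := by omega
        rw [this]
        exact h1
      · simp only [hle, if_false]
        have : j - (q - p) + (q - p) = j := by omega
        rw [this]
        exact h1
    · intro i hi
      by_cases hi1 : i + 1 ≤ (p : ℕ) + 1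
      · have hi0 : i ≤ (p : ℕ) + 1 := by omega
        simp only [hi0, hi1, if_true]
        exact h2 i (by omega)
      · by_cases hi0 : i ≤ (p : ℕ) + 1
        · have e : i = p + 1 := by omega
          subst e
          simp only [le_refl, if_true, hi1, if_false]
          rw [show f (p + 1) = f (q + 1) from hfe]
          have e2 : (p : ℕ) + 1 + 1 + (q - p) = q + 1 + 1 := by omega
          rw [e2]
          exact h2 (q + 1) (by omega)
        · simp only [hi0, hi1, if_false]
          have e2 : i + 1 + (q - p) = (i + (q - p)) + 1 := by omega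
          rw [e2]
          exact h2 _ (by omega)
  have hmin := Nat.find_min' hex hshort
  omega

private theorem tc_e_iff {α : Type} [Finite α] {Q : α → α → Prop} {t : ℕ} (ht : Nat.card α ≤ 2 ^ t) (a b : α) :
    tcE Q t a b ↔ TransGen Q a b := by
  constructor
  · exact tc_transGen_of_e t a b
  · intro h
    obtain ⟨j, h1, h2, h3⟩ := tc_short h
    exact tc_e_of_np t j a b h1 (h2.trans ht) h3

/-- existential quantification over a tuple -/
private theorem tc_exTuple {S : ℕ → Type} {B : Readers S} (κ : Type) [Finite κ] : ∀ (ι : Type) (P : RF S (ι ⊕ κ)),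
    NCP S B (ι ⊕ κ) P → NCP S B ι (fun n s x => ∃ y : κ → Fin n, P n s (Sum.elim x y)) := by
  induction κ using Finite.induction_empty_option with
  | @of_equiv α β e ih =>
    intro ι P hP
    have hf : Finite (ι ⊕ β) := hP.finite
    have hfι : Finite ι := Finite.of_injective (Sum.inl : ι → ι ⊕ β) Sum.inl_injective
    have hfβ : Finite β := Finite.of_injective (Sum.inr : β → ι ⊕ β) Sum.inr_injective
    have hfα : Finite α := Finite.of_equiv β e.symm
    have h1 := ih ι _ (NCP.comap (κ := ι ⊕ α) inferInstance (Sum.map id e.symm) hP)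
    refine h1.congr fun n s x => ?_
    constructor
    · rintro ⟨y, hy⟩
      refine ⟨fun b => y (e.symm b), ?_⟩
      convert hy using 1
      funext i
      rcases i with i | i <;> rfl
    · rintro ⟨y, hy⟩
      refine ⟨fun a => y (e a), ?_⟩
      convert hy using 1
      funext i
      rcases i with i | i
      · rfl
      · simp
  | h_empty =>
    intro ι P hP
    have hf : Finite (ι ⊕ PEmpty) := hP.finite
    have hfι : Finite ι := Finite.of_injective (Sum.inl : ι → ι ⊕ PEmpty) Sum.inl_injective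
    have h1 := NCP.comap (κ := ι) inferInstance (Sum.elim id PEmpty.elim) hP
    refine h1.congr fun n s x => ?_
    have e : ∀ y : PEmpty → Fin n, (fun i => x (Sum.elim id PEmpty.elim i)) = Sum.elim x y := by
      intro y
      funext i
      rcases i with i | i
      · rfl
      · exact i.elim
    constructor
    · intro h
      exact ⟨fun i => i.elim, e _ ▸ h⟩
    · rintro ⟨y, hy⟩
      rw [e y]
      exact hy
  | @h_option α _ ih =>
    intro ι P hP
    have hf : Finite (ι ⊕ Option α) := hP.finite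
    have hfι : Finite ι := Finite.of_injective (Sum.inl : ι → ι ⊕ Option α) Sum.inl_injective
    have h0 := NCP.comap (κ := Option (ι ⊕ α)) inferInstance
      (Sum.elim (fun i => some (Sum.inl i)) (fun o => o.elim none (fun a => some (Sum.inr a)))) hP
    have h1 := ih ι _ (NCP.ex h0)
    refine h1.congr fun n s x => ?_
    have e : ∀ (a : Fin n) (y : α → Fin n), (fun i => (fun o : Option (ι ⊕ α) => o.elim a (Sum.elim x y))
        ((Sum.elim (fun i => some (Sum.inl i)) (fun o : Option α => o.elim none (fun a => some (Sum.inr a))) :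
          ι ⊕ Option α → Option (ι ⊕ α)) i)) = Sum.elim x (fun o : Option α => o.elim a y) := by
      intro a y
      funext i
      rcases i with i | (_ | i) <;> rfl
    constructor
    · rintro ⟨y, a, h⟩
      refine ⟨fun o => o.elim a y, ?_⟩
      rw [← e a y]
      exact h
    · rintro ⟨y, h⟩
      refine ⟨fun i => y (some i), y none, ?_⟩
      have h2 := e (y none) (fun i => y (some i))
      have h3 : (fun o : Option α => o.elim (y none) (fun i => y (some i))) = y := by
        funext o
        cases o <;> rfl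
      rw [h3] at h2
      show P n s _
      rw [h2]
      exact h

/-- doubling operator -/
private def tcD {ι κ Fl : Type} {n : ℕ} (R : RelF (ι ⊕ (κ ⊕ κ)) (Fl × Fl) n) : RelF (ι ⊕ (κ ⊕ κ)) (Fl × Fl) n :=
  fun fg z => R fg z ∨ ∃ e : Fl, ∃ y : κ → Fin n,
    R (fg.1, e) (Sum.elim (fun i => z (Sum.inl i)) (Sum.elim (fun i => z (Sum.inr (Sum.inl i))) y)) ∧
    R (e, fg.2) (Sum.elim (fun i => z (Sum.inl i)) (Sum.elim y (fun i => z (Sum.inr (Sum.inr i)))))

private theorem tc_ncp_D {S : ℕ → Type} {B : Readers S} {ι κ Fl : Type} [Finite ι] [Finite κ] [Finite Fl]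
    {P : (Fl × Fl) → RF S (ι ⊕ (κ ⊕ κ))} (h : ∀ fg, NCP S B (ι ⊕ (κ ⊕ κ)) (P fg)) (fg : Fl × Fl) :
    NCP S B (ι ⊕ (κ ⊕ κ)) (fun n s z => tcD (fun fg z => P fg n s z) fg z) := by
  refine NCP.or (h fg) (NCP.exFin inferInstance fun e => ?_)
  have h1 := NCP.comap (κ := (ι ⊕ (κ ⊕ κ)) ⊕ κ) inferInstance
    (Sum.elim (fun i => Sum.inl (Sum.inl i)) (Sum.elim (fun i => Sum.inl (Sum.inr (Sum.inl i))) (fun i => Sum.inr i)))
    (h (fg.1, e))
  have h2 := NCP.comap (κ := (ι ⊕ (κ ⊕ κ)) ⊕ κ) inferInstance
    (Sum.elim (fun i => Sum.inl (Sum.inl i)) (Sum.elim (fun i => Sum.inr i) (fun i => Sum.inl (Sum.inr (Sum.inr i)))))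
    (h (e, fg.2))
  refine (tc_exTuple κ _ _ (NCP.and h1 h2)).congr fun n s z => ?_
  have e1 : ∀ y : κ → Fin n, (fun i => (Sum.elim z y : (ι ⊕ (κ ⊕ κ)) ⊕ κ → Fin n)
      ((Sum.elim (fun i => Sum.inl (Sum.inl i)) (Sum.elim (fun i => Sum.inl (Sum.inr (Sum.inl i))) (fun i => Sum.inr i)) :
        (ι ⊕ (κ ⊕ κ)) → (ι ⊕ (κ ⊕ κ)) ⊕ κ) i)) =
      Sum.elim (fun i => z (Sum.inl i)) (Sum.elim (fun i => z (Sum.inr (Sum.inl i))) y) := by
    intro y
    funext i
    rcases i with i | (i | i) <;> rfl
  have e2 : ∀ y : κ → Fin n, (fun i => (Sum.elim z y : (ι ⊕ (κ ⊕ κ)) ⊕ κ → Fin n)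
      ((Sum.elim (fun i => Sum.inl (Sum.inl i)) (Sum.elim (fun i => Sum.inr i) (fun i => Sum.inl (Sum.inr (Sum.inr i)))) :
        (ι ⊕ (κ ⊕ κ)) → (ι ⊕ (κ ⊕ κ)) ⊕ κ) i)) =
      Sum.elim (fun i => z (Sum.inl i)) (Sum.elim y (fun i => z (Sum.inr (Sum.inr i)))) := by
    intro y
    funext i
    rcases i with i | (i | i) <;> rfl
  refine exists_congr fun y => ?_
  rw [e1 y, e2 y]

private theorem tc_ncp_D_iter {S : ℕ → Type} {B : Readers S} {ι κ Fl : Type} [Finite ι] [Finite κ] [Finite Fl]
    {P : (Fl × Fl) → RF S (ι ⊕ (κ ⊕ κ))} (h : ∀ fg, NCP S B (ι ⊕ (κ ⊕ κ)) (P fg)) (k : ℕ) :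
    ∀ fg : Fl × Fl, NCP S B (ι ⊕ (κ ⊕ κ)) (fun n s z => (tcD^[k] (fun fg z => P fg n s z)) fg z) := by
  induction k with
  | zero => exact h
  | succ k ih =>
    intro fg
    refine (tc_ncp_D ih fg).congr fun n s z => ?_
    rw [Function.iterate_succ_apply']

private theorem tc_D_iter_iff {ι κ Fl : Type} {n : ℕ} {Q : (ι → Fin n) → ((κ → Fin n) × Fl) → ((κ → Fin n) × Fl) → Prop}
    (t : ℕ) : ∀ (fg : Fl × Fl) (z : (ι ⊕ (κ ⊕ κ)) → Fin n),
    (tcD^[t] (fun (fg : Fl × Fl) (z : (ι ⊕ (κ ⊕ κ)) → Fin n) =>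
      Q (fun i => z (Sum.inl i)) (fun i => z (Sum.inr (Sum.inl i)), fg.1) (fun i => z (Sum.inr (Sum.inr i)), fg.2))) fg z ↔
    tcE (Q (fun i => z (Sum.inl i))) t (fun i => z (Sum.inr (Sum.inl i)), fg.1) (fun i => z (Sum.inr (Sum.inr i)), fg.2) := by
  induction t with
  | zero => exact fun fg z => Iff.rfl
  | succ t ih =>
    intro fg z
    rw [Function.iterate_succ_apply']
    show (_ ∨ _) ↔ (_ ∨ _)
    refine or_congr (ih fg z) ?_
    constructor
    · rintro ⟨e, y, h1, h2⟩
      exact ⟨(y, e), (ih _ _).mp h1, (ih _ _).mp h2⟩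
    · rintro ⟨⟨y, e⟩, h1, h2⟩
      exact ⟨e, y, (ih (fg.1, e) (Sum.elim (fun i => z (Sum.inl i)) (Sum.elim (fun i => z (Sum.inr (Sum.inl i))) y))).mpr h1,
        (ih (e, fg.2) (Sum.elim (fun i => z (Sum.inl i)) (Sum.elim y (fun i => z (Sum.inr (Sum.inr i)))))).mpr h2⟩

/-- Job TC. Transitive closures of relations on tuples with finitely many flags.
Proof: iterate the operator R ↦ Q ∪ R ∪ R∘R composed with itself k + l times, where k ≥ card κ and 2^l ≥ card Fl, starting from Q: after t applications it contains all chains of length ≤ 2^t, and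
2^((k+l) * Nat.size (n-1)) ≥ n^k * card Fl when n ≥ 2; for n ≤ 1 use at least l further applications (take a few more). A shortest chain has at most (number of states) steps.
Parameters (indexed by ι) are kept as arguments of the iterated relation: κ' = ι ⊕ (κ ⊕ κ), flags Fl × Fl. -/
theorem NCP.tc {Fl : Type} (hι : Finite ι) (hκ : Finite κ) (hFl : Finite Fl)
    {Q : ∀ n, S n → (ι → Fin n) → ((κ → Fin n) × Fl) → ((κ → Fin n) × Fl) → Prop}
    (h : ∀ f g, NCP S B (ι ⊕ (κ ⊕ κ)) (fun n s z =>
      Q n s (fun i => z (Sum.inl i)) (fun i => z (Sum.inr (Sum.inl i)), f) (fun i => z (Sum.inr (Sum.inr i)), g))) :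
    ∀ f g, NCP S B (ι ⊕ (κ ⊕ κ)) (fun n s z =>
      TransGen (Q n s (fun i => z (Sum.inl i))) (fun i => z (Sum.inr (Sum.inl i)), f) (fun i => z (Sum.inr (Sum.inr i)), g)) := by
  intro f g
  have hH : ∀ fg : Fl × Fl, NCP S B (ι ⊕ (κ ⊕ κ)) (fun n s z =>
      Q n s (fun i => z (Sum.inl i)) (fun i => z (Sum.inr (Sum.inl i)), fg.1) (fun i => z (Sum.inr (Sum.inr i)), fg.2)) :=
    fun fg => h fg.1 fg.2
  have hF : ∀ fg : Fl × Fl, NCP (fun n => S n × RelF (ι ⊕ (κ ⊕ κ)) (Fl × Fl) n) (Ext B (ι ⊕ (κ ⊕ κ)) (Fl × Fl))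
      (ι ⊕ (κ ⊕ κ)) (fun n s z => (tcD^[Nat.card κ] (fun fg z => s.2 fg z)) fg z) :=
    tc_ncp_D_iter (S := fun n => S n × RelF (ι ⊕ (κ ⊕ κ)) (Fl × Fl) n) (P := fun fg n s z => s.2 fg z)
      (fun fg => NCP.base inferInstance (Ext.new fg)) _
  have h1 := NCP.iter (inferInstance : Finite (Fl × Fl)) hH hF
  have h2 := tc_ncp_D_iter h1 (Nat.card Fl) (f, g)
  refine h2.congr fun n s z => ?_
  have h3 : (tcD^[Nat.card Fl] (fun (fg : Fl × Fl) z => ((fun (R : RelF (ι ⊕ (κ ⊕ κ)) (Fl × Fl) n) fg x =>
      (tcD^[Nat.card κ] (fun fg z => R fg z)) fg x)^[Nat.size (n - 1)] (fun fg z =>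
        Q n s (fun i => z (Sum.inl i)) (fun i => z (Sum.inr (Sum.inl i)), fg.1)
          (fun i => z (Sum.inr (Sum.inr i)), fg.2))) fg z)) =
      (tcD^[Nat.card κ * Nat.size (n - 1) + Nat.card Fl] (fun (fg : Fl × Fl) z =>
        Q n s (fun i => z (Sum.inl i)) (fun i => z (Sum.inr (Sum.inl i)), fg.1)
          (fun i => z (Sum.inr (Sum.inr i)), fg.2))) := by
    rw [Nat.add_comm, Function.iterate_add_apply, Function.iterate_mul]
  show (tcD^[Nat.card Fl] _) (f, g) z ↔ _
  rw [h3, tc_D_iter_iff, tc_e_iff]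
  have hc : Nat.card ((κ → Fin n) × Fl) = n ^ Nat.card κ * Nat.card Fl := by
    have := Fintype.ofFinite κ
    rw [Nat.card_prod, Nat.card_fun, Nat.card_fin]
  rw [hc, pow_add, mul_comm (Nat.card κ), pow_mul]
  apply Nat.mul_le_mul
  · apply Nat.pow_le_pow_left
    have : n - 1 < 2 ^ Nat.size (n - 1) := Nat.lt_size_self _
    omega
  · exact Nat.lt_two_pow_self.le

/-- Job TC. The simple case: a binary relation on vertices. -/
theorem NCP.tc1 (hι : Finite ι) {Q : ∀ n, S n → (ι → Fin n) → Fin n → Fin n → Prop}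
    (h : NCP S B (Option (Option ι)) (fun n s z => Q n s (fun i => z (some (some i))) (z (some none)) (z none))) :
    NCP S B (Option (Option ι)) (fun n s z => TransGen (Q n s (fun i => z (some (some i)))) (z (some none)) (z none)) := by
  have h1 := NCP.comap (κ := ι ⊕ (Unit ⊕ Unit)) inferInstance
    (fun o : Option (Option ι) => match o with
      | some (some i) => Sum.inl i
      | some none => Sum.inr (Sum.inl ())
      | none => Sum.inr (Sum.inr ())) h
  have h2 := NCP.tc (Fl := Unit) (κ := Unit) hι inferInstance inferInstance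
    (Q := fun n s p u v => Q n s p (u.1 ()) (v.1 ())) (fun _ _ => h1) () ()
  have h3 := NCP.comap (κ := Option (Option ι)) inferInstance
    (fun o : ι ⊕ (Unit ⊕ Unit) => match o with
      | Sum.inl i => some (some i)
      | Sum.inr (Sum.inl _) => some none
      | Sum.inr (Sum.inr _) => none) h2
  refine h3.congr fun n s z => ?_
  constructor
  · intro h
    exact TransGen.lift (fun u : (Unit → Fin n) × Unit => u.1 ()) (fun u v huv => huv) _ _ h
  · intro h
    exact TransGen.lift (r := Q n s (fun i => z (some (some i)))) (fun a : Fin n => ((fun _ => a, ()) : (Unit → Fin n) × Unit))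
      (fun u v huv => huv) _ _ h

/-- Number of `a` in the dyadic block `[i 2^t, (i+1) 2^t)` with `P a`. -/
private noncomputable def cntBlk {n : ℕ} (P : Fin n → Prop) (t i : ℕ) : ℕ :=
  {a : Fin n | P a ∧ i * 2 ^ t ≤ (a : ℕ) ∧ (a : ℕ) < (i + 1) * 2 ^ t}.ncard

private theorem cntBlk_zero {n : ℕ} (P : Fin n → Prop) (i : Fin n) :
    (P i → cntBlk P 0 i = 1) ∧ (¬ P i → cntBlk P 0 i = 0) := by
  constructor
  · intro h
    have : {a : Fin n | P a ∧ (i : ℕ) * 2 ^ 0 ≤ (a : ℕ) ∧ (a : ℕ) < ((i : ℕ) + 1) * 2 ^ 0} = {i} := by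
      ext a
      simp only [Set.mem_ofPred_eq, Set.mem_singleton_iff, pow_zero, mul_one]
      constructor
      · rintro ⟨_, h1, h2⟩
        exact Fin.ext (by omega)
      · rintro rfl
        exact ⟨h, le_refl _, by omega⟩
    rw [cntBlk, this, Set.ncard_singleton]
  · intro h
    have : {a : Fin n | P a ∧ (i : ℕ) * 2 ^ 0 ≤ (a : ℕ) ∧ (a : ℕ) < ((i : ℕ) + 1) * 2 ^ 0} = ∅ := by
      ext a
      simp only [Set.mem_ofPred_eq, pow_zero, mul_one, Set.mem_empty_iff_false, iff_false]
      rintro ⟨h0, h1, h2⟩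
      have : a = i := Fin.ext (by omega)
      exact h (this ▸ h0)
    rw [cntBlk, this, Set.ncard_empty]

private theorem cntBlk_succ {n : ℕ} (P : Fin n → Prop) (t i : ℕ) :
    cntBlk P (t + 1) i = cntBlk P t (2 * i) + cntBlk P t (2 * i + 1) := by
  have e1 : i * 2 ^ (t + 1) = 2 * i * 2 ^ t := by ring
  have e2 : (i + 1) * 2 ^ (t + 1) = (2 * i + 1 + 1) * 2 ^ t := by ring
  have e3 : (2 * i + 1) * 2 ^ t = 2 * i * 2 ^ t + 2 ^ t := by ring
  have e4 : (2 * i + 1 + 1) * 2 ^ t = 2 * i * 2 ^ t + 2 ^ t + 2 ^ t := by ring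
  rw [cntBlk, cntBlk, cntBlk, ← Set.ncard_union_eq _ (Set.toFinite _) (Set.toFinite _)]
  · congr 1
    ext a
    simp only [Set.mem_ofPred_eq, Set.mem_union, e1, e2, e3, e4]
    constructor
    · rintro ⟨h0, h1, h2⟩
      rcases lt_or_ge (a : ℕ) (2 * i * 2 ^ t + 2 ^ t) with h | h
      · exact Or.inl ⟨h0, h1, h⟩
      · exact Or.inr ⟨h0, h, h2⟩
    · rintro (⟨h0, h1, h2⟩ | ⟨h0, h1, h2⟩)
      · exact ⟨h0, h1, by omega⟩
      · exact ⟨h0, by omega, h2⟩
  · rw [Set.disjoint_left]
    rintro a ⟨_, _, h1⟩ ⟨_, h2, _⟩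
    omega

private theorem cntBlk_ge {n : ℕ} (P : Fin n → Prop) (t i : ℕ) (hi : n ≤ i) : cntBlk P t i = 0 := by
  have : {a : Fin n | P a ∧ i * 2 ^ t ≤ (a : ℕ) ∧ (a : ℕ) < (i + 1) * 2 ^ t} = ∅ := by
    ext a
    simp only [Set.mem_ofPred_eq, Set.mem_empty_iff_false, iff_false]
    rintro ⟨_, h1, _⟩
    have h2 : i ≤ i * 2 ^ t := Nat.le_mul_of_pos_right _ (by positivity)
    have := a.2
    omega
  rw [cntBlk, this, Set.ncard_empty]

private theorem cntBlk_all {n : ℕ} (P : Fin n → Prop) : cntBlk P (Nat.size (n - 1)) 0 = {a | P a}.ncard := by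
  rw [cntBlk]
  congr 1
  ext a
  simp only [Set.mem_ofPred_eq, zero_mul, zero_add, one_mul, Nat.zero_le, true_and, and_iff_left_iff_imp]
  intro _
  have h1 := Nat.lt_size_self (n - 1)
  have := a.2
  omega

private theorem cnt_ncp_new (hJ : Finite ι) (hfin : Finite κ) {Fl : Type} (f : Fl) (e : κ → ι) :
    NCP (fun n => S n × RelF κ Fl n) (Ext B κ Fl) ι (fun _ s x => s.2 f (fun i => x (e i))) :=
  NCP.comap hJ e (NCP.base (B := Ext B κ Fl) (P := fun _ s x => s.2 f x) hfin (Ext.new f))

/-- Job CNT. Parity. Proof: iterate R'(x, i) = R(x, 2i) xor R(x, 2i+1), where R(x, j) is false for j ≥ n, starting from Q; after t steps R(x, i) is the parity of the number of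
a ∈ [i 2^t, (i+1) 2^t), a < n, with Q x a; n ≤ 2^(Nat.size (n-1)) for n ≥ 1. The result is R(x, 0). -/
theorem NCP.parity {Q : ∀ n, S n → (ι → Fin n) → Fin n → Prop}
    (h : NCP S B (Option ι) (fun n s z => Q n s (fun i => z (some i)) (z none))) :
    NCP S B ι (fun n s x => Odd {a | Q n s x a}.ncard) := by
  classical
  have hO : Finite (Option ι) := h.finite
  have hI : Finite ι := Finite.of_injective (some : ι → Option ι) (Option.some_injective ι)
  have hOO : Finite (Option (Option ι)) := inferInstance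
  -- the operator
  let T : ∀ n, S n × RelF (Option ι) Unit n → (Option ι → Fin n) → Prop := fun n s z =>
    ¬ ((∃ a : Fin n, (a : ℕ) = 2 * (z none : ℕ) ∧ s.2 () (fun o => o.elim a (fun i => z (some i)))) ↔
      (∃ a : Fin n, (a : ℕ) = 2 * (z none : ℕ) + 1 ∧ s.2 () (fun o => o.elim a (fun i => z (some i)))))
  have hT : NCP (fun n => S n × RelF (Option ι) Unit n) (Ext B (Option ι) Unit) (Option ι) T := by
    refine NCP.not (NCP.iff ?_ ?_)
    · refine NCP.ex1 (R := fun n (s : S n × RelF (Option ι) Unit n) z a => (a : ℕ) = 2 * (z none : ℕ) ∧ s.2 () (fun o => o.elim a (fun i => z (some i)))) ?_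
      refine NCP.and (NCP.dbl hOO none (some none)) ?_
      refine (cnt_ncp_new hOO hO () (fun o : Option ι => o.elim none (fun i => some (some i)))).congr ?_
      intro n s z
      refine iff_of_eq (congrArg (s.2 ()) ?_)
      funext o
      cases o <;> rfl
    · refine NCP.ex1 (R := fun n (s : S n × RelF (Option ι) Unit n) z a => (a : ℕ) = 2 * (z none : ℕ) + 1 ∧ s.2 () (fun o => o.elim a (fun i => z (some i)))) ?_
      refine NCP.and (NCP.dblsucc hOO none (some none)) ?_
      refine (cnt_ncp_new hOO hO () (fun o : Option ι => o.elim none (fun i => some (some i)))).congr ?_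
      intro n s z
      refine iff_of_eq (congrArg (s.2 ()) ?_)
      funext o
      cases o <;> rfl
  have hit := NCP.iter (Fl := Unit) inferInstance (H := fun _ n s z => Q n s (fun i => z (some i)) (z none)) (F := fun _ => T)
    (fun _ => h) (fun _ => hT) ()
  have key : ∀ (n : ℕ) (s : S n) (t : ℕ) (z : Option ι → Fin n),
      ((fun (R : RelF (Option ι) Unit n) (_ : Unit) (x : Option ι → Fin n) => T n (s, R) x)^[t]
        (fun _ z => Q n s (fun i => z (some i)) (z none))) () z ↔
      Odd (cntBlk (Q n s (fun i => z (some i))) t (z none : ℕ)) := by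
    intro n s t
    induction t with
    | zero =>
      intro z
      simp only [Function.iterate_zero, id]
      obtain ⟨h1, h2⟩ := cntBlk_zero (Q n s (fun i => z (some i))) (z none)
      by_cases hq : Q n s (fun i => z (some i)) (z none)
      · simp [h1 hq, hq]
      · simp [h2 hq, hq]
    | succ t ih =>
      intro z
      rw [Function.iterate_succ_apply']
      set R := (fun (R : RelF (Option ι) Unit n) (_ : Unit) (x : Option ι → Fin n) => T n (s, R) x)^[t]
        (fun _ z => Q n s (fun i => z (some i)) (z none)) with hR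
      rw [cntBlk_succ, Nat.odd_add, Nat.not_odd_iff_even.symm]
      have hval : ∀ j : ℕ, (∃ a : Fin n, (a : ℕ) = j ∧ R () (fun o => o.elim a (fun i => z (some i)))) ↔
          Odd (cntBlk (Q n s (fun i => z (some i))) t j) := by
        intro j
        constructor
        · rintro ⟨a, rfl, ha⟩
          exact (ih _).1 ha
        · intro hj
          rcases lt_or_ge j n with hjn | hjn
          · exact ⟨⟨j, hjn⟩, rfl, (ih (fun o => o.elim ⟨j, hjn⟩ (fun i => z (some i)))).2 hj⟩
          · rw [cntBlk_ge _ _ _ hjn] at hj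
            exact absurd hj (by decide)
      show ¬ (_ ↔ _) ↔ _
      rw [hval, hval]
      tauto
  have hfin : NCP S B ι (fun n s x => ∃ a : Fin n, (a : ℕ) = 0 ∧
      ((fun (R : RelF (Option ι) Unit n) (_ : Unit) (x : Option ι → Fin n) => T n (s, R) x)^[Nat.size (n - 1)]
        (fun _ z => Q n s (fun i => z (some i)) (z none))) () (fun o => o.elim a x)) := by
    refine (NCP.ex (NCP.and (NCP.zero hO none) hit)).congr ?_
    intro n s x
    rfl
  refine hfin.congr ?_
  intro n s x
  constructor
  · rintro ⟨a, ha, h1⟩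
    have := (key n s _ _).1 h1
    simp only [Option.elim, ha] at this
    rwa [cntBlk_all] at this
  · intro h1
    rcases Nat.eq_zero_or_pos n with rfl | hn
    · have : {a : Fin 0 | Q 0 s x a} = ∅ := by
        ext a
        exact a.elim0
      rw [this, Set.ncard_empty] at h1
      exact absurd h1 (by decide)
    · refine ⟨⟨0, hn⟩, rfl, (key n s _ _).2 ?_⟩
      simp only [Option.elim]
      rw [cntBlk_all]
      exact h1


private def cntVal {n : ℕ} (R : RelF (Option (Option ι)) Unit n) (x : ι → Fin n) (j : ℕ) (c : Fin n) : Prop :=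
  (∃ a : Fin n, (a : ℕ) = j ∧ R () (fun o => o.elim c (fun o => o.elim a x))) ∨ ((c : ℕ) = 0 ∧ ¬ ∃ a : Fin n, (a : ℕ) = j)

private theorem cntVal_ncp (hI : Finite ι) {V : Type} (hV : Finite V) (J : ℕ → ℕ) (p : ι → V) (jv cv : V)
    (hJ : NCP (fun n => S n × RelF (Option (Option ι)) Unit n) (Ext B (Option (Option ι)) Unit) (Option V)
      (fun _ _ z => (z none : ℕ) = J (z (some jv) : ℕ))) :
    NCP (fun n => S n × RelF (Option (Option ι)) Unit n) (Ext B (Option (Option ι)) Unit) V
      (fun _ s z => cntVal s.2 (fun i => z (p i)) (J (z jv : ℕ)) (z cv)) := by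
  have hOO : Finite (Option (Option ι)) := inferInstance
  have hOV : Finite (Option V) := inferInstance
  refine NCP.or ?_ (NCP.and (NCP.zero hV cv) (NCP.not ?_))
  · refine NCP.ex1 (R := fun n (s : S n × RelF (Option (Option ι)) Unit n) z a =>
      (a : ℕ) = J (z jv : ℕ) ∧ s.2 () (fun o => o.elim (z cv) (fun o => o.elim a (fun i => z (p i))))) ?_
    refine NCP.and hJ ?_
    refine (cnt_ncp_new hOV hOO () (fun o : Option (Option ι) => o.elim (some cv) (fun o => o.elim none (fun i => some (p i))))).congr ?_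
    intro n s z
    refine iff_of_eq (congrArg (s.2 ()) ?_)
    funext o
    rcases o with _ | _ | o <;> rfl
  · exact NCP.ex1 (R := fun n (s : S n × RelF (Option (Option ι)) Unit n) z a => (a : ℕ) = J (z jv : ℕ)) hJ

/-- Job CNT. Counting. Proof: iterate R'(x, i, c) : there are c₁, c₂ with c₁ + c₂ = c, R(x, 2i, c₁), R(x, 2i+1, c₂), where for j ≥ n R(x, j, c) means c = 0; start: R(x, i, c) iff (Q x i and c = 1) or
(not Q x i and c = 0). -/
theorem NCP.count {Q : ∀ n, S n → (ι → Fin n) → Fin n → Prop}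
    (h : NCP S B (Option ι) (fun n s z => Q n s (fun i => z (some i)) (z none))) :
    NCP S B (Option ι) (fun n s z => {a | Q n s (fun i => z (some i)) a}.ncard = (z none : ℕ)) := by
  classical
  have hO : Finite (Option ι) := h.finite
  have hI : Finite ι := Finite.of_injective (some : ι → Option ι) (Option.some_injective ι)
  have hOO : Finite (Option (Option ι)) := inferInstance
  have hO4 : Finite (Option (Option (Option (Option ι)))) := inferInstance
  have hO5 : Finite (Option (Option (Option (Option (Option ι))))) := inferInstance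
  -- arguments: `none` is the value `c`, `some none` is the block `i`, `some (some j)` are the parameters
  let T : ∀ n, S n × RelF (Option (Option ι)) Unit n → (Option (Option ι) → Fin n) → Prop := fun n s z =>
    ∃ c₁ : Fin n, ∃ c₂ : Fin n, (c₁ : ℕ) + (c₂ : ℕ) = (z none : ℕ) ∧
      cntVal s.2 (fun i => z (some (some i))) (2 * (z (some none) : ℕ)) c₁ ∧
      cntVal s.2 (fun i => z (some (some i))) (2 * (z (some none) : ℕ) + 1) c₂
  have hT : NCP (fun n => S n × RelF (Option (Option ι)) Unit n) (Ext B (Option (Option ι)) Unit) (Option (Option ι)) T := by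
    refine NCP.ex1 (R := fun n (s : S n × RelF (Option (Option ι)) Unit n) z c₁ =>
      ∃ c₂ : Fin n, (c₁ : ℕ) + (c₂ : ℕ) = (z none : ℕ) ∧
      cntVal s.2 (fun i => z (some (some i))) (2 * (z (some none) : ℕ)) c₁ ∧
      cntVal s.2 (fun i => z (some (some i))) (2 * (z (some none) : ℕ) + 1) c₂) ?_
    refine NCP.ex1 (R := fun n (s : S n × RelF (Option (Option ι)) Unit n) z c₂ =>
      (z none : ℕ) + (c₂ : ℕ) = (z (some none) : ℕ) ∧
      cntVal s.2 (fun i => z (some (some (some i)))) (2 * (z (some (some none)) : ℕ)) (z none) ∧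
      cntVal s.2 (fun i => z (some (some (some i)))) (2 * (z (some (some none)) : ℕ) + 1) c₂) ?_
    refine NCP.and (NCP.add hO4 (some none) none (some (some none))) (NCP.and ?_ ?_)
    · exact cntVal_ncp hI hO4 (fun m => 2 * m) (fun i => some (some (some (some i)))) (some (some (some none))) (some none)
        (NCP.dbl hO5 none (some (some (some (some none)))))
    · exact cntVal_ncp hI hO4 (fun m => 2 * m + 1) (fun i => some (some (some (some i)))) (some (some (some none))) none
        (NCP.dblsucc hO5 none (some (some (some (some none)))))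
  -- the start
  let H : RF S (Option (Option ι)) := fun n s z =>
    (Q n s (fun i => z (some (some i))) (z (some none)) ∧ (z none : ℕ) = 1) ∨
    ((¬ Q n s (fun i => z (some (some i))) (z (some none))) ∧ (z none : ℕ) = 0)
  have hH : NCP S B (Option (Option ι)) H := by
    have hQ : NCP S B (Option (Option ι)) (fun n s z => Q n s (fun i => z (some (some i))) (z (some none))) :=
      NCP.comap hOO (some : Option ι → Option (Option ι)) h
    exact NCP.or (NCP.and hQ (NCP.one hOO none)) (NCP.and (NCP.not hQ) (NCP.zero hOO none))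
  have hit := NCP.iter (Fl := Unit) inferInstance (H := fun _ => H) (F := fun _ => T)
    (fun _ => hH) (fun _ => hT) ()
  have key : ∀ (n : ℕ) (s : S n) (t : ℕ) (z : Option (Option ι) → Fin n),
      ((fun (R : RelF (Option (Option ι)) Unit n) (_ : Unit) (x : Option (Option ι) → Fin n) => T n (s, R) x)^[t]
        (fun _ z => H n s z)) () z ↔
      cntBlk (Q n s (fun i => z (some (some i)))) t (z (some none) : ℕ) = (z none : ℕ) := by
    intro n s t
    induction t with
    | zero =>
      intro z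
      simp only [Function.iterate_zero, id]
      obtain ⟨h1, h2⟩ := cntBlk_zero (Q n s (fun i => z (some (some i)))) (z (some none))
      show (_ ∧ _ ∨ _ ∧ _) ↔ _
      by_cases hq : Q n s (fun i => z (some (some i))) (z (some none))
      · simp only [h1 hq, hq, true_and, not_true_eq_false, false_and, or_false]
        exact eq_comm
      · simp only [h2 hq, hq, false_and, not_false_eq_true, true_and, false_or]
        exact eq_comm
    | succ t ih =>
      intro z
      rw [Function.iterate_succ_apply']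
      set R := (fun (R : RelF (Option (Option ι)) Unit n) (_ : Unit) (x : Option (Option ι) → Fin n) => T n (s, R) x)^[t]
        (fun _ z => H n s z) with hR
      rw [cntBlk_succ]
      have hval : ∀ (j : ℕ) (c : Fin n), cntVal R (fun i => z (some (some i))) j c ↔
          cntBlk (Q n s (fun i => z (some (some i)))) t j = (c : ℕ) := by
        intro j c
        constructor
        · rintro (⟨a, rfl, ha⟩ | ⟨hc, hj⟩)
          · exact (ih _).1 ha
          · rw [hc]
            refine cntBlk_ge _ _ _ ?_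
            by_contra hjn
            exact hj ⟨⟨j, by omega⟩, rfl⟩
        · intro hj
          rcases lt_or_ge j n with hjn | hjn
          · exact Or.inl ⟨⟨j, hjn⟩, rfl,
              (ih (fun o => o.elim c (fun o => o.elim ⟨j, hjn⟩ (fun i => z (some (some i)))))).2 hj⟩
          · rw [cntBlk_ge _ _ _ hjn] at hj
            refine Or.inr ⟨hj.symm, ?_⟩
            rintro ⟨a, ha⟩
            have := a.2
            omega
      show (∃ c₁ : Fin n, ∃ c₂ : Fin n, (c₁ : ℕ) + (c₂ : ℕ) = (z none : ℕ) ∧
        cntVal R (fun i => z (some (some i))) (2 * (z (some none) : ℕ)) c₁ ∧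
        cntVal R (fun i => z (some (some i))) (2 * (z (some none) : ℕ) + 1) c₂) ↔ _
      constructor
      · rintro ⟨c₁, c₂, h0, h1, h2⟩
        rw [(hval _ _).1 h1, (hval _ _).1 h2, h0]
      · intro h0
        have hz := (z none).2
        refine ⟨⟨cntBlk (Q n s (fun i => z (some (some i)))) t (2 * (z (some none) : ℕ)), by omega⟩,
          ⟨cntBlk (Q n s (fun i => z (some (some i)))) t (2 * (z (some none) : ℕ) + 1), by omega⟩, h0, ?_, ?_⟩
        · exact (hval _ _).2 rfl
        · exact (hval _ _).2 rfl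
  have hfin : NCP S B (Option ι) (fun n s z => ∃ a : Fin n, (a : ℕ) = 0 ∧
      ((fun (R : RelF (Option (Option ι)) Unit n) (_ : Unit) (x : Option (Option ι) → Fin n) => T n (s, R) x)^[Nat.size (n - 1)]
        (fun _ z => H n s z)) () (fun o => o.elim (z none) (fun o => o.elim a (fun i => z (some i))))) := by
    refine (NCP.ex (NCP.and (NCP.zero hOO none) (NCP.comap hOO
      (fun o : Option (Option ι) => o.elim (some none) (fun o => o.elim none (fun i => some (some i)))) hit))).congr ?_
    intro n s x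
    refine exists_congr fun a => and_congr Iff.rfl ?_
    refine iff_of_eq (congrArg _ ?_)
    funext o
    rcases o with _ | _ | o <;> rfl
  refine hfin.congr ?_
  intro n s z
  constructor
  · rintro ⟨a, ha, h1⟩
    have := (key n s _ _).1 h1
    simp only [Option.elim, ha] at this
    rwa [cntBlk_all] at this
  · intro h1
    refine ⟨⟨0, by have := (z none).2; omega⟩, rfl, (key n s _ _).2 ?_⟩
    simp only [Option.elim]
    rw [cntBlk_all]
    exact h1

end Pool.Agent.UPM
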