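import Pool.Agent.Lib.MP_0087d5_lc.UPM.NC

/-!
# Parallel programs

`NCP S B ι F`: the family of relations `F n s` on `Fin n` (with arguments indexed by `ι`), depending on an input `s : S n`, is obtained from the basic relations in `B` by
first-order operations and by `Nat.size (n - 1)`-fold iteration of operators of the same kind.
-/

namespace Pool.Agent.UPM

open Relation

/-- Families of relations depending on an input. -/
abbrev RF (S : ℕ → Type) (ι : Type) := ∀ n, S n → (ι → Fin n) → Prop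

/-- The basic relations that can be read. -/
abbrev Readers (S : ℕ → Type) := ∀ ι : Type, RF S ι → Prop

/-- Finitely many relations with arguments indexed by `κ`, one for each `f : Fl`. -/
abbrev RelF (κ Fl : Type) (n : ℕ) := Fl → (κ → Fin n) → Prop

/-- Readers for an input together with additional relations. -/
inductive Ext {S : ℕ → Type} (B : Readers S) (κ Fl : Type) : Readers (fun n => S n × RelF κ Fl n)
  | old {ι : Type} {P : RF S ι} : B ι P → Ext B κ Fl ι (fun n s x => P n s.1 x)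
  | new (f : Fl) : Ext B κ Fl κ (fun _ s x => s.2 f x)

inductive NCP : (S : ℕ → Type) → Readers S → (ι : Type) → RF S ι → Prop
  | base {S : ℕ → Type} {B : Readers S} {ι : Type} {P : RF S ι} (hι : Finite ι) : B ι P → NCP S B ι P
  | comap {S : ℕ → Type} {B : Readers S} {ι κ : Type} {P : RF S ι} (hκ : Finite κ) (e : ι → κ) :
      NCP S B ι P → NCP S B κ (fun n s x => P n s (fun i => x (e i)))
  | le {S : ℕ → Type} {B : Readers S} {ι : Type} (hι : Finite ι) (i j : ι) : NCP S B ι (fun _ _ x => x i ≤ x j)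
  | add {S : ℕ → Type} {B : Readers S} {ι : Type} (hι : Finite ι) (i j k : ι) :
      NCP S B ι (fun _ _ x => (x i : ℕ) + (x j : ℕ) = (x k : ℕ))
  | not {S : ℕ → Type} {B : Readers S} {ι : Type} {P : RF S ι} : NCP S B ι P → NCP S B ι (fun n s x => ¬ P n s x)
  | and {S : ℕ → Type} {B : Readers S} {ι : Type} {P Q : RF S ι} :
      NCP S B ι P → NCP S B ι Q → NCP S B ι (fun n s x => P n s x ∧ Q n s x)
  | ex {S : ℕ → Type} {B : Readers S} {ι : Type} {P : RF S (Option ι)} :
      NCP S B (Option ι) P → NCP S B ι (fun n s x => ∃ a : Fin n, P n s (fun o => o.elim a x))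
  | iter {S : ℕ → Type} {B : Readers S} {κ Fl : Type} (hFl : Finite Fl) {H : Fl → RF S κ}
      {F : Fl → RF (fun n => S n × RelF κ Fl n) κ} :
      (∀ f, NCP S B κ (H f)) → (∀ f, NCP (fun n => S n × RelF κ Fl n) (Ext B κ Fl) κ (F f)) →
      ∀ f, NCP S B κ (fun n s x =>
        ((fun (R : RelF κ Fl n) (f : Fl) (x : κ → Fin n) => F f n (s, R) x)^[Nat.size (n - 1)] (fun f x => H f n s x)) f x)

/-- Input: a graph. -/
abbrev GS (n : ℕ) : Type := SimpleGraph (Fin n)

inductive GB : Readers GS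
  | adj : GB (Fin 2) (fun _ G x => G.Adj (x 0) (x 1))

/-- Open circuits: the gates may read the basic relations of `B`. -/
structure OC (S : ℕ → Type) (B : Readers S) where
  T : Type
  finT : Finite T
  A : T → Type
  finA : ∀ t, Finite (A t)
  inp : ∀ t, Option ((ι : Type) ×' (P : RF S ι) ×' (_ : B ι P) ×' (ι → A t))
  wire : ∀ (a b : T) (n : ℕ), (A a → Fin n) → (A b → Fin n) → Prop
  uniform : ∀ a b, FODef (A a ⊕ A b) (fun n z => wire a b n (fun i => z (Sum.inl i)) (fun i => z (Sum.inr i)))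

variable {S : ℕ → Type} {B : Readers S}

def OC.Gate (C : OC S B) (n : ℕ) : Type := Σ t : C.T, (C.A t → Fin n)

def OC.Wire (C : OC S B) (n : ℕ) (g h : C.Gate n) : Prop := C.wire g.1 h.1 n g.2 h.2

def OC.Consistent (C : OC S B) (n : ℕ) (s : S n) (v : C.Gate n → Prop) : Prop :=
  ∀ g : C.Gate n, v g ↔
    match C.inp g.1 with
    | some ⟨_, P, _, e⟩ => P n s (fun i => g.2 (e i))
    | none => ¬ ∀ h, C.Wire n g h → v h

def OC.FanInTwo (C : OC S B) (n : ℕ) : Prop :=
  ∀ g h₁ h₂ h₃ : C.Gate n, C.Wire n g h₁ → C.Wire n g h₂ → C.Wire n g h₃ → h₁ = h₂ ∨ h₁ = h₃ ∨ h₂ = h₃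

def OC.DepthLE (C : OC S B) (n d : ℕ) : Prop :=
  ∃ lev : C.Gate n → ℕ, (∀ g, lev g ≤ d) ∧ ∀ g h, C.Wire n g h → lev h < lev g

/-- `F` is computed by an open circuit: the value `F n s x` is the value of the gate `(o, x ∘ e)`. -/
def Comp (S : ℕ → Type) (B : Readers S) (ι : Type) (F : RF S ι) : Prop :=
  Finite ι ∧ ∃ (C : OC S B) (o : C.T) (e : C.A o → ι) (c k : ℕ),
    (∀ n, C.FanInTwo n ∧ C.DepthLE n (c * (Nat.log 2 n + 1) ^ k)) ∧
    ∀ n s, ∃ v, C.Consistent n s v ∧ ∀ x, v ⟨o, fun i => x (e i)⟩ ↔ F n s x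

end Pool.Agent.UPM
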