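import Pool.Agent.Lib.MP_0087d5_lc.UPM.Iter

/-!
# The two-token game which finds closed walks

Jobs GAME1, GAME2, GAME3. See notes section 12.
-/

namespace Pool.Agent.UPM

open Relation

variable {V : Type*}

/-- There is a walk from `u` to `v` of cost at most `β` (at least one arc). -/
def Near (G : SimpleGraph V) (m : V → V) (D : V → Set V) (β : ℕ) (u v : V) : Prop :=
  ∃ L, List.IsChain (Arc G m D) (u :: (L ++ [v])) ∧ W m D (u :: (L ++ [v])) ≤ β

/-- Flag update: `f'` holds iff `f` holds or `y` lies on the matching edge of `z`. -/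
def Upd (m : V → V) (y z : V) (f f' : Bool) : Prop := f' = true ↔ (f = true ∨ y = z ∨ y = m z)

/-- One-token game: position `p`, cost `c`, flag `f` (y seen). -/
def SMove (G : SimpleGraph V) (m : V → V) (D : V → Set V) (β : ℕ) (x y : V) (σ τ : V × ℕ × Bool) : Prop :=
  Arc G m D σ.1 τ.1 ∧ τ.1 ≠ x ∧ τ.1 ≠ m x ∧ τ.2.1 = σ.2.1 + cost m D σ.1 τ.1 ∧ τ.2.1 ≤ β ∧ Upd m y τ.1 σ.2.2 τ.2.2

def SWin (G : SimpleGraph V) (m : V → V) (D : V → Set V) (β : ℕ) (x y : V) : Prop :=
  ∃ σ τ : V × ℕ × Bool, Arc G m D x σ.1 ∧ σ.2.1 = 0 ∧ Upd m y σ.1 false σ.2.2 ∧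
    ReflTransGen (SMove G m D β x y) σ τ ∧ Sim G m D τ.1 x ∧ τ.2.2 = true

/-- Two-token game. State: positions `p`, `q`, costs `c`, `d`, flags `(f, a, b)`: y seen, first token stopped, second token stopped. -/
abbrev GSt (V : Type*) := V × V × ℕ × ℕ × (Bool × Bool × Bool)

/-- The first token moves. -/
def PMove (G : SimpleGraph V) (m : V → V) (D : V → Set V) (β : ℕ) (x y : V) : GSt V → GSt V → Prop
  | (p, q, c, d, (f, a, b)), (p', q', c', d', (f', a', b')) =>
    q' = q ∧ d' = d ∧ a' = a ∧ b' = b ∧ a = false ∧ (b = true ∨ ¬ Near G m D β q p) ∧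
      Arc G m D p p' ∧ p' ≠ x ∧ p' ≠ m x ∧ p' ≠ q ∧ c' = c + cost m D p p' ∧ c' ≤ β ∧ Upd m y p' f f'

/-- The second token moves. -/
def QMove (G : SimpleGraph V) (m : V → V) (D : V → Set V) (β : ℕ) (x y : V) : GSt V → GSt V → Prop
  | (p, q, c, d, (f, a, b)), (p', q', c', d', (f', a', b')) =>
    p' = p ∧ c' = c ∧ a' = a ∧ b' = b ∧ b = false ∧ (a = true ∨ ¬ Near G m D β p q) ∧
      Arc G m D q q' ∧ q' ≠ x ∧ q' ≠ m x ∧ q' ≠ p ∧ d' = d + cost m D q q' ∧ d' ≤ β ∧ Upd m y q' f f'

/-- One token stops (only one of them may stop). -/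
def Stop : GSt V → GSt V → Prop
  | (p, q, c, d, (f, a, b)), (p', q', c', d', (f', a', b')) =>
    p' = p ∧ q' = q ∧ c' = c ∧ d' = d ∧ f' = f ∧ a = false ∧ b = false ∧ ((a' = true ∧ b' = false) ∨ (a' = false ∧ b' = true))

def GMove (G : SimpleGraph V) (m : V → V) (D : V → Set V) (β : ℕ) (x y : V) (σ τ : GSt V) : Prop :=
  PMove G m D β x y σ τ ∨ QMove G m D β x y σ τ ∨ Stop σ τ

def GStart (G : SimpleGraph V) (m : V → V) (D : V → Set V) (x y : V) : GSt V → Prop
  | (p, q, c, d, (f, a, b)) => Arc G m D x p ∧ Arc G m D x q ∧ p ≠ q ∧ c = 0 ∧ d = 0 ∧ a = false ∧ b = false ∧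
      (f = true ↔ (y = p ∨ y = m p ∨ y = q ∨ y = m q))

def GWin (G : SimpleGraph V) (m : V → V) (D : V → Set V) (β : ℕ) (x y : V) : Prop :=
  ∃ σ τ : GSt V, GStart G m D x y σ ∧ ReflTransGen (GMove G m D β x y) σ τ ∧ Sim G m D τ.1 τ.2.1 ∧ τ.2.2.2.2.1 = true

/-- The relation computed by the games. -/
def Grel (G : SimpleGraph V) (m : V → V) (D : V → Set V) (β : ℕ) (x y : V) : Prop :=
  SWin G m D β x y ∨ GWin G m D β x y

variable {G : SimpleGraph V} {m : V → V} {D : V → Set V} {β : ℕ}

/-- Job GAME1. A walk of cost at most β is regular. Proof: two equal members give a directed closed walk (`cycle_cost`), z_j = z_i' gives a closed walk (`closed_cost`), both of cost at most β; contradiction. -/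
theorem reg_of_cheap [Finite V] (hm : IsMate G m) (hU : NoAlt G m) (hD : Fam G m D) (hc : Clsd G m β D) {L : List V}
    (h : List.IsChain (Arc G m D) L) (hW : W m D L ≤ β) : Reg m L := by
  induction L with
  | nil => exact List.Pairwise.nil
  | cons a L ih =>
    have hW' : W m D L ≤ β := by
      refine le_trans ?_ hW
      have := W_append_le (m := m) (D := D) [a] L
      rw [List.singleton_append] at this
      exact le_trans (Nat.le_add_left _ _) this
    refine (reg_cons a L).2 ⟨?_, ih h.tail hW'⟩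
    intro b hb
    obtain ⟨B, C, rfl⟩ := List.append_of_mem hb
    have e : a :: (B ++ b :: C) = (a :: B) ++ b :: C := by simp
    have hle : W m D (a :: (B ++ [b])) ≤ β := by
      refine le_trans ?_ hW
      rw [e, W_split]
      exact Nat.le_add_right _ _
    have hch : List.IsChain (Arc G m D) (a :: (B ++ [b])) := by
      have e2 : a :: (B ++ b :: C) = (a :: (B ++ [b])) ++ C := by simp
      rw [e2] at h
      exact h.left_of_append
    constructor
    · rintro rfl
      have := cycle_cost hm hU hD hc hch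
      omega
    · rintro rfl
      have := closed_cost hm hU hD hc hch
      omega

/-- Job GAME1. -/
theorem swin_iff [Finite V] (hm : IsMate G m) (hU : NoAlt G m) (hD : Fam G m D) (hc : Clsd G m β D) (x y : V) :
    SWin G m D β x y ↔ ∃ L, PCW G m D x L ∧ W m D L ≤ β ∧ (y ∈ L ∨ m y ∈ L) := by
  classical
  constructor
  · rintro ⟨σ, τ, hσ1, hσ2, hσ3, hrun, hsim, hfl⟩
    have key : ∃ P, List.IsChain (Arc G m D) (x :: (P ++ [τ.1])) ∧ (∀ w ∈ P ++ [τ.1], w ≠ x ∧ w ≠ m x) ∧
        W m D (P ++ [τ.1]) = τ.2.1 ∧ τ.2.1 ≤ β ∧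
        (τ.2.2 = true → ∃ w ∈ P ++ [τ.1], y = w ∨ y = m w) := by
      clear hsim hfl
      induction hrun with
      | refl =>
        refine ⟨[], by simpa using hσ1, ?_, ?_, ?_, ?_⟩
        · intro w hw
          rw [List.nil_append, List.mem_singleton] at hw
          subst hw
          refine ⟨fun h => hσ1.2.1 ?_, fun h => hσ1.1 ?_⟩
          · rw [hm.invol]; exact h.symm
          · rw [h, hm.invol]
        · rw [hσ2]; rfl
        · rw [hσ2]; exact Nat.zero_le _
        · intro hf
          rcases hσ3.1 hf with h | h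
          · exact Bool.noConfusion h
          · exact ⟨σ.1, by simp, h⟩
      | @tail τ τ' _ hstep ih =>
        obtain ⟨P, h1, h2, h3, h4, h5⟩ := ih
        obtain ⟨g1, g2, g3, g4, g5, g6⟩ := hstep
        refine ⟨P ++ [τ.1], ?_, ?_, ?_, g5, ?_⟩
        · have e1 : x :: ((P ++ [τ.1]) ++ [τ'.1]) = (x :: (P ++ [τ.1])) ++ [τ'.1] := by simp
          rw [e1, List.isChain_append]
          refine ⟨h1, List.isChain_singleton _, ?_⟩
          intro u hu v hv
          rw [show (x :: (P ++ [τ.1])).getLast? = some τ.1 from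
            List.getLast?_concat (l := x :: P) (a := τ.1)] at hu
          simp only [Option.mem_def, Option.some.injEq, List.head?_cons] at hu hv
          subst hu; subst hv
          exact g1
        · intro w hw
          rcases List.mem_append.1 hw with hw | hw
          · exact h2 w hw
          · rw [List.mem_singleton.1 hw]
            exact ⟨g2, g3⟩
        · have h := W_split (m := m) (D := D) P [τ'.1] τ.1
          rw [List.append_assoc, List.singleton_append, h, W_cons_cons, h3, g4]
          simp [W]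
        · intro hf
          rcases g6.1 hf with h | h
          · obtain ⟨w, hw, hy⟩ := h5 h
            exact ⟨w, List.mem_append_left _ hw, hy⟩
          · exact ⟨τ'.1, by simp, h⟩
    obtain ⟨P, h1, h2, h3, h4, h5⟩ := key
    have hW : W m D (P ++ [τ.1]) ≤ β := by rw [h3]; exact h4
    refine ⟨P ++ [τ.1], ⟨by simp, ?_, ?_⟩, hW, ?_⟩
    · have e1 : x :: ((P ++ [τ.1]) ++ [m x]) = (x :: (P ++ [τ.1])) ++ [m x] := by simp
      rw [e1, List.isChain_append]
      refine ⟨h1, List.isChain_singleton _, ?_⟩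
      intro u hu v hv
      rw [show (x :: (P ++ [τ.1])).getLast? = some τ.1 from
        List.getLast?_concat (l := x :: P) (a := τ.1)] at hu
      simp only [Option.mem_def, Option.some.injEq, List.head?_cons] at hu hv
      subst hu; subst hv
      unfold Arc
      rw [hm.invol]
      exact hsim
    · exact (reg_cons _ _).2 ⟨h2, reg_of_cheap hm hU hD hc h1.tail hW⟩
    · obtain ⟨w, hw, hy⟩ := h5 hfl
      rcases hy with rfl | rfl
      · exact Or.inl hw
      · right
        rw [hm.invol]
        exact hw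
  · rintro ⟨L, ⟨hne, hch, hreg⟩, hW, hy⟩
    have run : ∀ (R : List V) (p : V) (c : ℕ) (f : Bool), List.IsChain (Arc G m D) (p :: R) →
        (∀ z ∈ R, z ≠ x ∧ z ≠ m x) → c + W m D (p :: R) ≤ β →
        ∃ τ : V × ℕ × Bool, ReflTransGen (SMove G m D β x y) (p, c, f) τ ∧
          (p :: R).getLast? = some τ.1 ∧ (τ.2.2 = true ↔ (f = true ∨ ∃ z ∈ R, y = z ∨ y = m z)) := by
      intro R
      induction R with
      | nil =>
        intro p c f _ _ _
        exact ⟨(p, c, f), ReflTransGen.refl, by simp, by simp⟩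
      | cons z R ih =>
        intro p c f h1 h2 h3
        rw [W_cons_cons] at h3
        obtain ⟨τ, r1, r2, r3⟩ := ih z (c + cost m D p z) (decide (f = true ∨ y = z ∨ y = m z)) h1.tail
          (fun w hw => h2 w (List.mem_cons_of_mem _ hw)) (by omega)
        refine ⟨τ, ReflTransGen.head ?_ r1, ?_, ?_⟩
        · refine ⟨(List.isChain_cons_cons.1 h1).1, (h2 z List.mem_cons_self).1, (h2 z List.mem_cons_self).2, rfl, ?_, ?_⟩
          · show c + cost m D p z ≤ β
            omega
          · show decide (f = true ∨ y = z ∨ y = m z) = true ↔ _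
            rw [decide_eq_true_iff]
        · rw [List.getLast?_cons_cons]
          exact r2
        · rw [r3, decide_eq_true_iff]
          constructor
          · rintro ((h | h) | ⟨w, hw, h⟩)
            · exact Or.inl h
            · exact Or.inr ⟨z, List.mem_cons_self, h⟩
            · exact Or.inr ⟨w, List.mem_cons_of_mem _ hw, h⟩
          · rintro (h | ⟨w, hw, h⟩)
            · exact Or.inl (Or.inl h)
            · rcases List.mem_cons.1 hw with rfl | hw
              · exact Or.inl (Or.inr h)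
              · exact Or.inr ⟨w, hw, h⟩
    cases L with
    | nil => exact absurd rfl hne
    | cons z L =>
      have hxs := ((reg_cons _ _).1 hreg).1
      have hch1 : List.IsChain (Arc G m D) (z :: L) := by
        have e : x :: ((z :: L) ++ [m x]) = [x] ++ (z :: L) ++ [m x] := by simp
        rw [e] at hch
        exact (hch.left_of_append).right_of_append
      obtain ⟨τ, r1, r2, r3⟩ := run L z 0 (decide (y = z ∨ y = m z)) hch1
        (fun w hw => hxs w (List.mem_cons_of_mem _ hw)) (by omega)
      refine ⟨(z, 0, decide (y = z ∨ y = m z)), τ, (List.isChain_cons_cons.1 hch).1, rfl, ?_, r1, ?_, ?_⟩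
      · show decide (y = z ∨ y = m z) = true ↔ _
        rw [decide_eq_true_iff]
        simp
      · have e : x :: ((z :: L) ++ [m x]) = (x :: (z :: L)) ++ [m x] := by simp
        rw [e, List.isChain_append] at hch
        have := hch.2.2 τ.1 (by rw [List.getLast?_cons_cons, r2]; rfl) (m x) rfl
        unfold Arc at this
        rwa [hm.invol] at this
      · rw [r3, decide_eq_true_iff]
        rcases hy with hy | hy
        · rcases List.mem_cons.1 hy with rfl | hy
          · exact Or.inl (Or.inl rfl)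
          · exact Or.inr ⟨y, hy, Or.inl rfl⟩
        · rcases List.mem_cons.1 hy with h | hy
          · exact Or.inl (Or.inr (by rw [← h, hm.invol]))
          · exact Or.inr ⟨m y, hy, Or.inr (by rw [hm.invol])⟩

/-- Invariant of the two-token game: `P ++ [p]` and `Q ++ [q]` are the walks of the tokens so far. -/
private structure GameTwoInv (G : SimpleGraph V) (m : V → V) (D : V → Set V) (β : ℕ) (x y : V) (P Q : List V)
    (p q : V) (c d : ℕ) (f a b : Bool) : Prop where
  chP : List.IsChain (Arc G m D) (x :: (P ++ [p]))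
  chQ : List.IsChain (Arc G m D) (x :: (Q ++ [q]))
  eP : ∀ w ∈ P ++ [p], w ≠ x ∧ w ≠ m x
  eQ : ∀ w ∈ Q ++ [q], w ≠ x ∧ w ≠ m x
  wP : W m D (P ++ [p]) = c
  wQ : W m D (Q ++ [q]) = d
  cP : c ≤ β
  cQ : d ≤ β
  fl : f = true → ∃ w, (w ∈ P ++ [p] ∨ w ∈ Q ++ [q]) ∧ (y = w ∨ y = m w)
  dis : ∀ w ∈ P ++ [p], w ∉ Q ++ [q]
  nP : ∀ w ∈ P, b = true ∨ ∃ A q₀ B, Q ++ [q] = A ++ q₀ :: B ∧ ¬ Near G m D β q₀ w
  nQ : ∀ w ∈ Q, a = true ∨ ∃ A p₀ B, P ++ [p] = A ++ p₀ :: B ∧ ¬ Near G m D β p₀ w

private theorem GameTwoInv.swap {x y : V} {P Q : List V} {p q : V} {c d : ℕ} {f a b : Bool}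
    (h : GameTwoInv G m D β x y P Q p q c d f a b) : GameTwoInv G m D β x y Q P q p d c f b a where
  chP := h.chQ
  chQ := h.chP
  eP := h.eQ
  eQ := h.eP
  wP := h.wQ
  wQ := h.wP
  cP := h.cQ
  cQ := h.cP
  fl := fun hf => by
    obtain ⟨w, h1, h2⟩ := h.fl hf
    exact ⟨w, h1.symm, h2⟩
  dis := fun w hw hw' => h.dis w hw' hw
  nP := h.nQ
  nQ := h.nP

private theorem game2_W_snoc (P : List V) (p p' : V) :
    W m D ((P ++ [p]) ++ [p']) = W m D (P ++ [p]) + cost m D p p' := by
  have h := W_split (m := m) (D := D) P [p'] p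
  rw [List.append_assoc, List.singleton_append, h, W_cons_cons]
  simp [W]

/-- One move of the first token preserves the invariant. -/
private theorem GameTwoInv.pmove {x y : V} {P Q : List V} {p q p' : V} {c d : ℕ} {f f' a b : Bool}
    (h : GameTwoInv G m D β x y P Q p q c d f a b) (ha : a = false) (hb : b = true ∨ ¬ Near G m D β q p)
    (harc : Arc G m D p p') (hx : p' ≠ x) (hmx : p' ≠ m x) (hq : p' ≠ q) (hc : c + cost m D p p' ≤ β)
    (hf : Upd m y p' f f') :
    GameTwoInv G m D β x y (P ++ [p]) Q p' q (c + cost m D p p') d f' a b := by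
  have hch : List.IsChain (Arc G m D) (x :: ((P ++ [p]) ++ [p'])) := by
    have h1 := h.chP
    have e1 : x :: ((P ++ [p]) ++ [p']) = (x :: P ++ [p]) ++ [p'] := by simp
    have e2 : x :: (P ++ [p]) = x :: P ++ [p] := by simp
    rw [e1, List.isChain_append]
    refine ⟨by rw [← e2]; exact h1, List.isChain_singleton _, ?_⟩
    intro u hu v hv
    simp only [List.getLast?_append, List.getLast?_singleton, Option.some_or, Option.mem_def,
      Option.some.injEq, List.head?_cons] at hu hv
    subst hu; subst hv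
    exact harc
  have hW : W m D ((P ++ [p]) ++ [p']) = c + cost m D p p' := by
    rw [game2_W_snoc, h.wP]
  refine ⟨hch, h.chQ, ?_, h.eQ, hW, h.wQ, hc, h.cQ, ?_, ?_, ?_, ?_⟩
  · intro w hw
    rcases List.mem_append.1 hw with hw | hw
    · exact h.eP w hw
    · rw [List.mem_singleton.1 hw]
      exact ⟨hx, hmx⟩
  · intro hf'
    rcases hf.1 hf' with h1 | h1
    · obtain ⟨w, h2, h3⟩ := h.fl h1
      refine ⟨w, ?_, h3⟩
      rcases h2 with h2 | h2
      · exact Or.inl (List.mem_append_left _ h2)
      · exact Or.inr h2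
    · exact ⟨p', Or.inl (by simp), h1⟩
  · intro w hw
    rcases List.mem_append.1 hw with hw | hw
    · exact h.dis w hw
    · rw [List.mem_singleton.1 hw]
      intro hmem
      rcases List.mem_append.1 hmem with h1 | h1
      · rcases h.nQ p' h1 with h2 | ⟨A, p₀, B, h2, h3⟩
        · rw [ha] at h2
          exact Bool.noConfusion h2
        · apply h3
          refine ⟨B, ?_, ?_⟩
          · have e1 : x :: ((P ++ [p]) ++ [p']) = (x :: A) ++ (p₀ :: (B ++ [p'])) := by
              rw [h2]; simp
            rw [e1] at hch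
            exact hch.right_of_append
          · have e2 : (P ++ [p]) ++ [p'] = A ++ p₀ :: (B ++ [p']) := by
              rw [h2]; simp
            rw [e2, W_split] at hW
            omega
      · exact hq (List.mem_singleton.1 h1)
  · intro w hw
    rcases List.mem_append.1 hw with hw | hw
    · exact h.nP w hw
    · rw [List.mem_singleton.1 hw]
      rcases hb with hb | hb
      · exact Or.inl hb
      · exact Or.inr ⟨Q, q, [], rfl, hb⟩
  · intro w hw
    rcases h.nQ w hw with h1 | ⟨A, p₀, B, h2, h3⟩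
    · exact Or.inl h1
    · exact Or.inr ⟨A, p₀, B ++ [p'], by rw [h2]; simp, h3⟩

private theorem game2_run {x y : V} {σ τ : GSt V} (hσ : GStart G m D x y σ)
    (hrun : ReflTransGen (GMove G m D β x y) σ τ) (hm : IsMate G m) :
    ∃ P Q, GameTwoInv G m D β x y P Q τ.1 τ.2.1 τ.2.2.1 τ.2.2.2.1 τ.2.2.2.2.1 τ.2.2.2.2.2.1 τ.2.2.2.2.2.2 := by
  induction hrun with
  | refl =>
    obtain ⟨p, q, c, d, f, a, b⟩ := σ
    obtain ⟨h1, h2, h3, h4, h5, h6, h7, h8⟩ := hσ
    subst h4; subst h5
    have ar : ∀ z, Arc G m D x z → z ≠ x ∧ z ≠ m x := by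
      intro z hz
      refine ⟨fun h => hz.2.1 ?_, fun h => hz.1 ?_⟩
      · rw [hm.invol]; exact h.symm
      · rw [h, hm.invol]
    refine ⟨[], [], ?_, ?_, ?_, ?_, rfl, rfl, Nat.zero_le _, Nat.zero_le _, ?_, ?_, ?_, ?_⟩
    · simpa using h1
    · simpa using h2
    · intro w hw
      rw [List.nil_append, List.mem_singleton] at hw
      subst hw
      exact ar _ h1
    · intro w hw
      rw [List.nil_append, List.mem_singleton] at hw
      subst hw
      exact ar _ h2
    · intro hf
      rcases h8.1 hf with h | h | h | h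
      · exact ⟨p, Or.inl (by simp), Or.inl h⟩
      · exact ⟨p, Or.inl (by simp), Or.inr h⟩
      · exact ⟨q, Or.inr (by simp), Or.inl h⟩
      · exact ⟨q, Or.inr (by simp), Or.inr h⟩
    · intro w hw hw'
      rw [List.nil_append, List.mem_singleton] at hw hw'
      exact h3 (hw.symm.trans hw')
    · intro w hw; simp at hw
    · intro w hw; simp at hw
  | @tail τ τ' _ hstep ih =>
    obtain ⟨P, Q, inv⟩ := ih
    obtain ⟨p, q, c, d, f, a, b⟩ := τ
    obtain ⟨p', q', c', d', f', a', b'⟩ := τ'
    rcases hstep with h | h | h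
    · obtain ⟨rfl, rfl, rfl, rfl, h5, h6, h7, h8, h9, h10, h11, h12, h13⟩ := h
      subst h11
      exact ⟨P ++ [p], Q, inv.pmove h5 h6 h7 h8 h9 h10 h12 h13⟩
    · obtain ⟨rfl, rfl, rfl, rfl, h5, h6, h7, h8, h9, h10, h11, h12, h13⟩ := h
      subst h11
      exact ⟨P, Q ++ [q], (inv.swap.pmove h5 h6 h7 h8 h9 h10 h12 h13).swap⟩
    · obtain ⟨rfl, rfl, rfl, rfl, rfl, h6, h7, h8⟩ := h
      refine ⟨P, Q, ⟨inv.chP, inv.chQ, inv.eP, inv.eQ, inv.wP, inv.wQ, inv.cP, inv.cQ, inv.fl, inv.dis, ?_, ?_⟩⟩
      · intro w hw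
        rcases inv.nP w hw with h | h
        · exact absurd h (by simp [show b = false from h7])
        · exact Or.inr h
      · intro w hw
        rcases inv.nQ w hw with h | h
        · exact absurd h (by simp [show a = false from h6])
        · exact Or.inr h

/-- latest member of a list with a given property -/
private theorem game2_latest {p : V → Prop} : ∀ {L : List V}, (∃ w ∈ L, p w) →
    ∃ A w B, L = A ++ w :: B ∧ p w ∧ ∀ v ∈ B, ¬ p v
  | [], h => by obtain ⟨w, hw, -⟩ := h; simp at hw
  | z :: L, h => by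
    by_cases h' : ∃ w ∈ L, p w
    · obtain ⟨A, w, B, rfl, h2, h3⟩ := game2_latest h'
      exact ⟨z :: A, w, B, rfl, h2, h3⟩
    · obtain ⟨w, hw, hp⟩ := h
      rcases List.mem_cons.1 hw with rfl | hw
      · refine ⟨[], w, L, rfl, hp, ?_⟩
        intro v hv hpv
        exact h' ⟨v, hv, hpv⟩
      · exact absurd ⟨w, hw, hp⟩ h'

/-- Job GAME2. Soundness of the two-token game.
Proof. Read off the two walks P, Q (lists of positions, starting with the initial ones; costs W P = c, W Q = d ≤ β), with x :: P, x :: Q chains of arcs, members not on the matching edge of x. Each is regular by `reg_of_cheap`.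
(1) No vertex lies on both: let w be on both; both tokens visit w. If both are on w at the same time: excluded by p ≠ q, p' ≠ q, q' ≠ p. So one token, say the first, comes to w, leaves it while the other one is at some q₀ and the other one
comes to w later (or the other way round, symmetric; a token which is at w when the other arrives would be a coincidence). When the first token leaves w, b = false, because the second token still moves later, so the rule says ¬ Near q₀ w; but the walk of the second
token from q₀ to w has cost at most β: contradiction.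
(2) No matching edge lies on both: by (1) otherwise w ∈ P, w' ∈ Q; take such w latest in P, P = P₁ ++ w :: P₂, Q = Q₁ ++ w' :: Q₂. Then w → P₂ → (last of P) → mir Q₂ → w is a closed chain of arcs (the arc from the last of P to the mate
of the last of Q is the final Sim) with distinct matching edges: contradiction with `gc`.
So L = P ++ mir Q is a proper closed walk at x, W (mir Q) = W Q ≤ β (`W_mir`), and y ∈ L or y' ∈ L by the flag. -/
theorem fnd_of_gwin [Finite V] (hm : IsMate G m) (hU : NoAlt G m) (hD : Fam G m D) (hc : Clsd G m β D) {x y : V}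
    (h : GWin G m D β x y) : Nrel G m D β x y := by
  obtain ⟨σ, τ, hσ, hrun, hsim, hfl⟩ := h
  obtain ⟨P, Q, inv⟩ := game2_run hσ hrun hm
  obtain ⟨p, q, c, d, f, a, b⟩ := τ
  simp only at hsim hfl inv
  have hWP : W m D (P ++ [p]) ≤ β := by rw [inv.wP]; exact inv.cP
  have hWQ : W m D (Q ++ [q]) ≤ β := by rw [inv.wQ]; exact inv.cQ
  have hchP : List.IsChain (Arc G m D) (P ++ [p]) := inv.chP.tail
  have hchQ : List.IsChain (Arc G m D) (Q ++ [q]) := inv.chQ.tail
  have hregP : Reg m (P ++ [p]) := reg_of_cheap hm hU hD hc hchP hWP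
  have hregQ : Reg m (Q ++ [q]) := reg_of_cheap hm hU hD hc hchQ hWQ
  have hmid : Arc G m D p (m q) := by
    unfold Arc
    rw [hm.invol]
    exact hsim
  -- no matching edge lies on both
  have h2 : ∀ w ∈ P ++ [p], m w ∉ Q ++ [q] := by
    by_contra hcon
    push Not at hcon
    obtain ⟨A, w, B, hPe, hw, hB⟩ := game2_latest (p := fun w => m w ∈ Q ++ [q]) hcon
    obtain ⟨A', B', hQe⟩ := List.append_of_mem hw
    -- the closed chain
    have hch1 : List.IsChain (Arc G m D) (w :: B) := by
      rw [hPe] at hchP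
      exact hchP.right_of_append
    have hch2 : List.IsChain (Arc G m D) (m w :: B') := by
      rw [hQe] at hchQ
      exact hchQ.right_of_append
    have hch3 : List.IsChain (Arc G m D) (mir m B' ++ [w]) := by
      have := chain_mir (R := Arc G m D) (m := m) (fun a b h => Arc.mirror hm h) hch2
      rwa [mir_cons, hm.invol] at this
    have hlast1 : (w :: B).getLast? = some p := by
      have : (P ++ [p]).getLast? = some p := by simp
      rw [hPe, List.getLast?_append_of_ne_nil _ (List.cons_ne_nil _ _)] at this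
      exact this
    have hlast2 : (m w :: B').getLast? = some q := by
      have : (Q ++ [q]).getLast? = some q := by simp
      rw [hQe, List.getLast?_append_of_ne_nil _ (List.cons_ne_nil _ _)] at this
      exact this
    have hhead : (mir m B' ++ [w]).head? = some (m q) := by
      have e : mir m B' ++ [w] = mir m (m w :: B') := by rw [mir_cons, hm.invol]
      rw [e]
      unfold mir
      rw [List.head?_reverse, List.getLast?_map, hlast2]
      rfl
    have hchain : List.IsChain (Arc G m D) (w :: ((B ++ mir m B') ++ [w])) := by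
      have e : w :: ((B ++ mir m B') ++ [w]) = (w :: B) ++ (mir m B' ++ [w]) := by simp
      rw [e, List.isChain_append]
      refine ⟨hch1, hch3, ?_⟩
      intro u hu v hv
      rw [hlast1] at hu
      rw [hhead] at hv
      simp only [Option.mem_def, Option.some.injEq] at hu hv
      subst hu; subst hv
      exact hmid
    have hne : B ++ mir m B' ≠ [] := by
      intro he
      obtain ⟨hB1, hB2⟩ := List.append_eq_nil_iff.1 he
      subst hB1
      have hB3 : B' = [] := by
        by_contra hn
        exact (mir_ne_nil (m := m)).2 hn hB2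
      subst hB3
      simp only [List.getLast?_singleton, Option.some.injEq] at hlast1 hlast2
      apply hsim.2.1
      rw [← hlast1, ← hlast2, hm.invol]
    have hreg : Reg m (w :: (B ++ mir m B')) := by
      have r1 : Reg m (w :: B) := hregP.sublist (by rw [hPe]; exact List.sublist_append_right _ _)
      have r2 : Reg m (m w :: B') := hregQ.sublist (by rw [hQe]; exact List.sublist_append_right _ _)
      have e : w :: (B ++ mir m B') = (w :: B) ++ mir m B' := by simp
      rw [e, reg_append]
      refine ⟨r1, (reg_mir_iff hm).2 (r2.sublist (List.sublist_cons_self _ _)), ?_⟩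
      intro u hu v hv
      have hv' : m v ∈ B' := (mem_mir hm).1 hv
      have hvQ : m v ∈ Q ++ [q] := by rw [hQe]; simp [hv']
      have huP : u ∈ P ++ [p] := by rw [hPe]; exact List.mem_append_right _ hu
      rcases List.mem_cons.1 hu with rfl | hu
      · have r3 := ((reg_cons _ _).1 r2).1 (m v) hv'
        rw [hm.invol] at r3
        constructor
        · intro h; exact r3.1 (by rw [h])
        · intro h
          apply r3.2
          rw [h, hm.invol]
      · constructor
        · intro h
          apply hB u hu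
          rw [← h]
          exact hvQ
        · intro h
          have : m v = u := by rw [h, hm.invol]
          rw [this] at hvQ
          exact inv.dis u huP hvQ
    exact gc hm hU hD hne (hchain.imp (fun _ _ h => h.tarc)) hreg
  -- the closed walk
  have hchQm : List.IsChain (Arc G m D) (mir m (Q ++ [q]) ++ [m x]) := by
    have := chain_mir (R := Arc G m D) (m := m) (fun a b h => Arc.mirror hm h) inv.chQ
    rwa [mir_cons] at this
  have hheadQ : (mir m (Q ++ [q]) ++ [m x]).head? = some (m q) := by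
    have e : mir m (Q ++ [q]) ++ [m x] = m q :: (mir m Q ++ [m x]) := by
      rw [mir_append, mir_singleton]
      simp
    rw [e]
    rfl
  have hpcw : PCW G m D x ((P ++ [p]) ++ mir m (Q ++ [q])) := by
    refine ⟨by simp, ?_, ?_⟩
    · have e : x :: (((P ++ [p]) ++ mir m (Q ++ [q])) ++ [m x]) =
          (x :: (P ++ [p])) ++ (mir m (Q ++ [q]) ++ [m x]) := by simp
      rw [e, List.isChain_append]
      refine ⟨inv.chP, hchQm, ?_⟩
      intro u hu v hv
      rw [hheadQ] at hv
      have e2 : (x :: (P ++ [p])).getLast? = some p :=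
        List.getLast?_concat (l := x :: P) (a := p)
      rw [e2] at hu
      simp only [Option.mem_def, Option.some.injEq] at hu hv
      subst hu; subst hv
      exact hmid
    · rw [reg_cons, reg_append]
      refine ⟨?_, hregP, (reg_mir_iff hm).2 hregQ, ?_⟩
      · intro w hw
        rcases List.mem_append.1 hw with hw | hw
        · exact inv.eP w hw
        · have h3 := inv.eQ (m w) ((mem_mir hm).1 hw)
          constructor
          · intro h; exact h3.2 (by rw [h])
          · intro h
            apply h3.1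
            rw [h, hm.invol]
      · intro u hu v hv
        have hv' := (mem_mir hm).1 hv
        constructor
        · intro h
          rw [h] at hv'
          exact h2 u hu hv'
        · intro h
          rw [h, hm.invol] at hv'
          exact inv.dis u hu hv'
  refine ⟨(P ++ [p]) ++ mir m (Q ++ [q]), ⟨hpcw, P ++ [p], mir m (Q ++ [q]), rfl, by simp, hWP, ?_⟩, ?_⟩
  · rw [W_mir hm hD hchQ]
    exact hWQ
  · obtain ⟨w, hw, hy⟩ := inv.fl hfl
    have key : w ∈ (P ++ [p]) ++ mir m (Q ++ [q]) ∨ m w ∈ (P ++ [p]) ++ mir m (Q ++ [q]) := by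
      rcases hw with hw | hw
      · exact Or.inl (List.mem_append_left _ hw)
      · refine Or.inr (List.mem_append_right _ ((mem_mir hm).2 ?_))
        rw [hm.invol]
        exact hw
    rcases hy with rfl | rfl
    · exact key
    · rw [hm.invol]
      exact key.symm

private theorem game3_upd (y z : V) (f : Bool) : ∃ f', Upd m y z f f' := by
  classical
  exact ⟨decide (f = true ∨ y = z ∨ y = m z), by simp [Upd]⟩

/-- The first token moves alone. -/
private theorem game3_p (hm : IsMate G m) {x y q : V} (P2 : List V) : ∀ (p : V) (c d : ℕ) (f : Bool),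
    List.IsChain (Arc G m D) (p :: P2) → c + W m D (p :: P2) ≤ β →
    (∀ z ∈ P2, z ≠ x ∧ z ≠ m x) → (∀ z ∈ P2, z ≠ q) →
    ∃ τ : GSt V, ReflTransGen (GMove G m D β x y) (p, q, c, d, (f, false, true)) τ ∧
      τ.1 = (p :: P2).getLast (List.cons_ne_nil _ _) ∧ τ.2.1 = q ∧
      (τ.2.2.2.2.1 = true ↔ (f = true ∨ y ∈ P2 ∨ m y ∈ P2)) := by
  induction P2 with
  | nil =>
    intro p c d f _ _ _ _
    exact ⟨_, ReflTransGen.refl, rfl, rfl, by simp⟩
  | cons p' P2 ih =>
    intro p c d f hch hW hx hq
    rw [List.isChain_cons_cons] at hch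
    rw [W_cons_cons] at hW
    obtain ⟨f', hf'⟩ := game3_upd (m := m) y p' f
    obtain ⟨τ, h1, h2, h3, h4⟩ := ih p' (c + cost m D p p') d f' hch.2 (by omega)
      (fun z hz => hx z (List.mem_cons_of_mem _ hz)) (fun z hz => hq z (List.mem_cons_of_mem _ hz))
    refine ⟨τ, ReflTransGen.head (Or.inl ?_) h1, ?_, h3, ?_⟩
    · exact ⟨rfl, rfl, rfl, rfl, rfl, Or.inl rfl, hch.1, (hx p' (by simp)).1, (hx p' (by simp)).2, hq p' (by simp), rfl,
        by omega, hf'⟩
    · rw [h2, List.getLast_cons (List.cons_ne_nil _ _)]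
    · rw [h4, (show f' = true ↔ (f = true ∨ y = p' ∨ y = m p') from hf'), List.mem_cons, List.mem_cons, hm.eq_iff]
      grind

/-- The second token moves alone. -/
private theorem game3_q (hm : IsMate G m) {x y p : V} (Q2 : List V) : ∀ (q : V) (c d : ℕ) (f : Bool),
    List.IsChain (Arc G m D) (q :: Q2) → d + W m D (q :: Q2) ≤ β →
    (∀ z ∈ Q2, z ≠ x ∧ z ≠ m x) → (∀ z ∈ Q2, z ≠ p) →
    ∃ τ : GSt V, ReflTransGen (GMove G m D β x y) (p, q, c, d, (f, true, false)) τ ∧
      τ.1 = p ∧ τ.2.1 = (q :: Q2).getLast (List.cons_ne_nil _ _) ∧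
      (τ.2.2.2.2.1 = true ↔ (f = true ∨ y ∈ Q2 ∨ m y ∈ Q2)) := by
  induction Q2 with
  | nil =>
    intro q c d f _ _ _ _
    exact ⟨_, ReflTransGen.refl, rfl, rfl, by simp⟩
  | cons q' Q2 ih =>
    intro q c d f hch hW hx hp
    rw [List.isChain_cons_cons] at hch
    rw [W_cons_cons] at hW
    obtain ⟨f', hf'⟩ := game3_upd (m := m) y q' f
    obtain ⟨τ, h1, h2, h3, h4⟩ := ih q' c (d + cost m D q q') f' hch.2 (by omega)
      (fun z hz => hx z (List.mem_cons_of_mem _ hz)) (fun z hz => hp z (List.mem_cons_of_mem _ hz))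
    refine ⟨τ, ReflTransGen.head (Or.inr (Or.inl ?_)) h1, h2, ?_, ?_⟩
    · exact ⟨rfl, rfl, rfl, rfl, rfl, Or.inl rfl, hch.1, (hx q' (by simp)).1, (hx q' (by simp)).2, hp q' (by simp), rfl,
        by omega, hf'⟩
    · rw [h3, List.getLast_cons (List.cons_ne_nil _ _)]
    · rw [h4, (show f' = true ↔ (f = true ∨ y = q' ∨ y = m q') from hf'), List.mem_cons, List.mem_cons, hm.eq_iff]
      grind

private theorem game3_near [Finite V] (hm : IsMate G m) (hU : NoAlt G m) (hD : Fam G m D) (hc : Clsd G m β D) {p q : V} :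
    ¬ Near G m D β q p ∨ ¬ Near G m D β p q := by
  by_contra h
  push Not at h
  obtain ⟨⟨L2, h2, w2⟩, ⟨L1, h1, w1⟩⟩ := h
  have e : p :: ((L1 ++ q :: L2) ++ [p]) = (p :: L1) ++ q :: (L2 ++ [p]) := by simp
  have hch : List.IsChain (Arc G m D) (p :: ((L1 ++ q :: L2) ++ [p])) := by
    rw [e, List.isChain_split]
    exact ⟨by simpa using h1, h2⟩
  have h3 := cycle_cost hm hU hD hc hch
  rw [e, W_split] at h3
  have e2 : p :: L1 ++ [q] = p :: (L1 ++ [q]) := rfl
  rw [e2] at h3
  omega

private theorem game3_run [Finite V] (hm : IsMate G m) (hU : NoAlt G m) (hD : Fam G m D) (hc : Clsd G m β D) {x y : V} (n : ℕ) :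
    ∀ (P2 Q2 : List V) (p q : V) (c d : ℕ) (f : Bool), P2.length + Q2.length = n →
    List.IsChain (Arc G m D) (p :: P2) → List.IsChain (Arc G m D) (q :: Q2) →
    c + W m D (p :: P2) ≤ β → d + W m D (q :: Q2) ≤ β →
    (∀ z ∈ P2, z ≠ x ∧ z ≠ m x) → (∀ z ∈ Q2, z ≠ x ∧ z ≠ m x) →
    (∀ u ∈ p :: P2, ∀ v ∈ q :: Q2, u ≠ v) →
    ∃ τ : GSt V, ReflTransGen (GMove G m D β x y) (p, q, c, d, (f, false, false)) τ ∧
      τ.1 = (p :: P2).getLast (List.cons_ne_nil _ _) ∧ τ.2.1 = (q :: Q2).getLast (List.cons_ne_nil _ _) ∧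
      (τ.2.2.2.2.1 = true ↔ (f = true ∨ (y ∈ P2 ∨ m y ∈ P2) ∨ (y ∈ Q2 ∨ m y ∈ Q2))) := by
  induction n with
  | zero =>
    intro P2 Q2 p q c d f hn _ _ _ _ _ _ _
    obtain rfl : P2 = [] := List.length_eq_zero_iff.mp (by omega)
    obtain rfl : Q2 = [] := List.length_eq_zero_iff.mp (by omega)
    exact ⟨_, ReflTransGen.refl, rfl, rfl, by simp⟩
  | succ n ih =>
    intro P2 Q2 p q c d f hn hP hQ hWP hWQ hxP hxQ hne
    rcases P2 with _ | ⟨p', P2⟩
    · obtain ⟨τ, h1, h2, h3, h4⟩ := game3_q hm (p := p) (y := y) Q2 q c d f hQ hWQ hxQ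
        (fun z hz => (hne p (by simp) z (List.mem_cons_of_mem _ hz)).symm)
      refine ⟨τ, ReflTransGen.head (Or.inr (Or.inr ?_)) h1, h2, h3, ?_⟩
      · exact ⟨rfl, rfl, rfl, rfl, rfl, rfl, rfl, Or.inl ⟨rfl, rfl⟩⟩
      · rw [h4]; simp
    rcases Q2 with _ | ⟨q', Q2⟩
    · obtain ⟨τ, h1, h2, h3, h4⟩ := game3_p hm (q := q) (y := y) (p' :: P2) p c d f hP hWP hxP
        (fun z hz => hne z (List.mem_cons_of_mem _ hz) q (by simp))
      refine ⟨τ, ReflTransGen.head (Or.inr (Or.inr ?_)) h1, h2, h3, ?_⟩
      · exact ⟨rfl, rfl, rfl, rfl, rfl, rfl, rfl, Or.inr ⟨rfl, rfl⟩⟩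
      · rw [h4]; simp
    simp only [List.length_cons] at hn
    rcases game3_near hm hU hD hc (p := p) (q := q) with hN | hN
    · -- the first token moves
      have hP' := hP
      have hW' := hWP
      rw [List.isChain_cons_cons] at hP'
      rw [W_cons_cons] at hW'
      obtain ⟨f', hf'⟩ := game3_upd (m := m) y p' f
      obtain ⟨τ, h1, h2, h3, h4⟩ := ih P2 (q' :: Q2) p' q (c + cost m D p p') d f' (by simp only [List.length_cons]; omega)
        hP'.2 hQ (by omega) hWQ (fun z hz => hxP z (List.mem_cons_of_mem _ hz)) hxQ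
        (fun u hu v hv => hne u (List.mem_cons_of_mem _ hu) v hv)
      refine ⟨τ, ReflTransGen.head (Or.inl ?_) h1, ?_, h3, ?_⟩
      · exact ⟨rfl, rfl, rfl, rfl, rfl, Or.inr hN, hP'.1, (hxP p' (by simp)).1, (hxP p' (by simp)).2,
          hne p' (by simp) q (by simp), rfl, by omega, hf'⟩
      · rw [h2, List.getLast_cons (List.cons_ne_nil _ _)]
      · rw [h4, (show f' = true ↔ (f = true ∨ y = p' ∨ y = m p') from hf'), List.mem_cons (a := y) (b := p'), List.mem_cons (a := m y) (b := p'), hm.eq_iff]
        grind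
    · -- the second token moves
      have hQ' := hQ
      have hW' := hWQ
      rw [List.isChain_cons_cons] at hQ'
      rw [W_cons_cons] at hW'
      obtain ⟨f', hf'⟩ := game3_upd (m := m) y q' f
      obtain ⟨τ, h1, h2, h3, h4⟩ := ih (p' :: P2) Q2 p q' c (d + cost m D q q') f' (by simp only [List.length_cons]; omega)
        hP hQ'.2 hWP (by omega) hxP (fun z hz => hxQ z (List.mem_cons_of_mem _ hz))
        (fun u hu v hv => hne u hu v (List.mem_cons_of_mem _ hv))
      refine ⟨τ, ReflTransGen.head (Or.inr (Or.inl ?_)) h1, h2, ?_, ?_⟩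
      · exact ⟨rfl, rfl, rfl, rfl, rfl, Or.inr hN, hQ'.1, (hxQ q' (by simp)).1, (hxQ q' (by simp)).2,
          (hne p (by simp) q' (by simp)).symm, rfl, by omega, hf'⟩
      · rw [h3, List.getLast_cons (List.cons_ne_nil _ _)]
      · rw [h4, (show f' = true ↔ (f = true ∨ y = q' ∨ y = m q') from hf'), List.mem_cons (a := y) (b := q'), List.mem_cons (a := m y) (b := q'), hm.eq_iff]
        grind

/-- Job GAME3. Completeness of the two-token game.
Proof. Let L = P ++ R be a proper closed walk at x with P, R ≠ [], W P, W R ≤ β, y or y' in L. Put Q = mir R (cost W R). The tokens run along P and Q. Claim: from the state with the tokens at the i-th member of P and the l-th member of Q, a = b = false (i, l arbitrary, flags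
and costs accordingly) a winning state is reachable; induction on the number of remaining moves. If the first token is at its end: stop it; then the second token moves freely (a = true). The same for the second one. Otherwise at least one of Near q p,
Near p q fails, since both would give a directed closed walk of cost at most 2β (`cycle_cost`); move the corresponding token. All side conditions p' ≠ q etc. hold because x :: L is regular: members of P and members of Q are on different matching edges. -/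
theorem gwin_of_split [Finite V] (hm : IsMate G m) (hU : NoAlt G m) (hD : Fam G m D) (hc : Clsd G m β D) {x y : V} {P R : List V}
    (h : PCW G m D x (P ++ R)) (hP : P ≠ []) (hR : R ≠ []) (hWP : W m D P ≤ β) (hWR : W m D R ≤ β)
    (hy : y ∈ P ++ R ∨ m y ∈ P ++ R) : GWin G m D β x y := by
  classical
  obtain ⟨-, hch, hreg⟩ := h
  have e1 : x :: ((P ++ R) ++ [m x]) = (x :: P) ++ (R ++ [m x]) := by simp
  rw [e1, List.isChain_append] at hch
  obtain ⟨hchP, hchR, hmid⟩ := hch
  have hregx := (reg_cons x (P ++ R)).mp hreg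
  have hregPR := (reg_append P R).mp hregx.2
  -- the second walk
  have hQch : List.IsChain (Arc G m D) (x :: mir m R) := by
    have := chain_mir (m := m) (fun a b h => Arc.mirror hm h) hchR
    rw [mir_append, mir_singleton, hm.invol] at this
    exact this
  have hQne : mir m R ≠ [] := mir_ne_nil.mpr hR
  have hWQ : W m D (mir m R) ≤ β := by
    rw [W_mir hm hD hchR.left_of_append]
    exact hWR
  obtain ⟨p, P2, rfl⟩ := List.exists_cons_of_ne_nil hP
  obtain ⟨q, Q2, hq⟩ := List.exists_cons_of_ne_nil hQne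
  rw [hq] at hQch hWQ
  have hxP : ∀ z ∈ p :: P2, z ≠ x ∧ z ≠ m x := fun z hz => hregx.1 z (List.mem_append_left _ hz)
  have hxQ : ∀ z ∈ q :: Q2, z ≠ x ∧ z ≠ m x := by
    intro z hz
    rw [← hq, mem_mir hm] at hz
    have := hregx.1 _ (List.mem_append_right _ hz)
    refine ⟨fun h => this.2 (by rw [h]), fun h => this.1 (by rw [h, hm.invol])⟩
  have hne : ∀ u ∈ p :: P2, ∀ v ∈ q :: Q2, u ≠ v := by
    intro u hu v hv h
    rw [← hq, mem_mir hm] at hv
    exact (hregPR.2.2 u hu _ hv).2 (by rw [h])
  rw [List.isChain_cons_cons] at hchP hQch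
  obtain ⟨τ, h1, h2, h3, h4⟩ := game3_run hm hU hD hc (x := x) (y := y) (P2.length + Q2.length) P2 Q2 p q 0 0
    (decide (y = p ∨ y = m p ∨ y = q ∨ y = m q)) rfl hchP.2 hQch.2 (by omega) (by omega)
    (fun z hz => hxP z (List.mem_cons_of_mem _ hz)) (fun z hz => hxQ z (List.mem_cons_of_mem _ hz)) hne
  refine ⟨_, τ, ?_, h1, ?_, ?_⟩
  · exact ⟨hchP.1, hQch.1, hne p (by simp) q (by simp), rfl, rfl, rfl, rfl, by simp⟩
  · have hlast : τ.2.1 = m (R.head hR) := by
      rw [h3]
      have : (mir m R).getLast hQne = m (R.head hR) := by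
        simp [mir, List.getLast_reverse]
      rw [← this]
      congr 1
      exact hq.symm
    have := hmid ((x :: p :: P2).getLast (List.cons_ne_nil _ _))
      (by rw [List.getLast?_eq_getLast_of_ne_nil (List.cons_ne_nil _ _)]; rfl) (R.head hR)
      (by rw [List.head?_append_of_ne_nil _ hR, List.head?_eq_some_head hR]; rfl)
    rw [List.getLast_cons (List.cons_ne_nil _ _)] at this
    rw [h2, hlast]
    exact this
  · rw [h4]
    have hQ : ∀ z, z ∈ q :: Q2 ↔ m z ∈ R := by
      intro z
      rw [← hq, mem_mir hm]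
    have hz1 : y ∈ R ↔ m y ∈ q :: Q2 := by rw [hQ, hm.invol]
    have hz2 : m y ∈ R ↔ y ∈ q :: Q2 := by rw [hQ]
    rw [List.mem_append, List.mem_append, hz1, hz2, List.mem_cons, List.mem_cons, List.mem_cons, List.mem_cons, hm.eq_iff,
      hm.eq_iff] at hy
    simp only [decide_eq_true_eq]
    grind

/-- Job GAME1. The games compute the relation of the algorithm. -/
theorem grel_iff [Finite V] (hm : IsMate G m) (hU : NoAlt G m) (hD : Fam G m D) (hc : Clsd G m β D) (x y : V) :
    Grel G m D β x y ↔ Nrel G m D β x y := by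
  constructor
  · rintro (h | h)
    · obtain ⟨L, hL, hW, hy⟩ := (swin_iff hm hU hD hc x y).1 h
      refine ⟨L, ⟨hL, L, [], (List.append_nil L).symm, hL.1, hW, ?_⟩, hy⟩
      exact Nat.zero_le β
    · exact fnd_of_gwin hm hU hD hc h
  · rintro ⟨L, ⟨hL, P, R, hPR, hP, hWP, hWR⟩, hy⟩
    subst hPR
    by_cases hR : R = []
    · subst hR
      rw [List.append_nil] at hL hy
      exact Or.inl ((swin_iff hm hU hD hc x y).2 ⟨P, hL, hWP, hy⟩)
    · exact Or.inr (gwin_of_split hm hU hD hc hL hP hR hWP hWR hy)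

/-- Steps of the algorithm with the relation computed by the games. -/
def PhiG (G : SimpleGraph V) (m : V → V) (β : ℕ) (D : V → Set V) : V → Set V := fun x =>
  {y | TransGen (fun a b => b ∈ D a ∨ Grel G m D β a b) x y}

def PhihG (G : SimpleGraph V) (m : V → V) (β : ℕ) (D : V → Set V) : V → Set V := fun x =>
  {y | TransGen (fun a b => b ∈ D a ∨ (β ≤ (D a).ncard ∧ Grel G m D β a b)) x y}

def PsiG (G : SimpleGraph V) (m : V → V) (β : ℕ) (D : V → Set V) : V → Set V :=
  PhihG G m β (PhihG G m β (PhihG G m β (PhiG G m β D)))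

def stgG (G : SimpleGraph V) (m : V → V) (n : ℕ) (p : (V → Set V) × ℕ) : (V → Set V) × ℕ :=
  (PsiG G m p.2 (PsiG G m p.2 (PsiG G m p.2 p.1)), min (n - 1) (p.2 + p.2 / 5 + 1))

private theorem game4_phi [Finite V] (hm : IsMate G m) (hU : NoAlt G m) (hD : Fam G m D) (hc : Clsd G m β D) :
    PhiG G m β D = Phi G m β D := by
  have h1 : (fun a b => b ∈ D a ∨ Grel G m D β a b) = fun a b => b ∈ D a ∨ Nrel G m D β a b := by
    funext a b
    exact propext (or_congr Iff.rfl (grel_iff hm hU hD hc a b))
  unfold PhiG Phi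
  rw [h1]

private theorem game4_phih [Finite V] (hm : IsMate G m) (hU : NoAlt G m) (hD : Fam G m D) (hc : Clsd G m β D) :
    PhihG G m β D = Phih G m β D := by
  have h1 : (fun a b => b ∈ D a ∨ (β ≤ (D a).ncard ∧ Grel G m D β a b)) =
      fun a b => b ∈ D a ∨ (β ≤ (D a).ncard ∧ Nrel G m D β a b) := by
    funext a b
    exact propext (or_congr Iff.rfl (and_congr Iff.rfl (grel_iff hm hU hD hc a b)))
  unfold PhihG Phih
  rw [h1]

private theorem game4_psi [Finite V] (hm : IsMate G m) (hU : NoAlt G m) (hD : Fam G m D) (hc : Clsd G m β D) :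
    PsiG G m β D = Psi G m β D ∧ Clsd G m β (Psi G m β D) := by
  have f1 : Fam G m (Phi G m β D) := fam_Phi hm hU hD
  have c1 : Clsd G m β (Phi G m β D) := hc.family_mono f1 fun x => subset_Phi x
  have f2 : Fam G m (Phih G m β (Phi G m β D)) := fam_Phih hm hU f1
  have c2 : Clsd G m β (Phih G m β (Phi G m β D)) := c1.family_mono f2 fun x => subset_Phih x
  have f3 : Fam G m (Phih G m β (Phih G m β (Phi G m β D))) := fam_Phih hm hU f2
  have c3 : Clsd G m β (Phih G m β (Phih G m β (Phi G m β D))) := c2.family_mono f3 fun x => subset_Phih x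
  have f4 : Fam G m (Phih G m β (Phih G m β (Phih G m β (Phi G m β D)))) := fam_Phih hm hU f3
  have c4 : Clsd G m β (Phih G m β (Phih G m β (Phih G m β (Phi G m β D)))) :=
    c3.family_mono f4 fun x => subset_Phih x
  refine ⟨?_, c4⟩
  unfold PsiG Psi
  rw [game4_phi hm hU hD hc, game4_phih hm hU f1 c1, game4_phih hm hU f2 c2, game4_phih hm hU f3 c3]

private theorem game4_stg [Finite V] (hm : IsMate G m) (hU : NoAlt G m) (n : ℕ) (p : (V → Set V) × ℕ)
    (hf : Fam G m p.1) (hc : Clsd G m p.2 p.1) : stgG G m n p = stg G m n p := by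
  obtain ⟨E, b⟩ := p
  obtain ⟨e1, c1⟩ := game4_psi hm hU hf hc
  have f1 : Fam G m (Psi G m b E) := fam_Psi hm hU hf
  obtain ⟨e2, c2⟩ := game4_psi hm hU f1 c1
  have f2 : Fam G m (Psi G m b (Psi G m b E)) := fam_Psi hm hU f1
  obtain ⟨e3, -⟩ := game4_psi hm hU f2 c2
  show (PsiG G m b (PsiG G m b (PsiG G m b E)), min (n - 1) (b + b / 5 + 1)) =
    (Psi G m b (Psi G m b (Psi G m b E)), min (n - 1) (b + b / 5 + 1))
  simp only at e1 e2 e3
  rw [e1, e2, e3]

/-- Job GAME1. As long as the perfect matching is unique, both versions of the algorithm agree (`grel_iff` at each step, with `Clsd.family_mono`). -/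
theorem stgG_eq [Finite V] (hm : IsMate G m) (hU : NoAlt G m) (n : ℕ) (hn : 2 ≤ n) (k : ℕ) :
    (stgG G m n)^[k] (fun _ => ∅, 1) = (stg G m n)^[k] (fun _ => ∅, 1) := by
  induction k with
  | zero => rw [Function.iterate_zero, Function.iterate_zero]
  | succ k ih =>
    rw [Function.iterate_succ_apply', Function.iterate_succ_apply', ih]
    have h1 := stg_fam hm hU n hn k
    exact game4_stg hm hU n _ h1.1 h1.2

/-- The complete algorithm for a given mate map. -/
theorem testG_iff [Finite V] (hm : IsMate G m) {n : ℕ} (hn : n = Nat.card V) :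
    Test G m ((stgG G m n)^[4 * Nat.size (n - 1)] (fun _ => ∅, 1)).1 ↔ NoAlt G m := by
  constructor
  · exact noAlt_of_test hm
  · intro hU
    rcases isEmpty_or_nonempty V with hV | ⟨⟨v⟩⟩
    · exact ⟨fun x => (hV.false x).elim, fun x => (hV.false x).elim, fun x => (hV.false x).elim⟩
    have h2 : 2 ≤ n := by
      rw [hn]
      have : Nontrivial V := ⟨⟨m v, v, hm.ne v⟩⟩
      have := Finite.one_lt_card (α := V)
      omega
    rw [stgG_eq hm hU n h2]
    exact (test_iff hm hn).2 hU

end Pool.Agent.UPM
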