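import Pool.Agent.Lib.MP_0087d5_lc.UPM.NCPlib
import Pool.Agent.Lib.MP_0087d5_lc.UPM.Game

/-!
# The algorithm as a parallel program

Jobs AL1, AL2, AL3, AL4, AL5, AL6. Input of the inner part: a graph, a map `m`, a family `D`, a scale `β ≤ n - 1`.
-/

namespace Pool.Agent.UPM

open Relation

/-- Input: graph, map, family, scale. -/
structure AS (n : ℕ) where
  G : SimpleGraph (Fin n)
  m : Fin n → Fin n
  D : Fin n → Set (Fin n)
  β : ℕ
  hβ : β ≤ n - 1

inductive AB : Readers AS
  | adj : AB (Fin 2) (fun _ s x => s.G.Adj (x 0) (x 1))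
  | mate : AB (Fin 2) (fun _ s x => s.m (x 0) = x 1)
  | mem : AB (Fin 2) (fun _ s x => x 1 ∈ s.D (x 0))
  | beta : AB (Fin 1) (fun _ s x => (x 0 : ℕ) = s.β)

section AL1

variable {ι : Type}

private theorem al1_adj (hι : Finite ι) (i j : ι) : NCP AS AB ι (fun _ s x => s.G.Adj (x i) (x j)) :=
  NCP.comap hι ![i, j] (NCP.base inferInstance AB.adj)

private theorem al1_mate (hι : Finite ι) (i j : ι) : NCP AS AB ι (fun _ s x => s.m (x i) = x j) :=
  NCP.comap hι ![i, j] (NCP.base inferInstance AB.mate)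

private theorem al1_mem (hι : Finite ι) (i j : ι) : NCP AS AB ι (fun _ s x => x j ∈ s.D (x i)) :=
  NCP.comap hι ![i, j] (NCP.base inferInstance AB.mem)

private theorem al1_beta (hι : Finite ι) (i : ι) : NCP AS AB ι (fun _ s x => (x i : ℕ) = s.β) :=
  NCP.comap hι ![i] (NCP.base inferInstance AB.beta)

private theorem al1_memi (hι : Finite ι) (i j : ι) :
    NCP AS AB ι (fun _ s x => x j = x i ∨ x j ∈ s.D (x i)) :=
  NCP.or (NCP.eq hι j i) (al1_mem hι i j)

private theorem al1_touch (hι : Finite ι) (i j : ι) :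
    NCP AS AB ι (fun _ s x => Touch s.G s.D (x i) (x j)) := by
  have h : NCP AS AB ι (fun n s x => ∃ u : Fin n, (u = x i ∨ u ∈ s.D (x i)) ∧
      ∃ v : Fin n, (v = x j ∨ v ∈ s.D (x j)) ∧ (u = v ∨ s.G.Adj u v)) :=
    NCP.ex1 (NCP.and (al1_memi (ι := Option ι) inferInstance (some i) none)
      (NCP.ex1 (NCP.and (al1_memi (ι := Option (Option ι)) inferInstance (some (some j)) none)
        (NCP.or (NCP.eq inferInstance (some none) none)
          (al1_adj (ι := Option (Option ι)) inferInstance (some none) none)))))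
  exact h.congr fun n s x => Iff.rfl

private theorem al1_sim (hι : Finite ι) (i j : ι) :
    NCP AS AB ι (fun _ s x => Sim s.G s.m s.D (x i) (x j)) := by
  have h : NCP AS AB ι (fun n s x => ¬ (x i = x j) ∧ ¬ (s.m (x j) = x i) ∧ ¬ (x i ∈ s.D (x j)) ∧
      ¬ (x j ∈ s.D (x i)) ∧ Touch s.G s.D (x i) (x j)) :=
    NCP.and (NCP.not (NCP.eq hι i j)) (NCP.and (NCP.not (al1_mate hι j i))
      (NCP.and (NCP.not (al1_mem hι j i)) (NCP.and (NCP.not (al1_mem hι i j)) (al1_touch hι i j))))
  refine h.congr fun n s x => ?_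
  unfold Sim
  rw [eq_comm (a := s.m (x j))]

private theorem al1_arc (hι : Finite ι) (i j : ι) :
    NCP AS AB ι (fun _ s x => Arc s.G s.m s.D (x i) (x j)) := by
  have h : NCP AS AB ι (fun n s x => ∃ v : Fin n, s.m (x j) = v ∧ Sim s.G s.m s.D (x i) v) :=
    NCP.ex1 (NCP.and (al1_mate (ι := Option ι) inferInstance (some j) none)
      (al1_sim (ι := Option ι) inferInstance (some i) none))
  refine h.congr fun n s x => ?_
  unfold Arc
  exact exists_eq_left'

private theorem al1_memJ (hι : Finite ι) (i j k : ι) :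
    NCP AS AB ι (fun _ s x => x k ∈ J s.m s.D (x i) (x j)) := by
  have h : NCP AS AB ι (fun n s x => x k ∈ s.D (x i) ∨ ((∃ v : Fin n, s.m (x j) = v ∧ x k ∈ s.D v) ∨
      (x k = x j ∨ s.m (x j) = x k))) :=
    NCP.or (al1_mem hι i k) (NCP.or (NCP.ex1 (NCP.and
      (al1_mate (ι := Option ι) inferInstance (some j) none)
      (al1_mem (ι := Option ι) inferInstance none (some k))))
      (NCP.or (NCP.eq hι k j) (al1_mate hι j k)))
  refine h.congr fun n s x => ?_
  simp only [J, Set.mem_union, Set.mem_insert_iff, Set.mem_singleton_iff, exists_eq_left']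
  rw [eq_comm (a := s.m (x j)) (b := x k)]

private theorem al1_cost (hι : Finite ι) (i j k : ι) :
    NCP AS AB ι (fun _ s x => cost s.m s.D (x i) (x j) = (x k : ℕ)) := by
  have h : NCP AS AB (Option ι) (fun n s z =>
      {a | a ∈ J s.m s.D (z (some i)) (z (some j))}.ncard = (z none : ℕ)) :=
    NCP.count (S := AS) (B := AB) (Q := fun n s x a => a ∈ J s.m s.D (x i) (x j))
      (al1_memJ (ι := Option ι) inferInstance (some i) (some j) none)
  have h2 := NCP.comap hι (fun o : Option ι => o.elim k id) h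
  exact h2.congr fun n s x => Iff.rfl

private theorem al1_fin {n : ℕ} {s : AS n} (a : Fin n) : s.β < n := by
  have h1 := s.hβ
  have h2 := a.2
  omega

private theorem al1_le_beta (hι : Finite ι) (i : ι) :
    NCP AS AB ι (fun _ s x => (x i : ℕ) ≤ s.β) := by
  have h : NCP AS AB ι (fun n s x => ∃ b : Fin n, (b : ℕ) = s.β ∧ x i ≤ b) :=
    NCP.ex1 (NCP.and (al1_beta (ι := Option ι) inferInstance none)
      (NCP.le (ι := Option ι) inferInstance (some i) none))
  refine h.congr fun n s x => ⟨?_, fun h => ⟨⟨s.β, al1_fin (x i)⟩, rfl, h⟩⟩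
  rintro ⟨b, hb, hle⟩
  rw [← hb]
  exact hle

private theorem al1_cardD (hι : Finite ι) (i k : ι) :
    NCP AS AB ι (fun _ s x => (s.D (x i)).ncard = (x k : ℕ)) := by
  have h : NCP AS AB (Option ι) (fun n s z =>
      {a | a ∈ s.D (z (some i))}.ncard = (z none : ℕ)) :=
    NCP.count (S := AS) (B := AB) (Q := fun n s x a => a ∈ s.D (x i))
      (al1_mem (ι := Option ι) inferInstance (some i) none)
  have h2 := NCP.comap hι (fun o : Option ι => o.elim k id) h
  exact h2.congr fun n s x => Iff.rfl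

private theorem al1_heavy (hι : Finite ι) (i : ι) :
    NCP AS AB ι (fun _ s x => s.β ≤ (s.D (x i)).ncard) := by
  have h : NCP AS AB ι (fun n s x => (∃ c : Fin n, (s.D (x i)).ncard = (c : ℕ) ∧
      ∃ b : Fin n, (b : ℕ) = s.β ∧ b ≤ c) ∨ ¬ ∃ c : Fin n, (s.D (x i)).ncard = (c : ℕ)) :=
    NCP.or (NCP.ex1 (NCP.and (al1_cardD (ι := Option ι) inferInstance (some i) none)
      (NCP.ex1 (NCP.and (al1_beta (ι := Option (Option ι)) inferInstance none)
        (NCP.le (ι := Option (Option ι)) inferInstance none (some none))))))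
      (NCP.not (NCP.ex1 (al1_cardD (ι := Option ι) inferInstance (some i) none)))
  refine h.congr fun n s x => ⟨?_, fun h => ?_⟩
  · rintro (⟨c, hc, b, hb, hle⟩ | h)
    · rw [hc, ← hb]
      exact hle
    · by_contra hlt
      have h1 := al1_fin (s := s) (x i)
      exact h ⟨⟨(s.D (x i)).ncard, by omega⟩, rfl⟩
  · by_cases hn : (s.D (x i)).ncard < n
    · exact Or.inl ⟨⟨_, hn⟩, rfl, ⟨s.β, al1_fin (x i)⟩, rfl, h⟩
    · refine Or.inr ?_
      rintro ⟨c, hc⟩
      exact hn (hc ▸ c.2)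

private theorem al1_delta (hι : Finite ι) (i j : ι) :
    NCP AS AB ι (fun _ s x => Delta s.G s.m s.D (x i) (x j)) := by
  have h : NCP AS AB ι (fun n s x => ∃ v : Fin n, s.m (x j) = v ∧
      ∃ u : Fin n, (u = x i ∨ u ∈ s.D (x i)) ∧ s.G.Adj u v ∧ ¬ (u = x j) ∧
        ¬ (v = x i ∨ v ∈ s.D (x i))) :=
    NCP.ex1 (NCP.and (al1_mate (ι := Option ι) inferInstance (some j) none)
      (NCP.ex1 (NCP.and (al1_memi (ι := Option (Option ι)) inferInstance (some (some i)) none)
        (NCP.and (al1_adj (ι := Option (Option ι)) inferInstance none (some none))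
          (NCP.and (NCP.not (NCP.eq inferInstance none (some (some j))))
            (NCP.not (al1_memi (ι := Option (Option ι)) inferInstance (some (some i))
              (some none))))))))
  refine h.congr fun n s x => ?_
  rw [exists_eq_left']
  rfl

end AL1

/-- Job AL1. -/
theorem al_touch : NCP AS AB (Fin 2) (fun _ s x => Touch s.G s.D (x 0) (x 1)) :=
  al1_touch inferInstance 0 1

theorem al_sim : NCP AS AB (Fin 2) (fun _ s x => Sim s.G s.m s.D (x 0) (x 1)) :=
  al1_sim inferInstance 0 1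

theorem al_arc : NCP AS AB (Fin 2) (fun _ s x => Arc s.G s.m s.D (x 0) (x 1)) :=
  al1_arc inferInstance 0 1

/-- Job AL1. The cost of an arc (the count fits when it is less than n). -/
theorem al_cost : NCP AS AB (Fin 3) (fun _ s x => cost s.m s.D (x 0) (x 1) = (x 2 : ℕ)) :=
  al1_cost inferInstance 0 1 2

/-- x ≤ β -/
theorem al_le_beta : NCP AS AB (Fin 1) (fun _ s x => (x 0 : ℕ) ≤ s.β) :=
  al1_le_beta inferInstance 0

/-- Heavy vertices. (If |D x| = n then x is heavy, since β ≤ n - 1; otherwise |D x| is a number of the universe.) -/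
theorem al_heavy : NCP AS AB (Fin 1) (fun _ s x => s.β ≤ (s.D (x 0)).ncard) :=
  al1_heavy inferInstance 0

private theorem al2_fwd {n : ℕ} (s : AS n) (L : List (Fin n)) : ∀ (u v : Fin n) (c : ℕ)
    (hc : c < n) (hd : c + W s.m s.D (u :: (L ++ [v])) < n),
    List.IsChain (Arc s.G s.m s.D) (u :: (L ++ [v])) →
    TransGen (fun (p q : (Fin 2 → Fin n) × Unit) => Arc s.G s.m s.D (p.1 0) (q.1 0) ∧
      ((p.1 1 : Fin n) : ℕ) + cost s.m s.D (p.1 0) (q.1 0) = (q.1 1 : Fin n))
      (![u, ⟨c, hc⟩], ()) (![v, ⟨c + W s.m s.D (u :: (L ++ [v])), hd⟩], ()) := by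
  induction L with
  | nil =>
    intro u v c hc hd h
    refine TransGen.single ⟨?_, ?_⟩
    · simpa using h
    · simp [W]
  | cons w L ih =>
    intro u v c hc hd h
    have hW : W s.m s.D (u :: ((w :: L) ++ [v])) = cost s.m s.D u w +
        W s.m s.D (w :: (L ++ [v])) := rfl
    rw [List.cons_append, List.isChain_cons_cons] at h
    have hc2 : c + cost s.m s.D u w < n := by omega
    have hd2 : c + cost s.m s.D u w + W s.m s.D (w :: (L ++ [v])) < n := by omega
    have h1 := ih w v (c + cost s.m s.D u w) hc2 hd2 h.2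
    refine TransGen.head (b := (![w, ⟨c + cost s.m s.D u w, hc2⟩], ())) ⟨h.1, rfl⟩ ?_
    convert h1 using 4
    simp only [Fin.mk.injEq]
    omega

private theorem al2_bwd {n : ℕ} (s : AS n) {p q : (Fin 2 → Fin n) × Unit}
    (h : TransGen (fun (p q : (Fin 2 → Fin n) × Unit) => Arc s.G s.m s.D (p.1 0) (q.1 0) ∧
      ((p.1 1 : Fin n) : ℕ) + cost s.m s.D (p.1 0) (q.1 0) = (q.1 1 : Fin n)) p q) :
    ∃ L, List.IsChain (Arc s.G s.m s.D) (p.1 0 :: (L ++ [q.1 0])) ∧
      ((p.1 1 : Fin n) : ℕ) + W s.m s.D (p.1 0 :: (L ++ [q.1 0])) = (q.1 1 : Fin n) := by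
  induction h using TransGen.head_induction_on with
  | single h => exact ⟨[], by simpa using h.1, by simpa [W] using h.2⟩
  | @head a c h1 _ ih =>
    obtain ⟨L, hL, hW⟩ := ih
    refine ⟨c.1 0 :: L, ?_, ?_⟩
    · rw [List.cons_append, List.isChain_cons_cons]
      exact ⟨h1.1, hL⟩
    · have hW2 : W s.m s.D (a.1 0 :: ((c.1 0 :: L) ++ [q.1 0])) =
          cost s.m s.D (a.1 0) (c.1 0) + W s.m s.D (c.1 0 :: (L ++ [q.1 0])) := rfl
      have h2 := h1.2
      omega

private theorem al2_near {ι : Type} (hι : Finite ι) (i j : ι) :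
    NCP AS AB ι (fun _ s x => Near s.G s.m s.D s.β (x i) (x j)) := by
  have hQ := NCP.tc (S := AS) (B := AB) (ι := Empty) (κ := Fin 2) (Fl := Unit) inferInstance
    inferInstance inferInstance
    (Q := fun n s _ p q => Arc s.G s.m s.D (p.1 0) (q.1 0) ∧
      ((p.1 1 : Fin n) : ℕ) + cost s.m s.D (p.1 0) (q.1 0) = (q.1 1 : Fin n)) (by
    intro f g
    have h : NCP AS AB (Empty ⊕ (Fin 2 ⊕ Fin 2)) (fun n s z =>
        Arc s.G s.m s.D (z (Sum.inr (Sum.inl 0))) (z (Sum.inr (Sum.inr 0))) ∧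
        ∃ c : Fin n, cost s.m s.D (z (Sum.inr (Sum.inl 0))) (z (Sum.inr (Sum.inr 0))) = (c : ℕ) ∧
          (z (Sum.inr (Sum.inl 1)) : ℕ) + (c : ℕ) = (z (Sum.inr (Sum.inr 1)) : ℕ)) :=
      NCP.and (al1_arc inferInstance _ _) (NCP.ex1 (NCP.and
        (al1_cost (ι := Option (Empty ⊕ (Fin 2 ⊕ Fin 2))) inferInstance
          (some (Sum.inr (Sum.inl 0))) (some (Sum.inr (Sum.inr 0))) none)
        (NCP.add (ι := Option (Empty ⊕ (Fin 2 ⊕ Fin 2))) inferInstance
          (some (Sum.inr (Sum.inl 1))) none (some (Sum.inr (Sum.inr 1))))))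
    refine h.congr fun n s z => and_congr_right fun _ => ⟨?_, fun h => ?_⟩
    · rintro ⟨c, hc, h⟩
      rw [← hc] at h
      exact h
    · have h' : (z (Sum.inr (Sum.inl 1)) : ℕ) +
        cost s.m s.D (z (Sum.inr (Sum.inl 0))) (z (Sum.inr (Sum.inr 0))) =
        (z (Sum.inr (Sum.inr 1)) : ℕ) := h
      exact ⟨⟨cost s.m s.D (z (Sum.inr (Sum.inl 0))) (z (Sum.inr (Sum.inr 0))), by
        have := (z (Sum.inr (Sum.inr 1))).2
        omega⟩, rfl, h⟩)
  have h1 := hQ () ()
  have h2 := NCP.comap (κ := Option (Option ι)) inferInstance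
    (Sum.elim Empty.elim (Sum.elim ![some (some i), some none] ![some (some j), none])) h1
  have h3 : NCP AS AB ι (fun n s x => ∃ c₀ : Fin n, ∃ c : Fin n, (c₀ : ℕ) = 0 ∧ (c : ℕ) ≤ s.β ∧
      TransGen (fun (p q : (Fin 2 → Fin n) × Unit) => Arc s.G s.m s.D (p.1 0) (q.1 0) ∧
      ((p.1 1 : Fin n) : ℕ) + cost s.m s.D (p.1 0) (q.1 0) = (q.1 1 : Fin n))
      (![x i, c₀], ()) (![x j, c], ())) := by
    refine NCP.ex1 (NCP.ex1 (NCP.and (NCP.zero inferInstance (some none)) (NCP.and
      (al1_le_beta (ι := Option (Option ι)) inferInstance none) ?_)))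
    refine h2.congr fun n s z => ?_
    have e1 : (fun i_1 => z ((Sum.elim Empty.elim (Sum.elim ![some (some i), some none]
        ![some (some j), none])) (Sum.inr (Sum.inl i_1)))) = ![z (some (some i)), z (some none)] := by
      funext t
      fin_cases t <;> rfl
    have e2 : (fun i_1 => z ((Sum.elim Empty.elim (Sum.elim ![some (some i), some none]
        ![some (some j), none])) (Sum.inr (Sum.inr i_1)))) = ![z (some (some j)), z none] := by
      funext t
      fin_cases t <;> rfl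
    rw [e1, e2]
  refine h3.congr fun n s x => ⟨?_, ?_⟩
  · rintro ⟨c₀, c, h0, hc, h⟩
    obtain ⟨L, hL, hW⟩ := al2_bwd s h
    refine ⟨L, by simpa using hL, ?_⟩
    simp only [Matrix.cons_val_zero, Matrix.cons_val_one] at hW
    omega
  · rintro ⟨L, hL, hW⟩
    have hn := al1_fin (s := s) (x i)
    have h0 : 0 < n := by omega
    have hd : 0 + W s.m s.D (x i :: (L ++ [x j])) < n := by omega
    exact ⟨⟨0, h0⟩, ⟨0 + W s.m s.D (x i :: (L ++ [x j])), hd⟩, rfl, by simpa using hW,
      al2_fwd s L (x i) (x j) 0 h0 hd hL⟩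

/-- Job AL2. Near: a walk of cost at most β. Proof: transitive closure (`NCP.tc`, κ = Fin 2, one flag) of the relation
(u,c) → (v,d): Arc u v and d = c + cost u v; Near u v iff there are c₀ = 0 and c ≤ β with (u,c₀) →⁺ (v,c). (The costs along the walk are at most β ≤ n - 1.) -/
theorem al_near : NCP AS AB (Fin 2) (fun _ s x => Near s.G s.m s.D s.β (x 0) (x 1)) :=
  al2_near inferInstance 0 1

/-- Encoded moves of the one-token game. -/
private def al3Q {n : ℕ} (s : AS n) (x : Fin 2 → Fin n) (σ τ : (Fin 2 → Fin n) × Bool) : Prop :=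
  Arc s.G s.m s.D (σ.1 0) (τ.1 0) ∧ τ.1 0 ≠ x 0 ∧ τ.1 0 ≠ s.m (x 0) ∧
    (τ.1 1 : ℕ) = (σ.1 1 : ℕ) + cost s.m s.D (σ.1 0) (τ.1 0) ∧ (τ.1 1 : ℕ) ≤ s.β ∧
    Upd s.m (x 1) (τ.1 0) σ.2 τ.2

/-- The state coded by an encoded state. -/
private def al3enc {n : ℕ} (σ : (Fin 2 → Fin n) × Bool) : Fin n × ℕ × Bool := (σ.1 0, (σ.1 1 : ℕ), σ.2)

private theorem al3_iff {n : ℕ} (s : AS n) (x : Fin 2 → Fin n) (σ τ : (Fin 2 → Fin n) × Bool) :
    SMove s.G s.m s.D s.β (x 0) (x 1) (al3enc σ) (al3enc τ) ↔ al3Q s x σ τ := Iff.rfl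

private theorem al3_enc_inj {n : ℕ} {σ τ : (Fin 2 → Fin n) × Bool} (h : al3enc σ = al3enc τ) : σ = τ := by
  obtain ⟨a, f⟩ := σ
  obtain ⟨b, g⟩ := τ
  simp only [al3enc, Prod.mk.injEq] at h
  obtain ⟨h1, h2, h3⟩ := h
  refine Prod.ext ?_ h3
  funext i
  fin_cases i
  · exact h1
  · exact Fin.ext h2

private theorem al3_tg {n : ℕ} (s : AS n) (x : Fin 2 → Fin n) (σ : (Fin 2 → Fin n) × Bool) (τ' : Fin n × ℕ × Bool) :
    TransGen (SMove s.G s.m s.D s.β (x 0) (x 1)) (al3enc σ) τ' ↔
      ∃ τ, al3enc τ = τ' ∧ TransGen (al3Q s x) σ τ := by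
  have key : ∀ (ρ : (Fin 2 → Fin n) × Bool) (τ' : Fin n × ℕ × Bool),
      SMove s.G s.m s.D s.β (x 0) (x 1) (al3enc ρ) τ' → ∃ τ, al3enc τ = τ' ∧ al3Q s x ρ τ := by
    intro ρ τ' h
    have hn : 0 < n := (Nat.zero_le _).trans_lt (x 0).2
    have hc : τ'.2.1 < n := by
      have h1 := h.2.2.2.2.1
      have h2 := s.hβ
      omega
    refine ⟨(![τ'.1, ⟨τ'.2.1, hc⟩], τ'.2.2), rfl, ?_⟩
    exact (al3_iff s x _ _).1 h
  constructor
  · intro h
    induction h with
    | single h =>
      obtain ⟨τ, h1, h2⟩ := key σ _ h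
      exact ⟨τ, h1, TransGen.single h2⟩
    | tail _ h ih =>
      obtain ⟨ρ, h1, h2⟩ := ih
      subst h1
      obtain ⟨τ, h3, h4⟩ := key ρ _ h
      exact ⟨τ, h3, h2.tail h4⟩
  · rintro ⟨τ, rfl, h⟩
    exact TransGen.lift al3enc (fun a b hab => (al3_iff s x a b).2 hab) _ _ h

private theorem al3_step (f g : Bool) : NCP AS AB (Fin 2 ⊕ (Fin 2 ⊕ Fin 2)) (fun n s z =>
    al3Q s (fun i => z (Sum.inl i)) (fun i => z (Sum.inr (Sum.inl i)), f)
      (fun i => z (Sum.inr (Sum.inr i)), g)) := by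
  have hι : Finite (Fin 2 ⊕ (Fin 2 ⊕ Fin 2)) := inferInstance
  have hι' : Finite (Option (Fin 2 ⊕ (Fin 2 ⊕ Fin 2))) := inferInstance
  have hmate : ∀ i j : Fin 2 ⊕ (Fin 2 ⊕ Fin 2), NCP AS AB (Fin 2 ⊕ (Fin 2 ⊕ Fin 2)) (fun n s z => s.m (z i) = z j) :=
    fun i j => NCP.rel2 (R := fun n (s : AS n) a b => s.m a = b) hι (NCP.base inferInstance AB.mate) i j
  have h1 := NCP.rel2 (R := fun n (s : AS n) a b => Arc s.G s.m s.D a b) hι al_arc
    (Sum.inr (Sum.inl 0)) (Sum.inr (Sum.inr 0))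
  have h2 := NCP.not (NCP.eq (S := AS) (B := AB) hι (Sum.inr (Sum.inr 0)) (Sum.inl 0))
  have h3 := NCP.not (hmate (Sum.inl 0) (Sum.inr (Sum.inr 0)))
  have h4 : NCP AS AB (Fin 2 ⊕ (Fin 2 ⊕ Fin 2)) (fun n s z => ∃ k : Fin n,
      cost s.m s.D (z (Sum.inr (Sum.inl 0))) (z (Sum.inr (Sum.inr 0))) = (k : ℕ) ∧
        (z (Sum.inr (Sum.inl 1)) : ℕ) + (k : ℕ) = (z (Sum.inr (Sum.inr 1)) : ℕ)) := by
    refine NCP.ex1 (R := fun n (s : AS n) x k => cost s.m s.D (x (Sum.inr (Sum.inl 0))) (x (Sum.inr (Sum.inr 0))) = (k : ℕ) ∧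
        (x (Sum.inr (Sum.inl 1)) : ℕ) + (k : ℕ) = (x (Sum.inr (Sum.inr 1)) : ℕ)) ?_
    exact NCP.and (NCP.rel3 (R := fun n (s : AS n) a b c => cost s.m s.D a b = (c : ℕ)) hι' al_cost
      (some (Sum.inr (Sum.inl 0))) (some (Sum.inr (Sum.inr 0))) none)
      (NCP.add hι' (some (Sum.inr (Sum.inl 1))) none (some (Sum.inr (Sum.inr 1))))
  have h5 : NCP AS AB (Fin 2 ⊕ (Fin 2 ⊕ Fin 2)) (fun n s z => (z (Sum.inr (Sum.inr 1)) : ℕ) ≤ s.β) :=
    NCP.comap hι (fun _ => Sum.inr (Sum.inr 1)) al_le_beta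
  have h6 : NCP AS AB (Fin 2 ⊕ (Fin 2 ⊕ Fin 2)) (fun n s z => (g = true ↔ (f = true ∨
      (z (Sum.inl 1) = z (Sum.inr (Sum.inr 0)) ∨ s.m (z (Sum.inr (Sum.inr 0))) = z (Sum.inl 1))))) :=
    NCP.iff (NCP.const hι _) (NCP.or (NCP.const hι _) (NCP.or (NCP.eq hι _ _) (hmate _ _)))
  refine NCP.congr (NCP.and h1 (NCP.and h2 (NCP.and h3 (NCP.and h4 (NCP.and h5 h6))))) ?_
  intro n s z
  unfold al3Q Upd
  refine and_congr Iff.rfl (and_congr Iff.rfl (and_congr ?_ (and_congr ?_ (and_congr Iff.rfl ?_))))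
  · exact not_congr eq_comm
  · constructor
    · rintro ⟨k, h1, h2⟩
      simp only
      omega
    · intro h
      simp only at h
      have hlt := (z (Sum.inr (Sum.inr 1))).2
      refine ⟨⟨cost s.m s.D (z (Sum.inr (Sum.inl 0))) (z (Sum.inr (Sum.inr 0))), by omega⟩, rfl, ?_⟩
      simp only
      omega
  · simp only [eq_comm (a := z (Sum.inl 1))]

private theorem al3_tc (f g : Bool) : NCP AS AB (Fin 2 ⊕ (Fin 2 ⊕ Fin 2)) (fun n s z =>
    TransGen (al3Q s (fun i => z (Sum.inl i))) (fun i => z (Sum.inr (Sum.inl i)), f)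
      (fun i => z (Sum.inr (Sum.inr i)), g)) :=
  NCP.tc (Fl := Bool) (Q := fun n s x σ τ => al3Q s x σ τ) inferInstance inferInstance inferInstance al3_step f g

/-- Job AL3. The one-token game; parameters x, y. -/
theorem al_swin : NCP AS AB (Fin 2) (fun _ s x => SWin s.G s.m s.D s.β (x 0) (x 1)) := by
  have hI : Finite (Option (Option (Option (Option (Fin 2))))) := inferInstance
  -- the body, for fixed flags
  have hbody : ∀ f : Bool, NCP AS AB (Option (Option (Option (Option (Fin 2))))) (fun n s z =>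
      (Arc s.G s.m s.D (z (some (some (some (some 0))))) (z (some (some (some none)))) ∧
      ((z (some (some none)) : ℕ) = 0) ∧
      (f = true ↔ (z (some (some (some (some 1)))) = z (some (some (some none))) ∨
        s.m (z (some (some (some none)))) = z (some (some (some (some 1)))))) ∧
      ((z (some (some (some none))) = z (some none) ∧ z (some (some none)) = z none ∧ f = true) ∨
        TransGen (al3Q s (fun i => z (some (some (some (some i))))))
          (![z (some (some (some none))), z (some (some none))], f) (![z (some none), z none], true)) ∧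
      Sim s.G s.m s.D (z (some none)) (z (some (some (some (some 0))))))) := by
    intro f
    refine NCP.and (NCP.rel2 (R := fun n (s : AS n) a b => Arc s.G s.m s.D a b) hI al_arc _ _) (NCP.and (NCP.zero hI _)
      (NCP.and (NCP.iff (NCP.const hI _) (NCP.or (NCP.eq hI _ _)
        (NCP.rel2 (R := fun n (s : AS n) a b => s.m a = b) hI (NCP.base inferInstance AB.mate) _ _)))
      (NCP.and (NCP.or (NCP.and (NCP.eq hI _ _) (NCP.and (NCP.eq hI _ _) (NCP.const hI _))) ?_)
        (NCP.rel2 (R := fun n (s : AS n) a b => Sim s.G s.m s.D a b) hI al_sim _ _))))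
    refine NCP.congr (NCP.comap hI (fun i : Fin 2 ⊕ (Fin 2 ⊕ Fin 2) =>
      Sum.elim (fun j => some (some (some (some j)))) (Sum.elim ![some (some (some none)), some (some none)]
        ![some none, none]) i) (al3_tc f true)) ?_
    intro n s z
    have e1 : (fun i => z (Sum.elim (fun j : Fin 2 => some (some (some (some j))))
        (Sum.elim ![some (some (some none)), some (some none)] ![some none, none])
        (Sum.inr (Sum.inl i) : Fin 2 ⊕ (Fin 2 ⊕ Fin 2)))) =
        ![z (some (some (some none))), z (some (some none))] := by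
      funext i
      fin_cases i <;> rfl
    have e2 : (fun i => z (Sum.elim (fun j : Fin 2 => some (some (some (some j))))
        (Sum.elim ![some (some (some none)), some (some none)] ![some none, none])
        (Sum.inr (Sum.inr i) : Fin 2 ⊕ (Fin 2 ⊕ Fin 2)))) =
        ![z (some none), z none] := by
      funext i
      fin_cases i <;> rfl
    rw [← e1, ← e2]
    exact Iff.rfl
  have hall : NCP AS AB (Option (Option (Option (Option (Fin 2))))) (fun n s z => ∃ f : Bool,
      (Arc s.G s.m s.D (z (some (some (some (some 0))))) (z (some (some (some none)))) ∧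
      ((z (some (some none)) : ℕ) = 0) ∧
      (f = true ↔ (z (some (some (some (some 1)))) = z (some (some (some none))) ∨
        s.m (z (some (some (some none)))) = z (some (some (some (some 1)))))) ∧
      ((z (some (some (some none))) = z (some none) ∧ z (some (some none)) = z none ∧ f = true) ∨
        TransGen (al3Q s (fun i => z (some (some (some (some i))))))
          (![z (some (some (some none))), z (some (some none))], f) (![z (some none), z none], true)) ∧
      Sim s.G s.m s.D (z (some none)) (z (some (some (some (some 0))))))) :=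
    NCP.exFin hI hbody
  have h := NCP.ex1 (R := fun n s x p0 => ∃ c0 p c : Fin n, ∃ f : Bool,
      (Arc s.G s.m s.D (x 0) p0 ∧ ((c0 : ℕ) = 0) ∧ (f = true ↔ (x 1 = p0 ∨ s.m p0 = x 1)) ∧
      ((p0 = p ∧ c0 = c ∧ f = true) ∨ TransGen (al3Q s x) (![p0, c0], f) (![p, c], true)) ∧
      Sim s.G s.m s.D p (x 0))) (NCP.ex1 (NCP.ex1 (NCP.ex1 hall)))
  refine NCP.congr h ?_
  intro n s x
  have hn : 0 < n := (Nat.zero_le _).trans_lt (x 0).2
  constructor
  · rintro ⟨p0, c0, p, c, f, h1, h2, h3, h4, h5⟩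
    refine ⟨(p0, 0, f), (p, (c : ℕ), true), h1, rfl, ?_, ?_, h5, rfl⟩
    · unfold Upd
      simp only [Bool.false_eq_true, false_or]
      rw [h3, eq_comm (a := s.m p0)]
    · rcases h4 with ⟨h6, h7, h8⟩ | h4
      · subst h6 h7 h8
        rw [h2]
      · have h9 := (al3_tg s x (![p0, c0], f) (al3enc (![p, c], true))).2 ⟨_, rfl, h4⟩
        have e : al3enc (![p0, c0], f) = (p0, 0, f) := by
          simp [al3enc, h2]
        rw [e] at h9
        exact h9.to_reflTransGen
  · rintro ⟨σ, τ, h1, h2, h3, h4, h5, h6⟩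
    obtain ⟨p0, c0, f⟩ := σ
    obtain ⟨p, c, g⟩ := τ
    simp only at h1 h2 h3 h5 h6
    subst h2 h6
    have h3' : (f = true ↔ (x 1 = p0 ∨ s.m p0 = x 1)) := by
      unfold Upd at h3
      simp only [Bool.false_eq_true, false_or] at h3
      rw [h3, eq_comm (a := s.m p0)]
    rcases reflTransGen_iff_eq_or_transGen.1 h4 with h7 | h7
    · simp only [Prod.mk.injEq] at h7
      obtain ⟨h8, h9, h10⟩ := h7
      subst h8 h9 h10
      exact ⟨p, ⟨0, hn⟩, p, ⟨0, hn⟩, true, h1, rfl, h3', Or.inl ⟨rfl, rfl, rfl⟩, h5⟩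
    · have e : al3enc (![p0, (⟨0, hn⟩ : Fin n)], f) = (p0, 0, f) := rfl
      rw [← e] at h7
      obtain ⟨ρ, h8, h9⟩ := (al3_tg s x _ _).1 h7
      have e' : ρ = (![p, ρ.1 1], true) := by
        apply al3_enc_inj
        rw [h8]
        have := congrArg (fun t : Fin n × ℕ × Bool => t.2.1) h8
        simp only [al3enc] at this
        simp [al3enc, this]
      rw [e'] at h9
      exact ⟨p0, ⟨0, hn⟩, p, ρ.1 1, f, h1, rfl, h3', Or.inr h9, h5⟩

/-- existential quantification over tuples -/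
private theorem al4_exTuple {S : ℕ → Type} {B : Readers S} (κ : Type) [Finite κ] :
    ∀ (ι : Type) (R : ∀ n, S n → (ι → Fin n) → (κ → Fin n) → Prop),
      NCP S B (ι ⊕ κ) (fun n s z => R n s (fun i => z (Sum.inl i)) (fun k => z (Sum.inr k))) →
      NCP S B ι (fun n s x => ∃ u : κ → Fin n, R n s x u) := by
  induction κ using Finite.induction_empty_option with
  | of_equiv e ih =>
    rename_i α β
    intro ι R h
    have hf : Finite (ι ⊕ β) := h.finite
    have hι : Finite ι := Finite.of_injective (Sum.inl : ι → ι ⊕ β) Sum.inl_injective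
    have hβ : Finite β := Finite.of_injective (Sum.inr : β → ι ⊕ β) Sum.inr_injective
    have hα : Finite α := Finite.of_injective e e.injective
    have h1 := ih ι (fun n s x u => R n s x (fun k => u (e.symm k)))
      (NCP.comap (inferInstance : Finite (ι ⊕ α)) (Sum.map id e.symm) h)
    refine h1.congr fun n s x => ?_
    constructor
    · rintro ⟨u, hu⟩
      exact ⟨_, hu⟩
    · rintro ⟨u, hu⟩
      refine ⟨fun k => u (e k), ?_⟩
      simpa using hu
  | h_empty =>
    intro ι R h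
    have hf : Finite (ι ⊕ PEmpty.{1}) := h.finite
    have hι : Finite ι := Finite.of_injective (Sum.inl : ι → ι ⊕ PEmpty.{1}) Sum.inl_injective
    have h1 := NCP.comap hι (Sum.elim id PEmpty.elim : ι ⊕ PEmpty.{1} → ι) h
    refine h1.congr fun n s x => ?_
    constructor
    · intro hu
      exact ⟨_, hu⟩
    · rintro ⟨u, hu⟩
      have : u = fun k => x (Sum.elim id PEmpty.elim (Sum.inr k)) := by
        funext k
        exact k.elim
      rw [this] at hu
      exact hu
  | h_option ih =>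
    rename_i α _
    intro ι R h
    have hf : Finite (ι ⊕ Option α) := h.finite
    have hι : Finite ι := Finite.of_injective (Sum.inl : ι → ι ⊕ Option α) Sum.inl_injective
    let e : ι ⊕ Option α → Option (ι ⊕ α) := fun o =>
      match o with
      | Sum.inl i => some (Sum.inl i)
      | Sum.inr none => none
      | Sum.inr (some k) => some (Sum.inr k)
    have h0 := NCP.comap (inferInstance : Finite (Option (ι ⊕ α))) e h
    have h2 : NCP S B (ι ⊕ α) (fun n s z => ∃ a : Fin n,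
        R n s (fun i => z (Sum.inl i)) (fun o => o.elim a (fun k => z (Sum.inr k)))) := by
      refine NCP.ex1 (R := fun n s (z : ι ⊕ α → Fin n) a =>
        R n s (fun i => z (Sum.inl i)) (fun o => o.elim a (fun k => z (Sum.inr k)))) ?_
      refine h0.congr fun n s z => ?_
      have : (fun k : Option α => z (e (Sum.inr k))) =
          (fun o : Option α => o.elim (z none) (fun k => z (some (Sum.inr k)))) := by
        funext o
        cases o <;> rfl
      show R n s (fun i => z (some (Sum.inl i))) (fun k : Option α => z (e (Sum.inr k))) ↔ _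
      rw [this]
    have h1 := ih ι (fun n s x u => ∃ a : Fin n, R n s x (fun o => o.elim a u)) h2
    refine h1.congr fun n s x => ?_
    constructor
    · rintro ⟨u, a, hu⟩
      exact ⟨_, hu⟩
    · rintro ⟨u, hu⟩
      refine ⟨fun k => u (some k), u none, ?_⟩
      have : (fun o : Option α => o.elim (u none) (fun k => u (some k))) = u := by
        funext o
        cases o <;> rfl
      rw [this]
      exact hu

/-- decoding of a state of the two-token game -/
private def al4Dec {n : ℕ} (e : (Fin 4 → Fin n) × (Bool × Bool × Bool)) : GSt (Fin n) :=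
  (e.1 0, e.1 1, (e.1 2 : ℕ), (e.1 3 : ℕ), e.2)

private def al4Q (n : ℕ) (s : AS n) (x : Fin 2 → Fin n) (e e' : (Fin 4 → Fin n) × (Bool × Bool × Bool)) : Prop :=
  GMove s.G s.m s.D s.β (x 0) (x 1) (al4Dec e) (al4Dec e')

private theorem al4_enc {n : ℕ} (p q : Fin n) (c d : ℕ) (hc : c < n) (hd : d < n) (f : Bool × Bool × Bool) :
    al4Dec (![p, q, ⟨c, hc⟩, ⟨d, hd⟩], f) = (p, q, c, d, f) := rfl

private theorem al4_step {n : ℕ} (s : AS n) (x : Fin 2 → Fin n) (e : (Fin 4 → Fin n) × (Bool × Bool × Bool))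
    (τ : GSt (Fin n)) (h : GMove s.G s.m s.D s.β (x 0) (x 1) (al4Dec e) τ) : ∃ e', al4Dec e' = τ := by
  obtain ⟨p', q', c', d', f', a', b'⟩ := τ
  obtain ⟨u, f, a, b⟩ := e
  have hn := (x 0).isLt
  have hβ := s.hβ
  rcases h with h | h | h
  · obtain ⟨h1, h2, -, -, -, -, -, -, -, -, -, h3, -⟩ := h
    exact ⟨_, al4_enc p' q' c' d' (by omega) (by rw [h2]; exact (u 3).isLt) (f', a', b')⟩
  · obtain ⟨h1, h2, -, -, -, -, -, -, -, -, -, h3, -⟩ := h
    exact ⟨_, al4_enc p' q' c' d' (by rw [h2]; exact (u 2).isLt) (by omega) (f', a', b')⟩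
  · obtain ⟨h1, h2, h3, h4, -⟩ := h
    exact ⟨_, al4_enc p' q' c' d' (by rw [h3]; exact (u 2).isLt) (by rw [h4]; exact (u 3).isLt) (f', a', b')⟩

private theorem al4_path {n : ℕ} (s : AS n) (x : Fin 2 → Fin n) (e : (Fin 4 → Fin n) × (Bool × Bool × Bool))
    (τ : GSt (Fin n)) (h : ReflTransGen (GMove s.G s.m s.D s.β (x 0) (x 1)) (al4Dec e) τ) :
    ∃ e', al4Dec e' = τ ∧ ReflTransGen (al4Q n s x) e e' := by
  induction h with
  | refl => exact ⟨e, rfl, ReflTransGen.refl⟩
  | tail _ hst ih =>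
    obtain ⟨e1, rfl, h1⟩ := ih
    obtain ⟨e2, rfl⟩ := al4_step s x e1 _ hst
    exact ⟨e2, rfl, h1.tail hst⟩

private theorem al4_iff {n : ℕ} (s : AS n) (x : Fin 2 → Fin n) :
    GWin s.G s.m s.D s.β (x 0) (x 1) ↔ ∃ w : Fin 4 ⊕ Fin 4 → Fin n, ∃ fg : (Bool × Bool × Bool) × (Bool × Bool × Bool),
      (GStart s.G s.m s.D (x 0) (x 1) (al4Dec (fun i => w (Sum.inl i), fg.1))) ∧
      (((∀ i : Fin 4, w (Sum.inl i) = w (Sum.inr i)) ∧ fg.1 = fg.2) ∨
        TransGen (al4Q n s x) (fun i => w (Sum.inl i), fg.1) (fun i => w (Sum.inr i), fg.2)) ∧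
      Sim s.G s.m s.D (w (Sum.inr 0)) (w (Sum.inr 1)) ∧ fg.2.1 = true := by
  constructor
  · rintro ⟨⟨p, q, c, d, f, a, b⟩, τ, h1, h2, h3, h4⟩
    have hn := (x 0).isLt
    have hc : c = 0 := h1.2.2.2.1
    have hd : d = 0 := h1.2.2.2.2.1
    subst hc hd
    have e1 : al4Dec (![p, q, ⟨0, by omega⟩, ⟨0, by omega⟩], (f, a, b)) = (p, q, 0, 0, f, a, b) :=
      al4_enc p q 0 0 _ _ _
    rw [← e1] at h2
    obtain ⟨⟨v, g⟩, h5, h6⟩ := al4_path s x _ τ h2
    refine ⟨Sum.elim ![p, q, ⟨0, by omega⟩, ⟨0, by omega⟩] v, ((f, a, b), g), h1, ?_, ?_, ?_⟩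
    · rcases (reflTransGen_iff_eq_or_transGen).1 h6 with h7 | h7
      · left
        have h8 : v = ![p, q, ⟨0, by omega⟩, ⟨0, by omega⟩] := congrArg Prod.fst h7
        have h9 : g = (f, a, b) := congrArg Prod.snd h7
        exact ⟨fun i => (congrFun h8 i).symm, h9.symm⟩
      · right
        exact h7
    · rw [← h5] at h3
      exact h3
    · rw [← h5] at h4
      exact h4
  · rintro ⟨w, ⟨f, g⟩, h1, h2, h3, h4⟩
    refine ⟨_, al4Dec (fun i => w (Sum.inr i), g), h1, ?_, h3, h4⟩
    refine ReflTransGen.lift al4Dec (r := al4Q n s x) (fun a b h => h) _ _ ?_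
    rcases h2 with ⟨h5, h6⟩ | h2
    · have h7 : (fun i => w (Sum.inl i)) = (fun i => w (Sum.inr i)) := funext h5
      change f = g at h6
      show ReflTransGen (al4Q n s x) (fun i => w (Sum.inl i), f) (fun i => w (Sum.inr i), g)
      rw [h7, h6]
    · exact h2.to_reflTransGen

section

variable {ι : Type}

private theorem al4_mate (hι : Finite ι) (i j : ι) : NCP AS AB ι (fun _ s x => s.m (x i) = x j) :=
  NCP.rel2 (R := fun n (s : AS n) (u v : Fin n) => s.m u = v) hι (NCP.base inferInstance AB.mate) i j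

private theorem al4_near (hι : Finite ι) (i j : ι) :
    NCP AS AB ι (fun _ s x => Near s.G s.m s.D s.β (x i) (x j)) :=
  NCP.rel2 (R := fun n (s : AS n) (u v : Fin n) => Near s.G s.m s.D s.β u v) hι al_near i j

private theorem al4_arc (hι : Finite ι) (i j : ι) : NCP AS AB ι (fun _ s x => Arc s.G s.m s.D (x i) (x j)) :=
  NCP.rel2 (R := fun n (s : AS n) (u v : Fin n) => Arc s.G s.m s.D u v) hι al_arc i j

private theorem al4_sim (hι : Finite ι) (i j : ι) : NCP AS AB ι (fun _ s x => Sim s.G s.m s.D (x i) (x j)) :=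
  NCP.rel2 (R := fun n (s : AS n) (u v : Fin n) => Sim s.G s.m s.D u v) hι al_sim i j

private theorem al4_le (hι : Finite ι) (i : ι) : NCP AS AB ι (fun _ s x => (x i : ℕ) ≤ s.β) :=
  NCP.comap hι (fun _ : Fin 1 => i) al_le_beta

private theorem al4_cost (hι : Finite ι) (p p' c c' : ι) :
    NCP AS AB ι (fun _ s x => (x c' : ℕ) = (x c : ℕ) + cost s.m s.D (x p) (x p')) := by
  have h := NCP.ex1 (S := AS) (B := AB) (ι := ι)
    (R := fun n (s : AS n) (x : ι → Fin n) (a : Fin n) => cost s.m s.D (x p) (x p') = (a : ℕ) ∧ (x c : ℕ) + (a : ℕ) = (x c' : ℕ))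
    (NCP.and (NCP.rel3 (R := fun n (s : AS n) (u v w : Fin n) => cost s.m s.D u v = (w : ℕ)) inferInstance al_cost
      (some p) (some p') none) (NCP.add inferInstance (some c) none (some c')))
  refine h.congr fun n s x => ?_
  constructor
  · rintro ⟨a, h1, h2⟩
    omega
  · intro h1
    have := (x c').isLt
    exact ⟨⟨cost s.m s.D (x p) (x p'), by omega⟩, rfl, h1.symm⟩

private theorem al4_upd (hι : Finite ι) (y z : ι) (f f' : Bool) :
    NCP AS AB ι (fun _ s x => Upd s.m (x y) (x z) f f') := by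
  have h := NCP.iff (NCP.const (S := AS) (B := AB) hι (f' = true))
    (NCP.or (NCP.const hι (f = true)) (NCP.or (NCP.eq hι y z) (al4_mate hι z y)))
  refine h.congr fun n s x => ?_
  unfold Upd
  rw [eq_comm (a := s.m (x z))]

private theorem al4_valeq (hι : Finite ι) (i j : ι) : NCP AS AB ι (fun _ _ x => (x i : ℕ) = (x j : ℕ)) :=
  (NCP.eq hι i j).congr fun _ _ _ => Fin.ext_iff

private theorem al4_pmove (hι : Finite ι) (x y p q c d p' q' c' d' : ι) (f a b f' a' b' : Bool) :
    NCP AS AB ι (fun _ s z => PMove s.G s.m s.D s.β (z x) (z y) (z p, z q, (z c : ℕ), (z d : ℕ), (f, a, b))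
      (z p', z q', (z c' : ℕ), (z d' : ℕ), (f', a', b'))) := by
  have h1 := NCP.eq (S := AS) (B := AB) hι q' q
  have h2 := al4_valeq hι d' d
  have h3 := NCP.const (S := AS) (B := AB) hι (a' = a)
  have h4 := NCP.const (S := AS) (B := AB) hι (b' = b)
  have h5 := NCP.const (S := AS) (B := AB) hι (a = false)
  have h6 := NCP.or (NCP.const (S := AS) (B := AB) hι (b = true)) (NCP.not (al4_near hι q p))
  have h7 := al4_arc hι p p'
  have h8 := NCP.not (NCP.eq (S := AS) (B := AB) hι p' x)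
  have h9 := NCP.not (al4_mate hι x p')
  have h10 := NCP.not (NCP.eq (S := AS) (B := AB) hι p' q)
  have h11 := al4_cost hι p p' c c'
  have h12 := al4_le hι c'
  have h13 := al4_upd hι y p' f f'
  have h := h1.and (h2.and (h3.and (h4.and (h5.and (h6.and (h7.and (h8.and (h9.and (h10.and
    (h11.and (h12.and h13)))))))))))
  refine h.congr fun n s z => ?_
  rw [eq_comm (a := s.m (z x))]
  exact Iff.rfl

private theorem al4_qmove (hι : Finite ι) (x y p q c d p' q' c' d' : ι) (f a b f' a' b' : Bool) :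
    NCP AS AB ι (fun _ s z => QMove s.G s.m s.D s.β (z x) (z y) (z p, z q, (z c : ℕ), (z d : ℕ), (f, a, b))
      (z p', z q', (z c' : ℕ), (z d' : ℕ), (f', a', b'))) := by
  have h1 := NCP.eq (S := AS) (B := AB) hι p' p
  have h2 := al4_valeq hι c' c
  have h3 := NCP.const (S := AS) (B := AB) hι (a' = a)
  have h4 := NCP.const (S := AS) (B := AB) hι (b' = b)
  have h5 := NCP.const (S := AS) (B := AB) hι (b = false)
  have h6 := NCP.or (NCP.const (S := AS) (B := AB) hι (a = true)) (NCP.not (al4_near hι p q))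
  have h7 := al4_arc hι q q'
  have h8 := NCP.not (NCP.eq (S := AS) (B := AB) hι q' x)
  have h9 := NCP.not (al4_mate hι x q')
  have h10 := NCP.not (NCP.eq (S := AS) (B := AB) hι q' p)
  have h11 := al4_cost hι q q' d d'
  have h12 := al4_le hι d'
  have h13 := al4_upd hι y q' f f'
  have h := h1.and (h2.and (h3.and (h4.and (h5.and (h6.and (h7.and (h8.and (h9.and (h10.and
    (h11.and (h12.and h13)))))))))))
  refine h.congr fun n s z => ?_
  rw [eq_comm (a := s.m (z x))]
  exact Iff.rfl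

private theorem al4_stop (hι : Finite ι) (p q c d p' q' c' d' : ι) (f a b f' a' b' : Bool) :
    NCP AS AB ι (fun n _ z => Stop (V := Fin n) (z p, z q, (z c : ℕ), (z d : ℕ), (f, a, b))
      (z p', z q', (z c' : ℕ), (z d' : ℕ), (f', a', b'))) := by
  have h := (NCP.eq (S := AS) (B := AB) hι p' p).and ((NCP.eq (S := AS) (B := AB) hι q' q).and
    ((al4_valeq hι c' c).and ((al4_valeq hι d' d).and (NCP.const hι
      (f' = f ∧ a = false ∧ b = false ∧ ((a' = true ∧ b' = false) ∨ (a' = false ∧ b' = true)))))))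
  exact h.congr fun n s z => Iff.rfl

private theorem al4_start (hι : Finite ι) (x y p q c d : ι) (f a b : Bool) :
    NCP AS AB ι (fun _ s z => GStart s.G s.m s.D (z x) (z y) (z p, z q, (z c : ℕ), (z d : ℕ), (f, a, b))) := by
  have h := (al4_arc hι x p).and ((al4_arc hι x q).and ((NCP.not (NCP.eq (S := AS) (B := AB) hι p q)).and
    ((NCP.zero (S := AS) (B := AB) hι c).and ((NCP.zero (S := AS) (B := AB) hι d).and
    ((NCP.const (S := AS) (B := AB) hι (a = false)).and ((NCP.const (S := AS) (B := AB) hι (b = false)).and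
    (NCP.iff (NCP.const (S := AS) (B := AB) hι (f = true))
      (NCP.or (NCP.eq hι y p) (NCP.or (al4_mate hι p y) (NCP.or (NCP.eq hι y q) (al4_mate hι q y)))))))))))
  refine h.congr fun n s z => ?_
  rw [eq_comm (a := s.m (z p)), eq_comm (a := s.m (z q))]
  exact Iff.rfl

end

private theorem al4_trans (f g : Bool × Bool × Bool) : NCP AS AB (Fin 2 ⊕ (Fin 4 ⊕ Fin 4)) (fun n s z =>
    TransGen (al4Q n s (fun i => z (Sum.inl i))) (fun i => z (Sum.inr (Sum.inl i)), f)
      (fun i => z (Sum.inr (Sum.inr i)), g)) := by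
  refine NCP.tc (Q := al4Q) inferInstance inferInstance inferInstance ?_ f g
  rintro ⟨f, a, b⟩ ⟨f', a', b'⟩
  have h := NCP.or
    (al4_pmove (ι := Fin 2 ⊕ (Fin 4 ⊕ Fin 4)) inferInstance (Sum.inl 0) (Sum.inl 1)
      (Sum.inr (Sum.inl 0)) (Sum.inr (Sum.inl 1)) (Sum.inr (Sum.inl 2)) (Sum.inr (Sum.inl 3))
      (Sum.inr (Sum.inr 0)) (Sum.inr (Sum.inr 1)) (Sum.inr (Sum.inr 2)) (Sum.inr (Sum.inr 3)) f a b f' a' b')
    (NCP.or (al4_qmove (ι := Fin 2 ⊕ (Fin 4 ⊕ Fin 4)) inferInstance (Sum.inl 0) (Sum.inl 1)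
      (Sum.inr (Sum.inl 0)) (Sum.inr (Sum.inl 1)) (Sum.inr (Sum.inl 2)) (Sum.inr (Sum.inl 3))
      (Sum.inr (Sum.inr 0)) (Sum.inr (Sum.inr 1)) (Sum.inr (Sum.inr 2)) (Sum.inr (Sum.inr 3)) f a b f' a' b')
    (al4_stop (ι := Fin 2 ⊕ (Fin 4 ⊕ Fin 4)) inferInstance
      (Sum.inr (Sum.inl 0)) (Sum.inr (Sum.inl 1)) (Sum.inr (Sum.inl 2)) (Sum.inr (Sum.inl 3))
      (Sum.inr (Sum.inr 0)) (Sum.inr (Sum.inr 1)) (Sum.inr (Sum.inr 2)) (Sum.inr (Sum.inr 3)) f a b f' a' b'))
  exact h.congr fun n s z => Iff.rfl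

/-- Job AL4. The two-token game (`NCP.tc` with κ = Fin 4, Fl = Bool × Bool × Bool). -/
theorem al_gwin : NCP AS AB (Fin 2) (fun _ s x => GWin s.G s.m s.D s.β (x 0) (x 1)) := by
  have h := al4_exTuple (S := AS) (B := AB) (Fin 4 ⊕ Fin 4) (Fin 2)
    (fun n s x w => ∃ fg : (Bool × Bool × Bool) × (Bool × Bool × Bool),
      (GStart s.G s.m s.D (x 0) (x 1) (al4Dec (fun i => w (Sum.inl i), fg.1))) ∧
      (((∀ i : Fin 4, w (Sum.inl i) = w (Sum.inr i)) ∧ fg.1 = fg.2) ∨
        TransGen (al4Q n s x) (fun i => w (Sum.inl i), fg.1) (fun i => w (Sum.inr i), fg.2)) ∧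
      Sim s.G s.m s.D (w (Sum.inr 0)) (w (Sum.inr 1)) ∧ fg.2.1 = true) ?_
  · exact h.congr fun n s x => (al4_iff s x).symm
  · refine NCP.exFin inferInstance ?_
    rintro ⟨⟨f, a, b⟩, g⟩
    refine NCP.and (al4_start inferInstance (Sum.inl 0) (Sum.inl 1) (Sum.inr (Sum.inl 0)) (Sum.inr (Sum.inl 1))
      (Sum.inr (Sum.inl 2)) (Sum.inr (Sum.inl 3)) f a b) (NCP.and (NCP.or (NCP.and (NCP.allFin inferInstance
        fun j => NCP.eq inferInstance (Sum.inr (Sum.inl j)) (Sum.inr (Sum.inr j))) (NCP.const inferInstance _))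
        (al4_trans (f, a, b) g)) (NCP.and (al4_sim inferInstance (Sum.inr (Sum.inr 0)) (Sum.inr (Sum.inr 1)))
        (NCP.const inferInstance _)))

theorem al_grel : NCP AS AB (Fin 2) (fun _ s x => Grel s.G s.m s.D s.β (x 0) (x 1)) := by
  exact NCP.or al_swin al_gwin

/-- Transitive closure of a binary relation without parameters. -/
theorem al5_tc {S : ℕ → Type} {B : Readers S} {R : ∀ n, S n → Fin n → Fin n → Prop}
    (h : NCP S B (Fin 2) (fun n s x => R n s (x 0) (x 1))) :
    NCP S B (Fin 2) (fun n s x => TransGen (R n s) (x 0) (x 1)) := by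
  have hE : Finite Empty := inferInstance
  have h1 : NCP S B (Option (Option Empty)) (fun n s z => R n s (z (some none)) (z none)) :=
    NCP.rel2 inferInstance h (some none) none
  have h2 := NCP.tc1 (ι := Empty) hE (Q := fun n s _ a b => R n s a b) h1
  exact NCP.comap (κ := Fin 2) inferInstance
    (fun o : Option (Option Empty) => o.elim 1 (fun _ => 0)) h2

theorem al5_mem {ι : Type} (hι : Finite ι) (i j : ι) : NCP AS AB ι (fun _ s x => x j ∈ s.D (x i)) :=
  NCP.rel2 (R := fun n (s : AS n) a b => b ∈ s.D a) hι (NCP.base inferInstance AB.mem) i j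

/-- Job AL5. -/
theorem al_phiG : NCP AS AB (Fin 2) (fun _ s x => x 1 ∈ PhiG s.G s.m s.β s.D (x 0)) := by
  have h : NCP AS AB (Fin 2) (fun _ s x => x 1 ∈ s.D (x 0) ∨ Grel s.G s.m s.D s.β (x 0) (x 1)) :=
    NCP.or (NCP.base inferInstance AB.mem) al_grel
  exact al5_tc (R := fun n (s : AS n) a b => b ∈ s.D a ∨ Grel s.G s.m s.D s.β a b) h

theorem al_phihG : NCP AS AB (Fin 2) (fun _ s x => x 1 ∈ PhihG s.G s.m s.β s.D (x 0)) := by
  have hh : NCP AS AB (Fin 2) (fun _ s x => s.β ≤ (s.D (x 0)).ncard) :=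
    NCP.comap (κ := Fin 2) inferInstance (fun _ : Fin 1 => 0) al_heavy
  have h : NCP AS AB (Fin 2) (fun _ s x => x 1 ∈ s.D (x 0) ∨
      (s.β ≤ (s.D (x 0)).ncard ∧ Grel s.G s.m s.D s.β (x 0) (x 1))) :=
    NCP.or (NCP.base inferInstance AB.mem) (NCP.and hh al_grel)
  exact al5_tc (R := fun n (s : AS n) a b => b ∈ s.D a ∨ (s.β ≤ (s.D a).ncard ∧ Grel s.G s.m s.D s.β a b)) h

/-- The input with another family. -/
def al5Set {n : ℕ} (s : AS n) (D : Fin n → Set (Fin n)) : AS n where
  G := s.G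
  m := s.m
  D := D
  β := s.β
  hβ := s.hβ

/-- Change of the family. -/
theorem al5_pull {Φ : ∀ n, AS n → Fin n → Set (Fin n)}
    (hΦ : NCP AS AB (Fin 2) (fun n s x => x 1 ∈ Φ n s (x 0))) {ι : Type} {F : RF AS ι}
    (hF : NCP AS AB ι F) : NCP AS AB ι (fun n s x => F n (al5Set s (Φ n s)) x) := by
  refine NCP.pull (fun n s => al5Set s (Φ n s)) ?_ hF
  intro ι' hι' P hP
  cases hP with
  | adj => exact NCP.base inferInstance AB.adj
  | mate => exact NCP.base inferInstance AB.mate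
  | mem => exact hΦ
  | beta => exact NCP.base inferInstance AB.beta

/-- Job AL5. (compose with `NCP.pull` along s ↦ {s with D := PhiG …}) -/
theorem al_psiG : NCP AS AB (Fin 2) (fun _ s x => x 1 ∈ PsiG s.G s.m s.β s.D (x 0)) := by
  have h1 := al5_pull (Φ := fun n (s : AS n) => PhiG s.G s.m s.β s.D) al_phiG al_phihG
  have h2 := al5_pull (Φ := fun n (s : AS n) => PhihG s.G s.m s.β (PhiG s.G s.m s.β s.D)) h1 al_phihG
  exact al5_pull (Φ := fun n (s : AS n) => PhihG s.G s.m s.β (PhihG s.G s.m s.β (PhiG s.G s.m s.β s.D))) h2 al_phihG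

/-- Job AL5. One stage, as a map of the inputs. -/
def stgAS (n : ℕ) (s : AS n) : AS n where
  G := s.G
  m := s.m
  D := (stgG s.G s.m n (s.D, s.β)).1
  β := (stgG s.G s.m n (s.D, s.β)).2
  hβ := min_le_left _ _

/-- A fixed number. -/
theorem al5_num {S : ℕ → Type} {B : Readers S} (k : ℕ) : ∀ {ι : Type} (_ : Finite ι) (i : ι),
    NCP S B ι (fun _ _ x => (x i : ℕ) = k) := by
  induction k with
  | zero => intro ι hι i; exact NCP.zero hι i
  | succ k ih =>
    intro ι hι i
    refine NCP.congr (NCP.ex1 (R := fun _ _ x a => (a : ℕ) = k ∧ (x i : ℕ) = (a : ℕ) + 1) ?_) ?_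
    · exact NCP.and (ih inferInstance none) (NCP.succ inferInstance (some i) none)
    · intro n s x
      constructor
      · rintro ⟨a, h1, h2⟩
        omega
      · intro h
        have := (x i).isLt
        exact ⟨⟨k, by omega⟩, rfl, h⟩

/-- Division by five. -/
theorem al5_fifth {S : ℕ → Type} {B : Readers S} {ι : Type} (hι : Finite ι) (i j : ι) :
    NCP S B ι (fun _ _ x => (x i : ℕ) = (x j : ℕ) / 5) := by
  refine NCP.congr (NCP.ex1 (R := fun n _ x a => (a : ℕ) = 2 * (x i : ℕ) ∧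
    ∃ b : Fin n, (b : ℕ) = 2 * (a : ℕ) ∧ ∃ c : Fin n, (b : ℕ) + (x i : ℕ) = (c : ℕ) ∧
      ∃ r : Fin n, (c : ℕ) + (r : ℕ) = (x j : ℕ) ∧ ∃ k : Fin 5, (r : ℕ) = (k : ℕ)) ?_) ?_
  · refine NCP.and (NCP.dbl inferInstance none (some i)) ?_
    refine NCP.ex1 (R := fun n _ x b => (b : ℕ) = 2 * (x none : ℕ) ∧
      ∃ c : Fin n, (b : ℕ) + (x (some i) : ℕ) = (c : ℕ) ∧
      ∃ r : Fin n, (c : ℕ) + (r : ℕ) = (x (some j) : ℕ) ∧ ∃ k : Fin 5, (r : ℕ) = (k : ℕ)) ?_
    refine NCP.and (NCP.dbl inferInstance none (some none)) ?_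
    refine NCP.ex1 (R := fun n _ x c => (x none : ℕ) + (x (some (some i)) : ℕ) = (c : ℕ) ∧
      ∃ r : Fin n, (c : ℕ) + (r : ℕ) = (x (some (some j)) : ℕ) ∧ ∃ k : Fin 5, (r : ℕ) = (k : ℕ)) ?_
    refine NCP.and (NCP.add inferInstance (some none) (some (some (some i))) none) ?_
    refine NCP.ex1 (R := fun n _ x r => (x none : ℕ) + (r : ℕ) = (x (some (some (some j))) : ℕ) ∧
      ∃ k : Fin 5, (r : ℕ) = (k : ℕ)) ?_
    refine NCP.and (NCP.add inferInstance (some none) none (some (some (some (some j))))) ?_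
    exact NCP.exFin inferInstance (fun k => al5_num (k : ℕ) inferInstance none)
  · intro n s x
    constructor
    · rintro ⟨a, ha, b, hb, c, hc, r, hr, k, hk⟩
      have := k.isLt
      omega
    · intro h
      have hj := (x j).isLt
      refine ⟨⟨2 * (x i : ℕ), by omega⟩, rfl, ⟨2 * (2 * (x i : ℕ)), by omega⟩, rfl,
        ⟨2 * (2 * (x i : ℕ)) + (x i : ℕ), by omega⟩, rfl,
        ⟨(x j : ℕ) - (2 * (2 * (x i : ℕ)) + (x i : ℕ)), by omega⟩, ?_,
        ⟨(x j : ℕ) - (2 * (2 * (x i : ℕ)) + (x i : ℕ)), by omega⟩, rfl⟩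
      show 2 * (2 * (x i : ℕ)) + (x i : ℕ) + ((x j : ℕ) - (2 * (2 * (x i : ℕ)) + (x i : ℕ))) = (x j : ℕ)
      omega

/-- The next scale. -/
theorem al5_scale : NCP AS AB (Fin 1)
    (fun n s x => (x 0 : ℕ) = min (n - 1) (s.β + s.β / 5 + 1)) := by
  refine NCP.congr (NCP.ex1 (R := fun n s x b => (b : ℕ) = s.β ∧
    ∃ c : Fin n, (c : ℕ) = (b : ℕ) / 5 ∧
      ((∃ e : Fin n, (b : ℕ) + (c : ℕ) = (e : ℕ) ∧ (x 0 : ℕ) = (e : ℕ) + 1) ∨
        ((x 0 : ℕ) = n - 1 ∧ ¬ ∃ e : Fin n, (b : ℕ) + (c : ℕ) = (e : ℕ) ∧ e < x 0))) ?_) ?_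
  · refine NCP.and ?_ ?_
    · exact NCP.comap (κ := Option (Fin 1)) inferInstance (fun _ : Fin 1 => none)
        (NCP.base inferInstance AB.beta)
    refine NCP.ex1 (R := fun n s x c => (c : ℕ) = (x none : ℕ) / 5 ∧
      ((∃ e : Fin n, (x none : ℕ) + (c : ℕ) = (e : ℕ) ∧ (x (some 0) : ℕ) = (e : ℕ) + 1) ∨
        ((x (some 0) : ℕ) = n - 1 ∧
          ¬ ∃ e : Fin n, (x none : ℕ) + (c : ℕ) = (e : ℕ) ∧ e < x (some 0)))) ?_
    refine NCP.and (al5_fifth inferInstance none (some none)) ?_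
    refine NCP.or ?_ ?_
    · refine NCP.ex1 (R := fun n _ x e => (x (some none) : ℕ) + (x none : ℕ) = (e : ℕ) ∧
        (x (some (some 0)) : ℕ) = (e : ℕ) + 1) ?_
      exact NCP.and (NCP.add inferInstance (some (some none)) (some none) none)
        (NCP.succ inferInstance (some (some (some 0))) none)
    · refine NCP.and (NCP.top inferInstance (some (some 0))) (NCP.not ?_)
      refine NCP.ex1 (R := fun n _ x e => (x (some none) : ℕ) + (x none : ℕ) = (e : ℕ) ∧
        e < x (some (some 0))) ?_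
      exact NCP.and (NCP.add inferInstance (some (some none)) (some none) none)
        (NCP.lt inferInstance none (some (some (some 0))))
  · intro n s x
    have h0 := (x 0).isLt
    have hβ := s.hβ
    constructor
    · rintro ⟨b, hb, c, hc, h⟩
      have hbn := b.isLt
      rw [hb] at hc h
      rcases h with ⟨e, he, hx⟩ | ⟨hx, hne⟩
      · rw [hx, min_eq_right (by omega)]
        omega
      · rw [hx, min_eq_left]
        by_contra hlt
        apply hne
        refine ⟨⟨s.β + (c : ℕ), by omega⟩, rfl, ?_⟩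
        rw [Fin.lt_def]
        show s.β + (c : ℕ) < (x 0 : ℕ)
        omega
    · intro h
      refine ⟨⟨s.β, by omega⟩, rfl, ⟨s.β / 5, by omega⟩, rfl, ?_⟩
      show (∃ e : Fin n, s.β + s.β / 5 = (e : ℕ) ∧ (x 0 : ℕ) = (e : ℕ) + 1) ∨
        ((x 0 : ℕ) = n - 1 ∧ ¬ ∃ e : Fin n, s.β + s.β / 5 = (e : ℕ) ∧ e < x 0)
      rcases le_or_gt (n - 1) (s.β + s.β / 5) with hle | hgt
      · right
        rw [min_eq_left (by omega)] at h
        refine ⟨h, ?_⟩
        rintro ⟨e, he, hlt⟩
        rw [Fin.lt_def] at hlt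
        omega
      · left
        rw [min_eq_right (by omega)] at h
        exact ⟨⟨s.β + s.β / 5, by omega⟩, rfl, h⟩

/-- Job AL5. -/
theorem al_stg : ∀ (ι : Type) (_ : Finite ι) (P : RF AS ι), AB ι P → NCP AS AB ι (fun n s x => P n (stgAS n s) x) := by
  intro ι hι P hP
  cases hP with
  | adj => exact NCP.base inferInstance AB.adj
  | mate => exact NCP.base inferInstance AB.mate
  | mem =>
    have h1 := al5_pull (Φ := fun n (s : AS n) => PsiG s.G s.m s.β s.D) al_psiG al_psiG
    exact al5_pull (Φ := fun n (s : AS n) => PsiG s.G s.m s.β (PsiG s.G s.m s.β s.D)) h1 al_psiG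
  | beta => exact al5_scale

/-- Job AL1. The final test. -/
theorem al_test : NCP AS AB Empty (fun _ s _ => Test s.G s.m s.D) := by
  have h1 : NCP AS AB Empty (fun n s _ => ∀ x : Fin n, ¬ (x ∈ s.D x)) :=
    NCP.all1 (NCP.not (al1_mem (ι := Option Empty) inferInstance none none))
  have h2 : NCP AS AB Empty (fun n s _ => ∀ x : Fin n, ∀ y : Fin n, y ∈ s.D x →
      ∃ z : Fin n, s.m y = z ∧ z ∈ s.D x) :=
    NCP.all1 (NCP.all1 (NCP.imp
      (al1_mem (ι := Option (Option Empty)) inferInstance (some none) none)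
      (NCP.ex1 (NCP.and
        (al1_mate (ι := Option (Option (Option Empty))) inferInstance (some none) none)
        (al1_mem (ι := Option (Option (Option Empty))) inferInstance (some (some none)) none)))))
  have h3 : NCP AS AB Empty (fun n s _ => ∀ w : Fin n, ¬ TransGen (Delta s.G s.m s.D) w w) := by
    have h := NCP.tc1 (S := AS) (B := AB) (ι := Empty) inferInstance
      (Q := fun n s _ u v => Delta s.G s.m s.D u v)
      (al1_delta (ι := Option (Option Empty)) inferInstance (some none) none)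
    have h' := NCP.comap (κ := Option Empty) inferInstance
      (fun _ : Option (Option Empty) => (none : Option Empty)) h
    exact NCP.all1 (NCP.not h')
  refine (NCP.and h1 (NCP.and h2 h3)).congr fun n s x => ?_
  unfold Test
  simp only [exists_eq_left']

/-- Input: graph and map. -/
abbrev MS (n : ℕ) : Type := SimpleGraph (Fin n) × (Fin n → Fin n)

inductive MB : Readers MS
  | adj : MB (Fin 2) (fun _ s x => s.1.Adj (x 0) (x 1))
  | mate : MB (Fin 2) (fun _ s x => s.2 (x 0) = x 1)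

/-- The initial state. -/
def initAS (n : ℕ) (s : MS n) : AS n where
  G := s.1
  m := s.2
  D := fun _ => ∅
  β := min 1 (n - 1)
  hβ := min_le_right _ _

/-- encoding of a state by two relations -/
private def al6Enc {n : ℕ} (a : AS n) : RelF (Fin 2) Bool n := fun f x =>
  match f with
  | true => x 1 ∈ a.D (x 0)
  | false => (x 0 : ℕ) = a.β

open Classical in
/-- the scale encoded by a relation -/
private noncomputable def al6Beta {n : ℕ} (R : RelF (Fin 2) Bool n) : ℕ :=
  if h : ∃! b : Fin n, R false ![b, b] then (h.exists.choose : ℕ) else min 1 (n - 1)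

private theorem al6Beta_le {n : ℕ} (R : RelF (Fin 2) Bool n) : al6Beta R ≤ n - 1 := by
  unfold al6Beta
  split_ifs with h
  · have := (h.exists.choose).isLt
    omega
  · exact min_le_right _ _

/-- decoding -/
private noncomputable def al6Dec {n : ℕ} (s : MS n) (R : RelF (Fin 2) Bool n) : AS n where
  G := s.1
  m := s.2
  D := fun a => {b | R true ![a, b]}
  β := al6Beta R
  hβ := al6Beta_le R

private theorem al6Beta_iff {n : ℕ} (R : RelF (Fin 2) Bool n) (c : Fin n) :
    (c : ℕ) = al6Beta R ↔ ((R false ![c, c] ∧ ∀ b : Fin n, R false ![b, b] → b = c) ∨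
      ((¬ ∃ a : Fin n, R false ![a, a] ∧ ∀ b : Fin n, R false ![b, b] → b = a) ∧
        (c : ℕ) = min 1 (n - 1))) := by
  unfold al6Beta
  split_ifs with h
  · have h1 := h.exists.choose_spec
    constructor
    · intro hc
      have hc' : c = h.exists.choose := Fin.ext hc
      left
      rw [hc']
      exact ⟨h1, fun b hb => h.unique hb h1⟩
    · rintro (⟨h2, -⟩ | ⟨h2, -⟩)
      · rw [h.unique h2 h1]
      · exact absurd ⟨_, h1, fun b hb => h.unique hb h1⟩ h2
  · constructor
    · intro hc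
      exact Or.inr ⟨fun ⟨a, ha, hb⟩ => h ⟨a, ha, hb⟩, hc⟩
    · rintro (⟨h2, h3⟩ | ⟨-, h2⟩)
      · exact absurd ⟨c, h2, h3⟩ h
      · exact h2

private theorem al6Dec_enc {n : ℕ} (s : MS n) (a : AS n) (hG : a.G = s.1) (hm : a.m = s.2) :
    al6Dec s (al6Enc a) = a := by
  have hb : al6Beta (al6Enc a) = a.β := by
    have ha := a.hβ
    rcases Nat.eq_zero_or_pos n with h0 | h0
    · have h1 := al6Beta_le (al6Enc a)
      omega
    · have h2 : (⟨a.β, by omega⟩ : Fin n) = (⟨a.β, by omega⟩ : Fin n) := rfl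
      have h3 := (al6Beta_iff (al6Enc a) ⟨a.β, by omega⟩).2 (Or.inl ⟨rfl, fun b hb => Fin.ext hb⟩)
      exact h3.symm
  rcases a with ⟨G, m, D, β, hβ⟩
  simp only at hG hm hb
  subst hG hm
  unfold al6Dec
  congr 1

private theorem al6_inv (n : ℕ) (s : MS n) (k : ℕ) :
    ((stgAS n)^[k] (initAS n s)).G = s.1 ∧ ((stgAS n)^[k] (initAS n s)).m = s.2 ∧
    (((stgAS n)^[k] (initAS n s)).D, ((stgAS n)^[k] (initAS n s)).β) =
      (stgG s.1 s.2 n)^[k] (fun _ => ∅, min 1 (n - 1)) := by
  induction k with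
  | zero => exact ⟨rfl, rfl, rfl⟩
  | succ k ih =>
    obtain ⟨h1, h2, h3⟩ := ih
    rw [Function.iterate_succ_apply', Function.iterate_succ_apply', ← h3, ← h1, ← h2]
    exact ⟨rfl, rfl, rfl⟩

private theorem al6_iterate (n : ℕ) (s : MS n) (j : ℕ) :
    ((fun R : RelF (Fin 2) Bool n => al6Enc ((stgAS n)^[4] (al6Dec s R)))^[j] (al6Enc (initAS n s))) =
      al6Enc ((stgAS n)^[4 * j] (initAS n s)) := by
  induction j with
  | zero => rfl
  | succ j ih =>
    obtain ⟨h1, h2, -⟩ := al6_inv n s (4 * j)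
    rw [Function.iterate_succ_apply', ih, al6Dec_enc s _ h1 h2, ← Function.iterate_add_apply,
      show 4 + 4 * j = 4 * (j + 1) by ring]

/-- the basic relations of the decoded state -/
private theorem al6_dec (ι : Type) (hι : Finite ι) (P : RF AS ι) (hP : AB ι P) :
    NCP (fun n => MS n × RelF (Fin 2) Bool n) (Ext MB (Fin 2) Bool) ι
      (fun n s x => P n (al6Dec s.1 s.2) x) := by
  have hnew : ∀ (κ : Type) (_ : Finite κ) (i j : κ) (f : Bool),
      NCP (fun n => MS n × RelF (Fin 2) Bool n) (Ext MB (Fin 2) Bool) κ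
        (fun _ s x => s.2 f ![x i, x j]) := by
    intro κ hκ i j f
    have h := NCP.comap hκ ![i, j] (NCP.base (inferInstance : Finite (Fin 2))
      (Ext.new (S := MS) (B := MB) (κ := Fin 2) (Fl := Bool) f))
    refine h.congr fun n s x => ?_
    have : (fun k : Fin 2 => x (![i, j] k)) = ![x i, x j] := by
      funext k
      fin_cases k <;> rfl
    rw [this]
  cases hP with
  | adj => exact NCP.base hι (Ext.old MB.adj)
  | mate => exact NCP.base hι (Ext.old MB.mate)
  | mem => exact hnew (Fin 2) hι 0 1 true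
  | beta =>
    have hu : NCP (fun n => MS n × RelF (Fin 2) Bool n) (Ext MB (Fin 2) Bool) (Option (Fin 1))
        (fun n s z => s.2 false ![z none, z none] ∧ ∀ b : Fin n, s.2 false ![b, b] → b = z none) := by
      refine NCP.and (hnew _ inferInstance none none false) ?_
      exact NCP.all1 (R := fun n (s : MS n × RelF (Fin 2) Bool n) (z : Option (Fin 1) → Fin n) b =>
          s.2 false ![b, b] → b = z none)
        (NCP.imp (hnew _ inferInstance none none false) (NCP.eq inferInstance none (some none)))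
    have hu0 : NCP (fun n => MS n × RelF (Fin 2) Bool n) (Ext MB (Fin 2) Bool) (Fin 1)
        (fun n s x => s.2 false ![x 0, x 0] ∧ ∀ b : Fin n, s.2 false ![b, b] → b = x 0) := by
      refine NCP.and (hnew _ inferInstance 0 0 false) ?_
      exact NCP.all1 (R := fun n (s : MS n × RelF (Fin 2) Bool n) (x : Fin 1 → Fin n) b =>
          s.2 false ![b, b] → b = x 0)
        (NCP.imp (hnew _ inferInstance none none false) (NCP.eq inferInstance none (some 0)))
    have hmin : NCP (fun n => MS n × RelF (Fin 2) Bool n) (Ext MB (Fin 2) Bool) (Fin 1)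
        (fun n s x => (x 0 : ℕ) = min 1 (n - 1)) := by
      have h1 : NCP (fun n => MS n × RelF (Fin 2) Bool n) (Ext MB (Fin 2) Bool) (Fin 1)
          (fun n s x => (x 0 : ℕ) = 1 ∨ ((x 0 : ℕ) = 0 ∧ (x 0 : ℕ) = n - 1)) :=
        NCP.or (NCP.one inferInstance 0) (NCP.and (NCP.zero inferInstance 0) (NCP.top inferInstance 0))
      refine h1.congr fun n s x => ?_
      have := (x 0).isLt
      omega
    have h := NCP.or hu0 (NCP.and (NCP.not (NCP.ex1
      (R := fun n (s : MS n × RelF (Fin 2) Bool n) (x : Fin 1 → Fin n) a => s.2 false ![a, a] ∧ ∀ b : Fin n, s.2 false ![b, b] → b = a) hu)) hmin)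
    exact h.congr fun n s x => (al6Beta_iff s.2 (x 0)).symm

private theorem al6_stg4 {ι : Type} {F : RF AS ι} (h : NCP AS AB ι F) :
    NCP AS AB ι (fun n s x => F n ((stgAS n)^[4] s) x) :=
  (((h.pull stgAS al_stg).pull stgAS al_stg).pull stgAS al_stg).pull stgAS al_stg

private theorem al6_enc (f : Bool) : NCP AS AB (Fin 2) (fun _ s x => al6Enc s f x) := by
  cases f with
  | true => exact NCP.base inferInstance AB.mem
  | false => exact NCP.comap inferInstance (fun _ : Fin 1 => (0 : Fin 2)) (NCP.base inferInstance AB.beta)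

private theorem al6_init (f : Bool) : NCP MS MB (Fin 2) (fun n s x => al6Enc (initAS n s) f x) := by
  cases f with
  | true =>
    refine (NCP.const inferInstance False).congr fun n s x => ?_
    exact ⟨fun h => h.elim, fun h => h⟩
  | false =>
    have h1 : NCP MS MB (Fin 2) (fun n s x => (x 0 : ℕ) = 1 ∨ ((x 0 : ℕ) = 0 ∧ (x 0 : ℕ) = n - 1)) :=
      NCP.or (NCP.one inferInstance 0) (NCP.and (NCP.zero inferInstance 0) (NCP.top inferInstance 0))
    refine h1.congr fun n s x => ?_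
    have := (x 0).isLt
    change _ ↔ (x 0 : ℕ) = min 1 (n - 1)
    omega

private theorem al6_res (f : Bool) : NCP MS MB (Fin 2)
    (fun n s x => al6Enc ((stgAS n)^[4 * Nat.size (n - 1)] (initAS n s)) f x) := by
  have hF : ∀ f, NCP (fun n => MS n × RelF (Fin 2) Bool n) (Ext MB (Fin 2) Bool) (Fin 2)
      (fun n s x => al6Enc ((stgAS n)^[4] (al6Dec s.1 s.2)) f x) := fun f =>
    NCP.pull (fun n (s : MS n × RelF (Fin 2) Bool n) => al6Dec s.1 s.2) al6_dec (al6_stg4 (al6_enc f))
  have h := NCP.iter (S := MS) (B := MB) (κ := Fin 2) (Fl := Bool) inferInstance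
    (H := fun f n s x => al6Enc (initAS n s) f x)
    (F := fun f n s x => al6Enc ((stgAS n)^[4] (al6Dec s.1 s.2)) f x)
    al6_init hF f
  refine h.congr fun n s x => ?_
  have h2 := al6_iterate n s (Nat.size (n - 1))
  exact iff_of_eq (congrFun (congrFun h2 f) x)

/-- Job AL6. After `4 * Nat.size (n - 1)` stages.
Proof: `NCP.iter` with κ = Fin 2, Fl = Bool: the relation true encodes D (x 1 ∈ D (x 0)), the relation false encodes β ((x 0 : ℕ) = β). Decoding: D from true; β = the unique b with R false ![b,b] if there is exactly one, otherwise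
min 1 (n - 1). The body is the encoding of `stgAS` applied four times to the decoded state (`NCP.pull` along the decoding, `al_stg`). Decoding an encoded state gives it back. -/
theorem al_iter : ∀ (ι : Type) (_ : Finite ι) (P : RF AS ι), AB ι P →
    NCP MS MB ι (fun n s x => P n ((stgAS n)^[4 * Nat.size (n - 1)] (initAS n s)) x) := by
  intro ι hι P hP
  cases hP with
  | adj =>
    refine (NCP.base hι MB.adj).congr fun n s x => ?_
    show _ ↔ ((stgAS n)^[4 * Nat.size (n - 1)] (initAS n s)).G.Adj (x 0) (x 1)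
    rw [(al6_inv n s _).1]
  | mate =>
    refine (NCP.base hι MB.mate).congr fun n s x => ?_
    show _ ↔ ((stgAS n)^[4 * Nat.size (n - 1)] (initAS n s)).m (x 0) = x 1
    rw [(al6_inv n s _).2.1]
  | mem => exact al6_res true
  | beta => exact NCP.comap hι (fun _ : Fin 2 => (0 : Fin 1)) (al6_res false)

/-- Job AL6. The whole test for a given map. -/
theorem al_main : NCP MS MB Empty (fun n s _ => Test s.1 s.2
    ((stgG s.1 s.2 n)^[4 * Nat.size (n - 1)] (fun _ => ∅, min 1 (n - 1))).1) := by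
  have h := al_test.pull (fun n s => (stgAS n)^[4 * Nat.size (n - 1)] (initAS n s)) al_iter
  refine h.congr fun n s x => ?_
  obtain ⟨h1, h2, h3⟩ := al6_inv n s (4 * Nat.size (n - 1))
  rw [h1, h2, ← h3]

end Pool.Agent.UPM
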