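import Pool.Agent.Lib.MP_0087d5_lc.UPM.Red

/-!
# Costs of walks

Jobs COST1, COST2. See notes section 5.
-/

namespace Pool.Agent.UPM

open Relation

variable {V : Type*} {G : SimpleGraph V} {m : V → V} {D : V → Set V}

/-- Proof: the matching edge of z is disjoint from D a and D z', the one of a is disjoint from D a and D z'; both costs are 2 + |D a ∪ D z'|. -/
theorem cost_mirror [Finite V] (hm : IsMate G m) (hD : Fam G m D) {a z : V} (h : Arc G m D a z) :
    cost m D (m z) (m a) = cost m D a z := by
  obtain ⟨_, _, h3, h4, _⟩ := h
  have va := hD.valid a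
  have vz := hD.valid (m z)
  have e1 : J m D a z = (D a ∪ D (m z)) ∪ {z, m z} := by
    unfold J; rw [Set.union_assoc]
  have e2 : J m D (m z) (m a) = (D a ∪ D (m z)) ∪ {m a, a} := by
    unfold J; rw [hm.invol a, ← Set.union_assoc, Set.union_comm (D (m z)) (D a)]
  have n1 : z ∉ D a := fun hz => h4 (va.closed z hz)
  have n2 : m z ∉ D a := h4
  have n3 : m z ∉ D (m z) := vz.nmem
  have n4 : z ∉ D (m z) := fun hz => n3 (vz.closed z hz)
  have k1 : a ∉ D a := va.nmem
  have k2 : m a ∉ D a := fun hz => k1 (by have := va.closed _ hz; rwa [hm.invol] at this)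
  have k3 : a ∉ D (m z) := h3
  have k4 : m a ∉ D (m z) := fun hz => k3 (by have := vz.closed _ hz; rwa [hm.invol] at this)
  unfold cost
  rw [e1, e2]
  have d1 : Disjoint (D a ∪ D (m z)) {z, m z} := by
    rw [Set.disjoint_right]
    intro x hx
    rcases hx with rfl | hx
    · rintro (h | h) <;> contradiction
    · rw [Set.mem_singleton_iff] at hx
      subst hx
      rintro (h | h) <;> contradiction
  have d2 : Disjoint (D a ∪ D (m z)) {m a, a} := by
    rw [Set.disjoint_right]
    intro x hx
    rcases hx with rfl | hx
    · rintro (h | h) <;> contradiction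
    · rw [Set.mem_singleton_iff] at hx
      subst hx
      rintro (h | h) <;> contradiction
  rw [Set.ncard_union_eq d1 (Set.toFinite _) (Set.toFinite _),
    Set.ncard_union_eq d2 (Set.toFinite _) (Set.toFinite _),
    Set.ncard_pair (hm.ne z).symm, Set.ncard_pair (hm.ne a)]

theorem W_cons_cons (a z : V) (L : List V) : W m D (a :: z :: L) = cost m D a z + W m D (z :: L) := rfl

/-- Cutting a walk at a vertex. -/
theorem W_split (P Q : List V) (z : V) : W m D (P ++ z :: Q) = W m D (P ++ [z]) + W m D (z :: Q) := by
  induction P with
  | nil => simp [W]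
  | cons a P ih =>
    cases P with
    | nil => simp [W]
    | cons b P =>
      simp only [List.cons_append, W_cons_cons] at ih ⊢
      rw [ih]; ring

/-- Cutting a walk at an arc. -/
theorem W_append_le (P Q : List V) : W m D P + W m D Q ≤ W m D (P ++ Q) := by
  induction P with
  | nil => simp [W]
  | cons a P ih =>
    cases P with
    | nil =>
      cases Q with
      | nil => simp [W]
      | cons q Q =>
        simp only [List.cons_append, List.nil_append, W_cons_cons]
        have : W m D [a] = 0 := rfl
        omega
    | cons b P =>
      simp only [List.cons_append, W_cons_cons] at ih ⊢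
      omega

/-- Cutting a walk at an arc, exact form. -/
theorem W_append {P Q : List V} (hP : P ≠ []) (hQ : Q ≠ []) :
    W m D (P ++ Q) = W m D P + cost m D (P.getLast hP) (Q.head hQ) + W m D Q := by
  induction P with
  | nil => exact absurd rfl hP
  | cons a P ih =>
    cases P with
    | nil =>
      cases Q with
      | nil => exact absurd rfl hQ
      | cons q Q =>
        simp only [List.cons_append, List.nil_append, W_cons_cons, List.getLast_singleton, List.head_cons]
        have : W m D [a] = 0 := rfl
        omega
    | cons b P =>
      have ih' := ih (by simp)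
      simp only [List.cons_append, W_cons_cons] at ih' ⊢
      rw [List.getLast_cons (by simp : b :: P ≠ [])]
      omega

theorem W_mir [Finite V] (hm : IsMate G m) (hD : Fam G m D) {L : List V} (h : List.IsChain (Arc G m D) L) :
    W m D (mir m L) = W m D L := by
  induction L with
  | nil => rfl
  | cons a L ih =>
    cases L with
    | nil => rfl
    | cons z L =>
      have h1 : Arc G m D a z := by
        rw [List.isChain_cons_cons] at h; exact h.1
      have h2 : List.IsChain (Arc G m D) (z :: L) := by
        rw [List.isChain_cons_cons] at h; exact h.2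
      have ih' := ih h2
      rw [mir_cons, mir_cons] at *
      rw [List.append_assoc]
      show W m D (mir m L ++ m z :: [m a]) = _
      rw [W_split, ih', W_cons_cons, W_cons_cons, cost_mirror hm hD h1]
      have : W m D [m a] = 0 := rfl
      omega

private theorem cost1_cover [Finite V] (e : V) (L : List V) : ∀ a : V,
    ((D a ∪ ⋃ z ∈ L, EX m D z) ∪ (D (m e) ∪ {e, m e})).ncard ≤ W m D (a :: (L ++ [e])) := by
  induction L with
  | nil =>
    intro a
    simp only [List.not_mem_nil, Set.iUnion_of_empty, Set.iUnion_empty, Set.union_empty, List.nil_append]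
    show _ ≤ cost m D a e + 0
    exact le_of_eq rfl
  | cons z L ih =>
    intro a
    have h := ih z
    have hsub : ((D a ∪ ⋃ y ∈ z :: L, EX m D y) ∪ (D (m e) ∪ {e, m e})) ⊆
        J m D a z ∪ ((D z ∪ ⋃ y ∈ L, EX m D y) ∪ (D (m e) ∪ {e, m e})) := by
      intro x hx
      rcases hx with (hx | hx) | hx
      · exact Or.inl (Or.inl hx)
      · simp only [List.mem_cons, Set.mem_iUnion] at hx
        obtain ⟨y, hy, hxy⟩ := hx
        rcases hy with rfl | hy
        · rcases hxy with (hxy | hxy) | hxy
          · exact Or.inl (Or.inr (Or.inr hxy))
          · exact Or.inr (Or.inl (Or.inl hxy))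
          · exact Or.inl (Or.inr (Or.inl hxy))
        · refine Or.inr (Or.inl (Or.inr ?_))
          simp only [Set.mem_iUnion]
          exact ⟨y, hy, hxy⟩
      · exact Or.inr (Or.inr hx)
    calc _ ≤ (J m D a z ∪ ((D z ∪ ⋃ y ∈ L, EX m D y) ∪ (D (m e) ∪ {e, m e}))).ncard :=
          Set.ncard_le_ncard hsub (Set.toFinite _)
      _ ≤ (J m D a z).ncard + ((D z ∪ ⋃ y ∈ L, EX m D y) ∪ (D (m e) ∪ {e, m e})).ncard :=
          Set.ncard_union_le _ _
      _ ≤ cost m D a z + W m D (z :: (L ++ [e])) := Nat.add_le_add le_rfl h
      _ = _ := rfl

/-- The cost bounds the size of what the walk covers (union bound): the span of a closed walk and the matching edge of the base.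
Proof: s, s' are not in XC (`valid_XC`), and XC ∪ {s, s'} is contained in the union of the sets J of the arcs. -/
theorem card_XC_le [Finite V] (hm : IsMate G m) (hU : NoAlt G m) (hD : Fam G m D) {s : V} {L : List V}
    (h : PCW G m D s L) : (XC m D s L).ncard + 2 ≤ W m D (s :: (L ++ [m s])) := by
  have hv := (h.valid hm hU hD).1
  have h1 := cost1_cover (m := m) (D := D) (m s) L s
  have hs : s ∉ XC m D s L := hv.nmem
  have hs' : m s ∉ XC m D s L := fun hx => hs (by have := hv.closed _ hx; rwa [hm.invol] at this)
  have hd : Disjoint (XC m D s L) {m s, s} := by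
    rw [Set.disjoint_right]
    intro x hx
    rcases hx with rfl | hx
    · exact hs'
    · rw [Set.mem_singleton_iff] at hx
      subst hx; exact hs
  have h2 : (XC m D s L ∪ {m s, s}).ncard = (XC m D s L).ncard + 2 := by
    rw [Set.ncard_union_eq hd (Set.toFinite _) (Set.toFinite _), Set.ncard_pair (hm.ne s)]
  rw [← h2]
  refine le_trans (Set.ncard_le_ncard ?_ (Set.toFinite _)) h1
  intro x hx
  rcases hx with hx | hx
  · exact Or.inl hx
  · right; right
    rw [hm.invol]; exact hx

private theorem cost2_not_reg {L : List V} (h : ¬ Reg m L) :
    ∃ (A : List V) (a : V) (B : List V) (b : V) (C : List V), L = A ++ a :: (B ++ b :: C) ∧ (b = a ∨ b = m a) := by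
  induction L with
  | nil => exact absurd List.Pairwise.nil h
  | cons c L ih =>
    by_cases h1 : Reg m L
    · have h2 : ¬ ∀ b ∈ L, b ≠ c ∧ b ≠ m c := fun h2 => h (List.Pairwise.cons h2 h1)
      have h3 : ∃ b ∈ L, b = c ∨ b = m c := by
        by_contra h3
        apply h2
        intro b hb
        constructor
        · intro h4
          exact h3 ⟨b, hb, Or.inl h4⟩
        · intro h4
          exact h3 ⟨b, hb, Or.inr h4⟩
      obtain ⟨b, hb, hbc⟩ := h3
      obtain ⟨B, C, hBC⟩ := List.append_of_mem hb
      exact ⟨[], c, B, b, C, by rw [hBC]; rfl, hbc⟩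
    · obtain ⟨A, a, B, b, C, hdec, hab⟩ := ih h1
      exact ⟨c :: A, a, B, b, C, by rw [hdec]; rfl, hab⟩

private theorem cost2_not_loop (hm : IsMate G m) (a : V) : ¬ List.IsChain (Arc G m D) (a :: ([] ++ [a])) := by
  intro h
  have h1 : Arc G m D a a := by
    simpa using h
  exact h1.2.1 (hm.invol a).symm

/-- Job COST2. In a family complete up to size β every closed walk (not necessarily regular) costs at least β + 2.
Proof: strong induction on the length of L. If s :: L is regular: XC is valid at s (`valid_XC`), closed under D, contains D s and not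
contained in D s, so |XC| ≥ β by completeness, and `card_XC_le`. Otherwise two members of s :: L have the same matching edge:
z_i = z_j: cut the part between them out; z_j = z_i': the part from z_i to z_j is a closed walk at z_i, shorter; in both cases (also for s = z_0)
the induction hypothesis and monotonicity of W under cutting (each cut only removes costs; when the part between equal vertices is removed no new arc appears). -/
theorem closed_cost [Finite V] (hm : IsMate G m) (hU : NoAlt G m) (hD : Fam G m D) {β : ℕ} (hc : Clsd G m β D) {s : V} {L : List V}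
    (h : List.IsChain (Arc G m D) (s :: (L ++ [m s]))) : β + 2 ≤ W m D (s :: (L ++ [m s])) := by
  suffices H : ∀ n : ℕ, ∀ (s : V) (L : List V), L.length ≤ n → List.IsChain (Arc G m D) (s :: (L ++ [m s])) →
      β + 2 ≤ W m D (s :: (L ++ [m s])) from H L.length s L le_rfl h
  intro n
  induction n with
  | zero =>
    intro s L hlen hch
    have hL := ne_nil_of_chain_arc hm hch
    exact absurd (List.length_eq_zero_iff.1 (Nat.le_zero.1 hlen)) hL
  | succ n ih =>
    intro s L hlen hch
    have hL := ne_nil_of_chain_arc hm hch
    by_cases hreg : Reg m (s :: L)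
    · have hP : PCW G m D s L := ⟨hL, hch, hreg⟩
      have hV := hP.valid hm hU hD
      have hcard := card_XC_le hm hU hD hP
      have hge : β ≤ (XC m D s L).ncard := by
        by_contra hlt
        apply hV.2.1
        refine hc s _ hV.1 ?_ ?_ (lt_of_not_ge hlt)
        · intro y hy
          rcases hy with hy | hy
          · exact (hD.trans s y hy).trans Set.subset_union_left
          · obtain ⟨z, hz, hyz⟩ := Set.mem_iUnion₂.1 hy
            refine Set.Subset.trans ?_ (Set.subset_union_of_subset_right (Set.subset_iUnion₂ z hz) _)
            rcases hyz with (hyz | hyz) | hyz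
            · rcases hyz with rfl | hyz
              · exact fun t ht => Or.inl (Or.inr ht)
              · rw [Set.mem_singleton_iff] at hyz
                subst hyz
                exact fun t ht => Or.inr ht
            · exact fun t ht => Or.inl (Or.inr (hD.trans z y hyz ht))
            · exact fun t ht => Or.inr (hD.trans (m z) y hyz ht)
        · exact Set.subset_union_left
      omega
    · obtain ⟨A, a, B, b, C, hdec, hab⟩ := cost2_not_reg hreg
      have hlen2 := congrArg List.length hdec
      simp only [List.length_cons, List.length_append] at hlen2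
      have hfull : s :: (L ++ [m s]) = A ++ a :: (B ++ b :: (C ++ [m s])) := by
        have : s :: (L ++ [m s]) = (s :: L) ++ [m s] := rfl
        rw [this, hdec]
        simp
      have hch' := hch
      rw [hfull] at hch' ⊢
      rw [List.isChain_split] at hch'
      have hch2 : List.IsChain (Arc G m D) ((a :: B) ++ b :: (C ++ [m s])) := by
        simpa using hch'.2
      rw [List.isChain_split] at hch2
      have hW1 : W m D (A ++ a :: (B ++ b :: (C ++ [m s]))) = W m D (A ++ [a]) +
          (W m D ((a :: B) ++ [b]) + W m D (b :: (C ++ [m s]))) := by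
        rw [W_split A, ← W_split (a :: B)]
        simp
      rcases hab with rfl | rfl
      · -- equal vertices: cut
        cases A with
        | nil =>
          have hs : s = b := by
            have := congrArg List.head? hdec
            simpa using this
          subst hs
          have := ih s C (by simp at hlen2; omega) hch2.2
          rw [hW1]
          omega
        | cons s' A' =>
          have hs : s = s' := by
            have := congrArg List.head? hdec
            simpa using this
          subst hs
          have hc3 : List.IsChain (Arc G m D) ((s :: A') ++ b :: (C ++ [m s])) :=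
            List.isChain_split.2 ⟨hch'.1, hch2.2⟩
          have h4 := ih s (A' ++ b :: C) (by simp at hlen2 ⊢; omega) (by simpa using hc3)
          have h5 : W m D (s :: ((A' ++ b :: C) ++ [m s])) = W m D ((s :: A') ++ [b]) + W m D (b :: (C ++ [m s])) := by
            rw [← W_split (s :: A')]
            simp
          rw [hW1]
          omega
      · have h4 := ih a B (by omega) (by simpa using hch2.1)
        have h5 : W m D (a :: (B ++ [m a])) = W m D ((a :: B) ++ [m a]) := by simp
        rw [hW1]
        omega

/-- Job COST2. Directed closed walks cost at least 2β + 4.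
Proof: strong induction on the length. If two members are equal, cut. By `gc` the members do not all have distinct matching edges (L = [] is impossible since Arc a a is false),
so some z_j = z_i'; rotate so that z_i comes first (the cost is invariant); the parts z_i → … → z_j and z_j → … → z_i are closed walks at z_i and z_j, each costs at least β + 2. -/
theorem cycle_cost [Finite V] (hm : IsMate G m) (hU : NoAlt G m) (hD : Fam G m D) {β : ℕ} (hc : Clsd G m β D) {a : V} {L : List V}
    (h : List.IsChain (Arc G m D) (a :: (L ++ [a]))) : 2 * β + 4 ≤ W m D (a :: (L ++ [a])) := by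
  suffices H : ∀ n : ℕ, ∀ (a : V) (L : List V), L.length ≤ n → List.IsChain (Arc G m D) (a :: (L ++ [a])) →
      2 * β + 4 ≤ W m D (a :: (L ++ [a])) from H L.length a L le_rfl h
  intro n
  induction n with
  | zero =>
    intro a L hlen hch
    have hL : L = [] := List.length_eq_zero_iff.1 (Nat.le_zero.1 hlen)
    subst hL
    exact absurd hch (cost2_not_loop hm a)
  | succ n ih =>
    intro a L hlen hch
    by_cases hreg : Reg m (a :: L)
    · exfalso
      have hL : L ≠ [] := by
        rintro rfl
        exact cost2_not_loop hm a hch
      exact gc hm hU hD hL (hch.imp fun _ _ h => h.tarc) hreg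
    · obtain ⟨A, x, B, b, C, hdec, hab⟩ := cost2_not_reg hreg
      have hlen2 := congrArg List.length hdec
      simp only [List.length_cons, List.length_append] at hlen2
      have hfull : a :: (L ++ [a]) = A ++ x :: (B ++ b :: (C ++ [a])) := by
        have : a :: (L ++ [a]) = (a :: L) ++ [a] := rfl
        rw [this, hdec]
        simp
      have hch' := hch
      rw [hfull] at hch' ⊢
      rw [List.isChain_split] at hch'
      have hch2 : List.IsChain (Arc G m D) ((x :: B) ++ b :: (C ++ [a])) := by
        simpa using hch'.2
      rw [List.isChain_split] at hch2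
      have hW1 : W m D (A ++ x :: (B ++ b :: (C ++ [a]))) = W m D (A ++ [x]) +
          (W m D ((x :: B) ++ [b]) + W m D (b :: (C ++ [a]))) := by
        rw [W_split A, ← W_split (x :: B)]
        simp
      rcases hab with rfl | rfl
      · have h4 := ih b B (by omega) (by simpa using hch2.1)
        have h5 : W m D (b :: (B ++ [b])) = W m D ((b :: B) ++ [b]) := by simp
        rw [hW1]
        omega
      · have h4 := closed_cost hm hU hD hc (s := x) (L := B) (by simpa using hch2.1)
        have h5 : W m D (x :: (B ++ [m x])) = W m D ((x :: B) ++ [m x]) := by simp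
        cases A with
        | nil =>
          have hs : a = x := by
            have := congrArg List.head? hdec
            simpa using this
          subst hs
          have h6 := closed_cost hm hU hD hc (s := m a) (L := C) (by rw [hm.invol]; exact hch2.2)
          rw [hm.invol] at h6
          rw [hW1]
          omega
        | cons a' A' =>
          have hs : a = a' := by
            have := congrArg List.head? hdec
            simpa using this
          subst hs
          have hc3 : List.IsChain (Arc G m D) ((m x :: C) ++ a :: (A' ++ [x])) := by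
            refine List.isChain_split.2 ⟨?_, ?_⟩
            · simpa using hch2.2
            · simpa using hch'.1
          have h6 := closed_cost hm hU hD hc (s := m x) (L := C ++ a :: A') (by
            rw [hm.invol]
            simpa using hc3)
          have h7 : W m D (m x :: ((C ++ a :: A') ++ [m (m x)])) = W m D ((m x :: C) ++ [a]) + W m D (a :: (A' ++ [x])) := by
            rw [hm.invol, ← W_split (m x :: C)]
            simp
          have h8 : W m D ((m x :: C) ++ [a]) = W m D (m x :: (C ++ [a])) := by simp
          have h9 : W m D (a :: (A' ++ [x])) = W m D ((a :: A') ++ [x]) := by simp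
          rw [hW1]
          omega

private theorem cost1_split {β : ℕ} (R : List V) : ∀ P : List V, P ≠ [] → W m D P ≤ β →
    W m D (P ++ R) ≤ 2 * β + 1 → ∃ P' R', P ++ R = P' ++ R' ∧ P' ≠ [] ∧ W m D P' ≤ β ∧ W m D R' ≤ β := by
  induction R with
  | nil =>
    intro P h1 h2 _
    exact ⟨P, [], rfl, h1, h2, Nat.zero_le _⟩
  | cons z R ih =>
    intro P h1 h2 h3
    by_cases h : W m D (P ++ [z]) ≤ β
    · have he : P ++ z :: R = (P ++ [z]) ++ R := by simp
      rw [he] at h3 ⊢
      exact ih (P ++ [z]) (by simp) h h3
    · refine ⟨P, z :: R, rfl, h1, h2, ?_⟩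
      rw [W_split] at h3
      omega

/-- Job COST1. A walk of total cost at most 2β + 1 can be cut at an arc into two walks of cost at most β. -/
theorem split_walk {β : ℕ} {L : List V} (hL : L ≠ []) (hW : W m D L ≤ 2 * β + 1) :
    ∃ P R, L = P ++ R ∧ P ≠ [] ∧ W m D P ≤ β ∧ W m D R ≤ β := by
  cases L with
  | nil => exact absurd rfl hL
  | cons a L =>
    obtain ⟨P, R, h1, h2, h3, h4⟩ := cost1_split (m := m) (D := D) (β := β) L [a] (by simp) (Nat.zero_le _) hW
    exact ⟨P, R, h1, h2, h3, h4⟩

theorem PCW.fnd {β : ℕ} {x : V} {L : List V} (h : PCW G m D x L) (hW : W m D L ≤ 2 * β + 1) : Fnd G m D β x L :=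
  ⟨h, split_walk h.1 hW⟩

theorem Fnd.mirror [Finite V] (hm : IsMate G m) (hD : Fam G m D) {β : ℕ} {x : V} {L : List V} (h : Fnd G m D β x L) :
    Fnd G m D β x (mir m L) := by
  obtain ⟨hp, P, R, hL, hP, hWP, hWR⟩ := h
  have hc : List.IsChain (Arc G m D) L := by
    have h1 := hp.2.1
    have h2 : List.IsChain (Arc G m D) (L ++ [m x]) := h1.tail
    exact (List.isChain_append.mp h2).1
  rw [hL, List.isChain_append] at hc
  refine ⟨hp.mirror hm, ?_⟩
  by_cases hR : R = []
  · subst hR
    refine ⟨mir m P, [], by rw [hL]; simp, mir_ne_nil.mpr hP, ?_, Nat.zero_le _⟩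
    rw [W_mir hm hD hc.1]; exact hWP
  · refine ⟨mir m R, mir m P, by rw [hL, mir_append], mir_ne_nil.mpr hR, ?_, ?_⟩
    · rw [W_mir hm hD hc.2.1]; exact hWR
    · rw [W_mir hm hD hc.1]; exact hWP

/-- Costs only depend on the regions of the members (for the first member the own region, for the last one the region of the mate). -/
theorem W_congr {D' : V → Set V} {L : List V} (h : ∀ z ∈ L, D z = D' z ∧ D (m z) = D' (m z)) : W m D L = W m D' L := by
  induction L with
  | nil => rfl
  | cons a L ih =>
    cases L with
    | nil => rfl
    | cons z L =>
      rw [W_cons_cons, W_cons_cons, ih (fun y hy => h y (List.mem_cons_of_mem _ hy))]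
      have h1 := (h a (by simp)).1
      have h2 := (h z (by simp)).2
      unfold cost J
      rw [h1, h2]

end Pool.Agent.UPM
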