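import Pool.Agent.Lib.MP_0087d5_lc.UPM.MinC

/-!
# The context of the stage theorem

Job CTX. See notes section 8.
-/

namespace Pool.Agent.UPM

open Relation

variable {V : Type*}

/-- `Y` is valid at `s`, of size at most `β + t`, closed under the final family `F`; `D₀` is the initial family, complete up to size `β`. -/
structure Ctx (G : SimpleGraph V) (m : V → V) (β t : ℕ) (D₀ F : V → Set V) (s : V) (Y : Set V) : Prop where
  mate : IsMate G m
  noalt : NoAlt G m
  fam₀ : Fam G m D₀
  clsd : Clsd G m β D₀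
  famF : Fam G m F
  validY : Valid G m s Y
  card : Y.ncard ≤ β + t
  sub : ∀ v ∈ insert s Y, F v ⊆ Y
  hβ : 1 ≤ β
  ht : 5 * t ≤ β + 1

/-- A family between the first full step and the final family. -/
structure Lvl (G : SimpleGraph V) (m : V → V) (β : ℕ) (D₀ F D : V → Set V) : Prop where
  fam : Fam G m D
  ge : ∀ x, Phi G m β D₀ x ⊆ D x
  le : ∀ x, D x ⊆ F x

variable [Finite V] {G : SimpleGraph V} {m : V → V} {β t : ℕ} {D₀ F D : V → Set V} {s : V} {Y : Set V}

theorem Lvl.sub (C : Ctx G m β t D₀ F s Y) (hD : Lvl G m β D₀ F D) {v : V} (hv : v ∈ insert s Y) : D v ⊆ Y :=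
  (hD.le v).trans (C.sub v hv)

theorem Lvl.phih (C : Ctx G m β t D₀ F s Y) (hD : Lvl G m β D₀ F D) (hle : ∀ x, Phih G m β D x ⊆ F x) :
    Lvl G m β D₀ F (Phih G m β D) where
  fam := fam_Phih C.mate C.noalt hD.fam
  ge x := (hD.ge x).trans (subset_Phih x)
  le := hle

theorem Ctx.t_lt (C : Ctx G m β t D₀ F s Y) : t < β := by
  have h1 := C.hβ
  have h2 := C.ht
  omega

theorem Ctx.mate_mem (C : Ctx G m β t D₀ F s Y) {v : V} (hv : v ∈ Y) : m v ∈ Y :=
  C.validY.closed v hv

private theorem ctx_zero_subset (hD : Lvl G m β D₀ F D) (x : V) : D₀ x ⊆ D x :=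
  (subset_Phi x).trans (hD.ge x)

/-- A light vertex of the context still has its initial region. Proof: `clsd` applied to D v. -/
theorem Lvl.light (C : Ctx G m β t D₀ F s Y) (hD : Lvl G m β D₀ F D) {v : V} (hv : v ∈ insert s Y) (hl : (D v).ncard < β) :
    D v = D₀ v := by
  apply Set.Subset.antisymm _ (ctx_zero_subset hD v)
  exact C.clsd v (D v) (hD.fam.valid v)
    (fun y hy => (ctx_zero_subset hD y).trans (hD.fam.trans v y hy)) (ctx_zero_subset hD v) hl

/-- Two heavy regions intersect (both lie in Y, and 2β > β + t), so the regions touch. -/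
theorem Lvl.heavy_touch (C : Ctx G m β t D₀ F s Y) (hD : Lvl G m β D₀ F D) {v w : V} (hv : v ∈ insert s Y) (hw : w ∈ insert s Y)
    (hhv : β ≤ (D v).ncard) (hhw : β ≤ (D w).ncard) : Touch G D v w := by
  have hne : (D v ∩ D w).Nonempty := by
    by_contra h
    rw [Set.not_nonempty_iff_eq_empty] at h
    have h1 := Set.ncard_union_eq (Set.disjoint_iff_inter_eq_empty.2 h) (Set.toFinite _)
      (Set.toFinite _)
    have h2 : (D v ∪ D w).ncard ≤ Y.ncard :=
      Set.ncard_le_ncard (Set.union_subset (Lvl.sub C hD hv) (Lvl.sub C hD hw)) (Set.toFinite _)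
    have h3 := C.card
    have h4 := C.t_lt
    omega
  obtain ⟨u, hu1, hu2⟩ := hne
  exact ⟨u, Set.mem_insert_of_mem _ hu1, u, Set.mem_insert_of_mem _ hu2, Or.inl rfl⟩

/-- The mass outside a heavy region is at most t. -/
theorem Lvl.outside (C : Ctx G m β t D₀ F s Y) (hD : Lvl G m β D₀ F D) {v : V} (hv : v ∈ insert s Y)
    (hhv : β ≤ (D v).ncard) {S : Set V} (hS : S ⊆ Y) (hdis : Disjoint S (D v)) : S.ncard ≤ t := by
  have h1 := Set.ncard_union_eq hdis (Set.toFinite _) (Set.toFinite _)
  have h2 : (S ∪ D v).ncard ≤ Y.ncard :=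
    Set.ncard_le_ncard (Set.union_subset hS (Lvl.sub C hD hv)) (Set.toFinite _)
  have h3 := C.card
  omega

/-- The mate of a heavy vertex is light. -/
theorem Lvl.heavy_mate (C : Ctx G m β t D₀ F s Y) (hD : Lvl G m β D₀ F D) {v : V} (hv : v ∈ Y)
    (hhv : β ≤ (D v).ncard) : (D (m v)).ncard < β := by
  have h1 := mates_disjoint C.mate C.noalt hD.fam v
  have h2 : Disjoint (D (m v)) (D v) :=
    (h1.mono (Set.subset_insert _ _) (Set.subset_insert _ _)).symm
  have h3 := Lvl.outside C hD (Set.mem_insert_of_mem _ hv) hhv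
    (Lvl.sub C hD (Set.mem_insert_of_mem _ (C.mate_mem hv))) h2
  exact h3.trans_lt C.t_lt

/-- Job CTX. There is no closed walk with light base all of whose nodes are light at both ends.
Proof: all the regions involved are initial ones (`Lvl.light`), so the arcs are arcs of D₀. Put N = {z ∈ Y | z, z' light}, closed; `exists_min_closed` for D₀ gives a proper closed walk L₀ of D₀
at some s₀ ∈ insert a N with W L₀ ≤ |XC| ≤ |Y| ≤ β + t ≤ 2β + 1, so `PCW.fnd` and `Fnd.subset_Phi` give XC ⊆ Phi D₀ s₀ ⊆ D s₀ = D₀ s₀,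
contradiction with `PCW.valid`. -/
theorem Lvl.no_light_closed (C : Ctx G m β t D₀ F s Y) (hD : Lvl G m β D₀ F D) {a : V} {L : List V} (ha : a ∈ insert s Y)
    (hla : (D a).ncard < β) (hL : ∀ z ∈ L, z ∈ Y ∧ (D z).ncard < β ∧ (D (m z)).ncard < β)
    (h : List.IsChain (Arc G m D) (a :: (L ++ [m a]))) : False := by
  have hinv := C.mate.invol
  -- the chain is a chain of the initial family
  have h0 : List.IsChain (Arc G m D₀) (a :: (L ++ [m a])) := by
    have hall : ∀ (L' : List V) (u : V), u ∈ insert s Y → (D u).ncard < β →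
        (∀ z ∈ L', z ∈ Y ∧ (D z).ncard < β ∧ (D (m z)).ncard < β) →
        List.IsChain (Arc G m D) (u :: (L' ++ [m a])) →
        List.IsChain (Arc G m D₀) (u :: (L' ++ [m a])) := by
      intro L'
      induction L' with
      | nil =>
        intro u hu hlu _ hch
        simp only [List.nil_append, List.isChain_cons_cons, List.isChain_singleton, and_true] at hch ⊢
        unfold Arc Sim Touch at hch ⊢
        rw [hinv a] at hch ⊢
        rw [Lvl.light C hD hu hlu, Lvl.light C hD ha hla] at hch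
        exact hch
      | cons z L' ih =>
        intro u hu hlu hL' hch
        rw [List.cons_append, List.isChain_cons_cons] at hch ⊢
        obtain ⟨hz1, hz2, hz3⟩ := hL' z List.mem_cons_self
        refine ⟨?_, ih z (Set.mem_insert_of_mem _ hz1) hz2
          (fun y hy => hL' y (List.mem_cons_of_mem _ hy)) hch.2⟩
        have h1 := hch.1
        unfold Arc Sim Touch at h1 ⊢
        rw [Lvl.light C hD hu hlu,
          Lvl.light C hD (Set.mem_insert_of_mem _ (C.mate_mem hz1)) hz3] at h1
        exact h1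
    exact hall L a ha hla hL h
  let N : Set V := {z | z ∈ Y ∧ (D z).ncard < β ∧ (D (m z)).ncard < β}
  have hN : ∀ z ∈ N, m z ∈ N := by
    rintro z ⟨h1, h2, h3⟩
    refine ⟨C.mate_mem h1, h3, ?_⟩
    rw [hinv]
    exact h2
  obtain ⟨s₀, L₀, hs₀, hL₀, hpcw, hW⟩ := exists_min_closed C.mate C.noalt C.fam₀ hN
    (Set.mem_insert a N) (fun z hz => hL z hz) h0
  have hs₀' : s₀ ∈ insert s Y ∧ (D s₀).ncard < β := by
    rcases hs₀ with rfl | h1
    · exact ⟨ha, hla⟩
    · exact ⟨Set.mem_insert_of_mem _ h1.1, h1.2.1⟩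
  have hsub0 : ∀ u ∈ insert s Y, D₀ u ⊆ Y := fun u hu =>
    (ctx_zero_subset hD u).trans (Lvl.sub C hD hu)
  have hXC : XC m D₀ s₀ L₀ ⊆ Y := by
    unfold XC
    apply Set.union_subset (hsub0 s₀ hs₀'.1)
    apply Set.iUnion₂_subset
    intro z hz
    have hzY : z ∈ Y := (hL₀ z hz).1
    have hmzY : m z ∈ Y := C.mate_mem hzY
    unfold EX
    apply Set.union_subset (Set.union_subset _ (hsub0 z (Set.mem_insert_of_mem _ hzY)))
      (hsub0 (m z) (Set.mem_insert_of_mem _ hmzY))
    rintro x (rfl | rfl)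
    · exact hzY
    · exact hmzY
  have hcard : (XC m D₀ s₀ L₀).ncard ≤ Y.ncard := Set.ncard_le_ncard hXC (Set.toFinite _)
  have hWb : W m D₀ L₀ ≤ 2 * β + 1 := by
    have h3 := C.card
    have h4 := C.t_lt
    omega
  have hfnd := hpcw.fnd hWb
  have hsubset := (Fnd.subset_Phi C.mate hfnd).trans (hD.ge s₀)
  rw [Lvl.light C hD hs₀'.1 hs₀'.2] at hsubset
  exact (PCW.valid C.mate C.noalt C.fam₀ hpcw).2.1 hsubset

/-- A light start does not touch the end of a regular walk all of whose nodes are light at both ends (`touch_initial`, `Lvl.no_light_closed`). -/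
theorem Lvl.not_touch (C : Ctx G m β t D₀ F s Y) (hD : Lvl G m β D₀ F D) {a : V} {L : List V} (ha : a ∈ insert s Y)
    (hla : (D a).ncard < β) (hL : ∀ z ∈ L, z ∈ Y ∧ (D z).ncard < β ∧ (D (m z)).ncard < β) (hne : L ≠ [])
    (h : List.IsChain (Arc G m D) (a :: L)) (hreg : Reg m (a :: L)) : ¬ Touch G D a (L.getLast hne) := by
  intro ht
  obtain ⟨L', L'', hLL, hpcw⟩ := touch_initial C.mate C.noalt hD.fam hne h hreg ht
  refine Lvl.no_light_closed C hD ha hla (L := L') ?_ hpcw.2.1
  intro z hz
  apply hL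
  rw [hLL]
  exact List.mem_append_left _ hz

/-- Job RUN. Cost of a run all of whose nodes are light at both ends, except that the last one is only required to have a light mate.
Proof: `W_le_parts`. For a before b, b not the last one: the part of L from a to b is a regular walk with light base a and light nodes, so ¬ Touch a b
by `Lvl.not_touch`, in particular the regions are disjoint. For a before b, a not the first: mirror the part from a to b: a regular walk from b' (light) to a' with
nodes light at both ends, so ¬ Touch b' a'. -/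
theorem Lvl.run_cost (C : Ctx G m β t D₀ F s Y) (hD : Lvl G m β D₀ F D) {L : List V} {c : V}
    (hL : ∀ z ∈ L, z ∈ Y ∧ (D z).ncard < β ∧ (D (m z)).ncard < β) (hc : c ∈ Y) (hlc : (D (m c)).ncard < β)
    (h : List.IsChain (Arc G m D) (L ++ [c])) (hreg : Reg m (L ++ [c])) :
    W m D (L ++ [c]) ≤ (⋃ z ∈ L, D z).ncard + (⋃ z ∈ (L ++ [c]).tail, (D (m z) ∪ {z, m z})).ncard := by
  have hm := C.mate
  -- members before another member are members of `L`
  have hpre : ∀ (P Q1 Q2 : List V) (a b : V), L ++ [c] = P ++ a :: (Q1 ++ b :: Q2) → a ∈ L ∧ ∀ z ∈ Q1, z ∈ L := by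
    intro P Q1 Q2 a b hEq
    have h1 : L = (P ++ a :: Q1) ++ (b :: Q2).dropLast := by
      have h2 : L = (L ++ [c]).dropLast := by simp
      rw [h2, hEq]
      have h3 : P ++ a :: (Q1 ++ b :: Q2) = (P ++ a :: Q1) ++ (b :: Q2) := by simp
      rw [h3, List.dropLast_append_of_ne_nil (List.cons_ne_nil _ _)]
    refine ⟨?_, fun z hz => ?_⟩
    · rw [h1]; simp
    · rw [h1]; simp [hz]
  -- the part from `a` to `b`
  have hpart : ∀ (P Q1 Q2 : List V) (a b : V), L ++ [c] = P ++ a :: (Q1 ++ b :: Q2) →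
      List.IsChain (Arc G m D) (a :: (Q1 ++ [b])) ∧ Reg m (a :: (Q1 ++ [b])) := by
    intro P Q1 Q2 a b hEq
    have h3 : L ++ [c] = P ++ (a :: (Q1 ++ [b])) ++ Q2 := by rw [hEq]; simp
    have hinf : (a :: (Q1 ++ [b])) <:+: (L ++ [c]) := ⟨P, Q2, h3.symm⟩
    have h' := h
    rw [h3] at h'
    exact ⟨h'.left_of_append.right_of_append, hreg.sublist hinf.sublist⟩
  have hdl : (L ++ [c]).dropLast = L := by simp
  have key := W_le_parts hm hD.fam (L := L ++ [c]) hreg ?_ ?_
  · rwa [hdl] at key
  · intro P Q a b hEq hbQ hbL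
    rw [hdl] at hbL
    obtain ⟨Q1, Q2, rfl⟩ := List.append_of_mem hbQ
    obtain ⟨haL, hQ1⟩ := hpre P Q1 Q2 a b hEq
    obtain ⟨hch, hrg⟩ := hpart P Q1 Q2 a b hEq
    have hnt := hD.not_touch C (a := a) (L := Q1 ++ [b]) (Set.mem_insert_of_mem _ (hL a haL).1) (hL a haL).2.1
      (by
        intro z hz
        rw [List.mem_append, List.mem_singleton] at hz
        rcases hz with hz | rfl
        · exact hL z (hQ1 z hz)
        · exact hL _ hbL) (by simp) hch hrg
    rw [Set.disjoint_left]
    intro u hua hub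
    apply hnt
    refine ⟨u, Set.mem_insert_of_mem _ hua, u, ?_, Or.inl rfl⟩
    simpa using Or.inr hub
  · intro P Q a b hEq _ hbQ
    obtain ⟨Q1, Q2, rfl⟩ := List.append_of_mem hbQ
    obtain ⟨haL, hQ1⟩ := hpre P Q1 Q2 a b hEq
    obtain ⟨hch, hrg⟩ := hpart P Q1 Q2 a b hEq
    have hmir : mir m (a :: (Q1 ++ [b])) = m b :: (mir m Q1 ++ [m a]) := by
      rw [mir_cons, mir_append, mir_singleton]; simp
    have hch' : List.IsChain (Arc G m D) (m b :: (mir m Q1 ++ [m a])) := by
      rw [← hmir]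
      exact chain_mir (fun _ _ hab => hab.mirror hm) hch
    have hrg' : Reg m (m b :: (mir m Q1 ++ [m a])) := by
      rw [← hmir]
      exact (reg_mir_iff hm).mpr hrg
    have hbm : b ∈ Y ∧ (D (m b)).ncard < β := by
      have hb : b ∈ L ++ [c] := by rw [hEq]; simp
      rw [List.mem_append, List.mem_singleton] at hb
      rcases hb with hb | rfl
      · exact ⟨(hL b hb).1, (hL b hb).2.2⟩
      · exact ⟨hc, hlc⟩
    have hnode : ∀ z, m z ∈ L → z ∈ Y ∧ (D z).ncard < β ∧ (D (m z)).ncard < β := by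
      intro z hz
      obtain ⟨h1, h2, h3⟩ := hL _ hz
      rw [hm.invol] at h3
      refine ⟨?_, h3, h2⟩
      have := C.mate_mem h1
      rwa [hm.invol] at this
    have hnt := hD.not_touch C (a := m b) (L := mir m Q1 ++ [m a]) (Set.mem_insert_of_mem _ (C.mate_mem hbm.1)) hbm.2
      (by
        intro z hz
        rw [List.mem_append, List.mem_singleton] at hz
        rcases hz with hz | rfl
        · exact hnode z (hQ1 _ ((mem_mir hm).mp hz))
        · apply hnode
          rw [hm.invol]
          exact haL) (by simp) hch' hrg'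
    intro ht
    apply hnt
    rw [touch_comm]
    simpa using ht

end Pool.Agent.UPM
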