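import Pool.Agent.Lib.MP_0087d5_lc.UPM.Valid

/-!
# Cycles of regions

Jobs CYC1, CYC2. See notes section 3.
-/

namespace Pool.Agent.UPM

open Relation

variable {V : Type*} {G : SimpleGraph V} {m : V → V} {D : V → Set V}

/-- The region of `y` is connected without using the matching edge of `w`, unless that edge lies in `D y`.
Proof: a path inside insert y (D y) uses the edge {w, w'} only if both ends lie in insert y (D y); w ∉ D y gives w' ∉ D y, so both
would be y. -/
theorem region_av (hm : IsMate G m) (hD : Fam G m D) {S : Set V} {y w u : V} (hS : insert y (D y) ⊆ S) (hw : w ∉ D y)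
    (hu : u ∈ insert y (D y)) : Av G m S w y u := by
  have hV := hD.valid y
  rcases hu with rfl | hu
  · exact ReflTransGen.refl
  · have hmate : ∀ a b : V, a ∈ insert y (D y) → b ∈ insert y (D y) → ¬ (a = w ∧ b = m w) := by
      rintro a b ha hb ⟨h1, h2⟩
      rw [h1] at ha
      rw [h2] at hb
      rcases ha with ha | ha
      · rw [ha] at hb
        rcases hb with hb | hb
        · exact hm.ne y hb
        · have h3 := hV.closed _ hb
          rw [hm.invol] at h3
          exact hV.nmem h3
      · exact hw ha
    have hc : ReflTransGen (fun a b => a ∈ insert y (D y) ∧ b ∈ insert y (D y) ∧ G.Adj a b) y u :=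
      hV.conn u hu
    unfold Av
    refine ReflTransGen.mono ?_ _ _ hc
    rintro a b ⟨ha, hb, hab⟩
    exact ⟨hS ha, hS hb, hab, hmate a b ha hb, fun h => hmate b a hb ha ⟨h.2, h.1⟩⟩

/-- Two touching regions are joined without using the matching edge of `w`. -/
theorem touch_av (hm : IsMate G m) (hD : Fam G m D) {S : Set V} {a b w : V} (ha : insert a (D a) ⊆ S) (hb : insert b (D b) ⊆ S)
    (hwa : w ∉ D a) (hwb : w ∉ D b) (h1 : ¬ (a = w ∧ b = m w)) (h2 : ¬ (a = m w ∧ b = w))
    (ht : Touch G D a b) : Av G m S w a b := by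
  obtain ⟨u, hu, v, hv, huv⟩ := ht
  have h3 : Av G m S w a u := region_av hm hD ha hwa hu
  have h4 : Av G m S w v b := (region_av hm hD hb hwb hv).symm
  rcases huv with rfl | huv
  · exact h3.trans h4
  · refine (h3.tail ⟨ha hu, hb hv, huv, ?_, ?_⟩).trans h4
    · rintro ⟨e1, e2⟩
      rw [e1] at hu
      rw [e2] at hv
      rcases hu with hu | hu
      · rcases hv with hv | hv
        · exact h1 ⟨hu.symm, hv.symm⟩
        · have h5 := (hD.valid b).closed _ hv
          rw [hm.invol] at h5
          exact hwb h5
      · exact hwa hu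
    · rintro ⟨e1, e2⟩
      rw [e1] at hu
      rw [e2] at hv
      rcases hv with hv | hv
      · rcases hu with hu | hu
        · exact h2 ⟨hu.symm, hv.symm⟩
        · have h5 := (hD.valid a).closed _ hu
          rw [hm.invol] at h5
          exact hwa h5
      · exact hwb hv

/-- Following a chain of weak arcs. -/
theorem chain_av (hm : IsMate G m) (hD : Fam G m D) {S : Set V} {w u : V} {L : List V} (hch : List.IsChain (TArc G m D) (u :: L))
    (hu : insert u (D u) ⊆ S) (huw : w ∉ D u)
    (hS : ∀ z ∈ L, EX m D z ⊆ S) (hw : ∀ z ∈ L, w ∉ D z ∧ w ∉ D (m z)) (he : ∀ z ∈ L, z ≠ w ∧ z ≠ m w) :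
    Av G m S w u ((u :: L).getLast (List.cons_ne_nil _ _)) := by
  induction L generalizing u with
  | nil => exact ReflTransGen.refl
  | cons z L ih =>
    rw [List.isChain_cons_cons] at hch
    obtain ⟨huz, hch'⟩ := hch
    have hzS : EX m D z ⊆ S := hS z (by simp)
    have hzw := hw z (by simp)
    have hze := he z (by simp)
    have h1 : insert (m z) (D (m z)) ⊆ S := by
      refine subset_trans ?_ hzS
      intro y hy
      unfold EX
      rcases hy with rfl | hy
      · left; left; right; rfl
      · right; exact hy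
    have h2 : insert z (D z) ⊆ S := by
      refine subset_trans ?_ hzS
      intro y hy
      unfold EX
      rcases hy with rfl | hy
      · left; left; left; rfl
      · left; right; exact hy
    have k1 : Av G m S w u (m z) := by
      refine touch_av hm hD hu h1 huw hzw.2 ?_ ?_ huz
      · rintro ⟨_, e⟩
        exact hze.1 (hm.inj e)
      · rintro ⟨_, e⟩
        exact hze.2 ((hm.eq_iff).1 e)
    have k2 : Step G m S w (m z) z := by
      refine ⟨h1 (Set.mem_insert _ _), h2 (Set.mem_insert _ _), (hm.adj z).symm, ?_, ?_⟩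
      · rintro ⟨e, _⟩
        exact hze.2 ((hm.eq_iff).1 e)
      · rintro ⟨_, e⟩
        exact hze.1 e
    have k3 := ih hch' h2 hzw.1 (fun y hy => hS y (List.mem_cons_of_mem _ hy))
      (fun y hy => hw y (List.mem_cons_of_mem _ hy)) (fun y hy => he y (List.mem_cons_of_mem _ hy))
    rw [List.getLast_cons (List.cons_ne_nil _ _)]
    exact (k1.tail k2).trans k3

/-- Job CYC1 (with the three lemmas above). The regions of `x` and of its mate are disjoint and joined only by the matching edge.
Proof: otherwise Z = insert x (D x) ∪ insert x' (D x') contradicts Kotzig: members of D x, D x' are fine by validity and monotonicity,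
and x, x' are joined without the matching edge of x by `region_av` twice and the common point or the edge. -/
theorem fam_mates [Finite V] (hm : IsMate G m) (hU : NoAlt G m) (hD : Fam G m D) (x : V) :
    ∀ u ∈ insert x (D x), ∀ v ∈ insert (m x) (D (m x)), u ≠ v ∧ (G.Adj u v → u = x ∧ v = m x) := by
  intro u hu v hv
  have hVx := hD.valid x
  have hVx' := hD.valid (m x)
  have hx' : x ∉ D (m x) := fun h => hVx'.nmem (hVx'.closed x h)
  have hx'' : m x ∉ D x := by
    intro h
    have h1 := hVx.closed _ h
    rw [hm.invol] at h1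
    exact hVx.nmem h1
  -- the two regions together would violate Kotzig's lemma
  have key : ¬ (u = v ∨ (G.Adj u v ∧ ¬ (u = x ∧ v = m x))) := by
    intro hcon
    set Z : Set V := insert x (D x) ∪ insert (m x) (D (m x)) with hZ
    have hs1 : insert x (D x) ⊆ Z := Set.subset_union_left
    have hs2 : insert (m x) (D (m x)) ⊆ Z := Set.subset_union_right
    have hxx : NB G m Z x := by
      have k1 : Av G m Z x x u := region_av hm hD hs1 hVx.nmem hu
      have k2 : Av G m Z x v (m x) := (region_av hm hD hs2 hx' hv).symm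
      rcases hcon with rfl | ⟨hadj, hne⟩
      · exact k1.trans k2
      · refine (k1.tail ⟨hs1 hu, hs2 hv, hadj, hne, ?_⟩).trans k2
        rintro ⟨e1, _⟩
        rw [e1] at hu
        rcases hu with hu | hu
        · exact hm.ne x hu
        · exact hx'' hu
    obtain ⟨a, L, c1, c2, c3, _⟩ := kotzig hm (Z := Z) ⟨x, hs1 (Set.mem_insert _ _)⟩ (by
      rintro y ((rfl | hy) | (rfl | hy))
      · exact hs2 (Set.mem_insert _ _)
      · exact hs1 (Set.mem_insert_of_mem _ (hVx.closed y hy))
      · rw [hm.invol]
        exact hs1 (Set.mem_insert _ _)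
      · exact hs2 (Set.mem_insert_of_mem _ (hVx'.closed y hy))) (by
      rintro y ((rfl | hy) | (rfl | hy))
      · exact hxx
      · exact (hVx.nb y hy).mono hs1
      · exact NB.mate hm hxx
      · exact (hVx'.nb y hy).mono hs2)
    exact hU a L ⟨c1, c2, c3, fun z _ => Set.mem_univ z⟩
  constructor
  · intro h
    exact key (Or.inl h)
  · intro hadj
    by_contra hne
    exact key (Or.inr ⟨hadj, hne⟩)

private theorem cyc2_mem_EX (m : V → V) (D : V → Set V) (z : V) : z ∈ EX m D z :=
  Or.inl (Or.inl (Or.inl rfl))

private theorem cyc2_left (m : V → V) (D : V → Set V) (z : V) : insert z (D z) ⊆ EX m D z := by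
  intro u hu
  rcases hu with hu | hu
  · rw [hu]
    exact cyc2_mem_EX m D z
  · exact Or.inl (Or.inr hu)

private theorem cyc2_right (m : V → V) (D : V → Set V) (z : V) :
    insert (m z) (D (m z)) ⊆ EX m D z := by
  intro u hu
  rcases hu with hu | hu
  · rw [hu]
    exact Or.inl (Or.inl (Or.inr rfl))
  · exact Or.inr hu

/-- rotation of the cycle so that it starts at a given member -/
private theorem cyc2_rotate {R : V → V → Prop} {a z : V} {L : List V} (hL : L ≠ [])
    (hch : List.IsChain R (a :: (L ++ [a]))) (hz : z ∈ a :: L) :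
    ∃ Q : List V, Q ≠ [] ∧ (z :: Q).Perm (a :: L) ∧ List.IsChain R (z :: (Q ++ [z])) := by
  rcases List.mem_cons.mp hz with h | h
  · subst h
    exact ⟨L, hL, List.Perm.refl _, hch⟩
  · obtain ⟨P, Q, rfl⟩ := List.append_of_mem h
    refine ⟨Q ++ a :: P, by simp, ?_, chain_rotate hch⟩
    have h1 : z :: (Q ++ a :: P) = (z :: Q) ++ (a :: P) := rfl
    have h2 : a :: (P ++ z :: Q) = (a :: P) ++ (z :: Q) := rfl
    rw [h1, h2]
    exact List.perm_append_comm

/-- Job CYC2. No cycle of weak arcs with distinct matching edges.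
Proof: let Z be the union of the EX z over the members z of a :: L: closed and nonempty. Let w ∈ Z. If w ∈ D y for y = z or z', z a member: NB by validity
of D y at y and monotonicity. Otherwise w = z or w = z' with z a member; rotate the cycle so that it starts at z (`chain_rotate`): z :: (Q ++ [z]) is a chain,
regular apart from the repetition. `chain_av` along z :: Q and then `touch_av` for the last weak arc (region of the last member, region
of z') give Av Z z z z'. So no matching edge in Z is a bridge: contradiction with `kotzig` and `NoAlt`. -/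
theorem gc [Finite V] (hm : IsMate G m) (hU : NoAlt G m) (hD : Fam G m D) {a : V} {L : List V} (hL : L ≠ [])
    (hch : List.IsChain (TArc G m D) (a :: (L ++ [a]))) (hreg : Reg m (a :: L)) : False := by
  set Z : Set V := {w | ∃ z ∈ a :: L, w ∈ EX m D z} with hZ
  have hsub : ∀ z ∈ a :: L, EX m D z ⊆ Z := fun z hz w hw => ⟨z, hz, hw⟩
  have hne : Z.Nonempty := ⟨a, a, List.mem_cons_self, cyc2_mem_EX m D a⟩
  have hcl : ∀ x ∈ Z, m x ∈ Z := by
    rintro x ⟨z, hz, hx⟩
    refine ⟨z, hz, ?_⟩
    rcases hx with (hx | hx) | hx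
    · rcases hx with hx | hx
      · rw [hx]
        exact Or.inl (Or.inl (Or.inr rfl))
      · have hx' : x = m z := hx
        rw [hx', hm.invol]
        exact cyc2_mem_EX m D z
    · exact Or.inl (Or.inr ((hD.valid z).closed x hx))
    · exact Or.inr ((hD.valid (m z)).closed x hx)
  -- members of one of the sets `D y`
  have hD1 : ∀ z ∈ a :: L, ∀ w, w ∈ D z → NB G m Z w := fun z hz w hw =>
    NB.mono ((cyc2_left m D z).trans (hsub z hz)) ((hD.valid z).nb w hw)
  have hD2 : ∀ z ∈ a :: L, ∀ w, w ∈ D (m z) → NB G m Z w := fun z hz w hw =>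
    NB.mono ((cyc2_right m D z).trans (hsub z hz)) ((hD.valid (m z)).nb w hw)
  -- the members themselves
  have hmain : ∀ z ∈ a :: L, NB G m Z z := by
    intro z hz
    by_cases hc : ∃ y ∈ a :: L, z ∈ D y ∨ z ∈ D (m y)
    · obtain ⟨y, hy, h1 | h1⟩ := hc
      · exact hD1 y hy z h1
      · exact hD2 y hy z h1
    have hc' : ∀ y ∈ a :: L, z ∉ D y ∧ z ∉ D (m y) := by
      intro y hy
      exact ⟨fun h => hc ⟨y, hy, Or.inl h⟩, fun h => hc ⟨y, hy, Or.inr h⟩⟩
    obtain ⟨Q, hQ, hperm, hQch⟩ := cyc2_rotate hL hch hz
    have hQreg : Reg m (z :: Q) := hreg.perm hm hperm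
    have hQmem : ∀ y ∈ Q, y ∈ a :: L := fun y hy => hperm.subset (List.mem_cons_of_mem z hy)
    have hQne : ∀ y ∈ Q, y ≠ z ∧ y ≠ m z := ((reg_cons z Q).mp hQreg).1
    obtain ⟨Q', c, rfl⟩ : ∃ Q' c, Q = Q' ++ [c] := ⟨Q.dropLast, Q.getLast hQ,
      (List.dropLast_append_getLast hQ).symm⟩
    have hspl : z :: ((Q' ++ [c]) ++ [z]) = z :: (Q' ++ c :: z :: []) := by simp
    rw [hspl, List.isChain_cons_append_cons_cons] at hQch
    obtain ⟨hch1, hcz, -⟩ := hQch
    have hcmem : c ∈ Q' ++ [c] := by simp
    have h1 : Av G m Z z z c := by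
      have h2 := chain_av (S := Z) (w := z) hm hD hch1
        ((cyc2_left m D z).trans (hsub z hz)) (hc' z hz).1
        (fun y hy => hsub y (hQmem y hy)) (fun y hy => hc' y (hQmem y hy)) hQne
      have h3 : (z :: (Q' ++ [c])).getLast (List.cons_ne_nil _ _) = c := by simp
      rw [h3] at h2
      exact h2
    have h4 : Av G m Z z c (m z) :=
      touch_av hm hD ((cyc2_left m D c).trans (hsub c (hQmem c hcmem)))
        ((cyc2_right m D z).trans (hsub z hz)) (hc' c (hQmem c hcmem)).1 (hc' z hz).2
        (fun h => (hQne c hcmem).1 h.1) (fun h => (hQne c hcmem).2 h.1) hcz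
    exact ReflTransGen.trans h1 h4
  have hnb : ∀ x ∈ Z, NB G m Z x := by
    rintro x ⟨z, hz, hx⟩
    rcases hx with (hx | hx) | hx
    · rcases hx with hx | hx
      · rw [hx]
        exact hmain z hz
      · have hx' : x = m z := hx
        rw [hx']
        exact (hmain z hz).mate hm
    · exact hD1 z hz x hx
    · exact hD2 z hz x hx
  obtain ⟨b, M, hb⟩ := kotzig hm hne hcl hnb
  exact hU b M ⟨hb.1, hb.2.1, hb.2.2.1, fun z _ => Set.mem_univ z⟩

/-- Corollary of `gc`: the end of a regular walk does not touch the mate of its start. -/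
theorem gc_touch [Finite V] (hm : IsMate G m) (hU : NoAlt G m) (hD : Fam G m D) {a c : V} {L : List V}
    (hch : List.IsChain (TArc G m D) (a :: (L ++ [c]))) (hreg : Reg m (a :: (L ++ [c]))) : ¬ Touch G D c (m a) := by
  intro ht
  refine gc hm hU hD (a := a) (L := L ++ [c]) (by simp) ?_ hreg
  have hspl : a :: ((L ++ [c]) ++ [a]) = a :: (L ++ c :: a :: []) := by simp
  rw [hspl, List.isChain_cons_append_cons_cons]
  exact ⟨hch, ht, List.IsChain.singleton a⟩

/-- The same for the trivial walk: a corollary of `fam_mates`, for points of the two regions other than the matching edge itself. -/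
theorem mates_disjoint [Finite V] (hm : IsMate G m) (hU : NoAlt G m) (hD : Fam G m D) (x : V) :
    Disjoint (insert x (D x)) (insert (m x) (D (m x))) := by
  rw [Set.disjoint_left]
  intro u hu hu'
  exact (fam_mates hm hU hD x u hu u hu').1 rfl

private theorem cyc3_conn_symm {S : Set V} {a b : V} (h : Conn G S a b) : Conn G S b a := by
  induction h with
  | refl => exact ReflTransGen.refl
  | tail _ hbc ih => exact ReflTransGen.head ⟨hbc.2.1, hbc.1, hbc.2.2.symm⟩ ih

private theorem cyc3_region (hD : Fam G m D) {S : Set V} {y u : V} (hS : insert y (D y) ⊆ S)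
    (hu : u ∈ insert y (D y)) : Conn G S y u := by
  rcases Set.mem_insert_iff.1 hu with rfl | hu
  · exact ReflTransGen.refl
  · exact ((hD.valid y).conn u hu).mono hS

private theorem cyc3_mate_sub {S : Set V} {z : V} (h : EX m D z ⊆ S) :
    insert z (D z) ⊆ S ∧ insert (m z) (D (m z)) ⊆ S := by
  constructor
  · intro x hx
    apply h
    rcases Set.mem_insert_iff.1 hx with rfl | hx
    · exact Or.inl (Or.inl (Or.inl rfl))
    · exact Or.inl (Or.inr hx)
  · intro x hx
    apply h
    rcases Set.mem_insert_iff.1 hx with rfl | hx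
    · exact Or.inl (Or.inl (Or.inr rfl))
    · exact Or.inr hx

private theorem cyc3_chain_conn (hm : IsMate G m) (hD : Fam G m D) {S : Set V} :
    ∀ (L : List V) (u : V), insert u (D u) ⊆ S → List.IsChain (TArc G m D) (u :: L) →
      (∀ z ∈ L, EX m D z ⊆ S) → ∀ z ∈ L, Conn G S u z := by
  intro L
  induction L with
  | nil => intro u _ _ _ z hz; exact absurd hz (by simp)
  | cons a L ih =>
    intro u hu hch hS z hz
    rw [List.isChain_cons_cons] at hch
    obtain ⟨⟨p, hp, q, hq, hpq⟩, hch'⟩ := hch
    have ha := cyc3_mate_sub (hS a (by simp))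
    have h1 : Conn G S u p := cyc3_region hD hu hp
    have h2 : Conn G S q (m a) := cyc3_conn_symm (cyc3_region hD ha.2 hq)
    have h3 : Conn G S p q := by
      rcases hpq with rfl | hpq
      · exact ReflTransGen.refl
      · exact ReflTransGen.single ⟨hu hp, ha.2 hq, hpq⟩
    have h4 : Conn G S (m a) a := by
      apply ReflTransGen.single
      exact ⟨ha.2 (Set.mem_insert _ _), ha.1 (Set.mem_insert _ _), (hm.adj a).symm⟩
    have h5 : Conn G S u a := ((h1.trans h3).trans h2).trans h4
    rcases List.mem_cons.1 hz with rfl | hz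
    · exact h5
    · exact h5.trans (ih a ha.1 hch' (fun z hz => hS z (List.mem_cons_of_mem _ hz)) z hz)

/-- Job CYC2. The span of a closed walk (weak arcs suffice) is valid at its base.
Proof: let S = insert s (XC m D s L). First, each w ∈ XC has NB S w: as in `gc` (if w ∈ D y for y = s, z or z' by validity; otherwise w = z or z' with L = P ++ z :: Q; from
z along Q to the last member, then the touch with s, then from s along P, then the touch with z').
If s ∈ XC then XC is a closed nonempty set contradicting Kotzig (closedness of XC: unions of closed sets). So s ∉ XC. Connectedness: along the walk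
regions are connected and consecutive ones touch, and z, z' are adjacent. -/
theorem valid_XC [Finite V] (hm : IsMate G m) (hU : NoAlt G m) (hD : Fam G m D) {s : V} {L : List V} (hL : L ≠ [])
    (hch : List.IsChain (TArc G m D) (s :: (L ++ [m s]))) (hreg : Reg m (s :: L)) : Valid G m s (XC m D s L) := by
  have hDs : D s ⊆ XC m D s L := fun x hx => Or.inl hx
  have hEX : ∀ z ∈ L, EX m D z ⊆ XC m D s L := by
    intro z hz x hx
    exact Or.inr (Set.mem_iUnion₂.2 ⟨z, hz, hx⟩)
  have hS0 : insert s (D s) ⊆ insert s (XC m D s L) := Set.insert_subset_insert hDs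
  have hSE : ∀ z ∈ L, EX m D z ⊆ insert s (XC m D s L) := fun z hz =>
    (hEX z hz).trans (Set.subset_insert _ _)
  have hSm : ∀ z ∈ L, insert z (D z) ⊆ insert s (XC m D s L) ∧
      insert (m z) (D (m z)) ⊆ insert s (XC m D s L) := fun z hz => cyc3_mate_sub (hSE z hz)
  -- closedness
  have hcl : ∀ y ∈ XC m D s L, m y ∈ XC m D s L := by
    intro y hy
    rcases hy with hy | hy
    · exact Or.inl ((hD.valid s).closed y hy)
    · obtain ⟨z, hz, hyz⟩ := Set.mem_iUnion₂.1 hy
      apply hEX z hz
      rcases hyz with (hyz | hyz) | hyz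
      · rcases hyz with rfl | hyz
        · exact Or.inl (Or.inl (Or.inr rfl))
        · have : m y = z := by
            rw [Set.mem_singleton_iff.1 hyz, hm.invol]
          exact Or.inl (Or.inl (Or.inl this))
      · exact Or.inl (Or.inr ((hD.valid z).closed y hyz))
      · exact Or.inr ((hD.valid (m z)).closed y hyz)
  -- the matching edge of a member of `L` which is in no region
  have key : ∀ z ∈ L, z ∉ D s → (∀ y ∈ L, z ∉ D y ∧ z ∉ D (m y)) →
      NB G m (insert s (XC m D s L)) z := by
    intro z hz hzs hzL
    obtain ⟨P, Q, hPQ⟩ := List.append_of_mem hz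
    have hregs := (reg_cons s L).1 hreg
    have hzsne := hregs.1 z hz
    have hregL := hregs.2
    rw [hPQ, reg_append] at hregL
    obtain ⟨hregP, hregzQ, hregPz⟩ := hregL
    rw [reg_cons] at hregzQ
    have hmemP : ∀ y ∈ P, y ∈ L := fun y hy => by rw [hPQ]; exact List.mem_append_left _ hy
    have hmemQ : ∀ y ∈ Q, y ∈ L := fun y hy => by
      rw [hPQ]; exact List.mem_append_right _ (List.mem_cons_of_mem _ hy)
    have hne : ∀ y ∈ P, y ≠ z ∧ y ≠ m z := by
      intro y hy
      have h1 := hregPz y hy z (by simp)
      refine ⟨fun h => h1.1 h.symm, fun h => h1.2 ?_⟩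
      rw [h, hm.invol]
    have hch1 : List.IsChain (TArc G m D) (s :: (P ++ z :: (Q ++ [m s]))) := by
      rw [hPQ] at hch
      simpa using hch
    have hch2 : List.IsChain (TArc G m D) ((s :: P) ++ (z :: (Q ++ [m s]))) := by
      simpa using hch1
    rw [List.isChain_append] at hch2
    obtain ⟨hc1, hc2, hc3⟩ := hch2
    have hc2' : List.IsChain (TArc G m D) ((z :: Q) ++ [m s]) := by simpa using hc2
    rw [List.isChain_append] at hc2'
    obtain ⟨hc4, _, hc5⟩ := hc2'
    -- along Q
    have hA1 : Av G m (insert s (XC m D s L)) z z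
        ((z :: Q).getLast (List.cons_ne_nil _ _)) := by
      apply chain_av hm hD hc4 (hSm z hz).1 (hzL z hz).1
      · exact fun y hy => hSE y (hmemQ y hy)
      · exact fun y hy => hzL y (hmemQ y hy)
      · exact fun y hy => hregzQ.1 y hy
    have hlastQ : (z :: Q).getLast (List.cons_ne_nil _ _) ∈ z :: Q := List.getLast_mem _
    have hlastQL : (z :: Q).getLast (List.cons_ne_nil _ _) ∈ L := by
      rcases List.mem_cons.1 hlastQ with h | h
      · rw [h]; exact hz
      · exact hmemQ _ h
    have hT1 : Touch G D ((z :: Q).getLast (List.cons_ne_nil _ _)) s := by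
      have h := hc5 _ (List.getLast?_eq_getLast_of_ne_nil (List.cons_ne_nil _ _)) (m s) rfl
      unfold TArc at h
      rw [hm.invol] at h
      exact h
    have hA2 : Av G m (insert s (XC m D s L)) z
        ((z :: Q).getLast (List.cons_ne_nil _ _)) s := by
      apply touch_av hm hD (hSm _ hlastQL).1 hS0 (hzL _ hlastQL).1 hzs _ _ hT1
      · rintro ⟨_, h2⟩
        exact hzsne.2 (by rw [h2, hm.invol])
      · rintro ⟨_, h2⟩
        exact hzsne.1 h2.symm
    -- along P
    have hA3 : Av G m (insert s (XC m D s L)) z s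
        ((s :: P).getLast (List.cons_ne_nil _ _)) := by
      apply chain_av hm hD hc1 hS0 hzs
      · exact fun y hy => hSE y (hmemP y hy)
      · exact fun y hy => hzL y (hmemP y hy)
      · exact hne
    have hlastP : (s :: P).getLast (List.cons_ne_nil _ _) ∈ s :: P := List.getLast_mem _
    have hT2 : Touch G D ((s :: P).getLast (List.cons_ne_nil _ _)) (m z) :=
      hc3 _ (List.getLast?_eq_getLast_of_ne_nil (List.cons_ne_nil _ _)) z rfl
    have hP1 : insert ((s :: P).getLast (List.cons_ne_nil _ _))
        (D ((s :: P).getLast (List.cons_ne_nil _ _))) ⊆ insert s (XC m D s L) ∧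
        z ∉ D ((s :: P).getLast (List.cons_ne_nil _ _)) ∧
        (s :: P).getLast (List.cons_ne_nil _ _) ≠ z := by
      rcases List.mem_cons.1 hlastP with h | h
      · rw [h]
        exact ⟨hS0, hzs, fun h' => hzsne.1 h'.symm⟩
      · exact ⟨(hSm _ (hmemP _ h)).1, (hzL _ (hmemP _ h)).1, (hne _ h).1⟩
    have hA4 : Av G m (insert s (XC m D s L)) z
        ((s :: P).getLast (List.cons_ne_nil _ _)) (m z) := by
      apply touch_av hm hD hP1.1 (hSm z hz).2 hP1.2.1 (hzL z hz).2 _ _ hT2
      · rintro ⟨h1, _⟩
        exact hP1.2.2 h1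
      · rintro ⟨_, h2⟩
        exact hm.ne z h2
    exact ((ReflTransGen.trans hA1 hA2).trans hA3).trans hA4
  -- non-bridges
  have hnb : ∀ y ∈ XC m D s L, NB G m (insert s (XC m D s L)) y := by
    intro w hw
    by_cases h1 : w ∈ D s
    · exact ((hD.valid s).nb w h1).mono hS0
    by_cases h2 : ∃ y ∈ L, w ∈ D y ∨ w ∈ D (m y)
    · obtain ⟨y, hy, hwy | hwy⟩ := h2
      · exact ((hD.valid y).nb w hwy).mono (hSm y hy).1
      · exact ((hD.valid (m y)).nb w hwy).mono (hSm y hy).2
    · push Not at h2
      rcases hw with hw | hw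
      · exact absurd hw h1
      · obtain ⟨z, hz, hwz⟩ := Set.mem_iUnion₂.1 hw
        rcases hwz with (hwz | hwz) | hwz
        · rcases hwz with rfl | hwz
          · exact key w hz h1 h2
          · have hwz' : w = m z := hwz
            subst hwz'
            apply NB.mate hm
            apply key z hz
            · intro h
              exact h1 ((hD.valid s).closed z h)
            · intro y hy
              exact ⟨fun h => (h2 y hy).1 ((hD.valid y).closed z h),
                fun h => (h2 y hy).2 ((hD.valid (m y)).closed z h)⟩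
        · exact absurd hwz (h2 z hz).1
        · exact absurd hwz (h2 z hz).2
  refine ⟨hcl, ?_, ?_, hnb⟩
  · intro hs
    have hins : insert s (XC m D s L) = XC m D s L := Set.insert_eq_of_mem hs
    obtain ⟨a, L', h1, h2, h3, _⟩ := kotzig hm ⟨s, hs⟩ hcl
      (fun x hx => by have := hnb x hx; rwa [hins] at this)
    exact hU a L' ⟨h1, h2, h3, fun _ _ => Set.mem_univ _⟩
  · have hchL : List.IsChain (TArc G m D) (s :: L) := by
      have h : List.IsChain (TArc G m D) ((s :: L) ++ [m s]) := by simpa using hch
      exact (List.isChain_append.1 h).1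
    have hall := cyc3_chain_conn hm hD L s hS0 hchL hSE
    intro y hy
    rcases hy with hy | hy
    · exact cyc3_region hD hS0 (Set.mem_insert_of_mem _ hy)
    · obtain ⟨z, hz, hyz⟩ := Set.mem_iUnion₂.1 hy
      have h1 := hall z hz
      have h2 : Conn G (insert s (XC m D s L)) z (m z) := by
        apply ReflTransGen.single
        exact ⟨(hSm z hz).1 (Set.mem_insert _ _), (hSm z hz).2 (Set.mem_insert _ _), hm.adj z⟩
      rcases hyz with (hyz | hyz) | hyz
      · rcases hyz with rfl | hyz
        · exact h1
        · rw [Set.mem_singleton_iff.1 hyz]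
          exact h1.trans h2
      · exact h1.trans (cyc3_region hD (hSm z hz).1 (Set.mem_insert_of_mem _ hyz))
      · exact (h1.trans h2).trans (cyc3_region hD (hSm z hz).2 (Set.mem_insert_of_mem _ hyz))

end Pool.Agent.UPM
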