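import Mathlib

/-!
# Unique perfect matchings: basic definitions

`G` is a simple graph on `V`, `m : V → V` the mate map of a perfect matching of `G` (predicate `IsMate`).
Write x' for `m x`. The matching edge of `x` is {x, x'}. A set is closed when it contains the mate of each of its points.
All walks are lists of vertices.
-/

namespace Pool.Agent.UPM

open Relation

variable {V : Type*}

/-- `m` is the mate map of a perfect matching of `G`. -/
structure IsMate (G : SimpleGraph V) (m : V → V) : Prop where
  invol : ∀ x, m (m x) = x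
  adj : ∀ x, G.Adj x (m x)

/-- The matching edges of the members of the list are pairwise distinct. -/
def Reg (m : V → V) (L : List V) : Prop := L.Pairwise (fun a b => b ≠ a ∧ b ≠ m a)

/-- The reversed walk: reverse the list and replace every vertex by its mate. -/
def mir (m : V → V) (L : List V) : List V := (L.map m).reverse

/-- Plain arc: a non-matching edge from `u` to the mate of `v`, followed by the matching edge of `v`. -/
def PArc (G : SimpleGraph V) (m : V → V) (u v : V) : Prop := G.Adj u (m v) ∧ u ≠ v

/-- `a :: L` is an alternating cycle of `G` inside `Z` (it returns to `a` after the last member of `L`). -/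
def AltCycle (G : SimpleGraph V) (m : V → V) (Z : Set V) (a : V) (L : List V) : Prop :=
  L ≠ [] ∧ List.IsChain (PArc G m) (a :: (L ++ [a])) ∧ Reg m (a :: L) ∧ ∀ z ∈ a :: L, z ∈ Z

/-- There is no alternating cycle, i.e. the perfect matching `m` is the only one. -/
def NoAlt (G : SimpleGraph V) (m : V → V) : Prop := ∀ a L, ¬ AltCycle G m Set.univ a L

/-- One step of a path of `G[S]` which does not use the matching edge of `w`. -/
def Step (G : SimpleGraph V) (m : V → V) (S : Set V) (w a b : V) : Prop :=
  a ∈ S ∧ b ∈ S ∧ G.Adj a b ∧ ¬ (a = w ∧ b = m w) ∧ ¬ (a = m w ∧ b = w)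

/-- `a` and `b` are joined by a path of `G[S]` which does not use the matching edge of `w`. -/
def Av (G : SimpleGraph V) (m : V → V) (S : Set V) (w a b : V) : Prop := ReflTransGen (Step G m S w) a b

/-- The matching edge of `w` is not a bridge of `G[S]`. -/
def NB (G : SimpleGraph V) (m : V → V) (S : Set V) (w : V) : Prop := Av G m S w w (m w)

/-- `a` and `b` are joined by a path of `G[S]`. -/
def Conn (G : SimpleGraph V) (S : Set V) (a b : V) : Prop :=
  ReflTransGen (fun a b => a ∈ S ∧ b ∈ S ∧ G.Adj a b) a b

/-- `X` is valid at `x`. -/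
structure Valid (G : SimpleGraph V) (m : V → V) (x : V) (X : Set V) : Prop where
  closed : ∀ y ∈ X, m y ∈ X
  nmem : x ∉ X
  conn : ∀ y ∈ X, Conn G (insert x X) x y
  nb : ∀ y ∈ X, NB G m (insert x X) y

/-- A transitive family of valid sets. -/
structure Fam (G : SimpleGraph V) (m : V → V) (D : V → Set V) : Prop where
  valid : ∀ x, Valid G m x (D x)
  trans : ∀ x, ∀ y ∈ D x, D y ⊆ D x

/-- The regions `D a ∪ {a}` and `D b ∪ {b}` intersect or are joined by an edge. -/
def Touch (G : SimpleGraph V) (D : V → Set V) (a b : V) : Prop :=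
  ∃ u ∈ insert a (D a), ∃ v ∈ insert b (D b), u = v ∨ G.Adj u v

/-- Touching without containment. -/
def Sim (G : SimpleGraph V) (m : V → V) (D : V → Set V) (a b : V) : Prop :=
  a ≠ b ∧ a ≠ m b ∧ a ∉ D b ∧ b ∉ D a ∧ Touch G D a b

/-- Weak arc from `u` to `v`: the regions of `u` and of the mate of `v` touch. -/
def TArc (G : SimpleGraph V) (m : V → V) (D : V → Set V) (u v : V) : Prop := Touch G D u (m v)

/-- Arc from `u` to `v` with respect to the family `D`. -/
def Arc (G : SimpleGraph V) (m : V → V) (D : V → Set V) (u v : V) : Prop := Sim G m D u (m v)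

/-- `L` is a proper closed walk at `s` with respect to `D`. -/
def PCW (G : SimpleGraph V) (m : V → V) (D : V → Set V) (s : V) (L : List V) : Prop :=
  L ≠ [] ∧ List.IsChain (Arc G m D) (s :: (L ++ [m s])) ∧ Reg m (s :: L)

/-- The matching edge of `z` together with the regions of `z` and of its mate. -/
def EX (m : V → V) (D : V → Set V) (z : V) : Set V := {z, m z} ∪ D z ∪ D (m z)

/-- The set spanned by a closed walk `L` at `s`. -/
def XC (m : V → V) (D : V → Set V) (s : V) (L : List V) : Set V := D s ∪ ⋃ z ∈ L, EX m D z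

/-- The part of the span paid for by an arc from `a` to `z`. -/
def J (m : V → V) (D : V → Set V) (a z : V) : Set V := D a ∪ (D (m z) ∪ {z, m z})

/-- Cost of an arc. -/
noncomputable def cost (m : V → V) (D : V → Set V) (a z : V) : ℕ := (J m D a z).ncard

/-- Cost of a walk given as a list. -/
noncomputable def W (m : V → V) (D : V → Set V) : List V → ℕ
  | [] => 0
  | [_] => 0
  | a :: z :: L => cost m D a z + W m D (z :: L)

/-- `L` is a closed walk at `x` that the algorithm finds at scale `β`. -/
def Fnd (G : SimpleGraph V) (m : V → V) (D : V → Set V) (β : ℕ) (x : V) (L : List V) : Prop :=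
  PCW G m D x L ∧ ∃ P R, L = P ++ R ∧ P ≠ [] ∧ W m D P ≤ β ∧ W m D R ≤ β

/-- `y` lies on a closed walk at `x` that the algorithm finds at scale `β`. -/
def Nrel (G : SimpleGraph V) (m : V → V) (D : V → Set V) (β : ℕ) (x y : V) : Prop :=
  ∃ L, Fnd G m D β x L ∧ (y ∈ L ∨ m y ∈ L)

/-- Full step of the algorithm. -/
def Phi (G : SimpleGraph V) (m : V → V) (β : ℕ) (D : V → Set V) : V → Set V := fun x =>
  {y | TransGen (fun a b => b ∈ D a ∨ Nrel G m D β a b) x y}

/-- Step of the algorithm for heavy bases only. -/
def Phih (G : SimpleGraph V) (m : V → V) (β : ℕ) (D : V → Set V) : V → Set V := fun x =>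
  {y | TransGen (fun a b => b ∈ D a ∨ (β ≤ (D a).ncard ∧ Nrel G m D β a b)) x y}

/-- One round: one full step, then three steps for heavy bases. -/
def Psi (G : SimpleGraph V) (m : V → V) (β : ℕ) (D : V → Set V) : V → Set V :=
  Phih G m β (Phih G m β (Phih G m β (Phi G m β D)))

/-- `D` is complete up to size `β`. -/
def Clsd (G : SimpleGraph V) (m : V → V) (β : ℕ) (D : V → Set V) : Prop :=
  ∀ x Y, Valid G m x Y → (∀ y ∈ Y, D y ⊆ Y) → D x ⊆ Y → Y.ncard < β → Y ⊆ D x

end Pool.Agent.UPM
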