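import Pool.Agent.Lib.MP_0087d5_lc.UPM.Defs

/-!
# Finding the candidate matching: determinants modulo 2

Jobs DETA, DETB, DETC, DETD. See notes section 13.
-/

namespace Pool.Agent.UPM

open Matrix PowerSeries

/-- Matrix over `ZMod 2` of a relation. -/
noncomputable def rmat {n : ℕ} (R : Fin n → Fin n → Prop) : Matrix (Fin n) (Fin n) (ZMod 2) := by
  classical exact Matrix.of (fun i j => if R i j then 1 else 0)

/-- Restriction to indices ≤ k. -/
def cut {n : ℕ} (R : Fin n → Fin n → Prop) (k : Fin n) : Fin n → Fin n → Prop := fun i j => R i j ∧ i ≤ k ∧ j ≤ k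

/-- The power series with coefficients `((rmat (cut R k))^j) k k`. -/
noncomputable def pser {n : ℕ} (R : Fin n → Fin n → Prop) (k : Fin n) : PowerSeries (ZMod 2) :=
  PowerSeries.mk (fun j => ((rmat (cut R k)) ^ j) k k)

/-- det (1 - X A) as a power series. -/
noncomputable def dser {n : ℕ} (R : Fin n → Fin n → Prop) : PowerSeries (ZMod 2) :=
  (1 - (PowerSeries.X : PowerSeries (ZMod 2)) • (rmat R).map (PowerSeries.C (R := ZMod 2))).det

/-- Matrix of the relation restricted to indices below `t`. -/
private noncomputable def detaA {n : ℕ} (R : Fin n → Fin n → Prop) (t : ℕ) : Matrix (Fin n) (Fin n) (ZMod 2) :=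
  rmat (fun i j => R i j ∧ i.val < t ∧ j.val < t)

private lemma deta_congr {n : ℕ} {R S : Fin n → Fin n → Prop} {i j : Fin n} (h : R i j ↔ S i j) :
    rmat R i j = rmat S i j := by
  by_cases h1 : R i j
  · have h2 : S i j := h.1 h1
    simp [rmat, h1, h2]
  · have h2 : ¬ S i j := fun h3 => h1 (h.2 h3)
    simp [rmat, h1, h2]

/-- `det (1 - X A)` for the restricted matrix. -/
private noncomputable def detaM {n : ℕ} (R : Fin n → Fin n → Prop) (t : ℕ) :
    Matrix (Fin n) (Fin n) (PowerSeries (ZMod 2)) :=
  1 - (PowerSeries.X : PowerSeries (ZMod 2)) • (detaA R t).map (PowerSeries.C (R := ZMod 2))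

private lemma deta_inv {n : ℕ} (A : Matrix (Fin n) (Fin n) (ZMod 2)) :
    (1 - (PowerSeries.X : PowerSeries (ZMod 2)) • A.map (PowerSeries.C (R := ZMod 2))) *
      (Matrix.of fun a b => PowerSeries.mk (fun j => (A ^ j) a b)) = 1 := by
  ext a b j
  rw [sub_mul, one_mul, Matrix.sub_apply, Matrix.smul_mul, Matrix.smul_apply, smul_eq_mul, map_sub,
    Matrix.of_apply, PowerSeries.coeff_mk]
  cases j with
  | zero =>
    rw [PowerSeries.coeff_zero_X_mul, sub_zero, pow_zero]
    by_cases hab : a = b
    · subst hab; simp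
    · simp [Matrix.one_apply_ne hab]
  | succ j =>
    rw [PowerSeries.coeff_succ_X_mul, Matrix.mul_apply, map_sum, pow_succ', Matrix.mul_apply]
    simp only [Matrix.map_apply, Matrix.of_apply, PowerSeries.coeff_C_mul, PowerSeries.coeff_mk, sub_self]
    by_cases hab : a = b
    · subst hab; simp [PowerSeries.coeff_one]
    · simp [Matrix.one_apply_ne hab]

private lemma deta_step {n : ℕ} (R : Fin n → Fin n → Prop) (k : Fin n) :
    pser R k * (detaM R (k.val + 1)).det = (detaM R k.val).det := by
  classical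
  have hcut : rmat (cut R k) = detaA R (k.val + 1) := by
    ext i j
    simp only [rmat, detaA, cut, Matrix.of_apply, Fin.le_def, Nat.lt_succ_iff]
  set M := detaM R (k.val + 1) with hM
  set G : Matrix (Fin n) (Fin n) (PowerSeries (ZMod 2)) :=
    Matrix.of fun a b => PowerSeries.mk (fun j => ((detaA R (k.val + 1)) ^ j) a b) with hG
  have hMG : M * G = 1 := deta_inv _
  have hadj : M.adjugate = M.det • G := by
    have h := congrArg (fun Z => M.adjugate * Z) hMG
    simp only [mul_one] at h
    rw [← mul_assoc, Matrix.adjugate_mul, Matrix.smul_mul, one_mul] at h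
    exact h.symm
  have hp : pser R k = G k k := by
    rw [pser, hcut, hG, Matrix.of_apply]
  have h1 : pser R k * M.det = M.adjugate k k := by
    rw [hadj, Matrix.smul_apply, smul_eq_mul, hp, mul_comm]
  rw [h1, Matrix.adjugate_apply]
  symm
  refine Matrix.det_eq_of_forall_row_eq_smul_add_const
    (fun i => if i = k then 0 else - (M.updateRow k (Pi.single k 1)) i k) k (by simp) ?_
  intro i j
  by_cases hik : i = k
  · subst hik
    rw [if_pos rfl, zero_mul, add_zero, Matrix.updateRow_self]
    simp only [detaM, detaA, rmat, Matrix.sub_apply, Matrix.smul_apply, Matrix.map_apply, Matrix.of_apply,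
      lt_irrefl, false_and, and_false, if_false, map_zero, smul_zero, sub_zero]
    rw [Matrix.one_apply, Pi.single_apply]
    by_cases hij : i = j
    · simp [hij]
    · rw [if_neg hij, if_neg (Ne.symm hij)]
  · rw [if_neg hik, Matrix.updateRow_ne hik, Matrix.updateRow_self, hM]
    by_cases hjk : j = k
    · subst hjk
      rw [Pi.single_eq_same, mul_one, add_neg_cancel]
      simp only [detaM, detaA, rmat, Matrix.sub_apply, Matrix.smul_apply, Matrix.map_apply, Matrix.of_apply,
        lt_irrefl, and_false, if_false, map_zero, smul_zero, sub_zero]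
      rw [Matrix.one_apply_ne hik]
    · rw [Pi.single_eq_of_ne hjk, mul_zero, add_zero]
      have hi' : i.val ≠ k.val := fun h => hik (Fin.ext h)
      have hj' : j.val ≠ k.val := fun h => hjk (Fin.ext h)
      have hi2 : (i.val < k.val) ↔ (i.val < k.val + 1) := by omega
      have hj2 : (j.val < k.val) ↔ (j.val < k.val + 1) := by omega
      have hc : detaA R k.val i j = detaA R (k.val + 1) i j := by
        refine deta_congr ?_
        rw [hi2, hj2]
      rw [detaM, detaM, Matrix.sub_apply, Matrix.sub_apply, Matrix.smul_apply, Matrix.smul_apply,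
        Matrix.map_apply, Matrix.map_apply, hc]

private lemma deta_prod {n : ℕ} (R : Fin n → Fin n → Prop) (t : ℕ) (ht : t ≤ n) :
    (∏ k ∈ Finset.range t, (if h : k < n then pser R ⟨k, h⟩ else 1)) * (detaM R t).det = 1 := by
  induction t with
  | zero =>
    rw [Finset.range_zero, Finset.prod_empty, one_mul]
    have : detaM R 0 = 1 := by
      ext i j
      simp [detaM, detaA, rmat]
    rw [this, Matrix.det_one]
  | succ t ih =>
    have h := ih (by omega)
    rw [Finset.prod_range_succ, dif_pos (show t < n by omega), mul_assoc,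
      deta_step R ⟨t, by omega⟩]
    exact h

/-- Job DETA. Chistov's formula. Proof: let A_k be the matrix of cut R k and d_k = det (1 - X A_k), d_{-1} = 1, d_{n-1} = dser R. The matrix 1 - X A_k has the inverse with entries ∑ X^j (A_k^j)_{ab}, so by Cramer's rule
pser R k * d_k = adjugate (1 - X A_k) k k = det of 1 - X A_k with row and column k replaced by those of the unit matrix = d_{k-1} (the rows with index > k of 1 - X A_k are unit rows anyway). Multiply over k. -/
theorem prod_pser_mul_dser {n : ℕ} (R : Fin n → Fin n → Prop) : (∏ k, pser R k) * dser R = 1 := by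
  have h := deta_prod R n le_rfl
  rw [Finset.prod_range] at h
  have h2 : detaM R n = 1 - (PowerSeries.X : PowerSeries (ZMod 2)) • (rmat R).map (PowerSeries.C (R := ZMod 2)) := by
    have h3 : detaA R n = rmat R := by
      ext i j
      exact deta_congr ⟨fun h => h.1, fun h => ⟨h, i.isLt, j.isLt⟩⟩
    rw [detaM, h3]
  rw [h2] at h
  rw [dser, ← h]
  congr 1
  refine Finset.prod_congr rfl fun k _ => ?_
  rw [dif_pos k.isLt]

private theorem detb_two : (2 : PowerSeries (ZMod 2)) = 0 := by
  have h : (PowerSeries.C (R := ZMod 2)) 2 = 2 := map_ofNat _ 2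
  rw [← h]
  have h2 : (2 : ZMod 2) = 0 := by decide
  rw [h2, map_zero]

/-- Job DETB. Inverse of a power series over `ZMod 2`: S^(2^L) = 1 modulo X^(2^L), so the inverse is S^(2^L - 1) = ∏ l < L, S^(2^l) modulo X^(2^L). -/
theorem coeff_inv {S Q : PowerSeries (ZMod 2)} (h : S * Q = 1) (h0 : PowerSeries.constantCoeff S = 1) (L j : ℕ) (hj : j < 2 ^ L) :
    PowerSeries.coeff j Q = PowerSeries.coeff j (∏ l ∈ Finset.range L, S ^ (2 ^ l)) := by
  have hprod : ∀ L : ℕ, (∏ l ∈ Finset.range L, S ^ (2 ^ l)) * S = S ^ (2 ^ L) := by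
    intro L
    induction L with
    | zero => simp
    | succ L ih =>
      rw [Finset.prod_range_succ, mul_right_comm, ih, ← pow_add]
      congr 1
      rw [pow_succ]; ring
  obtain ⟨T, hT⟩ : (PowerSeries.X : PowerSeries (ZMod 2)) ∣ (S - 1) := by
    rw [PowerSeries.X_dvd_iff]
    simp [h0]
  have hS : S = 1 + PowerSeries.X * T := by rw [← hT]; ring
  have hpow : ∀ L : ℕ, S ^ (2 ^ L) = 1 + (PowerSeries.X * T) ^ (2 ^ L) := by
    intro L
    induction L with
    | zero => simpa using hS
    | succ L ih =>
      rw [pow_succ 2 L, pow_mul, ih, pow_mul]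
      have h2 : (2 : PowerSeries (ZMod 2)) = 0 := detb_two
      calc (1 + (PowerSeries.X * T) ^ 2 ^ L) ^ 2 = 1 + 2 * (PowerSeries.X * T) ^ 2 ^ L + ((PowerSeries.X * T) ^ 2 ^ L) ^ 2 := by ring
        _ = 1 + ((PowerSeries.X * T) ^ 2 ^ L) ^ 2 := by rw [h2]; ring
  set P := ∏ l ∈ Finset.range L, S ^ (2 ^ l) with hP
  have hPQ : P = Q + PowerSeries.X ^ (2 ^ L) * (T ^ (2 ^ L) * Q) := by
    calc P = P * (S * Q) := by rw [h, mul_one]
      _ = (P * S) * Q := by ring
      _ = (1 + (PowerSeries.X * T) ^ (2 ^ L)) * Q := by rw [hprod, hpow]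
      _ = Q + PowerSeries.X ^ (2 ^ L) * (T ^ (2 ^ L) * Q) := by rw [mul_pow]; ring
  rw [hPQ, map_add]
  have hz : PowerSeries.coeff j (PowerSeries.X ^ (2 ^ L) * (T ^ (2 ^ L) * Q)) = 0 := by
    have hd : (PowerSeries.X : PowerSeries (ZMod 2)) ^ (2 ^ L) ∣ PowerSeries.X ^ (2 ^ L) * (T ^ (2 ^ L) * Q) := dvd_mul_right _ _
    exact (PowerSeries.X_pow_dvd_iff.mp hd) j hj
  rw [hz, add_zero]

/-- Job DETB. Squares over `ZMod 2`. -/
theorem coeff_sq (S : PowerSeries (ZMod 2)) (j : ℕ) :
    PowerSeries.coeff j (S ^ 2) = if Even j then PowerSeries.coeff (j / 2) S else 0 := by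
  classical
  rw [sq, PowerSeries.coeff_mul]
  split_ifs with hj
  · obtain ⟨k, hk⟩ := hj
    have hk2 : j / 2 = k := by omega
    have hmem : (k, k) ∈ Finset.HasAntidiagonal.antidiagonal j := by rw [Finset.HasAntidiagonal.mem_antidiagonal]; omega
    rw [hk2, ← Finset.add_sum_erase _ _ hmem]
    have hz : ∑ p ∈ (Finset.HasAntidiagonal.antidiagonal j).erase (k, k), PowerSeries.coeff p.1 S * PowerSeries.coeff p.2 S = 0 := by
      refine Finset.sum_involution (fun p _ => p.swap) ?_ ?_ ?_ ?_
      · intro p _
        show PowerSeries.coeff p.1 S * PowerSeries.coeff p.2 S + PowerSeries.coeff p.2 S * PowerSeries.coeff p.1 S = 0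
        rw [mul_comm (PowerSeries.coeff p.2 S)]
        exact CharTwo.add_self_eq_zero _
      · intro p hp _ hc
        rw [Finset.mem_erase, Finset.HasAntidiagonal.mem_antidiagonal] at hp
        apply hp.1
        have h1 : p.2 = p.1 := congrArg Prod.fst hc
        apply Prod.ext
        · show p.1 = k
          omega
        · show p.2 = k
          omega
      · intro p hp
        rw [Finset.mem_erase, Finset.HasAntidiagonal.mem_antidiagonal] at hp ⊢
        refine ⟨fun hc => hp.1 ?_, by simpa [add_comm] using hp.2⟩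
        have h1 : p.2 = k := congrArg Prod.fst hc
        have h2 : p.1 = k := congrArg Prod.snd hc
        exact Prod.ext h2 h1
      · intro p _
        exact Prod.swap_swap p
    rw [hz, add_zero]
    generalize PowerSeries.coeff k S = x
    revert x
    decide
  · refine Finset.sum_involution (fun p _ => p.swap) ?_ ?_ ?_ ?_
    · intro p _
      show PowerSeries.coeff p.1 S * PowerSeries.coeff p.2 S + PowerSeries.coeff p.2 S * PowerSeries.coeff p.1 S = 0
      rw [mul_comm (PowerSeries.coeff p.2 S)]
      exact CharTwo.add_self_eq_zero _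
    · intro p hp _ hc
      rw [Finset.HasAntidiagonal.mem_antidiagonal] at hp
      have h1 : p.2 = p.1 := congrArg Prod.fst hc
      apply hj
      exact ⟨p.1, by omega⟩
    · intro p hp
      rw [Finset.HasAntidiagonal.mem_antidiagonal] at hp ⊢
      simpa [add_comm] using hp
    · intro p _
      exact Prod.swap_swap p

/-- The adjacency relation without the vertices u, v. -/
def avoid {n : ℕ} (G : SimpleGraph (Fin n)) (u v : Fin n) : Fin n → Fin n → Prop :=
  fun i j => G.Adj i j ∧ i ≠ u ∧ i ≠ v ∧ j ≠ u ∧ j ≠ v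

/-- The same with ones at the places (u,u), (v,v). -/
def avoid1 {n : ℕ} (G : SimpleGraph (Fin n)) (u v : Fin n) : Fin n → Fin n → Prop :=
  fun i j => avoid G u v i j ∨ (i = j ∧ (i = u ∨ i = v))

/-- Auxiliary for DETC: the top coefficient of a product of linear factors. -/
private theorem detc_aux {ι : Type} [DecidableEq ι] (T : Finset ι) (c a : ι → ZMod 2) :
    (∀ m, T.card < m → PowerSeries.coeff m (∏ i ∈ T, (PowerSeries.C (c i) + PowerSeries.X * PowerSeries.C (a i))) = 0) ∧
    PowerSeries.coeff T.card (∏ i ∈ T, (PowerSeries.C (c i) + PowerSeries.X * PowerSeries.C (a i))) = ∏ i ∈ T, a i := by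
  induction T using Finset.induction_on with
  | empty =>
    refine ⟨fun m hm => ?_, by simp⟩
    rw [Finset.prod_empty, PowerSeries.coeff_one, if_neg]
    rw [Finset.card_empty] at hm
    omega
  | insert i T hi ih =>
    have hexp : ∀ m, PowerSeries.coeff (m + 1) (∏ i ∈ insert i T, (PowerSeries.C (c i) + PowerSeries.X * PowerSeries.C (a i))) =
        c i * PowerSeries.coeff (m + 1) (∏ i ∈ T, (PowerSeries.C (c i) + PowerSeries.X * PowerSeries.C (a i))) +
        a i * PowerSeries.coeff m (∏ i ∈ T, (PowerSeries.C (c i) + PowerSeries.X * PowerSeries.C (a i))) := by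
      intro m
      rw [Finset.prod_insert hi, add_mul, map_add, PowerSeries.coeff_C_mul, mul_assoc, PowerSeries.coeff_succ_X_mul,
        PowerSeries.coeff_C_mul]
    rw [Finset.card_insert_of_notMem hi]
    refine ⟨fun m hm => ?_, ?_⟩
    · obtain ⟨m', rfl⟩ : ∃ m', m = m' + 1 := ⟨m - 1, by omega⟩
      rw [hexp, ih.1 (m' + 1) (by omega), ih.1 m' (by omega)]
      ring
    · rw [hexp, ih.1 (T.card + 1) (by omega), ih.2, Finset.prod_insert hi]
      ring

/-- Job DETC. For u ≠ v the coefficient of X^(n-2) of det (1 - X A), A = rmat (avoid G u v), is the determinant of rmat (avoid1 G u v).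
Proof: expand det (1 - X A) = ∑ σ ∏ i (1 - X A)_{σ i, i}; the rows u, v of 1 - X A are unit rows so σ u = u, σ v = v; the other factors are (if σ i = i then 1 else 0) - X A_{σ i, i}
and A_{ii} = 0; the coefficient of X^(n-2) takes the X-part in each of the n - 2 factors. -/
theorem coeff_dser_avoid {n : ℕ} (G : SimpleGraph (Fin n)) (u v : Fin n) (huv : u ≠ v) :
    PowerSeries.coeff (n - 2) (dser (avoid G u v)) = (rmat (avoid1 G u v)).det := by
  classical
  unfold dser
  rw [Matrix.det_apply, Matrix.det_apply, map_sum]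
  refine Finset.sum_congr rfl fun σ _ => ?_
  rw [Units.smul_def, Units.smul_def, map_zsmul]
  congr 1
  -- the matrix entries
  set A : Fin n → Fin n → ZMod 2 := fun i j => rmat (avoid G u v) i j with hA
  have hA' : ∀ i j, A i j = if avoid G u v i j then 1 else 0 := by
    intro i j
    simp [hA, rmat]
  have hB' : ∀ i j, rmat (avoid1 G u v) i j = if avoid1 G u v i j then 1 else 0 := by
    intro i j
    simp [rmat]
  have hent : ∀ i j, (1 - (PowerSeries.X : PowerSeries (ZMod 2)) • (rmat (avoid G u v)).map (PowerSeries.C (R := ZMod 2))) i j =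
      PowerSeries.C (if i = j then (1 : ZMod 2) else 0) + PowerSeries.X * PowerSeries.C (- A i j) := by
    intro i j
    rw [Matrix.sub_apply, Matrix.smul_apply, Matrix.map_apply, Matrix.one_apply, smul_eq_mul, map_neg]
    split_ifs with hij
    · rw [map_one]; ring
    · rw [map_zero]; ring
  have hAu : ∀ i, A i u = 0 := by
    intro i
    rw [hA', if_neg]
    rintro ⟨_, _, _, h, _⟩
    exact h rfl
  have hAv : ∀ i, A i v = 0 := by
    intro i
    rw [hA', if_neg]
    rintro ⟨_, _, _, _, h⟩
    exact h rfl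
  by_cases hu : σ u = u
  · by_cases hv : σ v = v
    · -- main case
      set T : Finset (Fin n) := (Finset.univ.erase u).erase v with hT
      have hcard : T.card = n - 2 := by
        rw [hT, Finset.card_erase_of_mem (Finset.mem_erase.mpr ⟨huv.symm, Finset.mem_univ _⟩),
          Finset.card_erase_of_mem (Finset.mem_univ _), Finset.card_univ, Fintype.card_fin]
        omega
      have hsplit : ∀ {M : Type} [CommMonoid M] (f : Fin n → M), ∏ i, f i = f u * (f v * ∏ i ∈ T, f i) := by
        intro M _ f
        rw [hT, Finset.mul_prod_erase _ _ (Finset.mem_erase.mpr ⟨huv.symm, Finset.mem_univ _⟩),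
          Finset.mul_prod_erase _ _ (Finset.mem_univ _)]
      rw [hsplit, hsplit (fun i => rmat (avoid1 G u v) (σ i) i)]
      have f1 : (1 - (PowerSeries.X : PowerSeries (ZMod 2)) • (rmat (avoid G u v)).map (PowerSeries.C (R := ZMod 2))) (σ u) u = 1 := by
        rw [hent, hu, if_pos rfl, hAu, neg_zero, map_zero, map_one, mul_zero, add_zero]
      have f2 : (1 - (PowerSeries.X : PowerSeries (ZMod 2)) • (rmat (avoid G u v)).map (PowerSeries.C (R := ZMod 2))) (σ v) v = 1 := by
        rw [hent, hv, if_pos rfl, hAv, neg_zero, map_zero, map_one, mul_zero, add_zero]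
      have g1 : rmat (avoid1 G u v) (σ u) u = 1 := by
        rw [hB', hu, if_pos]
        exact Or.inr ⟨rfl, Or.inl rfl⟩
      have g2 : rmat (avoid1 G u v) (σ v) v = 1 := by
        rw [hB', hv, if_pos]
        exact Or.inr ⟨rfl, Or.inr rfl⟩
      rw [f1, f2, g1, g2, one_mul, one_mul, one_mul, one_mul]
      have hpr : ∏ i ∈ T, (1 - (PowerSeries.X : PowerSeries (ZMod 2)) • (rmat (avoid G u v)).map (PowerSeries.C (R := ZMod 2))) (σ i) i =
          ∏ i ∈ T, (PowerSeries.C (if σ i = i then (1 : ZMod 2) else 0) + PowerSeries.X * PowerSeries.C (- A (σ i) i)) :=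
        Finset.prod_congr rfl fun i _ => hent _ _
      rw [hpr, ← hcard, (detc_aux T _ _).2]
      refine Finset.prod_congr rfl fun i hi => ?_
      rw [hT, Finset.mem_erase, Finset.mem_erase] at hi
      rw [hB', hA']
      have hneg : ∀ x : ZMod 2, -x = x := by decide
      rw [hneg]
      refine if_congr ?_ rfl rfl
      constructor
      · exact fun h => Or.inl h
      · rintro (h | ⟨h1, h2 | h2⟩)
        · exact h
        · exact absurd (h1.symm.trans h2) hi.2.1
        · exact absurd (h1.symm.trans h2) hi.1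
    · -- σ v ≠ v
      rw [Finset.prod_eq_zero (Finset.mem_univ v), Finset.prod_eq_zero (Finset.mem_univ v), map_zero]
      · rw [hB', if_neg]
        rintro (⟨_, _, _, _, h⟩ | ⟨h, _⟩)
        · exact h rfl
        · exact hv h
      · rw [hent, if_neg hv, hAv, neg_zero, map_zero, mul_zero, add_zero]
  · rw [Finset.prod_eq_zero (Finset.mem_univ u), Finset.prod_eq_zero (Finset.mem_univ u), map_zero]
    · rw [hB', if_neg]
      rintro (⟨_, _, _, h, _⟩ | ⟨h, _⟩)
      · exact h rfl
      · exact hu h
    · rw [hent, if_neg hu, hAu, neg_zero, map_zero, mul_zero, add_zero]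

/-- The candidate edges. -/
def cand {n : ℕ} (G : SimpleGraph (Fin n)) (u v : Fin n) : Prop :=
  G.Adj u v ∧ PowerSeries.coeff (n - 2) (dser (avoid G u v)) = 1

/-- Auxiliary for DETD: the determinant of a symmetric 0-1 matrix over `ZMod 2` counts involutions. -/
private theorem detd_det {n : ℕ} (G : SimpleGraph (Fin n)) (u v : Fin n) [DecidablePred fun σ : Equiv.Perm (Fin n) => (∀ i, avoid1 G u v (σ i) i) ∧ σ⁻¹ = σ] :
    (rmat (avoid1 G u v)).det =
      ((Finset.univ.filter fun σ : Equiv.Perm (Fin n) => (∀ i, avoid1 G u v (σ i) i) ∧ σ⁻¹ = σ).card : ZMod 2) := by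
  classical
  have hneg : ∀ x : ZMod 2, -x = x := by decide
  have hterm : ∀ σ : Equiv.Perm (Fin n), (Equiv.Perm.sign σ • ∏ i, rmat (avoid1 G u v) (σ i) i) =
      if (∀ i, avoid1 G u v (σ i) i) then (1 : ZMod 2) else 0 := by
    intro σ
    have h1 : (Equiv.Perm.sign σ • ∏ i, rmat (avoid1 G u v) (σ i) i) = ∏ i, rmat (avoid1 G u v) (σ i) i := by
      rcases Int.units_eq_one_or (Equiv.Perm.sign σ) with h | h
      · rw [h, one_smul]
      · rw [h, Units.neg_smul, one_smul, hneg]
    rw [h1]
    split_ifs with h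
    · refine Finset.prod_eq_one fun i _ => ?_
      simp [rmat, h i]
    · push Not at h
      obtain ⟨i, hi⟩ := h
      refine Finset.prod_eq_zero (Finset.mem_univ i) ?_
      simp [rmat, hi]
  have hsymm : ∀ i j, avoid1 G u v i j → avoid1 G u v j i := by
    rintro i j (⟨h1, h2, h3, h4, h5⟩ | ⟨h1, h2⟩)
    · exact Or.inl ⟨h1.symm, h4, h5, h2, h3⟩
    · exact Or.inr ⟨h1.symm, h1 ▸ h2⟩
  have hinv : ∀ σ : Equiv.Perm (Fin n), (∀ i, avoid1 G u v (σ i) i) → ∀ i, avoid1 G u v (σ⁻¹ i) i := by
    intro σ hσ i
    have := hσ (σ⁻¹ i)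
    have h2 : σ (σ⁻¹ i) = i := by simp
    rw [h2] at this
    exact hsymm _ _ this
  rw [Matrix.det_apply, Finset.sum_congr rfl (fun σ _ => hterm σ)]
  rw [← Finset.sum_filter_add_sum_filter_not Finset.univ (fun σ : Equiv.Perm (Fin n) => σ⁻¹ = σ)]
  have hz : ∑ σ ∈ Finset.univ.filter (fun σ : Equiv.Perm (Fin n) => ¬ σ⁻¹ = σ),
      (if (∀ i, avoid1 G u v (σ i) i) then (1 : ZMod 2) else 0) = 0 := by
    refine Finset.sum_involution (fun σ _ => σ⁻¹) ?_ ?_ ?_ ?_
    · intro σ _
      have hiff : (∀ i, avoid1 G u v (σ⁻¹ i) i) ↔ (∀ i, avoid1 G u v (σ i) i) :=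
        ⟨fun h => by have := hinv σ⁻¹ h; rwa [inv_inv] at this, hinv σ⟩
      simp only [hiff]
      exact CharTwo.add_self_eq_zero _
    · intro σ hσ _ hc
      rw [Finset.mem_filter] at hσ
      exact hσ.2 hc
    · intro σ hσ
      rw [Finset.mem_filter] at hσ ⊢
      refine ⟨Finset.mem_univ _, fun hc => hσ.2 ?_⟩
      rw [inv_inv] at hc
      exact hc.symm
    · intro σ _
      exact inv_inv σ
  rw [hz, add_zero, ← Finset.sum_filter, Finset.filter_filter, Finset.sum_const, nsmul_eq_mul, mul_one]
  congr 2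
  ext σ
  simp only [Finset.mem_filter]
  tauto

/-- Job DETD. If the perfect matching is unique the candidate edges are its edges.
Proof: over `ZMod 2` the determinant is the number of permutations σ with all (σ i, i) in the relation avoid1 G u v, modulo 2 (symmetric relation); σ ↦ σ⁻¹ pairs those which are not involutions. The involutions correspond to mate maps
m₂ of G with m₂ u = v (σ fixes u, v, has no other fixed point; m₂ = σ outside {u, v}). There is one such mate map if m u = v, none otherwise. -/
theorem cand_iff {n : ℕ} {G : SimpleGraph (Fin n)} {m : Fin n → Fin n} (hm : IsMate G m) (hu : ∀ m₂, IsMate G m₂ → m₂ = m) (u v : Fin n) :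
    cand G u v ↔ m u = v := by
  classical
  by_cases hadj : G.Adj u v
  swap
  · constructor
    · exact fun h => absurd h.1 hadj
    · intro h
      exact absurd (h ▸ hm.adj u) hadj
  have huv : u ≠ v := hadj.ne
  unfold cand
  rw [coeff_dser_avoid G u v huv, detd_det]
  have hinj : ∀ σ : Equiv.Perm (Fin n), (∀ i, avoid1 G u v (σ i) i) → σ u = u ∧ σ v = v ∧
      ∀ i, i ≠ u → i ≠ v → G.Adj (σ i) i ∧ σ i ≠ u ∧ σ i ≠ v := by
    intro σ hσ
    refine ⟨?_, ?_, ?_⟩
    · rcases hσ u with ⟨_, _, _, h, _⟩ | ⟨h, _⟩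
      · exact absurd rfl h
      · exact h
    · rcases hσ v with ⟨_, _, _, _, h⟩ | ⟨h, _⟩
      · exact absurd rfl h
      · exact h
    · intro i h1 h2
      rcases hσ i with ⟨h3, h4, h5, _, _⟩ | ⟨h3, h4 | h4⟩
      · exact ⟨h3, h4, h5⟩
      · exact absurd (h3.symm.trans h4) h1
      · exact absurd (h3.symm.trans h4) h2
  -- involutions give mate maps
  have hmate : ∀ σ : Equiv.Perm (Fin n), (∀ i, avoid1 G u v (σ i) i) → σ⁻¹ = σ →
      (fun i => if i = u then v else if i = v then u else σ i) = m := by
    intro σ hσ hinv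
    obtain ⟨h1, h2, h3⟩ := hinj σ hσ
    apply hu
    have hss : ∀ i, σ (σ i) = i := by
      intro i
      have : σ⁻¹ (σ i) = i := by simp
      rw [hinv] at this
      exact this
    constructor
    · intro x
      by_cases hx : x = u
      · simp [hx, huv.symm]
      · by_cases hx2 : x = v
        · simp [hx2, huv.symm]
        · obtain ⟨_, h5, h6⟩ := h3 x hx hx2
          simp [hx, hx2, h5, h6, hss]
    · intro x
      by_cases hx : x = u
      · simp only [hx, if_true]; exact hadj
      · by_cases hx2 : x = v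
        · simp only [hx2, huv.symm, if_false, if_true]; exact hadj.symm
        · obtain ⟨h4, _, _⟩ := h3 x hx hx2
          simp only [hx, hx2, if_false]
          exact h4.symm
  constructor
  · rintro ⟨_, h⟩
    by_contra hne
    have hempty : (Finset.univ.filter fun σ : Equiv.Perm (Fin n) => (∀ i, avoid1 G u v (σ i) i) ∧ σ⁻¹ = σ) = ∅ := by
      rw [Finset.filter_eq_empty_iff]
      rintro σ _ ⟨hσ, hinv⟩
      have := congrFun (hmate σ hσ hinv) u
      simp only [if_true] at this
      exact hne this.symm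
    rw [hempty] at h
    simp at h
  · intro hmu
    refine ⟨hadj, ?_⟩
    have hmv : m v = u := by rw [← hmu, hm.invol]
    have hnu : ∀ i, i ≠ v → m i ≠ u := fun i hi hc => hi (by rw [← hm.invol i, hc, hmu])
    have hnv : ∀ i, i ≠ u → m i ≠ v := fun i hi hc => hi (by rw [← hm.invol i, hc, hmv])
    have hτinv : Function.Involutive (fun i => if i = u ∨ i = v then i else m i) := by
      intro i
      by_cases hi : i = u ∨ i = v
      · simp [hi]
      · have hi1 : i ≠ u := fun h => hi (Or.inl h)
        have hi2 : i ≠ v := fun h => hi (Or.inr h)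
        simp [hi1, hi2, hnu i hi2, hnv i hi1, hm.invol]
    have hsingle : (Finset.univ.filter fun σ : Equiv.Perm (Fin n) => (∀ i, avoid1 G u v (σ i) i) ∧ σ⁻¹ = σ) =
        {hτinv.toPerm} := by
      ext σ
      rw [Finset.mem_filter, Finset.mem_singleton]
      constructor
      · rintro ⟨_, hσ, hinv⟩
        obtain ⟨h1, h2, h3⟩ := hinj σ hσ
        have hm2 := hmate σ hσ hinv
        ext i
        congr 1
        show σ i = if i = u ∨ i = v then i else m i
        by_cases hx : i = u
        · simp [hx, h1]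
        · by_cases hx2 : i = v
          · simp [hx2, h2]
          · rw [if_neg (by rintro (h | h); exacts [hx h, hx2 h]), ← hm2]
            simp [hx, hx2]
      · rintro rfl
        refine ⟨Finset.mem_univ _, ?_, ?_⟩
        · intro i
          show avoid1 G u v (if i = u ∨ i = v then i else m i) i
          by_cases hi : i = u ∨ i = v
          · rw [if_pos hi]
            exact Or.inr ⟨rfl, hi⟩
          · rw [if_neg hi]
            have hi1 : i ≠ u := fun h => hi (Or.inl h)
            have hi2 : i ≠ v := fun h => hi (Or.inr h)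
            exact Or.inl ⟨(hm.adj i).symm, hnu i hi2, hnv i hi1, hi1, hi2⟩
        · ext i
          rfl
    rw [hsingle]
    simp

/-- The candidate map. -/
noncomputable def cmate {n : ℕ} (G : SimpleGraph (Fin n)) (u : Fin n) : Fin n := by
  classical exact if h : ∃! v, cand G u v then h.choose else u

theorem cmate_eq {n : ℕ} {G : SimpleGraph (Fin n)} {m : Fin n → Fin n} (hm : IsMate G m) (hu : ∀ m₂, IsMate G m₂ → m₂ = m) :
    cmate G = m := by
  funext u
  have h : ∃! v, cand G u v := ⟨m u, (cand_iff hm hu u (m u)).2 rfl, fun v hv => ((cand_iff hm hu u v).1 hv).symm⟩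
  rw [cmate, dif_pos h]
  exact ((cand_iff hm hu u _).1 h.choose_spec.1).symm

end Pool.Agent.UPM
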