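import Pool.Agent.Lib.MP_0087d5_lc.UPM.NCPlib
import Pool.Agent.Lib.MP_0087d5_lc.UPM.Det

/-!
# Determinants modulo 2 as parallel programs

Jobs DN1, DN2, DN3, DN4. The relation with parameters: `Q n s x : Fin n → Fin n → Prop`, variables: parameters `some (some i)`, row `some none`, column `none`.
-/

namespace Pool.Agent.UPM

variable {S : ℕ → Type} {B : Readers S} {ι : Type}

/-- Reading one of the iterated relations. -/
private theorem dn1_new {κ Fl κ' : Type} (hκ : Finite κ) (hκ' : Finite κ') (f : Fl) (e : κ → κ')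
    {P : RF (fun n => S n × RelF κ Fl n) κ'} (h : ∀ n s x, P n s x ↔ s.2 f (fun i => x (e i))) :
    NCP (fun n => S n × RelF κ Fl n) (Ext B κ Fl) κ' P :=
  NCP.congr (NCP.comap hκ' e (NCP.base hκ (Ext.new f))) (fun n s x => (h n s x).symm)

/-- Weakening to the input with additional relations. -/
private theorem dn1_weak {κ Fl κ' : Type} {P : RF S κ'} (h : NCP S B κ' P) :
    NCP (fun n => S n × RelF κ Fl n) (Ext B κ Fl) κ' (fun n s x => P n s.1 x) :=
  NCP.pull (S' := fun n => S n × RelF κ Fl n) (B' := Ext B κ Fl) (fun _ s => s.1)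
    (fun _ hι _ hP => NCP.base hι (Ext.old hP)) h

private theorem dn1_z2 (x : ZMod 2) : x = if x = 1 then 1 else 0 := by
  revert x
  decide

private theorem dn1_mul_eq_one (x y : ZMod 2) : x * y = 1 ↔ x = 1 ∧ y = 1 := by
  revert x y
  decide

/-- Sums over `ZMod 2`. -/
private theorem dn1_sum_iff {α : Type} [Fintype α] (g : α → ZMod 2) :
    ∑ a, g a = 1 ↔ Odd {a | g a = 1}.ncard := by
  classical
  have h2 : ∑ a, g a = ((Finset.univ.filter (fun a => g a = 1)).card : ZMod 2) := by
    rw [Finset.card_filter]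
    push_cast
    exact Finset.sum_congr rfl (fun a _ => dn1_z2 (g a))
  have h3 : {a | g a = 1} = ((Finset.univ.filter (fun a => g a = 1) : Finset α) : Set α) := by
    ext a
    simp
  rw [h2, ZMod.natCast_eq_one_iff_odd, h3, Set.ncard_coe_finset]

/-- Coefficients of products. -/
private theorem dn1_conv_iff {n : ℕ} (P T : PowerSeries (ZMod 2)) (j : Fin n) :
    PowerSeries.coeff (j : ℕ) (P * T) = 1 ↔
      Odd {a : Fin n | PowerSeries.coeff (a : ℕ) P = 1 ∧ ∃ b : Fin n, (a : ℕ) + (b : ℕ) = (j : ℕ) ∧
        PowerSeries.coeff (b : ℕ) T = 1}.ncard := by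
  have h1 : PowerSeries.coeff (j : ℕ) (P * T) = ∑ a : Fin n, (if (a : ℕ) ≤ (j : ℕ) then
      PowerSeries.coeff (a : ℕ) P * PowerSeries.coeff ((j : ℕ) - (a : ℕ)) T else 0) := by
    rw [PowerSeries.coeff_mul, Finset.Nat.sum_antidiagonal_eq_sum_range_succ
      (fun a b => PowerSeries.coeff a P * PowerSeries.coeff b T),
      Fin.sum_univ_eq_sum_range (fun a => if a ≤ (j : ℕ) then
        PowerSeries.coeff a P * PowerSeries.coeff ((j : ℕ) - a) T else 0) n, ← Finset.sum_filter]
    refine Finset.sum_congr ?_ (fun _ _ => rfl)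
    ext a
    have := j.2
    simp only [Finset.mem_range, Finset.mem_filter]
    omega
  rw [h1, dn1_sum_iff]
  have h2 : {a : Fin n | (if (a : ℕ) ≤ (j : ℕ) then
      PowerSeries.coeff (a : ℕ) P * PowerSeries.coeff ((j : ℕ) - (a : ℕ)) T else 0) = 1} =
      {a : Fin n | PowerSeries.coeff (a : ℕ) P = 1 ∧ ∃ b : Fin n, (a : ℕ) + (b : ℕ) = (j : ℕ) ∧
        PowerSeries.coeff (b : ℕ) T = 1} := by
    ext a
    simp only [Set.mem_ofPred_eq]
    by_cases haj : (a : ℕ) ≤ (j : ℕ)
    · rw [if_pos haj, dn1_mul_eq_one]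
      constructor
      · rintro ⟨h3, h4⟩
        exact ⟨h3, ⟨(j : ℕ) - (a : ℕ), by have := j.2; omega⟩, by simp only; omega, h4⟩
      · rintro ⟨h3, b, hb, h4⟩
        refine ⟨h3, ?_⟩
        rw [← hb, Nat.add_sub_cancel_left]
        exact h4
    · rw [if_neg haj]
      constructor
      · intro h
        exact (zero_ne_one h).elim
      · rintro ⟨-, b, hb, -⟩
        omega
  rw [h2]

/-- The tuple of the parameters, exponent, row and column. -/
private def dn1_pk {n : ℕ} (p : ι → Fin n) (j a b : Fin n) : Option (Option (Option ι)) → Fin n :=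
  fun o => o.elim b (fun o => o.elim a (fun o => o.elim j p))

/-- One step of the computation of the powers. -/
private def dn1_F (Q : ∀ n, S n → (ι → Fin n) → Fin n → Fin n → Prop) :
    RF (fun n => S n × RelF (Option (Option (Option ι))) Unit n) (Option (Option (Option ι))) := fun n s z =>
  (((z (some (some none)) : Fin n) : ℕ) = 0 ∧ z (some none) = z none) ∨
  ((((z (some (some none)) : Fin n) : ℕ) = 1 ∧ Q n s.1 (fun i => z (some (some (some i)))) (z (some none)) (z none)) ∨
  ((¬ ((z (some (some none)) : Fin n) : ℕ) = 0 ∧ ¬ ((z (some (some none)) : Fin n) : ℕ) = 1) ∧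
    Odd {w : Fin n | ∃ j1 : Fin n, ∃ j2 : Fin n, ((j1 : ℕ) = ((z (some (some none)) : Fin n) : ℕ) / 2 ∧
      (j1 : ℕ) + (j2 : ℕ) = ((z (some (some none)) : Fin n) : ℕ)) ∧
      (s.2 () (dn1_pk (fun i => z (some (some (some i)))) j1 (z (some none)) w) ∧
       s.2 () (dn1_pk (fun i => z (some (some (some i)))) j2 w (z none)))}.ncard))

/-- The start of the computation of the powers. -/
private def dn1_H (Q : ∀ n, S n → (ι → Fin n) → Fin n → Fin n → Prop) : RF S (Option (Option (Option ι))) := fun n s z =>
  (((z (some (some none)) : Fin n) : ℕ) = 0 ∧ z (some none) = z none) ∨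
  (((z (some (some none)) : Fin n) : ℕ) = 1 ∧ Q n s (fun i => z (some (some (some i)))) (z (some none)) (z none))

private theorem dn1_H_ncp (hι : Finite ι) {Q : ∀ n, S n → (ι → Fin n) → Fin n → Fin n → Prop}
    (h : NCP S B (Option (Option ι)) (fun n s z => Q n s (fun i => z (some (some i))) (z (some none)) (z none))) :
    NCP S B (Option (Option (Option ι))) (dn1_H Q) := by
  have hκ : Finite (Option (Option (Option ι))) := inferInstance
  refine NCP.or (NCP.and (NCP.zero hκ _) (NCP.eq hκ _ _)) (NCP.and (NCP.one hκ _) ?_)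
  exact NCP.congr (NCP.comap hκ (fun o : Option (Option ι) => (o.elim none (fun o => o.elim (some none)
    (fun i => some (some (some i)))) : Option (Option (Option ι)))) h) (fun n s x => Iff.rfl)

private theorem dn1_F_ncp (hι : Finite ι) {Q : ∀ n, S n → (ι → Fin n) → Fin n → Fin n → Prop}
    (h : NCP S B (Option (Option ι)) (fun n s z => Q n s (fun i => z (some (some i))) (z (some none)) (z none))) :
    NCP (fun n => S n × RelF (Option (Option (Option ι))) Unit n) (Ext B (Option (Option (Option ι))) Unit)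
      (Option (Option (Option ι))) (dn1_F Q) := by
  have hκ : Finite (Option (Option (Option ι))) := inferInstance
  refine NCP.or (NCP.and (NCP.zero hκ _) (NCP.eq hκ _ _)) (NCP.or (NCP.and (NCP.one hκ _) ?_)
    (NCP.and (NCP.and (NCP.not (NCP.zero hκ _)) (NCP.not (NCP.one hκ _))) ?_))
  · exact NCP.congr (NCP.comap hκ (fun o : Option (Option ι) => (o.elim none (fun o => o.elim (some none)
      (fun i => some (some (some i)))) : Option (Option (Option ι)))) (dn1_weak h)) (fun n s x => Iff.rfl)
  · refine NCP.parity ?_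
    refine NCP.ex1 (NCP.ex1 ?_)
    have hκ4 : Finite (Option (Option (Option (Option (Option (Option ι)))))) := inferInstance
    refine NCP.and (NCP.and ?_ ?_) (NCP.and ?_ ?_)
    · exact NCP.half hκ4 (some none) (some (some (some (some (some none)))))
    · exact NCP.add hκ4 (some none) none (some (some (some (some (some none)))))
    · refine dn1_new hκ hκ4 () (fun o => o.elim (some (some none)) (fun o => o.elim (some (some (some (some none))))
        (fun o => o.elim (some none) (fun i => some (some (some (some (some (some i))))))))) ?_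
      intro n s x
      refine iff_of_eq (congrArg (s.2 _) (funext fun o => ?_))
      rcases o with _ | _ | _ | o <;> rfl
    · refine dn1_new hκ hκ4 () (fun o => o.elim (some (some (some none))) (fun o => o.elim (some (some none))
        (fun o => o.elim none (fun i => some (some (some (some (some (some i))))))))) ?_
      intro n s x
      refine iff_of_eq (congrArg (s.2 _) (funext fun o => ?_))
      rcases o with _ | _ | _ | o <;> rfl

private theorem dn1_rmat {n : ℕ} (R : Fin n → Fin n → Prop) (a b : Fin n) : rmat R a b = 1 ↔ R a b := by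
  classical
  unfold rmat
  simp only [Matrix.of_apply]
  by_cases h : R a b <;> simp [h]

private theorem dn1_sem {Q : ∀ n, S n → (ι → Fin n) → Fin n → Fin n → Prop} (n : ℕ) (s : S n) (t : ℕ) :
    ∀ z : Option (Option (Option ι)) → Fin n, ((z (some (some none)) : Fin n) : ℕ) ≤ 2 ^ t →
      ((((fun (R : RelF (Option (Option (Option ι))) Unit n) (_ : Unit) (x : Option (Option (Option ι)) → Fin n) =>
        dn1_F Q n (s, R) x)^[t]) (fun _ x => dn1_H Q n s x)) () z ↔
        ((rmat (Q n s (fun i => z (some (some (some i)))))) ^ (z (some (some none)) : ℕ)) (z (some none)) (z none) = 1) := by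
  induction t with
  | zero =>
    intro z hz
    rw [Function.iterate_zero, id_eq]
    unfold dn1_H
    rw [pow_zero] at hz
    rcases Nat.le_one_iff_eq_zero_or_eq_one.1 hz with h0 | h1
    · rw [h0, pow_zero]
      constructor
      · rintro (⟨-, h⟩ | ⟨h, -⟩)
        · rw [h, Matrix.one_apply_eq]
        · exact absurd h (by norm_num)
      · intro h
        refine Or.inl ⟨rfl, ?_⟩
        by_contra hne
        rw [Matrix.one_apply_ne hne] at h
        exact zero_ne_one h
    · rw [h1, pow_one, dn1_rmat]
      constructor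
      · rintro (⟨h, -⟩ | ⟨-, h⟩)
        · exact absurd h (by norm_num)
        · exact h
      · intro h
        exact Or.inr ⟨rfl, h⟩
  | succ t ih =>
    intro z hz
    rw [Function.iterate_succ_apply']
    set Rt := (((fun (R : RelF (Option (Option (Option ι))) Unit n) (_ : Unit) (x : Option (Option (Option ι)) → Fin n) =>
        dn1_F Q n (s, R) x)^[t]) (fun _ x => dn1_H Q n s x)) with hRt
    show dn1_F Q n (s, Rt) z ↔ _
    unfold dn1_F
    set p : ι → Fin n := fun i => z (some (some (some i))) with hp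
    set j : Fin n := z (some (some none)) with hj
    set a : Fin n := z (some none) with ha
    set b : Fin n := z none with hb
    set M := rmat (Q n s p) with hM
    have hjlt := j.2
    rcases Nat.lt_or_ge (j : ℕ) 2 with hj2 | hj2
    · rcases Nat.le_one_iff_eq_zero_or_eq_one.1 (Nat.lt_succ_iff.1 hj2) with h0 | h1
      · rw [h0, pow_zero]
        constructor
        · rintro (⟨-, h⟩ | ⟨h, -⟩ | ⟨⟨h, -⟩, -⟩)
          · rw [h, Matrix.one_apply_eq]
          · exact absurd h (by norm_num)
          · exact absurd rfl h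
        · intro h
          refine Or.inl ⟨rfl, ?_⟩
          by_contra hne
          rw [Matrix.one_apply_ne hne] at h
          exact zero_ne_one h
      · rw [h1, pow_one, hM, dn1_rmat]
        constructor
        · rintro (⟨h, -⟩ | ⟨-, h⟩ | ⟨⟨-, h⟩, -⟩)
          · exact absurd h (by norm_num)
          · exact h
          · exact absurd rfl h
        · intro h
          exact Or.inr (Or.inl ⟨rfl, h⟩)
    · have e0 : ¬ ((j : ℕ) = 0) := by omega
      have e1 : ¬ ((j : ℕ) = 1) := by omega
      have hpow : (M ^ (j : ℕ)) a b = ∑ w, (M ^ ((j : ℕ) / 2)) a w * (M ^ ((j : ℕ) - (j : ℕ) / 2)) w b := by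
        rw [← Matrix.mul_apply, ← pow_add]
        have e2 : (j : ℕ) / 2 + ((j : ℕ) - (j : ℕ) / 2) = (j : ℕ) := by omega
        rw [e2]
      rw [hpow, dn1_sum_iff]
      have hset : {w : Fin n | (M ^ ((j : ℕ) / 2)) a w * (M ^ ((j : ℕ) - (j : ℕ) / 2)) w b = 1} =
          {w : Fin n | ∃ j1 : Fin n, ∃ j2 : Fin n, ((j1 : ℕ) = (j : ℕ) / 2 ∧ (j1 : ℕ) + (j2 : ℕ) = (j : ℕ)) ∧
            (Rt () (dn1_pk p j1 a w) ∧ Rt () (dn1_pk p j2 w b))} := by
        ext w
        simp only [Set.mem_ofPred_eq]
        rw [dn1_mul_eq_one]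
        rw [pow_succ] at hz
        constructor
        · rintro ⟨h1, h2⟩
          refine ⟨⟨(j : ℕ) / 2, by omega⟩, ⟨(j : ℕ) - (j : ℕ) / 2, by omega⟩, ⟨rfl, by simp only; omega⟩, ?_, ?_⟩
          · refine (ih (dn1_pk p ⟨(j : ℕ) / 2, by omega⟩ a w) ?_).2 h1
            show (j : ℕ) / 2 ≤ 2 ^ t
            omega
          · refine (ih (dn1_pk p ⟨(j : ℕ) - (j : ℕ) / 2, by omega⟩ w b) ?_).2 h2
            show (j : ℕ) - (j : ℕ) / 2 ≤ 2 ^ t
            omega
        · rintro ⟨j1, j2, ⟨hj1, hj12⟩, h1, h2⟩
          have hj2' : (j2 : ℕ) = (j : ℕ) - (j : ℕ) / 2 := by omega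
          have k1 := (ih (dn1_pk p j1 a w) (by
            show (j1 : ℕ) ≤ 2 ^ t
            omega)).1 h1
          have k2 := (ih (dn1_pk p j2 w b) (by
            show (j2 : ℕ) ≤ 2 ^ t
            omega)).1 h2
          change (M ^ (j1 : ℕ)) a w = 1 at k1
          change (M ^ (j2 : ℕ)) w b = 1 at k2
          rw [hj1] at k1
          rw [hj2'] at k2
          exact ⟨k1, k2⟩
      rw [hset]
      constructor
      · rintro (⟨h, -⟩ | ⟨h, -⟩ | ⟨-, h⟩)
        · exact absurd h e0
        · exact absurd h e1
        · exact h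
      · intro h
        exact Or.inr (Or.inr ⟨⟨e0, e1⟩, h⟩)

/-- Job DN1. Matrix powers. Proof: iterate R'(x, j, a, b): if j = 0: a = b; if j = 1: Q x a b; otherwise the parity of the number of w with R(x, ⌊j/2⌋, a, w) and R(x, ⌈j/2⌉, w, b). After t ≥ 1 applications it is correct for j ≤ 2^(t-1);
use the body composed with itself (2 * Nat.size (n-1) applications) and note that n - 1 ≤ 2^(2 * size - 1). Variables: parameters some (some (some i)), exponent some (some none), row some none, column none. -/
theorem dn_pow (hι : Finite ι) {Q : ∀ n, S n → (ι → Fin n) → Fin n → Fin n → Prop}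
    (h : NCP S B (Option (Option ι)) (fun n s z => Q n s (fun i => z (some (some i))) (z (some none)) (z none))) :
    NCP S B (Option (Option (Option ι))) (fun n s z =>
      ((rmat (Q n s (fun i => z (some (some (some i)))))) ^ (z (some (some none)) : ℕ)) (z (some none)) (z none) = 1) := by
  have hit := NCP.iter (S := S) (B := B) (κ := Option (Option (Option ι))) (Fl := Unit) inferInstance
    (H := fun _ => dn1_H Q) (F := fun _ => dn1_F Q) (fun _ => dn1_H_ncp hι h) (fun _ => dn1_F_ncp hι h) ()
  refine NCP.congr hit ?_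
  intro n s z
  refine dn1_sem n s _ z ?_
  have h1 := (z (some (some none)) : Fin n).2
  have h2 := Nat.lt_size_self (n - 1)
  omega

/-- Job DN1. The series pser: parameters some (some i), index k: some none, exponent none. -/
theorem dn_pser (hι : Finite ι) {Q : ∀ n, S n → (ι → Fin n) → Fin n → Fin n → Prop}
    (h : NCP S B (Option (Option ι)) (fun n s z => Q n s (fun i => z (some (some i))) (z (some none)) (z none))) :
    NCP S B (Option (Option ι)) (fun n s z =>
      PowerSeries.coeff (z none : ℕ) (pser (Q n s (fun i => z (some (some i)))) (z (some none))) = 1) := by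
  have hκ : Finite (Option (Option ι)) := inferInstance
  have hκ3 : Finite (Option (Option (Option ι))) := inferInstance
  have h1 : NCP S B (Option (Option (Option ι))) (fun n s z =>
      cut (Q n s (fun i => z (some (some (some i))))) (z (some (some none))) (z (some none)) (z none)) := by
    refine NCP.and ?_ (NCP.and (NCP.le hκ3 (some none) (some (some none))) (NCP.le hκ3 none (some (some none))))
    exact NCP.congr (NCP.comap hκ3 (fun o : Option (Option ι) => (o.elim none (fun o => o.elim (some none)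
      (fun i => some (some (some i)))) : Option (Option (Option ι)))) h) (fun n s x => Iff.rfl)
  have h2 := dn_pow (ι := Option ι) (Q := fun n s y a b => cut (Q n s (fun i => y (some i))) (y none) a b) inferInstance h1
  refine NCP.congr (NCP.comap hκ (fun o : Option (Option (Option (Option ι))) => (o.elim (some none) (fun o => o.elim (some none)
    (fun o => o.elim none (fun o => o.elim (some none) (fun i => some (some i))))) : Option (Option ι))) h2) ?_
  intro n s x
  unfold pser
  rw [PowerSeries.coeff_mk]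
  exact Iff.rfl

/-- The tuple of the parameters, index and exponent. -/
private def dn2_pk {n : ℕ} (p : ι → Fin n) (k a : Fin n) : Option (Option ι) → Fin n :=
  fun o => o.elim a (fun o => o.elim k p)

/-- One step of the computation of the product. -/
private def dn2_F : RF (fun n => S n × RelF (Option (Option ι)) Unit n) (Option (Option ι)) := fun n s z =>
  Odd {a : Fin n | ((∃ u : Fin n, ((u : ℕ) = 2 * ((z (some none) : Fin n) : ℕ)) ∧ s.2 () (dn2_pk (fun i => z (some (some i))) u a)) ∨
      ((¬ ∃ u : Fin n, (u : ℕ) = 2 * ((z (some none) : Fin n) : ℕ)) ∧ (a : ℕ) = 0)) ∧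
    ∃ b : Fin n, (a : ℕ) + (b : ℕ) = ((z none : Fin n) : ℕ) ∧
      ((∃ u : Fin n, ((u : ℕ) = 2 * ((z (some none) : Fin n) : ℕ) + 1) ∧ s.2 () (dn2_pk (fun i => z (some (some i))) u b)) ∨
      ((¬ ∃ u : Fin n, (u : ℕ) = 2 * ((z (some none) : Fin n) : ℕ) + 1) ∧ (b : ℕ) = 0))}.ncard

private theorem dn2_F_ncp (hι : Finite ι) :
    NCP (fun n => S n × RelF (Option (Option ι)) Unit n) (Ext B (Option (Option ι)) Unit)
      (Option (Option ι)) (dn2_F (S := S)) := by
  have hκ : Finite (Option (Option ι)) := inferInstance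
  have hκ3 : Finite (Option (Option (Option ι))) := inferInstance
  have hκ4 : Finite (Option (Option (Option (Option ι)))) := inferInstance
  have hκ5 : Finite (Option (Option (Option (Option (Option ι))))) := inferInstance
  refine NCP.parity ?_
  refine NCP.and (NCP.or (NCP.ex1 (NCP.and (NCP.dbl hκ4 none (some (some (some none)))) ?_))
    (NCP.and (NCP.not (NCP.ex1 (NCP.dbl hκ4 none (some (some (some none)))))) (NCP.zero hκ3 none))) ?_
  · refine dn1_new hκ hκ4 () (fun o => o.elim (some none) (fun o => o.elim none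
      (fun i => some (some (some (some i)))))) ?_
    intro n s x
    refine iff_of_eq (congrArg (s.2 _) (funext fun o => ?_))
    rcases o with _ | _ | o <;> rfl
  · refine NCP.ex1 (NCP.and (NCP.add hκ4 (some none) none (some (some none))) (NCP.or (NCP.ex1 (NCP.and
      (NCP.dblsucc hκ5 none (some (some (some (some none))))) ?_))
      (NCP.and (NCP.not (NCP.ex1 (NCP.dblsucc hκ5 none (some (some (some (some none))))))) (NCP.zero hκ4 none))))
    refine dn1_new hκ hκ5 () (fun o => o.elim (some none) (fun o => o.elim none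
      (fun i => some (some (some (some (some i))))))) ?_
    intro n s x
    refine iff_of_eq (congrArg (s.2 _) (funext fun o => ?_))
    rcases o with _ | _ | o <;> rfl

/-- The series extended by `1`. -/
private noncomputable def dn2_g {n : ℕ} (g : Fin n → PowerSeries (ZMod 2)) (k : ℕ) : PowerSeries (ZMod 2) :=
  if h : k < n then g ⟨k, h⟩ else 1

private theorem dn2_prod_one {n : ℕ} (g : Fin n → PowerSeries (ZMod 2)) (a b : ℕ) (h : n ≤ a) :
    ∏ k ∈ Finset.Ico a b, dn2_g g k = 1 := by
  refine Finset.prod_eq_one fun k hk => ?_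
  have := (Finset.mem_Ico.1 hk).1
  exact dif_neg (by omega)

private theorem dn2_sem {f : ∀ n, S n → (ι → Fin n) → Fin n → PowerSeries (ZMod 2)} (n : ℕ) (s : S n) (t : ℕ) :
    ∀ z : Option (Option ι) → Fin n,
      ((((fun (R : RelF (Option (Option ι)) Unit n) (_ : Unit) (x : Option (Option ι) → Fin n) =>
        dn2_F n (s, R) x)^[t]) (fun _ x => PowerSeries.coeff (x none : ℕ) (f n s (fun i => x (some (some i))) (x (some none))) = 1)) () z ↔
        PowerSeries.coeff (z none : ℕ) (∏ k ∈ Finset.Ico (((z (some none) : Fin n) : ℕ) * 2 ^ t) ((((z (some none) : Fin n) : ℕ) + 1) * 2 ^ t),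
          dn2_g (f n s (fun i => z (some (some i)))) k) = 1) := by
  induction t with
  | zero =>
    intro z
    rw [Function.iterate_zero, id_eq, pow_zero, mul_one, mul_one, Nat.Ico_succ_singleton, Finset.prod_singleton]
    unfold dn2_g
    rw [dif_pos (z (some none)).2]
  | succ t ih =>
    intro z
    rw [Function.iterate_succ_apply']
    set Rt := (((fun (R : RelF (Option (Option ι)) Unit n) (_ : Unit) (x : Option (Option ι) → Fin n) =>
        dn2_F n (s, R) x)^[t]) (fun _ x => PowerSeries.coeff (x none : ℕ) (f n s (fun i => x (some (some i))) (x (some none))) = 1)) with hRt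
    show dn2_F n (s, Rt) z ↔ _
    unfold dn2_F
    set p : ι → Fin n := fun i => z (some (some i)) with hp
    set k : Fin n := z (some none) with hk
    set j : Fin n := z none with hj
    set g := dn2_g (f n s p) with hg
    have hsplit : ∏ l ∈ Finset.Ico ((k : ℕ) * 2 ^ (t + 1)) (((k : ℕ) + 1) * 2 ^ (t + 1)), g l =
        (∏ l ∈ Finset.Ico ((2 * (k : ℕ)) * 2 ^ t) ((2 * (k : ℕ) + 1) * 2 ^ t), g l) *
        ∏ l ∈ Finset.Ico ((2 * (k : ℕ) + 1) * 2 ^ t) ((2 * (k : ℕ) + 1 + 1) * 2 ^ t), g l := by
      rw [Finset.prod_Ico_consecutive g (by gcongr; omega) (by gcongr; omega)]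
      congr 1
      congr 1 <;> ring
    have key : ∀ (e : ℕ) (a : Fin n), ((∃ u : Fin n, ((u : ℕ) = e) ∧ Rt () (dn2_pk p u a)) ∨
        ((¬ ∃ u : Fin n, (u : ℕ) = e) ∧ (a : ℕ) = 0)) ↔
        PowerSeries.coeff (a : ℕ) (∏ l ∈ Finset.Ico (e * 2 ^ t) ((e + 1) * 2 ^ t), g l) = 1 := by
      intro e a
      by_cases he : e < n
      · constructor
        · rintro (⟨u, hu, h1⟩ | ⟨h1, -⟩)
          · have h2 := (ih (dn2_pk p u a)).1 h1
            rw [← hu]
            exact h2
          · exact absurd ⟨⟨e, he⟩, rfl⟩ h1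
        · intro h1
          exact Or.inl ⟨⟨e, he⟩, rfl, (ih (dn2_pk p ⟨e, he⟩ a)).2 h1⟩
      · have hprod : ∏ l ∈ Finset.Ico (e * 2 ^ t) ((e + 1) * 2 ^ t), g l = 1 := by
          apply dn2_prod_one
          have : 0 < 2 ^ t := by positivity
          nlinarith
        rw [hprod, PowerSeries.coeff_one]
        constructor
        · rintro (⟨u, hu, -⟩ | ⟨-, h1⟩)
          · have := u.2
            omega
          · rw [if_pos h1]
        · intro h1
          refine Or.inr ⟨?_, ?_⟩
          · rintro ⟨u, hu⟩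
            have := u.2
            omega
          · by_contra hne
            rw [if_neg hne] at h1
            exact zero_ne_one h1
    rw [hsplit, dn1_conv_iff]
    have hset : {a : Fin n | ((∃ u : Fin n, ((u : ℕ) = 2 * (k : ℕ)) ∧ Rt () (dn2_pk p u a)) ∨
        ((¬ ∃ u : Fin n, (u : ℕ) = 2 * (k : ℕ)) ∧ (a : ℕ) = 0)) ∧
        ∃ b : Fin n, (a : ℕ) + (b : ℕ) = (j : ℕ) ∧
        ((∃ u : Fin n, ((u : ℕ) = 2 * (k : ℕ) + 1) ∧ Rt () (dn2_pk p u b)) ∨
        ((¬ ∃ u : Fin n, (u : ℕ) = 2 * (k : ℕ) + 1) ∧ (b : ℕ) = 0))} =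
        {a : Fin n | PowerSeries.coeff (a : ℕ) (∏ l ∈ Finset.Ico ((2 * (k : ℕ)) * 2 ^ t) ((2 * (k : ℕ) + 1) * 2 ^ t), g l) = 1 ∧
          ∃ b : Fin n, (a : ℕ) + (b : ℕ) = (j : ℕ) ∧
          PowerSeries.coeff (b : ℕ) (∏ l ∈ Finset.Ico ((2 * (k : ℕ) + 1) * 2 ^ t) ((2 * (k : ℕ) + 1 + 1) * 2 ^ t), g l) = 1} := by
      ext a
      simp only [Set.mem_ofPred_eq]
      rw [key (2 * (k : ℕ)) a]
      refine and_congr_right fun _ => exists_congr fun b => and_congr_right fun _ => key (2 * (k : ℕ) + 1) b
    rw [← hset]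

/-- Job DN2. Products of n power series over `ZMod 2`, coefficients below n.
Proof: iterate R'(x, i, j): parity of the number of a with R(x, 2i, a) and R(x, 2i+1, j - a) (a ≤ j), where for index ≥ n the series is 1; start with the given series. -/
theorem dn_prod (hι : Finite ι) {f : ∀ n, S n → (ι → Fin n) → Fin n → PowerSeries (ZMod 2)}
    (h : NCP S B (Option (Option ι)) (fun n s z =>
      PowerSeries.coeff (z none : ℕ) (f n s (fun i => z (some (some i))) (z (some none))) = 1)) :
    NCP S B (Option ι) (fun n s z =>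
      PowerSeries.coeff (z none : ℕ) (∏ k, f n s (fun i => z (some i)) k) = 1) := by
  have hκ : Finite (Option (Option ι)) := inferInstance
  have hit := NCP.iter (S := S) (B := B) (κ := Option (Option ι)) (Fl := Unit) inferInstance
    (H := fun _ => (fun n s z => PowerSeries.coeff (z none : ℕ) (f n s (fun i => z (some (some i))) (z (some none))) = 1))
    (F := fun _ => dn2_F) (fun _ => h) (fun _ => dn2_F_ncp hι) ()
  have hit2 : NCP S B (Option (Option ι)) (fun n s z => PowerSeries.coeff (z none : ℕ)
      (∏ k ∈ Finset.Ico (((z (some none) : Fin n) : ℕ) * 2 ^ (Nat.size (n - 1))) ((((z (some none) : Fin n) : ℕ) + 1) * 2 ^ (Nat.size (n - 1))),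
          dn2_g (f n s (fun i => z (some (some i)))) k) = 1) :=
    NCP.congr hit (fun n s z => dn2_sem n s _ z)
  -- the index 0
  have hfin : NCP S B (Option ι) (fun n s z => ∃ a : Fin n, (a : ℕ) = 0 ∧ PowerSeries.coeff (z none : ℕ)
      (∏ k ∈ Finset.Ico ((a : ℕ) * 2 ^ (Nat.size (n - 1))) (((a : ℕ) + 1) * 2 ^ (Nat.size (n - 1))),
          dn2_g (f n s (fun i => z (some i))) k) = 1) := by
    refine NCP.ex1 (NCP.and (NCP.zero hκ none) ?_)
    exact NCP.congr (NCP.comap hκ (fun o : Option (Option ι) => (o.elim (some none) (fun o => o.elim none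
      (fun i => some (some i))) : Option (Option ι))) hit2) (fun n s x => Iff.rfl)
  refine NCP.congr hfin ?_
  intro n s z
  have hprod : ∏ k ∈ Finset.Ico (0 * 2 ^ (Nat.size (n - 1))) ((0 + 1) * 2 ^ (Nat.size (n - 1))), dn2_g (f n s (fun i => z (some i))) k =
      ∏ k, f n s (fun i => z (some i)) k := by
    rw [zero_mul, zero_add, one_mul]
    have hn : n ≤ 2 ^ (Nat.size (n - 1)) := by
      have := Nat.lt_size_self (n - 1)
      omega
    rw [← Finset.prod_Ico_consecutive _ (Nat.zero_le n) hn, dn2_prod_one _ _ _ le_rfl, mul_one, ← Finset.range_eq_Ico,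
      Finset.prod_range]
    refine Finset.prod_congr rfl fun k _ => ?_
    unfold dn2_g
    rw [dif_pos k.2]
  constructor
  · rintro ⟨a, ha, h1⟩
    rw [ha, hprod] at h1
    exact h1
  · intro h1
    have hn := (z none).2
    refine ⟨⟨0, by omega⟩, rfl, ?_⟩
    rw [← hprod] at h1
    exact h1

/-- The tuple of the parameters and exponent. -/
private def dn3_pk {n : ℕ} (p : ι → Fin n) (a : Fin n) : Option ι → Fin n :=
  fun o => o.elim a p

/-- One step of the computation of the powers and their product. -/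
private def dn3_F (f : Bool) : RF (fun n => S n × RelF (Option ι) Bool n) (Option ι) := fun n s z =>
  match f with
  | false => ∃ a : Fin n, ((z none : Fin n) : ℕ) = 2 * (a : ℕ) ∧ s.2 false (dn3_pk (fun i => z (some i)) a)
  | true => Odd {a : Fin n | s.2 true (dn3_pk (fun i => z (some i)) a) ∧ ∃ b : Fin n, (a : ℕ) + (b : ℕ) = ((z none : Fin n) : ℕ) ∧
      s.2 false (dn3_pk (fun i => z (some i)) b)}.ncard

private theorem dn3_F_ncp (hι : Finite ι) (f : Bool) :
    NCP (fun n => S n × RelF (Option ι) Bool n) (Ext B (Option ι) Bool) (Option ι) (dn3_F (S := S) f) := by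
  have hκ : Finite (Option ι) := inferInstance
  have hκ2 : Finite (Option (Option ι)) := inferInstance
  have hκ3 : Finite (Option (Option (Option ι))) := inferInstance
  cases f
  · refine NCP.ex1 (NCP.and (NCP.dbl hκ2 (some none) none) ?_)
    refine dn1_new hκ hκ2 false (fun o => o.elim none (fun i => some (some i))) ?_
    intro n s x
    refine iff_of_eq (congrArg (s.2 _) (funext fun o => ?_))
    rcases o with _ | o <;> rfl
  · refine NCP.parity (NCP.and ?_ (NCP.ex1 (NCP.and (NCP.add hκ3 (some none) none (some (some none))) ?_)))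
    · refine dn1_new hκ hκ2 true (fun o => o.elim none (fun i => some (some i))) ?_
      intro n s x
      refine iff_of_eq (congrArg (s.2 _) (funext fun o => ?_))
      rcases o with _ | o <;> rfl
    · refine dn1_new hκ hκ3 false (fun o => o.elim none (fun i => some (some (some i)))) ?_
      intro n s x
      refine iff_of_eq (congrArg (s.2 _) (funext fun o => ?_))
      rcases o with _ | o <;> rfl

/-- The start. -/
private def dn3_H (f : ∀ n, S n → (ι → Fin n) → PowerSeries (ZMod 2)) (b : Bool) : RF S (Option ι) := fun n s z =>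
  match b with
  | false => PowerSeries.coeff (z none : ℕ) (f n s (fun i => z (some i))) = 1
  | true => ((z none : Fin n) : ℕ) = 0

private theorem dn3_sem {f : ∀ n, S n → (ι → Fin n) → PowerSeries (ZMod 2)} (n : ℕ) (s : S n) (t : ℕ) :
    ∀ z : Option ι → Fin n,
      ((((fun (R : RelF (Option ι) Bool n) (b : Bool) (x : Option ι → Fin n) => dn3_F b n (s, R) x)^[t])
        (fun b x => dn3_H f b n s x)) false z ↔ PowerSeries.coeff (z none : ℕ) (f n s (fun i => z (some i)) ^ (2 ^ t)) = 1) ∧
      ((((fun (R : RelF (Option ι) Bool n) (b : Bool) (x : Option ι → Fin n) => dn3_F b n (s, R) x)^[t])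
        (fun b x => dn3_H f b n s x)) true z ↔
        PowerSeries.coeff (z none : ℕ) (∏ l ∈ Finset.range t, f n s (fun i => z (some i)) ^ (2 ^ l)) = 1) := by
  induction t with
  | zero =>
    intro z
    rw [Function.iterate_zero, id_eq, pow_zero, pow_one, Finset.range_zero, Finset.prod_empty, PowerSeries.coeff_one]
    refine ⟨Iff.rfl, ?_⟩
    show ((z none : Fin n) : ℕ) = 0 ↔ _
    by_cases h0 : ((z none : Fin n) : ℕ) = 0
    · rw [if_pos h0]
      exact ⟨fun _ => rfl, fun _ => h0⟩
    · rw [if_neg h0]
      exact ⟨fun h => absurd h h0, fun h => absurd h zero_ne_one⟩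
  | succ t ih =>
    intro z
    rw [Function.iterate_succ_apply']
    set Rt := (((fun (R : RelF (Option ι) Bool n) (b : Bool) (x : Option ι → Fin n) => dn3_F b n (s, R) x)^[t])
        (fun b x => dn3_H f b n s x)) with hRt
    show (dn3_F false n (s, Rt) z ↔ _) ∧ (dn3_F true n (s, Rt) z ↔ _)
    unfold dn3_F
    set p : ι → Fin n := fun i => z (some i) with hp
    set j : Fin n := z none with hj
    set g := f n s p with hg
    constructor
    · show (∃ a : Fin n, (j : ℕ) = 2 * (a : ℕ) ∧ Rt false (dn3_pk p a)) ↔ _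
      rw [pow_succ 2 t, pow_mul, coeff_sq]
      constructor
      · rintro ⟨a, ha, h1⟩
        have h2 := (ih (dn3_pk p a)).1.1 h1
        change PowerSeries.coeff (a : ℕ) (g ^ 2 ^ t) = 1 at h2
        have he : Even (j : ℕ) := ⟨a, by omega⟩
        rw [if_pos he]
        have : (j : ℕ) / 2 = a := by omega
        rw [this]
        exact h2
      · intro h1
        by_cases he : Even (j : ℕ)
        · rw [if_pos he] at h1
          have hjl := j.2
          refine ⟨⟨(j : ℕ) / 2, by omega⟩, ?_, ?_⟩
          · obtain ⟨r, hr⟩ := he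
            simp only
            omega
          · exact (ih (dn3_pk p ⟨(j : ℕ) / 2, by omega⟩)).1.2 h1
        · rw [if_neg he] at h1
          exact absurd h1 zero_ne_one
    · show Odd {a : Fin n | Rt true (dn3_pk p a) ∧ ∃ b : Fin n, (a : ℕ) + (b : ℕ) = (j : ℕ) ∧ Rt false (dn3_pk p b)}.ncard ↔ _
      rw [Finset.prod_range_succ, dn1_conv_iff]
      have hset : {a : Fin n | Rt true (dn3_pk p a) ∧ ∃ b : Fin n, (a : ℕ) + (b : ℕ) = (j : ℕ) ∧ Rt false (dn3_pk p b)} =
          {a : Fin n | PowerSeries.coeff (a : ℕ) (∏ l ∈ Finset.range t, g ^ (2 ^ l)) = 1 ∧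
            ∃ b : Fin n, (a : ℕ) + (b : ℕ) = (j : ℕ) ∧ PowerSeries.coeff (b : ℕ) (g ^ (2 ^ t)) = 1} := by
        ext a
        simp only [Set.mem_ofPred_eq]
        exact and_congr (ih (dn3_pk p a)).2 (exists_congr fun b => and_congr_right fun _ => (ih (dn3_pk p b)).1)
      rw [hset]

/-- Job DN3. The product of the powers S^(2^l), l < Nat.size (n-1).
Proof: iterate on two relations (flags): T ↦ T² (`coeff_sq`), P ↦ P * T; start T = S, P = 1. -/
theorem dn_inv (hι : Finite ι) {f : ∀ n, S n → (ι → Fin n) → PowerSeries (ZMod 2)}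
    (h : NCP S B (Option ι) (fun n s z => PowerSeries.coeff (z none : ℕ) (f n s (fun i => z (some i))) = 1)) :
    NCP S B (Option ι) (fun n s z =>
      PowerSeries.coeff (z none : ℕ) (∏ l ∈ Finset.range (Nat.size (n - 1)), f n s (fun i => z (some i)) ^ (2 ^ l)) = 1) := by
  have hκ : Finite (Option ι) := inferInstance
  have hit := NCP.iter (S := S) (B := B) (κ := Option ι) (Fl := Bool) inferInstance
    (H := fun b => dn3_H f b) (F := fun b => dn3_F b) (fun b => by
      cases b
      · exact h
      · exact NCP.zero hκ none) (fun b => dn3_F_ncp hι b) true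
  exact NCP.congr hit (fun n s z => (dn3_sem n s _ z).2)

/-- Job DN4. Coefficients of det (1 - X A). Proof: `dn_pser`, `dn_prod`, `dn_inv`, `prod_pser_mul_dser`, `coeff_inv` (the constant coefficient of each pser is 1, j ≤ n - 1 < 2^(Nat.size (n-1))). -/
theorem dn_dser (hι : Finite ι) {Q : ∀ n, S n → (ι → Fin n) → Fin n → Fin n → Prop}
    (h : NCP S B (Option (Option ι)) (fun n s z => Q n s (fun i => z (some (some i))) (z (some none)) (z none))) :
    NCP S B (Option ι) (fun n s z => PowerSeries.coeff (z none : ℕ) (dser (Q n s (fun i => z (some i)))) = 1) := by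
  have h1 := dn_pser hι h
  have h2 := dn_prod (f := fun n s x k => pser (Q n s x) k) hι h1
  have h3 := dn_inv (f := fun n s x => ∏ k, pser (Q n s x) k) hι h2
  refine h3.congr fun n s z => ?_
  have h0 : PowerSeries.constantCoeff (∏ k, pser (Q n s (fun i => z (some i))) k) = 1 := by
    rw [map_prod]
    refine Finset.prod_eq_one fun k _ => ?_
    rw [← PowerSeries.coeff_zero_eq_constantCoeff_apply, pser, PowerSeries.coeff_mk, pow_zero, Matrix.one_apply_eq]
  have hj : (z none : ℕ) < 2 ^ Nat.size (n - 1) := by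
    have h1 : (z none : ℕ) ≤ n - 1 := by have := (z none).isLt; omega
    exact lt_of_le_of_lt h1 (Nat.lt_size_self _)
  rw [coeff_inv (prod_pser_mul_dser (Q n s (fun i => z (some i)))) h0 _ _ hj]

/-- The value `n - 2`. -/
private theorem dn4_top2 (hι : Finite ι) (i : ι) : NCP S B ι (fun n _ x => (x i : ℕ) = n - 2) := by
  have h : NCP S B ι (fun n s x => ∃ t : Fin n, (t : ℕ) = n - 1 ∧ ((t : ℕ) = (x i : ℕ) + 1 ∨ ((t : ℕ) = 0 ∧ (x i : ℕ) = 0))) := by
    refine NCP.ex1 (R := fun n s x t => (t : ℕ) = n - 1 ∧ ((t : ℕ) = (x i : ℕ) + 1 ∨ ((t : ℕ) = 0 ∧ (x i : ℕ) = 0))) ?_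
    exact (NCP.top inferInstance none).and ((NCP.succ inferInstance none (some i)).or
      ((NCP.zero inferInstance none).and (NCP.zero inferInstance (some i))))
  refine h.congr fun n s x => ?_
  have hx := (x i).isLt
  constructor
  · rintro ⟨t, h1, h2⟩
    omega
  · intro h1
    refine ⟨⟨n - 1, by omega⟩, rfl, ?_⟩
    show n - 1 = _ ∨ (n - 1 = 0 ∧ _)
    omega

private theorem dn4_adj {κ : Type} (hκ : Finite κ) (i j : κ) : NCP GS GB κ (fun _ G z => G.Adj (z i) (z j)) :=
  NCP.rel2 (S := GS) (B := GB) (R := fun n (G : SimpleGraph (Fin n)) (a b : Fin n) => G.Adj a b) hκ (NCP.base inferInstance GB.adj) i j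

/-- Job DN4. -/
theorem dn_cand : NCP GS GB (Fin 2) (fun _ G x => cand G (x 0) (x 1)) := by
  have hne : ∀ i j : Option (Option (Fin 2)), NCP GS GB (Option (Option (Fin 2))) (fun _ _ z => z i ≠ z j) :=
    fun i j => (NCP.eq inferInstance i j).not
  have h1 : NCP GS GB (Option (Option (Fin 2))) (fun n G z =>
      avoid G (z (some (some 0))) (z (some (some 1))) (z (some none)) (z none)) :=
    (dn4_adj inferInstance (some none) none).and ((hne _ _).and ((hne _ _).and ((hne _ _).and (hne _ _))))
  have h2 := dn_dser (Q := fun n G x => avoid G (x 0) (x 1)) inferInstance h1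
  have h3 : NCP GS GB (Fin 2) (fun n G x => ∃ j : Fin n, (j : ℕ) = n - 2 ∧
      PowerSeries.coeff (j : ℕ) (dser (avoid G (x 0) (x 1))) = 1) :=
    NCP.ex1 (R := fun n G x j => (j : ℕ) = n - 2 ∧ PowerSeries.coeff (j : ℕ) (dser (avoid G (x 0) (x 1))) = 1)
      ((dn4_top2 inferInstance none).and h2)
  refine ((dn4_adj inferInstance 0 1).and h3).congr fun n G x => ?_
  have hx := (x 0).isLt
  unfold cand
  refine and_congr_right fun _ => ?_
  constructor
  · rintro ⟨j, hj, h⟩
    rwa [hj] at h
  · intro h
    exact ⟨⟨n - 2, by omega⟩, rfl, h⟩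

/-- Job DN4. -/
theorem dn_cmate : NCP GS GB (Fin 2) (fun _ G x => cmate G (x 0) = x 1) := by
  have hcand : ∀ {κ : Type} (hκ : Finite κ) (i j : κ), NCP GS GB κ (fun _ G z => cand G (z i) (z j)) := fun hκ i j =>
    NCP.rel2 (R := fun _ G a b => cand G a b) hκ dn_cand i j
  have hu : NCP GS GB (Fin 2) (fun n G x => ∃ v : Fin n, cand G (x 0) v ∧ ∀ y : Fin n, cand G (x 0) y → y = v) := by
    refine NCP.ex1 (R := fun n G x v => cand G (x 0) v ∧ ∀ y : Fin n, cand G (x 0) y → y = v) ?_
    refine (hcand inferInstance (some 0) none).and ?_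
    refine NCP.all1 (R := fun n G z y => cand G (z (some 0)) y → y = z none) ?_
    exact (hcand inferInstance (some (some 0)) none).imp (NCP.eq inferInstance none (some none))
  refine ((hu.and (hcand inferInstance 0 1)).or (hu.not.and (NCP.eq inferInstance 0 1))).congr fun n G x => ?_
  have hun : (∃ v : Fin n, cand G (x 0) v ∧ ∀ y : Fin n, cand G (x 0) y → y = v) ↔ ∃! v, cand G (x 0) v := Iff.rfl
  rw [hun]
  by_cases h : ∃! v, cand G (x 0) v
  · rw [cmate, dif_pos h]
    simp only [h, true_and, not_true_eq_false, false_and, or_false]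
    constructor
    · intro h1
      exact h.unique h.choose_spec.1 h1
    · intro h1
      rw [← h1]
      exact h.choose_spec.1
  · rw [cmate, dif_neg h]
    simp only [h, false_and, not_false_eq_true, true_and, false_or]

/-- Job DN4. The check that the candidate map is the mate map of a perfect matching. -/
theorem dn_isMate : NCP GS GB Empty (fun _ G _ => IsMate G (cmate G)) := by
  have hm : ∀ {κ : Type} (hκ : Finite κ) (i j : κ), NCP GS GB κ (fun _ G z => cmate G (z i) = z j) := fun hκ i j =>
    NCP.rel2 (R := fun _ G a b => cmate G a = b) hκ dn_cmate i j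
  have h : NCP GS GB Empty (fun n G _ => ∀ x y : Fin n, cmate G x = y → (cmate G y = x ∧ G.Adj x y)) := by
    refine NCP.all1 (R := fun n G _ x => ∀ y : Fin n, cmate G x = y → (cmate G y = x ∧ G.Adj x y)) ?_
    refine NCP.all1 (R := fun n G z y => cmate G (z none) = y → (cmate G y = z none ∧ G.Adj (z none) y)) ?_
    exact (hm inferInstance (some none) none).imp ((hm inferInstance none (some none)).and
      (dn4_adj inferInstance (some none) none))
  refine h.congr fun n G _ => ?_
  constructor
  · intro h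
    exact ⟨fun x => (h x _ rfl).1, fun x => (h x _ rfl).2⟩
  · rintro ⟨h1, h2⟩ x y rfl
    exact ⟨h1 x, h2 x⟩

end Pool.Agent.UPM
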