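import Pool.Agent.Lib.MP_0087d5_lc.UPM.Ctx

/-!
# Heavy vertices

Jobs HC, HCP, HX1, HX2. See notes section 9.
-/

namespace Pool.Agent.UPM

open Relation

variable {V : Type*} [Finite V] {G : SimpleGraph V} {m : V → V} {β t : ℕ} {D₀ F D : V → Set V} {s : V} {Y : Set V}

/-- Job HC. Proof: strong induction on the length of L.
If some z ∈ L is heavy, L = P ++ z :: Q: by induction z ∈ Phih D x and y ∈ Phih D z, and `Phih_mono_trans`.
So assume all z ∈ L light. If z ∈ L is such that z' is heavy, then Touch y z' (`heavy_touch`), excluded by `gc_touch` for the walk z → … → y. So all z ∈ L are light at both ends, and y' is light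
(`heavy_mate`). If y ∈ D x we are done. x ∉ D y by `gc_touch` (x ∈ D y gives Touch y x'), and Touch x y, so L ++ [y] is a proper closed walk at x.
Cost: `run_cost`: the first part is at most |Y| ≤ β + t; each D z' ∪ {z,z'} in the second part is disjoint from D y (`gc_touch` for z before y, `mates_disjoint`
for z = y), so the second part is at most t (`outside`). Total ≤ β + 2t ≤ 2β + 1, so `PCW.fnd` and `Fnd.subset_Phih`. -/
theorem heavy_chain (C : Ctx G m β t D₀ F s Y) (hD : Lvl G m β D₀ F D) {x y : V} {L : List V} (hx : x ∈ insert s Y) (hy : y ∈ Y)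
    (hL : ∀ z ∈ L, z ∈ Y) (hhx : β ≤ (D x).ncard) (hhy : β ≤ (D y).ncard)
    (h : List.IsChain (Arc G m D) (x :: (L ++ [y]))) (hreg : Reg m (x :: (L ++ [y]))) : y ∈ Phih G m β D x := by
  induction hn : L.length using Nat.strong_induction_on generalizing x y L with
  | _ n ih =>
    have hm := C.mate
    by_cases hheavy : ∃ z ∈ L, β ≤ (D z).ncard
    · obtain ⟨z, hzL, hz⟩ := hheavy
      obtain ⟨P, Q, rfl⟩ := List.append_of_mem hzL
      have hlen : P.length + Q.length + 1 = n := by
        rw [← hn]
        simp [List.length_append]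
        omega
      have hzY : z ∈ Y := hL z hzL
      have e : x :: (P ++ z :: Q ++ [y]) = x :: (P ++ z :: (Q ++ [y])) := by simp
      rw [e] at h hreg
      obtain ⟨h1, h2⟩ := List.isChain_cons_split.1 h
      have r1 : Reg m (x :: (P ++ [z])) := hreg.sublist (by
        refine List.Sublist.cons_cons _ (List.Sublist.append (List.Sublist.refl _) ?_)
        exact List.Sublist.cons_cons _ (List.nil_sublist _))
      have r2 : Reg m (z :: (Q ++ [y])) := hreg.sublist (by
        refine List.Sublist.cons _ ?_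
        exact List.sublist_append_right _ _)
      have i1 : z ∈ Phih G m β D x := ih P.length (by omega) hx hzY
        (fun w hw => hL w (by simp [hw])) hhx hz h1 r1 rfl
      have i2 : y ∈ Phih G m β D z := ih Q.length (by omega) (Set.mem_insert_of_mem _ hzY) hy
        (fun w hw => hL w (by simp [hw])) hz hhy h2 r2 rfl
      exact Phih_mono_trans x z i1 i2
    · push Not at hheavy
      have hy' : y ∈ insert s Y := Set.mem_insert_of_mem _ hy
      have htarc : List.IsChain (TArc G m D) (x :: (L ++ [y])) := h.imp fun _ _ hab => Arc.tarc hab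
      have hmate : ∀ z ∈ L, (D (m z)).ncard < β := by
        intro z hzL
        by_contra hcon
        have hcon' : β ≤ (D (m z)).ncard := not_lt.1 hcon
        obtain ⟨P, Q, rfl⟩ := List.append_of_mem hzL
        have e : x :: (P ++ z :: Q ++ [y]) = x :: (P ++ z :: (Q ++ [y])) := by simp
        rw [e] at htarc hreg
        have ht := hD.heavy_touch C hy' (Set.mem_insert_of_mem _ (C.mate_mem (hL z hzL))) hhy hcon'
        refine gc_touch hm C.noalt hD.fam (List.isChain_cons_split.1 htarc).2 (hreg.sublist ?_) ht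
        exact List.Sublist.cons _ (List.sublist_append_right _ _)
      have hly : (D (m y)).ncard < β := hD.heavy_mate C hy hhy
      have hnt : ¬ Touch G D y (m x) := gc_touch hm C.noalt hD.fam htarc hreg
      have hxy : x ∉ D y := by
        intro hxy
        have h1 : m x ∈ D y := (hD.fam.valid y).closed x hxy
        exact hnt ⟨m x, Set.mem_insert_of_mem _ h1, m x, Set.mem_insert _ _, Or.inl rfl⟩
      by_cases hyx : y ∈ D x
      · exact subset_Phih x hyx
      have hr2 := (reg_cons x (L ++ [y])).1 hreg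
      have hyx1 := hr2.1 y (by simp)
      have hpcw : PCW G m D x (L ++ [y]) := by
        refine ⟨by simp, ?_, hreg⟩
        have e : x :: ((L ++ [y]) ++ [m x]) = (x :: L) ++ y :: [m x] := by simp
        rw [e]
        refine List.isChain_split.2 ⟨by simpa using h, ?_⟩
        refine List.IsChain.cons_cons ?_ (List.IsChain.singleton _)
        refine ⟨?_, ?_, ?_, ?_, ?_⟩
        · rw [hm.invol]; exact hyx1.1
        · rw [hm.invol]; exact hyx1.2
        · rw [hm.invol]; exact hyx
        · rw [hm.invol]; exact hxy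
        · rw [hm.invol]; exact hD.heavy_touch C hy' hx hhy hhx
      have hsubY : ∀ z ∈ L ++ [y], z ∈ Y := by
        intro z hz
        rcases List.mem_append.1 hz with hz | hz
        · exact hL z hz
        · rw [List.mem_singleton.1 hz]; exact hy
      have hW := hD.run_cost C (L := L) (c := y) (fun z hz => ⟨hL z hz, hheavy z hz, hmate z hz⟩) hy hly
        (by have := h.tail; simpa using this) hr2.2
      have hA : (⋃ z ∈ L, D z).ncard ≤ β + t := by
        refine le_trans (Set.ncard_le_ncard ?_ (Set.toFinite _)) C.card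
        exact Set.iUnion₂_subset fun z hz => hD.sub C (Set.mem_insert_of_mem _ (hL z hz))
      have hB : (⋃ z ∈ (L ++ [y]).tail, (D (m z) ∪ {z, m z})).ncard ≤ t := by
        refine hD.outside C hy' hhy ?_ ?_
        · refine Set.iUnion₂_subset fun z hz => ?_
          have hzY := hsubY z (List.mem_of_mem_tail hz)
          refine Set.union_subset (hD.sub C (Set.mem_insert_of_mem _ (C.mate_mem hzY))) ?_
          rintro w (rfl | rfl)
          · exact hzY
          · exact C.mate_mem hzY
        · rw [Set.disjoint_iUnion₂_left]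
          intro z hz
          have hzL := List.mem_of_mem_tail hz
          have key : Disjoint (insert y (D y)) (insert (m z) (D (m z))) := by
            rcases List.mem_append.1 hzL with hz1 | hz1
            · obtain ⟨P, Q, rfl⟩ := List.append_of_mem hz1
              have e : x :: (P ++ z :: Q ++ [y]) = x :: (P ++ z :: (Q ++ [y])) := by simp
              rw [e] at htarc hreg
              have hg := gc_touch hm C.noalt hD.fam (List.isChain_cons_split.1 htarc).2
                (hreg.sublist (List.Sublist.cons _ (List.sublist_append_right _ _)))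
              rw [Set.disjoint_left]
              intro w hw1 hw2
              exact hg ⟨w, hw1, w, hw2, Or.inl rfl⟩
            · rw [List.mem_singleton.1 hz1]
              exact mates_disjoint hm C.noalt hD.fam y
          rw [Set.disjoint_left] at key ⊢
          rintro w (hw | hw | hw) hwy
          · exact key (Set.mem_insert_of_mem _ hwy) (Set.mem_insert_of_mem _ hw)
          · refine key (Set.mem_insert_of_mem _ ((hD.fam.valid y).closed w hwy)) ?_
            rw [hw]
            exact Set.mem_insert _ _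
          · rw [Set.mem_singleton_iff.1 hw] at hwy
            exact key (Set.mem_insert_of_mem _ hwy) (Set.mem_insert _ _)
      have htb := C.ht
      have hfnd : Fnd G m D β x (L ++ [y]) := hpcw.fnd (by omega)
      refine hfnd.subset_Phih hm hhx ?_
      refine Or.inr (Set.mem_iUnion₂.2 ⟨y, by simp, ?_⟩)
      exact Or.inl (Or.inl (Or.inl rfl))

/-- Job HCP. Every heavy member of a valid set at a heavy vertex is found by one heavy step.
Proof: `reach` gives a plain regular path x → … → y with nodes in X; `red_open` (x ∉ D z' for z ∈ X: D z' is valid at z' ∈ X, `Valid.nmem_of_mem`) gives a walk x :: A of D with A in X and y in the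
region of its last member c. If A = [] then y ∈ D x. Otherwise c ∈ X is heavy (c = y, or y ∈ D c and D y ⊆ D c), `heavy_chain` gives c ∈ Phih D x, and then y ∈ Phih D x. -/
theorem heavy_mem (C : Ctx G m β t D₀ F s Y) (hD : Lvl G m β D₀ F D) {x y : V} (hx : x ∈ insert s Y) (hhx : β ≤ (D x).ncard)
    {X : Set V} (hX : Valid G m x X) (hXY : X ⊆ Y) (hy : y ∈ X) (hhy : β ≤ (D y).ncard) : y ∈ Phih G m β D x := by
  obtain ⟨L, hch, hreg, hL⟩ := reach C.mate C.noalt hX hy
  have hT : ∀ z ∈ L ++ [y], z ∈ X := by
    intro z hz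
    rw [List.mem_append, List.mem_singleton] at hz
    rcases hz with hz | rfl
    · exact hL z hz
    · exact hy
  have hx' : ∀ z ∈ L ++ [y], x ∉ D (m z) := fun z hz =>
    Valid.nmem_of_mem C.mate C.noalt hX (hX.closed z (hT z hz)) (hD.fam.valid (m z))
  have hlast : (x :: (L ++ [y])).getLast (List.cons_ne_nil _ _) = y := by
    rw [List.getLast_cons (by simp)]
    simp
  obtain ⟨A, hA1, hA2, hA3⟩ := red_open (D := D) C.mate hD.fam (x := x) (y := y) (T := L ++ [y])
    (hch.imp (fun _ _ h => PArc.tarc h)) hreg hx' (by rw [hlast]; exact Set.mem_insert _ _)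
  rcases List.eq_nil_or_concat A with rfl | ⟨A', c, rfl⟩
  · rw [List.getLast_singleton] at hA3
    rcases hA3 with rfl | h
    · exact absurd hy hX.nmem
    · exact subset_Phih x h
  · rw [List.concat_eq_append] at hA1 hA2 hA3
    have hlast2 : (x :: (A' ++ [c])).getLast (List.cons_ne_nil _ _) = c := by
      rw [List.getLast_cons (by simp)]
      simp
    rw [hlast2] at hA3
    have hcX : c ∈ X := hT c (hA1.subset (by simp))
    have hhc : β ≤ (D c).ncard := by
      rcases hA3 with rfl | h
      · exact hhy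
      · exact hhy.trans (Set.ncard_le_ncard (hD.fam.trans c y h) (Set.toFinite _))
    have h1 : c ∈ Phih G m β D x := heavy_chain C hD hx (hXY hcX)
      (fun z hz => hXY (hT z (hA1.subset (List.mem_append_left _ hz)))) hhx hhc hA2
      (hreg.sublist (hA1.cons_cons x))
    rcases hA3 with rfl | h
    · exact h1
    · exact Phih_mono_trans x c h1 (subset_Phih c h)

/-- the last member of a list with a property -/
private theorem hx1_last (P : V → Prop) : ∀ (L : List V), (∃ z ∈ L, P z) →
    ∃ L1 z L2, L = L1 ++ z :: L2 ∧ P z ∧ ∀ w ∈ L2, ¬ P w := by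
  intro L
  induction L with
  | nil => rintro ⟨z, hz, _⟩; simp at hz
  | cons x l ih =>
    rintro ⟨z, hz, hPz⟩
    by_cases h : ∃ z ∈ l, P z
    · obtain ⟨L1, z, L2, h1, h2, h3⟩ := ih h
      exact ⟨x :: L1, z, L2, by rw [h1, List.cons_append], h2, h3⟩
    · push Not at h
      rcases List.mem_cons.mp hz with rfl | hz
      · exact ⟨[], z, l, rfl, hPz, h⟩
      · exact absurd hPz (h z hz)

/-- walks from `v` to `q` with nodes in `U` -/
private def Hx1W (G : SimpleGraph V) (m : V → V) (D : V → Set V) (U : Set V) (v q : V) (A : List V) : Prop :=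
  List.IsChain (Arc G m D) (v :: (A ++ [q])) ∧ Reg m (v :: (A ++ [q])) ∧ ∀ z ∈ A, z ∈ U

private theorem hx1_weak (hm : IsMate G m) (hN : NoAlt G m) (hD : Fam G m D) {v q : V} {U : Set V} (hUv : Valid G m v U)
    (hq : q ∈ U) (hqv : q ∉ D v) (hmax : ∀ c ∈ U, q ∉ D c) {T : List V}
    (hch : List.IsChain (TArc G m D) (v :: (T ++ [q]))) (hreg : Reg m (v :: (T ++ [q]))) (hT : ∀ z ∈ T, z ∈ U) :
    ∃ A, Hx1W G m D U v q A ∧ A.length ≤ T.length := by
  have hTU : ∀ z ∈ T ++ [q], z ∈ U := by
    intro z hz
    rcases List.mem_append.mp hz with h | h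
    · exact hT z h
    · rw [List.mem_singleton.mp h]; exact hq
  obtain ⟨A', hsub, hchA, hy⟩ := red_open (y := q) hm hD hch hreg
    (fun z hz => Valid.nmem_of_mem hm hN hUv (hUv.closed z (hTU z hz)) (hD.valid (m z)))
    (by
      have : (v :: (T ++ [q])).getLast (List.cons_ne_nil _ _) = q := by simp
      rw [this]
      exact Set.mem_insert _ _)
  rcases List.eq_nil_or_concat A' with hA | ⟨A, c, hA⟩
  · subst hA
    simp only [List.getLast_singleton] at hy
    rcases hy with h | h
    · exact absurd (h ▸ hq) hUv.nmem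
    · exact absurd h hqv
  · rw [List.concat_eq_append] at hA
    subst hA
    have hlast : (v :: (A ++ [c])).getLast (List.cons_ne_nil _ _) = c := by simp
    have hcU : c ∈ U := hTU c (hsub.subset (by simp))
    simp only [hlast] at hy
    have hcq : q = c := by
      rcases hy with h | h
      · exact h
      · exact absurd h (hmax c hcU)
    subst hcq
    refine ⟨A, ⟨hchA, hreg.sublist (hsub.cons_cons v), fun z hz => hTU z (hsub.subset (by simp [hz]))⟩, ?_⟩
    have := hsub.length_le
    simpa using this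

private theorem hx1_tail_split {A Q P' : List V} {x z q : V} (h : A ++ [q] = x :: (P' ++ z :: Q)) :
    ∃ Q', z :: Q = Q' ++ [q] ∧ Q'.length < A.length := by
  rcases List.eq_nil_or_concat (z :: Q) with h1 | ⟨Q', c, h1⟩
  · exact absurd h1 (List.cons_ne_nil _ _)
  · rw [List.concat_eq_append] at h1
    refine ⟨Q', ?_, ?_⟩
    · rw [h1] at h
      have h2 : A ++ [q] = (x :: (P' ++ Q')) ++ [c] := by rw [h]; simp
      have h3 := List.append_inj_right' h2 rfl
      rw [h1, h3]
    · have h4 := congrArg List.length h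
      have h5 := congrArg List.length h1
      simp at h4 h5
      omega

private theorem hx1_min (hm : IsMate G m) (hN : NoAlt G m) (hD : Fam G m D) {v q : V} {U : Set V} (hUv : Valid G m v U)
    (hq : q ∈ U) (hqv : q ∉ D v) (hmax : ∀ c ∈ U, q ∉ D c) :
    ∃ A, Hx1W G m D U v q A ∧ (∀ z ∈ (A ++ [q]).tail, ¬ Touch G D v (m z)) ∧ ∀ z ∈ A, z ∉ D v := by
  classical
  have hex : ∃ n, ∃ A, Hx1W G m D U v q A ∧ A.length = n := by
    obtain ⟨L, h1, h2, h3⟩ := reach hm hN hUv hq
    obtain ⟨A, hA, _⟩ := hx1_weak hm hN hD hUv hq hqv hmax (h1.imp fun a b h => h.tarc) h2 h3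
    exact ⟨_, A, hA, rfl⟩
  obtain ⟨A, hA, hlen⟩ := Nat.find_spec hex
  have hmin : ∀ A', Hx1W G m D U v q A' → A.length ≤ A'.length := by
    intro A' hA'
    rw [hlen]
    exact Nat.find_min' hex ⟨A', hA', rfl⟩
  obtain ⟨hch, hreg, hAU⟩ := hA
  have htail : ∀ z ∈ (A ++ [q]).tail, ¬ Touch G D v (m z) := by
    intro z hz ht
    obtain ⟨x, l, hxl⟩ : ∃ x l, A ++ [q] = x :: l := by
      cases h : A ++ [q] with
      | nil => simp at h
      | cons x l => exact ⟨x, l, rfl⟩
    rw [hxl, List.tail_cons] at hz
    obtain ⟨P', Q, hl⟩ := List.append_of_mem hz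
    rw [hl] at hxl
    obtain ⟨Q', hQ', hlt⟩ := hx1_tail_split hxl
    have hch2 : List.IsChain (Arc G m D) (z :: Q) := by
      rw [hxl] at hch
      have : v :: x :: (P' ++ z :: Q) = (v :: x :: P') ++ z :: Q := by simp
      rw [this] at hch
      exact hch.right_of_append
    have hch3 : List.IsChain (TArc G m D) (v :: (Q' ++ [q])) := by
      rw [← hQ', List.isChain_cons_cons]
      exact ⟨ht, hch2.imp fun a b h => h.tarc⟩
    have hreg3 : Reg m (v :: (Q' ++ [q])) := by
      rw [← hQ']
      rw [hxl] at hreg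
      refine hreg.sublist (List.Sublist.cons_cons v ?_)
      exact (List.sublist_append_right P' (z :: Q)).cons x
    obtain ⟨A'', hA'', hl''⟩ := hx1_weak hm hN hD hUv hq hqv hmax hch3 hreg3 (by
      intro w hw
      have h1 : w ∈ A ++ [q] := by
        rw [hxl]
        have : w ∈ z :: Q := by rw [hQ']; exact List.mem_append_left _ hw
        exact List.mem_cons_of_mem _ (List.mem_append_right _ this)
      rcases List.mem_append.mp h1 with h | h
      · exact hAU w h
      · rw [List.mem_singleton.mp h]; exact hq)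
    have := hmin A'' hA''
    omega
  refine ⟨A, ⟨hch, hreg, hAU⟩, htail, ?_⟩
  intro z hz hzv
  obtain ⟨A1, A2, hA⟩ := List.append_of_mem hz
  obtain ⟨b, R, hbR⟩ : ∃ b R, A2 ++ [q] = b :: R := by
    cases h : A2 ++ [q] with
    | nil => simp at h
    | cons x l => exact ⟨x, l, rfl⟩
  have hAq : A ++ [q] = A1 ++ z :: b :: R := by
    rw [hA, List.append_assoc, List.cons_append, hbR]
  have hb : b ∈ (A ++ [q]).tail := by
    rw [hAq]
    cases A1 with
    | nil => simp
    | cons y A1 => simp
  apply htail b hb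
  have harc : Arc G m D z b := by
    rw [hAq] at hch
    have : v :: (A1 ++ z :: b :: R) = (v :: A1) ++ z :: b :: R := by simp
    rw [this] at hch
    exact (List.isChain_cons_cons.mp hch.right_of_append).1
  obtain ⟨u, hu, w, hw, huw⟩ := harc.tarc
  refine ⟨u, Set.mem_insert_of_mem _ ?_, w, hw, huw⟩
  rcases hu with h | h
  · rw [h]; exact hzv
  · exact hD.trans v z hzv h

omit [Finite V] in
private theorem hx1_mem_dropLast_mir (hm : IsMate G m) {L : List V} {z : V} (h : z ∈ (mir m L).dropLast) : m z ∈ L.tail := by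
  have h1 : (mir m L).dropLast = mir m L.tail := by
    unfold mir
    rw [List.dropLast_reverse, List.map_tail]
  rw [h1] at h
  exact (mem_mir hm).mp h

/-- Job HX1. Let v be heavy, U the largest valid set at v inside Y, and suppose every heavy member of U lies in D v. Let p ∈ U, p ∉ D v, be such that
p ∉ D c for all c ∈ U. (In the application D = Phih (initial level).) Then there are a proper closed walk at v, of the form
`A ++ p :: B`, whose nodes lie in U, not in D v, are light at both ends, and such that no mate of a member of A ++ [p] except the first member of A ++ [p] touches v, and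
no member of p :: B except the last one touches v.
Proof. Call a regular walk v → A → p of D with nodes in U a p-walk. `reach` and `red_open` (as in `heavy_mem`) give a p-walk: the last member c has p ∈ insert c (D c), and p ∉ D c, so c = p. More generally any regular weak chain v → T → p in U yields a p-walk with nodes among T. Take a p-walk α with the fewest nodes. Then a ∉ D v for a ∈ A:
otherwise Touch v b' for the successor b of a and we get a shorter one. ¬ Touch v a' for each member a of A ++ [p] except the first: otherwise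
a weak chain starting v → a. All members are light at both ends since heavy members of U lie in D v (and U, D v are closed). The same for p': a walk γ : v → C → p' with the fewest nodes.
Combine: v → A → p → mir C → v'. If some member c of C has the matching edge of a member a of A take the one closest to the end of C; C = C1 ++ c :: C2. The list a → … → p → mir C2 → c' is a chain with distinct
matching edges up to the last member; c' = a contradicts `gc`; c = a gives a closed walk at a, light, nodes light: contradiction with `no_light_closed`. Hence A ++ p :: mir C is a proper closed walk. -/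
theorem exists_good_closed (C : Ctx G m β t D₀ F s Y) (hD : Lvl G m β D₀ F D) {v p : V} (hv : v ∈ insert s Y)
    (hheavy : ∀ y ∈ MaxV G m Y v, β ≤ (D y).ncard → y ∈ D v) (hp : p ∈ MaxV G m Y v) (hpv : p ∉ D v)
    (hmax : ∀ c ∈ MaxV G m Y v, p ∉ D c) :
    ∃ A B, PCW G m D v (A ++ p :: B) ∧
      (∀ z ∈ A ++ p :: B, z ∈ MaxV G m Y v ∧ z ∉ D v ∧ (D z).ncard < β ∧ (D (m z)).ncard < β) ∧
      (∀ z ∈ (A ++ [p]).tail, ¬ Touch G D v (m z)) ∧ (∀ z ∈ (p :: B).dropLast, ¬ Touch G D v z) := by
  have hm := C.mate
  have hN := C.noalt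
  have hinv := hm.invol
  set U := MaxV G m Y v with hU
  have hUv : Valid G m v U := valid_MaxV Y v
  have hUY : U ⊆ Y := MaxV_subset Y v
  have hDv : ∀ z, m z ∈ D v ↔ z ∈ D v := fun z => (hD.fam.valid v).mate_mem_iff hm
  have hlight : ∀ z ∈ U, z ∉ D v → (D z).ncard < β ∧ (D (m z)).ncard < β := by
    intro z hz hzv
    constructor
    · by_contra h
      exact hzv (hheavy z hz (not_lt.mp h))
    · by_contra h
      exact hzv ((hDv z).mp (hheavy (m z) (hUv.closed z hz) (not_lt.mp h)))
  obtain ⟨A, ⟨hchA, hregA, hAU⟩, hAt, hAv⟩ := hx1_min hm hN hD.fam hUv hp hpv hmax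
  obtain ⟨K, ⟨hchK, hregK, hKU⟩, hKt, hKv⟩ := hx1_min (q := m p) hm hN hD.fam hUv (hUv.closed p hp)
    (fun h => hpv ((hDv p).mp h)) (fun c hc h => hmax c hc ((hD.fam.valid c).mate_mem_iff hm |>.mp h))
  have hKm : ∀ z ∈ mir m K, z ∈ U ∧ z ∉ D v := by
    intro z hz
    have h1 := (mem_mir hm).mp hz
    refine ⟨?_, fun h => hKv _ h1 ((hDv z).mpr h)⟩
    have := hUv.closed _ (hKU _ h1)
    rwa [hinv] at this
  have hch2 : List.IsChain (Arc G m D) (p :: (mir m K ++ [m v])) := by
    have := chain_mir_closed hm (fun a b h => Arc.mirror hm h) hchK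
    rwa [hinv] at this
  have hregK2 : Reg m (p :: mir m K) := by
    have h1 : Reg m (K ++ [m p]) := hregK.sublist (List.sublist_cons_self _ _)
    have h2 := (reg_mir_iff hm).mpr h1
    rwa [mir_append, mir_singleton, hinv] at h2
  have hregAp := (reg_append (v :: A) [p]).mp (by simpa using hregA)
  have hregKp := (reg_append [v] (K ++ [m p])).mp (by simpa using hregK)
  -- the matching edges of A and K are distinct
  have hdisj : ∀ a ∈ A, ∀ c ∈ K, c ≠ a ∧ c ≠ m a := by
    by_contra hcon
    push Not at hcon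
    obtain ⟨a0, ha0, c0, hc0, hbad⟩ := hcon
    obtain ⟨K1, c, K2, hKs, ⟨a, haA, hca⟩, hK2⟩ := hx1_last (fun c => ∃ a ∈ A, c = a ∨ c = m a) K
      ⟨c0, hc0, a0, ha0, by by_cases h : c0 = a0; exacts [Or.inl h, Or.inr (hbad h)]⟩
    obtain ⟨A1, A2, hAs⟩ := List.append_of_mem haA
    have hc1 : List.IsChain (Arc G m D) (a :: (A2 ++ [p])) := by
      rw [hAs] at hchA
      have : v :: ((A1 ++ a :: A2) ++ [p]) = (v :: A1) ++ a :: (A2 ++ [p]) := by simp
      rw [this] at hchA
      exact hchA.right_of_append
    have hc2 : List.IsChain (Arc G m D) (p :: (mir m K2 ++ [m c])) := by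
      rw [hKs] at hchK
      have : v :: ((K1 ++ c :: K2) ++ [m p]) = (v :: K1) ++ c :: (K2 ++ [m p]) := by simp
      rw [this] at hchK
      have := chain_mir_closed hm (fun a b h => Arc.mirror hm h) hchK.right_of_append
      rwa [hinv] at this
    have hc3 : List.IsChain (Arc G m D) (a :: ((A2 ++ p :: mir m K2) ++ [m c])) := by
      have : a :: ((A2 ++ p :: mir m K2) ++ [m c]) = a :: (A2 ++ p :: (mir m K2 ++ [m c])) := by simp
      rw [this, List.isChain_cons_split]
      exact ⟨hc1, hc2⟩
    have hsubA : ∀ x ∈ a :: A2, x ∈ A := by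
      intro x hx
      rw [hAs]
      exact List.mem_append_right _ hx
    have hsubK : ∀ x ∈ K2, x ∈ K := by
      intro x hx
      rw [hKs]
      exact List.mem_append_right _ (List.mem_cons_of_mem _ hx)
    have hmirsub : ∀ x ∈ mir m K2, x ∈ mir m K := fun x hx => (mem_mir hm).mpr (hsubK _ ((mem_mir hm).mp hx))
    have hreg3 : Reg m (a :: (A2 ++ p :: mir m K2)) := by
      have : a :: (A2 ++ p :: mir m K2) = (a :: A2) ++ (p :: mir m K2) := by simp
      rw [this, reg_append]
      refine ⟨?_, ?_, ?_⟩
      · refine hregA.sublist ?_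
        rw [hAs]
        refine List.Sublist.cons v ?_
        have : (A1 ++ a :: A2) ++ [p] = A1 ++ ((a :: A2) ++ [p]) := by simp
        rw [this]
        exact (List.sublist_append_left (a :: A2) [p]).trans (List.sublist_append_right A1 _)
      · refine hregK2.sublist (List.Sublist.cons_cons p ?_)
        rw [hKs, mir_append, mir_cons, List.append_assoc]
        exact List.sublist_append_left _ _
      · intro x hx y hy
        have hxA := hsubA x hx
        rcases List.mem_cons.mp hy with rfl | hy
        · exact hregAp.2.2 x (List.mem_cons_of_mem _ hxA) _ (List.mem_singleton_self _)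
        · have h1 := (mem_mir hm).mp hy
          have h2 := hK2 _ h1
          push Not at h2
          obtain ⟨h3, h4⟩ := h2 x hxA
          exact ⟨fun h => h4 (by rw [h]), fun h => h3 (by rw [h, hinv])⟩
    have hnodes : ∀ z ∈ A2 ++ p :: mir m K2, z ∈ U ∧ z ∉ D v := by
      intro z hz
      rcases List.mem_append.mp hz with h | h
      · have := hsubA z (List.mem_cons_of_mem _ h)
        exact ⟨hAU z this, hAv z this⟩
      · rcases List.mem_cons.mp h with rfl | h
        · exact ⟨hp, hpv⟩
        · exact hKm z (hmirsub z h)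
    rcases hca with rfl | hca
    · exact Lvl.no_light_closed C hD (Set.mem_insert_of_mem _ (hUY (hAU c haA))) (hlight c (hAU c haA) (hAv c haA)).1
        (fun z hz => ⟨hUY (hnodes z hz).1, hlight z (hnodes z hz).1 (hnodes z hz).2⟩) hc3
    · rw [hca, hinv] at hc3
      exact gc hm hN hD.fam (L := A2 ++ p :: mir m K2) (by simp) (hc3.imp fun a b h => h.tarc) hreg3
  refine ⟨A, mir m K, ⟨by simp, ?_, ?_⟩, ?_, hAt, ?_⟩
  · have : v :: ((A ++ p :: mir m K) ++ [m v]) = v :: (A ++ p :: (mir m K ++ [m v])) := by simp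
    rw [this, List.isChain_cons_split]
    exact ⟨hchA, hch2⟩
  · have : v :: (A ++ p :: mir m K) = (v :: A) ++ (p :: mir m K) := by simp
    rw [this, reg_append]
    refine ⟨hregAp.1, hregK2, ?_⟩
    intro x hx y hy
    rcases List.mem_cons.mp hy with rfl | hy
    · exact hregAp.2.2 x hx _ (List.mem_singleton_self _)
    · have h1 := (mem_mir hm).mp hy
      have h2 : m y ≠ x ∧ m y ≠ m x := by
        rcases List.mem_cons.mp hx with rfl | hx
        · exact hregKp.2.2 _ (List.mem_singleton_self _) _ (List.mem_append_left _ h1)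
        · exact hdisj x hx _ h1
      exact ⟨fun h => h2.2 (by rw [h]), fun h => h2.1 (by rw [h, hinv])⟩
  · intro z hz
    have h1 : z ∈ U ∧ z ∉ D v := by
      rcases List.mem_append.mp hz with h | h
      · exact ⟨hAU z h, hAv z h⟩
      · rcases List.mem_cons.mp h with rfl | h
        · exact ⟨hp, hpv⟩
        · exact hKm z h
    exact ⟨h1.1, h1.2, hlight z h1.1 h1.2⟩
  · intro z hz ht
    have h1 : p :: mir m K = mir m (K ++ [m p]) := by
      rw [mir_append, mir_singleton, hinv]; rfl
    rw [h1] at hz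
    have h2 := hKt _ (hx1_mem_dropLast_mir hm hz)
    rw [hinv] at h2
    exact h2 ht

/-- first member of a list with a property -/
private theorem hx2_first (P : V → Prop) : ∀ (L : List V),
    ∃ L1 L0, L = L1 ++ L0 ∧ (∀ w ∈ L1, ¬ P w) ∧ (L0 = [] ∨ ∃ z L2, L0 = z :: L2 ∧ P z) := by
  intro L
  induction L with
  | nil => exact ⟨[], [], rfl, by simp, Or.inl rfl⟩
  | cons x l ih =>
    by_cases h : P x
    · exact ⟨[], x :: l, rfl, by simp, Or.inr ⟨x, l, rfl, h⟩⟩
    · obtain ⟨L1, L0, h1, h2, h3⟩ := ih
      refine ⟨x :: L1, L0, by rw [h1, List.cons_append], ?_, h3⟩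
      intro w hw
      rcases List.mem_cons.mp hw with rfl | hw
      · exact h
      · exact h2 w hw

private theorem hx2_last (P : V → Prop) (L : List V) :
    ∃ L0 L2, L = L0 ++ L2 ∧ (∀ w ∈ L2, ¬ P w) ∧ (L0 = [] ∨ ∃ L1 z, L0 = L1 ++ [z] ∧ P z) := by
  by_cases h : ∃ z ∈ L, P z
  · obtain ⟨L1, z, L2, h1, h2, h3⟩ := hx1_last P L h
    exact ⟨L1 ++ [z], L2, by rw [h1]; simp, h3, Or.inr ⟨L1, z, rfl, h2⟩⟩
  · push Not at h
    exact ⟨[], L, rfl, h, Or.inl rfl⟩

private theorem hx2_ext {D1 D2 : V → Set V} (h12 : ∀ x, D1 x ⊆ D2 x) (hD2 : Fam G m D2) {u v w : V}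
    (hu : u ∈ insert v (D2 v)) (ht : Touch G D1 u w) : Touch G D2 v w := by
  obtain ⟨x, hx, y, hy, hxy⟩ := ht
  refine ⟨x, ?_, y, ?_, hxy⟩
  · rcases hx with h | h
    · rw [h]; exact hu
    · rcases hu with h' | h'
      · rw [h'] at h
        exact Set.mem_insert_of_mem _ (h12 v h)
      · exact Set.mem_insert_of_mem _ (hD2.trans v u h' (h12 u h))
  · exact Set.insert_subset_insert (h12 w) hy

private theorem hx2_out (C : Ctx G m β t D₀ F s Y) (hD : Lvl G m β D₀ F D) {v : V} (hv : v ∈ insert s Y)
    (hhv : β ≤ (D v).ncard) {K : List V} (hK : ∀ z ∈ K, z ∈ Y ∧ z ∉ D v ∧ ¬ Touch G D v (m z)) :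
    (⋃ z ∈ K, (D (m z) ∪ {z, m z})).ncard ≤ t := by
  have hDv : ∀ z, m z ∈ D v ↔ z ∈ D v := fun z => (hD.fam.valid v).mate_mem_iff C.mate
  refine Lvl.outside C hD hv hhv ?_ ?_
  · intro u hu
    simp only [Set.mem_iUnion] at hu
    obtain ⟨z, hz, hu⟩ := hu
    have hzY := (hK z hz).1
    rcases hu with h | h | h
    · exact Lvl.sub C hD (Set.mem_insert_of_mem _ (C.mate_mem hzY)) h
    · rw [h]; exact hzY
    · rw [Set.mem_singleton_iff.mp h]; exact C.mate_mem hzY
  · rw [Set.disjoint_left]
    intro u hu huv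
    simp only [Set.mem_iUnion] at hu
    obtain ⟨z, hz, hu⟩ := hu
    obtain ⟨_, h2, h3⟩ := hK z hz
    rcases hu with h | h | h
    · exact h3 ⟨u, Set.mem_insert_of_mem _ huv, u, Set.mem_insert_of_mem _ h, Or.inl rfl⟩
    · rw [h] at huv; exact h2 huv
    · rw [Set.mem_singleton_iff.mp h] at huv; exact h2 ((hDv z).mp huv)

private theorem hx2_out' (C : Ctx G m β t D₀ F s Y) (hD : Lvl G m β D₀ F D) {v : V} (hv : v ∈ insert s Y)
    (hhv : β ≤ (D v).ncard) {K : List V} (hK : ∀ z ∈ K, z ∈ Y ∧ ¬ Touch G D v z) :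
    (⋃ z ∈ K, D z).ncard ≤ t := by
  refine Lvl.outside C hD hv hhv ?_ ?_
  · intro u hu
    simp only [Set.mem_iUnion] at hu
    obtain ⟨z, hz, hu⟩ := hu
    exact Lvl.sub C hD (Set.mem_insert_of_mem _ (hK z hz).1) hu
  · rw [Set.disjoint_left]
    intro u hu huv
    simp only [Set.mem_iUnion] at hu
    obtain ⟨z, hz, hu⟩ := hu
    exact (hK z hz).2 ⟨u, Set.mem_insert_of_mem _ huv, u, Set.mem_insert_of_mem _ hu, Or.inl rfl⟩

/-- a member of a good walk which touches `v` is found -/
private theorem hx2_half (C : Ctx G m β t D₀ F s Y) (hD : Lvl G m β D₀ F D) {v q : V} (hv : v ∈ insert s Y)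
    (hhv : β ≤ (D v).ncard) {A : List V} (hch : List.IsChain (Arc G m D) (v :: (A ++ [q]))) (hreg : Reg m (v :: (A ++ [q])))
    (hnodes : ∀ z ∈ A, z ∈ MaxV G m Y v ∧ z ∉ D v ∧ (D z).ncard < β ∧ (D (m z)).ncard < β)
    (htail : ∀ z ∈ (A ++ [q]).tail, ¬ Touch G D v (m z)) {z : V} (hz : z ∈ A) (ht : Touch G D v z) :
    z ∈ Phih G m β D v := by
  have hm := C.mate
  have hN := C.noalt
  have hinv := hm.invol
  have hUv : Valid G m v (MaxV G m Y v) := valid_MaxV Y v
  have hUY : MaxV G m Y v ⊆ Y := MaxV_subset Y v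
  obtain ⟨A1, A2, hA⟩ := List.append_of_mem hz
  subst hA
  have hzn := hnodes z hz
  have hA1 : ∀ w ∈ A1, w ∈ MaxV G m Y v ∧ w ∉ D v ∧ (D w).ncard < β ∧ (D (m w)).ncard < β :=
    fun w hw => hnodes w (List.mem_append_left _ hw)
  have hc1 : List.IsChain (Arc G m D) (v :: (A1 ++ [z])) := by
    have : v :: ((A1 ++ z :: A2) ++ [q]) = (v :: (A1 ++ [z])) ++ (A2 ++ [q]) := by simp
    rw [this] at hch
    exact hch.left_of_append
  have hr1 : Reg m (v :: (A1 ++ [z])) := by
    refine hreg.sublist ?_
    have : v :: ((A1 ++ z :: A2) ++ [q]) = (v :: (A1 ++ [z])) ++ (A2 ++ [q]) := by simp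
    rw [this]
    exact List.sublist_append_left _ _
  have harc : Arc G m D z (m v) := by
    show Sim G m D z (m (m v))
    rw [hinv]
    refine ⟨fun h => hUv.nmem (h ▸ hzn.1), fun h => hUv.mate_nmem hm (h ▸ hzn.1), hzn.2.1, ?_, (touch_comm _ _).mp ht⟩
    exact Valid.nmem_of_mem hm hN hUv hzn.1 (hD.fam.valid z)
  have hP : PCW G m D v (A1 ++ [z]) := by
    refine ⟨by simp, ?_, hr1⟩
    have : v :: ((A1 ++ [z]) ++ [m v]) = v :: (A1 ++ z :: [m v]) := by simp
    rw [this, List.isChain_cons_split]
    exact ⟨hc1, List.isChain_pair.mpr harc⟩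
  have hcost : W m D (A1 ++ [z]) ≤ 2 * β + 1 := by
    have h1 := Lvl.run_cost C hD (L := A1) (c := z)
      (fun w hw => ⟨hUY (hA1 w hw).1, (hA1 w hw).2.2⟩) (hUY hzn.1) hzn.2.2.2 hc1.tail
      (hr1.sublist (List.sublist_cons_self _ _))
    have h2 : (⋃ w ∈ A1, D w).ncard ≤ Y.ncard := by
      refine Set.ncard_le_ncard ?_ (Set.toFinite _)
      intro u hu
      simp only [Set.mem_iUnion] at hu
      obtain ⟨w, hw, hu⟩ := hu
      exact Lvl.sub C hD (Set.mem_insert_of_mem _ (hUY (hA1 w hw).1)) hu
    have h3 : (⋃ w ∈ (A1 ++ [z]).tail, (D (m w) ∪ {w, m w})).ncard ≤ t := by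
      refine hx2_out C hD hv hhv ?_
      intro w hw
      have hw1 : w ∈ A1 ++ [z] := List.mem_of_mem_tail hw
      have hw2 : w ∈ MaxV G m Y v ∧ w ∉ D v ∧ (D w).ncard < β ∧ (D (m w)).ncard < β := by
        apply hnodes
        rcases List.mem_append.mp hw1 with h | h
        · exact List.mem_append_left _ h
        · rw [List.mem_singleton.mp h]; exact hz
      refine ⟨hUY hw2.1, hw2.2.1, ?_⟩
      apply htail
      cases A1 with
      | nil => simp at hw
      | cons x A1 =>
        simp only [List.cons_append, List.tail_cons] at hw ⊢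
        have : (A1 ++ z :: A2) ++ [q] = (A1 ++ [z]) ++ (A2 ++ [q]) := by simp
        rw [this]
        exact List.mem_append_left _ hw
    have h4 := C.card
    have h5 := C.ht
    omega
  have hF := hP.fnd hcost
  exact Fnd.subset_Phih hm hF hhv ((PCW.valid hm hN hD.fam hP).2.2 z (by simp))

/-- Job HX2. After three heavy steps the region of a heavy vertex is the largest valid set inside Y.
Proof. Write D1 = Phih D, D2 = Phih D1, D3 = Phih D2, U = MaxV Y v. By `heavy_mem` every y ∈ U heavy (for D, equivalently for D1 by `Phih_light`) lies in D1 v.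
Suppose U is not contained in D3 v and choose p ∈ U \ D3 v with |D1 p| maximal. If c ∈ U, p ∈ D1 c then c ∈ D3 v would give p ∈ D3 v, so c ∈ U \ D3 v with D1 p strictly contained in D1 c
(p ∈ D1 c), contradiction; so the hypothesis hmax of `exists_good_closed` holds for D1. Get A, B; let z_1,…,z_N be A ++ p :: B, p = z_m.
(1) Let f be the largest index < m with Touch z_f v (if any). Then z_1,…,z_f is a proper closed walk at v for D1, cost ≤ |Y| + t ≤ 2β + 1 by `run_cost`
(second part outside D1 v because the mates of z_2,…,z_f do not touch v), so z_f ∈ D2 v.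
(2) Let g be the smallest index > m with Touch z_g' v. Mirror: the walk z_N', …, z_g' is a proper closed walk at v, so z_g ∈ D2 v.
(3) If p ∈ D2 v we are done. Otherwise let z_i (f ≤ i < m) be the last member before p in D2 v (or none), z_j (m < j ≤ g) the first member after p in D2 v (or none). The part strictly between them is a
proper closed walk at v for D2: the end regions touch since insert z_i (D1 z_i) ⊆ D2 v, resp. insert z_j' (D1 z_j') ⊆ D2 v; the nodes are light so their regions are those of D1; v is not in the regions of nodes as they lie in U.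
Its cost is ≤ t + t by `run_cost` and `outside` for D1 v: the D z of all its members but the last do not touch v, and the D z' of all its members but the first do not touch v. So p ∈ D3 v. -/
theorem heavy_complete (C : Ctx G m β t D₀ F s Y) (hD : Lvl G m β D₀ F D)
    (hle : ∀ x, Phih G m β (Phih G m β (Phih G m β D)) x ⊆ F x) {v : V} (hv : v ∈ insert s Y)
    (hhv : β ≤ (D v).ncard) {X : Set V} (hX : Valid G m v X) (hXY : X ⊆ Y) :
    X ⊆ Phih G m β (Phih G m β (Phih G m β D)) v := by
  have hm := C.mate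
  have hN := C.noalt
  have hinv := hm.invol
  set D1 := Phih G m β D with hD1def
  set D2 := Phih G m β D1 with hD2def
  set D3 := Phih G m β D2 with hD3def
  have s01 : ∀ x, D x ⊆ D1 x := fun x => subset_Phih x
  have s12 : ∀ x, D1 x ⊆ D2 x := fun x => subset_Phih x
  have s23 : ∀ x, D2 x ⊆ D3 x := fun x => subset_Phih x
  have hD1 : Lvl G m β D₀ F D1 := Lvl.phih C hD (fun x => ((s12 x).trans (s23 x)).trans (hle x))
  have hD2 : Lvl G m β D₀ F D2 := Lvl.phih C hD1 (fun x => (s23 x).trans (hle x))
  have hD3 : Lvl G m β D₀ F D3 := Lvl.phih C hD2 hle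
  set U := MaxV G m Y v with hU
  have hUv : Valid G m v U := valid_MaxV Y v
  have hUY : U ⊆ Y := MaxV_subset Y v
  have hh1 : β ≤ (D1 v).ncard := hhv.trans (Set.ncard_le_ncard (s01 v) (Set.toFinite _))
  have hh2 : β ≤ (D2 v).ncard := hh1.trans (Set.ncard_le_ncard (s12 v) (Set.toFinite _))
  have hheavy : ∀ y ∈ U, β ≤ (D1 y).ncard → y ∈ D1 v := by
    intro y hy hhy
    have h1 : β ≤ (D y).ncard := by
      by_contra h
      have h2 := Phih_light (β := β) hD.fam (not_le.mp h)
      rw [← hD1def] at h2
      rw [h2] at hhy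
      exact h hhy
    exact heavy_mem C hD hv hhv hUv hUY hy h1
  refine (subset_MaxV hX hXY).trans ?_
  by_contra hcon
  have hne : (U \ D3 v).Nonempty := by
    rw [Set.not_subset] at hcon
    obtain ⟨a, h1, h2⟩ := hcon
    exact ⟨a, h1, h2⟩
  obtain ⟨p, ⟨hp, hp3⟩, hpmax⟩ := Set.exists_max_image (U \ D3 v) (fun x => (D1 x).ncard) (Set.toFinite _) hne
  have hpv : p ∉ D1 v := fun h => hp3 (s23 v (s12 v h))
  have hmax : ∀ c ∈ U, p ∉ D1 c := by
    intro c hc hpc
    by_cases hc3 : c ∈ D3 v
    · exact hp3 (hD3.fam.trans v c hc3 (s23 c (s12 c hpc)))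
    · have h1 : (D1 c).ncard ≤ (D1 p).ncard := hpmax c ⟨hc, hc3⟩
      have h2 : D1 p ⊂ D1 c := by
        refine ⟨hD1.fam.trans c p hpc, fun h => ?_⟩
        exact (hD1.fam.valid p).nmem (h hpc)
      have h3 := Set.ncard_lt_ncard h2 (Set.toFinite _)
      omega
  obtain ⟨A, B, hP, hnodes, hAt, hBt⟩ := exists_good_closed C hD1 hv hheavy hp hpv hmax
  obtain ⟨_, hch, hreg⟩ := hP
  -- first half
  have hone : ∀ z ∈ A, Touch G D1 v z → z ∈ D2 v := by
    intro z hz ht
    refine hx2_half C hD1 hv hh1 (q := p) (A := A) ?_ ?_ (fun w hw => hnodes w (List.mem_append_left _ hw)) hAt hz ht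
    · have : v :: ((A ++ p :: B) ++ [m v]) = (v :: (A ++ [p])) ++ (B ++ [m v]) := by simp
      rw [this] at hch
      exact hch.left_of_append
    · refine hreg.sublist ?_
      have : v :: (A ++ p :: B) = (v :: (A ++ [p])) ++ B := by simp
      rw [this]
      exact List.sublist_append_left _ _
  -- second half
  have hchB : List.IsChain (Arc G m D1) (p :: (B ++ [m v])) := by
    have : v :: ((A ++ p :: B) ++ [m v]) = (v :: A) ++ (p :: (B ++ [m v])) := by simp
    rw [this] at hch
    exact hch.right_of_append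
  have hDv1 : ∀ z, m z ∈ D1 v ↔ z ∈ D1 v := fun z => (hD1.fam.valid v).mate_mem_iff hm
  have hDv2 : ∀ z, m z ∈ D2 v ↔ z ∈ D2 v := fun z => (hD2.fam.valid v).mate_mem_iff hm
  have hregvB : Reg m (v :: (p :: B)) := by
    refine hreg.sublist (List.Sublist.cons_cons v ?_)
    exact List.sublist_append_right _ _
  have htwo : ∀ z ∈ B, Touch G D1 v (m z) → z ∈ D2 v := by
    intro z hz ht
    have hmz : m z ∈ mir m B := (mem_mir hm).mpr (by rw [hinv]; exact hz)
    have h1 : m z ∈ D2 v := by
      refine hx2_half C hD1 hv hh1 (q := m p) (A := mir m B) ?_ ?_ ?_ ?_ hmz ht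
      · have := chain_mir_closed hm (fun a b h => Arc.mirror hm h) hchB
        rwa [hinv] at this
      · have e1 : mir m B ++ [m p] = mir m (p :: B) := by rw [mir_cons]
        rw [e1, reg_cons]
        have h2 := (reg_cons v (p :: B)).mp hregvB
        refine ⟨?_, (reg_mir_iff hm).mpr h2.2⟩
        intro b hb
        have h3 := h2.1 _ ((mem_mir hm).mp hb)
        exact ⟨fun h => h3.2 (by rw [h]), fun h => h3.1 (by rw [h, hinv])⟩
      · intro w hw
        have hw1 := hnodes (m w) (List.mem_append_right _ (List.mem_cons_of_mem _ ((mem_mir hm).mp hw)))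
        obtain ⟨g1, g2, g3, g4⟩ := hw1
        rw [hinv] at g4
        refine ⟨?_, fun h => g2 ((hDv1 w).mpr h), g4, g3⟩
        have := hUv.closed _ g1
        rwa [hinv] at this
      · intro w hw
        have e1 : mir m B ++ [m p] = mir m (p :: B) := by rw [mir_cons]
        rw [e1] at hw
        have e2 : (mir m (p :: B)).tail = mir m (p :: B).dropLast := by
          unfold mir
          rw [List.tail_reverse, List.map_dropLast]
        rw [e2] at hw
        exact hBt _ ((mem_mir hm).mp hw)
    exact (hDv2 z).mp h1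
  -- the middle part
  obtain ⟨A0, A2, hAs, hA2, hA0⟩ := hx2_last (fun z => z ∈ D2 v) A
  obtain ⟨B1, B0, hBs, hB1, hB0⟩ := hx2_first (fun z => z ∈ D2 v) B
  by_cases hp2 : p ∈ D2 v
  · exact hp3 (s23 v hp2)
  set M := A2 ++ p :: B1 with hM
  have hMnodes : ∀ z ∈ M, z ∈ A ++ p :: B ∧ z ∉ D2 v := by
    intro z hz
    rcases List.mem_append.mp hz with h | h
    · exact ⟨List.mem_append_left _ (by rw [hAs]; exact List.mem_append_right _ h), hA2 z h⟩
    · rcases List.mem_cons.mp h with rfl | h
      · exact ⟨by simp, hp2⟩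
      · refine ⟨List.mem_append_right _ (List.mem_cons_of_mem _ ?_), hB1 z h⟩
        rw [hBs]; exact List.mem_append_left _ h
  have hMl : ∀ z ∈ M, D2 z = D1 z ∧ D2 (m z) = D1 (m z) := by
    intro z hz
    obtain ⟨_, _, h3, h4⟩ := hnodes z (hMnodes z hz).1
    exact ⟨Phih_light hD1.fam h3, Phih_light hD1.fam h4⟩
  have hMU : ∀ z ∈ M, z ∈ U := fun z hz => (hnodes z (hMnodes z hz).1).1
  -- predecessor
  obtain ⟨u, hu, huch⟩ : ∃ u ∈ insert v (D2 v), List.IsChain (Arc G m D1) (u :: (M ++ (B0 ++ [m v]))) := by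
    rcases hA0 with h | ⟨A1, zi, h, hzi⟩
    · refine ⟨v, Set.mem_insert _ _, ?_⟩
      rw [hAs, h, hBs] at hch
      have : v :: (([] ++ A2 ++ p :: (B1 ++ B0)) ++ [m v]) = v :: (M ++ (B0 ++ [m v])) := by simp [hM]
      rwa [this] at hch
    · refine ⟨zi, Set.mem_insert_of_mem _ hzi, ?_⟩
      rw [hAs, h, hBs] at hch
      have : v :: (((A1 ++ [zi]) ++ A2 ++ p :: (B1 ++ B0)) ++ [m v]) = (v :: A1) ++ (zi :: (M ++ (B0 ++ [m v]))) := by
        simp [hM]
      rw [this] at hch
      exact hch.right_of_append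
  -- successor
  obtain ⟨w, hw, hwch⟩ : ∃ w, m w ∈ insert v (D2 v) ∧ List.IsChain (Arc G m D1) (M ++ [w]) := by
    have h1 : List.IsChain (Arc G m D1) (M ++ (B0 ++ [m v])) := huch.tail
    rcases hB0 with h | ⟨zj, B2, h, hzj⟩
    · refine ⟨m v, by rw [hinv]; exact Set.mem_insert _ _, ?_⟩
      rw [h, List.nil_append] at h1
      exact h1
    · refine ⟨zj, Set.mem_insert_of_mem _ ((hDv2 zj).mpr hzj), ?_⟩
      rw [h] at h1
      have : M ++ (zj :: B2 ++ [m v]) = (M ++ [zj]) ++ (B2 ++ [m v]) := by simp
      rw [this] at h1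
      exact h1.left_of_append
  have hMch : List.IsChain (Arc G m D1) M := hwch.left_of_append
  have hMch2 : List.IsChain (Arc G m D2) M := by
    refine hMch.imp_of_mem_imp ?_
    intro a b ha hb hab
    have e1 := (hMl a ha).1
    have e2 := (hMl b hb).2
    unfold Arc Sim Touch at hab ⊢
    rw [e1, e2]
    exact hab
  have hMne : M ≠ [] := by simp [hM]
  obtain ⟨b, R, hbR⟩ : ∃ b R, M = b :: R := by
    cases h : M with
    | nil => exact absurd h hMne
    | cons x l => exact ⟨x, l, rfl⟩
  obtain ⟨L', c, hLc⟩ : ∃ L' c, M = L' ++ [c] := by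
    rcases List.eq_nil_or_concat M with h | ⟨L', c, h⟩
    · exact absurd h hMne
    · exact ⟨L', c, by rw [h, List.concat_eq_append]⟩
  have hbM : b ∈ M := by rw [hbR]; simp
  have hcM : c ∈ M := by rw [hLc]; simp
  have hfirst : Arc G m D2 v b := by
    have h1 : Arc G m D1 u b := by
      rw [hbR, List.cons_append] at huch
      exact (List.isChain_cons_cons.mp huch).1
    have hmb : m b ∈ U := hUv.closed b (hMU b hbM)
    refine ⟨fun h => hUv.nmem (h ▸ hmb), fun h => hUv.nmem ?_, ?_, ?_, hx2_ext s12 hD2.fam hu h1.tarc⟩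
    · rw [h, hinv]; exact hMU b hbM
    · exact Valid.nmem_of_mem hm hN hUv hmb (hD2.fam.valid (m b))
    · exact fun h => (hMnodes b hbM).2 ((hDv2 b).mp h)
  have hlast : Arc G m D2 c (m v) := by
    have h1 : Arc G m D1 c w := by
      rw [hLc] at hwch
      have : (L' ++ [c]) ++ [w] = L' ++ c :: [w] := by simp
      rw [this] at hwch
      exact List.isChain_pair.mp hwch.right_of_append
    show Sim G m D2 c (m (m v))
    rw [hinv]
    refine ⟨fun h => hUv.nmem (h ▸ hMU c hcM), fun h => hUv.mate_nmem hm (h ▸ hMU c hcM), (hMnodes c hcM).2, ?_, ?_⟩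
    · exact Valid.nmem_of_mem hm hN hUv (hMU c hcM) (hD2.fam.valid c)
    · exact (touch_comm _ _).mp (hx2_ext s12 hD2.fam hw ((touch_comm _ _).mp h1.tarc))
  have hregM : Reg m (v :: M) := by
    refine hreg.sublist (List.Sublist.cons_cons v ?_)
    rw [hM, hAs, hBs, List.append_assoc]
    refine (List.Sublist.append (List.Sublist.refl A2) (List.Sublist.cons_cons p (List.sublist_append_left B1 B0))).trans ?_
    exact List.sublist_append_right _ _
  have hPM : PCW G m D2 v M := by
    refine ⟨hMne, ?_, hregM⟩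
    rw [hLc]
    have : v :: ((L' ++ [c]) ++ [m v]) = v :: (L' ++ c :: [m v]) := by simp
    rw [this, List.isChain_cons_split]
    refine ⟨?_, List.isChain_pair.mpr hlast⟩
    rw [← hLc, hbR, List.isChain_cons_cons]
    rw [hbR] at hMch2
    exact ⟨hfirst, hMch2⟩
  have hcost : W m D2 M ≤ 2 * β + 1 := by
    rw [W_congr hMl]
    have hn : ∀ z ∈ M, z ∈ Y ∧ (D1 z).ncard < β ∧ (D1 (m z)).ncard < β := fun z hz => by
      obtain ⟨g1, _, g3, g4⟩ := hnodes z (hMnodes z hz).1
      exact ⟨hUY g1, g3, g4⟩
    have h1 := Lvl.run_cost C hD1 (L := L') (c := c)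
      (fun z hz => hn z (by rw [hLc]; exact List.mem_append_left _ hz)) (hn c hcM).1 (hn c hcM).2.2
      (by rw [← hLc]; exact hMch) (by rw [← hLc]; exact hregM.sublist (List.sublist_cons_self _ _))
    rw [← hLc] at h1
    have h2 : (⋃ z ∈ L', D1 z).ncard ≤ t := by
      refine hx2_out' C hD1 hv hh1 ?_
      intro z hz
      have hzM : z ∈ M := by rw [hLc]; exact List.mem_append_left _ hz
      refine ⟨(hn z hzM).1, fun ht => ?_⟩
      have hz2 : z ∈ M.dropLast := by rw [hLc, List.dropLast_concat]; exact hz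
      rw [hM, List.dropLast_append_of_ne_nil (List.cons_ne_nil _ _)] at hz2
      rcases List.mem_append.mp hz2 with h | h
      · exact hA2 z h (hone z (by rw [hAs]; exact List.mem_append_right _ h) ht)
      · refine hBt z ?_ ht
        rw [hBs]
        by_cases hB00 : B0 = []
        · rw [hB00, List.append_nil]; exact h
        · rw [← List.cons_append, List.dropLast_append_of_ne_nil hB00]
          exact List.mem_append_left _ (List.mem_of_mem_dropLast h)
    have h3 : (⋃ z ∈ M.tail, (D1 (m z) ∪ {z, m z})).ncard ≤ t := by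
      refine hx2_out C hD1 hv hh1 ?_
      intro z hz
      have hzM : z ∈ M := List.mem_of_mem_tail hz
      refine ⟨(hn z hzM).1, (hnodes z (hMnodes z hzM).1).2.1, fun ht => ?_⟩
      have hz2 : z ∈ (A2 ++ [p]).tail ∨ z ∈ B1 := by
        have e1 : M = (A2 ++ [p]) ++ B1 := by simp [hM]
        rw [e1, List.tail_append_of_ne_nil (by simp)] at hz
        exact List.mem_append.mp hz
      rcases hz2 with h | h
      · refine hAt z ?_ ht
        rw [hAs, List.append_assoc]
        by_cases hA00 : A0 = []
        · rw [hA00, List.nil_append]; exact h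
        · rw [List.tail_append_of_ne_nil hA00]
          exact List.mem_append_right _ (List.mem_of_mem_tail h)
      · exact hB1 z h (htwo z (by rw [hBs]; exact List.mem_append_left _ h) ht)
    have h4 := C.ht
    omega
  have hF := hPM.fnd hcost
  have hpM : p ∈ M := by simp [hM]
  exact hp3 (Fnd.subset_Phih hm hF hh2 ((PCW.valid hm hN hD2.fam hPM).2.2 p hpM))

end Pool.Agent.UPM
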