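import Pool.Agent.Lib.MP_0087d5_lc.UPM.Light

/-!
# Iterating the stages; the final test

Jobs ITER, TEST1, TEST2, UNIQ. See notes section 11.
-/

namespace Pool.Agent.UPM

open Relation

variable {V : Type*} {G : SimpleGraph V} {m : V → V}

/-- One stage: three rounds at scale `β`, then the next scale (at most `n - 1`). -/
def stg (G : SimpleGraph V) (m : V → V) (n : ℕ) (p : (V → Set V) × ℕ) : (V → Set V) × ℕ :=
  (Psi G m p.2 (Psi G m p.2 (Psi G m p.2 p.1)), min (n - 1) (p.2 + p.2 / 5 + 1))

private theorem iter_step (n k : ℕ) : ((stg G m n)^[k + 1] (fun _ => ∅, 1)).2 =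
    min (n - 1) (((stg G m n)^[k] (fun _ => ∅, 1)).2 + ((stg G m n)^[k] (fun _ => ∅, 1)).2 / 5 + 1) := by
  rw [Function.iterate_succ_apply']
  rfl

/-- growth of the scales, arithmetic -/
private theorem iter_arith (n : ℕ) (hn : 2 ≤ n) (b : ℕ → ℕ) (h0 : b 0 = 1)
    (hb : ∀ k, b (k + 1) = min (n - 1) (b k + b k / 5 + 1)) :
    (∀ k, 1 ≤ b k ∧ b k ≤ n - 1) ∧ ∀ k, min (n - 1) (2 ^ (k / 4)) ≤ b k := by
  have h1 : ∀ k, 1 ≤ b k ∧ b k ≤ n - 1 := by
    intro k
    induction k with
    | zero => rw [h0]; omega
    | succ k ih => rw [hb k]; omega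
  refine ⟨h1, ?_⟩
  intro k
  induction k using Nat.strong_induction_on with
  | _ k ih =>
    rcases Nat.lt_or_ge k 4 with hk | hk
    · have : k / 4 = 0 := by omega
      rw [this, pow_zero]
      exact (min_le_right _ _).trans (h1 k).1
    · obtain ⟨j, rfl⟩ : ∃ j, k = j + 4 := ⟨k - 4, by omega⟩
      have hj := ih j (by omega)
      have e : 2 ^ ((j + 4) / 4) = 2 * 2 ^ (j / 4) := by
        rw [Nat.add_div_right j (by norm_num), pow_succ, mul_comm]
      rw [e]
      have s0 := hb j
      have s1 := hb (j + 1)
      have s2 := hb (j + 2)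
      have s3 := hb (j + 3)
      have t0 := h1 j
      have t1 := h1 (j + 1)
      have t2 := h1 (j + 2)
      have t3 := h1 (j + 3)
      have s1' : b (j + 2) = min (n - 1) (b (j + 1) + b (j + 1) / 5 + 1) := s1
      have s2' : b (j + 3) = min (n - 1) (b (j + 2) + b (j + 2) / 5 + 1) := s2
      have s3' : b (j + 4) = min (n - 1) (b (j + 3) + b (j + 3) / 5 + 1) := s3
      generalize 2 ^ (j / 4) = p at *
      omega

/-- Job ITER. The scales grow by a factor 6/5 at least: four stages double the scale. Here `2 ≤ n`. -/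
theorem stg_scale (n k : ℕ) (hn : 2 ≤ n) :
    1 ≤ ((stg G m n)^[k] (fun _ => ∅, 1)).2 ∧ ((stg G m n)^[k] (fun _ => ∅, 1)).2 ≤ n - 1 ∧
      min (n - 1) (2 ^ (k / 4)) ≤ ((stg G m n)^[k] (fun _ => ∅, 1)).2 := by
  have h := iter_arith n hn (fun k => ((stg G m n)^[k] (fun _ => ∅, 1)).2) rfl (iter_step n)
  exact ⟨(h.1 k).1, (h.1 k).2, h.2 k⟩

/-- Job ITER. The families of all stages are transitive families of valid sets, complete up to the scale
(`stage` with t = β / 5 and `Clsd.mono`; the empty family is complete up to size 1). -/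
theorem stg_fam [Finite V] (hm : IsMate G m) (hU : NoAlt G m) (n : ℕ) (hn : 2 ≤ n) (k : ℕ) :
    Fam G m ((stg G m n)^[k] (fun _ => ∅, 1)).1 ∧
      Clsd G m ((stg G m n)^[k] (fun _ => ∅, 1)).2 ((stg G m n)^[k] (fun _ => ∅, 1)).1 := by
  induction k with
  | zero =>
    refine ⟨fam_empty, ?_⟩
    intro x Y _ _ _ hcard
    have hc : Y.ncard < 1 := hcard
    have h0 : Y.ncard = 0 := by omega
    rw [Set.ncard_eq_zero] at h0
    rw [h0]
    exact Set.empty_subset _
  | succ k ih =>
    obtain ⟨hf, hc⟩ := ih
    have hs := stg_scale (G := G) (m := m) n k hn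
    rw [Function.iterate_succ_apply']
    set p := (stg G m n)^[k] (fun _ => ∅, 1) with hp
    constructor
    · exact fam_Psi hm hU (fam_Psi hm hU (fam_Psi hm hU hf))
    · have h5 : 5 * (p.2 / 5) ≤ p.2 + 1 := by omega
      exact (stage hm hU hs.1 h5 hf hc).mono (min_le_right _ _)

/-- Job ITER. A family complete up to size |V| - 1 contains every valid set.
Proof: MaxV univ x is valid at x, closed under D (`MaxV_trans`), contains D x, and has at most |V| - 2 elements (x and x' are missing). -/
theorem complete_of_clsd [Finite V] (hm : IsMate G m) (hU : NoAlt G m) {D : V → Set V} (hD : Fam G m D)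
    (hc : Clsd G m (Nat.card V - 1) D) {x : V} {X : Set V} (hX : Valid G m x X) : X ⊆ D x := by
  have hM := valid_MaxV (G := G) (m := m) Set.univ x
  have hsub : MaxV G m Set.univ x ⊆ D x := by
    apply hc x _ hM
    · intro y hy
      exact (subset_MaxV (hD.valid y) (Set.subset_univ _)).trans (MaxV_trans hm hU _ _ _ hy)
    · exact subset_MaxV (hD.valid x) (Set.subset_univ _)
    · have h1 : m x ∉ MaxV G m Set.univ x := hM.mate_nmem hm
      have h2 : x ∉ insert (m x) (MaxV G m Set.univ x) := by
        rw [Set.mem_insert_iff, not_or]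
        exact ⟨fun h => hm.ne x h.symm, hM.nmem⟩
      have h3 : (insert x (insert (m x) (MaxV G m Set.univ x))).ncard =
          (MaxV G m Set.univ x).ncard + 1 + 1 := by
        rw [Set.ncard_insert_of_notMem h2, Set.ncard_insert_of_notMem h1]
      have h4 : (insert x (insert (m x) (MaxV G m Set.univ x))).ncard ≤ Nat.card V := by
        rw [← Set.ncard_univ]
        exact Set.ncard_le_ncard (Set.subset_univ _)
      omega
  exact (subset_MaxV hX (Set.subset_univ _)).trans hsub

/-- The one-sided arcs of the final test. -/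
def Delta (G : SimpleGraph V) (m : V → V) (D : V → Set V) (w v : V) : Prop :=
  ∃ u ∈ insert w (D w), G.Adj u (m v) ∧ u ≠ v ∧ m v ∉ insert w (D w)

/-- The final test. -/
def Test (G : SimpleGraph V) (m : V → V) (D : V → Set V) : Prop :=
  (∀ x, x ∉ D x) ∧ (∀ x, ∀ y ∈ D x, m y ∈ D x) ∧ ∀ w, ¬ TransGen (Delta G m D) w w

/-- following the cycle until the mate leaves the region -/
private theorem test1_walk (hm : IsMate G m) {D : V → Set V} (h1 : ∀ x, x ∉ D x)
    (h2 : ∀ x, ∀ y ∈ D x, m y ∈ D x) (w : V) : ∀ (Q : List V) (u : V), u ∈ insert w (D w) →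
    List.IsChain (PArc G m) (u :: (Q ++ [w])) → (∀ z ∈ Q, z ≠ w ∧ z ≠ m w) →
    ∃ v ∈ Q ++ [w], Delta G m D w v := by
  intro Q
  induction Q with
  | nil =>
    intro u hu hch _
    rw [List.nil_append, List.isChain_pair] at hch
    refine ⟨w, by simp, u, hu, hch.1, hch.2, ?_⟩
    rw [Set.mem_insert_iff, not_or]
    refine ⟨hm.ne w, fun h => ?_⟩
    have := h2 w _ h
    rw [hm.invol] at this
    exact h1 w this
  | cons z Q ih =>
    intro u hu hch hQ
    rw [List.cons_append, List.isChain_cons_cons] at hch
    obtain ⟨ha, hch'⟩ := hch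
    by_cases hz : m z ∈ insert w (D w)
    · rw [Set.mem_insert_iff] at hz
      rcases hz with hz | hz
      · exfalso
        apply (hQ z (by simp)).2
        rw [← hz, hm.invol]
      · have hz' := h2 w _ hz
        rw [hm.invol] at hz'
        obtain ⟨v, hv, hd⟩ := ih z (Set.mem_insert_of_mem _ hz') hch'
          (fun y hy => hQ y (List.mem_cons_of_mem _ hy))
        exact ⟨v, by rw [List.cons_append]; exact List.mem_cons_of_mem _ hv, hd⟩
    · exact ⟨z, by simp, u, hu, ha.1, ha.2, hz⟩

/-- a relation with an out-neighbour at every point of a set has a cycle -/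
private theorem test1_cyc [Finite V] {R : V → V → Prop} {C : Set V} {a : V} (ha : a ∈ C)
    (h : ∀ w ∈ C, ∃ v ∈ C, R w v) : ∃ w, TransGen R w w := by
  classical
  choose! f hf using h
  have hmem : ∀ n : ℕ, f^[n] a ∈ C := by
    intro n
    induction n with
    | zero => exact ha
    | succ n ih =>
      rw [Function.iterate_succ_apply']
      exact (hf _ ih).1
  have hstep : ∀ n k : ℕ, TransGen R (f^[n] a) (f^[n + k + 1] a) := by
    intro n k
    induction k with
    | zero =>
      rw [add_zero, Function.iterate_succ_apply']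
      exact TransGen.single (hf _ (hmem n)).2
    | succ k ih =>
      refine TransGen.tail ih ?_
      have e : n + (k + 1) + 1 = (n + k + 1) + 1 := by ring
      rw [e, Function.iterate_succ_apply' f (n + k + 1)]
      exact (hf _ (hmem _)).2
  obtain ⟨i, j, hij, he⟩ := Finite.exists_ne_map_eq_of_infinite (fun n : ℕ => f^[n] a)
  rcases lt_or_gt_of_ne hij with hl | hl
  · obtain ⟨k, hk⟩ : ∃ k, j = i + k + 1 := ⟨j - i - 1, by omega⟩
    have := hstep i k
    rw [← hk] at this
    have he' : f^[i] a = f^[j] a := he
    rw [← he'] at this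
    exact ⟨_, this⟩
  · obtain ⟨k, hk⟩ : ∃ k, i = j + k + 1 := ⟨i - j - 1, by omega⟩
    have := hstep j k
    rw [← hk] at this
    have he' : f^[i] a = f^[j] a := he
    rw [he'] at this
    exact ⟨_, this⟩

/-- Job TEST1. Soundness of the final test.
Proof: let (a, L) be an alternating cycle and C the set of members of a :: L. Every w ∈ C has a Delta-arc to some member of C: rotate the cycle (`chain_rotate`) so that it starts
at w: w = z_0 → z_1 → … → z_k = w. Let l ≥ 1 be the first index with z_l' ∉ insert w (D w); it exists because w' ≠ w and w' ∉ D w (closedness and w ∉ D w). For 1 ≤ i < l we have z_i' ∈ insert w (D w) and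
z_i' ≠ w (regularity), so z_i' ∈ D w and z_i ∈ D w. So u = z_{l-1} ∈ insert w (D w), Adj u z_l', u ≠ z_l: Delta w z_l. As C is finite and every member has an out-neighbour in C, Delta has a cycle. -/
theorem noAlt_of_test [Finite V] (hm : IsMate G m) {D : V → Set V} (ht : Test G m D) : NoAlt G m := by
  obtain ⟨h1, h2, h3⟩ := ht
  rintro a L ⟨_, hch, hreg, _⟩
  have key : ∀ w ∈ {z | z ∈ a :: L}, ∃ v ∈ {z | z ∈ a :: L}, Delta G m D w v := by
    intro w hw
    rw [Set.mem_ofPred_eq, List.mem_cons] at hw
    -- rotate
    obtain ⟨Q, hQc, hQr, hQm⟩ : ∃ Q, List.IsChain (PArc G m) (w :: (Q ++ [w])) ∧ Reg m (w :: Q) ∧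
        ∀ z ∈ Q ++ [w], z ∈ a :: L := by
      rcases hw with rfl | hw
      · refine ⟨L, hch, hreg, ?_⟩
        intro z hz
        rw [List.mem_append, List.mem_singleton] at hz
        rw [List.mem_cons]
        tauto
      · obtain ⟨P, Q, rfl⟩ := List.append_of_mem hw
        refine ⟨Q ++ a :: P, chain_rotate hch, ?_, ?_⟩
        · apply hreg.perm hm
          have e1 : w :: (Q ++ a :: P) = (w :: Q) ++ (a :: P) := by simp
          have e2 : a :: (P ++ w :: Q) = (a :: P) ++ (w :: Q) := by simp
          rw [e1, e2]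
          exact List.perm_append_comm
        · intro z hz
          simp only [List.mem_append, List.mem_cons] at hz ⊢
          tauto
    rw [reg_cons] at hQr
    obtain ⟨v, hv, hd⟩ := test1_walk hm h1 h2 w Q w (Set.mem_insert _ _) hQc hQr.1
    exact ⟨v, hQm v hv, hd⟩
  obtain ⟨w, hw⟩ := test1_cyc (C := {z | z ∈ a :: L}) (a := a) (by simp) key
  exact h3 w hw

/-- a weaker form of the arcs of the final test -/
private def Gam (G : SimpleGraph V) (m : V → V) (D : V → Set V) (u v : V) : Prop :=
  m v ∉ D u ∧ u ≠ v ∧ m v ≠ u ∧ Touch G D u (m v)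

private theorem test2_delta [Finite V] (hm : IsMate G m) (hU : NoAlt G m) {D : V → Set V}
    (hD : Fam G m D) {w v : V} (h : Delta G m D w v) : Gam G m D w v := by
  obtain ⟨u, hu, hadj, huv, hv⟩ := h
  rw [Set.mem_insert_iff, not_or] at hv
  refine ⟨hv.2, ?_, hv.1, u, hu, m v, Set.mem_insert _ _, Or.inr hadj⟩
  rintro rfl
  exact huv ((fam_mates hm hU hD w u hu (m w) (Set.mem_insert _ _)).2 hadj).1

private theorem test2_short [Finite V] (hm : IsMate G m) (hU : NoAlt G m) {D : V → Set V}
    (hD : Fam G m D) {u w v : V} (h1 : Gam G m D u w) (hw : w ∈ D (m v)) : Gam G m D u v := by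
  obtain ⟨g1, g2, g3, p, hp, q, hq, hpq⟩ := h1
  have hmw : m w ∈ D (m v) := (hD.valid (m v)).closed w hw
  have hsub : insert (m w) (D (m w)) ⊆ D (m v) := by
    rw [Set.insert_subset_iff]
    exact ⟨hmw, hD.trans (m v) (m w) hmw⟩
  refine ⟨?_, ?_, ?_, p, hp, q, Set.mem_insert_of_mem _ (hsub hq), hpq⟩
  · intro h
    exact g1 (hD.trans u (m v) h hmw)
  · rintro rfl
    have hq' := hsub hq
    have h := fam_mates hm hU hD u p hp q (Set.mem_insert_of_mem _ hq')
    rcases hpq with hpq | hpq
    · exact h.1 hpq
    · have := (h.2 hpq).2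
      rw [this] at hq'
      exact (hD.valid (m u)).nmem hq'
  · rintro rfl
    exact g1 hmw

private theorem test2_ends {l : List V} {a : V} (h2 : 2 ≤ l.length) (hh : l.head? = some a)
    (hl : l.getLast? = some a) : ∃ L, l = a :: (L ++ [a]) := by
  cases l with
  | nil => simp at h2
  | cons b l =>
    rcases List.eq_nil_or_concat' l with rfl | ⟨L, c, rfl⟩
    · simp at h2
    · rw [List.head?_cons, Option.some_inj] at hh
      rw [← List.cons_append, List.getLast?_append_cons, List.getLast?_singleton,
        Option.some_inj] at hl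
      exact ⟨L, by rw [hh, hl]⟩

private theorem test2_notreg {L : List V} (h : ¬ Reg m L) :
    ∃ P x Q y R, L = P ++ x :: (Q ++ y :: R) ∧ (y = x ∨ y = m x) := by
  induction L with
  | nil => exact absurd List.Pairwise.nil h
  | cons a L ih =>
    rw [reg_cons, not_and_or] at h
    rcases h with h | h
    · push Not at h
      obtain ⟨b, hb, hbb⟩ := h
      obtain ⟨Q, R, rfl⟩ := List.append_of_mem hb
      refine ⟨[], a, Q, b, R, rfl, ?_⟩
      by_cases hba : b = a
      · exact Or.inl hba
      · exact Or.inr (hbb hba)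
    · obtain ⟨P, x, Q, y, R, he, hy⟩ := ih h
      exact ⟨a :: P, x, Q, y, R, by rw [he]; rfl, hy⟩

private theorem test2_list {R : V → V → Prop} {a b : V} (h : TransGen R a b) :
    ∃ L, List.IsChain R (a :: (L ++ [b])) := by
  induction h with
  | single h => exact ⟨[], by rw [List.nil_append, List.isChain_pair]; exact h⟩
  | @tail b c _ hbc ih =>
    obtain ⟨L, hL⟩ := ih
    refine ⟨L ++ [b], ?_⟩
    have e : a :: ((L ++ [b]) ++ [c]) = (a :: L) ++ b :: c :: [] := by simp
    rw [e, List.isChain_append_cons_cons]
    exact ⟨by simpa using hL, hbc, List.isChain_singleton c⟩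

/-- there is no closed walk -/
private theorem test2_closed [Finite V] (hm : IsMate G m) (hU : NoAlt G m) {D : V → Set V}
    (hD : Fam G m D) (hmax : ∀ x X, Valid G m x X → X ⊆ D x) {s : V} {L : List V}
    (h : List.IsChain (Arc G m D) (s :: (L ++ [m s]))) : False := by
  obtain ⟨s₀, L₀, _, _, hP, _⟩ := exists_min_closed hm hU hD (N := Set.univ)
    (fun _ _ => Set.mem_univ _) (v := s) (s := s) (Set.mem_insert _ _) (fun _ _ => Set.mem_univ _) h
  have h1 := hP.valid hm hU hD
  exact h1.2.1 (hmax _ _ h1.1)

/-- there is no cycle -/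
private theorem test2_nocyc [Finite V] (hm : IsMate G m) (hU : NoAlt G m) {D : V → Set V}
    (hD : Fam G m D) (hmax : ∀ x X, Valid G m x X → X ⊆ D x) : ∀ (n : ℕ) (a : V) (L : List V),
    L.length = n → List.IsChain (Gam G m D) (a :: (L ++ [a])) → False := by
  intro n
  induction n using Nat.strong_induction_on with
  | _ n ih =>
    have hA : ∀ (a : V) (L : List V), L.length = n → List.IsChain (Gam G m D) (a :: (L ++ [a])) →
        ∀ P u w v Q, a :: (L ++ [a]) = P ++ u :: w :: v :: Q → w ∉ D (m v) := by
      intro a L hL hch P u w v Q he hw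
      rw [he, List.isChain_append_cons_cons, List.isChain_cons_cons] at hch
      obtain ⟨c1, c2, c3, c4⟩ := hch
      have c5 := test2_short hm hU hD c2 hw
      have hch' : List.IsChain (Gam G m D) (P ++ u :: v :: Q) :=
        List.isChain_append_cons_cons.2 ⟨c1, c5, c4⟩
      have hh0 : (P ++ u :: w :: v :: Q).head? = some a := by rw [← he]; rfl
      have hl0 : (P ++ u :: w :: v :: Q).getLast? = some a := by
        rw [← he, ← List.cons_append, List.getLast?_append_cons, List.getLast?_singleton]
      obtain ⟨L1, hL1⟩ := test2_ends (l := P ++ u :: v :: Q) (a := a)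
        (by rw [List.length_append, List.length_cons, List.length_cons]; omega)
        (by
          cases P with
          | nil => exact hh0
          | cons b P => exact hh0)
        (by
          rw [List.getLast?_append_cons, List.getLast?_cons_cons] at hl0 ⊢
          rw [List.getLast?_cons_cons] at hl0
          exact hl0)
      rw [hL1] at hch'
      have e1 := congrArg List.length he
      have e2 := congrArg List.length hL1
      simp only [List.length_append, List.length_cons, List.length_nil] at e1 e2
      exact ih L1.length (by omega) a L1 rfl hch'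
    intro a L hL hch
    -- the last inner member
    rcases List.eq_nil_or_concat' L with rfl | ⟨L0, u, rfl⟩
    · rw [List.nil_append, List.isChain_pair] at hch
      exact hch.2.1 rfl
    have hrot := chain_rotate (P := L0) (z := u) (Q := []) (a := a) hch
    rw [List.nil_append] at hrot
    have hall : ∀ P w v Q, a :: ((L0 ++ [u]) ++ [a]) = P ++ w :: v :: Q → w ∉ D (m v) := by
      intro P w v Q he
      rcases List.eq_nil_or_concat' P with rfl | ⟨P', u', rfl⟩
      · rw [List.nil_append, List.cons.injEq] at he
        obtain ⟨rfl, he⟩ := he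
        obtain ⟨Q0, hQ0⟩ : ∃ Q0, L0 ++ [u] = v :: Q0 := by
          cases L0 with
          | nil =>
            refine ⟨[], ?_⟩
            simp only [List.nil_append, List.cons_append, List.cons.injEq] at he
            rw [List.nil_append, he.1]
          | cons b L0 =>
            refine ⟨L0 ++ [u], ?_⟩
            simp only [List.cons_append, List.cons.injEq] at he
            rw [List.cons_append, he.1]
        refine hA u (a :: L0) (by
          rw [← hL, List.length_append, List.length_cons, List.length_singleton]) hrot [] u a v Q0 ?_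
        rw [List.cons_append, hQ0]
        rfl
      · refine hA a (L0 ++ [u]) hL hch P' u' w v Q ?_
        rw [he]
        simp
    have harc : List.IsChain (Arc G m D) (a :: ((L0 ++ [u]) ++ [a])) := by
      rw [List.isChain_iff_forall_rel_of_append_cons_cons]
      intro w v P Q he
      have hg : Gam G m D w v := List.isChain_iff_forall_rel_of_append_cons_cons.1 hch he
      refine ⟨fun h => hg.2.2.1 h.symm, ?_, hall P w v Q he, hg.1, hg.2.2.2⟩
      rw [hm.invol]
      exact hg.2.1
    by_cases hreg : Reg m (a :: (L0 ++ [u]))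
    · exact gc hm hU hD (by simp) (harc.imp fun _ _ h => h.tarc) hreg
    · obtain ⟨P, x, Q, y, R, he, hy⟩ := test2_notreg hreg
      have he' : a :: ((L0 ++ [u]) ++ [a]) = P ++ (x :: (Q ++ [y])) ++ (R ++ [a]) := by
        rw [← List.cons_append, he]
        simp
      have e1 := congrArg List.length he
      simp only [List.length_append, List.length_cons, List.length_nil] at e1 hL
      rcases hy with rfl | rfl
      · rw [he'] at hch
        exact ih Q.length (by omega) y Q rfl hch.left_of_append.right_of_append
      · rw [he'] at harc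
        exact test2_closed hm hU hD hmax harc.left_of_append.right_of_append

/-- Job TEST2. Completeness of the final test.
Proof. There is no proper closed walk for D (`PCW.valid` and hmax), hence no closed walk s :: (L ++ [s']) of arcs at all (shorten as in `closed_cost`: a closed walk with the fewest nodes is regular).
Write Γ u v for: m v ∉ D u, u ≠ v, m v ≠ u, Touch u (m v). Delta implies Γ: for Delta w v with witness u: v ≠ w since otherwise u ∈ D w would be adjacent to w', excluded by `fam_mates`.
Suppose Delta has a cycle, take a cyclic Γ-chain of minimal length k. k ≥ 2 since Γ u u is false. Every Γ u w in it satisfies u ∉ D (m w) (so it is an arc): if u → w → v are consecutive and w ∈ D (m v): then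
Γ u v: Touch u (m v) since insert w' (D w') ⊆ D (m v) ; m v ∈ D u would give w' ∈ D (m v) ⊆ D u, against Γ u w; m v = u would give w' ∈ D u; v = u would mean w' ∈ D (m u), then the touch of u and w' contradicts
`fam_mates`. So the cycle can be shortened (for k = 2 we have v = u, contradiction at once). So it is a cyclic chain of arcs a :: (L ++ [a]); by `gc` two members have the same matching edge; equal members: shorten;
z_j = z_i': a closed walk at z_i, contradiction. -/
theorem test_of_noAlt [Finite V] (hm : IsMate G m) (hU : NoAlt G m) {D : V → Set V} (hD : Fam G m D)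
    (hmax : ∀ x X, Valid G m x X → X ⊆ D x) : Test G m D := by
  refine ⟨fun x => (hD.valid x).nmem, fun x => (hD.valid x).closed, ?_⟩
  intro w hw
  have h1 : TransGen (Gam G m D) w w :=
    (TransGen.mono (r := Delta G m D) (p := Gam G m D) (fun _ _ h => test2_delta hm hU hD h)) w w hw
  obtain ⟨L, hL⟩ := test2_list h1
  exact test2_nocyc hm hU hD hmax L.length w L rfl hL

private theorem uniq1_mate {m₂ : V → V} (hm : IsMate G m) (hm₂ : IsMate G m₂) : ∀ (d : ℕ) (z : V),
    m z ≠ (fun z => m (m₂ z))^[d] z := by
  intro d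
  induction d using Nat.strong_induction_on with
  | _ d ih =>
    intro z h
    rcases Nat.lt_or_ge d 2 with hd | hd
    · interval_cases d
      · exact hm.ne z h
      · have h' : m z = m (m₂ z) := h
        exact hm₂.ne z (hm.inj h').symm
    · obtain ⟨k, rfl⟩ : ∃ k, d = k + 2 := ⟨d - 2, by omega⟩
      -- m z = f (f^[k] (f z))
      rw [Function.iterate_succ_apply', Function.iterate_succ_apply] at h
      have h' : m z = m (m₂ ((fun z => m (m₂ z))^[k] (m (m₂ z)))) := h
      have h1 := hm.inj h'
      apply ih k (by omega) (m (m₂ z))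
      rw [hm.invol]
      nth_rewrite 1 [h1]
      rw [hm₂.invol]

private theorem uniq1_snoc (f : V → V) (n : ℕ) (a : V) :
    List.iterate f a (n + 1) = List.iterate f a n ++ [f^[n] a] := by
  induction n generalizing a with
  | zero => rfl
  | succ n ih =>
    have e1 : List.iterate f a (n + 1 + 1) = a :: List.iterate f (f a) (n + 1) := rfl
    have e2 : List.iterate f a (n + 1) = a :: List.iterate f (f a) n := rfl
    rw [e1, ih, e2, Function.iterate_succ_apply]
    rfl

/-- Job UNIQ. Two different mate maps give an alternating cycle.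
Proof: let f z = m (m₂ z) and start from z_0 with m z_0 ≠ m₂ z_0 (this property is preserved by f). z_i = f^i z_0 is a chain of plain arcs. Let j be minimal such that z_j has the matching edge (of m) of some z_i, i < j.
z_j = z_i: alternating cycle. z_j = m z_i: then m₂ z_{j-1} = z_i, z_{j-1} = m₂ z_i, z_{i+1} = m z_{j-1}, contradicting the minimality of j, or m z ≠ z, or m₂ z ≠ z. -/
theorem exists_alt_of_ne [Finite V] {m₂ : V → V} (hm : IsMate G m) (hm₂ : IsMate G m₂) (hne : m₂ ≠ m) : ∃ a L, AltCycle G m Set.univ a L := by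
  classical
  set f : V → V := fun z => m (m₂ z) with hf
  obtain ⟨z₀, hz₀⟩ : ∃ z, m z ≠ m₂ z := by
    by_contra hcon
    push Not at hcon
    exact hne (funext fun z => (hcon z).symm)
  have hinj : Function.Injective f := fun x y hxy => hm₂.inj (hm.inj hxy)
  have hP : ∀ z, m z ≠ m₂ z → m (f z) ≠ m₂ (f z) := by
    intro z hz h
    have h1 : m (f z) = m₂ z := by rw [hf]; exact hm.invol _
    rw [h1] at h
    have h2 := hm₂.inj h
    apply hz
    rw [hf] at h2
    nth_rewrite 1 [h2]
    exact hm.invol _
  have hPn : ∀ n, m (f^[n] z₀) ≠ m₂ (f^[n] z₀) := by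
    intro n
    induction n with
    | zero => exact hz₀
    | succ n ih => rw [Function.iterate_succ_apply']; exact hP _ ih
  have harc : ∀ n, PArc G m (f^[n] z₀) (f^[n + 1] z₀) := by
    intro n
    rw [Function.iterate_succ_apply']
    refine ⟨?_, ?_⟩
    · have : m (f (f^[n] z₀)) = m₂ (f^[n] z₀) := by rw [hf]; exact hm.invol _
      rw [this]
      exact hm₂.adj _
    · intro h
      apply hPn n
      nth_rewrite 1 [h]
      rw [hf]
      exact hm.invol _
  have hper : z₀ ∈ Function.periodicPts f := hinj.mem_periodicPts z₀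
  have hpos := Function.minimalPeriod_pos_of_mem_periodicPts hper
  set k := Function.minimalPeriod f z₀ with hk
  have hkk : f^[k] z₀ = z₀ := Function.iterate_minimalPeriod
  obtain ⟨j, hj⟩ : ∃ j, k = j + 1 := ⟨k - 1, by omega⟩
  have hlist : z₀ :: List.iterate f (f z₀) j = List.iterate f z₀ k := by rw [hj]; rfl
  have hlist2 : z₀ :: (List.iterate f (f z₀) j ++ [z₀]) = List.iterate f z₀ (k + 1) := by
    rw [uniq1_snoc, hkk, ← hlist]
    rfl
  have hj0 : j ≠ 0 := by
    rintro rfl
    have h1 : f z₀ = z₀ := by rw [hj] at hkk; exact hkk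
    have := (harc 0).2
    exact this (by rw [zero_add, Function.iterate_one, h1]; rfl)
  refine ⟨z₀, List.iterate f (f z₀) j, ?_, ?_, ?_, fun _ _ => Set.mem_univ _⟩
  · intro h
    have := congrArg List.length h
    rw [List.length_iterate] at this
    exact hj0 this
  · rw [hlist2, List.isChain_iff_getElem]
    intro i hi
    rw [List.getElem_iterate, List.getElem_iterate]
    exact harc i
  · rw [hlist]
    unfold Reg
    rw [List.pairwise_iff_getElem]
    intro i l hi hl hil
    rw [List.getElem_iterate, List.getElem_iterate]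
    rw [List.length_iterate] at hi hl
    constructor
    · intro h
      have := Function.iterate_injOn_Iio_minimalPeriod (f := f) (x := z₀) hl hi h
      omega
    · intro h
      have e : f^[l] z₀ = f^[l - i] (f^[i] z₀) := by
        rw [← Function.iterate_add_apply]
        congr 1
        omega
      rw [e] at h
      exact uniq1_mate hm hm₂ (l - i) _ h.symm

open Classical in
private theorem uniq2_chain {R : V → V → Prop} {a : V} {L : List V} (hn : (a :: L).Nodup)
    (h : List.IsChain R (a :: (L ++ [a]))) : ∀ z ∈ a :: L, R z ((a :: L).formPerm z) := by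
  intro z hz
  obtain ⟨i, hi, rfl⟩ := List.getElem_of_mem hz
  rw [List.formPerm_apply_getElem _ hn i hi]
  rw [List.isChain_iff_getElem] at h
  have hlen : (a :: (L ++ [a])).length = L.length + 2 := by simp
  have hlen' : (a :: L).length = L.length + 1 := by simp
  have h1 := h i (by rw [hlen]; rw [hlen'] at hi; omega)
  have e1 : (a :: (L ++ [a]))[i]'(by rw [hlen]; rw [hlen'] at hi; omega) = (a :: L)[i] := by
    have : a :: (L ++ [a]) = (a :: L) ++ [a] := by simp
    simp only [this]
    rw [List.getElem_append_left hi]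
  have e2 : (a :: (L ++ [a]))[i + 1]'(by rw [hlen]; rw [hlen'] at hi; omega) =
      (a :: L)[(i + 1) % (a :: L).length]'(Nat.mod_lt _ (i.zero_le.trans_lt hi)) := by
    have h3 : a :: (L ++ [a]) = (a :: L) ++ [a] := by simp
    simp only [h3]
    by_cases hi' : i + 1 < (a :: L).length
    · rw [List.getElem_append_left hi']
      congr 1
      exact (Nat.mod_eq_of_lt hi').symm
    · have h4 : i + 1 = (a :: L).length := by omega
      have h5 : (i + 1) % (a :: L).length = 0 := by rw [h4, Nat.mod_self]
      rw [List.getElem_append_right (by omega)]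
      simp only [h5, List.getElem_cons_zero, List.getElem_singleton]
  rw [e1, e2] at h1
  exact h1

/-- Job UNIQ. An alternating cycle gives a second mate map (switch along the cycle, `List.formPerm`). -/
theorem exists_ne_of_alt [Finite V] (hm : IsMate G m) {a : V} {L : List V} (h : AltCycle G m Set.univ a L) :
    ∃ m₂, IsMate G m₂ ∧ m₂ ≠ m := by
  classical
  obtain ⟨hL, hch, hreg, -⟩ := h
  have hnd : (a :: L).Nodup := hreg.imp (fun h => h.1.symm)
  have hσ := uniq2_chain hnd hch
  -- the mate of a member is not a member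
  have hnot : ∀ z ∈ a :: L, m z ∉ a :: L := by
    intro z hz hmz
    have hne : z ≠ m z := (hm.ne z).symm
    have key := List.Pairwise.forall_of_forall_of_flip (R := fun u v : V => v ≠ m u)
      (l := a :: L) (fun x _ => (hm.ne x).symm) (hreg.imp (fun h => h.2))
      (hreg.imp (fun {x y} h h' => h.2 (by rw [h', hm.invol])))
    exact key hz hmz rfl
  let σ : Equiv.Perm V := (a :: L).formPerm
  have hσmem : ∀ z, σ z ∈ a :: L ↔ z ∈ a :: L := fun z => List.formPerm_mem_iff_mem
  have hσmem' : ∀ z, σ.symm z ∈ a :: L ↔ z ∈ a :: L := by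
    intro z
    rw [← hσmem (σ.symm z), Equiv.apply_symm_apply]
  have hσfix : ∀ z, z ∉ a :: L → σ z = z := fun z hz => List.formPerm_apply_of_notMem hz
  have hσfix' : ∀ z, z ∉ a :: L → σ.symm z = z := by
    intro z hz
    rw [Equiv.symm_apply_eq]
    exact (hσfix z hz).symm
  refine ⟨fun z => if z ∈ a :: L then m (σ z) else σ.symm (m z), ⟨?_, ?_⟩, ?_⟩
  · intro z
    by_cases hz : z ∈ a :: L
    · have h1 : σ z ∈ a :: L := (hσmem z).2 hz
      have h2 : m (σ z) ∉ a :: L := hnot _ h1
      simp only [if_pos hz, if_neg h2, hm.invol, Equiv.symm_apply_apply]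
    · by_cases hmz : m z ∈ a :: L
      · have h1 : σ.symm (m z) ∈ a :: L := (hσmem' _).2 hmz
        simp only [if_neg hz, if_pos h1, Equiv.apply_symm_apply, hm.invol]
      · have h1 : σ.symm (m z) = m z := hσfix' _ hmz
        simp only [if_neg hz, h1, if_neg hmz, hm.invol]
        exact hσfix' _ hz
  · intro z
    by_cases hz : z ∈ a :: L
    · simp only [if_pos hz]
      exact (hσ z hz).1
    · simp only [if_neg hz]
      by_cases hmz : m z ∈ a :: L
      · have h1 : σ.symm (m z) ∈ a :: L := (hσmem' _).2 hmz
        have h2 := (hσ _ h1).1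
        have h3 : (a :: L).formPerm (σ.symm (m z)) = m z := Equiv.apply_symm_apply σ (m z)
        rw [h3, hm.invol] at h2
        exact SimpleGraph.Adj.symm h2
      · rw [hσfix' _ hmz]
        exact hm.adj z
  · intro he
    have ha : a ∈ a :: L := List.mem_cons_self
    have h1 := congrFun he a
    simp only [if_pos ha] at h1
    have h2 : σ a = a := hm.inj h1
    have h3 := (List.formPerm_apply_mem_eq_self_iff (a :: L) hnd a ha).1 h2
    apply hL
    rw [List.length_cons] at h3
    exact List.length_eq_zero_iff.1 (by omega)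

private def uniq3_sub (G : SimpleGraph V) (m : V → V) (hm : IsMate G m) : G.Subgraph where
  verts := Set.univ
  Adj a b := b = m a
  adj_sub := by
    rintro a b rfl
    exact hm.adj a
  edge_vert := fun _ => Set.mem_univ _
  symm := ⟨by
    rintro a b rfl
    exact (hm.invol a).symm⟩

private theorem uniq3_sub_pm (hm : IsMate G m) : (uniq3_sub G m hm).IsPerfectMatching := by
  rw [SimpleGraph.Subgraph.isPerfectMatching_iff]
  intro v
  exact ⟨m v, rfl, fun w hw => hw⟩

private theorem uniq3_mate {M : G.Subgraph} (hM : M.IsPerfectMatching) :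
    ∃ m : V → V, IsMate G m ∧ ∀ a b, M.Adj a b ↔ b = m a := by
  rw [SimpleGraph.Subgraph.isPerfectMatching_iff] at hM
  choose m hm hu using hM
  refine ⟨m, ⟨fun x => ?_, fun x => M.adj_sub (hm x)⟩, fun a b => ⟨fun h => hu a b h, ?_⟩⟩
  · exact (hu (m x) x (hm x).symm).symm
  · rintro rfl
    exact hm a

/-- Job UNIQ. Perfect matchings and mate maps. -/
theorem existsUnique_matching_iff [Finite V] :
    (∃! M : G.Subgraph, M.IsPerfectMatching) ↔ ∃ m : V → V, IsMate G m ∧ ∀ m₂, IsMate G m₂ → m₂ = m := by
  constructor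
  · rintro ⟨M, hM, hu⟩
    obtain ⟨m, hm, hadj⟩ := uniq3_mate hM
    refine ⟨m, hm, fun m₂ hm₂ => ?_⟩
    have h1 : uniq3_sub G m₂ hm₂ = M := hu _ (uniq3_sub_pm hm₂)
    funext x
    have h2 : (uniq3_sub G m₂ hm₂).Adj x (m₂ x) := rfl
    rw [h1, hadj] at h2
    exact h2
  · rintro ⟨m, hm, hu⟩
    refine ⟨uniq3_sub G m hm, uniq3_sub_pm hm, fun M' hM' => ?_⟩
    obtain ⟨m', hm', hadj⟩ := uniq3_mate hM'
    have h1 := hu m' hm'
    subst h1
    apply SimpleGraph.Subgraph.ext
    · have h2 := SimpleGraph.Subgraph.isSpanning_iff.1 hM'.2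
      rw [h2]
      rfl
    · funext a b
      exact propext (hadj a b)

/-- Number of iterations: `4 * Nat.size (n - 1)` stages reach the scale `n - 1`. -/
theorem test_iff [Finite V] (hm : IsMate G m) {n : ℕ} (hn : n = Nat.card V) :
    Test G m ((stg G m n)^[4 * Nat.size (n - 1)] (fun _ => ∅, 1)).1 ↔ NoAlt G m := by
  constructor
  · exact noAlt_of_test hm
  · intro hU
    rcases isEmpty_or_nonempty V with hV | ⟨⟨v⟩⟩
    · exact ⟨fun x => (hV.false x).elim, fun x => (hV.false x).elim, fun x => (hV.false x).elim⟩
    have h2 : 2 ≤ n := by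
      rw [hn]
      have : Nontrivial V := ⟨⟨m v, v, hm.ne v⟩⟩
      have := Finite.one_lt_card (α := V)
      omega
    obtain ⟨hf, hc⟩ := stg_fam hm hU n h2 (4 * Nat.size (n - 1))
    obtain ⟨_, hle, hge⟩ := stg_scale (G := G) (m := m) n (4 * Nat.size (n - 1)) h2
    have hpow : n - 1 ≤ 2 ^ (4 * Nat.size (n - 1) / 4) := by
      rw [Nat.mul_div_cancel_left _ (by norm_num)]
      exact (Nat.lt_size_self _).le
    have heq : ((stg G m n)^[4 * Nat.size (n - 1)] (fun _ => ∅, 1)).2 = n - 1 := by
      apply le_antisymm hle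
      rwa [min_eq_left hpow] at hge
    rw [heq, hn] at hc
    exact test_of_noAlt hm hU hf (fun x X hX => complete_of_clsd hm hU (hn ▸ hf) (hn ▸ hc) hX)

end Pool.Agent.UPM
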