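import Pool.Agent.Lib.MP_0087d5_lc.UPM.Lists

/-!
# Kotzig's lemma

Job KOT. See notes section 1.
-/

namespace Pool.Agent.UPM

open Relation

variable {V : Type*}

/-- rotation of an alternating cycle -/
private theorem kot_rotate {G : SimpleGraph V} {m : V → V} (hm : IsMate G m) {Z : Set V} {a b : V} {L : List V}
    (h : AltCycle G m Z a L) (hb : b ∈ a :: L) : ∃ L', AltCycle G m Z b L' := by
  rcases List.mem_cons.mp hb with rfl | hb
  · exact ⟨L, h⟩
  · obtain ⟨P, Q, rfl⟩ := List.append_of_mem hb
    obtain ⟨h1, h2, h3, h4⟩ := h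
    have hp : (b :: (Q ++ a :: P)).Perm (a :: (P ++ b :: Q)) := by
      have e1 : (b :: (Q ++ a :: P)).Perm ((a :: P) ++ (b :: Q)) := by
        have : b :: (Q ++ a :: P) = (b :: Q) ++ (a :: P) := rfl
        rw [this]
        exact List.perm_append_comm
      exact e1
    refine ⟨Q ++ a :: P, by simp, chain_rotate h2, h3.perm hm hp, ?_⟩
    intro z hz
    exact h4 z ((hp.mem_iff).mp hz)

/-- mirror of an alternating cycle -/
private theorem kot_mirror {G : SimpleGraph V} {m : V → V} (hm : IsMate G m) {Z : Set V} {a : V} {L : List V}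
    (hcl : ∀ x ∈ Z, m x ∈ Z) (h : AltCycle G m Z a L) : AltCycle G m Z (m a) (mir m L) := by
  obtain ⟨h1, h2, h3, h4⟩ := h
  refine ⟨mir_ne_nil.mpr h1, chain_mir_closed hm (fun x y hxy => hxy.mirror hm) h2, ?_, ?_⟩
  · have h5 : Reg m (mir m (a :: L)) := (reg_mir_iff hm).mpr h3
    rw [mir_cons] at h5
    exact h5.perm hm (List.perm_append_comm (l₁ := [m a]) (l₂ := mir m L))
  · intro z hz
    rcases List.mem_cons.mp hz with rfl | hz
    · exact hcl _ (h4 a List.mem_cons_self)
    · have h6 := h4 (m z) (List.mem_cons_of_mem _ ((mem_mir hm).mp hz))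
      have := hcl _ h6
      rwa [hm.invol] at this

/-- lifting, the cycle starts at `b` -/
private theorem kot_lift_b {G H : SimpleGraph V} {m : V → V} (hm : IsMate G m) {Z B0 : Set V}
    {b : V} (hB : ∀ x ∈ B0, m x ∈ B0) (hBZ : B0 ⊆ Z)
    (hP : ∀ w ∈ B0, ∃ P : List V, List.IsChain (PArc G m) (b :: (P ++ [w])) ∧ Reg m (b :: (P ++ [w])) ∧ ∀ z ∈ P, z ∈ B0)
    (hH : ∀ x y, H.Adj x y → G.Adj x y ∨ (x = b ∧ ∃ w ∈ B0, G.Adj w y) ∨ (y = b ∧ ∃ w ∈ B0, G.Adj w x))
    {L : List V} (h : AltCycle H m (Z \ B0) b L) : ∃ a L, AltCycle G m Z a L := by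
  obtain ⟨h1, h2, h3, h4⟩ := h
  obtain ⟨v, L', rfl⟩ := List.exists_cons_of_ne_nil h1
  rw [reg_cons] at h3
  obtain ⟨h3a, h3b⟩ := h3
  have hbm : m b ≠ b := hm.ne b
  have hrestH : List.IsChain (PArc H m) ((v :: L') ++ [b]) := by
    have := h2.tail
    simpa using this
  rw [List.isChain_append] at hrestH
  have hrest : List.IsChain (PArc G m) ((v :: L') ++ [b]) := by
    rw [List.isChain_append]
    refine ⟨?_, List.isChain_singleton _, ?_⟩
    · refine List.IsChain.imp_of_mem_imp ?_ hrestH.1
      intro x y hx hy hxy
      refine ⟨?_, hxy.2⟩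
      rcases hH _ _ hxy.1 with h | ⟨h, _⟩ | ⟨h, _⟩
      · exact h
      · exact absurd h (h3a x hx).1
      · exact absurd (hm.eq_iff.mp h) (h3a y hy).2
    · intro x hx y hy
      have hxL : x ∈ v :: L' := List.mem_of_getLast? hx
      have hy' : y = b := by simpa using hy.symm
      subst hy'
      have hxy := hrestH.2.2 x hx y (by simp)
      refine ⟨?_, hxy.2⟩
      rcases hH _ _ hxy.1 with h | ⟨h, _⟩ | ⟨h, _⟩
      · exact h
      · exact absurd h (h3a x hxL).1
      · exact absurd h hbm
  have hfirst : PArc H m b v := by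
    have := h2.rel_head? (y := v) (by simp)
    exact this
  have hvb := h3a v List.mem_cons_self
  rcases hH _ _ hfirst.1 with h | ⟨_, w, hw, hwv⟩ | ⟨h, _⟩
  · refine ⟨b, v :: L', by simp, ?_, ?_, fun z hz => (h4 z hz).1⟩
    · have : b :: ((v :: L') ++ [b]) = b :: v :: (L' ++ [b]) := rfl
      rw [this, List.isChain_cons_cons]
      exact ⟨⟨h, hfirst.2⟩, hrest⟩
    · rw [reg_cons]
      exact ⟨h3a, h3b⟩
  · obtain ⟨P, hP1, hP2, hP3⟩ := hP w hw
    refine ⟨b, P ++ w :: (v :: L'), by simp, ?_, ?_, ?_⟩
    · have e : b :: ((P ++ w :: (v :: L')) ++ [b]) = b :: (P ++ w :: (v :: (L' ++ [b]))) := by simp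
      rw [e, List.isChain_cons_split]
      refine ⟨hP1, ?_⟩
      rw [List.isChain_cons_cons]
      refine ⟨⟨hwv, ?_⟩, hrest⟩
      rintro rfl
      exact (h4 w (List.mem_cons_of_mem _ List.mem_cons_self)).2 hw
    · have e : b :: (P ++ w :: (v :: L')) = (b :: (P ++ [w])) ++ (v :: L') := by simp
      rw [e, reg_append]
      refine ⟨hP2, h3b, ?_⟩
      intro x hx c hc
      rcases List.mem_cons.mp hx with rfl | hx
      · exact h3a c hc
      · have hxB : x ∈ B0 := by
          rcases List.mem_append.mp hx with hx | hx
          · exact hP3 x hx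
          · rw [List.mem_singleton] at hx
            rw [hx]; exact hw
        have hcB := (h4 c (List.mem_cons_of_mem _ hc)).2
        constructor
        · rintro rfl; exact hcB hxB
        · rintro rfl; exact hcB (hB _ hxB)
    · intro z hz
      rcases List.mem_cons.mp hz with rfl | hz
      · exact (h4 z List.mem_cons_self).1
      · rcases List.mem_append.mp hz with hz | hz
        · exact hBZ (hP3 z hz)
        · rcases List.mem_cons.mp hz with rfl | hz
          · exact hBZ hw
          · exact (h4 z (List.mem_cons_of_mem _ hz)).1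
  · exact absurd (hm.eq_iff.mp h) hvb.2

private theorem kot_lift {G H : SimpleGraph V} {m : V → V} (hm : IsMate G m) (hmH : IsMate H m) {Z B0 : Set V}
    {b : V} (hcl : ∀ x ∈ Z, m x ∈ Z) (hB : ∀ x ∈ B0, m x ∈ B0) (hBZ : B0 ⊆ Z)
    (hP : ∀ w ∈ B0, ∃ P : List V, List.IsChain (PArc G m) (b :: (P ++ [w])) ∧ Reg m (b :: (P ++ [w])) ∧ ∀ z ∈ P, z ∈ B0)
    (hH : ∀ x y, H.Adj x y → G.Adj x y ∨ (x = b ∧ ∃ w ∈ B0, G.Adj w y) ∨ (y = b ∧ ∃ w ∈ B0, G.Adj w x))
    {a : V} {L : List V} (h : AltCycle H m (Z \ B0) a L) : ∃ a L, AltCycle G m Z a L := by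
  have hcl' : ∀ x ∈ Z \ B0, m x ∈ Z \ B0 := by
    intro x hx
    refine ⟨hcl x hx.1, fun h => hx.2 ?_⟩
    have := hB _ h
    rwa [hm.invol] at this
  by_cases h1 : b ∈ a :: L
  · obtain ⟨L', hL'⟩ := kot_rotate hmH h h1
    exact kot_lift_b hm hB hBZ hP hH hL'
  · by_cases h2 : m b ∈ a :: L
    · have h' := kot_mirror hmH hcl' h
      have h3 : b ∈ m a :: mir m L := by
        rcases List.mem_cons.mp h2 with h2 | h2
        · rw [← h2, hm.invol]; exact List.mem_cons_self
        · exact List.mem_cons_of_mem _ ((mem_mir hm).mpr h2)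
      obtain ⟨L', hL'⟩ := kot_rotate hmH h' h3
      exact kot_lift_b hm hB hBZ hP hH hL'
    · obtain ⟨h4, h5, h6, h7⟩ := h
      refine ⟨a, L, h4, ?_, h6, fun z hz => (h7 z hz).1⟩
      refine List.IsChain.imp_of_mem_imp ?_ h5
      intro x y hx hy hxy
      have hmem : ∀ x ∈ a :: (L ++ [a]), x ∈ a :: L := by
        intro x hx
        rcases List.mem_cons.mp hx with rfl | hx
        · exact List.mem_cons_self
        · rcases List.mem_append.mp hx with hx | hx
          · exact List.mem_cons_of_mem _ hx
          · rw [List.mem_singleton] at hx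
            rw [hx]; exact List.mem_cons_self
      refine ⟨?_, hxy.2⟩
      rcases hH _ _ hxy.1 with h | ⟨h, _⟩ | ⟨h, _⟩
      · exact h
      · exact absurd (h ▸ hmem x hx) h1
      · have hy' := hmem y hy
        rw [hm.eq_iff.mp h] at hy'
        exact absurd hy' h2

/-- the closed walk found by a longest regular chain -/
private theorem kot_walk [Finite V] {G : SimpleGraph V} {m : V → V} (hm : IsMate G m) {Z : Set V} (hne : Z.Nonempty)
    (hcl : ∀ x ∈ Z, m x ∈ Z) (hnb : ∀ x ∈ Z, NB G m Z x) : (∃ a L, AltCycle G m Z a L) ∨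
      ∃ (b : V) (L : List V), b ∈ Z ∧ L ≠ [] ∧ List.IsChain (PArc G m) (b :: (L ++ [m b])) ∧ Reg m (b :: L) ∧
        ∀ z ∈ L, z ∈ Z := by
  classical
  by_contra hcon
  push Not at hcon
  obtain ⟨hc1, hc2⟩ := hcon
  -- incoming arcs
  have hin : ∀ z ∈ Z, ∃ w ∈ Z, PArc G m w z := by
    intro z hz
    have h1 : Relation.ReflTransGen (Step G m Z (m z)) (m z) (m (m z)) := hnb (m z) (hcl z hz)
    rcases h1.cases_head with h | ⟨c, hc, _⟩
    · exact absurd h.symm (hm.ne (m z))
    · obtain ⟨_, hcZ, hadj, h3, _⟩ := hc
      refine ⟨c, hcZ, hadj.symm, ?_⟩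
      rintro rfl
      exact h3 ⟨rfl, (hm.invol _).symm⟩
  have key : ∀ n : ℕ, ∃ (z : V) (L : List V), L.length = n ∧ List.IsChain (PArc G m) (z :: L) ∧ Reg m (z :: L) ∧
      ∀ x ∈ z :: L, x ∈ Z := by
    intro n
    induction n with
    | zero =>
      obtain ⟨z, hz⟩ := hne
      refine ⟨z, [], rfl, List.isChain_singleton _, List.pairwise_singleton _ _, ?_⟩
      intro x hx
      rw [List.mem_singleton] at hx
      rw [hx]; exact hz
    | succ n ihn =>
      obtain ⟨z, L, hL1, hL2, hL3, hL4⟩ := ihn
      obtain ⟨w, hw, hwz⟩ := hin z (hL4 z List.mem_cons_self)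
      by_cases hnew : ∀ c ∈ z :: L, c ≠ w ∧ c ≠ m w
      · refine ⟨w, z :: L, by simp [hL1], ?_, ?_, ?_⟩
        · rw [List.isChain_cons_cons]
          exact ⟨hwz, hL2⟩
        · rw [reg_cons]
          exact ⟨hnew, hL3⟩
        · intro x hx
          rcases List.mem_cons.mp hx with rfl | hx
          · exact hw
          · exact hL4 x hx
      · exfalso
        push Not at hnew
        obtain ⟨c, hc, hcw⟩ := hnew
        obtain ⟨P, Q, hPQ⟩ := List.append_of_mem hc
        have hch : List.IsChain (PArc G m) (w :: (P ++ [c])) := by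
          have : List.IsChain (PArc G m) (w :: (z :: L)) := by
            rw [List.isChain_cons_cons]
            exact ⟨hwz, hL2⟩
          rw [hPQ, List.isChain_cons_split] at this
          exact this.1
        rw [hPQ] at hL3 hL4
        have hreg : Reg m (c :: P) := by
          have h5 : Reg m (c :: (P ++ Q)) := hL3.perm hm List.perm_middle.symm
          exact h5.sublist (List.Sublist.cons_cons c (List.sublist_append_left P Q))
        rw [reg_cons] at hreg
        have hPZ : ∀ x ∈ P, x ∈ Z := fun x hx => hL4 x (List.mem_append_left _ hx)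
        by_cases hcw' : c = w
        · subst hcw'
          apply hc1 c P
          refine ⟨?_, hch, (reg_cons _ _).mpr hreg, ?_⟩
          · rintro rfl
            rw [List.nil_append, List.isChain_pair] at hch
            exact hch.2 rfl
          · intro x hx
            rcases List.mem_cons.mp hx with rfl | hx
            · exact hw
            · exact hPZ x hx
        · have hcw2 : c = m w := hcw hcw'
          subst hcw2
          have hPne : P ≠ [] := by
            rintro rfl
            rw [List.nil_append, List.isChain_pair] at hch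
            have := hch.1
            rw [hm.invol] at this
            exact G.loopless.irrefl w this
          obtain ⟨x, hx, hxZ⟩ := hc2 w P hw hPne hch (by
            rw [reg_cons]
            refine ⟨fun b hb => ?_, hreg.2⟩
            have := hreg.1 b hb
            rw [hm.invol] at this
            exact ⟨this.2, this.1⟩)
          exact hxZ (hPZ x hx)
  have _ := Fintype.ofFinite V
  obtain ⟨z, L, hL1, _, hL3, _⟩ := key (Fintype.card V)
  have hnd : (z :: L).Nodup := List.Pairwise.imp (fun h => Ne.symm h.1) hL3
  have := hnd.length_le_card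
  rw [List.length_cons, hL1] at this
  omega

/-- **Kotzig's lemma.** If no matching edge inside the nonempty closed set `Z` is a bridge of `G[Z]`, then
`G` has an alternating cycle inside `Z`.

Proof (induction on the size of `Z`, for all graphs `G` with the same mate map).
(a) Every z in Z has a neighbour t in Z with t ≠ z' (first step of the path given by `hnb`), so PArc z t' with t' in Z.
Take a regular PArc-chain [z_1,…,z_k] in Z of maximal length. PArc z_k w with w in Z; by maximality the matching edge of w is that
of some z_i: list = L1 ++ z_i :: L2. If w = z_i then (z_i, L2) is an alternating cycle (L2 ≠ [] because PArc u u is false).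
Otherwise w = z_i': put b = z_i; then b :: (L2 ++ [b']) is a PArc-chain, L2 ≠ [] (PArc b b' would be a loop), b :: L2 regular.
(b) Let B0 be the set of members of L2 and their mates: closed, not containing b, b'. For every w in B0 there is a list P in B0 with
b :: (P ++ [w]) a PArc-chain, regular (initial part of L2, or of the mirrored closed walk).
Case A: some u in B0 is adjacent to b'. Then PArc u b and b :: (P ++ [u]) is an alternating cycle.
Case B: not. Let H x y := G.Adj x y, or x = b, y not in B0 ∪ {b}, y adjacent to a member of B0, or the same with x, y exchanged.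
Put Z' = Z \ B0 (smaller, closed, contains b). Every x in Z' satisfies NB H Z' x: map the path of `hnb x` by π(u) = b for u in B0, π(u) = u
otherwise; each step (a,c) gives π a = π c or an H-edge; it is not the matching edge of x: if it were, one end lies in B0 and the
other is b', excluded in case B. By induction H has an alternating cycle in Z'.
Lift: if no member of the cycle is b or b', or all its arcs are arcs of G, it is an alternating cycle of G. Otherwise, after mirroring
(if b' is the member) and rotating, the cycle is b :: L; only its first arc b → v may fail to be a G-arc, then some w in B0 is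
adjacent to v'; with the list P for w, b :: (P ++ [w] ++ L) is an alternating cycle of G. -/
theorem kotzig [Finite V] {G : SimpleGraph V} {m : V → V} (hm : IsMate G m) {Z : Set V} (hne : Z.Nonempty)
    (hcl : ∀ x ∈ Z, m x ∈ Z) (hnb : ∀ x ∈ Z, NB G m Z x) : ∃ a L, AltCycle G m Z a L := by
  classical
  induction hn : Z.ncard using Nat.strong_induction_on generalizing G Z with
  | _ n ih =>
    rcases kot_walk hm hne hcl hnb with h | ⟨b, L, hbZ, hL0, hL1, hL2, hL3⟩
    · exact h
    · set B0 : Set V := {x | x ∈ L ∨ m x ∈ L} with hB0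
      have hB : ∀ x ∈ B0, m x ∈ B0 := by
        rintro x (hx | hx)
        · right; rw [hm.invol]; exact hx
        · left; exact hx
      have hBZ : B0 ⊆ Z := by
        rintro x (hx | hx)
        · exact hL3 x hx
        · have := hcl _ (hL3 _ hx)
          rwa [hm.invol] at this
      have hreg := (reg_cons _ _).mp hL2
      have hbB : b ∉ B0 := by
        rintro (hx | hx)
        · exact (hreg.1 b hx).1 rfl
        · exact (hreg.1 _ hx).2 rfl
      have hmbB : m b ∉ B0 := by
        intro h
        have := hB _ h
        rw [hm.invol] at this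
        exact hbB this
      have hP : ∀ w ∈ B0, ∃ P : List V, List.IsChain (PArc G m) (b :: (P ++ [w])) ∧ Reg m (b :: (P ++ [w])) ∧
          ∀ z ∈ P, z ∈ B0 := by
        have hgen : ∀ L' : List V, List.IsChain (PArc G m) (b :: (L' ++ [m b])) → Reg m (b :: L') →
            (∀ z ∈ L', z ∈ B0) → ∀ w ∈ L', ∃ P : List V, List.IsChain (PArc G m) (b :: (P ++ [w])) ∧
              Reg m (b :: (P ++ [w])) ∧ ∀ z ∈ P, z ∈ B0 := by
          intro L' h1 h2 h3 w hw
          obtain ⟨P, Q, rfl⟩ := List.append_of_mem hw
          refine ⟨P, ?_, ?_, fun z hz => h3 z (List.mem_append_left _ hz)⟩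
          · rw [List.append_assoc, List.cons_append, List.isChain_cons_split] at h1
            exact h1.1
          · apply h2.sublist
            apply List.Sublist.cons_cons
            apply List.Sublist.append (List.Sublist.refl P)
            exact List.Sublist.cons_cons w (List.nil_sublist Q)
        rintro w (hw | hw)
        · exact hgen L hL1 hL2 (fun z hz => Or.inl hz) w hw
        · refine hgen (mir m L) ?_ ?_ ?_ w ((mem_mir hm).mpr hw)
          · have := chain_mir_closed hm (fun x y hxy => PArc.mirror hm hxy) hL1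
            rwa [hm.invol] at this
          · rw [reg_cons]
            refine ⟨?_, (reg_mir_iff hm).mpr hreg.2⟩
            intro x hx
            have hx' := hreg.1 (m x) ((mem_mir hm).mp hx)
            constructor
            · rintro rfl; exact hx'.2 rfl
            · rintro rfl; exact hx'.1 (hm.invol _)
          · intro z hz
            exact Or.inr ((mem_mir hm).mp hz)
      by_cases hA : ∃ u ∈ B0, G.Adj u (m b)
      · obtain ⟨u, hu, hub⟩ := hA
        obtain ⟨P, hP1, hP2, hP3⟩ := hP u hu
        refine ⟨b, P ++ [u], by simp, ?_, hP2, ?_⟩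
        · have e : b :: ((P ++ [u]) ++ [b]) = b :: (P ++ u :: [b]) := by simp
          rw [e, List.isChain_cons_split]
          refine ⟨hP1, ?_⟩
          rw [List.isChain_pair]
          exact ⟨hub, fun h => hbB (h ▸ hu)⟩
        · intro z hz
          rcases List.mem_cons.mp hz with rfl | hz
          · exact hbZ
          · rcases List.mem_append.mp hz with hz | hz
            · exact hBZ (hP3 z hz)
            · rw [List.mem_singleton] at hz
              rw [hz]; exact hBZ hu
      · push Not at hA
        let H : SimpleGraph V :=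
          { Adj := fun x y => G.Adj x y ∨ (x = b ∧ y ≠ b ∧ y ∉ B0 ∧ ∃ w ∈ B0, G.Adj w y) ∨
              (y = b ∧ x ≠ b ∧ x ∉ B0 ∧ ∃ w ∈ B0, G.Adj w x)
            symm := ⟨by
              rintro x y (h | h | h)
              · exact Or.inl h.symm
              · exact Or.inr (Or.inr h)
              · exact Or.inr (Or.inl h)⟩
            loopless := ⟨by
              rintro x (h | ⟨h1, h2, _⟩ | ⟨h1, h2, _⟩)
              · exact G.loopless.irrefl x h
              · exact h2 h1
              · exact h2 h1⟩ }
        have hmH : IsMate H m := ⟨hm.invol, fun x => Or.inl (hm.adj x)⟩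
        have hHadj : ∀ x y, H.Adj x y → G.Adj x y ∨ (x = b ∧ ∃ w ∈ B0, G.Adj w y) ∨
            (y = b ∧ ∃ w ∈ B0, G.Adj w x) := by
          rintro x y (h | ⟨h1, _, _, h2⟩ | ⟨h1, _, _, h2⟩)
          · exact Or.inl h
          · exact Or.inr (Or.inl ⟨h1, h2⟩)
          · exact Or.inr (Or.inr ⟨h1, h2⟩)
        have hcl' : ∀ x ∈ Z \ B0, m x ∈ Z \ B0 := by
          intro x hx
          refine ⟨hcl x hx.1, fun h => hx.2 ?_⟩
          have := hB _ h
          rwa [hm.invol] at this
        have hnb' : ∀ x ∈ Z \ B0, NB H m (Z \ B0) x := by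
          intro x hx
          have h1 : Relation.ReflTransGen (Step G m Z x) x (m x) := hnb x hx.1
          have hmx := hcl' x hx
          have hstep : ∀ u c, Step G m Z x u c → Relation.ReflTransGen (Step H m (Z \ B0) x)
              (if u ∈ B0 then b else u) (if c ∈ B0 then b else c) := by
            rintro u c ⟨huZ, hcZ, huc, hn1, hn2⟩
            by_cases hu : u ∈ B0
            · by_cases hc : c ∈ B0
              · simp only [hu, hc, if_true]
                exact Relation.ReflTransGen.refl
              · simp only [hu, hc, if_true, if_false]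
                by_cases hcb : c = b
                · rw [hcb]
                · refine Relation.ReflTransGen.single ⟨⟨hbZ, hbB⟩, ⟨hcZ, hc⟩, Or.inr (Or.inl ⟨rfl, hcb, hc, u, hu, huc⟩),
                    ?_, ?_⟩
                  · rintro ⟨rfl, rfl⟩
                    exact hA u hu huc
                  · rintro ⟨h3, rfl⟩
                    have h4 : c = m b := by rw [h3, hm.invol]
                    rw [h4] at huc
                    exact hA u hu huc
            · by_cases hc : c ∈ B0
              · simp only [hu, hc, if_true, if_false]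
                by_cases hub : u = b
                · rw [hub]
                · refine Relation.ReflTransGen.single ⟨⟨huZ, hu⟩, ⟨hbZ, hbB⟩,
                    Or.inr (Or.inr ⟨rfl, hub, hu, c, hc, huc.symm⟩), ?_, ?_⟩
                  · rintro ⟨rfl, h3⟩
                    have h4 : u = m b := by rw [h3, hm.invol]
                    rw [h4] at huc
                    exact hA c hc huc.symm
                  · rintro ⟨rfl, rfl⟩
                    exact hA c hc huc.symm
              · simp only [hu, hc, if_false]
                exact Relation.ReflTransGen.single ⟨⟨huZ, hu⟩, ⟨hcZ, hc⟩, Or.inl huc, hn1, hn2⟩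
          have h2 : Relation.ReflTransGen (Step H m (Z \ B0) x)
              (if x ∈ B0 then b else x) (if m x ∈ B0 then b else m x) :=
            Relation.ReflTransGen.lift' (fun u => if u ∈ B0 then b else u) (fun u c h => hstep u c h) _ _ h1
          simp only [hx.2, hmx.2, if_false] at h2
          exact h2
        have hlt : (Z \ B0).ncard < n := by
          rw [← hn]
          apply Set.ncard_lt_ncard _ (Set.toFinite Z)
          refine ⟨Set.sdiff_subset, fun h => ?_⟩
          obtain ⟨x, hx⟩ := List.exists_mem_of_ne_nil L hL0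
          have hxB : x ∈ B0 := Or.inl hx
          exact absurd hxB (h (hBZ hxB)).2
        obtain ⟨a, L', hcyc⟩ := ih _ hlt hmH (Z := Z \ B0) ⟨b, hbZ, hbB⟩ hcl' hnb' rfl
        exact kot_lift hm hmH hcl hB hBZ hP hHadj hcyc

end Pool.Agent.UPM
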