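import Pool.Agent.Lib.MP_0087d5_lc.UPM.Heavy

/-!
# Light vertices

Jobs LR1, LR2, COLL, TWO, LIGHT. See notes section 10.
-/

namespace Pool.Agent.UPM

open Relation

variable {V : Type*} [Finite V] {G : SimpleGraph V} {m : V → V} {β t : ℕ} {D₀ F D : V → Set V} {s : V} {Y : Set V}

/-- A large run from `z` to the heavy vertex `a`. -/
structure LRun (G : SimpleGraph V) (m : V → V) (β : ℕ) (D : V → Set V) (Y : Set V) (z : V) (L : List V) (a : V) : Prop where
  chain : List.IsChain (Arc G m D) (z :: (L ++ [a]))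
  reg : Reg m (z :: (L ++ [a]))
  mem : ∀ w ∈ L, w ∈ Y ∧ (D w).ncard < β ∧ (D (m w)).ncard < β
  amem : a ∈ Y
  heavy : β ≤ (D a).ncard
  valid : ∀ w ∈ L ++ [a], w ∈ MaxV G m Y z
  large : β < W m D (L ++ [a])

/-- Regular walk to `a`: the regions of the mates of its members do not meet the region of `a`. -/
private theorem lr1_disj (C : Ctx G m β t D₀ F s Y) (hD : Lvl G m β D₀ F D) {L : List V} {a : V}
    (h : List.IsChain (Arc G m D) (L ++ [a])) (hreg : Reg m (L ++ [a])) :
    ∀ z ∈ L ++ [a], Disjoint (D (m z) ∪ {z, m z}) (D a) := by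
  intro z hz
  have hnt : z = a ∨ ¬ Touch G D a (m z) := by
    by_cases hza : z = a
    · exact Or.inl hza
    · right
      rw [List.mem_append, List.mem_singleton] at hz
      have hzL : z ∈ L := by
        rcases hz with hz | hz
        · exact hz
        · exact absurd hz hza
      obtain ⟨P, Q, rfl⟩ := List.append_of_mem hzL
      have e : P ++ z :: Q ++ [a] = P ++ z :: (Q ++ [a]) := by simp
      rw [e] at h hreg
      have h1 := h.right_of_append
      have h2 := ((reg_append _ _).mp hreg).2.1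
      exact gc_touch C.mate C.noalt hD.fam (h1.imp (fun _ _ h => Arc.tarc h)) h2
  have hdis : Disjoint (insert a (D a)) (insert (m z) (D (m z))) := by
    rcases hnt with rfl | hnt
    · exact mates_disjoint C.mate C.noalt hD.fam z
    · rw [Set.disjoint_left]
      intro u hu hu'
      exact hnt ⟨u, hu, u, hu', Or.inl rfl⟩
  rw [Set.disjoint_right]
  intro u hu hu'
  have h3 := Set.disjoint_left.mp hdis (Set.mem_insert_of_mem a hu)
  rcases hu' with hu' | hu'
  · exact h3 (Set.mem_insert_of_mem _ hu')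
  · rcases hu' with rfl | hu'
    · have h4 := (hD.fam.valid a).closed u hu
      exact Set.disjoint_left.mp hdis (Set.mem_insert_of_mem a h4) (Set.mem_insert _ _)
    · rw [Set.mem_singleton_iff] at hu'
      exact h3 (by rw [hu']; exact Set.mem_insert _ _)

/-- Job LR1. Cost of a run ending in a heavy vertex.
Proof: `run_cost` (the mate of a is light by `heavy_mate`). The second part is disjoint from D a (`gc_touch`, `mates_disjoint`), so at most t. The first part is the union of the sets D z ∩ D a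
and of a set outside D a, of size at most t. -/
theorem run_heavy (C : Ctx G m β t D₀ F s Y) (hD : Lvl G m β D₀ F D) {L : List V} {a : V}
    (hL : ∀ z ∈ L, z ∈ Y ∧ (D z).ncard < β ∧ (D (m z)).ncard < β) (ha : a ∈ Y) (hha : β ≤ (D a).ncard)
    (h : List.IsChain (Arc G m D) (L ++ [a])) (hreg : Reg m (L ++ [a])) :
    W m D (L ++ [a]) ≤ 2 * t + (⋃ z ∈ L, (D z ∩ D a)).ncard := by
  have h0 := Lvl.run_cost C hD hL ha (Lvl.heavy_mate C hD ha hha) h hreg
  have hdis := lr1_disj C hD h hreg
  have haY : a ∈ insert s Y := Set.mem_insert_of_mem _ ha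
  have h2 : (⋃ z ∈ (L ++ [a]).tail, (D (m z) ∪ {z, m z})).ncard ≤ t := by
    apply Lvl.outside C hD haY hha
    · apply Set.iUnion₂_subset
      intro z hz
      have hz' : z ∈ L ++ [a] := List.mem_of_mem_tail hz
      have hzY : z ∈ Y := by
        rw [List.mem_append, List.mem_singleton] at hz'
        rcases hz' with hz' | rfl
        · exact (hL z hz').1
        · exact ha
      have hmzY := C.mate_mem hzY
      apply Set.union_subset (Lvl.sub C hD (Set.mem_insert_of_mem _ hmzY))
      rintro u (rfl | hu)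
      · exact hzY
      · rw [Set.mem_singleton_iff] at hu
        rw [hu]
        exact hmzY
    · rw [Set.disjoint_iUnion₂_left]
      intro z hz
      exact hdis z (List.mem_of_mem_tail hz)
  have h1 : (⋃ z ∈ L, D z).ncard ≤ t + (⋃ z ∈ L, (D z ∩ D a)).ncard := by
    have e : (⋃ z ∈ L, D z) ⊆ (⋃ z ∈ L, (D z \ D a)) ∪ (⋃ z ∈ L, (D z ∩ D a)) := by
      intro u hu
      simp only [Set.mem_iUnion] at hu
      obtain ⟨z, hz, hu⟩ := hu
      by_cases hua : u ∈ D a
      · exact Or.inr (Set.mem_biUnion hz ⟨hu, hua⟩)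
      · exact Or.inl (Set.mem_biUnion hz ⟨hu, hua⟩)
    have h3 : (⋃ z ∈ L, (D z \ D a)).ncard ≤ t := by
      apply Lvl.outside C hD haY hha
      · apply Set.iUnion₂_subset
        intro z hz
        exact Set.sdiff_subset.trans (Lvl.sub C hD (Set.mem_insert_of_mem _ (hL z hz).1))
      · rw [Set.disjoint_iUnion₂_left]
        intro z _
        exact Set.disjoint_sdiff_left
    have h4 := Set.ncard_le_ncard e (Set.toFinite _)
    have h5 := Set.ncard_union_le (⋃ z ∈ L, (D z \ D a)) (⋃ z ∈ L, (D z ∩ D a))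
    omega
  omega

/-- Job LR1. If `D` has the largest possible regions at heavy vertices, then the end of a regular walk starting at a heavy vertex does not touch its start.
Proof: `touch_initial` gives a proper closed walk L' at a; its span is valid at a, inside Y, hence inside D a by `hmax`, contradiction with `PCW.valid`. -/
theorem heavy_not_touch (C : Ctx G m β t D₀ F s Y) (hD : Lvl G m β D₀ F D)
    (hmax : ∀ v ∈ insert s Y, β ≤ (D v).ncard → ∀ X, Valid G m v X → X ⊆ Y → X ⊆ D v)
    {a : V} {L : List V} (ha : a ∈ insert s Y) (hha : β ≤ (D a).ncard) (hL : ∀ z ∈ L, z ∈ Y) (hne : L ≠ [])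
    (h : List.IsChain (Arc G m D) (a :: L)) (hreg : Reg m (a :: L)) : ¬ Touch G D a (L.getLast hne) := by
  intro ht
  obtain ⟨L', L'', hLL, hpcw⟩ := touch_initial C.mate C.noalt hD.fam hne h hreg ht
  obtain ⟨h1, h2, -⟩ := PCW.valid C.mate C.noalt hD.fam hpcw
  apply h2
  apply hmax a ha hha _ h1
  unfold XC
  apply Set.union_subset (Lvl.sub C hD ha)
  apply Set.iUnion₂_subset
  intro z hz
  have hzY : z ∈ Y := hL z (by rw [hLL]; exact List.mem_append_left _ hz)
  have hmzY : m z ∈ Y := C.mate_mem hzY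
  unfold EX
  apply Set.union_subset (Set.union_subset _ (Lvl.sub C hD (Set.mem_insert_of_mem _ hzY)))
    (Lvl.sub C hD (Set.mem_insert_of_mem _ hmzY))
  rintro x (rfl | rfl)
  · exact hzY
  · exact hmzY

private theorem lr2_seg {R : V → V → Prop} {A B C' : List V} {u w : V}
    (h : List.IsChain R (A ++ u :: (B ++ w :: C'))) : List.IsChain R (u :: (B ++ [w])) := by
  have e : A ++ u :: (B ++ w :: C') = A ++ (u :: (B ++ [w]) ++ C') := by simp
  rw [e] at h
  exact h.right_of_append.left_of_append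

omit [Finite V] in
private theorem lr2_segreg {A B C' : List V} {u w : V}
    (h : Reg m (A ++ u :: (B ++ w :: C'))) : Reg m (u :: (B ++ [w])) := by
  refine h.sublist ?_
  have e : A ++ u :: (B ++ w :: C') = A ++ (u :: (B ++ [w]) ++ C') := by simp
  rw [e]
  exact (List.sublist_append_left _ _).trans (List.sublist_append_right _ _)

/-- two forward heavy members -/
private theorem lr2_ff (C : Ctx G m β t D₀ F s Y) (hD : Lvl G m β D₀ F D)
    (hmax : ∀ v ∈ insert s Y, β ≤ (D v).ncard → ∀ X, Valid G m v X → X ⊆ Y → X ⊆ D v)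
    {B : List V} {u w : V} (hch : List.IsChain (Arc G m D) (u :: (B ++ [w]))) (hreg : Reg m (u :: (B ++ [w])))
    (hY : ∀ x ∈ u :: (B ++ [w]), x ∈ Y) (hu : β ≤ (D u).ncard) (hw : β ≤ (D w).ncard) : False := by
  have huY : u ∈ insert s Y := Set.mem_insert_of_mem _ (hY u List.mem_cons_self)
  have hwY : w ∈ insert s Y := Set.mem_insert_of_mem _ (hY w (by simp))
  have hne : B ++ [w] ≠ [] := by simp
  have h1 := heavy_not_touch C hD hmax huY hu (fun x hx => hY x (List.mem_cons_of_mem _ hx)) hne hch hreg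
  rw [List.getLast_append_singleton] at h1
  exact h1 (hD.heavy_touch C huY hwY hu hw)

/-- two backward heavy members -/
private theorem lr2_bb (C : Ctx G m β t D₀ F s Y) (hD : Lvl G m β D₀ F D)
    (hmax : ∀ v ∈ insert s Y, β ≤ (D v).ncard → ∀ X, Valid G m v X → X ⊆ Y → X ⊆ D v)
    {B : List V} {u w : V} (hch : List.IsChain (Arc G m D) (u :: (B ++ [w]))) (hreg : Reg m (u :: (B ++ [w])))
    (hY : ∀ x ∈ u :: (B ++ [w]), x ∈ Y) (hu : β ≤ (D (m u)).ncard) (hw : β ≤ (D (m w)).ncard) : False := by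
  have e : mir m (u :: (B ++ [w])) = m w :: (mir m B ++ [m u]) := by
    rw [mir_cons, mir_append, mir_singleton]
    simp
  refine lr2_ff C hD hmax (B := mir m B) (u := m w) (w := m u)
    (chain_mir_closed C.mate (fun _ _ h => Arc.mirror C.mate h) hch) ?_ ?_ hw hu
  · rw [← e]
    exact (reg_mir_iff C.mate).2 hreg
  · intro x hx
    rw [← e, mem_mir C.mate] at hx
    have := C.mate_mem (hY _ hx)
    rwa [C.mate.invol] at this

/-- a backward heavy member before a forward heavy member -/
private theorem lr2_bf (C : Ctx G m β t D₀ F s Y) (hD : Lvl G m β D₀ F D)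
    {B : List V} {u w : V} (hch : List.IsChain (Arc G m D) (w :: (B ++ [u]))) (hreg : Reg m (w :: (B ++ [u])))
    (hY : ∀ x ∈ w :: (B ++ [u]), x ∈ Y) (hu : β ≤ (D u).ncard) (hw : β ≤ (D (m w)).ncard) : False := by
  have huY : u ∈ insert s Y := Set.mem_insert_of_mem _ (hY u (by simp))
  have hwY : m w ∈ insert s Y := Set.mem_insert_of_mem _ (C.mate_mem (hY w List.mem_cons_self))
  exact gc_touch C.mate C.noalt hD.fam (hch.imp (fun _ _ h => h.tarc)) hreg
    (hD.heavy_touch C huY hwY hu hw)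

/-- no shortcuts in a closed walk with the fewest nodes -/
private theorem lr2_short (C : Ctx G m β t D₀ F s Y) (hD : Lvl G m β D₀ F D) {z : V} {L : List V} (hL : PCW G m D z L)
    (hY : ∀ w ∈ L, w ∈ Y) (hmin : ∀ L', PCW G m D z L' → (∀ w ∈ L', w ∈ Y) → L.length ≤ L'.length)
    {A B C' : List V} {u w : V} (hdec : L = A ++ u :: (B ++ w :: C')) (hB : B ≠ []) : ¬ Touch G D u (m w) := by
  intro ht
  have hsub : (A ++ u :: w :: C').Sublist L := by
    rw [hdec]
    refine List.Sublist.append (List.Sublist.refl _) (List.Sublist.cons_cons _ (List.sublist_append_right _ _))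
  have hch : List.IsChain (TArc G m D) (z :: ((A ++ u :: w :: C') ++ [m z])) := by
    have h0 : List.IsChain (TArc G m D) (z :: (L ++ [m z])) := hL.2.1.imp (fun _ _ h => h.tarc)
    have e1 : z :: (L ++ [m z]) = (z :: (A ++ [u])) ++ (B ++ (w :: (C' ++ [m z]))) := by
      rw [hdec]; simp
    have e2 : z :: ((A ++ u :: w :: C') ++ [m z]) = (z :: (A ++ [u])) ++ (w :: (C' ++ [m z])) := by simp
    rw [e1] at h0
    rw [e2, List.isChain_append]
    refine ⟨h0.left_of_append, h0.right_of_append.right_of_append, ?_⟩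
    intro x hx y hy
    rw [show (z :: (A ++ [u])).getLast? = some u from List.getLast?_concat (l := z :: A) (a := u)] at hx
    simp only [Option.mem_def, Option.some.injEq, List.head?_cons] at hx hy
    subst hx; subst hy
    exact ht
  have hreg : Reg m (z :: (A ++ u :: w :: C')) := hL.2.2.sublist (List.Sublist.cons_cons _ hsub)
  -- the first member
  obtain ⟨p, T, hpT⟩ : ∃ p T, A ++ u :: w :: C' = p :: T := by
    cases A with
    | nil => exact ⟨_, _, rfl⟩
    | cons p A => exact ⟨p, A ++ u :: w :: C', rfl⟩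
  have hpL : ∃ T', L = p :: T' := by
    cases A with
    | nil =>
      simp only [List.nil_append, List.cons.injEq] at hpT
      refine ⟨B ++ w :: C', ?_⟩
      rw [hdec, ← hpT.1]
      rfl
    | cons p' A =>
      simp only [List.cons_append, List.cons.injEq] at hpT
      refine ⟨A ++ u :: (B ++ w :: C'), ?_⟩
      rw [hdec, ← hpT.1]
      rfl
  obtain ⟨T', hT'⟩ := hpL
  have harc : Arc G m D z p := by
    have h0 := hL.2.1
    rw [hT'] at h0
    exact (List.isChain_cons_cons.1 h0).1
  have hpD : p ∉ D z := by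
    intro hp
    exact harc.2.2.2.1 ((hD.fam.valid z).closed p hp)
  have hpX : p ∈ XC m D z (A ++ u :: w :: C') := by
    right
    simp only [Set.mem_iUnion]
    exact ⟨p, by rw [hpT]; exact List.mem_cons_self, Or.inl (Or.inl (Or.inl rfl))⟩
  obtain ⟨L', hs, hp', -⟩ := red_closed C.mate C.noalt hD.fam (by simp) hch hreg hpX hpD
  have h1 := hmin L' hp' (fun w hw => hY w (hsub.subset (hs.subset hw)))
  have h2 := hs.length_le
  have h3 : B.length ≠ 0 := by
    intro h
    exact hB (List.length_eq_zero_iff.1 h)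
  rw [hdec] at h1
  simp only [List.length_append, List.length_cons] at h1 h2
  omega

private theorem lr2_outside_F (C : Ctx G m β t D₀ F s Y) (hD : Lvl G m β D₀ F D) {a : V} (ha : a ∈ Y)
    (hha : β ≤ (D a).ncard) {L : List V} (hL : ∀ w ∈ L, w ∈ Y ∧ ¬ Touch G D a w) :
    (⋃ w ∈ L, D w).ncard ≤ t := by
  refine hD.outside C (Set.mem_insert_of_mem _ ha) hha ?_ ?_
  · intro x hx
    simp only [Set.mem_iUnion] at hx
    obtain ⟨w, hw, hx⟩ := hx
    exact hD.sub C (Set.mem_insert_of_mem _ (hL w hw).1) hx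
  · rw [Set.disjoint_left]
    intro x hx hxa
    simp only [Set.mem_iUnion] at hx
    obtain ⟨w, hw, hx⟩ := hx
    exact (hL w hw).2 ⟨x, Set.mem_insert_of_mem _ hxa, x, Set.mem_insert_of_mem _ hx, Or.inl rfl⟩

private theorem lr2_outside_B (C : Ctx G m β t D₀ F s Y) (hD : Lvl G m β D₀ F D) {a : V} (ha : a ∈ Y)
    (hha : β ≤ (D a).ncard) {L : List V} (hL : ∀ w ∈ L, w ∈ Y ∧ ¬ Touch G D a (m w)) :
    (⋃ w ∈ L, (D (m w) ∪ {w, m w})).ncard ≤ t := by
  refine hD.outside C (Set.mem_insert_of_mem _ ha) hha ?_ ?_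
  · intro x hx
    simp only [Set.mem_iUnion] at hx
    obtain ⟨w, hw, hx⟩ := hx
    rcases hx with hx | hx | hx
    · exact hD.sub C (Set.mem_insert_of_mem _ (C.mate_mem (hL w hw).1)) hx
    · rw [hx]; exact (hL w hw).1
    · rw [Set.mem_singleton_iff.1 hx]; exact C.mate_mem (hL w hw).1
  · rw [Set.disjoint_left]
    intro x hx hxa
    simp only [Set.mem_iUnion] at hx
    obtain ⟨w, hw, hx⟩ := hx
    have hmw : m w ∉ D a := fun h =>
      (hL w hw).2 ⟨m w, Set.mem_insert_of_mem _ h, m w, Set.mem_insert _ _, Or.inl rfl⟩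
    rcases hx with hx | hx | hx
    · exact (hL w hw).2 ⟨x, Set.mem_insert_of_mem _ hxa, x, Set.mem_insert_of_mem _ hx, Or.inl rfl⟩
    · rw [hx] at hxa
      exact hmw ((hD.fam.valid a).closed w hxa)
    · rw [Set.mem_singleton_iff.1 hx] at hxa
      exact hmw hxa

/-- the alternative for a closed walk with the fewest nodes with a forward heavy member -/
private theorem lr2_main (C : Ctx G m β t D₀ F s Y) (hD : Lvl G m β D₀ F D)
    (hmax : ∀ v ∈ insert s Y, β ≤ (D v).ncard → ∀ X, Valid G m v X → X ⊆ Y → X ⊆ D v)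
    {z : V} (hz : z ∈ insert s Y) {L : List V} (hL : PCW G m D z L)
    (hY : ∀ w ∈ L, w ∈ Y) (hmin : ∀ L', PCW G m D z L' → (∀ w ∈ L', w ∈ Y) → L.length ≤ L'.length)
    {a : V} (haL : a ∈ L) (hha : β ≤ (D a).ncard) :
    (∃ L, Fnd G m D β z L) ∨ (∃ L a, LRun G m β D Y z L a) := by
  have hm := C.mate
  obtain ⟨P, R, hdec⟩ := List.append_of_mem haL
  have haY : a ∈ Y := hY a haL
  have hchL : List.IsChain (Arc G m D) L := (hL.2.1.tail).left_of_append
  have hregL : Reg m L := hL.2.2.sublist (List.sublist_cons_self _ _)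
  -- the nodes lie in the largest valid set
  have hXC : XC m D z L ⊆ Y := by
    intro x hx
    rcases hx with hx | hx
    · exact hD.sub C hz hx
    · simp only [Set.mem_iUnion] at hx
      obtain ⟨w, hw, hx⟩ := hx
      have hwY := hY w hw
      have hmwY := C.mate_mem hwY
      rcases hx with ((hx | hx) | hx) | hx
      · rw [hx]; exact hwY
      · rw [Set.mem_singleton_iff.1 hx]; exact hmwY
      · exact hD.sub C (Set.mem_insert_of_mem _ hwY) hx
      · exact hD.sub C (Set.mem_insert_of_mem _ hmwY) hx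
  obtain ⟨hval, -, hnodes⟩ := PCW.valid hm C.noalt hD.fam hL
  have hMax : ∀ w ∈ L, w ∈ MaxV G m Y z := fun w hw => subset_MaxV hval hXC (hnodes w hw)
  have hMaxm : ∀ w ∈ L, m w ∈ MaxV G m Y z := fun w hw =>
    (valid_MaxV (G := G) (m := m) Y z).closed w (hMax w hw)
  -- members before `a`
  have hPl : ∀ w ∈ P, w ∈ Y ∧ (D w).ncard < β ∧ (D (m w)).ncard < β := by
    intro w hw
    obtain ⟨A, B, hAB⟩ := List.append_of_mem hw
    have hdec' : L = A ++ w :: (B ++ a :: R) := by rw [hdec, hAB]; simp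
    have hYseg : ∀ x ∈ w :: (B ++ [a]), x ∈ Y := by
      intro x hx
      apply hY
      rw [hdec']
      simp only [List.mem_cons, List.mem_append, List.mem_singleton, List.not_mem_nil, or_false] at hx ⊢
      tauto
    have hc1 := lr2_seg (hdec' ▸ hchL)
    have hr1 := lr2_segreg (hdec' ▸ hregL)
    refine ⟨hY w (by rw [hdec']; simp), ?_, ?_⟩
    · by_contra hh
      exact lr2_ff C hD hmax hc1 hr1 hYseg (not_lt.1 hh) hha
    · by_contra hh
      exact lr2_bf C hD hc1 hr1 hYseg hha (not_lt.1 hh)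
  -- members after `a` are forward light
  have hRl : ∀ w ∈ R, (D w).ncard < β := by
    intro w hw
    obtain ⟨B, C', hBC⟩ := List.append_of_mem hw
    have hdec' : L = P ++ a :: (B ++ w :: C') := by rw [hdec, hBC]
    have hYseg : ∀ x ∈ a :: (B ++ [w]), x ∈ Y := by
      intro x hx
      apply hY
      rw [hdec']
      simp only [List.mem_cons, List.mem_append, List.mem_singleton, List.not_mem_nil, or_false] at hx ⊢
      tauto
    by_contra hh
    exact lr2_ff C hD hmax (lr2_seg (hdec' ▸ hchL)) (lr2_segreg (hdec' ▸ hregL)) hYseg hha (not_lt.1 hh)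
  have hRY : ∀ w ∈ R, w ∈ Y := fun w hw => hY w (by rw [hdec]; simp [hw])
  rcases Nat.lt_or_ge β (W m D (P ++ [a])) with hbig | hWP
  · right
    refine ⟨P, a, ?_, ?_, hPl, haY, hha, ?_, hbig⟩
    · have h0 := hL.2.1
      have e : z :: (L ++ [m z]) = (z :: (P ++ [a])) ++ (R ++ [m z]) := by rw [hdec]; simp
      rw [e] at h0
      exact h0.left_of_append
    · refine hL.2.2.sublist (List.Sublist.cons_cons _ ?_)
      rw [hdec]
      exact List.Sublist.append (List.Sublist.refl _) (List.Sublist.cons_cons _ (List.nil_sublist _))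
    · intro w hw
      apply hMax
      rw [hdec]
      simp only [List.mem_cons, List.mem_append, List.mem_singleton, List.not_mem_nil, or_false] at hw ⊢
      tauto
  · by_cases hback : ∃ w ∈ L, β ≤ (D (m w)).ncard
    · obtain ⟨w, hwL, hhw⟩ := hback
      -- `w` is the successor of `a`
      have hsucc : ∃ R', R = w :: R' := by
        rw [hdec] at hwL
        rcases List.mem_append.1 hwL with hw | hw
        · exact absurd hhw (not_le.2 (hPl w hw).2.2)
        · rcases List.mem_cons.1 hw with hw | hw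
          · rw [hw] at hhw
            exact absurd hhw (not_le.2 (hD.heavy_mate C haY hha))
          · obtain ⟨B, C', hBC⟩ := List.append_of_mem hw
            have hdec' : L = P ++ a :: (B ++ w :: C') := by rw [hdec, hBC]
            by_cases hB : B = []
            · subst hB
              exact ⟨C', hBC⟩
            · exact absurd (hD.heavy_touch C (Set.mem_insert_of_mem _ haY)
                (Set.mem_insert_of_mem _ (C.mate_mem (hRY w hw))) hha hhw)
                (lr2_short C hD hL hY hmin hdec' hB)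
      obtain ⟨R', rfl⟩ := hsucc
      have hmirR : mir m (w :: R') = mir m R' ++ [m w] := mir_cons w R'
      have hmirL := hL.mirror hm
      have emir : mir m L = (mir m R' ++ [m w]) ++ mir m (P ++ [a]) := by
        have : L = (P ++ [a]) ++ (w :: R') := by rw [hdec]; simp
        rw [this, mir_append, hmirR]
      rcases Nat.lt_or_ge β (W m D (mir m R' ++ [m w])) with hbig | hWR
      · right
        refine ⟨mir m R', m w, ?_, ?_, ?_, C.mate_mem (hRY w List.mem_cons_self), hhw, ?_, hbig⟩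
        · have h0 := hmirL.2.1
          rw [emir] at h0
          have e : z :: (((mir m R' ++ [m w]) ++ mir m (P ++ [a])) ++ [m z]) =
              (z :: (mir m R' ++ [m w])) ++ (mir m (P ++ [a]) ++ [m z]) := by simp
          rw [e] at h0
          exact h0.left_of_append
        · refine hmirL.2.2.sublist (List.Sublist.cons_cons _ ?_)
          rw [emir]
          exact List.sublist_append_left _ _
        · intro x hx
          have hx' : m x ∈ R' := (mem_mir hm).1 hx
          have hxY : m x ∈ Y := hRY _ (List.mem_cons_of_mem _ hx')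
          refine ⟨?_, ?_, ?_⟩
          · have := C.mate_mem hxY
            rwa [hm.invol] at this
          · obtain ⟨B, C', hBC⟩ := List.append_of_mem hx'
            have hdec' : L = (P ++ [a]) ++ w :: (B ++ m x :: C') := by rw [hdec, hBC]; simp
            have hYseg : ∀ y ∈ w :: (B ++ [m x]), y ∈ Y := by
              intro y hy
              apply hY
              rw [hdec']
              simp only [List.mem_cons, List.mem_append, List.mem_singleton, List.not_mem_nil, or_false] at hy ⊢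
              tauto
            by_contra hh
            have hh' : β ≤ (D (m (m x))).ncard := by rw [hm.invol]; exact not_lt.1 hh
            exact lr2_bb C hD hmax (lr2_seg (hdec' ▸ hchL)) (lr2_segreg (hdec' ▸ hregL)) hYseg hhw hh'
          · exact hRl _ (List.mem_cons_of_mem _ hx')
        · intro x hx
          rcases List.mem_append.1 hx with hx | hx
          · have hx' : m x ∈ R' := (mem_mir hm).1 hx
            have := hMaxm (m x) (by rw [hdec]; simp [hx'])
            rwa [hm.invol] at this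
          · rw [List.mem_singleton.1 hx]
            exact hMaxm w (by rw [hdec]; simp)
      · left
        refine ⟨L, hL, P ++ [a], w :: R', by rw [hdec]; simp, by simp, hWP, ?_⟩
        have hchR : List.IsChain (Arc G m D) (w :: R') := by
          have e : L = (P ++ [a]) ++ (w :: R') := by rw [hdec]; simp
          rw [e] at hchL
          exact hchL.right_of_append
        rw [← W_mir hm hD.fam hchR, hmirR]
        exact hWR
    · left
      push Not at hback
      refine ⟨L, hL, P ++ [a], R, by rw [hdec]; simp, by simp, hWP, ?_⟩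
      rcases List.eq_nil_or_concat R with hR | ⟨R₀, c, hR⟩
      · rw [hR]; exact Nat.zero_le _
      · rw [List.concat_eq_append] at hR
        have hchR : List.IsChain (Arc G m D) (R₀ ++ [c]) := by
          have e : L = (P ++ [a]) ++ (R₀ ++ [c]) := by rw [hdec, hR]; simp
          rw [e] at hchL
          exact hchL.right_of_append
        have hregR : Reg m (R₀ ++ [c]) := by
          refine hregL.sublist ?_
          rw [hdec, hR]
          exact (List.sublist_cons_self _ _).trans (List.sublist_append_right _ _)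
        have hback' : ∀ x ∈ R, (D (m x)).ncard < β := fun x hx => hback x (by rw [hdec]; simp [hx])
        have h1 := hD.run_cost C (L := R₀) (c := c)
          (fun x hx => ⟨hRY x (by rw [hR]; simp [hx]), hRl x (by rw [hR]; simp [hx]), hback' x (by rw [hR]; simp [hx])⟩)
          (hRY c (by rw [hR]; simp)) (hback' c (by rw [hR]; simp)) hchR hregR
        -- forward regions do not touch `a`
        have hF : (⋃ x ∈ R₀, D x).ncard ≤ t := by
          refine lr2_outside_F C hD haY hha ?_
          intro x hx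
          have hxR : x ∈ R := by rw [hR]; simp [hx]
          refine ⟨hRY x hxR, ?_⟩
          obtain ⟨B, C', hBC⟩ := List.append_of_mem hxR
          have hdec' : L = P ++ a :: (B ++ x :: C') := by rw [hdec, hBC]
          have h2 := heavy_not_touch C hD hmax (Set.mem_insert_of_mem _ haY) hha (L := B ++ [x])
            (fun y hy => hRY y (by
              rw [hBC]
              simp only [List.mem_cons, List.mem_append, List.mem_singleton, List.not_mem_nil, or_false] at hy ⊢
              tauto)) (by simp) (lr2_seg (hdec' ▸ hchL)) (lr2_segreg (hdec' ▸ hregL))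
          rwa [List.getLast_append_singleton] at h2
        have hBk : (⋃ x ∈ (R₀ ++ [c]).tail, (D (m x) ∪ {x, m x})).ncard ≤ t := by
          refine lr2_outside_B C hD haY hha ?_
          intro x hx
          rw [← hR] at hx
          have hxR : x ∈ R := List.mem_of_mem_tail hx
          refine ⟨hRY x hxR, ?_⟩
          cases R with
          | nil => simp at hx
          | cons r R' =>
            simp only [List.tail_cons] at hx
            obtain ⟨B, C', hBC⟩ := List.append_of_mem hx
            have hdec' : L = P ++ a :: ((r :: B) ++ x :: C') := by rw [hdec, hBC]; simp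
            exact lr2_short C hD hL hY hmin hdec' (by simp)
        rw [hR]
        have h5 := C.ht
        have h6 := C.hβ
        omega

/-- Job LR2. Let D have the largest possible regions at heavy vertices. If a light vertex z does not have its largest region then
either there is a closed walk at z found at scale β, or there is a large run from z.
Proof. `exists_pcw` gives a proper closed walk at z with nodes in Y; take one, L = [z_1,…,z_k], with the fewest nodes (among all with nodes in Y).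
(1) ¬ Touch z_i z_j' for j ≥ i + 2: otherwise z → z_1 … z_i → z_j … z_k → z' is a closed walk with weak arcs, `red_closed` (with p = z_1 ∉ D z) gives a proper closed walk at z with fewer nodes.
(2) If z_i and z_j are heavy, i < j: they touch (`heavy_touch`), contradiction with `heavy_not_touch`. So at most one forward heavy member z_a; by mirroring at most one member z_c with z_c' heavy. If both exist:
z_a and z_c' touch; c ≤ a is excluded by `gc_touch` / `mates_disjoint`, c ≥ a + 2 by (1). So c = a + 1.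
(3) At least one exists by `no_light_closed`. After mirroring L (this keeps the number of nodes) we may assume that z_a exists.
(4) Put P = [z_1,…,z_a], R = [z_{a+1},…,z_k]. All members of P but z_a are light at both ends. If β < W P we have a large run (second alternative; its nodes lie in XC ⊆ MaxV).
(5) If no mate of a member is heavy: all members of R are light at both ends; they do not touch z_a (`heavy_not_touch`), and the mates of all members but the first do not touch z_a by (1). So by `run_cost` and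
`outside` W R ≤ t + t ≤ β. So with W P ≤ β the closed walk is found.
(6) If z_{a+1}' is heavy: mir R = [z_k',…,z_{a+1}'] is a run from z to the heavy vertex z_{a+1}' (mirrored closed walk). If β < W (mir R) it is a large run; otherwise W R = W (mir R) ≤ β and W P ≤ β:
the closed walk is found. -/
theorem light_alternative (C : Ctx G m β t D₀ F s Y) (hD : Lvl G m β D₀ F D)
    (hmax : ∀ v ∈ insert s Y, β ≤ (D v).ncard → ∀ X, Valid G m v X → X ⊆ Y → X ⊆ D v)
    {z : V} (hz : z ∈ insert s Y) (hlz : (D z).ncard < β) {X : Set V} (hX : Valid G m z X) (hXY : X ⊆ Y) (hne : ¬ X ⊆ D z) :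
    (∃ L, Fnd G m D β z L) ∨ (∃ L a, LRun G m β D Y z L a) := by
  classical
  have hm := C.mate
  obtain ⟨L₀, hL₀, hL₀Y⟩ := exists_pcw hm C.noalt hD.fam hX hne
  have hex : ∃ n, ∃ L, L.length = n ∧ PCW G m D z L ∧ ∀ w ∈ L, w ∈ Y :=
    ⟨L₀.length, L₀, rfl, hL₀, fun w hw => (hL₀Y w hw).elim (fun h => hXY h) (fun h => hD.sub C hz h)⟩
  obtain ⟨L, hlen, hL, hY⟩ := Nat.find_spec hex
  have hmin : ∀ L', PCW G m D z L' → (∀ w ∈ L', w ∈ Y) → L.length ≤ L'.length := by
    intro L' h1 h2
    rw [hlen]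
    exact Nat.find_min' hex ⟨L', rfl, h1, h2⟩
  by_cases hf : ∃ a ∈ L, β ≤ (D a).ncard
  · obtain ⟨a, ha, hha⟩ := hf
    exact lr2_main C hD hmax hz hL hY hmin ha hha
  · by_cases hb : ∃ a ∈ L, β ≤ (D (m a)).ncard
    · obtain ⟨a, ha, hha⟩ := hb
      refine lr2_main C hD hmax hz (hL.mirror hm) ?_ ?_ (a := m a) ?_ hha
      · intro w hw
        have := C.mate_mem (hY _ ((mem_mir hm).1 hw))
        rwa [hm.invol] at this
      · intro L' h1 h2
        rw [length_mir]
        exact hmin L' h1 h2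
      · rw [mem_mir hm, hm.invol]
        exact ha
    · push Not at hf hb
      exact (hD.no_light_closed C hz hlz (fun w hw => ⟨hY w hw, hf w hw, hb w hw⟩) hL.2.1).elim

private theorem coll_light_mir (C : Ctx G m β t D₀ F s Y) {B : List V}
    (hB : ∀ x ∈ B, x ∈ Y ∧ (D x).ncard < β ∧ (D (m x)).ncard < β) :
    ∀ x ∈ mir m B, x ∈ Y ∧ (D x).ncard < β ∧ (D (m x)).ncard < β := by
  intro x hx
  obtain ⟨h1, h2, h3⟩ := hB (m x) ((mem_mir C.mate).1 hx)
  rw [C.mate.invol] at h3
  have h4 := C.mate_mem h1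
  rw [C.mate.invol] at h4
  exact ⟨h4, h3, h2⟩

private theorem coll_close (C : Ctx G m β t D₀ F s Y) (hD : Lvl G m β D₀ F D) {z w d : V} {P B' : List V}
    (hz : z ∈ insert s Y) (hlz : (D z).ncard < β)
    (hP : ∀ x ∈ P, x ∈ Y ∧ (D x).ncard < β ∧ (D (m x)).ncard < β)
    (hB : ∀ x ∈ B' ++ [w], x ∈ Y ∧ (D x).ncard < β ∧ (D (m x)).ncard < β)
    (hPc : List.IsChain (Arc G m D) (z :: P)) (hBc : List.IsChain (Arc G m D) (z :: (B' ++ [w])))
    (hd : (z :: P).getLast (List.cons_ne_nil _ _) = d) (ha : Arc G m D d (m w)) : False := by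
  have hm := C.mate
  have h2 := chain_mir_closed hm (fun a b hab => Arc.mirror hm hab) hBc
  have h3 : List.IsChain (Arc G m D) ((z :: P) ++ (m w :: (mir m B' ++ [m z]))) := by
    refine List.isChain_append.2 ⟨hPc, h2, ?_⟩
    intro x hx y hy
    rw [List.getLast?_eq_getLast_of_ne_nil (List.cons_ne_nil _ _), Option.mem_some_iff] at hx
    rw [List.head?_cons, Option.mem_some_iff] at hy
    rw [← hx, ← hy, hd]
    exact ha
  have e : (z :: P) ++ (m w :: (mir m B' ++ [m z])) = z :: ((P ++ m w :: mir m B') ++ [m z]) := by simp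
  rw [e] at h3
  refine hD.no_light_closed C hz hlz ?_ h3
  intro x hx
  rcases List.mem_append.1 hx with hx | hx
  · exact hP x hx
  · have hx2 : x ∈ mir m (B' ++ [w]) := by
      rw [mir_append, mir_singleton]
      simpa using hx
    exact coll_light_mir C hB x hx2

omit [Finite V] in
private theorem coll_first {S : Set V} (A : List V) (h : ∃ u ∈ A, u ∈ S) :
    ∃ P c R, A = P ++ c :: R ∧ c ∈ S ∧ ∀ x ∈ P, x ∉ S := by
  induction A with
  | nil => simp at h
  | cons a A ih =>
    by_cases ha : a ∈ S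
    · exact ⟨[], a, A, rfl, ha, by simp⟩
    · obtain ⟨u, hu, huS⟩ := h
      rcases List.mem_cons.1 hu with rfl | hu
      · exact absurd huS ha
      · obtain ⟨P, c, R, rfl, hc, hP⟩ := ih ⟨u, hu, huS⟩
        refine ⟨a :: P, c, R, rfl, hc, ?_⟩
        intro x hx
        rcases List.mem_cons.1 hx with rfl | hx
        · exact ha
        · exact hP x hx

private theorem coll_in (C : Ctx G m β t D₀ F s Y) (hD : Lvl G m β D₀ F D) {z w : V} {A B' : List V}
    (hz : z ∈ insert s Y) (hlz : (D z).ncard < β)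
    (hA : ∀ x ∈ A, x ∈ Y ∧ (D x).ncard < β ∧ (D (m x)).ncard < β)
    (hB : ∀ x ∈ B' ++ [w], x ∈ Y ∧ (D x).ncard < β ∧ (D (m x)).ncard < β)
    (hwz : w ∈ MaxV G m Y z)
    (hAc : List.IsChain (Arc G m D) (z :: A)) (hBc : List.IsChain (Arc G m D) (z :: (B' ++ [w])))
    (hu : ∃ u ∈ A, u ∈ D w) : False := by
  have hm := C.mate
  obtain ⟨P, c, R, rfl, hc, hP⟩ := coll_first A hu
  obtain ⟨d, hd⟩ : ∃ d, (z :: P).getLast (List.cons_ne_nil _ _) = d := ⟨_, rfl⟩
  have e : z :: (P ++ c :: R) = (z :: P) ++ (c :: R) := by simp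
  rw [e] at hAc
  obtain ⟨hPc, -, hlink⟩ := List.isChain_append.1 hAc
  have harc : Arc G m D d c := by
    refine hlink d ?_ c (by simp)
    rw [List.getLast?_eq_getLast_of_ne_nil (List.cons_ne_nil _ _), hd]
    rfl
  have hzw : z ∉ D w := (valid_MaxV Y z).nmem_of_mem hm C.noalt hwz (hD.fam.valid w)
  have hdw : d ∉ D w := by
    have hmem : d ∈ z :: P := hd ▸ List.getLast_mem _
    rcases List.mem_cons.1 hmem with rfl | hmem
    · exact hzw
    · exact hP d hmem
  have hc' : m c ∈ D w := (hD.fam.valid w).closed c hc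
  obtain ⟨h1, h2, h3, h4, a, ha, b, hb, hab⟩ := harc
  have hbw : b ∈ D w := by
    rcases hb with rfl | hb
    · exact hc'
    · exact hD.fam.trans w _ hc' hb
  have hwd : w ∉ D d := fun hwd => h4 (hD.fam.trans d w hwd hc')
  have hdnw : d ≠ w := fun hdw' => h4 (hdw' ▸ hc')
  have hdmw : d ≠ m w := by
    rintro rfl
    obtain ⟨h5, h6⟩ := fam_mates hm C.noalt hD.fam w b (Set.mem_insert_of_mem _ hbw) a ha
    rcases hab with hab | hab
    · exact h5 hab.symm
    · have h7 := (h6 hab.symm).1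
      rw [h7] at hbw
      exact (hD.fam.valid w).nmem hbw
  refine coll_close C hD hz hlz (fun x hx => hA x (by simp [hx])) hB hPc hBc hd ?_
  refine ⟨?_, ?_, ?_, ?_, ?_⟩
  · rw [hm.invol]; exact hdnw
  · rw [hm.invol]; exact hdmw
  · rw [hm.invol]; exact hdw
  · rw [hm.invol]; exact hwd
  · rw [hm.invol]; exact ⟨a, ha, b, Set.mem_insert_of_mem _ hbw, hab⟩

/-- Job COLL. Two light walks from the same light vertex whose ends touch have the same end.
Proof. Let u, w be the ends, u ≠ w. If w = u': then z → A → (mir B without its first member) → z' is a closed walk, light: contradiction with `no_light_closed`. Otherwise if Sim u w: the walk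
z → A → mir B → z' contradicts `no_light_closed`. If u ∈ D w: let c be the first member of A in D w, A = P ++ c :: R, d the last member of z :: P (z ∉ D w by `Valid.nmem_of_mem`, as w ∈ MaxV Y z). Then Touch d w,
w ∉ D d (else c' ∈ D d), d ≠ w (else c' ∈ D d), d ≠ w' (`fam_mates`), so Arc d w', and z → P → mir B → z' contradicts `no_light_closed`. The case w ∈ D u is symmetric. -/
theorem light_collision (C : Ctx G m β t D₀ F s Y) (hD : Lvl G m β D₀ F D) {z : V} {A B : List V} (hz : z ∈ insert s Y)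
    (hlz : (D z).ncard < β) (hA : A ≠ []) (hB : B ≠ [])
    (hAm : ∀ w ∈ A, w ∈ Y ∧ (D w).ncard < β ∧ (D (m w)).ncard < β ∧ w ∈ MaxV G m Y z)
    (hBm : ∀ w ∈ B, w ∈ Y ∧ (D w).ncard < β ∧ (D (m w)).ncard < β ∧ w ∈ MaxV G m Y z)
    (hAc : List.IsChain (Arc G m D) (z :: A)) (hBc : List.IsChain (Arc G m D) (z :: B))
    (hAr : Reg m (z :: A)) (hBr : Reg m (z :: B)) (ht : Touch G D (A.getLast hA) (B.getLast hB)) :
    A.getLast hA = B.getLast hB := by
  have hm := C.mate
  obtain ⟨A', u, rfl⟩ : ∃ A' u, A = A' ++ [u] := ⟨A.dropLast, A.getLast hA, (List.dropLast_append_getLast hA).symm⟩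
  obtain ⟨B', w, rfl⟩ : ∃ B' w, B = B' ++ [w] := ⟨B.dropLast, B.getLast hB, (List.dropLast_append_getLast hB).symm⟩
  rw [List.getLast_append_singleton, List.getLast_append_singleton] at ht ⊢
  have hA3 : ∀ x ∈ A' ++ [u], x ∈ Y ∧ (D x).ncard < β ∧ (D (m x)).ncard < β :=
    fun x hx => ⟨(hAm x hx).1, (hAm x hx).2.1, (hAm x hx).2.2.1⟩
  have hB3 : ∀ x ∈ B' ++ [w], x ∈ Y ∧ (D x).ncard < β ∧ (D (m x)).ncard < β :=
    fun x hx => ⟨(hBm x hx).1, (hBm x hx).2.1, (hBm x hx).2.2.1⟩
  by_contra hne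
  by_cases hw : u = m w
  · have h2 := chain_mir_closed hm (fun a b hab => Arc.mirror hm hab) hBc
    rw [← hw] at h2
    have h3 : List.IsChain (Arc G m D) (z :: (A' ++ u :: (mir m B' ++ [m z]))) :=
      List.isChain_cons_split.2 ⟨hAc, h2⟩
    have e : z :: (A' ++ u :: (mir m B' ++ [m z])) = z :: ((A' ++ u :: mir m B') ++ [m z]) := by simp
    rw [e] at h3
    refine hD.no_light_closed C hz hlz ?_ h3
    intro x hx
    rcases List.mem_append.1 hx with hx | hx
    · exact hA3 x (by simp [hx])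
    · rcases List.mem_cons.1 hx with rfl | hx
      · exact hA3 x (by simp)
      · exact coll_light_mir C (fun y hy => hB3 y (by simp [hy])) x hx
  · by_cases h1 : u ∈ D w
    · exact coll_in C hD hz hlz hA3 hB3 (hBm w (by simp)).2.2.2 hAc hBc ⟨u, by simp, h1⟩
    · by_cases h2 : w ∈ D u
      · exact coll_in C hD hz hlz hB3 hA3 (hAm u (by simp)).2.2.2 hBc hAc ⟨w, by simp, h2⟩
      · refine coll_close C hD (P := A' ++ [u]) (d := u) hz hlz hA3 hB3 hAc hBc ?_ ?_
        · rw [List.getLast_cons (by simp), List.getLast_append_singleton]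
        · refine ⟨?_, ?_, ?_, ?_, ?_⟩
          · rw [hm.invol]; exact hne
          · rw [hm.invol]; exact hw
          · rw [hm.invol]; exact h1
          · rw [hm.invol]; exact h2
          · rw [hm.invol]; exact ht

private theorem two_last {α : Type*} {p : α → Prop} {L : List α} (h : ∃ x ∈ L, p x) :
    ∃ P w Q, L = P ++ w :: Q ∧ p w ∧ ∀ u ∈ Q, ¬ p u := by
  induction L with
  | nil => obtain ⟨x, hx, -⟩ := h; exact absurd hx (by simp)
  | cons b L ih =>
    by_cases hL : ∃ x ∈ L, p x
    · obtain ⟨P, w, Q, h1, h2, h3⟩ := ih hL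
      exact ⟨b :: P, w, Q, by rw [h1]; rfl, h2, h3⟩
    · obtain ⟨x, hx, hpx⟩ := h
      rcases List.mem_cons.1 hx with rfl | hx
      · exact ⟨[], x, L, rfl, hpx, fun u hu hpu => hL ⟨u, hu, hpu⟩⟩
      · exact absurd ⟨x, hx, hpx⟩ hL

omit [Finite V] in
private theorem two_chain {E₁ E₂ : V → Set V} {L : List V} {z : V} (hz : E₂ z = E₁ z)
    (hL : ∀ w ∈ L, E₂ w = E₁ w ∧ E₂ (m w) = E₁ (m w)) (h : List.IsChain (Arc G m E₂) (z :: L)) :
    List.IsChain (Arc G m E₁) (z :: L) := by
  induction L generalizing z with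
  | nil => exact List.isChain_singleton z
  | cons w L ih =>
    rw [List.isChain_cons_cons] at h ⊢
    obtain ⟨h1, h2⟩ := hL w List.mem_cons_self
    refine ⟨?_, ih h1 (fun u hu => hL u (List.mem_cons_of_mem _ hu)) h.2⟩
    have h3 := h.1
    unfold Arc Sim Touch at h3 ⊢
    rw [hz, h2] at h3
    exact h3

/-- Job TWO. Large runs from the same light vertex at two consecutive levels contradict each other.
Proof. z and all w ∈ L₂ are light for E₂, hence light for E₁ with the same regions (`Lvl.light`), so z :: L₂ is a chain of arcs for E₁. Put S₁ = ⋃ w ∈ L₁, E₁ w ∩ E₁ a₁ and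
S₂ = ⋃ w ∈ L₂, E₂ w ∩ E₂ a₂, subsets of Y. By `run_heavy` and `large`: β + 1 ≤ 2t + |S₁|, β + 1 ≤ 2t + |S₂|, so |S₁| + |S₂| > β + t ≥ |Y| and they meet: there are w₁ ∈ L₁, w₂ ∈ L₂ with E₁ w₁ ∩ E₂ w₂ ∩ E₁ a₁ nonempty; by
`light_collision` (level E₁, initial parts of L₁, L₂) w₁ = w₂. So some member w of L₁ lies in L₂ and satisfies E₁ w ∩ E₁ a₁ ≠ ∅; take the last such one, L₁ = P ++ w :: Q.
`touch_initial` for w :: (Q ++ [a₁]) gives an initial part that is a proper closed walk at w; it is not contained in Q (`no_light_closed`), so Q ++ [a₁] is a proper closed walk at w. Put S = ⋃ u ∈ Q, E₁ u ∩ E₁ a₁.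
S and S₂ are disjoint: a common point lies in E₁ u ∩ E₂ w₂, so u = w₂ ∈ L₂ by `light_collision`, against the choice of w. So |S| + |S₂| ≤ β + t, and `run_heavy` gives W (Q ++ [a₁]) ≤ 2t + |S| ≤ 5t - 1 ≤ β. Hence
Q ++ [a₁] is found at w (scale β, second part empty): its first member c lies in Phi E₁ w ⊆ E₂ w, but c ∉ E₁ w, while w is light for E₂: E₂ w = D₀ w = E₁ w. Contradiction. -/
theorem two_runs {E₁ E₂ : V → Set V} (C : Ctx G m β t D₀ F s Y) (h1 : Lvl G m β D₀ F E₁) (h2 : Lvl G m β D₀ F E₂)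
    (h12 : ∀ x, Phi G m β E₁ x ⊆ E₂ x) {z a₁ a₂ : V} {L₁ L₂ : List V} (hz : z ∈ insert s Y) (hlz : (E₂ z).ncard < β)
    (r1 : LRun G m β E₁ Y z L₁ a₁) (r2 : LRun G m β E₂ Y z L₂ a₂) : False := by
  have h01 : ∀ x, E₁ x ⊆ E₂ x := fun x => (subset_Phi x).trans (h12 x)
  -- light vertices of the second level
  have hlt : ∀ v ∈ insert s Y, (E₂ v).ncard < β → E₂ v = E₁ v ∧ (E₁ v).ncard < β := by
    intro v hv hl
    have hl1 : (E₁ v).ncard < β :=
      (Set.ncard_le_ncard (h01 v) (Set.toFinite _)).trans_lt hl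
    exact ⟨(Lvl.light C h2 hv hl).trans (Lvl.light C h1 hv hl1).symm, hl1⟩
  obtain ⟨hz2, hlz1⟩ := hlt z hz hlz
  have hmem2 : ∀ w ∈ L₂, w ∈ Y ∧ (E₂ w = E₁ w ∧ (E₁ w).ncard < β) ∧
      (E₂ (m w) = E₁ (m w) ∧ (E₁ (m w)).ncard < β) := by
    intro w hw
    obtain ⟨hy, ha, hb⟩ := r2.mem w hw
    exact ⟨hy, hlt w (Set.mem_insert_of_mem _ hy) ha,
      hlt (m w) (Set.mem_insert_of_mem _ (C.mate_mem hy)) hb⟩
  have hch2 : List.IsChain (Arc G m E₁) (z :: L₂) := by
    refine two_chain hz2 (fun w hw => ⟨(hmem2 w hw).2.1.1, (hmem2 w hw).2.2.1⟩) ?_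
    have h := r2.chain
    rw [← List.cons_append] at h
    exact h.left_of_append
  have hch1 : List.IsChain (Arc G m E₁) (z :: L₁) := by
    have h := r1.chain
    rw [← List.cons_append] at h
    exact h.left_of_append
  have hreg1 : Reg m (z :: L₁) := by
    refine r1.reg.sublist ?_
    exact List.Sublist.cons_cons z (List.sublist_append_left _ _)
  have hreg2 : Reg m (z :: L₂) := by
    refine r2.reg.sublist ?_
    exact List.Sublist.cons_cons z (List.sublist_append_left _ _)
  -- the collision of members of the two runs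
  have hcol : ∀ w₁ ∈ L₁, ∀ w₂ ∈ L₂, ∀ q, q ∈ E₁ w₁ → q ∈ E₁ w₂ → w₁ = w₂ := by
    intro w₁ hw1 w₂ hw2 q hq1 hq2
    obtain ⟨P₁, Q₁, hPQ1⟩ := List.append_of_mem hw1
    obtain ⟨P₂, Q₂, hPQ2⟩ := List.append_of_mem hw2
    have e1 : L₁ = (P₁ ++ [w₁]) ++ Q₁ := by rw [hPQ1]; simp
    have e2 : L₂ = (P₂ ++ [w₂]) ++ Q₂ := by rw [hPQ2]; simp
    have hA : P₁ ++ [w₁] ≠ [] := by simp
    have hB : P₂ ++ [w₂] ≠ [] := by simp
    have l1 : (P₁ ++ [w₁]).getLast hA = w₁ := by simp
    have l2 : (P₂ ++ [w₂]).getLast hB = w₂ := by simp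
    have hc1 : List.IsChain (Arc G m E₁) (z :: (P₁ ++ [w₁])) := by
      rw [e1, ← List.cons_append] at hch1
      exact hch1.left_of_append
    have hc2 : List.IsChain (Arc G m E₁) (z :: (P₂ ++ [w₂])) := by
      rw [e2, ← List.cons_append] at hch2
      exact hch2.left_of_append
    have hr1 : Reg m (z :: (P₁ ++ [w₁])) := by
      rw [e1] at hreg1
      exact hreg1.sublist (List.Sublist.cons_cons z (List.sublist_append_left _ _))
    have hr2 : Reg m (z :: (P₂ ++ [w₂])) := by
      rw [e2] at hreg2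
      exact hreg2.sublist (List.Sublist.cons_cons z (List.sublist_append_left _ _))
    have h := light_collision C h1 hz hlz1 hA hB
      (fun w hw => by
        have hw' : w ∈ L₁ := by rw [e1]; exact List.mem_append_left _ hw
        obtain ⟨a, b, c⟩ := r1.mem w hw'
        exact ⟨a, b, c, r1.valid w (List.mem_append_left _ hw')⟩)
      (fun w hw => by
        have hw' : w ∈ L₂ := by rw [e2]; exact List.mem_append_left _ hw
        obtain ⟨a, b, c⟩ := hmem2 w hw'
        exact ⟨a, b.2, c.2, r2.valid w (List.mem_append_left _ hw')⟩)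
      hc1 hc2 hr1 hr2
      (by
        rw [l1, l2]
        exact ⟨q, Set.mem_insert_of_mem _ hq1, q, Set.mem_insert_of_mem _ hq2, Or.inl rfl⟩)
    rw [l1, l2] at h
    exact h
  -- the costs of the two runs
  have hc1 := run_heavy C h1 r1.mem r1.amem r1.heavy r1.chain.tail
    (r1.reg.sublist (List.sublist_cons_self _ _))
  have hc2 := run_heavy C h2 r2.mem r2.amem r2.heavy r2.chain.tail
    (r2.reg.sublist (List.sublist_cons_self _ _))
  have hlarge1 := r1.large
  have hlarge2 := r2.large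
  have hcard := C.card
  have ht := C.ht
  have hsub1 : ∀ w ∈ L₁, E₁ w ∩ E₁ a₁ ⊆ Y := fun w hw =>
    Set.inter_subset_right.trans (Lvl.sub C h1 (Set.mem_insert_of_mem _ r1.amem))
  have hsub2 : (⋃ w ∈ L₂, (E₂ w ∩ E₂ a₂)) ⊆ Y := by
    refine Set.iUnion₂_subset fun w _ => ?_
    exact Set.inter_subset_right.trans (Lvl.sub C h2 (Set.mem_insert_of_mem _ r2.amem))
  have hdisj : ∀ Q : List V, (∀ u ∈ Q, u ∈ L₁) →
      Disjoint (⋃ u ∈ Q, (E₁ u ∩ E₁ a₁)) (⋃ w ∈ L₂, (E₂ w ∩ E₂ a₂)) →
      (⋃ u ∈ Q, (E₁ u ∩ E₁ a₁)).ncard + (⋃ w ∈ L₂, (E₂ w ∩ E₂ a₂)).ncard ≤ β + t := by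
    intro Q hQ hd
    have e1 := Set.ncard_union_eq hd (Set.toFinite _) (Set.toFinite _)
    have e2 : ((⋃ u ∈ Q, (E₁ u ∩ E₁ a₁)) ∪ (⋃ w ∈ L₂, (E₂ w ∩ E₂ a₂))).ncard ≤ Y.ncard := by
      refine Set.ncard_le_ncard (Set.union_subset ?_ hsub2) (Set.toFinite _)
      exact Set.iUnion₂_subset fun u hu => hsub1 u (hQ u hu)
    omega
  -- some member of the first run lies in the second one and meets the heavy region
  have hex : ∃ w ∈ L₁, w ∈ L₂ ∧ (E₁ w ∩ E₁ a₁).Nonempty := by
    by_contra hno
    have hd : Disjoint (⋃ u ∈ L₁, (E₁ u ∩ E₁ a₁)) (⋃ w ∈ L₂, (E₂ w ∩ E₂ a₂)) := by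
      rw [Set.disjoint_left]
      intro q hq1 hq2
      simp only [Set.mem_iUnion, exists_prop] at hq1 hq2
      obtain ⟨w₁, hw1, hq1, hqa⟩ := hq1
      obtain ⟨w₂, hw2, hq2, -⟩ := hq2
      rw [(hmem2 w₂ hw2).2.1.1] at hq2
      have heq := hcol w₁ hw1 w₂ hw2 q hq1 hq2
      exact hno ⟨w₁, hw1, heq ▸ hw2, q, hq1, hqa⟩
    have := hdisj L₁ (fun u hu => hu) hd
    omega
  obtain ⟨P, w, Q, hPQ, ⟨hwL2, q, hqw, hqa⟩, hlast⟩ := two_last hex
  have hwL1 : w ∈ L₁ := by rw [hPQ]; simp
  have hQL1 : ∀ u ∈ Q, u ∈ L₁ := by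
    intro u hu
    rw [hPQ]
    simp [hu]
  obtain ⟨hwY, hwl, hwml⟩ := r1.mem w hwL1
  have hchw : List.IsChain (Arc G m E₁) (w :: (Q ++ [a₁])) := by
    have h := r1.chain.tail
    have e : L₁ ++ [a₁] = P ++ (w :: (Q ++ [a₁])) := by rw [hPQ]; simp
    rw [List.tail_cons, e] at h
    exact h.right_of_append
  have hregw : Reg m (w :: (Q ++ [a₁])) := by
    have h : Reg m (L₁ ++ [a₁]) := r1.reg.sublist (List.sublist_cons_self _ _)
    have e : L₁ ++ [a₁] = P ++ (w :: (Q ++ [a₁])) := by rw [hPQ]; simp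
    rw [e] at h
    exact h.sublist (List.sublist_append_right _ _)
  have hne : Q ++ [a₁] ≠ [] := by simp
  have hlastQ : (Q ++ [a₁]).getLast hne = a₁ := by simp
  obtain ⟨L', L'', hLL, hpcw⟩ := touch_initial C.mate C.noalt h1.fam hne hchw hregw
    (by
      rw [hlastQ]
      exact ⟨q, Set.mem_insert_of_mem _ hqw, q, Set.mem_insert_of_mem _ hqa, Or.inl rfl⟩)
  have hL'' : L'' = [] := by
    rcases List.eq_nil_or_concat L'' with h | ⟨K, b, hK⟩
    · exact h
    · exfalso
      rw [hK, List.concat_eq_append, ← List.append_assoc] at hLL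
      have hQe : Q = L' ++ K := (List.append_inj' hLL rfl).1
      refine Lvl.no_light_closed C h1 (Set.mem_insert_of_mem _ hwY) hwl (L := L') ?_ hpcw.2.1
      intro u hu
      exact r1.mem u (hQL1 u (by rw [hQe]; exact List.mem_append_left _ hu))
  rw [hL'', List.append_nil] at hLL
  rw [← hLL] at hpcw
  have hdQ : Disjoint (⋃ u ∈ Q, (E₁ u ∩ E₁ a₁)) (⋃ w ∈ L₂, (E₂ w ∩ E₂ a₂)) := by
    rw [Set.disjoint_left]
    intro q' hq1 hq2
    simp only [Set.mem_iUnion, exists_prop] at hq1 hq2
    obtain ⟨u, hu, hq1, hqa'⟩ := hq1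
    obtain ⟨w₂, hw2, hq2, -⟩ := hq2
    rw [(hmem2 w₂ hw2).2.1.1] at hq2
    have heq := hcol u (hQL1 u hu) w₂ hw2 q' hq1 hq2
    exact hlast u hu ⟨heq ▸ hw2, q', hq1, hqa'⟩
  have hcardQ := hdisj Q hQL1 hdQ
  have hcQ := run_heavy C h1 (fun u hu => r1.mem u (hQL1 u hu)) r1.amem r1.heavy hchw.tail
    (hregw.sublist (List.sublist_cons_self _ _))
  have hW : W m E₁ (Q ++ [a₁]) ≤ β := by omega
  have hfnd : Fnd G m E₁ β w (Q ++ [a₁]) :=
    ⟨hpcw, Q ++ [a₁], [], by simp, hne, hW, Nat.zero_le _⟩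
  have hXC := (Fnd.subset_Phi C.mate hfnd).trans (h12 w)
  rw [(hmem2 w hwL2).2.1.1] at hXC
  exact (PCW.valid C.mate C.noalt h1.fam hpcw).2.1 hXC

omit [Finite V] in
private theorem light_Phi_subset_Psi (x : V) : Phi G m β D x ⊆ Psi G m β D x := by
  unfold Psi
  exact (subset_Phih x).trans ((subset_Phih x).trans (subset_Phih x))

private theorem light_Psi_heavy (hA : Fam G m (Phi G m β D)) (hB : Fam G m (Phih G m β (Phi G m β D)))
    (hC : Fam G m (Phih G m β (Phih G m β (Phi G m β D)))) {v : V} (hv : β ≤ (Psi G m β D v).ncard) :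
    β ≤ (Phi G m β D v).ncard := by
  by_contra hlt
  rw [not_le] at hlt
  have e1 : Phih G m β (Phi G m β D) v = Phi G m β D v := Phih_light hA hlt
  have e2 : Phih G m β (Phih G m β (Phi G m β D)) v = Phih G m β (Phi G m β D) v :=
    Phih_light hB (by rw [e1]; exact hlt)
  have e3 : Phih G m β (Phih G m β (Phih G m β (Phi G m β D))) v = Phih G m β (Phih G m β (Phi G m β D)) v :=
    Phih_light hC (by rw [e2, e1]; exact hlt)
  unfold Psi at hv
  rw [e3, e2, e1] at hv
  omega

omit [Finite V] in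
/-- A closed walk found at `z` contradicts that the region of `z` did not grow. -/
private theorem light_no_found (C : Ctx G m β t D₀ F s Y) {E : V → Set V} (hE : Fam G m E) {z : V} {L : List V}
    (hL : Fnd G m E β z L) (hsub : Phi G m β E z ⊆ E z) : False := by
  obtain ⟨⟨hne, hch, hreg⟩, _⟩ := id hL
  obtain ⟨c, L', rfl⟩ := List.exists_cons_of_ne_nil hne
  have hXC := hL.subset_Phi C.mate
  have hc : m c ∈ XC m E z (c :: L') := by
    refine Or.inr ?_
    simp only [Set.mem_iUnion]
    exact ⟨c, List.mem_cons_self, Or.inl (Or.inl (by simp))⟩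
  have hc' : m c ∈ E z := hsub (hXC hc)
  have harc : Arc G m E z c := by
    have : List.IsChain (Arc G m E) (z :: c :: (L' ++ [m z])) := by simpa using hch
    exact (List.isChain_cons_cons.1 this).1
  exact harc.2.2.2.1 hc'

/-- Job LIGHT. After two rounds and one more full step, light vertices have their largest region.
Proof. Write A₁ = Phi D₀, B₁ = Psi D₀, A₂ = Phi B₁, B₂ = Psi B₁, A₃ = Phi B₂ ⊆ F; z is light for A₃, hence for all of them, with region D₀ z. Suppose ¬ X ⊆ D₀ z. `light_alternative` for B₁ (hmax by `heavy_complete`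
at level A₁): a closed walk found at z for B₁ would give XC ⊆ A₂ z = D₀ z, contradiction; so a large run for B₁. In the same way a large run for B₂ (otherwise XC ⊆ A₃ z = D₀ z). `two_runs` (Phi B₁ = A₂ ⊆ B₂). -/
theorem light_complete (C : Ctx G m β t D₀ F s Y)
    (hF : ∀ x, Phi G m β (Psi G m β (Psi G m β D₀)) x ⊆ F x) {z : V} (hz : z ∈ insert s Y)
    (hlz : (Phi G m β (Psi G m β (Psi G m β D₀)) z).ncard < β) {X : Set V} (hX : Valid G m z X) (hXY : X ⊆ Y) :
    X ⊆ D₀ z := by
  by_contra hne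
  set A₁ := Phi G m β D₀ with hA₁
  set B₁ := Psi G m β D₀ with hB₁
  set A₂ := Phi G m β B₁ with hA₂
  set B₂ := Psi G m β B₁ with hB₂
  set A₃ := Phi G m β B₂ with hA₃
  have fA₁ : Fam G m A₁ := fam_Phi C.mate C.noalt C.fam₀
  have fA₁' : Fam G m (Phih G m β A₁) := fam_Phih C.mate C.noalt fA₁
  have fA₁'' : Fam G m (Phih G m β (Phih G m β A₁)) := fam_Phih C.mate C.noalt fA₁'
  have fB₁ : Fam G m B₁ := fam_Psi C.mate C.noalt C.fam₀
  have fA₂ : Fam G m A₂ := fam_Phi C.mate C.noalt fB₁
  have fA₂' : Fam G m (Phih G m β A₂) := fam_Phih C.mate C.noalt fA₂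
  have fA₂'' : Fam G m (Phih G m β (Phih G m β A₂)) := fam_Phih C.mate C.noalt fA₂'
  have fB₂ : Fam G m B₂ := fam_Psi C.mate C.noalt fB₁
  have fA₃ : Fam G m A₃ := fam_Phi C.mate C.noalt fB₂
  have s1 : ∀ x, A₁ x ⊆ B₁ x := fun x => light_Phi_subset_Psi x
  have s2 : ∀ x, B₁ x ⊆ A₂ x := fun x => subset_Phi x
  have s3 : ∀ x, A₂ x ⊆ B₂ x := fun x => light_Phi_subset_Psi x
  have s4 : ∀ x, B₂ x ⊆ A₃ x := fun x => subset_Phi x
  have lA₁ : Lvl G m β D₀ F A₁ :=
    ⟨fA₁, fun x => subset_rfl, fun x => ((s1 x).trans (s2 x)).trans (((s3 x).trans (s4 x)).trans (hF x))⟩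
  have lB₁ : Lvl G m β D₀ F B₁ := ⟨fB₁, s1, fun x => (s2 x).trans (((s3 x).trans (s4 x)).trans (hF x))⟩
  have lA₂ : Lvl G m β D₀ F A₂ := ⟨fA₂, fun x => (s1 x).trans (s2 x), fun x => ((s3 x).trans (s4 x)).trans (hF x)⟩
  have lB₂ : Lvl G m β D₀ F B₂ := ⟨fB₂, fun x => ((s1 x).trans (s2 x)).trans (s3 x), fun x => (s4 x).trans (hF x)⟩
  have lA₃ : Lvl G m β D₀ F A₃ :=
    ⟨fA₃, fun x => (((s1 x).trans (s2 x)).trans (s3 x)).trans (s4 x), fun x => hF x⟩
  have cB₂ : (B₂ z).ncard < β := (Set.ncard_le_ncard (s4 z) (Set.toFinite _)).trans_lt hlz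
  have cA₂ : (A₂ z).ncard < β := (Set.ncard_le_ncard (s3 z) (Set.toFinite _)).trans_lt cB₂
  have cB₁ : (B₁ z).ncard < β := (Set.ncard_le_ncard (s2 z) (Set.toFinite _)).trans_lt cA₂
  have eB₁ : B₁ z = D₀ z := lB₁.light C hz cB₁
  have eA₂ : A₂ z = D₀ z := lA₂.light C hz cA₂
  have eB₂ : B₂ z = D₀ z := lB₂.light C hz cB₂
  have eA₃ : A₃ z = D₀ z := lA₃.light C hz hlz
  have hmax₁ : ∀ v ∈ insert s Y, β ≤ (B₁ v).ncard → ∀ X, Valid G m v X → X ⊆ Y → X ⊆ B₁ v := by
    intro v hv hhv X hX hXY
    have hh : β ≤ (A₁ v).ncard := light_Psi_heavy fA₁ fA₁' fA₁'' hhv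
    exact heavy_complete C lA₁ (fun x => lB₁.le x) hv hh hX hXY
  have hmax₂ : ∀ v ∈ insert s Y, β ≤ (B₂ v).ncard → ∀ X, Valid G m v X → X ⊆ Y → X ⊆ B₂ v := by
    intro v hv hhv X hX hXY
    have hh : β ≤ (A₂ v).ncard := light_Psi_heavy fA₂ fA₂' fA₂'' hhv
    exact heavy_complete C lA₂ (fun x => lB₂.le x) hv hh hX hXY
  have h1 : ∃ L a, LRun G m β B₁ Y z L a := by
    rcases light_alternative C lB₁ hmax₁ hz cB₁ hX hXY (by rw [eB₁]; exact hne) with ⟨L, hL⟩ | h
    · exact (light_no_found C fB₁ hL (by change A₂ z ⊆ B₁ z; rw [eA₂, eB₁])).elim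
    · exact h
  have h2 : ∃ L a, LRun G m β B₂ Y z L a := by
    rcases light_alternative C lB₂ hmax₂ hz cB₂ hX hXY (by rw [eB₂]; exact hne) with ⟨L, hL⟩ | h
    · exact (light_no_found C fB₂ hL (by change A₃ z ⊆ B₂ z; rw [eA₃, eB₂])).elim
    · exact h
  obtain ⟨L₁, a₁, r1⟩ := h1
  obtain ⟨L₂, a₂, r2⟩ := h2
  exact two_runs C lB₁ lB₂ s3 hz cB₂ r1 r2

/-- Job LIGHT. **Stage theorem.** Proof: let Y be valid at s, closed under F = Psi (Psi (Psi D₀)), F s ⊆ Y, |Y| < β + t + 1. This gives a context. If s is heavy for A₃ = Phi (Psi (Psi D₀)): `heavy_complete` at level A₃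
gives Y ⊆ F s. If light: `light_complete` gives Y ⊆ D₀ s ⊆ F s. -/
theorem stage (hm : IsMate G m) (hU : NoAlt G m) {β t : ℕ} (hβ : 1 ≤ β) (ht : 5 * t ≤ β + 1) (hD : Fam G m D₀)
    (hc : Clsd G m β D₀) : Clsd G m (β + t + 1) (Psi G m β (Psi G m β (Psi G m β D₀))) := by
  intro s Y hY hcl hsub hcard
  have fB₁ : Fam G m (Psi G m β D₀) := fam_Psi hm hU hD
  have fB₂ : Fam G m (Psi G m β (Psi G m β D₀)) := fam_Psi hm hU fB₁
  have fF : Fam G m (Psi G m β (Psi G m β (Psi G m β D₀))) := fam_Psi hm hU fB₂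
  have C : Ctx G m β t D₀ (Psi G m β (Psi G m β (Psi G m β D₀))) s Y :=
    { mate := hm, noalt := hU, fam₀ := hD, clsd := hc, famF := fF, validY := hY, card := by omega
      sub := by
        intro v hv
        rcases Set.mem_insert_iff.1 hv with rfl | hv
        · exact hsub
        · exact hcl v hv
      hβ := hβ, ht := ht }
  have h0 : ∀ x, Phi G m β D₀ x ⊆ Phi G m β (Psi G m β (Psi G m β D₀)) x := fun x =>
    ((light_Phi_subset_Psi x).trans (subset_Phi x)).trans ((light_Phi_subset_Psi x).trans (subset_Phi x))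
  rcases le_or_gt β (Phi G m β (Psi G m β (Psi G m β D₀)) s).ncard with hh | hl
  · have lA₃ : Lvl G m β D₀ (Psi G m β (Psi G m β (Psi G m β D₀))) (Phi G m β (Psi G m β (Psi G m β D₀))) :=
      ⟨fam_Phi hm hU fB₂, h0, fun x => light_Phi_subset_Psi x⟩
    exact heavy_complete C lA₃ (fun x => subset_rfl) (Set.mem_insert s Y) hh hY subset_rfl
  · have h := light_complete C (fun x => light_Phi_subset_Psi x) (Set.mem_insert s Y) hl hY subset_rfl
    exact h.trans ((subset_Phi s).trans ((h0 s).trans (light_Phi_subset_Psi s)))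

end Pool.Agent.UPM
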