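import Pool.Agent.Lib.MP_0087d5_lc.UPM.Defs

/-!
# Elementary facts on mates, regular lists, mirrored lists, chains
-/

namespace Pool.Agent.UPM

variable {V : Type*} {G : SimpleGraph V} {m : V → V} {D : V → Set V}

theorem IsMate.ne (hm : IsMate G m) (x : V) : m x ≠ x := by
  intro h
  have := hm.adj x
  rw [h] at this
  exact G.loopless.irrefl x this

theorem IsMate.inj (hm : IsMate G m) : Function.Injective m := by
  intro a b h
  rw [← hm.invol a, h, hm.invol]

theorem IsMate.eq_iff (hm : IsMate G m) {x y : V} : m x = y ↔ x = m y := by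
  constructor
  · rintro rfl; rw [hm.invol]
  · rintro rfl; rw [hm.invol]

theorem Reg.sublist {L L' : List V} (h : Reg m L) (hs : L'.Sublist L) : Reg m L' := by
  exact List.Pairwise.sublist hs h

private theorem lst_symm (hm : IsMate G m) {a b : V} (h : b ≠ a ∧ b ≠ m a) : a ≠ b ∧ a ≠ m b :=
  ⟨fun h' => h.1 h'.symm, fun h' => h.2 (by rw [h', hm.invol])⟩

theorem Reg.perm (hm : IsMate G m) {L L' : List V} (h : Reg m L) (hp : L'.Perm L) : Reg m L' := by
  exact (hp.pairwise_iff (fun h => lst_symm hm h)).2 h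

/-- Being regular only depends on the matching edges: a member may be replaced by its mate. -/
theorem reg_map_iff (hm : IsMate G m) {L : List V} : Reg m (L.map m) ↔ Reg m L := by
  unfold Reg
  rw [List.pairwise_map]
  constructor
  · intro h
    refine h.imp ?_
    intro a b hab
    rw [hm.invol] at hab
    exact ⟨fun h' => hab.1 (by rw [h']), fun h' => hab.2 (by rw [h', hm.invol])⟩
  · intro h
    refine h.imp ?_
    intro a b hab
    rw [hm.invol]
    exact ⟨fun h' => hab.1 (hm.inj h'), fun h' => hab.2 (by rw [← h', hm.invol])⟩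

theorem reg_mir_iff (hm : IsMate G m) {L : List V} : Reg m (mir m L) ↔ Reg m L := by
  rw [← reg_map_iff hm (L := L)]
  unfold mir
  constructor
  · intro h
    exact h.perm hm (List.reverse_perm _).symm
  · intro h
    exact h.perm hm (List.reverse_perm _)

theorem reg_append (L L' : List V) :
    Reg m (L ++ L') ↔ Reg m L ∧ Reg m L' ∧ ∀ a ∈ L, ∀ b ∈ L', b ≠ a ∧ b ≠ m a := by
  exact List.pairwise_append

theorem reg_cons (a : V) (L : List V) : Reg m (a :: L) ↔ (∀ b ∈ L, b ≠ a ∧ b ≠ m a) ∧ Reg m L := by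
  exact List.pairwise_cons

theorem mir_nil : mir m [] = [] := rfl

theorem mir_mir (hm : IsMate G m) (L : List V) : mir m (mir m L) = L := by
  unfold mir
  rw [List.map_reverse, List.reverse_reverse, List.map_map]
  have h : m ∘ m = id := by
    funext x
    exact hm.invol x
  rw [h, List.map_id]

theorem mir_append (L L' : List V) : mir m (L ++ L') = mir m L' ++ mir m L := by
  simp [mir]

theorem mir_singleton (a : V) : mir m [a] = [m a] := rfl

theorem mir_cons (a : V) (L : List V) : mir m (a :: L) = mir m L ++ [m a] := by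
  simp [mir]

theorem mem_mir (hm : IsMate G m) {L : List V} {a : V} : a ∈ mir m L ↔ m a ∈ L := by
  unfold mir
  rw [List.mem_reverse, List.mem_map]
  constructor
  · rintro ⟨b, hb, rfl⟩
    rw [hm.invol]
    exact hb
  · intro h
    exact ⟨m a, h, hm.invol a⟩

theorem length_mir (L : List V) : (mir m L).length = L.length := by
  simp [mir]

theorem mir_ne_nil {L : List V} : mir m L ≠ [] ↔ L ≠ [] := by
  simp [mir]

theorem touch_comm (a b : V) : Touch G D a b ↔ Touch G D b a := by
  constructor
  · rintro ⟨u, hu, v, hv, h⟩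
    exact ⟨v, hv, u, hu, h.imp Eq.symm (fun h => SimpleGraph.Adj.symm h)⟩
  · rintro ⟨u, hu, v, hv, h⟩
    exact ⟨v, hv, u, hu, h.imp Eq.symm (fun h => SimpleGraph.Adj.symm h)⟩

theorem sim_comm (hm : IsMate G m) (a b : V) : Sim G m D a b ↔ Sim G m D b a := by
  have key : ∀ a b : V, Sim G m D a b → Sim G m D b a := by
    rintro a b ⟨h1, h2, h3, h4, h5⟩
    exact ⟨h1.symm, fun h => h2 (by rw [h, hm.invol]), h4, h3, (touch_comm a b).1 h5⟩
  exact ⟨key a b, key b a⟩

theorem PArc.mirror (hm : IsMate G m) {u v : V} (h : PArc G m u v) : PArc G m (m v) (m u) := by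
  refine ⟨?_, fun h' => h.2 (hm.inj h').symm⟩
  rw [hm.invol]
  exact SimpleGraph.Adj.symm h.1

theorem TArc.mirror (hm : IsMate G m) {u v : V} (h : TArc G m D u v) : TArc G m D (m v) (m u) := by
  unfold TArc at h ⊢
  rw [hm.invol]
  exact (touch_comm _ _).1 h

theorem Arc.mirror (hm : IsMate G m) {u v : V} (h : Arc G m D u v) : Arc G m D (m v) (m u) := by
  unfold Arc at h ⊢
  rw [hm.invol]
  exact (sim_comm hm _ _).1 h

theorem Arc.tarc {u v : V} (h : Arc G m D u v) : TArc G m D u v := h.2.2.2.2

theorem PArc.tarc {u v : V} (h : PArc G m u v) : TArc G m D u v :=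
  ⟨u, Set.mem_insert _ _, m v, Set.mem_insert _ _, Or.inr h.1⟩

/-- Mirroring a chain of a relation that is invariant under mirroring. -/
theorem chain_mir {R : V → V → Prop} (hR : ∀ a b, R a b → R (m b) (m a)) {L : List V}
    (h : List.IsChain R L) : List.IsChain R (mir m L) := by
  unfold mir
  rw [List.isChain_reverse, List.isChain_map]
  exact h.imp (fun a b => hR a b)

/-- A closed walk list mirrored is a closed walk list. -/
theorem chain_mir_closed (hm : IsMate G m) {R : V → V → Prop} (hR : ∀ a b, R a b → R (m b) (m a)) {L : List V}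
    {u v : V} (h : List.IsChain R (u :: (L ++ [v]))) : List.IsChain R (m v :: (mir m L ++ [m u])) := by
  have h1 := chain_mir (m := m) hR h
  have e : mir m (u :: (L ++ [v])) = m v :: (mir m L ++ [m u]) := by
    simp [mir]
  rw [e] at h1
  exact h1

theorem PCW.mirror (hm : IsMate G m) {s : V} {L : List V} (h : PCW G m D s L) : PCW G m D s (mir m L) := by
  obtain ⟨h1, h2, h3⟩ := h
  refine ⟨mir_ne_nil.2 h1, ?_, ?_⟩
  · have h4 := chain_mir_closed hm (R := Arc G m D) (fun a b hab => hab.mirror hm) h2
    rw [hm.invol] at h4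
    exact h4
  · rw [reg_cons] at h3 ⊢
    refine ⟨?_, (reg_mir_iff hm).2 h3.2⟩
    intro b hb
    have h5 := h3.1 (m b) ((mem_mir hm).1 hb)
    exact ⟨fun h' => h5.2 (by rw [h']), fun h' => h5.1 (by rw [h', hm.invol])⟩

private theorem lst_EX_mate (hm : IsMate G m) (z : V) : EX m D (m z) = EX m D z := by
  unfold EX
  rw [hm.invol, Set.pair_comm (m z) z, Set.union_assoc, Set.union_assoc, Set.union_comm (D (m z))]

theorem XC_mir (hm : IsMate G m) (s : V) (L : List V) : XC m D s (mir m L) = XC m D s L := by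
  unfold XC
  congr 1
  ext y
  simp only [Set.mem_iUnion, exists_prop]
  constructor
  · rintro ⟨z, hz, hy⟩
    exact ⟨m z, (mem_mir hm).1 hz, by rw [lst_EX_mate hm]; exact hy⟩
  · rintro ⟨z, hz, hy⟩
    exact ⟨m z, (mem_mir hm).2 (by rw [hm.invol]; exact hz), by rw [lst_EX_mate hm]; exact hy⟩

theorem EX_mate (hm : IsMate G m) (z : V) : EX m D (m z) = EX m D z := by
  exact lst_EX_mate hm z

/-- Closed walks with an arc chain have at least one inner node. -/
theorem ne_nil_of_chain_arc (hm : IsMate G m) {s : V} {L : List V}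
    (h : List.IsChain (Arc G m D) (s :: (L ++ [m s]))) : L ≠ [] := by
  rintro rfl
  rw [List.nil_append, List.isChain_pair] at h
  apply h.1
  rw [hm.invol]

/-- Cyclic rotation of a closed chain. -/
theorem chain_rotate {R : V → V → Prop} {a z : V} {P Q : List V}
    (h : List.IsChain R (a :: ((P ++ z :: Q) ++ [a]))) :
    List.IsChain R (z :: ((Q ++ a :: P) ++ [z])) := by
  have e1 : a :: ((P ++ z :: Q) ++ [a]) = (a :: P) ++ z :: (Q ++ [a]) := by simp
  have e2 : z :: ((Q ++ a :: P) ++ [z]) = (z :: Q) ++ a :: (P ++ [z]) := by simp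
  rw [e1, List.isChain_split] at h
  rw [e2, List.isChain_split]
  exact ⟨by simpa using h.2, by simpa using h.1⟩

end Pool.Agent.UPM
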