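import Pool.Agent.Lib.MP_0087d5_lc.UPM.Alg
import Pool.Agent.Lib.MP_0087d5_lc.UPM.DetNC
import Pool.Agent.Lib.MP_0087d5_lc.UPM.Compile

/-!
# Unique perfect matching is in NC
-/

namespace Pool.Agent.UPM

/-- The decision procedure: the candidate map is a mate map and passes the test. -/
def Decide (n : ℕ) (G : SimpleGraph (Fin n)) : Prop :=
  IsMate G (cmate G) ∧ Test G (cmate G) ((stgG G (cmate G) n)^[4 * Nat.size (n - 1)] (fun _ => ∅, min 1 (n - 1))).1

theorem decide_iff (n : ℕ) (G : SimpleGraph (Fin n)) : Decide n G ↔ ∃! M : G.Subgraph, M.IsPerfectMatching := by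
  have key : ∀ m : Fin n → Fin n, IsMate G m →
      (Test G m ((stgG G m n)^[4 * Nat.size (n - 1)] (fun _ => ∅, min 1 (n - 1))).1 ↔ NoAlt G m) := by
    intro m hm
    have h := testG_iff hm (n := n) (by simp)
    rcases Nat.lt_or_ge n 2 with hn | hn
    · interval_cases n
      · constructor
        · exact noAlt_of_test hm
        · intro _
          exact ⟨fun x => x.elim0, fun x => x.elim0, fun x => x.elim0⟩
      · exact absurd (Subsingleton.elim (m 0) 0) (hm.ne 0)
    · rw [min_eq_left (by omega)]
      exact h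
  rw [existsUnique_matching_iff]
  constructor
  · rintro ⟨hm, ht⟩
    refine ⟨cmate G, hm, fun m₂ hm₂ => ?_⟩
    by_contra hne
    obtain ⟨a, L, hL⟩ := exists_alt_of_ne hm hm₂ hne
    exact (key _ hm).1 ht a L hL
  · rintro ⟨m, hm, hu⟩
    have hc : cmate G = m := cmate_eq hm hu
    rw [Decide, hc]
    refine ⟨hm, (key _ hm).2 ?_⟩
    intro a L hL
    obtain ⟨m₂, hm₂, hne⟩ := exists_ne_of_alt hm hL
    exact hne (hu m₂ hm₂)

theorem ncp_decide : NCP GS GB Empty (fun n G _ => Decide n G) := by
  have h1 := al_main.pull (S' := GS) (B' := GB) (fun n G => (G, cmate G)) (by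
    intro ι hι P hP
    cases hP with
    | adj => exact NCP.base hι GB.adj
    | mate => exact dn_cmate)
  exact NCP.and dn_isMate h1

/-- **The unique perfect matching problem is in NC.** -/
theorem upm_in_NC : InNC (fun _ G => ∃! M : G.Subgraph, M.IsPerfectMatching) := by
  have h := inNC_of_NCP ncp_decide
  have he : (fun (n : ℕ) (G : SimpleGraph (Fin n)) => Decide n G) = (fun _ G => ∃! M : G.Subgraph, M.IsPerfectMatching) := by
    funext n G
    exact propext (decide_iff n G)
  rw [← he]
  exact h

end Pool.Agent.UPM
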