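import Pool.Agent.Lib.MP_0087d5_lc.UPM.Steps

/-!
# Closed walks with the fewest nodes

Job MINC. See notes section 7.
-/

namespace Pool.Agent.UPM

open Relation

variable {V : Type*} {G : SimpleGraph V} {m : V → V} {D : V → Set V}

theorem disj_pairwise_of_split {α : Type*} {R : α → α → Prop} {L : List α}
    (h : ∀ P Q a b, L = P ++ a :: Q → b ∈ Q → R a b) : L.Pairwise R := by
  induction L with
  | nil => exact List.Pairwise.nil
  | cons x L ih =>
    refine List.Pairwise.cons (fun b hb => h [] L x b rfl hb) (ih ?_)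
    intro P Q a b hL hb
    exact h (x :: P) Q a b (by rw [hL]; rfl) hb

theorem disj_reg_split {L : List V} (hreg : Reg m L) {P Q : List V} {a b : V} (hL : L = P ++ a :: Q) (hb : b ∈ Q) :
    b ≠ a ∧ b ≠ m a := by
  unfold Reg at hreg
  rw [hL, List.pairwise_append] at hreg
  have h2 := hreg.2.1
  rw [List.pairwise_cons] at h2
  exact h2.1 b hb

theorem disj_sum [Finite V] (f : V → Set V) {L : List V} (h : L.Pairwise (fun a b => Disjoint (f a) (f b))) :
    (L.map (fun z => (f z).ncard)).sum = (⋃ z ∈ L, f z).ncard := by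
  induction L with
  | nil => simp
  | cons a L ih =>
    rw [List.pairwise_cons] at h
    have e : (⋃ z ∈ a :: L, f z) = f a ∪ ⋃ z ∈ L, f z := by
      ext w
      simp
    rw [e, List.map_cons, List.sum_cons, ih h.2, Set.ncard_union_eq ?_ (Set.toFinite _) (Set.toFinite _)]
    rw [Set.disjoint_iUnion₂_right]
    exact h.1

theorem disj_W_le [Finite V] (L : List V) :
    W m D L ≤ (L.dropLast.map (fun z => (D z).ncard)).sum + (L.tail.map (fun z => (D (m z) ∪ {z, m z}).ncard)).sum := by
  induction L with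
  | nil => simp [W]
  | cons a L ih =>
    cases L with
    | nil => simp [W]
    | cons z L =>
      have h1 : cost m D a z ≤ (D a).ncard + (D (m z) ∪ {z, m z}).ncard := Set.ncard_union_le _ _
      show cost m D a z + W m D (z :: L) ≤ _
      simp only [List.dropLast_cons_cons, List.map_cons, List.sum_cons, List.tail_cons] at ih ⊢
      omega

/-- The B-parts of two members whose mates have regions that do not touch are disjoint. -/
theorem disj_B (hm : IsMate G m) (hD : Fam G m D) {a b : V} (h1 : b ≠ a) (h2 : b ≠ m a) (ht : ¬ Touch G D (m a) (m b)) :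
    Disjoint (D (m a) ∪ {a, m a}) (D (m b) ∪ {b, m b}) := by
  rw [Set.disjoint_left]
  intro x hx hx'
  apply ht
  have hA : x ∈ insert (m a) (D (m a)) ∨ x = a := by
    rcases hx with hx | hx | hx
    · exact Or.inl (Or.inr hx)
    · exact Or.inr hx
    · exact Or.inl (Or.inl hx)
  have hB : x ∈ insert (m b) (D (m b)) ∨ x = b := by
    rcases hx' with hx | hx | hx
    · exact Or.inl (Or.inr hx)
    · exact Or.inr hx
    · exact Or.inl (Or.inl hx)
  rcases hA with hA | hA
  · rcases hB with hB | hB
    · exact ⟨x, hA, x, hB, Or.inl rfl⟩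
    · subst hB
      rcases hA with hA | hA
      · exact absurd hA h2
      · exact ⟨m x, Or.inr ((hD.valid (m a)).closed x hA), m x, Or.inl rfl, Or.inl rfl⟩
  · subst hA
    rcases hB with hB | hB
    · rcases hB with hB | hB
      · exfalso
        apply h2
        rw [hB, hm.invol]
      · exact ⟨m x, Or.inl rfl, m x, Or.inr ((hD.valid (m b)).closed x hB), Or.inl rfl⟩
    · exact absurd hB.symm h1

/-- Job DISJ. The cost of a walk whose regions are pairwise disjoint is at most the size of a set containing them.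
More precisely: the F-part is the union of D z over all members but the last, the B-part the union of D z' ∪ {z, z'} over all members but the first. -/
theorem W_le_parts [Finite V] (hm : IsMate G m) (hD : Fam G m D) {L : List V} (hreg : Reg m L)
    (hF : ∀ P Q a b, L = P ++ a :: Q → b ∈ Q → b ∈ L.dropLast → Disjoint (D a) (D b))
    (hB : ∀ P Q a b, L = P ++ a :: Q → P ≠ [] → b ∈ Q → ¬ Touch G D (m a) (m b)) :
    W m D L ≤ (⋃ z ∈ L.dropLast, D z).ncard + (⋃ z ∈ L.tail, (D (m z) ∪ {z, m z})).ncard := by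
  refine (disj_W_le (m := m) (D := D) L).trans (le_of_eq ?_)
  congr 1
  · apply disj_sum
    apply disj_pairwise_of_split
    intro P Q a b hL hb
    have hne : L ≠ [] := by
      intro h
      rw [h] at hL
      simp at hL
    have hL' : L = P ++ a :: (Q ++ [L.getLast hne]) := by
      conv_lhs => rw [← List.dropLast_append_getLast hne, hL]
      simp
    refine hF P _ a b hL' (List.mem_append_left _ hb) ?_
    rw [hL]
    simp [hb]
  · apply disj_sum (fun z => D (m z) ∪ {z, m z})
    apply disj_pairwise_of_split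
    intro P Q a b hL hb
    cases L with
    | nil => simp at hL
    | cons h t =>
      rw [List.tail_cons] at hL
      have hL' : h :: t = (h :: P) ++ a :: Q := by rw [hL]; rfl
      have hr := disj_reg_split hreg hL' hb
      exact disj_B hm hD hr.1 hr.2 (hB (h :: P) Q a b hL' (by simp) hb)

/-- the closed walks considered in `exists_min_closed` -/
def MincP (G : SimpleGraph V) (m : V → V) (D : V → Set V) (N : Set V) (v s : V) (L : List V) : Prop :=
  s ∈ insert v N ∧ (∀ z ∈ L, z ∈ N) ∧ List.IsChain (Arc G m D) (s :: (L ++ [m s]))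

/-- ... with the fewest nodes -/
def MincM (G : SimpleGraph V) (m : V → V) (D : V → Set V) (N : Set V) (v s : V) (L : List V) : Prop :=
  MincP G m D N v s L ∧ ∀ s' L', MincP G m D N v s' L' → L.length ≤ L'.length

/-- an initial part of a chain -/
theorem minc_chain_left {R : V → V → Prop} {A B : List V} {b : V} (h : List.IsChain R (A ++ b :: B)) :
    List.IsChain R (A ++ [b]) := by
  have e : A ++ b :: B = (A ++ [b]) ++ B := by simp
  rw [e] at h
  exact (List.isChain_append.1 h).1

theorem minc_chain_right {R : V → V → Prop} {A B : List V} (h : List.IsChain R (A ++ B)) : List.IsChain R B :=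
  (List.isChain_append.1 h).2.1

theorem minc_chain_glue {R : V → V → Prop} {A B : List V} {b : V} (h1 : List.IsChain R (A ++ [b])) (h2 : List.IsChain R (b :: B)) :
    List.IsChain R (A ++ b :: B) := by
  rw [List.isChain_append] at h1 ⊢
  refine ⟨h1.1, h2, ?_⟩
  intro x hx y hy
  have hy' : b = y := by simpa using hy
  exact h1.2.2 x hx y (by simpa using hy')

theorem minc_reg {N : Set V} {v s : V} {L : List V} (h : MincM G m D N v s L) : Reg m (s :: L) := by
  obtain ⟨⟨hs, hL, hch⟩, hmin⟩ := h
  apply disj_pairwise_of_split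
  intro P Q a b hsplit hb
  obtain ⟨Q1, Q2, rfl⟩ := List.append_of_mem hb
  cases P with
  | nil =>
    rw [List.nil_append] at hsplit
    obtain ⟨rfl, hLQ⟩ := List.cons.inj hsplit
    rw [hLQ] at hch hmin hL
    constructor
    · rintro rfl
      have h1 : List.IsChain (Arc G m D) (b :: (Q2 ++ [m b])) := by
        have e : b :: ((Q1 ++ b :: Q2) ++ [m b]) = (b :: Q1) ++ (b :: (Q2 ++ [m b])) := by simp
        rw [e] at hch
        exact minc_chain_right hch
      have h2 := hmin b Q2 ⟨hs, fun z hz => hL z (by simp [hz]), h1⟩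
      simp at h2
      omega
    · rintro rfl
      have h1 : List.IsChain (Arc G m D) (s :: (Q1 ++ [m s])) := by
        have e : s :: ((Q1 ++ m s :: Q2) ++ [m s]) = (s :: Q1) ++ m s :: (Q2 ++ [m s]) := by simp
        rw [e] at hch
        exact minc_chain_left hch
      have h2 := hmin s Q1 ⟨hs, fun z hz => hL z (by simp [hz]), h1⟩
      simp at h2
  | cons p P' =>
    rw [List.cons_append] at hsplit
    obtain ⟨rfl, hLQ⟩ := List.cons.inj hsplit
    rw [hLQ] at hch hmin hL
    constructor
    · rintro rfl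
      have h1 : List.IsChain (Arc G m D) (s :: ((P' ++ b :: Q2) ++ [m s])) := by
        have e : s :: ((P' ++ b :: (Q1 ++ b :: Q2)) ++ [m s]) = (s :: P') ++ b :: (Q1 ++ b :: (Q2 ++ [m s])) := by simp
        rw [e] at hch
        have h3 := minc_chain_left hch
        have e2 : (s :: P') ++ b :: (Q1 ++ b :: (Q2 ++ [m s])) = ((s :: P') ++ b :: Q1) ++ b :: (Q2 ++ [m s]) := by simp
        rw [e2] at hch
        have h4 := minc_chain_right hch
        have h5 := minc_chain_glue h3 h4
        simpa using h5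
      have h2 := hmin s (P' ++ b :: Q2) ⟨hs, fun z hz => hL z (by
        rcases List.mem_append.1 hz with hz | hz
        · exact List.mem_append_left _ hz
        · rcases List.mem_cons.1 hz with hz | hz
          · simp [hz]
          · simp [hz]), h1⟩
      simp at h2
      omega
    · rintro rfl
      have h1 : List.IsChain (Arc G m D) (a :: (Q1 ++ [m a])) := by
        have e : s :: ((P' ++ a :: (Q1 ++ m a :: Q2)) ++ [m s]) = (s :: P') ++ ((a :: Q1) ++ m a :: (Q2 ++ [m s])) := by simp
        rw [e] at hch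
        exact minc_chain_left (minc_chain_right hch)
      have h2 := hmin a Q1 ⟨Or.inr (hL a (by simp)), fun z hz => hL z (by simp [hz]), h1⟩
      simp at h2
      omega

theorem minc_mir (hm : IsMate G m) {N : Set V} (hN : ∀ z ∈ N, m z ∈ N) {v s : V} {L : List V} (h : MincM G m D N v s L) :
    MincM G m D N v s (mir m L) := by
  obtain ⟨⟨hs, hL, hch⟩, hmin⟩ := h
  refine ⟨⟨hs, ?_, ?_⟩, ?_⟩
  · intro z hz
    rw [mem_mir hm] at hz
    have h1 := hN _ (hL _ hz)
    rwa [hm.invol] at h1
  · have h1 := chain_mir_closed (m := m) hm (R := Arc G m D) (fun a b hab => hab.mirror hm) hch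
    rwa [hm.invol] at h1
  · intro s' L' h'
    rw [length_mir]
    exact hmin s' L' h'

/-- a subwalk -/
theorem minc_sub {s : V} {L P Q1 Q2 : List V} {a b : V} {t : V} (hch : List.IsChain (Arc G m D) (s :: (L ++ [t])))
    (hL : L = P ++ a :: (Q1 ++ b :: Q2)) : List.IsChain (Arc G m D) (a :: (Q1 ++ [b])) := by
  rw [hL] at hch
  have e : s :: ((P ++ a :: (Q1 ++ b :: Q2)) ++ [t]) = (s :: P) ++ ((a :: Q1) ++ b :: (Q2 ++ [t])) := by simp
  rw [e] at hch
  exact minc_chain_left (minc_chain_right hch)

theorem minc_sub_reg {s : V} {L P Q1 Q2 : List V} {a b : V} (hreg : Reg m (s :: L))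
    (hL : L = P ++ a :: (Q1 ++ b :: Q2)) : Reg m (a :: (Q1 ++ [b])) := by
  refine hreg.sublist ?_
  rw [hL]
  have e : s :: (P ++ a :: (Q1 ++ b :: Q2)) = (s :: P) ++ ((a :: (Q1 ++ [b])) ++ Q2) := by simp
  rw [e]
  exact ((List.sublist_append_left _ _).trans (List.sublist_append_right _ _))

theorem minc_alpha [Finite V] (hm : IsMate G m) (hU : NoAlt G m) (hD : Fam G m D) {N : Set V} {v s : V} {L : List V}
    (h : MincM G m D N v s L) {P Q : List V} {a b : V} (hL : L = P ++ a :: Q) (hb : b ∈ Q) : ¬ Touch G D a b := by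
  intro ht
  have hreg := minc_reg h
  obtain ⟨⟨hs, hLN, hch⟩, hmin⟩ := h
  obtain ⟨Q1, Q2, rfl⟩ := List.append_of_mem hb
  have h1 := minc_sub hch hL
  have h2 := minc_sub_reg hreg hL
  have hne : Q1 ++ [b] ≠ [] := by simp
  obtain ⟨L', L'', he, hp⟩ := touch_initial hm hU hD hne h1 h2 (by
    have e : (Q1 ++ [b]).getLast hne = b := by simp
    rw [e]
    exact ht)
  have hsub : ∀ z ∈ L', z ∈ N := by
    intro z hz
    have hz2 : z ∈ Q1 ++ [b] := by
      rw [he]
      exact List.mem_append_left _ hz
    refine hLN z ?_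
    rw [hL]
    rcases List.mem_append.1 hz2 with h3 | h3
    · simp [h3]
    · rw [List.mem_singleton.1 h3]
      simp
  have h3 := hmin a L' ⟨Or.inr (hLN a (by rw [hL]; simp)), hsub, hp.2.1⟩
  have h4 : (Q1 ++ [b]).length = L'.length + L''.length := by
    rw [he, List.length_append]
  rw [hL] at h3
  simp at h3 h4
  omega

theorem minc_beta [Finite V] (hm : IsMate G m) (hU : NoAlt G m) (hD : Fam G m D) {N : Set V} (hN : ∀ z ∈ N, m z ∈ N) {v s : V} {L : List V}
    (h : MincM G m D N v s L) {P Q : List V} {a b : V} (hL : L = P ++ a :: Q) (hb : b ∈ Q) : ¬ Touch G D (m a) (m b) := by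
  obtain ⟨Q1, Q2, rfl⟩ := List.append_of_mem hb
  have hmir : mir m L = mir m Q2 ++ m b :: (mir m Q1 ++ m a :: mir m P) := by
    rw [hL, mir_append, mir_cons, mir_append, mir_cons]
    simp
  intro ht
  exact minc_alpha hm hU hD (minc_mir hm hN h) hmir (by simp) ((touch_comm _ _).1 ht)

theorem minc_gamma [Finite V] (hm : IsMate G m) (hU : NoAlt G m) (hD : Fam G m D) {N : Set V} (hN : ∀ z ∈ N, m z ∈ N) {v s : V} {L : List V}
    (h : MincM G m D N v s L) {P Q R : List V} {a b : V} (hL : L = P ++ a :: (Q ++ b :: R)) (hQ : Q ≠ []) : ¬ Touch G D a (m b) := by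
  intro ht
  have hreg := minc_reg h
  have hα := minc_alpha hm hU hD h hL (b := b) (by simp)
  have hβ := minc_beta hm hU hD hN h hL (b := b) (by simp)
  have hr : b ≠ a ∧ b ≠ m a := by
    refine disj_reg_split hreg (P := s :: P) (Q := Q ++ b :: R) ?_ (by simp)
    rw [hL]
    rfl
  obtain ⟨⟨hs, hLN, hch⟩, hmin⟩ := h
  have harc : Arc G m D a b := by
    refine ⟨?_, ?_, ?_, ?_, ht⟩
    · intro h1
      apply hr.2
      rw [h1, hm.invol]
    · rw [hm.invol]
      exact fun h1 => hr.1 h1.symm
    · intro h1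
      exact hβ ⟨m a, Or.inl rfl, m a, Or.inr ((hD.valid (m b)).closed a h1), Or.inl rfl⟩
    · intro h1
      have h2 := (hD.valid a).closed (m b) h1
      rw [hm.invol] at h2
      exact hα ⟨b, Or.inr h2, b, Or.inl rfl, Or.inl rfl⟩
  have h1 : List.IsChain (Arc G m D) (s :: ((P ++ a :: b :: R) ++ [m s])) := by
    rw [hL] at hch
    have e : s :: ((P ++ a :: (Q ++ b :: R)) ++ [m s]) = (s :: P) ++ a :: (Q ++ b :: (R ++ [m s])) := by simp
    rw [e] at hch
    have h3 := minc_chain_left hch
    have e2 : (s :: P) ++ a :: (Q ++ b :: (R ++ [m s])) = ((s :: P) ++ a :: Q) ++ b :: (R ++ [m s]) := by simp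
    rw [e2] at hch
    have h4 := minc_chain_right hch
    have h5 : List.IsChain (Arc G m D) (a :: b :: (R ++ [m s])) := List.isChain_cons_cons.2 ⟨harc, h4⟩
    have h6 := minc_chain_glue h3 h5
    simpa using h6
  have h2 := hmin s (P ++ a :: b :: R) ⟨hs, fun z hz => hLN z (by
    rw [hL]
    simp only [List.mem_append, List.mem_cons] at hz ⊢
    tauto), h1⟩
  have h3 : 0 < Q.length := List.length_pos_iff.2 hQ
  rw [hL] at h2
  simp only [List.length_append, List.length_cons] at h2
  omega

theorem minc_delta [Finite V] (hm : IsMate G m) (hU : NoAlt G m) (hD : Fam G m D) {N : Set V} {v s : V} {L : List V}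
    (h : MincM G m D N v s L) {P Q : List V} {a b : V} (hL : L = P ++ a :: Q) (hb : b ∈ Q) : ¬ Touch G D b (m a) := by
  have hreg := minc_reg h
  obtain ⟨⟨hs, hLN, hch⟩, hmin⟩ := h
  obtain ⟨Q1, Q2, rfl⟩ := List.append_of_mem hb
  have h1 := minc_sub hch hL
  have h2 := minc_sub_reg hreg hL
  exact gc_touch hm hU hD (h1.imp (fun _ _ hab => hab.tarc)) h2

/-- union of the sets J over the arcs of a walk -/
def MincJ (m : V → V) (D : V → Set V) : List V → Set V
  | [] => ∅
  | [_] => ∅
  | a :: z :: L => J m D a z ∪ MincJ m D (z :: L)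

theorem minc_mem_MincJ {K : List V} {w : V} (h : w ∈ MincJ m D K) : ∃ P x y Q, K = P ++ x :: y :: Q ∧ w ∈ J m D x y := by
  induction K with
  | nil => exact absurd h (Set.notMem_empty w)
  | cons a K ih =>
    cases K with
    | nil => exact absurd h (Set.notMem_empty w)
    | cons z K =>
      rcases h with h | h
      · exact ⟨[], a, z, K, rfl, h⟩
      · obtain ⟨P, x, y, Q, he, hw⟩ := ih h
        exact ⟨a :: P, x, y, Q, by rw [he]; rfl, hw⟩

/-- disjointness of the parts of two arcs -/
theorem minc_disj [Finite V] (hm : IsMate G m) (hU : NoAlt G m) (hD : Fam G m D) {N : Set V} (hN : ∀ z ∈ N, m z ∈ N) {v s : V} {L : List V}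
    (h : MincM G m D N v s L) {P0 K' : List V} {a z : V} (hL : L = P0 ++ a :: z :: K') : Disjoint (J m D a z) (MincJ m D (z :: K')) := by
  rw [Set.disjoint_left]
  intro w hw hw'
  obtain ⟨P1, x, y, Q1, he, hxy⟩ := minc_mem_MincJ hw'
  have hreg := minc_reg h
  have hx : x ∈ z :: K' := by
    rw [he]
    simp
  have hyK : y ∈ K' := by
    cases P1 with
    | nil =>
      rw [List.nil_append] at he
      rw [(List.cons.inj he).2]
      simp
    | cons p P1 =>
      rw [List.cons_append] at he
      rw [(List.cons.inj he).2]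
      simp
  have hLz : L = (P0 ++ [a]) ++ z :: K' := by rw [hL]; simp
  have hαx := minc_alpha hm hU hD h hL hx
  have hαy : ¬ Touch G D a y := minc_alpha hm hU hD h hL (List.mem_cons_of_mem _ hyK)
  have hγ : ¬ Touch G D a (m y) := by
    have hL2 : L = P0 ++ a :: ((P1 ++ [x]) ++ y :: Q1) := by
      rw [hL, he]
      simp
    exact minc_gamma hm hU hD hN h hL2 (by simp)
  have hβ : ¬ Touch G D (m z) (m y) := minc_beta hm hU hD hN h hLz hyK
  have hr : y ≠ z ∧ y ≠ m z := by
    refine disj_reg_split hreg (P := s :: (P0 ++ [a])) (Q := K') ?_ hyK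
    rw [hLz]
    rfl
  rcases hw with hw | hw
  · rcases hxy with hxy | hxy
    · exact hαx ⟨w, Or.inr hw, w, Or.inr hxy, Or.inl rfl⟩
    · rcases hxy with hxy | hxy | hxy
      · exact hγ ⟨w, Or.inr hw, w, Or.inr hxy, Or.inl rfl⟩
      · exact hαy ⟨w, Or.inr hw, w, Or.inl hxy, Or.inl rfl⟩
      · exact hγ ⟨w, Or.inr hw, w, Or.inl hxy, Or.inl rfl⟩
  · rcases hxy with hxy | hxy
    · rcases List.mem_cons.1 hx with hxz | hxz
      · subst hxz
        rcases hw with hw | hw | hw
        · exact Set.disjoint_left.1 (mates_disjoint hm hU hD x) (Or.inr hxy) (Or.inr hw)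
        · rw [hw] at hxy
          exact (hD.valid x).nmem hxy
        · exact Set.disjoint_left.1 (mates_disjoint hm hU hD x) (Or.inr hxy) (Or.inl hw)
      · have hδ : ¬ Touch G D x (m z) := minc_delta hm hU hD h hLz hxz
        rcases hw with hw | hw | hw
        · exact hδ ⟨w, Or.inr hxy, w, Or.inr hw, Or.inl rfl⟩
        · rw [hw] at hxy
          exact hδ ⟨m z, Or.inr ((hD.valid x).closed z hxy), m z, Or.inl rfl, Or.inl rfl⟩
        · exact hδ ⟨w, Or.inr hxy, w, Or.inl hw, Or.inl rfl⟩
    · exact Set.disjoint_left.1 (disj_B hm hD hr.1 hr.2 hβ) hw hxy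

theorem minc_W [Finite V] (hm : IsMate G m) (hU : NoAlt G m) (hD : Fam G m D) {N : Set V} (hN : ∀ z ∈ N, m z ∈ N) {v s : V} {L : List V}
    (h : MincM G m D N v s L) {K : List V} : ∀ {P0 : List V}, L = P0 ++ K → W m D K = (MincJ m D K).ncard := by
  induction K with
  | nil =>
    intro P0 _
    simp [W, MincJ]
  | cons a K ih =>
    intro P0 hL
    cases K with
    | nil => simp [W, MincJ]
    | cons z K =>
      have h1 := minc_disj hm hU hD hN h hL
      have h2 := ih (P0 := P0 ++ [a]) (by rw [hL]; simp)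
      show cost m D a z + W m D (z :: K) = (J m D a z ∪ MincJ m D (z :: K)).ncard
      rw [Set.ncard_union_eq h1 (Set.toFinite _) (Set.toFinite _), h2]
      rfl

/-- Job MINC. Let N be a closed set of vertices. If there is a closed walk (weakly regular or not) with base in insert v N and nodes in N, then there
is a proper one whose cost is at most the size of its span.
Proof: take such a closed walk s, L = [z_1,…,z_k] with the fewest nodes.
(R) s :: L is regular: if z_i = z_j (i < j) cut; if z_j = z_i' then z_i → … → z_j is a closed walk at z_i ∈ N with fewer nodes; z_i = s: drop the initial part;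
z_i = s': drop the final part.
(α) for i < j: ¬ Touch z_i z_j: otherwise `touch_initial` gives a closed walk at z_i with at most j - i < k nodes.
(β) for i < j: ¬ Touch z_i' z_j': the mirrored closed walk also has the fewest nodes.
(γ) for i + 2 ≤ j: ¬ Touch z_i z_j': a containment z_j' ∈ D z_i (resp. z_i ∈ D z_j') contradicts (α) (resp. (β)); otherwise Arc z_i z_j is a shortcut.
(δ) for j ≤ i: D z_i and D z_j' ∪ {z_j, z_j'} are disjoint by `gc_touch`, `mates_disjoint`.
Hence the sets J z_i z_{i+1} (1 ≤ i < k) are pairwise disjoint subsets of XC, and W L is the sum of their sizes. -/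
theorem exists_min_closed [Finite V] (hm : IsMate G m) (hU : NoAlt G m) (hD : Fam G m D) {N : Set V} (hN : ∀ z ∈ N, m z ∈ N) {v s : V} {L : List V}
    (hs : s ∈ insert v N) (hL : ∀ z ∈ L, z ∈ N) (h : List.IsChain (Arc G m D) (s :: (L ++ [m s]))) :
    ∃ s₀ L₀, s₀ ∈ insert v N ∧ (∀ z ∈ L₀, z ∈ N) ∧ PCW G m D s₀ L₀ ∧ W m D L₀ ≤ (XC m D s₀ L₀).ncard := by
  classical
  have hex : ∃ n : ℕ, ∃ s' L', MincP G m D N v s' L' ∧ L'.length = n := ⟨L.length, s, L, ⟨hs, hL, h⟩, rfl⟩
  obtain ⟨s₀, L₀, hP, hlen⟩ := Nat.find_spec hex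
  have hM : MincM G m D N v s₀ L₀ := by
    refine ⟨hP, fun s' L' h' => ?_⟩
    rw [hlen]
    exact Nat.find_min' hex ⟨s', L', h', rfl⟩
  refine ⟨s₀, L₀, hP.1, hP.2.1, ⟨ne_nil_of_chain_arc hm hP.2.2, hP.2.2, minc_reg hM⟩, ?_⟩
  rw [minc_W hm hU hD hN hM (K := L₀) (P0 := []) rfl]
  apply Set.ncard_le_ncard ?_ (Set.toFinite _)
  intro w hw
  obtain ⟨P, x, y, Q, he, hxy⟩ := minc_mem_MincJ hw
  have hx : x ∈ L₀ := by rw [he]; simp
  have hy : y ∈ L₀ := by rw [he]; simp
  unfold XC
  refine Or.inr ?_
  rw [Set.mem_iUnion₂]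
  rcases hxy with hxy | hxy | hxy
  · exact ⟨x, hx, Or.inl (Or.inr hxy)⟩
  · exact ⟨y, hy, Or.inr hxy⟩
  · exact ⟨y, hy, Or.inl (Or.inl hxy)⟩

end Pool.Agent.UPM
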