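import Mathlib

/-!
# Uniform Boolean circuits of bounded fan-in and polylogarithmic depth

A circuit family has finitely many tags; the gates of the n-th circuit with tag `t` are the tuples of numbers from {0,…,n-1} indexed by the finite
type `A t` (so there are polynomially many gates). The wires are first-order definable in the structures ({0,…,n-1}; ≤, +): this is
first-order uniformity, which implies logarithmic space uniformity. A gate either reads one entry of the adjacency matrix, or computes the NAND of its inputs.
-/

namespace Pool.Agent.UPM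

/-- First-order definable families of relations on {0,…,n-1} with order and addition; `ι` is the type of the free variables. -/
inductive FODef : (ι : Type) → (∀ n : ℕ, (ι → Fin n) → Prop) → Prop
  | le {ι : Type} (i j : ι) : FODef ι (fun _ x => x i ≤ x j)
  | add {ι : Type} (i j k : ι) : FODef ι (fun _ x => (x i : ℕ) + (x j : ℕ) = (x k : ℕ))
  | not {ι : Type} {P : ∀ n : ℕ, (ι → Fin n) → Prop} : FODef ι P → FODef ι (fun n x => ¬ P n x)
  | and {ι : Type} {P Q : ∀ n : ℕ, (ι → Fin n) → Prop} : FODef ι P → FODef ι Q → FODef ι (fun n x => P n x ∧ Q n x)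
  | ex {ι : Type} {P : ∀ n : ℕ, (Option ι → Fin n) → Prop} :
      FODef (Option ι) P → FODef ι (fun n x => ∃ a : Fin n, P n (fun o => o.elim a x))

/-- A first-order uniform family of circuits with NAND gates, for graphs given by their adjacency matrices. -/
structure CircuitFamily where
  /-- the tags -/
  T : Type
  finT : Finite T
  /-- the gates with tag `t` of the n-th circuit are the tuples `A t → Fin n` -/
  A : T → Type
  finA : ∀ t, Finite (A t)
  /-- `inp t = some (i, j)`: the gates `(t, x)` read the entry `(x i, x j)` of the adjacency matrix -/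
  inp : ∀ t, Option (A t × A t)
  /-- `wire a b n x y`: gate `(b, y)` is an input of gate `(a, x)` -/
  wire : ∀ (a b : T) (n : ℕ), (A a → Fin n) → (A b → Fin n) → Prop
  uniform : ∀ a b, FODef (A a ⊕ A b) (fun n z => wire a b n (fun i => z (Sum.inl i)) (fun i => z (Sum.inr i)))
  /-- the output gate -/
  out : T
  outA : IsEmpty (A out)

/-- Gates of the n-th circuit. -/
def CircuitFamily.Gate (C : CircuitFamily) (n : ℕ) : Type := Σ t : C.T, (C.A t → Fin n)

/-- `h` is an input of `g`. -/
def CircuitFamily.Wire (C : CircuitFamily) (n : ℕ) (g h : C.Gate n) : Prop := C.wire g.1 h.1 n g.2 h.2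

/-- The output gate. -/
def CircuitFamily.outGate (C : CircuitFamily) (n : ℕ) : C.Gate n := ⟨C.out, fun i => (C.outA.false i).elim⟩

/-- `v` is a correct assignment of truth values to the gates on the input graph `G`. -/
def CircuitFamily.Consistent (C : CircuitFamily) (n : ℕ) (G : SimpleGraph (Fin n)) (v : C.Gate n → Prop) : Prop :=
  ∀ g : C.Gate n, v g ↔
    match C.inp g.1 with
    | some (i, j) => G.Adj (g.2 i) (g.2 j)
    | none => ¬ ∀ h, C.Wire n g h → v h

/-- Every gate has at most two inputs. -/
def CircuitFamily.FanInTwo (C : CircuitFamily) (n : ℕ) : Prop :=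
  ∀ g h₁ h₂ h₃ : C.Gate n, C.Wire n g h₁ → C.Wire n g h₂ → C.Wire n g h₃ → h₁ = h₂ ∨ h₁ = h₃ ∨ h₂ = h₃

/-- The circuit has depth at most `d`: the gates can be put on levels 0,…,d such that wires go to lower levels. -/
def CircuitFamily.DepthLE (C : CircuitFamily) (n d : ℕ) : Prop :=
  ∃ lev : C.Gate n → ℕ, (∀ g, lev g ≤ d) ∧ ∀ g h, C.Wire n g h → lev h < lev g

/-- The graph property `P` is decided by a first-order uniform family of Boolean circuits of polynomial size, fan-in two and depth
`O((log n)^k)` for some `k`. -/
def InNC (P : ∀ n : ℕ, SimpleGraph (Fin n) → Prop) : Prop :=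
  ∃ (C : CircuitFamily) (c k : ℕ), ∀ n, C.FanInTwo n ∧ C.DepthLE n (c * (Nat.log 2 n + 1) ^ k) ∧
    ∀ G : SimpleGraph (Fin n), (∃ v, C.Consistent n G v) ∧ ∀ v, C.Consistent n G v → (v (C.outGate n) ↔ P n G)

end Pool.Agent.UPM
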