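import Pool.Agent.Lib.MP_0087d5_lc.UPM.Cyc

/-!
# Removing containments

Jobs RED1, RED2, REACH. See notes section 4.
-/

namespace Pool.Agent.UPM

open Relation

variable {V : Type*} {G : SimpleGraph V} {m : V → V} {D : V → Set V}

private theorem red1_dec {s t : V} {L l1 l2 : List V} {a b : V} (hL : L ≠ [])
    (e : s :: (L ++ [t]) = l1 ++ a :: b :: l2) :
    (∃ P, b = t ∧ L = P ++ [a]) ∨ (∃ Q, a = s ∧ L = b :: Q) ∨ (∃ P Q, L = P ++ a :: b :: Q) := by
  rcases List.eq_nil_or_concat l2 with rfl | ⟨l2', c, rfl⟩
  · have e1 : (s :: L) ++ [t] = (l1 ++ [a]) ++ [b] := by simpa using e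
    have e2 := List.append_inj' e1 rfl
    have hb : b = t := by simpa using e2.2.symm
    rcases l1 with _ | ⟨x, l1'⟩
    · exfalso
      have := e2.1
      simp at this
      exact hL this.2
    · have := e2.1
      simp at this
      exact Or.inl ⟨l1', hb, this.2⟩
  · have e1 : (s :: L) ++ [t] = (l1 ++ a :: b :: l2') ++ [c] := by simpa using e
    have e2 := List.append_inj' e1 rfl
    rcases l1 with _ | ⟨x, l1'⟩
    · have := e2.1
      simp at this
      exact Or.inr (Or.inl ⟨l2', this.1.symm, this.2⟩)
    · have := e2.1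
      simp at this
      exact Or.inr (Or.inr ⟨l1', l2', this.2⟩)

private theorem red1_chain {R : V → V → Prop} {s t : V} {P Q : List V} {z : V}
    (hch : List.IsChain R (s :: ((P ++ z :: Q) ++ [t])))
    (ht : R ((s :: P).getLast (List.cons_ne_nil _ _)) ((Q ++ [t]).head (by simp))) :
    List.IsChain R (s :: ((P ++ Q) ++ [t])) := by
  have e1 : s :: ((P ++ z :: Q) ++ [t]) = (s :: P) ++ (z :: (Q ++ [t])) := by simp
  have e2 : s :: ((P ++ Q) ++ [t]) = (s :: P) ++ (Q ++ [t]) := by simp
  rw [e1, List.isChain_append] at hch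
  rw [e2, List.isChain_append]
  refine ⟨hch.1, hch.2.1.tail, ?_⟩
  intro x hx y hy
  rw [List.getLast?_eq_getLast_of_ne_nil (List.cons_ne_nil _ _), Option.mem_some_iff] at hx
  rw [List.head?_eq_some_head (by simp), Option.mem_some_iff] at hy
  rw [← hx, ← hy]
  exact ht

/-- Touch is monotone in both regions. -/
private theorem red1_touch {a a' b b' : V} (ha : insert a (D a) ⊆ insert a' (D a'))
    (hb : insert b (D b) ⊆ insert b' (D b')) (h : Touch G D a b) : Touch G D a' b' := by
  obtain ⟨u, hu, v, hv, h⟩ := h
  exact ⟨u, ha hu, v, hb hv, h⟩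

private theorem red1_sub (hD : Fam G m D) {z u : V} (h : z ∈ D u) : insert z (D z) ⊆ insert u (D u) := by
  intro x hx
  rcases hx with rfl | hx
  · exact Or.inr h
  · exact Or.inr (hD.trans u z h hx)

private theorem red1_EX (hD : Fam G m D) {z u : V} (h : z ∈ D u) : EX m D z ⊆ D u := by
  have h' : m z ∈ D u := (hD.valid u).closed z h
  rintro x ((hx | hx) | hx)
  · rcases hx with rfl | hx
    · exact h
    · rw [Set.mem_singleton_iff] at hx
      rw [hx]
      exact h'
  · exact hD.trans u z h hx
  · exact hD.trans u (m z) h' hx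

/-- Job RED1. From a closed walk with weak arcs one gets a proper closed walk by removing nodes, and it still covers p.
Proof: strong induction on the length of L. `valid_XC` gives s ∉ D z, s ∉ D z' for z in L. If all consecutive pairs (u, z) of s :: (L ++ [s']) satisfy z' ∉ D u and u ∉ D z'
then L is a proper closed walk (the other conditions of `Sim` follow from regularity; for the last arc use Touch (last) s).
Otherwise a consecutive pair (u, z) violates this. Case z' ∈ D u, equivalently z ∈ D u (z is not s', since for z = s' this reads s ∈ D u, excluded): remove z. The successor v of z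
satisfies Touch u v' because insert z (D z) ⊆ D u. Case u ∈ D z' (u ≠ s): remove u: for the predecessor t of u, Touch t z' because insert u' (D u') ⊆ D z'.
For z = s' (the end), z' = s, the second case reads u ∈ D s: remove u. The set EX of the removed node is contained in D u, resp. D z', so p is still
in XC of the shorter list (if the list became empty then XC = D s, contradiction with p ∉ D s). -/
theorem red_closed [Finite V] (hm : IsMate G m) (hU : NoAlt G m) (hD : Fam G m D) {s p : V} {L : List V} (hL : L ≠ [])
    (hch : List.IsChain (TArc G m D) (s :: (L ++ [m s]))) (hreg : Reg m (s :: L)) (hp : p ∈ XC m D s L) (hps : p ∉ D s) :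
    ∃ L', L'.Sublist L ∧ PCW G m D s L' ∧ p ∈ XC m D s L' := by
  induction hn : L.length using Nat.strong_induction_on generalizing L with
  | _ n ih =>
  subst hn
  have hv := valid_XC hm hU hD hL hch hreg
  have hs : ∀ z ∈ L, s ∉ D z ∧ s ∉ D (m z) := by
    intro z hz
    have h1 : EX m D z ⊆ XC m D s L := by
      intro x hx
      exact Or.inr (Set.mem_biUnion hz hx)
    exact ⟨fun h => hv.nmem (h1 (Or.inl (Or.inr h))), fun h => hv.nmem (h1 (Or.inr h))⟩
  have key : ∀ (P : List V) (z : V) (Q : List V), L = P ++ z :: Q →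
      (z ∈ D ((s :: P).getLast (List.cons_ne_nil _ _)) ∨ z ∈ D (m ((Q ++ [m s]).head (by simp)))) →
      ∃ L', L'.Sublist L ∧ PCW G m D s L' ∧ p ∈ XC m D s L' := by
    intro P z Q e hz
    subst e
    have hbase : ∃ y, z ∈ D y ∧ D y ⊆ XC m D s (P ++ Q) := by
      rcases hz with hz | hz
      · refine ⟨_, hz, ?_⟩
        rcases List.eq_nil_or_concat P with rfl | ⟨P', c, rfl⟩
        · intro x hx
          exact Or.inl hx
        · have : (s :: (P' ++ [c])).getLast (List.cons_ne_nil _ _) = c := by
            simp [List.getLast_cons]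
          simp only [List.concat_eq_append] at hz ⊢
          rw [this]
          intro x hx
          exact Or.inr (Set.mem_biUnion (show c ∈ (P' ++ [c]) ++ Q by simp) (Or.inl (Or.inr hx)))
      · refine ⟨_, hz, ?_⟩
        rcases Q with _ | ⟨c, Q'⟩
        · simp only [List.nil_append, List.head_cons, hm.invol]
          intro x hx
          exact Or.inl hx
        · simp only [List.cons_append, List.head_cons]
          intro x hx
          exact Or.inr (Set.mem_biUnion (show c ∈ P ++ c :: Q' by simp) (Or.inr hx))
    obtain ⟨y, hzy, hyX⟩ := hbase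
    have hsub : XC m D s (P ++ z :: Q) ⊆ XC m D s (P ++ Q) := by
      rintro x (hx | hx)
      · exact Or.inl hx
      · simp only [Set.mem_iUnion] at hx
        obtain ⟨w, hw, hx⟩ := hx
        by_cases hwz : w = z
        · subst hwz
          exact hyX (red1_EX hD hzy hx)
        · have : w ∈ P ++ Q := by
            simp only [List.mem_append, List.mem_cons] at hw ⊢
            tauto
          exact Or.inr (Set.mem_biUnion this hx)
    have hp' := hsub hp
    have hne : P ++ Q ≠ [] := by
      intro h0
      rw [h0] at hp'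
      rcases hp' with hp' | hp'
      · exact hps hp'
      · simp at hp'
    have hsl : (P ++ Q).Sublist (P ++ z :: Q) :=
      List.Sublist.append (List.Sublist.refl _) (List.sublist_cons_self _ _)
    -- the new chain
    have e1 : s :: ((P ++ z :: Q) ++ [m s]) = (s :: P) ++ (z :: (Q ++ [m s])) := by simp
    have hch1 := hch
    rw [e1, List.isChain_append] at hch1
    have hT1 : TArc G m D ((s :: P).getLast (List.cons_ne_nil _ _)) z := by
      apply hch1.2.2
      · rw [List.getLast?_eq_getLast_of_ne_nil (List.cons_ne_nil _ _)]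
        rfl
      · rfl
    have hT2 : TArc G m D z ((Q ++ [m s]).head (by simp)) := by
      have := hch1.2.1
      rw [List.isChain_cons] at this
      apply this.1
      rw [List.head?_eq_some_head (by simp)]
      rfl
    have hT : TArc G m D ((s :: P).getLast (List.cons_ne_nil _ _)) ((Q ++ [m s]).head (by simp)) := by
      rcases hz with hz | hz
      · exact red1_touch (red1_sub hD hz) subset_rfl hT2
      · exact red1_touch subset_rfl (red1_sub hD ((hD.valid _).closed _ hz)) hT1
    obtain ⟨L', h1, h2, h3⟩ := ih (P ++ Q).length (by simp) hne (red1_chain hch hT)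
      (hreg.sublist (hsl.cons_cons s)) hp' rfl
    exact ⟨L', h1.trans hsl, h2, h3⟩
  by_cases hgood : ∀ a b l1 l2, s :: (L ++ [m s]) = l1 ++ a :: b :: l2 → m b ∉ D a ∧ a ∉ D (m b)
  · refine ⟨L, List.Sublist.refl _, ⟨hL, ?_, hreg⟩, hp⟩
    rw [List.isChain_iff_forall_rel_of_append_cons_cons]
    intro a b l1 l2 e
    have hT := List.isChain_iff_forall_rel_of_append_cons_cons.mp hch e
    obtain ⟨g1, g2⟩ := hgood a b l1 l2 e
    have hne : a ≠ m b ∧ a ≠ b := by
      rcases red1_dec hL e with ⟨P, hb, hP⟩ | ⟨Q, ha, hQ⟩ | ⟨P, Q, hPQ⟩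
      · have ha : a ∈ L := by rw [hP]; simp
        have := ((reg_cons s L).mp hreg).1 a ha
        rw [hb, hm.invol]
        exact this
      · have hb : b ∈ L := by rw [hQ]; simp
        have := ((reg_cons s L).mp hreg).1 b hb
        rw [ha]
        refine ⟨fun h => this.2 ?_, this.1.symm⟩
        rw [h, hm.invol]
      · have h1 := ((reg_cons s L).mp hreg).2
        rw [hPQ, reg_append] at h1
        have := ((reg_cons _ _).mp h1.2.1).1 b (by simp)
        refine ⟨fun h => this.2 ?_, this.1.symm⟩
        rw [h, hm.invol]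
    exact ⟨hne.1, by rw [hm.invol]; exact hne.2, g2, g1, hT⟩
  · push Not at hgood
    obtain ⟨a, b, l1, l2, e, hbad⟩ := hgood
    have hbad' : m b ∈ D a ∨ a ∈ D (m b) := by
      by_cases h : m b ∈ D a
      · exact Or.inl h
      · exact Or.inr (hbad h)
    rcases red1_dec hL e with ⟨P, hb, hP⟩ | ⟨Q, ha, hQ⟩ | ⟨P, Q, hPQ⟩
    · have ha : a ∈ L := by rw [hP]; simp
      rw [hb, hm.invol] at hbad'
      rcases hbad' with h | h
      · exact absurd h (hs a ha).1
      · apply key P a [] hP
        right
        simpa [hm.invol] using h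
    · have hb : b ∈ L := by rw [hQ]; simp
      rw [ha] at hbad'
      rcases hbad' with h | h
      · apply key [] b Q hQ
        left
        have h2 := (hD.valid s).closed _ h
        rw [hm.invol] at h2
        simpa using h2
      · exact absurd h (hs b hb).2
    · rcases hbad' with h | h
      · apply key (P ++ [a]) b Q (by rw [hPQ]; simp)
        left
        have h2 := (hD.valid a).closed _ h
        rw [hm.invol] at h2
        simpa [List.getLast_cons] using h2
      · apply key P a (b :: Q) hPQ
        right
        simpa using h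

private theorem red2_touch {a b b' : V} (h : insert b (D b) ⊆ insert b' (D b')) (ht : Touch G D a b) :
    Touch G D a b' := by
  obtain ⟨u, hu, v, hv, h1⟩ := ht
  exact ⟨u, hu, v, h hv, h1⟩

private theorem red2_sub (hD : Fam G m D) {b c : V} (h : b ∈ D c) : insert b (D b) ⊆ D c :=
  Set.insert_subset h (hD.trans c b h)

private theorem red2_sub' (hD : Fam G m D) {b c : V} (h : b ∈ insert c (D c)) :
    insert b (D b) ⊆ insert c (D c) := by
  rcases h with rfl | h
  · exact subset_rfl
  · exact (red2_sub hD h).trans (Set.subset_insert _ _)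

private theorem red2_mate (hD : Fam G m D) {b c : V} (h : b ∈ D c) : m b ∈ D c :=
  (hD.valid c).closed b h

private theorem red2_mate_iff (hm : IsMate G m) (hD : Fam G m D) {b c : V} : m b ∈ D c ↔ b ∈ D c :=
  ⟨fun h => by have := red2_mate hD h; rwa [hm.invol] at this, fun h => red2_mate hD h⟩

private theorem red2_aux (hm : IsMate G m) (hD : Fam G m D) {x y : V} : ∀ (n : ℕ) (T : List V), T.length ≤ n →
    List.IsChain (TArc G m D) (x :: T) → Reg m (x :: T) → (∀ z ∈ T, x ∉ D (m z)) →
    (∃ l, (x :: T).getLast? = some l ∧ y ∈ insert l (D l)) →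
    ∃ A, A.Sublist T ∧ List.IsChain (Arc G m D) (x :: A) ∧
      ∃ l, (x :: A).getLast? = some l ∧ y ∈ insert l (D l) := by
  intro n
  induction n with
  | zero =>
    intro T hT hch hreg hx hy
    have : T = [] := List.length_eq_zero_iff.1 (Nat.le_zero.1 hT)
    subst this
    exact ⟨[], List.Sublist.refl _, List.isChain_singleton _, hy⟩
  | succ n ih =>
    intro T hT hch hreg hx hy
    by_cases hA : List.IsChain (Arc G m D) (x :: T)
    · exact ⟨T, List.Sublist.refl _, hA, hy⟩
    rw [List.isChain_iff_forall_rel_of_append_cons_cons] at hA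
    push Not at hA
    obtain ⟨u, z, P, Q, hPQ, hnot⟩ := hA
    rw [hPQ] at hch hreg
    have htarc : TArc G m D u z := by
      rw [List.isChain_iff_forall_rel_of_append_cons_cons] at hch
      exact hch rfl
    have hreg' := hreg
    rw [reg_append] at hreg'
    obtain ⟨-, hreg2, -⟩ := hreg'
    rw [reg_cons] at hreg2
    have hzu := hreg2.1 z (List.mem_cons_self ..)
    have hcase : z ∈ D u ∨ u ∈ D (m z) := by
      by_contra hcon
      push Not at hcon
      apply hnot
      refine ⟨?_, ?_, hcon.2, ?_, htarc⟩
      · intro h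
        exact hzu.2 (by rw [h, hm.invol])
      · rw [hm.invol]
        exact fun h => hzu.1 h.symm
      · rw [red2_mate_iff hm hD]
        exact hcon.1
    rw [List.isChain_split] at hch
    obtain ⟨hch1, hch2⟩ := hch
    rw [List.isChain_cons_cons] at hch2
    rcases hcase with hzD | huD
    · -- remove z
      have hnew : List.IsChain (TArc G m D) (P ++ u :: Q) := by
        rw [List.isChain_split]
        refine ⟨hch1, ?_⟩
        cases Q with
        | nil => exact List.isChain_singleton _
        | cons v Q' =>
          have h3 := hch2.2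
          rw [List.isChain_cons_cons] at h3 ⊢
          refine ⟨?_, h3.2⟩
          have h4 : Touch G D z (m v) := h3.1
          rw [touch_comm] at h4
          have h5 : Touch G D u (m v) := by
            rw [touch_comm]
            exact red2_touch ((red2_sub hD hzD).trans (Set.subset_insert _ _)) h4
          exact h5
      have hsub : (P ++ u :: Q).Sublist (P ++ u :: z :: Q) :=
        (List.Sublist.refl P).append (List.Sublist.cons_cons u (List.sublist_cons_self z Q))
      have hregn : Reg m (P ++ u :: Q) := hreg.sublist hsub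
      have hlast : ∃ l, (P ++ u :: Q).getLast? = some l ∧ y ∈ insert l (D l) := by
        obtain ⟨l, hl, hyl⟩ := hy
        rw [hPQ] at hl
        cases Q with
        | nil =>
          refine ⟨u, by simp, ?_⟩
          have : l = z := by
            simp at hl
            exact hl.symm
          subst this
          exact Set.mem_insert_of_mem _ (red2_sub hD hzD hyl)
        | cons v Q' =>
          refine ⟨l, ?_, hyl⟩
          rw [← hl]
          simp [List.getLast?_append]
      cases P with
      | nil =>
        simp only [List.nil_append, List.cons.injEq] at hPQ hnew hregn hlast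
        obtain ⟨rfl, rfl⟩ := hPQ
        obtain ⟨A, hA1, hA2, hA3⟩ := ih Q (by simp at hT; omega) hnew hregn
          (fun w hw => hx w (List.mem_cons_of_mem _ hw)) hlast
        exact ⟨A, hA1.trans (List.sublist_cons_self _ _), hA2, hA3⟩
      | cons x' P' =>
        simp only [List.cons_append, List.cons.injEq] at hPQ hnew hregn hlast
        obtain ⟨rfl, rfl⟩ := hPQ
        have hsub' : (P' ++ u :: Q).Sublist (P' ++ u :: z :: Q) :=
          (List.Sublist.refl P').append (List.Sublist.cons_cons u (List.sublist_cons_self z Q))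
        obtain ⟨A, hA1, hA2, hA3⟩ := ih (P' ++ u :: Q)
          (by simp at hT ⊢; omega) hnew hregn (fun w hw => hx w (hsub'.subset hw)) hlast
        exact ⟨A, hA1.trans hsub', hA2, hA3⟩
    · -- remove u
      rcases List.eq_nil_or_concat P with rfl | ⟨P', t, rfl⟩
      · exfalso
        simp only [List.nil_append, List.cons.injEq] at hPQ
        obtain ⟨rfl, rfl⟩ := hPQ
        exact hx z (List.mem_cons_self ..) huD
      · have e1 : ∀ R : List V, (P' ++ [t]) ++ R = P' ++ t :: R := by
          intro R; simp
        rw [List.concat_eq_append, e1] at hPQ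
        rw [List.concat_eq_append, e1] at hch1 hreg
        rw [List.isChain_split] at hch1
        obtain ⟨hc1, hc2⟩ := hch1
        rw [List.isChain_cons_cons] at hc2
        have hnew : List.IsChain (TArc G m D) (P' ++ t :: z :: Q) := by
          rw [List.isChain_split]
          refine ⟨hc1, ?_⟩
          rw [List.isChain_cons_cons]
          refine ⟨?_, hch2.2⟩
          have h4 : Touch G D t (m u) := hc2.1
          have h5 : Touch G D t (m z) :=
            red2_touch ((red2_sub hD (red2_mate hD huD)).trans (Set.subset_insert _ _)) h4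
          exact h5
        have hsub : ∀ P₀ : List V, (P₀ ++ t :: z :: Q).Sublist (P₀ ++ t :: u :: z :: Q) := fun P₀ =>
          (List.Sublist.refl P₀).append (List.Sublist.cons_cons t (List.sublist_cons_self u (z :: Q)))
        have hregn : Reg m (P' ++ t :: z :: Q) := hreg.sublist (hsub P')
        have hlast : ∃ l, (P' ++ t :: z :: Q).getLast? = some l ∧ y ∈ insert l (D l) := by
          obtain ⟨l, hl, hyl⟩ := hy
          rw [hPQ] at hl
          refine ⟨l, ?_, hyl⟩
          rw [← hl]
          simp [List.getLast?_append]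
        cases P' with
        | nil =>
          simp only [List.nil_append, List.cons.injEq] at hPQ hnew hregn hlast
          obtain ⟨rfl, rfl⟩ := hPQ
          obtain ⟨A, hA1, hA2, hA3⟩ := ih (z :: Q) (by simp at hT ⊢; omega) hnew hregn
            (fun w hw => hx w (List.mem_cons_of_mem _ hw)) hlast
          exact ⟨A, hA1.trans (List.sublist_cons_self _ _), hA2, hA3⟩
        | cons x' P'' =>
          simp only [List.cons_append, List.cons.injEq] at hPQ hnew hregn hlast
          obtain ⟨rfl, rfl⟩ := hPQ
          obtain ⟨A, hA1, hA2, hA3⟩ := ih (P'' ++ t :: z :: Q)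
            (by simp at hT ⊢; omega) hnew hregn (fun w hw => hx w ((hsub P'').subset hw)) hlast
          exact ⟨A, hA1.trans (hsub P''), hA2, hA3⟩

/-- Job RED2. The same for open walks. Proof: strong induction on the length, as in `red_closed`. Removing the last member z because z ∈ D u
makes u the last member and keeps y in its region. -/
theorem red_open (hm : IsMate G m) (hD : Fam G m D) {x y : V} {T : List V}
    (hch : List.IsChain (TArc G m D) (x :: T)) (hreg : Reg m (x :: T)) (hx : ∀ z ∈ T, x ∉ D (m z))
    (hy : y ∈ insert ((x :: T).getLast (List.cons_ne_nil _ _)) (D ((x :: T).getLast (List.cons_ne_nil _ _)))) :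
    ∃ A, A.Sublist T ∧ List.IsChain (Arc G m D) (x :: A) ∧
      y ∈ insert ((x :: A).getLast (List.cons_ne_nil _ _)) (D ((x :: A).getLast (List.cons_ne_nil _ _))) := by
  obtain ⟨A, hA1, hA2, l, hl, hyl⟩ := red2_aux hm hD T.length T le_rfl hch hreg hx
    ⟨_, List.getLast?_eq_some_getLast (List.cons_ne_nil x T), hy⟩
  refine ⟨A, hA1, hA2, ?_⟩
  rw [List.getLast?_eq_some_getLast (List.cons_ne_nil x A), Option.some.injEq] at hl
  rw [hl]
  exact hyl

/-- Job RED2. If the end of a regular walk touches its start, an initial part of the walk closes up.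
Proof: let c be the last member of L. If a ∈ D c then Touch c a', excluded by `gc_touch`. If c ∈ D a: let l be the first member of L lying in D a, L = P ++ l :: Q; P ≠ []
because the first arc a → z gives z' ∉ D a; the last member u of P satisfies u ∉ D a, and Touch u l' gives Touch u a since insert l' (D l') ⊆ D a; a ∉ D u by
`gc_touch` (a ∈ D u gives a' ∈ D u, so Touch u a'); so Arc u a' and P is a proper closed walk at a. Otherwise Arc c a' and L itself works. -/
theorem touch_initial [Finite V] (hm : IsMate G m) (hU : NoAlt G m) (hD : Fam G m D) {a : V} {L : List V} (hL : L ≠ [])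
    (hch : List.IsChain (Arc G m D) (a :: L)) (hreg : Reg m (a :: L)) (ht : Touch G D a (L.getLast hL)) :
    ∃ L' L'', L = L' ++ L'' ∧ PCW G m D a L' := by
  have hT : List.IsChain (TArc G m D) (a :: L) := hch.imp fun _ _ h => h.tarc
  -- ends of initial walks
  have hend : ∀ P Q : List V, ∀ u : V, L = (P ++ [u]) ++ Q → ¬ Touch G D u (m a) ∧ a ∉ D u ∧
      u ≠ a ∧ u ≠ m a := by
    intro P Q u hL'
    rw [hL'] at hT hreg
    have e1 : a :: ((P ++ [u]) ++ Q) = (a :: (P ++ [u])) ++ Q := rfl
    rw [e1] at hT hreg
    have h1 : List.IsChain (TArc G m D) (a :: (P ++ [u])) := hT.left_of_append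
    have h2 : Reg m (a :: (P ++ [u])) := ((reg_append _ _).1 hreg).1
    have h3 := gc_touch hm hU hD h1 h2
    refine ⟨h3, fun h4 => h3 ?_, ?_⟩
    · exact ⟨m a, Set.mem_insert_of_mem _ (red2_mate hD h4), m a, Set.mem_insert _ _, Or.inl rfl⟩
    · rw [reg_cons] at h2
      exact h2.1 u (by simp)
  obtain ⟨L0, c, hLc⟩ : ∃ L0 c, L = L0 ++ [c] := by
    rcases List.eq_nil_or_concat L with h | ⟨L0, c, h⟩
    · exact absurd h hL
    · exact ⟨L0, c, by rw [h, List.concat_eq_append]⟩
  have hc : L.getLast hL = c := by
    subst hLc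
    simp
  rw [hc] at ht
  obtain ⟨e1, e2, e3, e4⟩ := hend L0 [] c (by rw [hLc, List.append_nil])
  by_cases hcD : c ∈ D a
  · -- the first member in `D a`
    classical
    obtain ⟨P, l, Q, hPQ, hl, hP⟩ : ∃ P l Q, L = P ++ l :: Q ∧ l ∈ D a ∧ ∀ p ∈ P, p ∉ D a := by
      have hex : ∀ M : List V, (∃ z ∈ M, z ∈ D a) → ∃ P l Q, M = P ++ l :: Q ∧ l ∈ D a ∧
          ∀ p ∈ P, p ∉ D a := by
        intro M
        induction M with
        | nil =>
          rintro ⟨z, hz, -⟩
          cases hz
        | cons b M ih =>
          rintro ⟨z, hz, hzD⟩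
          by_cases hb : b ∈ D a
          · exact ⟨[], b, M, rfl, hb, by simp⟩
          · have : ∃ z ∈ M, z ∈ D a := by
              rcases List.mem_cons.1 hz with rfl | hz
              · exact absurd hzD hb
              · exact ⟨z, hz, hzD⟩
            obtain ⟨P, l, Q, h1, h2, h3⟩ := ih this
            refine ⟨b :: P, l, Q, by rw [h1]; rfl, h2, ?_⟩
            intro p hp
            rcases List.mem_cons.1 hp with rfl | hp
            · exact hb
            · exact h3 p hp
      exact hex L ⟨c, by rw [hLc]; simp, hcD⟩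
    rcases List.eq_nil_or_concat P with rfl | ⟨P', u, hPu⟩
    · exfalso
      rw [hPQ, List.nil_append, List.isChain_cons_cons] at hch
      exact hch.1.2.2.2.1 (red2_mate hD hl)
    · rw [List.concat_eq_append] at hPu
      subst hPu
      have hLP : L = (P' ++ [u]) ++ (l :: Q) := hPQ
      obtain ⟨f1, f2, f3, f4⟩ := hend P' (l :: Q) u hLP
      have huD : u ∉ D a := hP u (by simp)
      refine ⟨P' ++ [u], l :: Q, hLP, by simp, ?_, ?_⟩
      · have h1 : List.IsChain (Arc G m D) (a :: (P' ++ u :: l :: Q)) := by
          have : a :: L = a :: (P' ++ u :: l :: Q) := by rw [hLP]; simp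
          rw [← this]
          exact hch
        have e5 : a :: (P' ++ u :: l :: Q) = (a :: P') ++ u :: l :: Q := rfl
        rw [e5, List.isChain_split, List.isChain_cons_cons] at h1
        obtain ⟨h2, h3, -⟩ := h1
        have e6 : a :: (P' ++ [u] ++ [m a]) = (a :: P') ++ u :: [m a] := by simp
        rw [e6, List.isChain_split]
        refine ⟨h2, ?_⟩
        rw [List.isChain_cons_cons]
        refine ⟨?_, List.isChain_singleton _⟩
        show Sim G m D u (m (m a))
        rw [hm.invol]
        refine ⟨f3, f4, huD, f2, ?_⟩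
        exact red2_touch ((red2_sub hD (red2_mate hD hl)).trans (Set.subset_insert _ _)) h3.2.2.2.2
      · rw [hLP] at hreg
        have e5 : a :: ((P' ++ [u]) ++ (l :: Q)) = (a :: (P' ++ [u])) ++ (l :: Q) := rfl
        rw [e5] at hreg
        exact ((reg_append _ _).1 hreg).1
  · refine ⟨L, [], (List.append_nil L).symm, hL, ?_, hreg⟩
    subst hLc
    have e6 : a :: (L0 ++ [c] ++ [m a]) = (a :: L0) ++ c :: [m a] := by simp
    have e5 : a :: (L0 ++ [c]) = (a :: L0) ++ [c] := rfl
    rw [e6, List.isChain_split]
    refine ⟨by rw [← e5]; exact hch, ?_⟩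
    rw [List.isChain_cons_cons]
    refine ⟨?_, List.isChain_singleton _⟩
    show Sim G m D c (m (m a))
    rw [hm.invol]
    exact ⟨e3, e4, hcD, e2, (touch_comm _ _).1 ht⟩

private theorem reach_split {R R' : V → V → Prop} : ∀ {l : List V}, List.IsChain R l → ¬ List.IsChain R' l →
    ∃ P u v Q, l = P ++ u :: v :: Q ∧ R u v ∧ ¬ R' u v
  | [], _, h' => absurd List.IsChain.nil h'
  | [a], _, h' => absurd (List.IsChain.singleton a) h'
  | a :: b :: l, h, h' => by
    rw [List.isChain_cons_cons] at h h'
    by_cases hab : R' a b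
    · have h2 : ¬ List.IsChain R' (b :: l) := fun hh => h' ⟨hab, hh⟩
      obtain ⟨P, u, v, Q, he, h3, h4⟩ := reach_split h.2 h2
      exact ⟨a :: P, u, v, Q, by rw [he]; rfl, h3, h4⟩
    · exact ⟨[], a, b, l, rfl, h.1, hab⟩

/-- The graph with the extra edge between `a` and `b`. -/
private def reachH (G : SimpleGraph V) (a b : V) (hab : a ≠ b) : SimpleGraph V where
  Adj u v := G.Adj u v ∨ (u = a ∧ v = b) ∨ (u = b ∧ v = a)
  symm := ⟨by
    intro u v h
    rcases h with h | h | h
    · exact Or.inl h.symm
    · exact Or.inr (Or.inr ⟨h.2, h.1⟩)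
    · exact Or.inr (Or.inl ⟨h.2, h.1⟩)⟩
  loopless := ⟨by
    intro u h
    rcases h with h | h | h
    · exact G.loopless.irrefl u h
    · exact hab (h.1.symm.trans h.2)
    · exact hab (h.2.symm.trans h.1)⟩

private theorem reach_core (hm : IsMate G m) {x y : V} {X : Set V} (hxy : m x ≠ y) {T : List V}
    (hch : List.IsChain (PArc (reachH G (m x) y hxy) m) (x :: (T ++ [y]))) (hreg : Reg m (x :: (T ++ [y])))
    (hZ : ∀ z ∈ T, z ∈ insert x (insert (m x) X)) :
    ∃ L, List.IsChain (PArc G m) (x :: (L ++ [y])) ∧ Reg m (x :: (L ++ [y])) ∧ ∀ z ∈ L, z ∈ X := by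
  rw [reg_cons] at hreg
  refine ⟨T, ?_, (reg_cons _ _).2 hreg, ?_⟩
  · by_contra hcon
    obtain ⟨P, u, v, Q, he, h1, h2⟩ := reach_split hch hcon
    have hu : u ∈ x :: (T ++ [y]) := by rw [he]; simp
    have hv : v ∈ T ++ [y] := by
      cases P with
      | nil =>
        simp only [List.nil_append, List.cons.injEq] at he
        rw [he.2]; simp
      | cons p P' =>
        simp only [List.cons_append, List.cons.injEq] at he
        rw [he.2]; simp
    have hu' : u ≠ m x := by
      intro h
      rcases List.mem_cons.1 hu with h3 | h3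
      · exact hm.ne x (h.symm.trans h3)
      · exact (hreg.1 u h3).2 h
    have hv' : v ≠ x := (hreg.1 v hv).1
    rcases h1 with ⟨h1, h3⟩
    rcases h1 with h1 | h1 | h1
    · exact h2 ⟨h1, h3⟩
    · exact hu' h1.1
    · exact hv' (hm.inj h1.2)
  · intro z hz
    have h1 := hreg.1 z (List.mem_append_left _ hz)
    rcases hZ z hz with h | h | h
    · exact absurd h h1.1
    · exact absurd h h1.2
    · exact h

private theorem reach_cut (hm : IsMate G m) {R R' : V → V → Prop} {Z : Set V} {a : V} {L : List V} (hL : L ≠ [])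
    (hch : List.IsChain R (a :: (L ++ [a]))) (hreg : Reg m (a :: L)) (hZ : ∀ z ∈ a :: L, z ∈ Z)
    (hn : ¬ List.IsChain R' (a :: (L ++ [a]))) :
    ∃ v T u, List.IsChain R (v :: (T ++ [u])) ∧ Reg m (v :: (T ++ [u])) ∧ (∀ z ∈ v :: (T ++ [u]), z ∈ Z) ∧
      R u v ∧ ¬ R' u v := by
  obtain ⟨P, u, v, Q, he, h1, h2⟩ := reach_split hch hn
  rcases List.eq_nil_or_concat Q with hQ | ⟨Q', q, hQ⟩
  · subst hQ
    have he' : (a :: L) ++ [a] = (P ++ [u]) ++ [v] := by
      simpa using he
    have h3 := List.append_inj' he' rfl
    have h4 : a = v := by simpa using h3.2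
    subst h4
    cases P with
    | nil =>
      exfalso
      have h5 : a :: L = [u] := by simpa using h3.1
      rw [List.cons.injEq] at h5
      exact hL h5.2
    | cons p P' =>
      have h5 : a = p ∧ L = P' ++ [u] := by
        have := h3.1
        simpa using this
      obtain ⟨h6, h7⟩ := h5
      subst h7
      refine ⟨a, P', u, ?_, hreg, hZ, h1, h2⟩
      have h8 : (a :: (P' ++ [u] ++ [a])) = (a :: (P' ++ [u])) ++ [a] := by simp
      rw [h8] at hch
      exact hch.left_of_append
  · rw [List.concat_eq_append] at hQ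
    subst hQ
    have he' : (a :: L) ++ [a] = (P ++ u :: v :: Q') ++ [q] := by
      simpa using he
    have h3 := List.append_inj' he' rfl
    obtain ⟨P', hP'⟩ : ∃ P', L = P' ++ v :: Q' ∧ a :: P' = P ++ [u] := by
      cases P with
      | nil =>
        refine ⟨[], ?_⟩
        have := h3.1
        simpa [and_comm] using this
      | cons p P' =>
        refine ⟨P' ++ [u], ?_⟩
        have := h3.1
        simp only [List.cons_append, List.cons.injEq] at this
        rw [this.1, this.2]
        simp
    obtain ⟨h4, h5⟩ := hP'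
    subst h4
    have h6 := chain_rotate hch
    refine ⟨v, Q' ++ P, u, ?_, ?_, ?_, h1, h2⟩
    · rw [h5] at h6
      have h8 : (v :: (Q' ++ (P ++ [u]) ++ [v])) = (v :: (Q' ++ P ++ [u])) ++ [v] := by simp
      rw [h8] at h6
      exact h6.left_of_append
    · apply hreg.perm hm
      have h9 : (v :: (Q' ++ P ++ [u])) = v :: (Q' ++ (a :: P')) := by
        rw [h5]; simp
      rw [h9]
      have h10 : (a :: (P' ++ v :: Q')) = (a :: P') ++ (v :: Q') := by simp
      rw [h10]
      have h11 : (v :: (Q' ++ (a :: P'))) = (v :: Q') ++ (a :: P') := by simp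
      rw [h11]
      exact List.perm_append_comm
    · intro z hz
      apply hZ
      have h9 : (v :: (Q' ++ P ++ [u])) = v :: (Q' ++ (a :: P')) := by
        rw [h5]; simp
      rw [h9] at hz
      simp only [List.mem_cons, List.mem_append] at hz ⊢
      tauto

/-- Job REACH. Every member of a valid set is reached from its base by a plain regular path.
Proof: let H be G with the extra edge between x' and y (they are not equal since x' ∉ X). Put Z = insert x (insert x' X), closed. Every matching edge in Z is not a bridge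
of H[Z]: for members of X by validity and monotonicity in the graph and in the set; for x: there is a path of G[insert x X] from x to y, it
does not contain x', then the new edge y x'. By `kotzig` for H there is an alternating cycle of H in Z. If all its arcs are arcs of G,
it contradicts NoAlt. Otherwise an arc u → v uses the new edge: {u, v'} = {x', y}. After mirroring we may assume u = y, v' = x', v = x; rotate the cycle
to start at x: x :: (L' ++ [x]) with last member of x :: L' equal to y (y ≠ x). The remaining arcs do not use the new edge (the matching edges of x and y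
occur only once). So x → … → y is a path of G. -/
theorem reach [Finite V] (hm : IsMate G m) (hU : NoAlt G m) {x y : V} {X : Set V} (hX : Valid G m x X) (hy : y ∈ X) :
    ∃ L, List.IsChain (PArc G m) (x :: (L ++ [y])) ∧ Reg m (x :: (L ++ [y])) ∧ ∀ z ∈ L, z ∈ X := by
  have hmx : m x ∉ X := hX.mate_nmem hm
  have hxy : m x ≠ y := fun h => hmx (h ▸ hy)
  have hyx : y ≠ x := fun h => hX.nmem (h ▸ hy)
  have hmH : IsMate (reachH G (m x) y hxy) m := ⟨hm.invol, fun z => Or.inl (hm.adj z)⟩
  set Z : Set V := insert x (insert (m x) X) with hZdef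
  have hsub : insert x X ⊆ Z := Set.insert_subset_insert (Set.subset_insert _ _)
  have hcl : ∀ z ∈ Z, m z ∈ Z := by
    intro z hz
    rcases hz with h | h | h
    · rw [h]; exact Or.inr (Or.inl rfl)
    · rw [h, hm.invol]; exact Or.inl rfl
    · exact Or.inr (Or.inr (hX.closed z h))
  have hnbx : NB (reachH G (m x) y hxy) m Z x := by
    have h1 : Av (reachH G (m x) y hxy) m Z x x y := by
      refine ReflTransGen.mono ?_ _ _ (hX.conn y hy)
      rintro a b ⟨ha, hb, hab⟩
      refine ⟨hsub ha, hsub hb, Or.inl hab, ?_, ?_⟩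
      · rintro ⟨h1, h2⟩
        rcases hb with h3 | h3
        · exact hm.ne x (h2.symm.trans h3)
        · exact hmx (h2 ▸ h3)
      · rintro ⟨h1, h2⟩
        rcases ha with h3 | h3
        · exact hm.ne x (h1.symm.trans h3)
        · exact hmx (h1 ▸ h3)
    refine ReflTransGen.tail h1 ⟨Or.inr (Or.inr hy), Or.inr (Or.inl rfl), Or.inr (Or.inr ⟨rfl, rfl⟩), ?_, ?_⟩
    · rintro ⟨h1, -⟩; exact hyx h1
    · rintro ⟨h1, -⟩; exact hxy h1.symm
  have hnb : ∀ z ∈ Z, NB (reachH G (m x) y hxy) m Z z := by
    intro z hz
    rcases hz with h | h | h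
    · rw [h]; exact hnbx
    · rw [h]; exact hnbx.mate hmH
    · refine ReflTransGen.mono ?_ _ _ (hX.nb z h)
      rintro a b ⟨ha, hb, hab, h1, h2⟩
      exact ⟨hsub ha, hsub hb, Or.inl hab, h1, h2⟩
  obtain ⟨a, L, hL, hch, hreg, hLZ⟩ := kotzig hmH ⟨x, Or.inl rfl⟩ hcl hnb
  have hn : ¬ List.IsChain (PArc G m) (a :: (L ++ [a])) := by
    intro h
    exact hU a L ⟨hL, h, hreg, fun z _ => Set.mem_univ z⟩
  obtain ⟨v, T, u, h1, h2, h3, h4, h5⟩ := reach_cut hmH hL hch hreg hLZ hn
  obtain ⟨h4, h6⟩ := h4
  rcases h4 with h4 | h4 | h4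
  · exact absurd ⟨h4, h6⟩ h5
  · -- u = m x, m v = y
    obtain ⟨h7, h8⟩ := h4
    have h9 : v = m y := by rw [← h8, hm.invol]
    subst h7 h9
    have h10 : mir m (m y :: (T ++ [m x])) = x :: (mir m T ++ [y]) := by
      rw [mir_cons, mir_append, mir_singleton, hm.invol, hm.invol]
      simp
    have h11 := chain_mir (m := m) (fun a b hab => PArc.mirror hmH hab) h1
    have h12 := (reg_mir_iff (G := reachH G (m x) y hxy) hmH).2 h2
    rw [h10] at h11 h12
    refine reach_core hm hxy h11 h12 ?_
    intro z hz
    have h13 := (mem_mir (G := reachH G (m x) y hxy) hmH).1 hz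
    have h14 := h3 (m z) (by simp [h13])
    have h15 := hcl _ h14
    rwa [hm.invol] at h15
  · obtain ⟨h7, h8⟩ := h4
    have h9 : v = x := hm.inj h8
    subst h7 h9
    exact reach_core hm hxy h1 h2 (fun z hz => h3 z (by simp [hz]))

private theorem red4_last {R : V → V → Prop} {M : List V} {c c' : V} (h : List.IsChain R (M ++ [c]))
    (hc : ∀ t, R t c → R t c') : List.IsChain R (M ++ [c']) := by
  rcases List.eq_nil_or_concat M with rfl | ⟨M', t, hM⟩
  · exact List.isChain_singleton _
  · rw [List.concat_eq_append] at hM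
    subst hM
    have e : ∀ d : V, (M' ++ [t]) ++ [d] = M' ++ t :: [d] := by intro d; simp
    rw [e, List.isChain_split, List.isChain_cons_cons] at h ⊢
    exact ⟨h.1, hc _ h.2.1, List.isChain_singleton _⟩

private theorem red4_split (S : Set V) : ∀ (M : List V) (a : V), a ∈ S →
    ∃ P w N, a :: M = P ++ w :: N ∧ w ∈ S ∧ ∀ z ∈ N, z ∉ S := by
  classical
  intro M
  induction M with
  | nil => intro a ha; exact ⟨[], a, [], rfl, ha, by simp⟩
  | cons b M ih =>
    intro a ha
    by_cases hex : ∃ z ∈ b :: M, z ∈ S
    · -- the last one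
      by_cases hb : b ∈ S
      · obtain ⟨P, w, N, h1, h2, h3⟩ := ih b hb
        exact ⟨a :: P, w, N, by rw [h1]; rfl, h2, h3⟩
      · have ha' := ih a ha
        obtain ⟨P, w, N, h1, h2, h3⟩ := ha'
        rcases P with _ | ⟨a', P'⟩
        · simp only [List.nil_append, List.cons.injEq] at h1
          obtain ⟨rfl, rfl⟩ := h1
          refine ⟨[], a, b :: M, rfl, ha, ?_⟩
          intro z hz
          rcases List.mem_cons.1 hz with rfl | hz
          · exact hb
          · exact h3 z hz
        · simp only [List.cons_append, List.cons.injEq] at h1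
          obtain ⟨rfl, h1⟩ := h1
          exact ⟨a :: b :: P', w, N, by rw [h1]; rfl, h2, h3⟩
    · push Not at hex
      exact ⟨[], a, b :: M, rfl, ha, hex⟩

/-- leaving a set along a path -/
private theorem red4_exit {R : V → V → Prop} {S : Set V} {a b : V} (h : ReflTransGen R a b) (ha : a ∈ S)
    (hb : b ∉ S) : ∃ q p, q ∈ S ∧ p ∉ S ∧ R q p := by
  induction h with
  | refl => exact absurd ha hb
  | @tail c d _ hcd ih =>
    by_cases hc : c ∈ S
    · exact ⟨c, d, hc, hb, hcd⟩
    · exact ih hc

/-- Job RED2. Proof: replace X by X ∪ D v (valid at v), so D v ⊆ X. By connectedness there is an edge from q ∈ insert v (D v) to some p' ∈ X \ D v.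
`reach` gives a plain regular path v → w_1 → … → w_k = p' (nodes in X). Let i < k be the largest index with i = 0 (w_0 = v) or w_i ∈ D v. The list
T = [p, w_{k-1}', …, w_{i+1}'] is regular together with v, its first weak arc from v is the touch through q, the last one to v' is the touch of w_{i+1}' with w_i ∈ insert v (D v).
Apply `red_closed` with the point p ∉ D v. -/
theorem exists_pcw [Finite V] (hm : IsMate G m) (hU : NoAlt G m) (hD : Fam G m D) {v : V} {X : Set V} (hX : Valid G m v X)
    (hne : ¬ X ⊆ D v) : ∃ L, PCW G m D v L ∧ ∀ z ∈ L, z ∈ X ∪ D v := by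
  have hX' := hX.union (hD.valid v)
  obtain ⟨y, hyX, hyD⟩ := Set.not_subset.1 hne
  have hyv : y ∉ insert v (D v) := by
    intro h
    rcases h with rfl | h
    · exact hX.nmem hyX
    · exact hyD h
  obtain ⟨q, p', hq, hp', hqp⟩ := red4_exit (hX'.conn y (Or.inl hyX)) (Set.mem_insert v (D v)) hyv
  have hp'X : p' ∈ X ∪ D v := by
    rcases hqp.2.1 with h | h
    · exact absurd (h ▸ Set.mem_insert _ _) hp'
    · exact h
  have hadj : G.Adj q p' := hqp.2.2
  obtain ⟨L0, hL1, hL2, hL3⟩ := reach hm hU hX' hp'X
  obtain ⟨P, w, N, hPN, hw, hN⟩ := red4_split (insert v (D v)) (L0 ++ [p']) v (Set.mem_insert _ _)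
  have hmemX : ∀ z ∈ L0 ++ [p'], z ∈ X ∪ D v := by
    intro z hz
    rcases List.mem_append.1 hz with h | h
    · exact hL3 z h
    · rw [List.mem_singleton] at h
      rw [h]
      exact hp'X
  -- `N` ends with `p'`
  obtain ⟨N0, hN0⟩ : ∃ N0, N = N0 ++ [p'] := by
    have hl : (v :: (L0 ++ [p'])).getLast? = some p' := by
      rw [← List.cons_append]
      exact List.getLast?_concat ..
    rw [hPN] at hl
    rcases List.eq_nil_or_concat N with rfl | ⟨N0, c, hNc⟩
    · exfalso
      have : w = p' := by simpa using hl
      exact hp' (this ▸ hw)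
    · rw [List.concat_eq_append] at hNc
      refine ⟨N0, ?_⟩
      rw [hNc] at hl ⊢
      have e : P ++ w :: (N0 ++ [c]) = (P ++ w :: N0) ++ [c] := by simp
      rw [e, List.getLast?_concat, Option.some.injEq] at hl
      rw [hl]
  have hNX : ∀ z ∈ N, z ∈ X ∪ D v := by
    intro z hz
    have h1 : z ∈ v :: (L0 ++ [p']) := by
      rw [hPN]
      simp [hz]
    rcases List.mem_cons.1 h1 with rfl | h
    · exact absurd (Set.mem_insert _ _) (hN z hz)
    · exact hmemX z h
  -- the chain
  have hch1 : List.IsChain (PArc G m) (w :: N) := by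
    rw [hPN] at hL1
    exact hL1.right_of_append
  have hch2 : List.IsChain (TArc G m D) (w :: (N0 ++ [p'])) := by
    rw [← hN0]
    exact hch1.imp fun _ _ h => h.tarc
  have hch3 := chain_mir_closed hm (fun a b h => TArc.mirror hm h) hch2
  have hch4 : List.IsChain (TArc G m D) ((m p' :: mir m N0) ++ [m v]) := by
    refine red4_last hch3 ?_
    intro t ht
    have h1 : Touch G D t (m (m w)) := ht
    have h2 : Touch G D t (m (m v)) := by
      rw [hm.invol] at h1 ⊢
      exact red2_touch (red2_sub' hD hw) h1
    exact h2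
  have hmir : mir m N = m p' :: mir m N0 := by
    rw [hN0, mir_append]
    rfl
  have hch5 : List.IsChain (TArc G m D) (v :: (mir m N ++ [m v])) := by
    rw [hmir, List.cons_append, List.isChain_cons_cons]
    refine ⟨?_, hch4⟩
    have h1 : Touch G D v (m (m p')) := by
      rw [hm.invol]
      exact ⟨q, hq, p', Set.mem_insert _ _, Or.inr hadj⟩
    exact h1
  -- regularity
  have hregN : Reg m (v :: N) := by
    rcases P with _ | ⟨v', P'⟩
    · simp only [List.nil_append, List.cons.injEq] at hPN
      rw [hPN.2] at hL2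
      exact hL2
    · simp only [List.cons_append, List.cons.injEq] at hPN
      obtain ⟨rfl, hPN⟩ := hPN
      rw [hPN] at hL2
      refine hL2.sublist (List.Sublist.cons_cons _ ?_)
      exact (List.sublist_cons_self w N).trans (List.sublist_append_right P' (w :: N))
  have hreg5 : Reg m (v :: mir m N) := by
    rw [reg_cons] at hregN ⊢
    refine ⟨?_, (reg_mir_iff hm).2 hregN.2⟩
    intro b hb
    rw [mem_mir hm] at hb
    obtain ⟨h1, h2⟩ := hregN.1 _ hb
    constructor
    · rintro rfl
      exact h2 rfl
    · rintro rfl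
      exact h1 (hm.invol _)
  have hpD : m p' ∉ D v := by
    rw [red2_mate_iff hm hD]
    exact fun h => hp' (Set.mem_insert_of_mem _ h)
  have hpXC : m p' ∈ XC m D v (mir m N) := by
    refine Or.inr ?_
    simp only [Set.mem_iUnion]
    exact ⟨m p', by rw [hmir]; exact List.mem_cons_self .., Or.inl (Or.inl (Or.inl rfl))⟩
  obtain ⟨L', hL'1, hL'2, -⟩ := red_closed hm hU hD (by rw [hmir]; exact List.cons_ne_nil _ _) hch5
    hreg5 hpXC hpD
  refine ⟨L', hL'2, ?_⟩
  intro z hz
  have h1 := hL'1.subset hz
  rw [mem_mir hm] at h1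
  have h2 := hNX _ h1
  have h3 := hX'.closed _ h2
  rwa [hm.invol] at h3

/-- The span of a proper closed walk is valid and not contained in the region of the base. -/
theorem PCW.valid [Finite V] (hm : IsMate G m) (hU : NoAlt G m) (hD : Fam G m D) {v : V} {L : List V} (h : PCW G m D v L) :
    Valid G m v (XC m D v L) ∧ ¬ XC m D v L ⊆ D v ∧ ∀ z ∈ L, z ∈ XC m D v L := by
  obtain ⟨hL, hch, hreg⟩ := h
  have hT : List.IsChain (TArc G m D) (v :: (L ++ [m v])) := hch.imp fun _ _ h => h.tarc
  have hmem : ∀ z ∈ L, z ∈ XC m D v L := by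
    intro z hz
    refine Or.inr ?_
    simp only [Set.mem_iUnion]
    exact ⟨z, hz, Or.inl (Or.inl (Or.inl rfl))⟩
  refine ⟨valid_XC hm hU hD hL hT hreg, ?_, hmem⟩
  intro hsub
  rcases L with _ | ⟨z, L⟩
  · exact hL rfl
  · rw [List.cons_append, List.isChain_cons_cons] at hch
    have h1 : m z ∉ D v := hch.1.2.2.2.1
    exact h1 (red2_mate hD (hsub (hmem z (List.mem_cons_self ..))))

end Pool.Agent.UPM
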