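import Pool.Agent.Lib.MP_0087d5_lc.UPM.Cost

/-!
# The steps of the algorithm

Job STEPS. See notes section 6.
-/

namespace Pool.Agent.UPM

open Relation

variable {V : Type*} {G : SimpleGraph V} {m : V → V} {D : V → Set V} {β : ℕ}

theorem subset_Phi (x : V) : D x ⊆ Phi G m β D x := fun _ hy => TransGen.single (Or.inl hy)

theorem subset_Phih (x : V) : D x ⊆ Phih G m β D x := fun _ hy => TransGen.single (Or.inl hy)

theorem Phih_subset_Phi (x : V) : Phih G m β D x ⊆ Phi G m β D x := by
  intro y hy
  have h : TransGen (fun a b => b ∈ D a ∨ Nrel G m D β a b) x y := by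
    induction hy with
    | single h => exact TransGen.single (h.imp id And.right)
    | tail _ h ih => exact ih.tail (h.imp id And.right)
  exact h

theorem Nrel.mate (hm : IsMate G m) {x y : V} (h : Nrel G m D β x y) : Nrel G m D β x (m y) := by
  obtain ⟨L, hL, h⟩ := h
  refine ⟨L, hL, ?_⟩
  rw [hm.invol]
  exact h.symm

/-- relation of a step allowed at the bases with property `Q` -/
private def stepsR (G : SimpleGraph V) (m : V → V) (D : V → Set V) (β : ℕ) (Q : V → Prop) (a b : V) : Prop :=
  b ∈ D a ∨ (Q a ∧ Nrel G m D β a b)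

private theorem steps_XC (hm : IsMate G m) (Q : V → Prop) {x : V} {L : List V} (hQ : Q x)
    (h : Fnd G m D β x L) {y : V} (hy : y ∈ XC m D x L) : TransGen (stepsR G m D β Q) x y := by
  rcases hy with hy | hy
  · exact TransGen.single (Or.inl hy)
  · obtain ⟨z, hz⟩ := Set.mem_iUnion.1 hy
    obtain ⟨hzL, hz⟩ := Set.mem_iUnion.1 hz
    have h1 : TransGen (stepsR G m D β Q) x z := TransGen.single (Or.inr ⟨hQ, L, h, Or.inl hzL⟩)
    have h2 : TransGen (stepsR G m D β Q) x (m z) :=
      TransGen.single (Or.inr ⟨hQ, L, h, Or.inr (by rw [hm.invol]; exact hzL)⟩)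
    rcases hz with (hz | hz) | hz
    · rcases hz with rfl | hz
      · exact h1
      · rw [Set.mem_singleton_iff] at hz
        subst hz
        exact h2
    · exact h1.tail (Or.inl hz)
    · exact h2.tail (Or.inl hz)

private theorem steps_fam [Finite V] (hm : IsMate G m) (hU : NoAlt G m) (hD : Fam G m D) (Q : V → Prop) :
    Fam G m (fun x => {y | TransGen (stepsR G m D β Q) x y}) := by
  let R : V → Set V := fun a => D a ∪ ⋃₀ {X | Q a ∧ ∃ L, Fnd G m D β a L ∧ X = XC m D a L}
  have hR : ∀ a, Valid G m a (R a) := by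
    intro a
    refine (hD.valid a).union (Valid.sUnion ?_)
    rintro X ⟨_, L, hL, rfl⟩
    exact valid_XC hm hU hD hL.1.1 (hL.1.2.1.imp fun _ _ h => h.tarc) hL.1.2.2
  have key : ∀ x y, TransGen (stepsR G m D β Q) x y ↔ TransGen (fun a b => b ∈ R a) x y := by
    intro x y
    constructor
    · refine (TransGen.mono ?_ : TransGen (stepsR G m D β Q) ≤ TransGen (fun a b => b ∈ R a)) x y
      rintro a b (h | ⟨hQ, L, hL, h⟩)
      · exact Or.inl h
      · refine Or.inr ⟨XC m D a L, ⟨hQ, L, hL, rfl⟩, Or.inr ?_⟩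
        rcases h with h | h
        · exact Set.mem_iUnion.2 ⟨b, Set.mem_iUnion.2 ⟨h, Or.inl (Or.inl (Or.inl rfl))⟩⟩
        · refine Set.mem_iUnion.2 ⟨m b, Set.mem_iUnion.2 ⟨h, Or.inl (Or.inl (Or.inr ?_))⟩⟩
          rw [Set.mem_singleton_iff, hm.invol]
    · refine (TransGen.closed ?_ : TransGen (fun a b => b ∈ R a) ≤ TransGen (stepsR G m D β Q)) x y
      rintro a b (h | ⟨X, ⟨hQ, L, hL, rfl⟩, h⟩)
      · exact TransGen.single (Or.inl h)
      · exact steps_XC hm Q hQ hL h
  have e : (fun x => {y | TransGen (stepsR G m D β Q) x y}) = fun x => {y | TransGen (fun a b => b ∈ R a) x y} := by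
    funext x
    ext y
    exact key x y
  rw [e]
  exact fam_transGen hm hU hR

private theorem Phi_eq : Phi G m β D = fun x => {y | TransGen (stepsR G m D β fun _ => True) x y} := by
  have e : stepsR G m D β (fun _ => True) = fun a b => b ∈ D a ∨ Nrel G m D β a b := by
    funext a b
    simp [stepsR]
  rw [e]
  rfl

private theorem Phih_eq : Phih G m β D = fun x => {y | TransGen (stepsR G m D β fun a => β ≤ (D a).ncard) x y} := rfl

/-- Job STEPS. Proof: let R a be the union of D a and of the sets XC of all closed walks found at a (valid by `valid_XC`, `Valid.sUnion`).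
The transitive closure of the relation in `Phi` equals the one of R: one inclusion since y ∈ L or y' ∈ L gives y ∈ XC; for the other one XC ⊆ Phi:
members z, z' are in Nrel, D z and D z' follow by one more step. Then `fam_transGen`. -/
theorem fam_Phi [Finite V] (hm : IsMate G m) (hU : NoAlt G m) (hD : Fam G m D) : Fam G m (Phi G m β D) := by
  rw [Phi_eq]
  exact steps_fam hm hU hD _

theorem fam_Phih [Finite V] (hm : IsMate G m) (hU : NoAlt G m) (hD : Fam G m D) : Fam G m (Phih G m β D) := by
  rw [Phih_eq]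
  exact steps_fam hm hU hD _

theorem Fnd.subset_Phi (hm : IsMate G m) {x : V} {L : List V} (h : Fnd G m D β x L) : XC m D x L ⊆ Phi G m β D x := by
  rw [Phi_eq]
  exact fun y hy => steps_XC hm (fun _ => True) trivial h hy

theorem Fnd.subset_Phih (hm : IsMate G m) {x : V} {L : List V} (h : Fnd G m D β x L) (hx : β ≤ (D x).ncard) :
    XC m D x L ⊆ Phih G m β D x := by
  rw [Phih_eq]
  exact fun y hy => steps_XC hm (fun a => β ≤ (D a).ncard) hx h hy

/-- Light vertices keep their regions. Proof: if |D x| < β then all y ∈ D x satisfy D y ⊆ D x, so they are light as well; every step from x stays in D x. -/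
theorem Phih_light [Finite V] (hD : Fam G m D) {x : V} (hx : (D x).ncard < β) : Phih G m β D x = D x := by
  refine Set.Subset.antisymm ?_ (subset_Phih x)
  intro y hy
  induction hy with
  | single h =>
    rcases h with h | h
    · exact h
    · exact absurd h.1 (not_le.2 hx)
  | tail _ h ih =>
    rcases h with h | h
    · exact hD.trans x _ ih h
    · exact absurd h.1 (not_le.2 ((Set.ncard_le_ncard (hD.trans x _ ih)).trans_lt hx))

theorem Phih_mono_trans (x y : V) (hy : y ∈ Phih G m β D x) : Phih G m β D y ⊆ Phih G m β D x :=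
  fun _ hz => TransGen.trans hy hz

theorem Clsd.mono {β' : ℕ} (h : Clsd G m β D) (hb : β' ≤ β) : Clsd G m β' D :=
  fun x Y hY h1 h2 h3 => h x Y hY h1 h2 (h3.trans_le hb)

/-- Completeness passes to larger families. -/
theorem Clsd.family_mono {D' : V → Set V} (h : Clsd G m β D) (hD' : Fam G m D') (hDD : ∀ x, D x ⊆ D' x) : Clsd G m β D' :=
  have _ := hD'
  fun x Y hY h1 h2 h3 => (h x Y hY (fun y hy => (hDD y).trans (h1 y hy)) ((hDD x).trans h2) h3).trans (hDD x)

theorem fam_Psi [Finite V] (hm : IsMate G m) (hU : NoAlt G m) (hD : Fam G m D) : Fam G m (Psi G m β D) :=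
  fam_Phih hm hU (fam_Phih hm hU (fam_Phih hm hU (fam_Phi hm hU hD)))

end Pool.Agent.UPM
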