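import Pool.Agent.Lib.MP_0087d5_lc.UPM.Kotzig

/-!
# Valid sets

Jobs VAL1, VAL2. See notes section 2.
-/

namespace Pool.Agent.UPM

open Relation

variable {V : Type*} {G : SimpleGraph V} {m : V → V}

theorem Av.mono {S S' : Set V} (h : S ⊆ S') {w a b : V} (hA : Av G m S w a b) : Av G m S' w a b := by
  refine ReflTransGen.mono ?_ _ _ hA
  rintro a b ⟨h1, h2, h3⟩
  exact ⟨h h1, h h2, h3⟩

theorem NB.mono {S S' : Set V} (h : S ⊆ S') {w : V} (hA : NB G m S w) : NB G m S' w := by
  exact Av.mono h hA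

theorem Conn.mono {S S' : Set V} (h : S ⊆ S') {a b : V} (hA : Conn G S a b) : Conn G S' a b := by
  refine ReflTransGen.mono ?_ _ _ hA
  rintro a b ⟨h1, h2, h3⟩
  exact ⟨h h1, h h2, h3⟩

theorem Av.symm {S : Set V} {w a b : V} (h : Av G m S w a b) : Av G m S w b a := by
  have hs : ∀ a b, Step G m S w a b → Step G m S w b a := by
    rintro a b ⟨h1, h2, h3, h4, h5⟩
    exact ⟨h2, h1, h3.symm, fun h' => h5 ⟨h'.2, h'.1⟩, fun h' => h4 ⟨h'.2, h'.1⟩⟩
  unfold Av at h ⊢
  induction h with
  | refl => exact ReflTransGen.refl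
  | tail _ h2 ih => exact ReflTransGen.head (hs _ _ h2) ih

theorem NB.mate (hm : IsMate G m) {S : Set V} {w : V} (h : NB G m S w) : NB G m S (m w) := by
  have h1 : Av G m S w (m w) w := Av.symm h
  unfold NB Av
  rw [hm.invol]
  refine ReflTransGen.mono ?_ _ _ h1
  rintro a b ⟨h1, h2, h3, h4, h5⟩
  refine ⟨h1, h2, h3, ?_, ?_⟩
  · rw [hm.invol]
    exact h5
  · rw [hm.invol]
    exact h4

theorem Valid.mate_nmem (hm : IsMate G m) {x : V} {X : Set V} (h : Valid G m x X) : m x ∉ X := by
  intro h1
  have h2 := h.closed _ h1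
  rw [hm.invol] at h2
  exact h.nmem h2

theorem Valid.mate_mem_iff (hm : IsMate G m) {x y : V} {X : Set V} (h : Valid G m x X) : m y ∈ X ↔ y ∈ X := by
  constructor
  · intro h1
    have h2 := h.closed _ h1
    rwa [hm.invol] at h2
  · exact h.closed y

theorem Valid.empty (x : V) : Valid G m x ∅ := by
  exact ⟨fun y hy => hy.elim, fun h => h.elim, fun y hy => hy.elim, fun y hy => hy.elim⟩

theorem Valid.union {x : V} {X X' : Set V} (h : Valid G m x X) (h' : Valid G m x X') : Valid G m x (X ∪ X') := by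
  have s1 : insert x X ⊆ insert x (X ∪ X') := Set.insert_subset_insert Set.subset_union_left
  have s2 : insert x X' ⊆ insert x (X ∪ X') := Set.insert_subset_insert Set.subset_union_right
  refine ⟨?_, ?_, ?_, ?_⟩
  · rintro y (hy | hy)
    · exact Or.inl (h.closed y hy)
    · exact Or.inr (h'.closed y hy)
  · rintro (hx | hx)
    · exact h.nmem hx
    · exact h'.nmem hx
  · rintro y (hy | hy)
    · exact (h.conn y hy).mono s1
    · exact (h'.conn y hy).mono s2
  · rintro y (hy | hy)
    · exact (h.nb y hy).mono s1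
    · exact (h'.nb y hy).mono s2

theorem Valid.sUnion {x : V} {𝒳 : Set (Set V)} (h : ∀ X ∈ 𝒳, Valid G m x X) : Valid G m x (⋃₀ 𝒳) := by
  have s1 : ∀ X ∈ 𝒳, insert x X ⊆ insert x (⋃₀ 𝒳) := fun X hX =>
    Set.insert_subset_insert (Set.subset_sUnion_of_mem hX)
  refine ⟨?_, ?_, ?_, ?_⟩
  · rintro y ⟨X, hX, hy⟩
    exact ⟨X, hX, (h X hX).closed y hy⟩
  · rintro ⟨X, hX, hx⟩
    exact (h X hX).nmem hx
  · rintro y ⟨X, hX, hy⟩
    exact ((h X hX).conn y hy).mono (s1 X hX)
  · rintro y ⟨X, hX, hy⟩
    exact ((h X hX).nb y hy).mono (s1 X hX)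

/-- Proof: if x ∈ Y put Z = X ∪ Y; it is closed, it contains x, and the matching edge of each member of Z is not a bridge of G[Z]
(for a member of X because insert x X ⊆ Z, for a member of Y because insert z Y ⊆ Z); `kotzig` contradicts `NoAlt`. -/
theorem Valid.nmem_of_mem [Finite V] (hm : IsMate G m) (hU : NoAlt G m) {x z : V} {X Y : Set V} (hX : Valid G m x X)
    (hz : z ∈ X) (hY : Valid G m z Y) : x ∉ Y := by
  intro hx
  have s1 : insert x X ⊆ X ∪ Y := Set.insert_subset (Or.inr hx) Set.subset_union_left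
  have s2 : insert z Y ⊆ X ∪ Y := Set.insert_subset (Or.inl hz) Set.subset_union_right
  obtain ⟨a, L, h1, h2, h3, -⟩ := kotzig (Z := X ∪ Y) hm ⟨z, Or.inl hz⟩
    (by
      rintro y (hy | hy)
      · exact Or.inl (hX.closed y hy)
      · exact Or.inr (hY.closed y hy))
    (by
      rintro y (hy | hy)
      · exact (hX.nb y hy).mono s1
      · exact (hY.nb y hy).mono s2)
  exact hU a L ⟨h1, h2, h3, fun z _ => Set.mem_univ z⟩

theorem Valid.extend [Finite V] (hm : IsMate G m) (hU : NoAlt G m) {x z : V} {X Y : Set V} (hX : Valid G m x X)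
    (hz : z ∈ X) (hY : Valid G m z Y) : Valid G m x (X ∪ Y) := by
  have s1 : insert x X ⊆ insert x (X ∪ Y) := Set.insert_subset_insert Set.subset_union_left
  have s2 : insert z Y ⊆ insert x (X ∪ Y) :=
    Set.insert_subset (Or.inr (Or.inl hz)) (Set.subset_union_right.trans (Set.subset_insert _ _))
  refine ⟨?_, ?_, ?_, ?_⟩
  · rintro y (hy | hy)
    · exact Or.inl (hX.closed y hy)
    · exact Or.inr (hY.closed y hy)
  · rintro (hx | hx)
    · exact hX.nmem hx
    · exact Valid.nmem_of_mem hm hU hX hz hY hx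
  · rintro y (hy | hy)
    · exact (hX.conn y hy).mono s1
    · exact ((hX.conn z hz).mono s1).trans ((hY.conn y hy).mono s2)
  · rintro y (hy | hy)
    · exact (hX.nb y hy).mono s1
    · exact (hY.nb y hy).mono s2

/-- The largest valid set at `v` inside `Y`. -/
def MaxV (G : SimpleGraph V) (m : V → V) (Y : Set V) (v : V) : Set V := ⋃₀ {X | Valid G m v X ∧ X ⊆ Y}

theorem valid_MaxV (Y : Set V) (v : V) : Valid G m v (MaxV G m Y v) := by
  exact Valid.sUnion fun X hX => hX.1

theorem MaxV_subset (Y : Set V) (v : V) : MaxV G m Y v ⊆ Y := by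
  exact Set.sUnion_subset fun X hX => hX.2

theorem subset_MaxV {Y : Set V} {v : V} {X : Set V} (h : Valid G m v X) (hX : X ⊆ Y) : X ⊆ MaxV G m Y v := by
  exact Set.subset_sUnion_of_mem (show X ∈ {X | Valid G m v X ∧ X ⊆ Y} from ⟨h, hX⟩)

theorem MaxV_trans [Finite V] (hm : IsMate G m) (hU : NoAlt G m) (Y : Set V) (v z : V) (hz : z ∈ MaxV G m Y v) :
    MaxV G m Y z ⊆ MaxV G m Y v := by
  have h1 : Valid G m v (MaxV G m Y v ∪ MaxV G m Y z) :=
    Valid.extend hm hU (valid_MaxV Y v) hz (valid_MaxV Y z)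
  exact Set.subset_union_right.trans (subset_MaxV h1 (Set.union_subset (MaxV_subset Y v) (MaxV_subset Y z)))

theorem fam_MaxV [Finite V] (hm : IsMate G m) (hU : NoAlt G m) (Y : Set V) : Fam G m (MaxV G m Y) := by
  exact ⟨fun x => valid_MaxV Y x, fun x y hy => MaxV_trans hm hU Y x y hy⟩

/-- Job VAL2. The transitive closure of a relation with valid sections is a transitive family of valid sets.
Proof: with Y = univ, induction on the transitive closure gives T x ⊆ MaxV G m univ x, so x ∉ T x. Closed: the last step lands in a section, which is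
closed. Connected: induction along the steps with monotonicity (insert b (R b) ⊆ insert x (T x) for b = x or b ∈ T x).
Nonbridge: y ∈ R b for some b ∈ insert x (T x), then monotonicity. -/
theorem fam_transGen [Finite V] (hm : IsMate G m) (hU : NoAlt G m) {R : V → Set V} (hR : ∀ a, Valid G m a (R a)) :
    Fam G m (fun x => {y | TransGen (fun a b => b ∈ R a) x y}) := by
  set T : V → Set V := fun x => {y | TransGen (fun a b => b ∈ R a) x y} with hT
  have hR1 : ∀ x, R x ⊆ T x := fun x y hy => TransGen.single hy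
  have hR2 : ∀ x, ∀ b ∈ T x, R b ⊆ T x := fun x b hb y hy => TransGen.tail hb hy
  have hI1 : ∀ x, insert x (R x) ⊆ insert x (T x) := fun x => Set.insert_subset_insert (hR1 x)
  have hI2 : ∀ x, ∀ b ∈ T x, insert b (R b) ⊆ insert x (T x) := by
    intro x b hb
    refine Set.insert_subset (Set.mem_insert_of_mem _ hb) ?_
    exact (hR2 x b hb).trans (Set.subset_insert _ _)
  have hMax : ∀ x, T x ⊆ MaxV G m Set.univ x := by
    intro x y hy
    have hy' : TransGen (fun a b => b ∈ R a) x y := hy
    induction hy' with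
    | single h => exact subset_MaxV (hR x) (Set.subset_univ _) h
    | @tail b c hb h ih => exact MaxV_trans hm hU Set.univ x b (ih hb) (subset_MaxV (hR b) (Set.subset_univ _) h)
  refine ⟨fun x => ⟨?_, ?_, ?_, ?_⟩, ?_⟩
  · intro y hy
    have hy' : TransGen (fun a b => b ∈ R a) x y := hy
    cases hy' with
    | single h => exact TransGen.single ((hR x).closed y h)
    | @tail b _ hb h => exact TransGen.tail hb ((hR b).closed y h)
  · intro hx
    exact (valid_MaxV (G := G) (m := m) Set.univ x).nmem (hMax x hx)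
  · intro y hy
    have hy' : TransGen (fun a b => b ∈ R a) x y := hy
    induction hy' with
    | single h => exact ((hR x).conn _ h).mono (hI1 x)
    | @tail b c hb h ih => exact ReflTransGen.trans (ih hb) (((hR b).conn _ h).mono (hI2 x b hb))
  · intro y hy
    have hy' : TransGen (fun a b => b ∈ R a) x y := hy
    cases hy' with
    | single h => exact ((hR x).nb _ h).mono (hI1 x)
    | @tail b _ hb h => exact ((hR b).nb _ h).mono (hI2 x b hb)
  · intro x y hy z hz
    exact TransGen.trans hy hz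

theorem fam_empty [Finite V] : Fam G m (fun _ => ∅) := by
  exact ⟨fun x => Valid.empty x, fun x y hy => hy.elim⟩

end Pool.Agent.UPM
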